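import Pool.Agent.W_7d29a1_NV.DefsNV

/-!
Theorem NV, leaf W: the law of the environment with resampled bounded values.
-/

namespace Pool.Agent.W_7d29a1_NV

open MeasureTheory ProbabilityTheory Filter Topology Pool.Agent.W_MP_7d29a1_pr
  Pool.Agent.W_7d29a1_h46 Pool.Agent.W_7d29a1_h46u Pool.Agent.W_7d29a1_Q29

/-- The pair of two independent product environments is a product environment of pairs. -/
lemma pair96 {ι : Type*} (ρ ν : Measure ℝ) [IsProbabilityMeasure ρ] [IsProbabilityMeasure ν] :
    MeasurePreserving (fun (w : (ι → ℝ) × (ι → ℝ)) (p : ι) => (w.1 p, w.2 p))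
      ((Measure.infinitePi fun _ => ρ).prod (Measure.infinitePi fun _ => ν))
      (Measure.infinitePi fun _ => ρ.prod ν) := by
  classical
  have hm : Measurable (fun (w : (ι → ℝ) × (ι → ℝ)) (p : ι) => (w.1 p, w.2 p)) :=
    measurable_pi_iff.2 fun p => ((measurable_pi_apply p).comp measurable_fst).prodMk
      ((measurable_pi_apply p).comp measurable_snd)
  refine ⟨hm, ?_⟩
  apply Measure.eq_infinitePi
  intro s t ht
  rw [Measure.map_apply hm (.pi s.countable_toSet fun i _ => ht i)]
  have e1 := (MeasureTheory.measurePreserving_arrowProdEquivProdArrow ℝ ℝ s (fun _ => ρ)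
    (fun _ => ν)).symm
  have hS : MeasurableSet (Set.pi (Set.univ : Set s) fun i : s => t i) :=
    MeasurableSet.univ_pi fun i => ht i
  have h1 : (fun (w : (ι → ℝ) × (ι → ℝ)) (p : ι) => (w.1 p, w.2 p)) ⁻¹'
      (Set.pi (s : Set ι) t) =
      (Prod.map s.restrict s.restrict : (ι → ℝ) × (ι → ℝ) → (s → ℝ) × (s → ℝ)) ⁻¹'
        ((MeasurableEquiv.arrowProdEquivProdArrow ℝ ℝ s).symm ⁻¹'
          (Set.pi (Set.univ : Set s) fun i : s => t i)) := by
    ext w
    simp only [Set.mem_preimage, Set.mem_pi, Finset.mem_coe, Set.mem_univ, true_imp_iff,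
      Subtype.forall]
    rfl
  rw [h1, ← Measure.map_apply (by fun_prop) (e1.measurable hS),
    ← Measure.map_prod_map _ _ (by fun_prop) (by fun_prop),
    Measure.infinitePi_map_restrict, Measure.infinitePi_map_restrict,
    e1.measure_preimage hS.nullMeasurableSet, Measure.pi_pi]
  rw [Finset.prod_coe_sort s fun i => (ρ.prod ν) (t i)]

/-- Sitewise maps of two environments. -/
lemma gen96 {ι : Type*} (ρ ν : Measure ℝ) [IsProbabilityMeasure ρ] [IsProbabilityMeasure ν]
    {ψ : ι → ℝ × ℝ → ℝ} (hψ : ∀ p, Measurable (ψ p)) (hl : ∀ p, (ρ.prod ν).map (ψ p) = ρ) :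
    MeasurePreserving (fun (w : (ι → ℝ) × (ι → ℝ)) (p : ι) => ψ p (w.1 p, w.2 p))
      ((Measure.infinitePi fun _ => ρ).prod (Measure.infinitePi fun _ => ν))
      (Measure.infinitePi fun _ => ρ) := by
  have h2 : MeasurePreserving (fun (x : ι → ℝ × ℝ) (p : ι) => ψ p (x p))
      (Measure.infinitePi fun _ => ρ.prod ν) (Measure.infinitePi fun _ => ρ) := by
    refine ⟨measurable_pi_iff.2 fun p => (hψ p).comp (measurable_pi_apply p), ?_⟩
    rw [Measure.infinitePi_map_pi _ hψ]
    congr 1
    funext p
    exact hl p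
  exact h2.comp (pair96 ρ ν)

lemma measurable_cl (b : ℝ) : Measurable (cl b) :=
  measurable_const.max (measurable_const.min measurable_id)

lemma rb_prob {ρ : Measure ℝ} [IsProbabilityMeasure ρ] {b : ℝ} (hb : HB ρ b) :
    IsProbabilityMeasure (rb ρ b) := by
  refine ProbabilityTheory.cond_isProbabilityMeasure ?_
  intro h
  have h1 := hb.half
  rw [Measure.real, h] at h1
  norm_num at h1

lemma one96_meas (b : ℝ) : Measurable (fun q : ℝ × ℝ => if |q.1| ≤ b then cl b q.2 else q.1) :=
  Measurable.ite (measurableSet_le (by fun_prop) measurable_const)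
    ((measurable_cl b).comp measurable_snd) measurable_fst

/-- One site: replacing the bounded values by independent bounded values. -/
lemma one96 {ρ : Measure ℝ} [IsProbabilityMeasure ρ] {b : ℝ} (hb : HB ρ b) :
    (ρ.prod (rb ρ b)).map (fun q : ℝ × ℝ => if |q.1| ≤ b then cl b q.2 else q.1) = ρ := by
  have := rb_prob hb
  have hI : MeasurableSet (Set.Icc (-b) b) := measurableSet_Icc
  have h0 : ρ (Set.Icc (-b) b) ≠ 0 := by
    intro h
    have h1 := hb.half
    rw [Measure.real, h] at h1
    norm_num at h1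
  ext t ht
  rw [Measure.map_apply (one96_meas b) ht]
  have h1 : (fun q : ℝ × ℝ => if |q.1| ≤ b then cl b q.2 else q.1) ⁻¹' t =
      (Set.Icc (-b) b) ×ˢ (cl b ⁻¹' t) ∪ ((t \ Set.Icc (-b) b) ×ˢ Set.univ) := by
    ext ⟨x, y⟩
    simp only [Set.mem_preimage, Set.mem_union, Set.mem_prod, Set.mem_Icc, Set.mem_sdiff,
      Set.mem_univ, and_true, ← abs_le]
    by_cases h : |x| ≤ b <;> simp [h]
  rw [h1, measure_union _ ((ht.diff hI).prod MeasurableSet.univ), Measure.prod_prod,
    Measure.prod_prod, measure_univ, mul_one]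
  · have h2 : rb ρ b (cl b ⁻¹' t) = (ρ (Set.Icc (-b) b))⁻¹ * ρ (t ∩ Set.Icc (-b) b) := by
      rw [rb, ProbabilityTheory.cond_apply hI]
      congr 2
      ext x
      simp only [Set.mem_inter_iff, Set.mem_Icc, Set.mem_preimage]
      constructor
      · rintro ⟨⟨h3, h4⟩, h5⟩
        rw [cl, min_eq_right h4, max_eq_right h3] at h5
        exact ⟨h5, h3, h4⟩
      · rintro ⟨h5, h3, h4⟩
        refine ⟨⟨h3, h4⟩, ?_⟩
        rw [cl, min_eq_right h4, max_eq_right h3]
        exact h5
    rw [h2, ← mul_assoc, ENNReal.mul_inv_cancel h0 (measure_ne_top _ _), one_mul]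
    exact measure_inter_add_sdiff t hI
  · rw [Set.disjoint_left]
    rintro ⟨x, y⟩ ⟨h3, -⟩ ⟨⟨-, h4⟩, -⟩
    exact h4 h3

variable {d : ℕ} {ρ : Measure ℝ} {b : ℝ}

open Classical in
/-- Leaf W1. -/
theorem mix1_96 [IsProbabilityMeasure ρ] (hb : HB ρ b) : Mix1 d ρ b := by
  intro t
  have := rb_prob hb
  have h := gen96 (ι := ℕ × Site d) ρ (rb ρ b)
    (ψ := fun p q => if p.1 = t ∧ |q.1| ≤ b then cl b q.2 else q.1)
    (fun p => by
      by_cases hp : p.1 = t
      · simp only [hp, true_and]
        exact one96_meas b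
      · simp only [hp, false_and, if_false]
        exact measurable_fst)
    (fun p => by
      by_cases hp : p.1 = t
      · simp only [hp, true_and]
        exact one96 hb
      · simp only [hp, false_and, if_false]
        exact measurePreserving_fst.map_eq)
  have e : (fun w : Env d × Env d => mx b t w.1 w.2) =
      fun (w : Env d × Env d) (p : ℕ × Site d) =>
        if p.1 = t ∧ |w.1 p| ≤ b then cl b (w.2 p) else w.1 p := by
    funext w p
    rfl
  rw [e]
  exact h

open Classical in
/-- Leaf W. -/
theorem mix96 [IsProbabilityMeasure ρ] (hb : HB ρ b) : MixT d ρ b := by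
  intro k T _
  have := rb_prob hb
  rcases Nat.eq_zero_or_pos k with hk | hk
  · subst hk
    have e : (fun w : Env d × (Fin 0 → Env d) => mxJ b T w.1 w.2) = Prod.fst := by
      funext w p
      rw [mxJ, dif_neg]
      rintro ⟨⟨i, -⟩, -⟩
      exact i.elim0
    rw [e]
    exact measurePreserving_fst
  · -- the index of the row
    let idx : ℕ × Site d → Fin k := fun p => if h : ∃ i, T i = p.1 then h.choose else ⟨0, hk⟩
    have hinj : Function.Injective (fun p : ℕ × Site d => (idx p, p)) := fun p q h =>
      (Prod.mk.inj h).2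
    have h1 : MeasurePreserving (fun (ξ : Fin k → Env d) (p : ℕ × Site d) => ξ (idx p) p)
        (Measure.pi fun _ => law d (rb ρ b)) (law d (rb ρ b)) := by
      have h2 : MeasurePreserving (MeasurableEquiv.curry (Fin k) (ℕ × Site d) ℝ).symm
          (Measure.pi fun _ : Fin k => law d (rb ρ b))
          (Measure.infinitePi fun _ : Fin k × (ℕ × Site d) => rb ρ b) := by
        rw [← Measure.infinitePi_eq_pi]
        exact ⟨(MeasurableEquiv.curry (Fin k) (ℕ × Site d) ℝ).symm.measurable,
          Measure.infinitePi_map_curry_symm (fun (_ : Fin k) (_ : ℕ × Site d) => rb ρ b)⟩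
      exact (LawU_reindex (ρ := rb ρ b) hinj).comp h2
    have h := gen96 (ι := ℕ × Site d) ρ (rb ρ b)
      (ψ := fun p q => if (∃ i, T i = p.1) ∧ |q.1| ≤ b then cl b q.2 else q.1)
      (fun p => by
        by_cases hp : ∃ i, T i = p.1
        · simp only [hp, true_and]
          exact one96_meas b
        · simp only [hp, false_and, if_false]
          exact measurable_fst)
      (fun p => by
        by_cases hp : ∃ i, T i = p.1
        · simp only [hp, true_and]
          exact one96 hb
        · simp only [hp, false_and, if_false]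
          exact measurePreserving_fst.map_eq)
    have h3 : MeasurePreserving (fun w : Env d × (Fin k → Env d) =>
        ((w.1, fun p => w.2 (idx p) p) : Env d × Env d))
        ((law d ρ).prod (Measure.pi fun _ => law d (rb ρ b)))
        ((law d ρ).prod (law d (rb ρ b))) :=
      (MeasurePreserving.id _).prod h1
    have e : (fun w : Env d × (Fin k → Env d) => mxJ b T w.1 w.2) =
        (fun (w : Env d × Env d) (p : ℕ × Site d) =>
          if (∃ i, T i = p.1) ∧ |w.1 p| ≤ b then cl b (w.2 p) else w.1 p) ∘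
        (fun w : Env d × (Fin k → Env d) => ((w.1, fun p => w.2 (idx p) p) : Env d × Env d)) := by
      funext w p
      simp only [Function.comp, mxJ]
      by_cases hp : (∃ i, T i = p.1) ∧ |w.1 p| ≤ b
      · rw [dif_pos hp, if_pos hp]
        simp only [idx, dif_pos hp.1]
      · rw [dif_neg hp, if_neg hp]
    rw [e]
    exact MeasurePreserving.comp h h3

end Pool.Agent.W_7d29a1_NV
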