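import Pool.Agent.W_7d29a1_NV.Kl52

/-!
The selection of classes: the union bound.
-/

namespace Pool.Agent.W_7d29a1_NV.Kl52

open Finset MeasureTheory

variable {ι : Type*}

/-- Jensen for the logarithm, one line. -/
lemma int_log_le {Ω : Type*} [MeasurableSpace Ω] {μ : Measure Ω} [IsProbabilityMeasure μ]
    {f : Ω → ℝ} {m : ℝ} (hf : Integrable f μ) (hpos : ∀ w, 0 < f w)
    (hl : Integrable (fun w => Real.log (f w)) μ) (hm : 0 < m) (hfm : ∫ w, f w ∂μ ≤ m) :
    ∫ w, Real.log (f w) ∂μ ≤ Real.log m := by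
  have h1 : ∫ w, Real.log (f w) ∂μ ≤ ∫ w, (f w / m + (Real.log m - 1)) ∂μ := by
    refine integral_mono hl ((hf.div_const _).add (integrable_const _)) fun w => ?_
    have h3 := Real.log_le_sub_one_of_pos (div_pos (hpos w) hm)
    rw [Real.log_div (hpos w).ne' hm.ne'] at h3
    simp only
    linarith
  rw [integral_add (hf.div_const _) (integrable_const _), integral_div] at h1
  simp only [integral_const, probReal_univ, one_smul] at h1
  have h2 : (∫ w, f w ∂μ) / m ≤ 1 := by rwa [div_le_one hm]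
  linarith

open Classical in
/-- (4) The selection over the classes: the classes of `AA` by the union bound, the others by their
total weight. -/
theorem four52 {Ω : Type*} [MeasurableSpace Ω] {μ : Measure Ω} [IsProbabilityMeasure μ]
    {s AA : Finset ι} (hA : AA ⊆ s) {p G : ι → Ω → ℝ} {Q : ι → ℝ} {F : Ω → ℝ} {th M B : ℝ}
    (hth : 0 < th) (hM0 : 0 ≤ M)
    (hQ : ∀ a ∈ s, 0 < Q a) (hp : ∀ a ∈ s, ∀ w, p a w = Q a * Real.exp (G a w - F w))
    (hp1 : ∀ w, ∑ a ∈ s, p a w = 1) (hG : ∀ a ∈ s, Integrable (G a) μ)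
    (hm : ∀ a ∈ s, AEStronglyMeasurable (p a) μ)
    (hM : ∀ a ∈ AA, Integrable (fun w => Real.exp (th * (G a w - ∫ v, G a v ∂μ))) μ ∧
      ∫ w, Real.exp (th * (G a w - ∫ v, G a v ∂μ)) ∂μ ≤ M)
    (hB : ∀ a ∈ s, a ∉ AA → Integrable (fun w => Real.exp (2 * (G a w - F w))) μ ∧
      Integrable (fun w => (G a w - ∫ v, G a v ∂μ) ^ 2) μ ∧
      (∫ w, Real.exp (2 * (G a w - F w)) ∂μ + ∫ w, (G a w - ∫ v, G a v ∂μ) ^ 2 ∂μ) / 2 ≤ B) :
    ∫ w, ∑ a ∈ s, p a w * (G a w - ∫ v, G a v ∂μ) ∂μ ≤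
      1 / th * Real.log (1 + AA.card * M) + (∑ a ∈ s \ AA, Q a) * B := by
  have hpos : ∀ a ∈ s, ∀ w, 0 < p a w := fun a ha w => by
    rw [hp a ha w]; exact mul_pos (hQ a ha) (Real.exp_pos _)
  have hle : ∀ a ∈ s, ∀ w, p a w ≤ 1 := fun a ha w => by
    rw [← hp1 w]; exact Finset.single_le_sum (fun b hb => (hpos b hb w).le) ha
  have hi : ∀ a ∈ s, Integrable (fun w => p a w * (G a w - ∫ v, G a v ∂μ)) μ := by
    intro a ha
    refine ((hG a ha).sub (integrable_const _)).bdd_mul (c := 1) (hm a ha) ?_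
    refine Filter.Eventually.of_forall fun w => ?_
    rw [Real.norm_eq_abs, abs_of_pos (hpos a ha w)]
    exact hle a ha w
  have hsplit : ∫ w, ∑ a ∈ s, p a w * (G a w - ∫ v, G a v ∂μ) ∂μ =
      ∫ w, ∑ a ∈ AA, p a w * (G a w - ∫ v, G a v ∂μ) ∂μ +
        ∑ a ∈ s \ AA, ∫ w, p a w * (G a w - ∫ v, G a v ∂μ) ∂μ := by
    rw [← integral_finset_sum (s \ AA) (fun a ha => hi a (Finset.mem_sdiff.1 ha).1),
      ← integral_add (integrable_finset_sum AA fun a ha => hi a (hA ha))
        (integrable_finset_sum (s \ AA) fun a ha => hi a (Finset.mem_sdiff.1 ha).1)]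
    congr 1
    funext w
    rw [add_comm, Finset.sum_sdiff hA]
  have hin : Integrable (fun w => ∑ a ∈ AA, Real.exp (th * (G a w - ∫ v, G a v ∂μ))) μ :=
    integrable_finset_sum AA fun a ha => (hM a ha).1
  have h0 : ∀ w, 0 ≤ ∑ a ∈ AA, Real.exp (th * (G a w - ∫ v, G a v ∂μ)) :=
    fun w => Finset.sum_nonneg fun a _ => (Real.exp_pos _).le
  have hf : Integrable (fun w => 1 + ∑ a ∈ AA, Real.exp (th * (G a w - ∫ v, G a v ∂μ))) μ :=
    (integrable_const _).add hin
  have hl : Integrable (fun w => Real.log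
      (1 + ∑ a ∈ AA, Real.exp (th * (G a w - ∫ v, G a v ∂μ)))) μ := by
    refine hin.mono' (Real.measurable_log.comp_aemeasurable
      hf.aestronglyMeasurable.aemeasurable).aestronglyMeasurable ?_
    refine Filter.Eventually.of_forall fun w => ?_
    have h1 := h0 w
    rw [Real.norm_eq_abs, abs_of_nonneg (Real.log_nonneg (by linarith))]
    have := Real.log_le_sub_one_of_pos
      (by linarith : 0 < 1 + ∑ a ∈ AA, Real.exp (th * (G a w - ∫ v, G a v ∂μ)))
    linarith
  have hfirst : ∫ w, ∑ a ∈ AA, p a w * (G a w - ∫ v, G a v ∂μ) ∂μ ≤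
      1 / th * Real.log (1 + AA.card * M) := by
    have h1 : ∫ w, ∑ a ∈ AA, p a w * (G a w - ∫ v, G a v ∂μ) ∂μ ≤
        ∫ w, 1 / th * Real.log (1 + ∑ a ∈ AA, Real.exp (th * (G a w - ∫ v, G a v ∂μ))) ∂μ := by
      refine integral_mono (integrable_finset_sum AA fun a ha => hi a (hA ha))
        (hl.const_mul _) fun w => ?_
      refine softmax (x := fun a => G a w - ∫ v, G a v ∂μ) hth
        (fun a ha => (hpos a (hA ha) w).le) ?_
      rw [← hp1 w]
      exact Finset.sum_le_sum_of_subset_of_nonneg hA fun a ha _ => (hpos a ha w).le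
    rw [integral_const_mul] at h1
    refine h1.trans (mul_le_mul_of_nonneg_left ?_ (by positivity))
    refine int_log_le hf (fun w => by have := h0 w; linarith) hl (by positivity) ?_
    rw [integral_add (integrable_const _) hin, integral_finset_sum AA fun a ha => (hM a ha).1]
    simp only [integral_const, probReal_univ, one_smul]
    have : ∑ a ∈ AA, ∫ w, Real.exp (th * (G a w - ∫ v, G a v ∂μ)) ∂μ ≤ ∑ _a ∈ AA, M :=
      Finset.sum_le_sum fun a ha => (hM a ha).2
    rw [Finset.sum_const, nsmul_eq_mul] at this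
    linarith
  have hsecond : ∑ a ∈ s \ AA, ∫ w, p a w * (G a w - ∫ v, G a v ∂μ) ∂μ ≤
      (∑ a ∈ s \ AA, Q a) * B := by
    rw [Finset.sum_mul]
    refine Finset.sum_le_sum fun a ha => ?_
    obtain ⟨has, haA⟩ := Finset.mem_sdiff.1 ha
    obtain ⟨hb1, hb2, hb3⟩ := hB a has haA
    have h1 : ∫ w, p a w * (G a w - ∫ v, G a v ∂μ) ∂μ ≤
        ∫ w, Q a * ((Real.exp (2 * (G a w - F w)) + (G a w - ∫ v, G a v ∂μ) ^ 2) / 2) ∂μ := by
      refine integral_mono (hi a has) (((hb1.add hb2).div_const 2).const_mul _) fun w => ?_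
      rw [hp a has w, mul_assoc]
      refine mul_le_mul_of_nonneg_left ?_ (hQ a has).le
      have e : Real.exp (2 * (G a w - F w)) = Real.exp (G a w - F w) ^ 2 := by
        rw [← Real.exp_nat_mul]; norm_num
      rw [e]
      nlinarith [sq_nonneg (Real.exp (G a w - F w) - (G a w - ∫ v, G a v ∂μ))]
    refine h1.trans ?_
    rw [integral_const_mul, integral_div, integral_add hb1 hb2]
    exact mul_le_mul_of_nonneg_left hb3 (hQ a has).le
  rw [hsplit]
  exact add_le_add hfirst hsecond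

end Pool.Agent.W_7d29a1_NV.Kl52
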