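import Pool.Agent.W_7d29a1_NV.DefsNV
import Pool.Agent.W_7d29a1_NV.Four52

/-!
Leaf T1 (`OneT`) of Theorem NV: the last steps (S5, S6 and the assembly), from the estimate of the
conditional laws given the coarse classes (S4).
-/

namespace Pool.Agent.W_7d29a1_NV

open MeasureTheory ProbabilityTheory Filter Topology Kl52

section Abs

variable {Ω S A : Type} [MeasurableSpace Ω] [Fintype S] [Fintype A] {k : ℕ}

open Classical in
/-- The base mass of the coarse class `a`. -/
noncomputable def Qa52 (f : S → A) (Q : S → ℝ) (a : A) : ℝ := ∑ s, if f s = a then Q s else 0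

/-- The gain `∑ (log u_i - psi_i)`. -/
noncomputable def H52 (P : Measure Ω) (u : Fin k → S → Ω → ℝ) (ω : Fin k → Ω) (s : S) : ℝ :=
  ∑ i, (Real.log (u i s (ω i)) - psT P u i s)

open Classical in
/-- The gain of the row `i` averaged over the base law of the class `a`. -/
noncomputable def tau52 (P : Measure Ω) (f : S → A) (Q : S → ℝ) (u : Fin k → S → Ω → ℝ) (a : A)
    (i : Fin k) (x : Ω) : ℝ :=
  ∑ s, if f s = a then (Q s / Qa52 f Q a) * (Real.log (u i s x) - psT P u i s) else 0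

variable {P : Measure Ω} {Q : S → ℝ} {u : Fin k → S → Ω → ℝ} {B : ℝ}

lemma HT.u0 (h : HT P Q u B) (i : Fin k) (s : S) (x : Ω) : 0 < u i s x :=
  (Real.exp_pos _).trans_le (h.lo i s x)

lemma HT.lg (h : HT P Q u B) (i : Fin k) (s : S) (x : Ω) : |Real.log (u i s x)| ≤ B := by
  rw [abs_le]
  constructor
  · rw [← Real.log_exp (-B)]
    exact Real.log_le_log (Real.exp_pos _) (h.lo i s x)
  · rw [← Real.log_exp B]
    exact Real.log_le_log (h.u0 i s x) (h.hi i s x)

lemma HT.lm (h : HT P Q u B) (i : Fin k) (s : S) : Measurable fun x => Real.log (u i s x) :=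
  Real.measurable_log.comp (h.um i s)

lemma HT.li [IsProbabilityMeasure P] (h : HT P Q u B) (i : Fin k) (s : S) :
    Integrable (fun x => Real.log (u i s x)) P :=
  (integrable_const B).mono' (h.lm i s).aestronglyMeasurable
    (Filter.Eventually.of_forall fun x => by rw [Real.norm_eq_abs]; exact h.lg i s x)

lemma HT.ps [IsProbabilityMeasure P] (h : HT P Q u B) (i : Fin k) (s : S) : |psT P u i s| ≤ B := by
  unfold psT
  refine (abs_integral_le_integral_abs).trans ?_
  have := integral_mono (h.li i s).abs (integrable_const (μ := P) B) (fun x => h.lg i s x)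
  simpa using this

lemma HT.lps [IsProbabilityMeasure P] (h : HT P Q u B) (i : Fin k) (s : S) (x : Ω) :
    |Real.log (u i s x) - psT P u i s| ≤ 2 * B := by
  have h1 := abs_le.1 (h.lg i s x)
  have h2 := abs_le.1 (h.ps i s)
  rw [abs_le]
  constructor <;> linarith [h1.1, h1.2, h2.1, h2.2]

lemma HT.Hle [IsProbabilityMeasure P] (h : HT P Q u B) (ω : Fin k → Ω) (s : S) :
    |H52 P u ω s| ≤ 2 * B * k := by
  unfold H52
  refine (Finset.abs_sum_le_sum_abs _ _).trans ?_
  refine (Finset.sum_le_sum fun i _ => h.lps i s (ω i)).trans (le_of_eq ?_)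
  rw [Finset.sum_const, Finset.card_univ, Fintype.card_fin, nsmul_eq_mul]
  ring

lemma HT.Hm (h : HT P Q u B) (s : S) : Measurable fun ω => H52 P u ω s := by
  unfold H52
  exact Finset.measurable_sum _ fun i _ =>
    ((h.lm i s).comp (measurable_pi_apply i)).sub measurable_const

lemma HT.wm (h : HT P Q u B) (s : S) : Measurable fun ω => wT Q u ω s := by
  unfold wT
  exact measurable_const.mul (Finset.measurable_prod _ fun i _ =>
    (h.um i s).comp (measurable_pi_apply i))

lemma HT.dm (h : HT P Q u B) : Measurable fun ω => dT Q u ω := by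
  unfold dT
  exact Finset.measurable_sum _ fun s _ => h.wm s

lemma HT.pm (h : HT P Q u B) (s : S) : Measurable fun ω => prT Q u ω s := by
  unfold prT
  exact (h.wm s).div h.dm

lemma HT.cm (h : HT P Q u B) (f : S → A) (a : A) : Measurable fun ω => clT f Q u ω a := by
  unfold clT
  refine Finset.measurable_sum _ fun s _ => ?_
  by_cases hs : f s = a
  · simpa [hs] using h.pm s
  · simp [hs]

lemma HT.prod_lo (h : HT P Q u B) (ω : Fin k → Ω) (s : S) :
    Real.exp (-(B * k)) ≤ ∏ i, u i s (ω i) := by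
  have : Real.exp (-(B * k)) = ∏ _i : Fin k, Real.exp (-B) := by
    rw [Finset.prod_const, Finset.card_univ, Fintype.card_fin, ← Real.exp_nat_mul]
    congr 1; ring
  rw [this]
  exact Finset.prod_le_prod (fun i _ => (Real.exp_pos _).le) fun i _ => h.lo i s (ω i)

lemma HT.prod_hi (h : HT P Q u B) (ω : Fin k → Ω) (s : S) :
    ∏ i, u i s (ω i) ≤ Real.exp (B * k) := by
  have : Real.exp (B * k) = ∏ _i : Fin k, Real.exp B := by
    rw [Finset.prod_const, Finset.card_univ, Fintype.card_fin, ← Real.exp_nat_mul]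
    congr 1; ring
  rw [this]
  exact Finset.prod_le_prod (fun i _ => (h.u0 i s (ω i)).le) fun i _ => h.hi i s (ω i)

lemma HT.d_lo (h : HT P Q u B) (ω : Fin k → Ω) : Real.exp (-(B * k)) ≤ dT Q u ω := by
  unfold dT wT
  calc Real.exp (-(B * k)) = ∑ s, Q s * Real.exp (-(B * k)) := by
        rw [← Finset.sum_mul, h.q1, one_mul]
    _ ≤ _ := Finset.sum_le_sum fun s _ => mul_le_mul_of_nonneg_left (h.prod_lo ω s) (h.q0 s)

lemma HT.d_hi (h : HT P Q u B) (ω : Fin k → Ω) : dT Q u ω ≤ Real.exp (B * k) := by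
  unfold dT wT
  calc _ ≤ ∑ s, Q s * Real.exp (B * k) :=
        Finset.sum_le_sum fun s _ => mul_le_mul_of_nonneg_left (h.prod_hi ω s) (h.q0 s)
    _ = _ := by rw [← Finset.sum_mul, h.q1, one_mul]

lemma HT.d0 (h : HT P Q u B) (ω : Fin k → Ω) : 0 < dT Q u ω :=
  (Real.exp_pos _).trans_le (h.d_lo ω)

lemma HT.w0 (h : HT P Q u B) (ω : Fin k → Ω) (s : S) : 0 ≤ wT Q u ω s :=
  mul_nonneg (h.q0 s) (Finset.prod_nonneg fun i _ => (h.u0 i s (ω i)).le)

lemma HT.p0 (h : HT P Q u B) (ω : Fin k → Ω) (s : S) : 0 ≤ prT Q u ω s :=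
  div_nonneg (h.w0 ω s) (h.d0 ω).le

lemma HT.p1 (h : HT P Q u B) (ω : Fin k → Ω) : ∑ s, prT Q u ω s = 1 := by
  unfold prT
  rw [← Finset.sum_div]
  exact div_self (h.d0 ω).ne'

lemma HT.p_hi (h : HT P Q u B) (ω : Fin k → Ω) (s : S) :
    prT Q u ω s ≤ Real.exp (2 * B * k) * Q s := by
  unfold prT
  rw [div_le_iff₀ (h.d0 ω)]
  have h1 : wT Q u ω s ≤ Q s * Real.exp (B * k) :=
    mul_le_mul_of_nonneg_left (h.prod_hi ω s) (h.q0 s)
  have h2 : Real.exp (2 * B * k) * Real.exp (-(B * k)) = Real.exp (B * k) := by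
    rw [← Real.exp_add]; congr 1; ring
  calc wT Q u ω s ≤ Q s * Real.exp (B * k) := h1
    _ = Real.exp (2 * B * k) * Q s * Real.exp (-(B * k)) := by rw [← h2]; ring
    _ ≤ _ := mul_le_mul_of_nonneg_left (h.d_lo ω) (mul_nonneg (Real.exp_pos _).le (h.q0 s))

lemma HT.c0 (h : HT P Q u B) (f : S → A) (ω : Fin k → Ω) (a : A) : 0 ≤ clT f Q u ω a := by
  unfold clT
  refine Finset.sum_nonneg fun s _ => ?_
  split_ifs
  · exact h.p0 ω s
  · exact le_rfl

lemma HT.c1 (h : HT P Q u B) (f : S → A) (ω : Fin k → Ω) : ∑ a, clT f Q u ω a = 1 := by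
  classical
  unfold clT
  rw [Finset.sum_comm]
  rw [← h.p1 ω]
  refine Finset.sum_congr rfl fun s _ => ?_
  simp

lemma HT.Qa0 (h : HT P Q u B) (f : S → A) (a : A) : 0 ≤ Qa52 f Q a := by
  unfold Qa52
  refine Finset.sum_nonneg fun s _ => ?_
  split_ifs
  · exact h.q0 s
  · exact le_rfl

lemma HT.c_hi (h : HT P Q u B) (f : S → A) (ω : Fin k → Ω) (a : A) :
    clT f Q u ω a ≤ Real.exp (2 * B * k) * Qa52 f Q a := by
  unfold clT Qa52
  rw [Finset.mul_sum]
  refine Finset.sum_le_sum fun s _ => ?_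
  split_ifs
  · exact h.p_hi ω s
  · simp

open Classical in
lemma HT.wa (h : HT P Q u B) (f : S → A) (a : A) :
    ∑ s, (if f s = a then Q s / Qa52 f Q a else 0) ≤ 1 := by
  have h1 : ∑ s, (if f s = a then Q s / Qa52 f Q a else 0) = Qa52 f Q a / Qa52 f Q a := by
    conv_rhs => rw [Qa52, Finset.sum_div]
    refine Finset.sum_congr rfl fun s _ => ?_
    split_ifs
    · rw [Qa52]
    · simp
  rw [h1]
  exact div_self_le_one _

lemma HT.tau_le [IsProbabilityMeasure P] (h : HT P Q u B) (hB : 1 ≤ B) (f : S → A) (a : A)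
    (i : Fin k) (x : Ω) : |tau52 P f Q u a i x| ≤ 2 * B := by
  classical
  unfold tau52
  refine (Finset.abs_sum_le_sum_abs _ _).trans ?_
  have h1 : ∀ s ∈ (Finset.univ : Finset S),
      |if f s = a then Q s / Qa52 f Q a * (Real.log (u i s x) - psT P u i s) else 0| ≤
      (if f s = a then Q s / Qa52 f Q a else 0) * (2 * B) := by
    intro s _
    split_ifs
    · rw [abs_mul, abs_of_nonneg (div_nonneg (h.q0 s) (h.Qa0 f a))]
      exact mul_le_mul_of_nonneg_left (h.lps i s x) (div_nonneg (h.q0 s) (h.Qa0 f a))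
    · simp
  refine (Finset.sum_le_sum h1).trans ?_
  rw [← Finset.sum_mul]
  have := h.wa f a
  nlinarith

lemma HT.tau_m (h : HT P Q u B) (f : S → A) (a : A) (i : Fin k) :
    Measurable (tau52 P f Q u a i) := by
  unfold tau52
  refine Finset.measurable_sum _ fun s _ => ?_
  split_ifs
  · exact measurable_const.mul ((h.lm i s).sub measurable_const)
  · exact measurable_const

lemma HT.tau_i [IsProbabilityMeasure P] (h : HT P Q u B) (hB : 1 ≤ B) (f : S → A) (a : A)
    (i : Fin k) : Integrable (tau52 P f Q u a i) P :=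
  (integrable_const (2 * B)).mono' (h.tau_m f a i).aestronglyMeasurable
    (Filter.Eventually.of_forall fun x => by rw [Real.norm_eq_abs]; exact h.tau_le hB f a i x)

lemma HT.tau_0 [IsProbabilityMeasure P] (h : HT P Q u B) (f : S → A) (a : A) (i : Fin k) :
    ∫ x, tau52 P f Q u a i x ∂P = 0 := by
  classical
  unfold tau52
  rw [integral_finset_sum]
  · refine Finset.sum_eq_zero fun s _ => ?_
    split_ifs
    · rw [integral_const_mul, integral_sub (h.li i s) (integrable_const _), integral_const]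
      simp [psT]
    · simp
  · intro s _
    split_ifs
    · exact ((h.li i s).sub (integrable_const _)).const_mul _
    · exact integrable_zero _ _ _

/-- S6: the exponential moment of the averaged gain. -/
lemma HT.mgf [IsProbabilityMeasure P] (h : HT P Q u B) (hB : 1 ≤ B) (f : S → A) (a : A) {θ : ℝ}
    (h0 : 0 < θ) (h1 : θ ≤ 1 / (2 * B)) :
    Integrable (fun ω : Fin k → Ω => Real.exp (θ * ∑ i, tau52 P f Q u a i (ω i)))
      (Measure.pi fun _ => P) ∧
    ∫ ω : Fin k → Ω, Real.exp (θ * ∑ i, tau52 P f Q u a i (ω i)) ∂(Measure.pi fun _ => P) ≤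
      Real.exp (4 * B ^ 2 * θ ^ 2 * k) := by
  have hle : ∀ i x, |θ * tau52 P f Q u a i x| ≤ 1 := by
    intro i x
    rw [abs_mul, abs_of_pos h0]
    have := h.tau_le hB f a i x
    calc θ * |tau52 P f Q u a i x| ≤ θ * (2 * B) := mul_le_mul_of_nonneg_left this h0.le
      _ ≤ 1 / (2 * B) * (2 * B) := mul_le_mul_of_nonneg_right h1 (by linarith)
      _ = 1 := by field_simp
  have hm : ∀ i, Measurable fun x => Real.exp (θ * tau52 P f Q u a i x) := fun i =>
    Real.measurable_exp.comp ((h.tau_m f a i).const_mul _)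
  have hb : ∀ i x, Real.exp (θ * tau52 P f Q u a i x) ≤ Real.exp 1 := fun i x =>
    Real.exp_le_exp.2 ((abs_le.1 (hle i x)).2)
  have e : (fun ω : Fin k → Ω => Real.exp (θ * ∑ i, tau52 P f Q u a i (ω i))) =
      fun ω => ∏ i, Real.exp (θ * tau52 P f Q u a i (ω i)) := by
    funext ω
    rw [Finset.mul_sum, Real.exp_sum]
  constructor
  · rw [e]
    refine (integrable_const (Real.exp 1 ^ k)).mono' ?_ (Filter.Eventually.of_forall fun ω => ?_)
    · exact (Finset.measurable_prod _ fun i _ =>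
        (hm i).comp (measurable_pi_apply i)).aestronglyMeasurable
    · rw [Real.norm_eq_abs, abs_of_nonneg (Finset.prod_nonneg fun i _ => (Real.exp_pos _).le)]
      calc ∏ i, Real.exp (θ * tau52 P f Q u a i (ω i)) ≤ ∏ _i : Fin k, Real.exp 1 :=
            Finset.prod_le_prod (fun i _ => (Real.exp_pos _).le) fun i _ => hb i (ω i)
        _ = Real.exp 1 ^ k := by rw [Finset.prod_const, Finset.card_univ, Fintype.card_fin]
  · rw [e, integral_fintype_prod_eq_prod (fun i x => Real.exp (θ * tau52 P f Q u a i x))]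
    have h2 : ∀ i, ∫ x, Real.exp (θ * tau52 P f Q u a i x) ∂P ≤ Real.exp (4 * B ^ 2 * θ ^ 2) := by
      intro i
      have h3 : ∀ x, Real.exp (θ * tau52 P f Q u a i x) ≤
          (1 + 4 * B ^ 2 * θ ^ 2) + θ * tau52 P f Q u a i x := by
        intro x
        have h4 := Real.abs_exp_sub_one_sub_id_le (hle i x)
        have h5 := (abs_le.1 h4).2
        have h6 : (θ * tau52 P f Q u a i x) ^ 2 ≤ 4 * B ^ 2 * θ ^ 2 := by
          have h7 := h.tau_le hB f a i x
          have h8 : (tau52 P f Q u a i x) ^ 2 ≤ (2 * B) ^ 2 :=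
            sq_le_sq' (by linarith [(abs_le.1 h7).1]) (abs_le.1 h7).2
          have h9 : 0 ≤ θ ^ 2 := sq_nonneg _
          nlinarith
        linarith
      have h10 : Integrable (fun x => Real.exp (θ * tau52 P f Q u a i x)) P :=
        (integrable_const (Real.exp 1)).mono' (hm i).aestronglyMeasurable
          (Filter.Eventually.of_forall fun x => by
            rw [Real.norm_eq_abs, abs_of_pos (Real.exp_pos _)]; exact hb i x)
      have h11 := integral_mono h10
        ((integrable_const (1 + 4 * B ^ 2 * θ ^ 2)).add ((h.tau_i hB f a i).const_mul θ)) h3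
      have h12 : ∫ x, ((1 + 4 * B ^ 2 * θ ^ 2) + θ * tau52 P f Q u a i x) ∂P =
          1 + 4 * B ^ 2 * θ ^ 2 := by
        have : ∫ x, ((1 + 4 * B ^ 2 * θ ^ 2) + θ * tau52 P f Q u a i x) ∂P =
            ∫ _x, (1 + 4 * B ^ 2 * θ ^ 2) ∂P + ∫ x, θ * tau52 P f Q u a i x ∂P :=
          integral_add (integrable_const _) ((h.tau_i hB f a i).const_mul θ)
        rw [this, integral_const_mul, h.tau_0 f a i]
        simp
      have h13 := Real.add_one_le_exp (4 * B ^ 2 * θ ^ 2)
      have h14 : ∫ x, Real.exp (θ * tau52 P f Q u a i x) ∂P ≤ 1 + 4 * B ^ 2 * θ ^ 2 :=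
        h11.trans (le_of_eq h12)
      linarith
    calc ∏ i, ∫ x, Real.exp (θ * tau52 P f Q u a i x) ∂P ≤
          ∏ _i : Fin k, Real.exp (4 * B ^ 2 * θ ^ 2) :=
          Finset.prod_le_prod (fun i _ => integral_nonneg fun x => (Real.exp_pos _).le)
            fun i _ => h2 i
      _ = Real.exp (4 * B ^ 2 * θ ^ 2 * k) := by
          rw [Finset.prod_const, Finset.card_univ, Fintype.card_fin, ← Real.exp_nat_mul]
          congr 1; ring

open Classical in
/-- The gain of the class `a`. -/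
noncomputable def T52 (P : Measure Ω) (f : S → A) (Q : S → ℝ) (u : Fin k → S → Ω → ℝ)
    (ω : Fin k → Ω) (a : A) : ℝ := ∑ s, if f s = a then (Q s / Qa52 f Q a) * H52 P u ω s else 0

lemma T52_eq (f : S → A) (ω : Fin k → Ω) (a : A) :
    T52 P f Q u ω a = ∑ i, tau52 P f Q u a i (ω i) := by
  classical
  unfold T52 tau52 H52
  rw [Finset.sum_comm]
  refine Finset.sum_congr rfl fun s _ => ?_
  split_ifs
  · rw [Finset.mul_sum]
  · simp

lemma HT.T_le [IsProbabilityMeasure P] (h : HT P Q u B) (hB : 1 ≤ B) (f : S → A)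
    (ω : Fin k → Ω) (a : A) : |T52 P f Q u ω a| ≤ 2 * B * k := by
  rw [T52_eq]
  refine (Finset.abs_sum_le_sum_abs _ _).trans ?_
  refine (Finset.sum_le_sum fun i _ => h.tau_le hB f a i (ω i)).trans (le_of_eq ?_)
  rw [Finset.sum_const, Finset.card_univ, Fintype.card_fin, nsmul_eq_mul]
  ring

lemma HT.T_m (h : HT P Q u B) (f : S → A) (a : A) : Measurable fun ω => T52 P f Q u ω a := by
  have : (fun ω => T52 P f Q u ω a) = fun ω => ∑ i, tau52 P f Q u a i (ω i) := by
    funext ω; rw [T52_eq]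
  rw [this]
  exact Finset.measurable_sum _ fun i _ => (h.tau_m f a i).comp (measurable_pi_apply i)

/-- A bounded measurable function is integrable. -/
lemma ib52 [IsProbabilityMeasure P] {g : (Fin k → Ω) → ℝ} {C : ℝ} (hg : Measurable g)
    (hC : ∀ ω, |g ω| ≤ C) : Integrable g (Measure.pi fun _ => P) :=
  (integrable_const C).mono' hg.aestronglyMeasurable
    (Filter.Eventually.of_forall fun ω => by rw [Real.norm_eq_abs]; exact hC ω)

/-- The sum of the selections. -/
lemma HT.sum_ka [IsProbabilityMeasure P] (h : HT P Q u B) :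
    ∑ i, kaT P Q u i = ∫ ω, ∑ s, prT Q u ω s * H52 P u ω s ∂(Measure.pi fun _ => P) := by
  unfold kaT
  rw [← integral_finset_sum]
  · congr 1
    funext ω
    rw [Finset.sum_comm]
    refine Finset.sum_congr rfl fun s _ => ?_
    unfold H52
    rw [Finset.mul_sum]
  · intro i _
    refine ib52 (C := 2 * B) ?_ fun ω => ?_
    · exact Finset.measurable_sum _ fun s _ => (h.pm s).mul
        (((h.lm i s).comp (measurable_pi_apply i)).sub measurable_const)
    · refine (Finset.abs_sum_le_sum_abs _ _).trans ?_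
      calc ∑ s, |prT Q u ω s * (Real.log (u i s (ω i)) - psT P u i s)| ≤
            ∑ s, prT Q u ω s * (2 * B) := by
            refine Finset.sum_le_sum fun s _ => ?_
            rw [abs_mul, abs_of_nonneg (h.p0 ω s)]
            exact mul_le_mul_of_nonneg_left (h.lps i s (ω i)) (h.p0 ω s)
        _ = 2 * B := by rw [← Finset.sum_mul, h.p1, one_mul]

open Classical in
/-- S5, pointwise. -/
lemma HT.s5 [IsProbabilityMeasure P] (h : HT P Q u B) (f : S → A) (ω : Fin k → Ω) :
    ∑ s, prT Q u ω s * H52 P u ω s ≤ ∑ a, clT f Q u ω a * T52 P f Q u ω a +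
      2 * B * k * ∑ s, |prT Q u ω s - clT f Q u ω (f s) * (Q s / Qa52 f Q (f s))| := by
  have h1 : ∑ a, clT f Q u ω a * T52 P f Q u ω a =
      ∑ s, clT f Q u ω (f s) * (Q s / Qa52 f Q (f s)) * H52 P u ω s := by
    unfold T52
    simp_rw [Finset.mul_sum]
    rw [Finset.sum_comm]
    refine Finset.sum_congr rfl fun s _ => ?_
    rw [Finset.sum_eq_single (f s)]
    · simp; ring
    · intro a _ ha
      simp [Ne.symm ha]
    · intro hs
      exact absurd (Finset.mem_univ _) hs
  rw [h1, Finset.mul_sum, ← Finset.sum_add_distrib]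
  refine Finset.sum_le_sum fun s _ => ?_
  have h2 := h.Hle ω s
  have h3 : (prT Q u ω s - clT f Q u ω (f s) * (Q s / Qa52 f Q (f s))) * H52 P u ω s ≤
      2 * B * k * |prT Q u ω s - clT f Q u ω (f s) * (Q s / Qa52 f Q (f s))| := by
    refine (le_abs_self _).trans ?_
    rw [abs_mul, mul_comm]
    exact mul_le_mul_of_nonneg_right h2 (abs_nonneg _)
  nlinarith

open Classical in
lemma HT.rest [IsProbabilityMeasure P] (h : HT P Q u B) (hB : 1 ≤ B) (f : S → A)
    (AA : Finset A) (ω : Fin k → Ω) :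
    ∑ a ∈ Finset.univ \ AA, clT f Q u ω a * T52 P f Q u ω a ≤
      2 * B * k * Real.exp (2 * B * k) * ∑ s, if f s ∈ AA then 0 else Q s := by
  have h1 : ∑ a ∈ Finset.univ \ AA, Qa52 f Q a = ∑ s, if f s ∈ AA then 0 else Q s := by
    unfold Qa52
    rw [Finset.sum_comm]
    refine Finset.sum_congr rfl fun s _ => ?_
    rw [Finset.sum_ite_eq]
    by_cases hs : f s ∈ AA
    · simp [hs]
    · simp [hs]
  rw [← h1, Finset.mul_sum]
  refine Finset.sum_le_sum fun a _ => ?_
  have h2 := h.T_le hB f ω a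
  have h3 := h.c_hi f ω a
  have h4 := h.c0 f ω a
  have h5 : (0 : ℝ) ≤ 2 * B * k := by positivity
  calc clT f Q u ω a * T52 P f Q u ω a ≤ clT f Q u ω a * (2 * B * k) :=
        mul_le_mul_of_nonneg_left ((le_abs_self _).trans h2) h4
    _ ≤ (Real.exp (2 * B * k) * Qa52 f Q a) * (2 * B * k) := mul_le_mul_of_nonneg_right h3 h5
    _ = _ := by ring

open Classical in
/-- S6: the classes of `AA`. -/
lemma HT.main [IsProbabilityMeasure P] (h : HT P Q u B) (hB : 1 ≤ B) (f : S → A)
    (AA : Finset A) {θ : ℝ} (h0 : 0 < θ) (h1 : θ ≤ 1 / (2 * B)) :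
    ∫ ω, ∑ a ∈ AA, clT f Q u ω a * T52 P f Q u ω a ∂(Measure.pi fun _ => P) ≤
      Real.log (1 + AA.card) / θ + 4 * B ^ 2 * θ * k := by
  have hexp : ∀ a ω, Real.exp (θ * T52 P f Q u ω a) ≤ Real.exp (θ * (2 * B * k)) := fun a ω =>
    Real.exp_le_exp.2 (mul_le_mul_of_nonneg_left ((le_abs_self _).trans (h.T_le hB f ω a)) h0.le)
  have hm : ∀ a, Measurable fun ω => Real.exp (θ * T52 P f Q u ω a) := fun a =>
    Real.measurable_exp.comp ((h.T_m f a).const_mul _)
  have hi : ∀ a, Integrable (fun ω => Real.exp (θ * T52 P f Q u ω a))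
      (Measure.pi fun _ => P) := fun a => ib52 (hm a) fun ω => by
    rw [abs_of_pos (Real.exp_pos _)]; exact hexp a ω
  have h2 : ∀ a, ∫ ω, Real.exp (θ * T52 P f Q u ω a) ∂(Measure.pi fun _ => P) ≤
      Real.exp (4 * B ^ 2 * θ ^ 2 * k) := by
    intro a
    have := (h.mgf hB f a h0 h1).2
    simp_rw [T52_eq]
    exact this
  have hs0 : ∀ ω, 0 ≤ ∑ a ∈ AA, Real.exp (θ * T52 P f Q u ω a) :=
    fun ω => Finset.sum_nonneg fun a _ => (Real.exp_pos _).le
  have hin : Integrable (fun ω => ∑ a ∈ AA, Real.exp (θ * T52 P f Q u ω a))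
      (Measure.pi fun _ => P) := integrable_finset_sum AA fun a _ => hi a
  have hf : Integrable (fun ω => 1 + ∑ a ∈ AA, Real.exp (θ * T52 P f Q u ω a))
      (Measure.pi fun _ => P) := (integrable_const _).add hin
  have hmf : Measurable fun ω => 1 + ∑ a ∈ AA, Real.exp (θ * T52 P f Q u ω a) :=
    measurable_const.add (Finset.measurable_sum _ fun a _ => hm a)
  have hl : Integrable (fun ω => Real.log (1 + ∑ a ∈ AA, Real.exp (θ * T52 P f Q u ω a)))
      (Measure.pi fun _ => P) := by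
    refine hin.mono' (Real.measurable_log.comp hmf).aestronglyMeasurable ?_
    refine Filter.Eventually.of_forall fun ω => ?_
    have h3 := hs0 ω
    rw [Real.norm_eq_abs, abs_of_nonneg (Real.log_nonneg (by linarith))]
    have := Real.log_le_sub_one_of_pos
      (by linarith : 0 < 1 + ∑ a ∈ AA, Real.exp (θ * T52 P f Q u ω a))
    linarith
  have hleft : Integrable (fun ω => ∑ a ∈ AA, clT f Q u ω a * T52 P f Q u ω a)
      (Measure.pi fun _ => P) := by
    refine ib52 (C := 2 * B * k) (Finset.measurable_sum _ fun a _ =>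
      (h.cm f a).mul (h.T_m f a)) fun ω => ?_
    refine (Finset.abs_sum_le_sum_abs _ _).trans ?_
    calc ∑ a ∈ AA, |clT f Q u ω a * T52 P f Q u ω a| ≤ ∑ a ∈ AA, clT f Q u ω a * (2 * B * k) := by
          refine Finset.sum_le_sum fun a _ => ?_
          rw [abs_mul, abs_of_nonneg (h.c0 f ω a)]
          exact mul_le_mul_of_nonneg_left (h.T_le hB f ω a) (h.c0 f ω a)
      _ = (∑ a ∈ AA, clT f Q u ω a) * (2 * B * k) := by rw [← Finset.sum_mul]
      _ ≤ 1 * (2 * B * k) := by
          refine mul_le_mul_of_nonneg_right ?_ (by positivity)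
          rw [← h.c1 f ω]
          exact Finset.sum_le_sum_of_subset_of_nonneg (Finset.subset_univ _)
            fun a _ _ => h.c0 f ω a
      _ = _ := one_mul _
  have h3 : ∫ ω, ∑ a ∈ AA, clT f Q u ω a * T52 P f Q u ω a ∂(Measure.pi fun _ => P) ≤
      ∫ ω, 1 / θ * Real.log (1 + ∑ a ∈ AA, Real.exp (θ * T52 P f Q u ω a))
        ∂(Measure.pi fun _ => P) := by
    refine integral_mono hleft (hl.const_mul _) fun ω => ?_
    refine softmax (x := fun a => T52 P f Q u ω a) h0 (fun a _ => h.c0 f ω a) ?_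
    rw [← h.c1 f ω]
    exact Finset.sum_le_sum_of_subset_of_nonneg (Finset.subset_univ _) fun a _ _ => h.c0 f ω a
  rw [integral_const_mul] at h3
  refine h3.trans ?_
  have h4 : ∫ ω, Real.log (1 + ∑ a ∈ AA, Real.exp (θ * T52 P f Q u ω a))
      ∂(Measure.pi fun _ => P) ≤
      Real.log ((1 + AA.card) * Real.exp (4 * B ^ 2 * θ ^ 2 * k)) := by
    refine int_log_le hf (fun ω => by have := hs0 ω; linarith) hl (by positivity) ?_
    have h5 : ∫ ω, (1 + ∑ a ∈ AA, Real.exp (θ * T52 P f Q u ω a)) ∂(Measure.pi fun _ => P) =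
        1 + ∑ a ∈ AA, ∫ ω, Real.exp (θ * T52 P f Q u ω a) ∂(Measure.pi fun _ => P) := by
      rw [integral_add (integrable_const _) hin, integral_finset_sum AA fun a _ => hi a]
      simp
    rw [h5]
    have h6 : ∑ a ∈ AA, ∫ ω, Real.exp (θ * T52 P f Q u ω a) ∂(Measure.pi fun _ => P) ≤
        ∑ _a ∈ AA, Real.exp (4 * B ^ 2 * θ ^ 2 * k) := Finset.sum_le_sum fun a _ => h2 a
    rw [Finset.sum_const, nsmul_eq_mul] at h6
    have h7 : 1 ≤ Real.exp (4 * B ^ 2 * θ ^ 2 * k) := Real.one_le_exp (by positivity)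
    nlinarith
  rw [Real.log_mul (by positivity) (Real.exp_pos _).ne', Real.log_exp] at h4
  have h8 := mul_le_mul_of_nonneg_left h4 (by positivity : 0 ≤ 1 / θ)
  refine h8.trans (le_of_eq ?_)
  field_simp

end Abs

open Classical in
/-- The estimate S4. -/
def S4T : Prop := ∀ (Ω S A : Type) [MeasurableSpace Ω] [Fintype S] [Fintype A] (k : ℕ)
  (P : Measure Ω) [IsProbabilityMeasure P] (Q : S → ℝ) (u : Fin k → S → Ω → ℝ) (B : ℝ)
  (f : S → A), 1 ≤ B → HT P Q u B →
    (∀ i, ouT P f Q u i ≤ kaT P Q u i) ∧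
    ∫ ω, ∑ s, |prT Q u ω s - clT f Q u ω (f s) * (Q s / Qa52 f Q (f s))|
      ∂(Measure.pi fun _ => P) ≤
      Real.exp (5 * B * k) * ∑ i, Real.sqrt (2 * (kaT P Q u i - ouT P f Q u i))

/-- Leaf T1 from S4. -/
theorem one52 (h4 : S4T) : OneT := by
  classical
  intro Ω S A _ _ _ k P _ Q u B f AA θ hB h0 h1 h
  obtain ⟨hou, h4'⟩ := h4 Ω S A k P Q u B f hB h
  refine ⟨hou, ?_⟩
  have hk : (0 : ℝ) ≤ 2 * B * k := by positivity
  set D : (Fin k → Ω) → ℝ := fun ω =>
    ∑ s, |prT Q u ω s - clT f Q u ω (f s) * (Q s / Qa52 f Q (f s))| with hD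
  set R : ℝ := 2 * B * k * Real.exp (2 * B * k) * ∑ s, (if f s ∈ AA then 0 else Q s) with hR
  have hcT : ∀ (T : Finset A), Integrable (fun ω => ∑ a ∈ T, clT f Q u ω a * T52 P f Q u ω a)
      (Measure.pi fun _ => P) := by
    intro T
    refine ib52 (C := ∑ a ∈ T, 1 * (2 * B * k)) (Finset.measurable_sum _ fun a _ =>
      (h.cm f a).mul (h.T_m f a)) fun ω => ?_
    refine (Finset.abs_sum_le_sum_abs _ _).trans (Finset.sum_le_sum fun a _ => ?_)
    rw [abs_mul, abs_of_nonneg (h.c0 f ω a)]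
    refine mul_le_mul ?_ (h.T_le hB f ω a) (abs_nonneg _) zero_le_one
    rw [← h.c1 f ω]
    exact Finset.single_le_sum (fun b _ => h.c0 f ω b) (Finset.mem_univ a)
  have hDi : Integrable D (Measure.pi fun _ => P) := by
    refine ib52 (C := ∑ s, (1 + 1 * |Q s / Qa52 f Q (f s)|)) ?_ fun ω => ?_
    · exact Finset.measurable_sum _ fun s _ =>
        ((h.pm s).sub ((h.cm f (f s)).mul measurable_const)).abs
    · rw [hD, abs_of_nonneg (Finset.sum_nonneg fun s _ => abs_nonneg _)]
      refine Finset.sum_le_sum fun s _ => ?_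
      refine (abs_sub _ _).trans (add_le_add ?_ ?_)
      · rw [abs_of_nonneg (h.p0 ω s), ← h.p1 ω]
        exact Finset.single_le_sum (fun b _ => h.p0 ω b) (Finset.mem_univ s)
      · rw [abs_mul, abs_of_nonneg (h.c0 f ω _)]
        refine mul_le_mul_of_nonneg_right ?_ (abs_nonneg _)
        rw [← h.c1 f ω]
        exact Finset.single_le_sum (fun b _ => h.c0 f ω b) (Finset.mem_univ _)
  have hpt : ∀ ω, ∑ s, prT Q u ω s * H52 P u ω s ≤
      ((∑ a ∈ AA, clT f Q u ω a * T52 P f Q u ω a) + R) + 2 * B * k * D ω := by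
    intro ω
    have h2 := h.s5 f ω
    have h3 := h.rest hB f AA ω
    have h5 : ∑ a, clT f Q u ω a * T52 P f Q u ω a =
        ∑ a ∈ Finset.univ \ AA, clT f Q u ω a * T52 P f Q u ω a +
          ∑ a ∈ AA, clT f Q u ω a * T52 P f Q u ω a :=
      (Finset.sum_sdiff (Finset.subset_univ AA)).symm
    rw [h5] at h2
    simp only [hD, hR]
    linarith
  have hHi : Integrable (fun ω => ∑ s, prT Q u ω s * H52 P u ω s) (Measure.pi fun _ => P) := by
    refine ib52 (C := 2 * B * k) (Finset.measurable_sum _ fun s _ =>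
      (h.pm s).mul (h.Hm s)) fun ω => ?_
    refine (Finset.abs_sum_le_sum_abs _ _).trans ?_
    calc ∑ s, |prT Q u ω s * H52 P u ω s| ≤ ∑ s, prT Q u ω s * (2 * B * k) := by
          refine Finset.sum_le_sum fun s _ => ?_
          rw [abs_mul, abs_of_nonneg (h.p0 ω s)]
          exact mul_le_mul_of_nonneg_left (h.Hle ω s) (h.p0 ω s)
      _ = _ := by rw [← Finset.sum_mul, h.p1, one_mul]
  rw [h.sum_ka]
  have h6 := integral_mono hHi (((hcT AA).add (integrable_const R)).add (hDi.const_mul (2 * B * k)))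
    hpt
  refine h6.trans ?_
  have e1 : ∫ ω, (((∑ a ∈ AA, clT f Q u ω a * T52 P f Q u ω a) + R) + 2 * B * k * D ω)
      ∂(Measure.pi fun _ => P) =
      ∫ ω, ∑ a ∈ AA, clT f Q u ω a * T52 P f Q u ω a ∂(Measure.pi fun _ => P) + R +
        2 * B * k * ∫ ω, D ω ∂(Measure.pi fun _ => P) := by
    have ea : ∫ ω, (((∑ a ∈ AA, clT f Q u ω a * T52 P f Q u ω a) + R) + 2 * B * k * D ω)
        ∂(Measure.pi fun _ => P) =
        ∫ ω, ((∑ a ∈ AA, clT f Q u ω a * T52 P f Q u ω a) + R) ∂(Measure.pi fun _ => P) +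
          ∫ ω, 2 * B * k * D ω ∂(Measure.pi fun _ => P) :=
      integral_add ((hcT AA).add (integrable_const R)) (hDi.const_mul (2 * B * k))
    have eb : ∫ ω, ((∑ a ∈ AA, clT f Q u ω a * T52 P f Q u ω a) + R) ∂(Measure.pi fun _ => P) =
        ∫ ω, ∑ a ∈ AA, clT f Q u ω a * T52 P f Q u ω a ∂(Measure.pi fun _ => P) +
          ∫ _ω, R ∂(Measure.pi fun _ => P) := integral_add (hcT AA) (integrable_const R)
    have ec : ∫ _ω, R ∂(Measure.pi fun _ : Fin k => P) = R := by
      rw [integral_const, probReal_univ, one_smul]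
    have ed : ∫ ω, 2 * B * k * D ω ∂(Measure.pi fun _ => P) =
        2 * B * k * ∫ ω, D ω ∂(Measure.pi fun _ => P) := integral_const_mul _ _
    rw [ea, eb, ec, ed]
  have h7 : ∫ ω, (((∑ a ∈ AA, clT f Q u ω a * T52 P f Q u ω a) + R) + 2 * B * k * D ω)
      ∂(Measure.pi fun _ => P) ≤
      Real.log (1 + AA.card) / θ + 4 * B ^ 2 * θ * k + R +
        2 * B * k * (Real.exp (5 * B * k) *
          ∑ i, Real.sqrt (2 * (kaT P Q u i - ouT P f Q u i))) := by
    rw [e1]
    have h8 := h.main hB f AA h0 h1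
    have h9 := mul_le_mul_of_nonneg_left h4' hk
    linarith
  refine h7.trans (le_of_eq ?_)
  rw [hR]
  ring

end Pool.Agent.W_7d29a1_NV
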