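import Pool.Agent.W_7d29a1_NV.Rest77
import Pool.Agent.W_7d29a1_NV.One52
import Pool.Agent.W_7d29a1_NV.Mix96

/-!
Leaf K of Theorem NV: the selections of the model are those of the polymer.
-/

namespace Pool.Agent.W_7d29a1_NV

open MeasureTheory ProbabilityTheory Filter Topology Pool.Agent.W_MP_7d29a1_pr
  Pool.Agent.W_7d29a1_h46 Pool.Agent.W_7d29a1_h46u Pool.Agent.W_7d29a1_D2.B35
  Pool.Agent.W_7d29a1_Q29

section Abstract

/-- Bounded measurable functions are integrable. -/
lemma ibd77 {Ω : Type*} [MeasurableSpace Ω] {P : Measure Ω} [IsProbabilityMeasure P] {g : Ω → ℝ}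
    {C : ℝ} (hg : Measurable g) (hC : ∀ x, |g x| ≤ C) : Integrable g P :=
  (integrable_const C).mono' hg.aestronglyMeasurable
    (Filter.Eventually.of_forall fun x => by rw [Real.norm_eq_abs]; exact hC x)

/-- The relative entropy for two values of the row. -/
lemma s1id77 {Ω S : Type} [Fintype S] (Q : S → ℝ) (u : S → Ω → ℝ) (D : Ω → ℝ) (p : Ω → S → ℝ)
    (u0 : ∀ s x, 0 < u s x) (Q0 : ∀ s, 0 ≤ Q s) (D0 : ∀ x, 0 < D x)
    (hp : ∀ x s, p x s = Q s * u s x / D x) (p1 : ∀ x, ∑ s, p x s = 1) (ξ x' : Ω) :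
    ∑ s, p ξ s * (Real.log (p ξ s) - Real.log (p x' s)) =
      (∑ s, p ξ s * (Real.log (u s ξ) - Real.log (u s x'))) -
        (Real.log (D ξ) - Real.log (D x')) := by
  have h1 : ∀ s, p ξ s * (Real.log (p ξ s) - Real.log (p x' s)) =
      p ξ s * (Real.log (u s ξ) - Real.log (u s x')) -
        p ξ s * (Real.log (D ξ) - Real.log (D x')) := by
    intro s
    rcases (Q0 s).eq_or_lt with hq | hq
    · rw [hp ξ s, ← hq]
      ring
    · have e : ∀ x, Real.log (p x s) = Real.log (Q s) + Real.log (u s x) - Real.log (D x) := by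
        intro x
        rw [hp, Real.log_div (mul_pos hq (u0 s x)).ne' (D0 x).ne',
          Real.log_mul hq.ne' (u0 s x).ne']
      rw [e ξ, e x']
      ring
  rw [Finset.sum_congr rfl fun s _ => h1 s, Finset.sum_sub_distrib, ← Finset.sum_mul,
    p1, one_mul]

/-- **Selection is resampling, one row.** -/
lemma s177 {Ω S : Type} [MeasurableSpace Ω] [Fintype S] (P : Measure Ω) [IsProbabilityMeasure P]
    (Q : S → ℝ) (u : S → Ω → ℝ) (D : Ω → ℝ) (p : Ω → S → ℝ) (B : ℝ)
    (um : ∀ s, Measurable (u s)) (u0 : ∀ s x, 0 < u s x) (ul : ∀ s x, |Real.log (u s x)| ≤ B)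
    (Q0 : ∀ s, 0 ≤ Q s) (Dm : Measurable D) (D0 : ∀ x, 0 < D x)
    (Dl : ∀ x, |Real.log (D x)| ≤ B) (hp : ∀ x s, p x s = Q s * u s x / D x)
    (p1 : ∀ x, ∑ s, p x s = 1) :
    ∫ ξ, ∫ x', ∑ s, p ξ s * (Real.log (p ξ s) - Real.log (p x' s)) ∂P ∂P =
      ∫ ξ, ∑ s, p ξ s * (Real.log (u s ξ) - ∫ x', Real.log (u s x') ∂P) ∂P := by
  have p0 : ∀ x s, 0 ≤ p x s := fun x s => by
    rw [hp]
    exact div_nonneg (mul_nonneg (Q0 s) (u0 s x).le) (D0 x).le
  have h2 := s1id77 Q u D p u0 Q0 D0 hp p1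
  have ui : ∀ s, Integrable (fun x => Real.log (u s x)) P := fun s =>
    ibd77 (Real.measurable_log.comp (um s)) (ul s)
  have Di : Integrable (fun x => Real.log (D x)) P := ibd77 (Real.measurable_log.comp Dm) Dl
  have h3 : ∀ ξ, ∫ x', ∑ s, p ξ s * (Real.log (p ξ s) - Real.log (p x' s)) ∂P =
      (∑ s, p ξ s * (Real.log (u s ξ) - ∫ x', Real.log (u s x') ∂P)) -
        (Real.log (D ξ) - ∫ x', Real.log (D x') ∂P) := by
    intro ξ
    have i1 : ∀ s, Integrable (fun x' => p ξ s * (Real.log (u s ξ) - Real.log (u s x'))) P :=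
      fun s => ((integrable_const _).sub (ui s)).const_mul _
    have i3 : Integrable (fun x' => Real.log (D ξ) - Real.log (D x')) P :=
      (integrable_const _).sub Di
    simp_rw [h2]
    rw [integral_sub (integrable_finsetSum _ fun s _ => i1 s) i3,
      integral_finsetSum _ fun s _ => i1 s,
      integral_sub (integrable_const _) Di, integral_const, probReal_univ, one_smul]
    congr 1
    refine Finset.sum_congr rfl fun s _ => ?_
    rw [integral_const_mul, integral_sub (integrable_const _) (ui s), integral_const,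
      probReal_univ, one_smul]
  simp_rw [h3]
  have pm : ∀ s, Measurable fun x => p x s := fun s => by
    simp_rw [hp]
    exact ((um s).const_mul _).div Dm
  have p2 : ∀ x s, p x s ≤ 1 := fun x s => by
    rw [← p1 x]
    exact Finset.single_le_sum (fun t _ => p0 x t) (Finset.mem_univ s)
  have i2 : Integrable (fun ξ => ∑ s, p ξ s * (Real.log (u s ξ) -
      ∫ x', Real.log (u s x') ∂P)) P := by
    refine integrable_finsetSum _ fun s _ => ?_
    refine ((ui s).sub (integrable_const _)).bdd_mul (c := 1) (pm s).aestronglyMeasurable ?_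
    filter_upwards with x
    rw [Real.norm_eq_abs, abs_of_nonneg (p0 x s)]
    exact p2 x s
  have i4 : Integrable (fun ξ => Real.log (D ξ) - ∫ x', Real.log (D x') ∂P) P :=
    Di.sub (integrable_const _)
  rw [integral_sub i2 i4, integral_sub Di (integrable_const _),
    integral_const, probReal_univ, one_smul, sub_self, sub_zero]

end Abstract

variable {d : ℕ}

/-! ### One row -/

/-- **The rows resampled together against the row `i` resampled alone.** -/
lemma row77 {ρ : Measure ℝ} {b : ℝ} [IsProbabilityMeasure ρ] (hb : HB ρ b) (hW : MixT d ρ b)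
    {m : ℕ} {T : Fin (m + 1) → ℕ} (hT : Function.Injective T) (i : Fin (m + 1))
    (F : Env d → Env d → ℝ) (hF : Measurable (Function.uncurry F)) (C : ℝ)
    (hC : ∀ η ξ, |F η ξ| ≤ C) :
    ∫ η, ∫ ξ : Fin (m + 1) → Env d, F (mxJ b (fun j => T (i.succAbove j)) η
      (fun j => ξ (i.succAbove j))) (ξ i) ∂(Measure.pi fun _ => law d (rb ρ b)) ∂(law d ρ) =
    ∫ η, ∫ ξ, F η ξ ∂(law d (rb ρ b)) ∂(law d ρ) := by
  have := M66.prob_rb hb
  have h1 := rest77 hb hW hT i
  have h2 : Integrable (Function.uncurry F) ((law d ρ).prod (law d (rb ρ b))) :=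
    ibd77 hF fun w => hC w.1 w.2
  have h3 : Integrable (fun w : Env d × (Fin (m + 1) → Env d) =>
      Function.uncurry F (mxJ b (fun j => T (i.succAbove j)) w.1 (fun j => w.2 (i.succAbove j)),
        w.2 i)) ((law d ρ).prod (Measure.pi fun _ => law d (rb ρ b))) :=
    ibd77 (hF.comp h1.measurable) fun w => hC _ _
  have h4 := integral_prod _ h3
  have h5 := integral_prod _ h2
  have h6 := integral_map h1.measurable.aemeasurable (μ := (law d ρ).prod
    (Measure.pi fun _ : Fin (m + 1) => law d (rb ρ b))) (f := Function.uncurry F)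
    (by rw [h1.map_eq]; exact hF.aestronglyMeasurable)
  rw [h1.map_eq] at h6
  exact h4.symm.trans (h6.symm.trans h5)

section Pair

variable {ρ : Measure ℝ} {β b : ℝ}

lemma mx_one77 (b : ℝ) (t : ℕ) (η ξ : Env d) :
    mxJ b (fun _ : Fin 1 => t) η (fun _ => ξ) = mx b t η ξ := by
  rw [mxJ_insert77 (m := 0) b (fun i j _ => Subsingleton.elim (α := Fin 1) i j) 0 η
    (fun _ => ξ)]
  have h1 : mxJ b (fun j : Fin 0 => (fun _ : Fin 1 => t) ((0 : Fin 1).succAbove j)) η
      (fun j : Fin 0 => (fun _ : Fin 1 => ξ) ((0 : Fin 1).succAbove j)) = η := by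
    funext p
    exact mxJ_off77 _ _ fun j => j.elim0
  exact congrArg (fun e => mx b t e ξ) h1

/-- The pair as a model with one row. -/
lemma pair77 (hE : EqT d ρ β b) (h : Vec d) {n t a b' : ℕ} (hat : a < t) (htb : t ≤ b')
    (hbn : b' ≤ n) (η : Env d) :
    ∃ (Q : {x : Site d // x ∈ boxF d n} × {x : Site d // x ∈ boxF d n} → ℝ) (D : Env d → ℝ),
      (∀ a, 0 ≤ Q a) ∧ Measurable D ∧ (∀ ξ, 0 < D ξ) ∧ (∀ ξ, |Real.log (D ξ)| ≤ Bc β b) ∧
      (∀ (q : {x : Site d // x ∈ boxF d n} × {x : Site d // x ∈ boxF d n}) (ξ : Env d),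
        pab β h n a b' q.1 q.2 (mx b t η ξ) =
          Q q * uab ρ β b h t a b' q.1 q.2 η ξ / D ξ) ∧
      (∀ (q : {x : Site d // x ∈ boxF d n} × {x : Site d // x ∈ boxF d n}) (ξ : Env d),
        0 < uab ρ β b h t a b' q.1 q.2 η ξ ∧
          |Real.log (uab ρ β b h t a b' q.1 q.2 η ξ)| ≤ Bc β b) := by
  have hO : Ord n (fun _ : Fin 1 => t) ![a, b'] := by
    refine ⟨fun i => ?_, hbn⟩
    rw [Fin.fin_one_eq_zero i]
    exact ⟨hat, htb⟩
  obtain ⟨hH, hX⟩ := hE h n 1 (fun _ => t) ![a, b'] hO η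
  refine ⟨fun q => Qsp ρ β b h n (fun _ : Fin 1 => t) ![a, b'] η ![q.1, q.2],
    fun ξ => dT (Qsp ρ β b h n (fun _ : Fin 1 => t) ![a, b'] η)
      (usp ρ β b h n (fun _ : Fin 1 => t) ![a, b'] η) (fun _ => ξ), fun q => hH.q0 _,
    hH.dm.comp (measurable_pi_lambda _ fun _ => measurable_id), fun ξ => hH.d0 _,
    fun ξ => ?_, fun q ξ => ?_, fun q ξ => ?_⟩
  · rw [abs_le]
    constructor
    · rw [← Real.log_exp (-Bc β b)]
      refine Real.log_le_log (Real.exp_pos _) ?_
      have := hH.d_lo (fun _ => ξ)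
      simpa using this
    · rw [← Real.log_exp (Bc β b)]
      refine Real.log_le_log (hH.d0 _) ?_
      have := hH.d_hi (fun _ => ξ)
      simpa using this
  · have h1 := (hX (fun _ => ξ)).1 ![q.1, q.2]
    rw [mx_one77] at h1
    have h2 : msp β h n ![a, b'] (![q.1, q.2] : Sp d n 1) (mx b t η ξ) =
        pab β h n a b' q.1 q.2 (mx b t η ξ) := by
      unfold msp pab
      rw [Fin.prod_univ_one]
      rfl
    rw [← h2, ← h1]
    unfold prT wT
    rw [Fin.prod_univ_one]
    rfl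
  · exact ⟨hH.u0 0 ![q.1, q.2] ξ, hH.lg 0 ![q.1, q.2] ξ⟩

end Pair

/-! ### Averages over pairs -/

section Avg

lemma pab_nonneg77 (hd : 0 < d) (β : ℝ) (h : Vec d) (n a b' : ℕ) (x y : Site d) (η : Env d) :
    0 ≤ pab β h n a b' x y η :=
  div_nonneg (mul_nonneg (mul_nonneg (PP_nonneg _ _ _ _ _) (PP_nonneg _ _ _ _ _))
    (Z_pos hd _ _ _ _).le) (Z_pos hd _ _ _ _).le

lemma pab_sum77 (hd : 0 < d) (β : ℝ) (h : Vec d) (η : Env d) {n a b' : ℕ} (hab : a ≤ b')
    (hbn : b' ≤ n) : ∑ x ∈ boxF d n, ∑ y ∈ boxF d n, pab β h n a b' x y η = 1 := by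
  have h1 := sum_pab77 β h η hab hbn fun _ _ => (1 : ℝ)
  simp only [mul_one] at h1
  rw [h1, ← Z_eq, div_self (Z_pos hd β h η n).ne']

lemma pab_avg77 (hd : 0 < d) (β : ℝ) (h : Vec d) (η : Env d) {n a b' : ℕ} (hab : a ≤ b')
    (hbn : b' ≤ n) {g : Site d → Site d → ℝ} {C : ℝ}
    (hg : ∀ x ∈ boxF d n, ∀ y ∈ boxF d n, |g x y| ≤ C) :
    |∑ x ∈ boxF d n, ∑ y ∈ boxF d n, pab β h n a b' x y η * g x y| ≤ C := by
  calc |∑ x ∈ boxF d n, ∑ y ∈ boxF d n, pab β h n a b' x y η * g x y|
      ≤ ∑ x ∈ boxF d n, |∑ y ∈ boxF d n, pab β h n a b' x y η * g x y| :=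
        Finset.abs_sum_le_sum_abs _ _
    _ ≤ ∑ x ∈ boxF d n, ∑ y ∈ boxF d n, pab β h n a b' x y η * C := by
        refine Finset.sum_le_sum fun x hx => (Finset.abs_sum_le_sum_abs _ _).trans ?_
        refine Finset.sum_le_sum fun y hy => ?_
        rw [abs_mul, abs_of_nonneg (pab_nonneg77 hd β h n a b' x y η)]
        exact mul_le_mul_of_nonneg_left (hg x hx y hy) (pab_nonneg77 hd β h n a b' x y η)
    _ = C := by
        simp_rw [← Finset.sum_mul]
        rw [pab_sum77 hd β h η hab hbn, one_mul]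

lemma pab_meas77 (β : ℝ) (h : Vec d) (n a b' : ℕ) (x y : Site d) :
    Measurable (pab β h n a b' x y) := by
  unfold pab
  exact (((M66.PP_meas β h a x).mul (M66.sg_meas β h a b' x y)).mul
    ((measurable_Z β h (n - b')).comp (measurable_sh b' y))).div (measurable_Z β h n)

lemma sum_sub77 {n : ℕ} (g : Site d → Site d → ℝ) :
    ∑ q : {x : Site d // x ∈ boxF d n} × {x : Site d // x ∈ boxF d n}, g q.1 q.2 =
      ∑ x ∈ boxF d n, ∑ y ∈ boxF d n, g x y := by
  rw [Fintype.sum_prod_type, Finset.sum_coe_sort (boxF d n) fun x => ∑ y : {y // y ∈ boxF d n},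
    g x y]
  exact Finset.sum_congr rfl fun x _ => Finset.sum_coe_sort (boxF d n) (g x)

end Avg

/-! ### The leaf -/

section Leaf

variable {ρ : Measure ℝ} {β b : ℝ}

lemma lg77 (hE : EqT d ρ β b) (h : Vec d) {n t a b' : ℕ} (hat : a < t) (htb : t ≤ b')
    (hbn : b' ≤ n) (η ξ : Env d) {x y : Site d} (hx : x ∈ boxF d n) (hy : y ∈ boxF d n) :
    |Real.log (uab ρ β b h t a b' x y η ξ)| ≤ Bc β b := by
  obtain ⟨Q, D, -, -, -, -, -, h1⟩ := pair77 hE h hat htb hbn η
  exact (h1 (⟨x, hx⟩, ⟨y, hy⟩) ξ).2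

lemma ps77 [IsProbabilityMeasure ρ] (hb : HB ρ b) (hE : EqT d ρ β b) (h : Vec d)
    {n t a b' : ℕ} (hat : a < t) (htb : t ≤ b') (hbn : b' ≤ n) (η : Env d) {x y : Site d}
    (hx : x ∈ boxF d n) (hy : y ∈ boxF d n) : |psab ρ β b h t a b' x y η| ≤ Bc β b := by
  have := M66.prob_rb hb
  unfold psab
  have h1 : ∀ ξ, |Real.log (uab ρ β b h t a b' x y η ξ)| ≤ Bc β b := fun ξ =>
    lg77 hE h hat htb hbn η ξ hx hy
  have hm : Measurable fun ξ => Real.log (uab ρ β b h t a b' x y η ξ) :=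
    Real.measurable_log.comp (M66.uab_meas ρ β b h t a b' x y measurable_const measurable_id)
  refine (abs_integral_le_integral_abs).trans ?_
  have h2 := integral_mono (ibd77 (P := law d (rb ρ b)) hm h1).abs
    (integrable_const (Bc β b)) h1
  simpa using h2

lemma dev77 [IsProbabilityMeasure ρ] (hb : HB ρ b) (hE : EqT d ρ β b) (h : Vec d)
    {n t a b' : ℕ} (hat : a < t) (htb : t ≤ b') (hbn : b' ≤ n) (η ξ : Env d) {x y : Site d}
    (hx : x ∈ boxF d n) (hy : y ∈ boxF d n) :
    |Real.log (uab ρ β b h t a b' x y η ξ) - psab ρ β b h t a b' x y η| ≤ 2 * Bc β b := by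
  have h1 := abs_le.1 (lg77 hE h hat htb hbn η ξ hx hy)
  have h2 := abs_le.1 (ps77 hb hE h hat htb hbn η hx hy)
  rw [abs_le]
  constructor <;> linarith

/-- Item 1. -/
theorem kap177 (hd : 0 < d) [IsProbabilityMeasure ρ] (hb : HB ρ b) (hE : EqT d ρ β b)
    (hW : MixT d ρ b) (h : Vec d) (n k : ℕ) (T : Fin k → ℕ) (r : Fin (k + 1) → ℕ)
    (hO : Ord n T r) (i : Fin k) :
    ∫ η, kaT (law d (rb ρ b)) (Qsp ρ β b h n T r η) (usp ρ β b h n T r η) i ∂(law d ρ) =
      kap ρ β b h n (T i) (r i.castSucc) (r i.succ) := by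
  cases k with
  | zero => exact i.elim0
  | succ m =>
  have hT := hO.strict77.injective
  have hi := hO.1 i
  have hn : r i.succ ≤ n := (hO.mono77 (Fin.le_last _)).trans hO.2
  let F : Env d → Env d → ℝ := fun η ξ => ∑ x ∈ boxF d n, ∑ y ∈ boxF d n,
    pab β h n (r i.castSucc) (r i.succ) x y (mx b (T i) η ξ) *
      (Real.log (uab ρ β b h (T i) (r i.castSucc) (r i.succ) x y η ξ) -
        psab ρ β b h (T i) (r i.castSucc) (r i.succ) x y η)
  have hF : Measurable (Function.uncurry F) := by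
    refine Finset.measurable_sum _ fun x _ => Finset.measurable_sum _ fun y _ => ?_
    refine ((pab_meas77 β h n _ _ x y).comp (M66.mx_meas b (T i) measurable_fst
      measurable_snd)).mul ?_
    exact (Real.measurable_log.comp (M66.uab_meas ρ β b h _ _ _ x y measurable_fst
      measurable_snd)).sub ((M66.psab_meas hb β h _ _ _ x y).comp measurable_fst)
  have hC : ∀ η ξ, |F η ξ| ≤ 2 * Bc β b := fun η ξ =>
    pab_avg77 hd β h _ (hi.1.le.trans hi.2) hn fun x hx y hy =>
      dev77 hb hE h hi.1 hi.2 hn η ξ hx hy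
  have key := row77 hb hW hT i F hF _ hC
  unfold kap
  refine Eq.trans ?_ key
  refine integral_congr_ae (Filter.Eventually.of_forall fun η => ?_)
  unfold kaT
  refine integral_congr_ae (Filter.Eventually.of_forall fun ξ => ?_)
  have hloc : ∀ p : ℕ × Site d, r i.castSucc < p.1 → p.1 ≤ r i.succ →
      η p = mxJ b (fun j => T (i.succAbove j)) η (fun j => ξ (i.succAbove j)) p := by
    intro p h1 h2
    rw [mxJ_off77]
    intro j h3
    exact hO.out77 (Fin.succAbove_ne i j) ⟨by rw [h3]; exact h1, by rw [h3]; exact h2⟩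
  have h1 := marg77 β h (mxJ b T η ξ) r (fun j => hO.mono77 (Fin.castSucc_lt_succ (i := j)).le)
    hO.2 i.castSucc i.succ (Fin.castSucc_lt_succ (i := i)).le (fun x y =>
      Real.log (uab ρ β b h (T i) (r i.castSucc) (r i.succ) x y η (ξ i)) -
        psab ρ β b h (T i) (r i.castSucc) (r i.succ) x y η)
  have h2 : ∑ s, prT (Qsp ρ β b h n T r η) (usp ρ β b h n T r η) ξ s *
      (Real.log (usp ρ β b h n T r η i s (ξ i)) -
        psT (law d (rb ρ b)) (usp ρ β b h n T r η) i s) =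
      ∑ s : Sp d n (m + 1), msp β h n r s (mxJ b T η ξ) *
        (Real.log (uab ρ β b h (T i) (r i.castSucc) (r i.succ) (s i.castSucc) (s i.succ) η (ξ i)) -
        psab ρ β b h (T i) (r i.castSucc) (r i.succ) (s i.castSucc) (s i.succ) η) :=
    Finset.sum_congr rfl fun s _ => by rw [((hE h n (m + 1) T r hO η).2 ξ).1 s]; rfl
  refine h2.trans (h1.trans ?_)
  refine Finset.sum_congr rfl fun x _ => Finset.sum_congr rfl fun y _ => ?_
  rw [mxJ_insert77 b hT i η ξ, uab_congr77 ρ β b h (T i) hloc x y (ξ i),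
    psab_congr77 ρ β b h (T i) hloc x y]

/-- Item 3. -/
theorem kap377 (hd : 0 < d) [IsProbabilityMeasure ρ] (hb : HB ρ b) (hE : EqT d ρ β b)
    (hW : MixT d ρ b) (h : Vec d) (n k : ℕ) (T : Fin k → ℕ) (r : Fin (k + 1) → ℕ)
    (hO : Ord n T r) (i : Fin k) :
    ∫ η, (∫ ξ, ∑ s, prT (Qsp ρ β b h n T r η) (usp ρ β b h n T r η) ξ s *
      vaT (law d (rb ρ b)) (usp ρ β b h n T r η) i s ∂(Measure.pi fun _ => law d (rb ρ b)))
        ∂(law d ρ) = vap ρ β b h n (T i) (r i.castSucc) (r i.succ) := by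
  cases k with
  | zero => exact i.elim0
  | succ m =>
  have := M66.prob_rb hb
  have hT := hO.strict77.injective
  have hi := hO.1 i
  have hn : r i.succ ≤ n := (hO.mono77 (Fin.le_last _)).trans hO.2
  let V : Site d → Site d → Env d → ℝ := fun x y η =>
    ∫ ξ', (Real.log (uab ρ β b h (T i) (r i.castSucc) (r i.succ) x y η ξ') -
      psab ρ β b h (T i) (r i.castSucc) (r i.succ) x y η) ^ 2 ∂(law d (rb ρ b))
  let F : Env d → Env d → ℝ := fun η ξ => ∑ x ∈ boxF d n, ∑ y ∈ boxF d n,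
    pab β h n (r i.castSucc) (r i.succ) x y (mx b (T i) η ξ) * V x y η
  have hg : ∀ x y, Measurable fun w : Env d × Env d =>
      (Real.log (uab ρ β b h (T i) (r i.castSucc) (r i.succ) x y w.1 w.2) -
        psab ρ β b h (T i) (r i.castSucc) (r i.succ) x y w.1) ^ 2 := fun x y =>
    ((Real.measurable_log.comp (M66.uab_meas ρ β b h _ _ _ x y measurable_fst
      measurable_snd)).sub ((M66.psab_meas hb β h _ _ _ x y).comp measurable_fst)).pow_const 2
  have hV : ∀ x y, Measurable (V x y) := fun x y =>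
    ((hg x y).stronglyMeasurable.integral_prod_right (ν := law d (rb ρ b))).measurable
  have hF : Measurable (Function.uncurry F) := by
    refine Finset.measurable_sum _ fun x _ => Finset.measurable_sum _ fun y _ => ?_
    exact ((pab_meas77 β h n _ _ x y).comp (M66.mx_meas b (T i) measurable_fst
      measurable_snd)).mul ((hV x y).comp measurable_fst)
  have hVb : ∀ (η : Env d), ∀ x ∈ boxF d n, ∀ y ∈ boxF d n, |V x y η| ≤ (2 * Bc β b) ^ 2 := by
    intro η x hx y hy
    have h1 : ∀ ξ', |(Real.log (uab ρ β b h (T i) (r i.castSucc) (r i.succ) x y η ξ') -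
        psab ρ β b h (T i) (r i.castSucc) (r i.succ) x y η) ^ 2| ≤ (2 * Bc β b) ^ 2 := by
      intro ξ'
      rw [abs_pow]
      exact pow_le_pow_left₀ (abs_nonneg _) (dev77 hb hE h hi.1 hi.2 hn η ξ' hx hy) 2
    refine (abs_integral_le_integral_abs).trans ?_
    have h2 := integral_mono (ibd77 (P := law d (rb ρ b))
      ((hg x y).comp (measurable_prodMk_left (x := η))) h1).abs
      (integrable_const ((2 * Bc β b) ^ 2)) h1
    simpa using h2
  have hC : ∀ η ξ, |F η ξ| ≤ (2 * Bc β b) ^ 2 := fun η ξ =>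
    pab_avg77 hd β h _ (hi.1.le.trans hi.2) hn fun x hx y hy => hVb η x hx y hy
  have key := row77 hb hW hT i F hF _ hC
  unfold vap
  refine Eq.trans ?_ (key.trans ?_)
  · refine integral_congr_ae (Filter.Eventually.of_forall fun η => ?_)
    refine integral_congr_ae (Filter.Eventually.of_forall fun ξ => ?_)
    have hloc : ∀ p : ℕ × Site d, r i.castSucc < p.1 → p.1 ≤ r i.succ →
        η p = mxJ b (fun j => T (i.succAbove j)) η (fun j => ξ (i.succAbove j)) p := by
      intro p h1 h2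
      rw [mxJ_off77]
      intro j h3
      exact hO.out77 (Fin.succAbove_ne i j) ⟨by rw [h3]; exact h1, by rw [h3]; exact h2⟩
    have h1 := marg77 β h (mxJ b T η ξ) r
      (fun j => hO.mono77 (Fin.castSucc_lt_succ (i := j)).le) hO.2 i.castSucc i.succ
      (Fin.castSucc_lt_succ (i := i)).le (fun x y => V x y η)
    have h2 : ∑ s, prT (Qsp ρ β b h n T r η) (usp ρ β b h n T r η) ξ s *
        vaT (law d (rb ρ b)) (usp ρ β b h n T r η) i s =
        ∑ s : Sp d n (m + 1), msp β h n r s (mxJ b T η ξ) * V (s i.castSucc) (s i.succ) η :=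
      Finset.sum_congr rfl fun s _ => by rw [((hE h n (m + 1) T r hO η).2 ξ).1 s]; rfl
    refine h2.trans (h1.trans ?_)
    refine Finset.sum_congr rfl fun x _ => Finset.sum_congr rfl fun y _ => ?_
    have h3 : V x y η = V x y (mxJ b (fun j => T (i.succAbove j)) η
        (fun j => ξ (i.succAbove j))) := by
      simp only [V]
      rw [psab_congr77 ρ β b h (T i) hloc x y]
      congr 1
      funext ξ'
      rw [uab_congr77 ρ β b h (T i) hloc x y ξ']
    rw [mxJ_insert77 b hT i η ξ, h3]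
  · rfl

/-- The coarse class of the model is the pair of the outer separators. -/
lemma cl77 (hE : EqT d ρ β b) (h : Vec d) {n k : ℕ} {T : Fin k → ℕ} {r : Fin (k + 1) → ℕ}
    (hO : Ord n T r) (η : Env d) (ξ : Fin k → Env d)
    (q : {x : Site d // x ∈ boxF d n} × {x : Site d // x ∈ boxF d n}) :
    clT fsp (Qsp ρ β b h n T r η) (usp ρ β b h n T r η) ξ q =
      pab β h n (r 0) (r (Fin.last k)) q.1 q.2 (mxJ b T η ξ) := by
  classical
  have h1 := marg77 β h (mxJ b T η ξ) r (fun j => hO.mono77 (Fin.castSucc_lt_succ (i := j)).le)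
    hO.2 0 (Fin.last k) (Fin.zero_le _)
    (fun x y => if x = q.1 ∧ y = q.2 then (1 : ℝ) else 0)
  have h2 : clT fsp (Qsp ρ β b h n T r η) (usp ρ β b h n T r η) ξ q =
      ∑ s : Sp d n k, msp β h n r s (mxJ b T η ξ) *
        (if (s 0 : Site d) = q.1 ∧ (s (Fin.last k) : Site d) = q.2 then (1 : ℝ) else 0) := by
    unfold clT
    refine Finset.sum_congr rfl fun s _ => ?_
    rw [((hE h n k T r hO η).2 ξ).1 s]
    by_cases hs : fsp s = q
    · rw [if_pos hs, if_pos, mul_one]
      rw [← hs]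
      exact ⟨rfl, rfl⟩
    · rw [if_neg hs, if_neg, mul_zero]
      rintro ⟨h3, h4⟩
      exact hs (Prod.ext (Subtype.ext h3) (Subtype.ext h4))
  rw [h2, h1, Finset.sum_eq_single (q.1 : Site d), Finset.sum_eq_single (q.2 : Site d),
    if_pos ⟨rfl, rfl⟩, mul_one]
  · intro y _ hy
    rw [if_neg fun h3 => hy h3.2, mul_zero]
  · intro h3
    exact absurd q.2.2 h3
  · intro x _ hx
    refine Finset.sum_eq_zero fun y _ => ?_
    rw [if_neg fun h3 => hx h3.1, mul_zero]
  · intro h3
    exact absurd q.1.2 h3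

/-- Item 2. -/
theorem kap277 (hd : 0 < d) [IsProbabilityMeasure ρ] (hb : HB ρ b) (hE : EqT d ρ β b)
    (hW : MixT d ρ b) (h : Vec d) (n k : ℕ) (T : Fin k → ℕ) (r : Fin (k + 1) → ℕ)
    (hO : Ord n T r) (i : Fin k) :
    ∫ η, ouT (law d (rb ρ b)) fsp (Qsp ρ β b h n T r η) (usp ρ β b h n T r η) i ∂(law d ρ) =
      kap ρ β b h n (T i) (r 0) (r (Fin.last k)) := by
  cases k with
  | zero => exact i.elim0
  | succ m =>
  have := M66.prob_rb hb
  have hT := hO.strict77.injective
  have hn := hO.2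
  have h0 : r 0 < T i := (hO.mono77 (Fin.zero_le _)).trans_lt (hO.1 i).1
  have h9 : T i ≤ r (Fin.last (m + 1)) := (hO.1 i).2.trans (hO.mono77 (Fin.le_last _))
  have h09 := h0.le.trans h9
  let H : Env d → Env d → Env d → ℝ := fun η ξ x' =>
    ∑ q : {x : Site d // x ∈ boxF d n} × {x : Site d // x ∈ boxF d n},
      pab β h n (r 0) (r (Fin.last (m + 1))) q.1 q.2 (mx b (T i) η ξ) *
        (Real.log (pab β h n (r 0) (r (Fin.last (m + 1))) q.1 q.2 (mx b (T i) η ξ)) -
          Real.log (pab β h n (r 0) (r (Fin.last (m + 1))) q.1 q.2 (mx b (T i) η x')))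
  let F : Env d → Env d → ℝ := fun η ξ => ∫ x', H η ξ x' ∂(law d (rb ρ b))
  have p1 : ∀ η' : Env d, ∑ q : {x : Site d // x ∈ boxF d n} × {x : Site d // x ∈ boxF d n},
      pab β h n (r 0) (r (Fin.last (m + 1))) q.1 q.2 η' = 1 := fun η' => by
    rw [sum_sub77 fun x y => pab β h n (r 0) (r (Fin.last (m + 1))) x y η']
    exact pab_sum77 hd β h η' h09 hn
  have hHm : Measurable fun w : (Env d × Env d) × Env d => H w.1.1 w.1.2 w.2 := by
    refine Finset.measurable_sum _ fun q _ => ?_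
    have m1 : Measurable fun w : (Env d × Env d) × Env d =>
        pab β h n (r 0) (r (Fin.last (m + 1))) q.1 q.2 (mx b (T i) w.1.1 w.1.2) :=
      (pab_meas77 β h n _ _ _ _).comp (M66.mx_meas b (T i) (measurable_fst.comp measurable_fst)
        (measurable_snd.comp measurable_fst))
    have m2 : Measurable fun w : (Env d × Env d) × Env d =>
        pab β h n (r 0) (r (Fin.last (m + 1))) q.1 q.2 (mx b (T i) w.1.1 w.2) :=
      (pab_meas77 β h n _ _ _ _).comp (M66.mx_meas b (T i) (measurable_fst.comp measurable_fst)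
        measurable_snd)
    exact m1.mul ((Real.measurable_log.comp m1).sub (Real.measurable_log.comp m2))
  have hHb : ∀ η ξ x', |H η ξ x'| ≤ 4 * Bc β b := by
    intro η ξ x'
    obtain ⟨Q, D, Q0, Dm, D0, Dl, hp, hu⟩ := pair77 hE h h0 h9 hn η
    have e := s1id77 Q (fun q ξ => uab ρ β b h (T i) (r 0) (r (Fin.last (m + 1))) q.1 q.2 η ξ) D
      (fun ξ q => pab β h n (r 0) (r (Fin.last (m + 1))) q.1 q.2 (mx b (T i) η ξ))
      (fun q ξ => (hu q ξ).1) Q0 D0 (fun ξ q => hp q ξ) (fun ξ => p1 _) ξ x'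
    have e1 : |∑ q : {x : Site d // x ∈ boxF d n} × {x : Site d // x ∈ boxF d n},
        pab β h n (r 0) (r (Fin.last (m + 1))) q.1 q.2 (mx b (T i) η ξ) *
        (Real.log (uab ρ β b h (T i) (r 0) (r (Fin.last (m + 1))) q.1 q.2 η ξ) -
          Real.log (uab ρ β b h (T i) (r 0) (r (Fin.last (m + 1))) q.1 q.2 η x'))| ≤
        2 * Bc β b := by
      rw [sum_sub77 fun x y => pab β h n (r 0) (r (Fin.last (m + 1))) x y (mx b (T i) η ξ) *
        (Real.log (uab ρ β b h (T i) (r 0) (r (Fin.last (m + 1))) x y η ξ) -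
          Real.log (uab ρ β b h (T i) (r 0) (r (Fin.last (m + 1))) x y η x'))]
      refine pab_avg77 hd β h _ h09 hn fun x hx y hy => ?_
      have h1 := abs_le.1 (lg77 hE h h0 h9 hn η ξ hx hy)
      have h2 := abs_le.1 (lg77 hE h h0 h9 hn η x' hx hy)
      rw [abs_le]
      constructor <;> linarith
    have e2 : H η ξ x' = _ := e
    rw [e2]
    have h1 := abs_le.1 e1
    have h2 := abs_le.1 (Dl ξ)
    have h3 := abs_le.1 (Dl x')
    rw [abs_le]
    constructor <;> linarith
  have hF : Measurable (Function.uncurry F) :=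
    (hHm.stronglyMeasurable.integral_prod_right (ν := law d (rb ρ b))).measurable
  have hC : ∀ η ξ, |F η ξ| ≤ 4 * Bc β b := by
    intro η ξ
    refine (abs_integral_le_integral_abs).trans ?_
    have h2 := integral_mono (ibd77 (P := law d (rb ρ b))
      (hHm.comp (measurable_prodMk_left (x := (η, ξ)))) (hHb η ξ)).abs
      (integrable_const (4 * Bc β b)) (hHb η ξ)
    simpa using h2
  have key := row77 hb hW hT i F hF _ hC
  refine Eq.trans ?_ (key.trans ?_)
  · refine integral_congr_ae (Filter.Eventually.of_forall fun η => ?_)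
    unfold ouT
    refine integral_congr_ae (Filter.Eventually.of_forall fun ξ => ?_)
    refine integral_congr_ae (Filter.Eventually.of_forall fun x' => ?_)
    refine Finset.sum_congr rfl fun q _ => ?_
    rw [cl77 hE h hO η ξ q, cl77 hE h hO η (Function.update ξ i x') q,
      mxJ_insert77 b hT i η ξ, mxJ_insert77 b hT i η (Function.update ξ i x'),
      Function.update_self]
    have h5 : (fun j => Function.update ξ i x' (i.succAbove j)) = fun j => ξ (i.succAbove j) :=
      funext fun j => Function.update_of_ne (Fin.succAbove_ne i j) _ _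
    rw [h5]
  · unfold kap
    refine integral_congr_ae (Filter.Eventually.of_forall fun η => ?_)
    obtain ⟨Q, D, Q0, Dm, D0, Dl, hp, hu⟩ := pair77 hE h h0 h9 hn η
    have e := s177 (law d (rb ρ b)) Q
      (fun q ξ => uab ρ β b h (T i) (r 0) (r (Fin.last (m + 1))) q.1 q.2 η ξ) D
      (fun ξ q => pab β h n (r 0) (r (Fin.last (m + 1))) q.1 q.2 (mx b (T i) η ξ)) (Bc β b)
      (fun q => M66.uab_meas ρ β b h _ _ _ _ _ measurable_const measurable_id)
      (fun q ξ => (hu q ξ).1) (fun q ξ => (hu q ξ).2) Q0 Dm D0 Dl (fun ξ q => hp q ξ)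
      (fun ξ => p1 _)
    refine Eq.trans e ?_
    refine integral_congr_ae (Filter.Eventually.of_forall fun ξ => ?_)
    exact sum_sub77 fun x y => pab β h n (r 0) (r (Fin.last (m + 1))) x y (mx b (T i) η ξ) *
        (Real.log (uab ρ β b h (T i) (r 0) (r (Fin.last (m + 1))) x y η ξ) -
          psab ρ β b h (T i) (r 0) (r (Fin.last (m + 1))) x y η)

/-- **Leaf K.** -/
theorem kapT77 (hd : 0 < d) [IsProbabilityMeasure ρ] (hb : HB ρ b) (hE : EqT d ρ β b)
    (hW : MixT d ρ b) : KapT d ρ β b := fun h n k T r hO i =>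
  ⟨kap177 hd hb hE hW h n k T r hO i, kap277 hd hb hE hW h n k T r hO i,
    kap377 hd hb hE hW h n k T r hO i⟩

/-- **Leaf K**, from the leaf E alone. -/
theorem kapTm77 (hd : 0 < d) [IsProbabilityMeasure ρ] (hb : HB ρ b) (hE : EqT d ρ β b) :
    KapT d ρ β b := kapT77 hd hb hE (mix96 hb)

end Leaf

end Pool.Agent.W_7d29a1_NV
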