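import Pool.Agent.W_7d29a1_NV.DefsNV
import Pool.Agent.W_7d29a1_Q29.NTa66
import Pool.Agent.W_7d29a1_Q29.Csy42

/-!
The maximum over the starting points costs nothing: increments in probability.
-/

namespace Pool.Agent.W_7d29a1_NV

open MeasureTheory ProbabilityTheory Filter Topology Pool.Agent.W_MP_7d29a1_pr
  Pool.Agent.W_7d29a1_h46 Pool.Agent.W_7d29a1_h46u Pool.Agent.W_7d29a1_D2.B35
  Pool.Agent.W_7d29a1_Q29 Pool.Agent.W_7d29a1_Q29.NT66

/-- The end points of the family of paths. -/
def vA {d : ℕ} (s : ℕ) (a : Fin d → Fin (s + 1)) : Site d := fun j => 2 * ((a j : ℕ) : ℤ) - s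

/-- The paths: `s` steps in every direction, `a j` of them positive. -/
def qA {d : ℕ} (s : ℕ) (a : Fin d → Fin (s + 1)) : Fin (d * s) → Step d := fun i =>
  ((finProdFinEquiv.symm i).1,
    decide (((finProdFinEquiv.symm i).2 : ℕ) < (a (finProdFinEquiv.symm i).1 : ℕ)))

lemma sum_pm92 (a s : ℕ) (h : a ≤ s) :
    ∑ i ∈ Finset.range s, (if i < a then (1 : ℤ) else -1) = 2 * a - s := by
  have h1 : ∀ t : ℕ, ∑ i ∈ Finset.range t, (if i < a then (1 : ℤ) else -1) =
      2 * (min a t : ℕ) - t := by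
    intro t
    induction t with
    | zero => simp
    | succ t ih =>
      rw [Finset.sum_range_succ, ih]
      split_ifs with h2 <;> push_cast <;> omega
  rw [h1 s, min_eq_left h]

lemma pos_qA {d : ℕ} (s : ℕ) (a : Fin d → Fin (s + 1)) : pos (qA s a) (d * s) = vA s a := by
  classical
  have h1 : pos (qA s a) (d * s) = ∑ i : Fin (d * s), vec (qA s a i) := by
    unfold pos
    exact Finset.sum_congr rfl fun i _ => if_pos i.2
  have h2 : ∑ i : Fin (d * s), vec (qA s a i) = ∑ p : Fin d × Fin s,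
      vec ((p.1, decide ((p.2 : ℕ) < (a p.1 : ℕ))) : Step d) := by
    rw [← finProdFinEquiv.sum_comp]
    refine Finset.sum_congr rfl fun p _ => ?_
    unfold qA
    simp only [Equiv.symm_apply_apply]
  rw [h1, h2, Fintype.sum_prod_type]
  funext j
  rw [Finset.sum_apply, Finset.sum_eq_single j]
  · rw [Finset.sum_apply]
    have h3 : ∀ i : Fin s, vec ((j, decide ((i : ℕ) < (a j : ℕ))) : Step d) j =
        if (i : ℕ) < (a j : ℕ) then (1 : ℤ) else -1 := by
      intro i
      unfold vec
      simp only [Pi.single_eq_same, decide_eq_true_eq]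
    rw [Finset.sum_congr rfl fun i _ => h3 i,
      ← Finset.sum_range (fun i => if i < (a j : ℕ) then (1 : ℤ) else -1),
      sum_pm92 _ _ (Nat.lt_succ_iff.1 (a j).2)]
    rfl
  · intro j' _ hj'
    rw [Finset.sum_apply]
    refine Finset.sum_eq_zero fun i _ => ?_
    unfold vec
    exact Pi.single_eq_of_ne (Ne.symm hj') _
  · intro h
    exact absurd (Finset.mem_univ _) h

lemma vA_inj {d : ℕ} (s : ℕ) (x : Site d) :
    Function.Injective fun a : Fin d → Fin (s + 1) => x - vA s a := by
  intro a a' h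
  funext j
  have h1 := congrFun h j
  simp only [Pi.sub_apply, vA] at h1
  exact Fin.ext (by omega)

lemma vA_box {d : ℕ} (s m : ℕ) {x : Site d} (hx : x ∈ boxF d m) (a : Fin d → Fin (s + 1)) :
    x - vA s a ∈ boxF d (m + s) := by
  rw [mem_boxF] at hx ⊢
  intro j
  have h1 := hx j
  have h2 := (a j).2
  simp only [Pi.sub_apply, vA]
  rw [abs_le] at h1 ⊢
  push_cast
  constructor <;> omega

variable {d : ℕ} {ρ : Measure ℝ} [IsProbabilityMeasure ρ]

/-- The constant of the cost of a fixed path. -/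
noncomputable def Cp (ρ : Measure ℝ) (β : ℝ) (h : Vec d) : ℝ := ‖h‖ + |β| * ∫ t, |t| ∂ρ

omit [IsProbabilityMeasure ρ] in
lemma Cp_nonneg (β : ℝ) (h : Vec d) : 0 ≤ Cp ρ β h :=
  add_nonneg (norm_nonneg _) (mul_nonneg (abs_nonneg _) (integral_nonneg fun _ => abs_nonneg _))

omit [IsProbabilityMeasure ρ] in
lemma abs_int92 (hρ : EM ρ) : Integrable (fun t : ℝ => |t|) ρ := by
  refine ((hρ 1).add (hρ (-1))).mono' measurable_id.abs.aestronglyMeasurable
    (Filter.Eventually.of_forall fun t => ?_)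
  rw [Real.norm_eq_abs, abs_abs]
  show |t| ≤ Real.exp (1 * t) + Real.exp (-1 * t)
  have h1 := Real.add_one_le_exp (1 * t)
  have h2 := Real.add_one_le_exp (-1 * t)
  have h3 := Real.exp_pos (1 * t)
  have h4 := Real.exp_pos (-1 * t)
  rw [abs_le]
  constructor <;> linarith

lemma measurable_logw (β : ℝ) (h : Vec d) {r : ℕ} (q : Fin r → Step d) :
    Measurable fun η : Env d => Real.log (wgt β h η q) := by
  have h1 : Measurable fun η : Env d => energy η q := by
    unfold energy
    exact Finset.measurable_sum _ fun i _ => measurable_pi_apply _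
  unfold wgt
  exact Real.measurable_log.comp (Real.measurable_exp.comp ((h1.const_mul β).const_add _))

/-- The cost of a fixed path. -/
lemma cost92 (hρ : EM ρ) (β : ℝ) (h : Vec d) {r : ℕ} (q : Fin r → Step d) :
    Integrable (fun η : Env d => |Real.log (wgt β h η q)|) (law d ρ) ∧
      ∫ η : Env d, |Real.log (wgt β h η q)| ∂(law d ρ) ≤ Cp ρ β h * r := by
  have hmeas := measurable_logw β h q
  have hb : ∀ η : Env d, |Real.log (wgt β h η q)| ≤
      ‖h‖ * r + |β| * ∑ i : Fin r, |η ((i : ℕ) + 1, pos q (i + 1))| := by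
    intro η
    unfold wgt
    rw [Real.log_exp]
    refine (abs_add_le _ _).trans (add_le_add ?_ ?_)
    · refine (abs_real_inner_le_norm _ _).trans (mul_le_mul_of_nonneg_left ?_ (norm_nonneg h))
      rw [norm_emb]
      exact nrm_pos_le q r
    · rw [abs_mul]
      refine mul_le_mul_of_nonneg_left ?_ (abs_nonneg β)
      unfold energy
      exact Finset.abs_sum_le_sum_abs _ _
  have hi : ∀ i : Fin r, Integrable (fun η : Env d => |η ((i : ℕ) + 1, pos q (i + 1))|)
      (law d ρ) ∧ ∫ η : Env d, |η ((i : ℕ) + 1, pos q (i + 1))| ∂(law d ρ) = ∫ t, |t| ∂ρ :=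
    fun i => Csy42.ev_int (abs_int92 hρ) _
  have hI : Integrable (fun η : Env d => ‖h‖ * r + |β| *
      ∑ i : Fin r, |η ((i : ℕ) + 1, pos q (i + 1))|) (law d ρ) :=
    (integrable_const _).add ((integrable_finsetSum _ fun i _ => (hi i).1).const_mul _)
  have hint : Integrable (fun η : Env d => |Real.log (wgt β h η q)|) (law d ρ) :=
    hI.mono' hmeas.abs.aestronglyMeasurable (Filter.Eventually.of_forall fun η => by
      rw [Real.norm_eq_abs, abs_abs]
      exact hb η)
  refine ⟨hint, (integral_mono hint hI hb).trans (le_of_eq ?_)⟩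
  have e1 : ∫ η : Env d, |β| * ∑ i : Fin r, |η ((i : ℕ) + 1, pos q (i + 1))| ∂(law d ρ) =
      |β| * (r * ∫ t, |t| ∂ρ) := by
    rw [integral_const_mul, integral_finsetSum _ fun i _ => (hi i).1,
      Finset.sum_congr rfl fun i _ => (hi i).2]
    simp only [Finset.sum_const, Finset.card_univ, Fintype.card_fin, nsmul_eq_mul]
  rw [integral_add (integrable_const _) ((integrable_finsetSum _ fun i _ => (hi i).1).const_mul _),
    e1, integral_const]
  simp only [probReal_univ, smul_eq_mul, one_mul]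
  unfold Cp
  ring

/-- A fixed path is cheap with probability at least `1 / 2`. -/
lemma cheap92 (hρ : EM ρ) (β : ℝ) (h : Vec d) {r : ℕ} (q : Fin r → Step d) {c : ℝ}
    (hc : 2 * Cp ρ β h * r < c) :
    1 / 2 ≤ (law d ρ).real {η : Env d | -c < Real.log (wgt β h η q)} := by
  obtain ⟨h1, h2⟩ := cost92 hρ β h q
  have hc0 : 0 < c := lt_of_le_of_lt (by have := Cp_nonneg (ρ := ρ) β h; positivity) hc
  have h3 := mul_meas_ge_le_integral_of_nonneg
    (Filter.Eventually.of_forall fun η : Env d => abs_nonneg (Real.log (wgt β h η q))) h1 c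
  have h4 : (law d ρ).real {η : Env d | c ≤ |Real.log (wgt β h η q)|} ≤ 1 / 2 := by
    have h5 : c * (law d ρ).real {η : Env d | c ≤ |Real.log (wgt β h η q)|} ≤ c / 2 := by
      refine h3.trans (h2.trans ?_)
      linarith
    nlinarith
  have hm : MeasurableSet {η : Env d | -c < Real.log (wgt β h η q)} :=
    measurableSet_lt measurable_const (measurable_logw β h q)
  have h6 : {η : Env d | -c < Real.log (wgt β h η q)}ᶜ ⊆
      {η : Env d | c ≤ |Real.log (wgt β h η q)|} := by
    intro η hη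
    have h7 : ¬ (-c < Real.log (wgt β h η q)) := hη
    rw [not_lt] at h7
    show c ≤ |Real.log (wgt β h η q)|
    rw [← abs_neg]
    exact (le_neg.2 (by linarith)).trans (le_abs_self _)
  have h8 := measureReal_mono (μ := law d ρ) h6
  rw [probReal_compl_eq_one_sub hm] at h8
  linarith

/-- Superadditivity from the shifted starting point. -/
lemma super92 (hd : 0 < d) (β : ℝ) (h : Vec d) (η : Env d) {m s l : ℕ} (hm : d * s ≤ m)
    (x : Site d) (a : Fin d → Fin (s + 1)) :
    Real.log (wgt β h (sh (m - d * s) (x - vA s a) η) (qA s a)) + X β h (sh m x η) l ≤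
      X β h (sh (m - d * s) (x - vA s a) η) (d * s + l) := by
  have h1 : wgt β h (sh (m - d * s) (x - vA s a) η) (qA s a) * Z β h (sh m x η) l ≤
      Z β h (sh (m - d * s) (x - vA s a) η) (d * s + l) := by
    rw [Z_add]
    have h2 : sh (d * s) (pos (qA s a) (d * s)) (sh (m - d * s) (x - vA s a) η) = sh m x η := by
      rw [pos_qA]
      funext p
      unfold sh
      simp only
      congr 2
      · omega
      · rw [add_assoc, add_sub_cancel]
    have h3 := Finset.single_le_sum (f := fun q : Fin (d * s) → Step d =>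
      wgt β h (sh (m - d * s) (x - vA s a) η) q *
        Z β h (sh (d * s) (pos q (d * s)) (sh (m - d * s) (x - vA s a) η)) l)
      (fun q _ => mul_nonneg (wgt_pos _ _ _ _).le (Z_pos hd _ _ _ _).le)
      (Finset.mem_univ (qA s a))
    simp only [h2] at h3
    exact h3
  have h4 := Real.log_le_log (mul_pos (wgt_pos _ _ _ _) (Z_pos hd _ _ _ _)) h1
  rw [Real.log_mul (wgt_pos _ _ _ _).ne' (Z_pos hd _ _ _ _).ne'] at h4
  exact h4

/-- The maximum over the starting points, in probability. -/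
theorem inp92 (hd : 0 < d) (hρ : EM ρ) (β : ℝ) (h : Vec d) {m s : ℕ} (l : ℕ) (hm : d * s ≤ m)
    {c : ℝ} (hc : 2 * Cp ρ β h * (d * s : ℕ) < c) (y : ℝ) :
    ((s : ℝ) + 1) ^ d * (law d ρ).real {η : Env d | ∃ x ∈ boxF d m, y + c < X β h (sh m x η) l} ≤
      2 * ((boxF d (m + s)).card * (law d ρ).real {η : Env d | y < X β h η (d * s + l)}) := by
  classical
  set S : Set (ℕ × Site d) := (Pa d m)ᶜ with hS
  set E : Site d → Set (Env d) := fun x => {η | y < X β h (sh (m - d * s) x η) (d * s + l)} with hE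
  have hEm : ∀ x, MeasurableSet (E x) := fun x => measurableSet_lt measurable_const
    ((measurable_X β h _).comp (measurable_sh _ _))
  have hEr : ∀ x, (law d ρ).real (E x) = (law d ρ).real {η : Env d | y < X β h η (d * s + l)} := by
    intro x
    unfold Measure.real
    rw [← (mp_sh (ρ := ρ) (m - d * s) x).measure_preimage
      (measurableSet_lt measurable_const (measurable_X β h (d * s + l))).nullMeasurableSet]
    rfl
  set F : Env d → ℝ := fun η => ∑ x ∈ boxF d (m + s), (E x).indicator (fun _ => (1 : ℝ)) η with hF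
  have hFm : Measurable F := Finset.measurable_sum _ fun x _ =>
    measurable_const.indicator (hEm x)
  have hF0 : ∀ η, 0 ≤ F η := fun η => Finset.sum_nonneg fun x _ =>
    Set.indicator_nonneg (fun _ _ => zero_le_one) _
  have hFb : ∀ η, |F η| ≤ ((boxF d (m + s)).card : ℝ) := by
    intro η
    rw [abs_of_nonneg (hF0 η)]
    have h1 : F η ≤ ∑ _x ∈ boxF d (m + s), (1 : ℝ) := Finset.sum_le_sum fun x _ =>
      Set.indicator_le' (fun _ _ => le_rfl) (fun _ _ => zero_le_one) _
    simpa using h1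
  have hFi : Integrable F (law d ρ) := Integrable.mono' (integrable_const _)
    hFm.aestronglyMeasurable (Filter.Eventually.of_forall hFb)
  have hFint : ∫ η, F η ∂(law d ρ) = (boxF d (m + s)).card *
      (law d ρ).real {η : Env d | y < X β h η (d * s + l)} := by
    simp only [hF]
    rw [integral_finsetSum _ fun x _ => (integrable_const (1 : ℝ)).indicator (hEm x)]
    have h1 : ∀ x, ∫ η, (E x).indicator (fun _ => (1 : ℝ)) η ∂(law d ρ) =
        (law d ρ).real {η : Env d | y < X β h η (d * s + l)} := by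
      intro x
      rw [integral_indicator_const _ (hEm x), hEr x, smul_eq_mul, mul_one]
    rw [Finset.sum_congr rfl fun x _ => h1 x, Finset.sum_const, nsmul_eq_mul]
  set Bd : Set (Env d) := {η | ∃ x ∈ boxF d m, y + c < X β h (sh m x η) l} with hBd
  have hBm : MeasurableSet Bd := by
    have h1 : Bd = ⋃ x ∈ boxF d m, {η : Env d | y + c < X β h (sh m x η) l} := by
      ext η
      simp [hBd]
    rw [h1]
    exact Finset.measurableSet_biUnion _ fun x _ => measurableSet_lt measurable_const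
      ((measurable_X β h _).comp (measurable_sh _ _))
  have key : ∀ ζ ∈ Bd, ((s : ℝ) + 1) ^ d / 2 ≤ cE ρ S F ζ := by
    rintro ζ ⟨x, hx, hxy⟩
    set G : (Fin d → Fin (s + 1)) → Set (Env d) := fun a =>
      {ω | -c < Real.log (wgt β h (sh (m - d * s) (x - vA s a) ω) (qA s a))} with hG
    have hGm : ∀ a, MeasurableSet (G a) := fun a => measurableSet_lt measurable_const
      ((measurable_logw β h _).comp (measurable_sh _ _))
    have hGr : ∀ a, 1 / 2 ≤ (law d ρ).real (G a) := by
      intro a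
      have h1 := cheap92 (ρ := ρ) hρ β h (qA s a) hc
      refine h1.trans (le_of_eq ?_)
      unfold Measure.real
      rw [← (mp_sh (ρ := ρ) (m - d * s) (x - vA s a)).measure_preimage
        (measurableSet_lt measurable_const (measurable_logw β h (qA s a))).nullMeasurableSet]
      rfl
    have h2 : ∀ ω : Env d, ∑ a : Fin d → Fin (s + 1), (G a).indicator (fun _ => (1 : ℝ)) ω ≤
        F (spl S ζ ω) := by
      intro ω
      have h3 : ∀ a : Fin d → Fin (s + 1), (G a).indicator (fun _ => (1 : ℝ)) ω ≤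
          (E (x - vA s a)).indicator (fun _ => (1 : ℝ)) (spl S ζ ω) := by
        intro a
        by_cases ha : ω ∈ G a
        · have h4 : spl S ζ ω ∈ E (x - vA s a) := by
            have h5 := super92 (l := l) hd β h (spl S ζ ω) hm x a
            have h6 : X β h (sh m x (spl S ζ ω)) l = X β h (sh m x ζ) l := by
              refine FreeU_dep2 β h m l x fun p hp => ?_
              exact spl_mem _ _ hp
            have h7 : wgt β h (sh (m - d * s) (x - vA s a) (spl S ζ ω)) (qA s a) =
                wgt β h (sh (m - d * s) (x - vA s a) ω) (qA s a) := by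
              have h8 : energy (sh (m - d * s) (x - vA s a) (spl S ζ ω)) (qA s a) =
                  energy (sh (m - d * s) (x - vA s a) ω) (qA s a) := by
                unfold energy
                refine Finset.sum_congr rfl fun i _ => ?_
                refine spl_not_mem _ _ fun hc => hc ?_
                show (i : ℕ) + 1 + (m - d * s) ≤ m
                have := i.2
                omega
              unfold wgt
              rw [h8]
            have h9 : -c < Real.log (wgt β h (sh (m - d * s) (x - vA s a) ω) (qA s a)) := ha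
            rw [h6, h7] at h5
            show y < X β h (sh (m - d * s) (x - vA s a) (spl S ζ ω)) (d * s + l)
            linarith
          rw [Set.indicator_of_mem ha, Set.indicator_of_mem h4]
        · rw [Set.indicator_of_notMem ha]
          exact Set.indicator_nonneg (fun _ _ => zero_le_one) _
      refine (Finset.sum_le_sum fun a _ => h3 a).trans ?_
      rw [← Finset.sum_image (s := (Finset.univ : Finset (Fin d → Fin (s + 1))))
        (f := fun x' => (E x').indicator (fun _ => (1 : ℝ)) (spl S ζ ω))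
        (g := fun a => x - vA s a) ((vA_inj s x).injOn)]
      refine Finset.sum_le_sum_of_subset_of_nonneg ?_ fun _ _ _ =>
        Set.indicator_nonneg (fun _ _ => zero_le_one) _
      intro x' hx'
      rw [Finset.mem_image] at hx'
      obtain ⟨a, _, rfl⟩ := hx'
      exact vA_box s m hx a
    have h3 : Integrable (fun ω : Env d => ∑ a : Fin d → Fin (s + 1),
        (G a).indicator (fun _ => (1 : ℝ)) ω) (law d ρ) :=
      integrable_finsetSum _ fun a _ => (integrable_const (1 : ℝ)).indicator (hGm a)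
    have h4 := integral_mono h3 (integrable_spl hFm hFb S ζ) h2
    rw [integral_finsetSum _ fun a _ => (integrable_const (1 : ℝ)).indicator (hGm a)] at h4
    have h5 : ((s : ℝ) + 1) ^ d / 2 ≤ ∑ a : Fin d → Fin (s + 1),
        ∫ ω, (G a).indicator (fun _ => (1 : ℝ)) ω ∂(law d ρ) := by
      have h6 : ∀ a : Fin d → Fin (s + 1), (1 / 2 : ℝ) ≤
          ∫ ω, (G a).indicator (fun _ => (1 : ℝ)) ω ∂(law d ρ) := by
        intro a
        rw [integral_indicator_const _ (hGm a), smul_eq_mul, mul_one]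
        exact hGr a
      have h7 := Finset.sum_le_sum fun (a : Fin d → Fin (s + 1))
        (_ : a ∈ (Finset.univ : Finset (Fin d → Fin (s + 1)))) => h6 a
      rw [Finset.sum_const, Finset.card_univ, Fintype.card_fun, Fintype.card_fin,
        Fintype.card_fin, nsmul_eq_mul] at h7
      refine le_trans (le_of_eq ?_) h7
      push_cast
      ring
    exact h5.trans h4
  have h8 : ∀ ζ, Bd.indicator (fun _ => ((s : ℝ) + 1) ^ d / 2) ζ ≤ cE ρ S F ζ := by
    intro ζ
    by_cases hζ : ζ ∈ Bd
    · rw [Set.indicator_of_mem hζ]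
      exact key ζ hζ
    · rw [Set.indicator_of_notMem hζ]
      exact cE_nonneg hF0 S ζ
  have h9 := integral_mono ((integrable_const _).indicator hBm) (int_abs_cE hFi S).1 h8
  rw [integral_indicator_const _ hBm, int_cE S hFi, hFint, smul_eq_mul] at h9
  linarith

/-- Increments in probability: if the free energy of length `n` is at most `y` up to a small
probability, then the free energy of length `n + m` is at most `y + (lam + ε) m` up to a small
probability. -/
def IncP (d : ℕ) (ρ : Measure ℝ) (β : ℝ) : Prop := ∀ (h : Vec d) (ε δ : ℝ), 0 < ε → 0 < δ →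
  ∃ δ₁ : ℝ, 0 < δ₁ ∧ ∃ m₁ : ℕ, ∀ (m n : ℕ) (y : ℝ), m₁ ≤ m → m ≤ n →
    (law d ρ).real {η | y < X β h η n} ≤ δ₁ →
    (law d ρ).real {η | y + (lam ρ β h + ε) * m < X β h η (n + m)} ≤ δ

/-- Upper bound by the maximum over the end points. -/
lemma maxX92 (hd : 0 < d) (β : ℝ) (h : Vec d) (η : Env d) (m l : ℕ) {z : ℝ}
    (hz : ∀ x ∈ boxF d m, X β h (sh m x η) l ≤ z) : X β h η (m + l) ≤ X β h η m + z := by
  have h1 : Z β h η (m + l) ≤ Z β h η m * Real.exp z := by
    rw [Z_add, Z_eq β h η m, Finset.sum_mul]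
    refine Finset.sum_le_sum fun q _ => mul_le_mul_of_nonneg_left ?_ (wgt_pos _ _ _ _).le
    rw [← Real.log_le_iff_le_exp (Z_pos hd _ _ _ _)]
    exact hz _ (pos_mem_box q m)
  have h2 := Real.log_le_log (Z_pos hd β h η (m + l)) h1
  rwa [Real.log_mul (Z_pos hd β h η m).ne' (Real.exp_pos z).ne', Real.log_exp] at h2

/-- The free energy is not above its limit, up to a small probability. -/
lemma upX92 (hd : 0 < d) (hρ : EM ρ) (β : ℝ) (h : Vec d) {ε δ : ℝ} (hε : 0 < ε) (hδ : 0 < δ) :
    ∃ m₁ : ℕ, ∀ m : ℕ, m₁ ≤ m →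
      (law d ρ).real {η | (lam ρ β h + ε) * m < X β h η m} ≤ δ := by
  obtain ⟨C, hC, hmom⟩ := momU (ρ := ρ) hd hρ β 2
  obtain ⟨m₁, hm₁⟩ := exists_nat_gt (C / (ε ^ 2 * δ))
  refine ⟨m₁ + 1, fun m hm => ?_⟩
  have hm1 : 1 ≤ m := by omega
  have hm0 : (0 : ℝ) < m := by exact_mod_cast hm1
  obtain ⟨i2, h2⟩ := hmom h m hm1
  have h3 : (m : ℝ) ^ ((1 / 2 : ℝ) * (2 : ℕ)) = m := by
    rw [show ((1 / 2 : ℝ) * ((2 : ℕ) : ℝ)) = 1 by norm_num, Real.rpow_one]
  rw [h3] at h2
  have h4 := mul_meas_ge_le_integral_of_nonneg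
    (Filter.Eventually.of_forall fun η : Env d => sq_nonneg (|X β h η m - A ρ β h m|)) i2
    ((ε * m) ^ 2)
  have h5 : {η : Env d | (lam ρ β h + ε) * m < X β h η m} ⊆
      {η | (ε * m) ^ 2 ≤ |X β h η m - A ρ β h m| ^ 2} := by
    intro η hη
    have h6 : (lam ρ β h + ε) * m < X β h η m := hη
    have h7 := A_le_lam hd hρ β h m
    have h8 : ε * m ≤ |X β h η m - A ρ β h m| := by
      refine le_trans ?_ (le_abs_self _)
      nlinarith
    exact pow_le_pow_left₀ (by positivity) h8 2
  have h8 : (ε * m) ^ 2 * (law d ρ).real {η : Env d | (lam ρ β h + ε) * m < X β h η m} ≤ C * m :=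
    (mul_le_mul_of_nonneg_left (measureReal_mono h5) (sq_nonneg _)).trans (h4.trans h2)
  have h9 : C < δ * (ε ^ 2 * m) := by
    have h10 : C / (ε ^ 2 * δ) < m := hm₁.trans_le (by exact_mod_cast (by omega : m₁ ≤ m))
    rw [div_lt_iff₀ (by positivity)] at h10
    linarith
  have h11 : 0 < (ε * m) ^ 2 := by positivity
  by_contra hcon
  push Not at hcon
  have h12 : (ε * m) ^ 2 * δ < C * m := (mul_lt_mul_of_pos_left hcon h11).trans_le h8
  nlinarith

theorem incP92 (hd : 0 < d) (hρ : EM ρ) (β : ℝ) : IncP d ρ β := by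
  intro h ε δ hε hδ
  have hdR : (1 : ℝ) ≤ d := by exact_mod_cast hd
  have hC0 := Cp_nonneg (ρ := ρ) β h
  obtain ⟨C₀, hC₀⟩ : ∃ C₀ : ℝ, C₀ = Cp ρ β h := ⟨_, rfl⟩
  rw [← hC₀] at hC0
  obtain ⟨Λ, hΛ⟩ : ∃ Λ : ℝ, Λ = lam ρ β h := ⟨_, rfl⟩
  have hΛ0 := abs_nonneg Λ
  obtain ⟨κ, hκ⟩ : ∃ κ : ℝ, κ = min (1 / (d : ℝ)) (ε / (4 * d * (|Λ| + 2 * C₀ + 1))) := ⟨_, rfl⟩
  have hκ0 : 0 < κ := by
    rw [hκ]
    exact lt_min (by positivity) (by positivity)
  have hκ1 : d * κ ≤ 1 := by
    have h1 : κ ≤ 1 / (d : ℝ) := by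
      rw [hκ]
      exact min_le_left _ _
    rw [le_div_iff₀ (by linarith)] at h1
    linarith
  have hκ2 : d * κ * (|Λ| + 2 * C₀) ≤ ε / 4 := by
    have h1 : κ ≤ ε / (4 * d * (|Λ| + 2 * C₀ + 1)) := by
      rw [hκ]
      exact min_le_right _ _
    rw [le_div_iff₀ (by positivity)] at h1
    have h2 : 0 ≤ κ * d := by positivity
    nlinarith
  obtain ⟨m₂, hm₂⟩ := upX92 (ρ := ρ) hd hρ β h (ε := ε / 4) (δ := δ / 2) (by linarith)
    (by linarith)
  obtain ⟨m₃, hm₃⟩ := exists_nat_gt (4 / ε)
  refine ⟨δ / 4 * (κ / 7) ^ d, by positivity, m₂ + m₃ + 1, fun m n y hm hmn hy => ?_⟩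
  have hm1 : 1 ≤ m := by omega
  have hm0 : (1 : ℝ) ≤ m := by exact_mod_cast hm1
  obtain ⟨s, hs⟩ : ∃ s : ℕ, s = ⌊κ * m⌋₊ := ⟨_, rfl⟩
  have hs1 : (s : ℝ) ≤ κ * m := by
    rw [hs]
    exact Nat.floor_le (by positivity)
  have hs2 : κ * m ≤ s + 1 := by
    rw [hs]
    exact (Nat.lt_floor_add_one _).le
  have hdsR : (d : ℝ) * s ≤ m := by
    have h1 : (d : ℝ) * s ≤ d * (κ * m) := mul_le_mul_of_nonneg_left hs1 (by linarith)
    have h2 : (d : ℝ) * (κ * m) = d * κ * m := by ring
    have h3 : d * κ * m ≤ 1 * m := mul_le_mul_of_nonneg_right hκ1 (by linarith)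
    linarith
  have hds : d * s ≤ m := by exact_mod_cast hdsR
  have hsm : s ≤ m := (Nat.le_mul_of_pos_left s hd).trans hds
  -- the events
  obtain ⟨c, hc⟩ : ∃ c : ℝ, c = 2 * C₀ * (d * s : ℕ) + 1 := ⟨_, rfl⟩
  have hinp := inp92 (ρ := ρ) hd hρ β h (m := m + d * s) (s := s) (n - d * s) (by omega)
    (c := c) (by rw [hc, ← hC₀]; linarith) y
  have e1 : d * s + (n - d * s) = n := by omega
  rw [e1] at hinp
  have e2 : n + m = m + d * s + (n - d * s) := by omega
  have hc2 : c ≤ 2 * C₀ * (d * κ * m) + 1 := by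
    rw [hc]
    push_cast
    have h1 : (d : ℝ) * s ≤ d * κ * m := by
      have h2 : (d : ℝ) * s ≤ d * (κ * m) := mul_le_mul_of_nonneg_left hs1 (by linarith)
      linarith
    have h3 := mul_le_mul_of_nonneg_left h1 (show 0 ≤ 2 * C₀ by linarith)
    linarith
  have hεm : 1 ≤ ε * m / 4 := by
    have h1 : (4 : ℝ) / ε < m := hm₃.trans_le (by exact_mod_cast (by omega : m₃ ≤ m))
    rw [div_lt_iff₀ hε] at h1
    linarith
  have hsub : {η : Env d | y + (lam ρ β h + ε) * m < X β h η (n + m)} ⊆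
      {η : Env d | ∃ x ∈ boxF d (m + d * s), y + c < X β h (sh (m + d * s) x η) (n - d * s)} ∪
      {η : Env d | (lam ρ β h + ε / 4) * (m + d * s : ℕ) < X β h η (m + d * s)} := by
    intro η hη
    by_contra hno
    rw [Set.mem_union, not_or] at hno
    obtain ⟨h1, h2⟩ := hno
    have h1' : ∀ x ∈ boxF d (m + d * s), X β h (sh (m + d * s) x η) (n - d * s) ≤ y + c := by
      intro x hx
      by_contra h3
      rw [not_le] at h3
      exact h1 ⟨x, hx, h3⟩
    have h2' : X β h η (m + d * s) ≤ (lam ρ β h + ε / 4) * (m + d * s : ℕ) := not_lt.1 h2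
    have h3 := maxX92 hd β h η (m + d * s) (n - d * s) h1'
    have h4 : y + (lam ρ β h + ε) * m < X β h η (n + m) := hη
    rw [e2] at h4
    rw [← hΛ] at h2' h4
    push_cast at h2'
    have h5 : (Λ + ε / 4) * (m + d * s) ≤ Λ * m + |Λ| * (d * κ * m) + ε / 2 * m := by
      have h6 : (d : ℝ) * s ≤ d * κ * m := by
        have h7 : (d : ℝ) * s ≤ d * (κ * m) := mul_le_mul_of_nonneg_left hs1 (by linarith)
        linarith
      have h7 : Λ * (d * s) ≤ |Λ| * (d * κ * m) := by
        calc Λ * (d * s) ≤ |Λ| * (d * s) :=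
              mul_le_mul_of_nonneg_right (le_abs_self _) (by positivity)
          _ ≤ _ := mul_le_mul_of_nonneg_left h6 hΛ0
      have h8 : ε / 4 * (d * s) ≤ ε / 4 * m := mul_le_mul_of_nonneg_left hdsR (by linarith)
      nlinarith
    have h9 : |Λ| * (d * κ * m) + 2 * C₀ * (d * κ * m) ≤ ε / 4 * m := by
      have h10 := mul_le_mul_of_nonneg_right hκ2 (show (0 : ℝ) ≤ m by linarith)
      linarith
    linarith
  refine (measureReal_mono hsub).trans ((measureReal_union_le _ _).trans ?_)
  have hP2 := hm₂ (m + d * s) (by omega)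
  have hP1 : (law d ρ).real {η : Env d | ∃ x ∈ boxF d (m + d * s),
      y + c < X β h (sh (m + d * s) x η) (n - d * s)} ≤ δ / 2 := by
    rw [card_boxF] at hinp
    push_cast at hinp
    have hp0 : 0 ≤ (law d ρ).real {η : Env d | y < X β h η n} := measureReal_nonneg
    have h1 : (κ * m) ^ d ≤ ((s : ℝ) + 1) ^ d := pow_le_pow_left₀ (by positivity) hs2 d
    have h2 : (2 * ((m : ℝ) + d * s + s) + 1) ^ d ≤ (7 * (m : ℝ)) ^ d := by
      refine pow_le_pow_left₀ (by positivity) ?_ d
      have h3 : (s : ℝ) ≤ m := by exact_mod_cast hsm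
      linarith
    obtain ⟨P, hP⟩ : ∃ P : ℝ, P = (law d ρ).real {η : Env d | ∃ x ∈ boxF d (m + d * s),
      y + c < X β h (sh (m + d * s) x η) (n - d * s)} := ⟨_, rfl⟩
    have hP0 : 0 ≤ P := by
      rw [hP]
      exact measureReal_nonneg
    rw [← hP] at hinp ⊢
    have h4 : (κ * m) ^ d * P ≤ 2 * ((7 * (m : ℝ)) ^ d * (δ / 4 * (κ / 7) ^ d)) := by
      calc (κ * m) ^ d * P ≤ ((s : ℝ) + 1) ^ d * P := mul_le_mul_of_nonneg_right h1 hP0
        _ ≤ _ := hinp
        _ ≤ _ := by
          refine mul_le_mul_of_nonneg_left ?_ (by norm_num)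
          exact mul_le_mul h2 hy hp0 (by positivity)
    have h5 : 2 * ((7 * (m : ℝ)) ^ d * (δ / 4 * (κ / 7) ^ d)) = (κ * m) ^ d * (δ / 2) := by
      have h6 : (7 * (m : ℝ)) ^ d * (κ / 7) ^ d = (κ * m) ^ d := by
        rw [← mul_pow]
        congr 1
        field_simp
      calc 2 * ((7 * (m : ℝ)) ^ d * (δ / 4 * (κ / 7) ^ d)) =
          ((7 * (m : ℝ)) ^ d * (κ / 7) ^ d) * (δ / 2) := by ring
        _ = _ := by rw [h6]
    rw [h5] at h4
    exact le_of_mul_le_mul_left h4 (by positivity)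
  linarith

end Pool.Agent.W_7d29a1_NV
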