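import Pool.Agent.W_7d29a1_NV.Eq41b

/-!
Leaf E: for a fixed environment the separators form a selection model.
-/

namespace Pool.Agent.W_7d29a1_NV.Eq41

open MeasureTheory ProbabilityTheory Filter Topology Pool.Agent.W_MP_7d29a1_pr
  Pool.Agent.W_7d29a1_h46 Pool.Agent.W_7d29a1_h46u Pool.Agent.W_7d29a1_D2.B35
  Pool.Agent.W_7d29a1_Q29 Pool.Agent.W_7d29a1_NV

variable {d : ℕ} {ρ : Measure ℝ} {β b : ℝ}

/-! ### The times -/

section Times

variable {n k : ℕ} {T : Fin k → ℕ} {r : Fin (k + 1) → ℕ}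

lemma ord_mono (h : Ord n T r) : Monotone r :=
  Fin.monotone_iff_le_succ.2 fun i => ((h.1 i).1.le.trans (h.1 i).2)

lemma ord_uniq (h : Ord n T r) {i j : Fin k} (h1 : r i.castSucc < T j) (h2 : T j ≤ r i.succ) :
    j = i := by
  have hm := ord_mono h
  rcases lt_trichotomy j i with hj | hj | hj
  · exfalso
    have h3 : r j.succ ≤ r i.castSucc := hm (by
      rw [Fin.le_def, Fin.val_succ, Fin.val_castSucc]
      exact hj)
    have := (h.1 j).2
    omega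
  · exact hj
  · exfalso
    have h3 : r i.succ ≤ r j.castSucc := hm (by
      rw [Fin.le_def, Fin.val_succ, Fin.val_castSucc]
      exact hj)
    have := (h.1 j).1
    omega

lemma mxJ_seg (h : Ord n T r) (b : ℝ) (η : Env d) (ξ : Fin k → Env d) (i : Fin k)
    {p : ℕ × Site d} (h1 : r i.castSucc < p.1) (h2 : p.1 ≤ r i.succ) :
    mxJ b T η ξ p = mx b (T i) η (ξ i) p := by
  by_cases hp : T i = p.1
  · have hex : ∃ j, T j = p.1 := ⟨i, hp⟩
    by_cases hη : |η p| ≤ b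
    · have h3 : (∃ j, T j = p.1) ∧ |η p| ≤ b := ⟨hex, hη⟩
      unfold mxJ mx
      rw [dif_pos h3, if_pos ⟨hp.symm, hη⟩]
      have h4 : h3.1.choose = i := by
        have h5 := h3.1.choose_spec
        exact ord_uniq h (by rw [h5]; exact h1) (by rw [h5]; exact h2)
      rw [h4]
    · unfold mxJ mx
      rw [dif_neg fun h' => hη h'.2, if_neg fun h' => hη h'.2]
  · unfold mxJ mx
    rw [dif_neg, if_neg fun h' => hp h'.1.symm]
    rintro ⟨⟨j, hj⟩, _⟩
    have h4 := ord_uniq h (i := i) (j := j) (by rw [hj]; exact h1) (by rw [hj]; exact h2)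
    rw [h4] at hj
    exact hp hj

lemma mxJ_out (b : ℝ) (η : Env d) (ξ : Fin k → Env d) {p : ℕ × Site d}
    (h1 : ∀ j, T j ≠ p.1) : mxJ b T η ξ p = η p := by
  unfold mxJ
  rw [dif_neg]
  rintro ⟨⟨j, hj⟩, _⟩
  exact h1 j hj

end Times

lemma energy_congr' {m : ℕ} {η η' : Env d}
    (hη : ∀ i : ℕ, 1 ≤ i → i ≤ m → ∀ z, η (i, z) = η' (i, z)) (s : Fin m → Step d) :
    energy η s = energy η' s := by
  unfold energy
  exact Finset.sum_congr rfl fun i _ => hη _ (by omega) (by omega) _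

lemma wgt_congr' (β : ℝ) (h : Vec d) {m : ℕ} {η η' : Env d}
    (hη : ∀ i : ℕ, 1 ≤ i → i ≤ m → ∀ z, η (i, z) = η' (i, z)) (s : Fin m → Step d) :
    wgt β h η s = wgt β h η' s := by
  unfold wgt
  rw [energy_congr' hη s]

lemma ZT_congr' (β : ℝ) (h : Vec d) {m : ℕ} {η η' : Env d}
    (hη : ∀ i : ℕ, 1 ≤ i → i ≤ m → ∀ z, η (i, z) = η' (i, z)) (E : Set (Fin m → Step d)) :
    ZT β h η E = ZT β h η' E := by
  unfold ZT
  refine Finset.sum_congr rfl fun s _ => ?_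
  rw [wgt_congr' β h hη s]

lemma sg_seg {n k : ℕ} {T : Fin k → ℕ} {r : Fin (k + 1) → ℕ} (hO : Ord n T r) (β : ℝ) (h : Vec d)
    (b : ℝ) (η : Env d) (ξ : Fin k → Env d) (i : Fin k) (x y : Site d) :
    sg β h (r i.castSucc) (r i.succ) x y (mxJ b T η ξ) =
      sg β h (r i.castSucc) (r i.succ) x y (mx b (T i) η (ξ i)) := by
  unfold sg PP
  refine ZT_congr' β h (fun j h1 h2 z => ?_) _
  unfold sh
  exact mxJ_seg hO b η ξ i (by simp only; omega) (by simp only; omega)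

lemma PP_head {n k : ℕ} {T : Fin k → ℕ} {r : Fin (k + 1) → ℕ} (hO : Ord n T r) (β : ℝ) (h : Vec d)
    (b : ℝ) (η : Env d) (ξ : Fin k → Env d) (x : Site d) :
    PP β h (mxJ b T η ξ) (r 0) x = PP β h η (r 0) x := by
  unfold PP
  refine ZT_congr' β h (fun j h1 h2 z => ?_) _
  refine mxJ_out b η ξ fun l => ?_
  have h3 := (hO.1 l).1
  have h4 : r 0 ≤ r l.castSucc := ord_mono hO (Fin.zero_le _)
  simp only
  omega

lemma Z_tail {n k : ℕ} {T : Fin k → ℕ} {r : Fin (k + 1) → ℕ} (hO : Ord n T r) (β : ℝ) (h : Vec d)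
    (b : ℝ) (η : Env d) (ξ : Fin k → Env d) (x : Site d) (m : ℕ) :
    Z β h (sh (r (Fin.last k)) x (mxJ b T η ξ)) m = Z β h (sh (r (Fin.last k)) x η) m := by
  unfold Z
  refine ZT_congr' β h (fun j h1 h2 z => ?_) _
  unfold sh
  refine mxJ_out b η ξ fun l => ?_
  have h3 := (hO.1 l).2
  have h4 : r l.succ ≤ r (Fin.last k) := ord_mono hO (Fin.le_last _)
  simp only
  omega

/-- The weight of a class in the environment with resampled rows. -/
lemma wT_eq {n k : ℕ} {T : Fin k → ℕ} {r : Fin (k + 1) → ℕ} (hO : Ord n T r) (hb : 0 ≤ b)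
    (ρ : Measure ℝ) (β : ℝ) (h : Vec d) (η : Env d) (ξ : Fin k → Env d) (s : Sp d n k) :
    wT (Qsp ρ β b h n T r η) (usp ρ β b h n T r η) ξ s =
      pre β h r s (mxJ b T η ξ) *
        Z β h (sh (r (Fin.last k)) (s (Fin.last k)) (mxJ b T η ξ)) (n - r (Fin.last k)) /
          Z β h (mxJ b T η fun _ _ => c0 ρ β b) n := by
  unfold wT Qsp usp
  rw [msp_eq, Z_tail hO, Z_tail hO]
  have h1 : pre β h r s (mxJ b T η fun _ _ => c0 ρ β b) *
      ∏ i : Fin k, uab ρ β b h (T i) (r i.castSucc) (r i.succ) (s i.castSucc) (s i.succ) η (ξ i) =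
      pre β h r s (mxJ b T η ξ) := by
    unfold pre
    rw [PP_head hO, PP_head hO, mul_assoc, ← Finset.prod_mul_distrib]
    congr 1
    refine Finset.prod_congr rfl fun i _ => ?_
    rw [sg_seg hO, sg_seg hO]
    exact sg_mul_uab ρ β h hb (hO.1 i).1 (hO.1 i).2 _ _ η (ξ i)
  rw [← h1]
  ring

lemma ord_le {n k : ℕ} {T : Fin k → ℕ} {r : Fin (k + 1) → ℕ} (hO : Ord n T r) (i : Fin k) :
    r i.castSucc ≤ r i.succ := ((hO.1 i).1.le.trans (hO.1 i).2)

lemma dT_eq {n k : ℕ} {T : Fin k → ℕ} {r : Fin (k + 1) → ℕ} (hO : Ord n T r) (hb : 0 ≤ b)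
    (ρ : Measure ℝ) (β : ℝ) (h : Vec d) (η : Env d) (ξ : Fin k → Env d) :
    dT (Qsp ρ β b h n T r η) (usp ρ β b h n T r η) ξ =
      Z β h (mxJ b T η ξ) n / Z β h (mxJ b T η fun _ _ => c0 ρ β b) n := by
  unfold dT
  rw [Finset.sum_congr rfl fun s _ => wT_eq hO hb ρ β h η ξ s, ← Finset.sum_div,
    tot_sum β h (mxJ b T η ξ) r (ord_le hO) hO.2]

lemma msp_nonneg (hd : 0 < d) (β : ℝ) (h : Vec d) (n : ℕ) {k : ℕ} (r : Fin (k + 1) → ℕ)
    (s : Sp d n k) (η : Env d) : 0 ≤ msp β h n r s η := by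
  unfold msp
  have h1 := PP_nonneg β h η (r 0) (s 0)
  have h2 : 0 ≤ ∏ i : Fin k, sg β h (r i.castSucc) (r i.succ) (s i.castSucc) (s i.succ) η :=
    Finset.prod_nonneg fun i _ => sg_nonneg _ _ _ _ _ _ _
  have h3 := (Z_pos hd β h (sh (r (Fin.last k)) (s (Fin.last k)) η) (n - r (Fin.last k))).le
  have h4 := (Z_pos hd β h η n).le
  positivity

/-- Leaf E. -/
theorem eqT41 (hd : 0 < d) [IsProbabilityMeasure ρ] (hβ : 0 < β) (hb : HB ρ b) :
    EqT d ρ β b := by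
  intro h n k T r hO η
  refine ⟨⟨?_, ?_, ?_, ?_, ?_, ?_⟩, fun ξ => ⟨fun s => ?_, ?_⟩⟩
  · intro s
    exact msp_nonneg hd β h n r s _
  · exact msp_sum hd β h _ r (ord_le hO) hO.2
  · intro i s
    exact measurable_uab ρ β b h (T i) _ _ _ _ η
  · intro i s ξ
    exact uab_lo ρ β h hb.b0.le (hO.1 i).1 (hO.1 i).2 _ _ η ξ
  · intro i s ξ
    exact uab_hi ρ β h hb.b0.le (hO.1 i).1 (hO.1 i).2 _ _ η ξ
  · intro i s
    exact int_uab hβ hb h (hO.1 i).1 (hO.1 i).2 _ _ η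
  · unfold prT
    rw [wT_eq hO hb.b0.le ρ β h η ξ s, dT_eq hO hb.b0.le ρ β h η ξ, msp_eq]
    have h1 := (Z_pos hd β h (mxJ b T η fun _ _ => c0 ρ β b) n).ne'
    have h2 := (Z_pos hd β h (mxJ b T η ξ) n).ne'
    field_simp
  · rw [dT_eq hO hb.b0.le ρ β h η ξ]
    have h1 := (Z_pos hd β h (mxJ b T η fun _ _ => c0 ρ β b) n).ne'
    have h2 := (Z_pos hd β h (mxJ b T η ξ) n).ne'
    rw [Real.log_div h2 h1]
    rfl

end Pool.Agent.W_7d29a1_NV.Eq41
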