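import Pool.Agent.W_7d29a1_Q29.Loc42
import Pool.Agent.W_7d29a1_Q29.Poly85

/-!
The variance at the length `n + j` against the variance at the length `n` (helper27).
-/

namespace Pool.Agent.W_7d29a1_NV.Inc27

open MeasureTheory ProbabilityTheory Filter Topology Pool.Agent.W_MP_7d29a1_pr
  Pool.Agent.W_7d29a1_h46 Pool.Agent.W_7d29a1_h46u Pool.Agent.W_7d29a1_D2
  Pool.Agent.W_7d29a1_D2.B35 Pool.Agent.W_7d29a1_V.Law2 Pool.Agent.W_7d29a1_Q29
  Pool.Agent.W_7d29a1_Q29.Csy42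

lemma log_sq_le {x : ℝ} (hx : 0 < x) : Real.log x ^ 2 ≤ x + 1 / x := by
  obtain ⟨u, hu⟩ : ∃ u : ℝ, u = Real.log x := ⟨_, rfl⟩
  have h1 : x = Real.exp u := by rw [hu, Real.exp_log hx]
  rw [← hu, h1, one_div, ← Real.exp_neg]
  have h2 : ∀ v : ℝ, 0 ≤ v → v ^ 2 ≤ Real.exp v := by
    intro v hv
    have h3 := Real.quadratic_le_exp_of_nonneg (x := v / 2) (by linarith)
    have h4 : Real.exp v = Real.exp (v / 2) ^ 2 := by
      rw [← Real.exp_nat_mul]
      congr 1
      push_cast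
      ring
    rw [h4]
    have h5 : v ≤ 1 + v / 2 + (v / 2) ^ 2 / 2 := by nlinarith [sq_nonneg (v / 2 - 1)]
    exact pow_le_pow_left₀ hv (h5.trans h3) 2
  rcases le_total 0 u with hu0 | hu0
  · have h3 := h2 u hu0
    have h4 := Real.exp_pos (-u)
    linarith
  · have h3 := h2 (-u) (by linarith)
    have h4 := Real.exp_pos u
    have h5 : (-u) ^ 2 = u ^ 2 := by ring
    rw [h5] at h3
    linarith

lemma log_sum_sq {ι : Type*} {s : Finset ι} {m y : ι → ℝ} (hm : ∀ i ∈ s, 0 ≤ m i)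
    (h1 : ∑ i ∈ s, m i = 1) (hy : ∀ i, 0 < y i) :
    Real.log (∑ i ∈ s, m i * y i) ^ 2 ≤ ∑ i ∈ s, m i * y i + ∑ i ∈ s, m i / y i := by
  have hpos : 0 < ∑ i ∈ s, m i * y i := by
    have h2 : ∃ i ∈ s, 0 < m i := by
      by_contra hc
      push Not at hc
      have h3 : ∑ i ∈ s, m i ≤ 0 := Finset.sum_nonpos hc
      linarith
    obtain ⟨i, hi, hi0⟩ := h2
    exact Finset.sum_pos' (fun i hi => mul_nonneg (hm i hi) (hy i).le)
      ⟨i, hi, mul_pos hi0 (hy i)⟩
  have h2 : (∑ i ∈ s, m i) ^ 2 ≤ (∑ i ∈ s, m i * y i) * ∑ i ∈ s, m i / y i :=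
    Finset.sum_sq_le_sum_mul_sum_of_sq_le_mul s (fun i hi => mul_nonneg (hm i hi) (hy i).le)
      (fun i hi => div_nonneg (hm i hi) (hy i).le) fun i _ => le_of_eq (by
        have := (hy i).ne'
        field_simp)
  rw [h1, one_pow] at h2
  have h3 : 1 / ∑ i ∈ s, m i * y i ≤ ∑ i ∈ s, m i / y i := by
    rw [div_le_iff₀ hpos, mul_comm]
    exact h2
  have h4 := log_sq_le hpos
  linarith

variable {d : ℕ} {ρ : Measure ℝ} [IsProbabilityMeasure ρ]

lemma X_sp (β : ℝ) (h : Vec d) (t : ℕ) (η ξ : Env d) :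
    X β h (sp {p : ℕ × Site d | p.1 ≤ t} η ξ) t = X β h η t := by
  unfold X
  rw [Z_eq_sum, Z_eq_sum]
  simp only [PP_sp]

/-- The difference of two consecutive free energies. -/
theorem step27 (hd : 0 < d) (hρ : EM ρ) (β : ℝ) (h : Vec d) (t : ℕ) :
    ∫ η, (X β h η (t + 1) - X β h η t) ^ 2 ∂(law d ρ) ≤
      2 * Real.log (Phi h) ^ 2 +
        2 * ((∫ r, Real.exp (β * r) ∂ρ) + ∫ r, Real.exp (-β * r) ∂ρ) := by
  have hmp := mp_sp (J := ℕ × Site d) (ρ := ρ) {p : ℕ × Site d | p.1 ≤ t}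
  have hm : Measurable fun η : Env d => (X β h η (t + 1) - X β h η t) ^ 2 :=
    ((measurable_X β h (t + 1)).sub (measurable_X β h t)).pow_const 2
  have i1 := N85.Va_int (ρ := ρ) hd hρ β h (t + 1)
  have i0 := N85.Va_int (ρ := ρ) hd hρ β h t
  have hi : Integrable (fun η : Env d => (X β h η (t + 1) - X β h η t) ^ 2) (law d ρ) := by
    refine (((i1.add i0).const_mul 3).add
      (integrable_const (3 * (A ρ β h (t + 1) - A ρ β h t) ^ 2))).mono' hm.aestronglyMeasurable
      (Eventually.of_forall fun η => ?_)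
    rw [Real.norm_eq_abs, abs_of_nonneg (sq_nonneg _)]
    simp only [Pi.add_apply]
    nlinarith [sq_nonneg ((X β h η (t + 1) - A ρ β h (t + 1)) + (X β h η t - A ρ β h t)),
      sq_nonneg ((X β h η (t + 1) - A ρ β h (t + 1)) - (A ρ β h (t + 1) - A ρ β h t)),
      sq_nonneg ((X β h η t - A ρ β h t) + (A ρ β h (t + 1) - A ρ β h t))]
  have h1 : ∫ w : Env d × Env d, (X β h (sp {p : ℕ × Site d | p.1 ≤ t} w.1 w.2) (t + 1) -
        X β h (sp {p : ℕ × Site d | p.1 ≤ t} w.1 w.2) t) ^ 2 ∂((law d ρ).prod (law d ρ)) =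
      ∫ η, (X β h η (t + 1) - X β h η t) ^ 2 ∂(law d ρ) :=
    LawU_integral hmp (F := fun η : Env d => (X β h η (t + 1) - X β h η t) ^ 2)
      hm.aestronglyMeasurable
  have h2 : Integrable (fun w : Env d × Env d =>
      (X β h (sp {p : ℕ × Site d | p.1 ≤ t} w.1 w.2) (t + 1) -
        X β h (sp {p : ℕ × Site d | p.1 ≤ t} w.1 w.2) t) ^ 2) ((law d ρ).prod (law d ρ)) :=
    hmp.integrable_comp_of_integrable hi
  obtain ⟨C, hC⟩ : ∃ C : ℝ, C = 2 * Real.log (Phi h) ^ 2 +
        2 * ((∫ r, Real.exp (β * r) ∂ρ) + ∫ r, Real.exp (-β * r) ∂ρ) := ⟨_, rfl⟩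
  rw [← hC]
  have h3 : ∀ η : Env d, ∫ ξ : Env d, (X β h (sp {p : ℕ × Site d | p.1 ≤ t} η ξ) (t + 1) -
      X β h (sp {p : ℕ × Site d | p.1 ≤ t} η ξ) t) ^ 2 ∂(law d ρ) ≤ C := by
    intro η
    obtain ⟨m, hmd⟩ : ∃ m : Site d → ℝ, m = fun z => Rw β h t η z / (Phi h * Z β h η t) :=
      ⟨_, rfl⟩
    have hPZ : 0 < Phi h * Z β h η t := mul_pos (Phi_pos hd h) (Z_pos hd β h η t)
    have hm0 : ∀ z ∈ boxF d (t + 1), 0 ≤ m z := fun z _ => by
      rw [hmd]
      exact div_nonneg (Rw_nonneg _ _ _ _ _) hPZ.le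
    have hm1 : ∑ z ∈ boxF d (t + 1), m z = 1 := by
      rw [hmd, ← Finset.sum_div, Rw_tot, div_self hPZ.ne']
    have e1 : ∀ ξ : Env d, X β h (sp {p : ℕ × Site d | p.1 ≤ t} η ξ) (t + 1) -
        X β h (sp {p : ℕ × Site d | p.1 ≤ t} η ξ) t = Real.log (Phi h) +
          Real.log (∑ z ∈ boxF d (t + 1), m z * Real.exp (β * ξ (t + 1, z))) := by
      intro ξ
      rw [X_sp]
      have e2 : ∑ z ∈ boxF d (t + 1), Rw β h t η z * Real.exp (β * ξ (t + 1, z)) =
          (Phi h * Z β h η t) * ∑ z ∈ boxF d (t + 1), m z * Real.exp (β * ξ (t + 1, z)) := by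
        rw [hmd, Finset.mul_sum]
        refine Finset.sum_congr rfl fun z _ => ?_
        rw [← mul_assoc, mul_div_cancel₀ _ hPZ.ne']
      have hs : 0 < ∑ z ∈ boxF d (t + 1), m z * Real.exp (β * ξ (t + 1, z)) := by
        have h5 : 0 < Z β h (sp {p : ℕ × Site d | p.1 ≤ t} η ξ) (t + 1) := Z_pos hd _ _ _ _
        rw [Z_sp, e2] at h5
        exact (mul_pos_iff_of_pos_left hPZ).1 h5
      unfold X
      rw [Z_sp, e2, Real.log_mul hPZ.ne' hs.ne', Real.log_mul (Phi_pos hd h).ne'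
        (Z_pos hd β h η t).ne']
      ring
    simp only [e1]
    have hF : ∀ z, Integrable (fun ξ : Env d => m z * Real.exp (β * ξ (t + 1, z)))
        (law d ρ) ∧ ∫ ξ : Env d, m z * Real.exp (β * ξ (t + 1, z)) ∂(law d ρ) =
          m z * ∫ r, Real.exp (β * r) ∂ρ := by
      intro z
      have h5 := ev_int (d := d) (hρ β) (t + 1, z)
      exact ⟨h5.1.const_mul _, by rw [integral_const_mul, h5.2]⟩
    have hG : ∀ z, Integrable (fun ξ : Env d => m z / Real.exp (β * ξ (t + 1, z)))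
        (law d ρ) ∧ ∫ ξ : Env d, m z / Real.exp (β * ξ (t + 1, z)) ∂(law d ρ) =
          m z * ∫ r, Real.exp (-β * r) ∂ρ := by
      intro z
      have h5 := ev_int (d := d) (hρ (-β)) (t + 1, z)
      have e3 : (fun ξ : Env d => m z / Real.exp (β * ξ (t + 1, z))) =
          fun ξ => m z * Real.exp (-β * ξ (t + 1, z)) := by
        funext ξ
        rw [div_eq_mul_inv, ← Real.exp_neg]
        congr 2
        ring
      rw [e3]
      exact ⟨h5.1.const_mul _, by rw [integral_const_mul, h5.2]⟩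
    have hS : Integrable (fun ξ : Env d =>
        2 * (∑ z ∈ boxF d (t + 1), m z * Real.exp (β * ξ (t + 1, z)) +
          ∑ z ∈ boxF d (t + 1), m z / Real.exp (β * ξ (t + 1, z)))) (law d ρ) :=
      ((integrable_finsetSum _ fun z _ => (hF z).1).add
        (integrable_finsetSum _ fun z _ => (hG z).1)).const_mul 2
    have hU : Integrable (fun ξ : Env d => 2 * Real.log (Phi h) ^ 2 +
        2 * (∑ z ∈ boxF d (t + 1), m z * Real.exp (β * ξ (t + 1, z)) +
          ∑ z ∈ boxF d (t + 1), m z / Real.exp (β * ξ (t + 1, z)))) (law d ρ) :=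
      (integrable_const _).add hS
    have h6 : ∫ ξ : Env d, (2 * Real.log (Phi h) ^ 2 +
        2 * (∑ z ∈ boxF d (t + 1), m z * Real.exp (β * ξ (t + 1, z)) +
          ∑ z ∈ boxF d (t + 1), m z / Real.exp (β * ξ (t + 1, z)))) ∂(law d ρ) = C := by
      rw [integral_add (integrable_const _) hS, integral_const, integral_const_mul,
        integral_add (integrable_finsetSum _ fun z _ => (hF z).1)
          (integrable_finsetSum _ fun z _ => (hG z).1),
        integral_finsetSum _ fun z _ => (hF z).1, integral_finsetSum _ fun z _ => (hG z).1,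
        Finset.sum_congr rfl fun z _ => (hF z).2, Finset.sum_congr rfl fun z _ => (hG z).2,
        ← Finset.sum_mul, ← Finset.sum_mul, hm1, hC]
      simp
    rw [← h6]
    refine integral_mono_of_nonneg (Eventually.of_forall fun ξ => sq_nonneg _) hU
      (Eventually.of_forall fun ξ => ?_)
    simp only
    have h7 := log_sum_sq hm0 hm1 (y := fun z => Real.exp (β * ξ (t + 1, z)))
      fun z => Real.exp_pos _
    nlinarith [sq_nonneg (Real.log (Phi h) -
      Real.log (∑ z ∈ boxF d (t + 1), m z * Real.exp (β * ξ (t + 1, z))))]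
  rw [← h1, integral_prod _ h2]
  calc ∫ η : Env d, ∫ ξ : Env d, (X β h (sp {p : ℕ × Site d | p.1 ≤ t} η ξ) (t + 1) -
      X β h (sp {p : ℕ × Site d | p.1 ≤ t} η ξ) t) ^ 2 ∂(law d ρ) ∂(law d ρ)
      ≤ ∫ _ : Env d, C ∂(law d ρ) :=
        integral_mono h2.integral_prod_left (integrable_const _) h3
    _ = C := by simp

/-- The difference of two free energies. -/
theorem steps27 (hd : 0 < d) (hρ : EM ρ) (β : ℝ) (h : Vec d) (n j : ℕ) :
    ∫ η, (X β h η (n + j) - X β h η n) ^ 2 ∂(law d ρ) ≤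
      (2 * Real.log (Phi h) ^ 2 +
        2 * ((∫ r, Real.exp (β * r) ∂ρ) + ∫ r, Real.exp (-β * r) ∂ρ)) * (j : ℝ) ^ 2 := by
  obtain ⟨C, hC⟩ : ∃ C : ℝ, C = 2 * Real.log (Phi h) ^ 2 +
        2 * ((∫ r, Real.exp (β * r) ∂ρ) + ∫ r, Real.exp (-β * r) ∂ρ) := ⟨_, rfl⟩
  rw [← hC]
  have hi : ∀ t, Integrable (fun η : Env d => (X β h η (t + 1) - X β h η t) ^ 2) (law d ρ) := by
    intro t
    have hm : Measurable fun η : Env d => (X β h η (t + 1) - X β h η t) ^ 2 :=
      ((measurable_X β h (t + 1)).sub (measurable_X β h t)).pow_const 2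
    have i1 := N85.Va_int (ρ := ρ) hd hρ β h (t + 1)
    have i0 := N85.Va_int (ρ := ρ) hd hρ β h t
    refine (((i1.add i0).const_mul 3).add
      (integrable_const (3 * (A ρ β h (t + 1) - A ρ β h t) ^ 2))).mono' hm.aestronglyMeasurable
      (Eventually.of_forall fun η => ?_)
    rw [Real.norm_eq_abs, abs_of_nonneg (sq_nonneg _)]
    simp only [Pi.add_apply]
    nlinarith [sq_nonneg ((X β h η (t + 1) - A ρ β h (t + 1)) + (X β h η t - A ρ β h t)),
      sq_nonneg ((X β h η (t + 1) - A ρ β h (t + 1)) - (A ρ β h (t + 1) - A ρ β h t)),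
      sq_nonneg ((X β h η t - A ρ β h t) + (A ρ β h (t + 1) - A ρ β h t))]
  have h1 : ∀ η : Env d, (X β h η (n + j) - X β h η n) ^ 2 ≤
      j * ∑ i ∈ Finset.range j, (X β h η (n + i + 1) - X β h η (n + i)) ^ 2 := by
    intro η
    have h2 := Finset.sum_range_sub (fun i => X β h η (n + i)) j
    simp only [add_zero] at h2
    rw [← h2]
    have h3 := sq_sum_le_card_mul_sum_sq (s := Finset.range j)
      (f := fun i => X β h η (n + (i + 1)) - X β h η (n + i))
    rw [Finset.card_range] at h3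
    exact h3
  have hint : Integrable (fun η : Env d => (j : ℝ) *
      ∑ i ∈ Finset.range j, (X β h η (n + i + 1) - X β h η (n + i)) ^ 2) (law d ρ) :=
    (integrable_finsetSum _ fun i _ => hi (n + i)).const_mul _
  calc ∫ η, (X β h η (n + j) - X β h η n) ^ 2 ∂(law d ρ)
      ≤ ∫ η, (j : ℝ) * ∑ i ∈ Finset.range j, (X β h η (n + i + 1) - X β h η (n + i)) ^ 2
          ∂(law d ρ) := integral_mono_of_nonneg (Eventually.of_forall fun η => sq_nonneg _) hint
            (Eventually.of_forall h1)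
    _ = j * ∑ i ∈ Finset.range j, ∫ η, (X β h η (n + i + 1) - X β h η (n + i)) ^ 2
          ∂(law d ρ) := by
        rw [integral_const_mul, integral_finsetSum _ fun i _ => hi (n + i)]
    _ ≤ j * ∑ i ∈ Finset.range j, C := by
        refine mul_le_mul_of_nonneg_left (Finset.sum_le_sum fun i _ => ?_) (Nat.cast_nonneg j)
        rw [hC]
        exact step27 hd hρ β h (n + i)
    _ = C * (j : ℝ) ^ 2 := by
        rw [Finset.sum_const, Finset.card_range, nsmul_eq_mul]
        ring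

/-- The variance at the length `n + j`. -/
theorem va27 (hd : 0 < d) (hρ : EM ρ) (β : ℝ) (h : Vec d) (n j : ℕ) :
    Va ρ β h (n + j) ≤ 2 * Va ρ β h n + 2 * (2 * Real.log (Phi h) ^ 2 +
        2 * ((∫ r, Real.exp (β * r) ∂ρ) + ∫ r, Real.exp (-β * r) ∂ρ)) * (j : ℝ) ^ 2 := by
  have h0 := steps27 (ρ := ρ) hd hρ β h n j
  obtain ⟨C, hC⟩ : ∃ C : ℝ, C = 2 * Real.log (Phi h) ^ 2 +
        2 * ((∫ r, Real.exp (β * r) ∂ρ) + ∫ r, Real.exp (-β * r) ∂ρ) := ⟨_, rfl⟩
  rw [← hC] at h0 ⊢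
  have hXn := (concU (ρ := ρ) hd hρ β h n).1
  have hXj := (concU (ρ := ρ) hd hρ β h (n + j)).1
  obtain ⟨U, hU⟩ : ∃ U : Env d → ℝ, U = fun η => X β h η (n + j) - X β h η n := ⟨_, rfl⟩
  have hUi : Integrable U (law d ρ) := by
    rw [hU]
    exact hXj.sub hXn
  obtain ⟨a, ha⟩ : ∃ a : ℝ, a = ∫ η, U η ∂(law d ρ) := ⟨_, rfl⟩
  have ha' : a = A ρ β h (n + j) - A ρ β h n := by
    rw [ha, hU]
    exact integral_sub hXj hXn
  have hV1 := N85.Va_int (ρ := ρ) hd hρ β h n
  have hV2 := N85.Va_int (ρ := ρ) hd hρ β h (n + j)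
  have hUm : Measurable U := by
    rw [hU]
    exact (measurable_X β h (n + j)).sub (measurable_X β h n)
  have hU2 : Integrable (fun η => U η ^ 2) (law d ρ) := by
    refine (((hV2.add hV1).const_mul 3).add (integrable_const (3 * a ^ 2))).mono'
      (hUm.pow_const 2).aestronglyMeasurable (Eventually.of_forall fun η => ?_)
    rw [Real.norm_eq_abs, abs_of_nonneg (sq_nonneg _), hU]
    simp only [Pi.add_apply]
    have e : X β h η (n + j) - X β h η n = (X β h η (n + j) - A ρ β h (n + j)) -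
        (X β h η n - A ρ β h n) + a := by
      rw [ha']
      ring
    rw [e]
    nlinarith [sq_nonneg ((X β h η (n + j) - A ρ β h (n + j)) + (X β h η n - A ρ β h n)),
      sq_nonneg ((X β h η (n + j) - A ρ β h (n + j)) - a),
      sq_nonneg ((X β h η n - A ρ β h n) + a)]
  have h1 : ∫ η, (U η - a) ^ 2 ∂(law d ρ) ≤ ∫ η, U η ^ 2 ∂(law d ρ) := by
    have e : ∀ η, (U η - a) ^ 2 = U η ^ 2 - (2 * a) * U η + a ^ 2 := fun η => by ring
    simp only [e]
    have j1 : Integrable (fun η => U η ^ 2 - (2 * a) * U η) (law d ρ) :=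
      hU2.sub (hUi.const_mul _)
    rw [integral_add j1 (integrable_const _), integral_sub hU2 (hUi.const_mul _),
      integral_const_mul, ← ha]
    simp only [integral_const, probReal_univ, one_smul]
    nlinarith [sq_nonneg a]
  have hUa : Integrable (fun η => (U η - a) ^ 2) (law d ρ) := by
    have e : (fun η => (U η - a) ^ 2) = fun η => (U η ^ 2 - (2 * a) * U η) + a ^ 2 := by
      funext η
      ring
    rw [e]
    exact (hU2.sub (hUi.const_mul _)).add (integrable_const _)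
  have hUU : ∫ η, U η ^ 2 ∂(law d ρ) ≤ C * (j : ℝ) ^ 2 := by
    rw [hU]
    exact h0
  have i2 : Integrable (fun η => 2 * (X β h η n - A ρ β h n) ^ 2) (law d ρ) := hV1.const_mul 2
  have i3 : Integrable (fun η => 2 * (U η - a) ^ 2) (law d ρ) := hUa.const_mul 2
  calc Va ρ β h (n + j) ≤ ∫ η, (2 * (X β h η n - A ρ β h n) ^ 2 + 2 * (U η - a) ^ 2)
        ∂(law d ρ) := by
        unfold Va
        refine integral_mono hV2 (i2.add i3) fun η => ?_
        simp only
        have e : X β h η (n + j) - A ρ β h (n + j) = (X β h η n - A ρ β h n) + (U η - a) := by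
          rw [ha', hU]
          ring
        rw [e]
        nlinarith [sq_nonneg ((X β h η n - A ρ β h n) - (U η - a))]
    _ = 2 * Va ρ β h n + 2 * ∫ η, (U η - a) ^ 2 ∂(law d ρ) := by
        rw [integral_add i2 i3, integral_const_mul, integral_const_mul]
        rfl
    _ ≤ 2 * Va ρ β h n + 2 * C * (j : ℝ) ^ 2 := by linarith

end Pool.Agent.W_7d29a1_NV.Inc27
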