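import Pool.Agent.W_7d29a1_NV.Fin50

/-!
Theorem NV: the core at one length, for every large scale `b₀`.
-/

namespace Pool.Agent.W_7d29a1_NV

open MeasureTheory ProbabilityTheory Filter Topology Pool.Agent.W_MP_7d29a1_pr
  Pool.Agent.W_7d29a1_h46 Pool.Agent.W_7d29a1_h46u Pool.Agent.W_7d29a1_D2.B35
  Pool.Agent.W_7d29a1_Q29

section Leaves

variable (d : ℕ) (ρ : Measure ℝ) (β b : ℝ)

/-- The core: at one length, if the law of every position is concentrated on few sites and the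
increment of the mean free energy is small, then the variance is large. -/
def CorN : Prop := ∀ (h : Vec d) (g K : ℝ), 0 < g →
  lam ρ β h + g ≤ Real.log (Phi h) + Real.log (∫ t, Real.exp (β * t) ∂ρ) →
  ∃ ε δ b₂ : ℝ, 0 < ε ∧ 0 < δ ∧ ∀ b₀ : ℝ, b₂ ≤ b₀ → ∃ n₀ : ℕ, ∀ n : ℕ, n₀ ≤ n →
    (∀ τ : ℕ, 1 ≤ τ → τ ≤ n → (law d ρ).real {η | ¬ GoodN β h n τ b₀ ε η} ≤ δ) →
    A ρ β h n - A ρ β h (n - 1) ≤ lam ρ β h + g / 2 → K < Va ρ β h n

end Leaves

namespace F50

/-- The constants of the first step, for every large scale. -/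
theorem rhs_bound' {B θ η δ ε κ J b₀ : ℝ} {k : ℝ} (hB : 1 ≤ B) (hθ : 0 < θ) (hη : 0 < η)
    (hk : 0 < k) (hκ : 0 ≤ κ) (hJ : 0 < J) (h1 : δ ≤ η / (20 * B))
    (h2 : θ ≤ η / (20 * B ^ 2)) (h3 : ε = η * θ / (1280 * B)) (h4 : 5 / η ≤ k)
    (h5 : 10 / (θ * η) ≤ k) (h6 : 4 * k * κ * (10 * B * k * Real.exp (5 * B * k) / η) ^ 2 ≤ J)
    (hb1 : 32 * B * k ≤ b₀) (hb2 : b₀ ≤ 64 * B * k) :
    4 * B * k * δ + Real.log (1 + Real.exp (2 * ε * b₀)) / θ + 4 * B ^ 2 * θ * k +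
      4 * B * k * Real.exp (4 * B * k - b₀ / 4) +
      2 * B * k * Real.exp (5 * B * k) * (k * Real.sqrt (2 * (2 * k * κ / J))) ≤ η * k := by
  have hB0 : 0 < B := by linarith
  have h0 := rhs_bound (B := B) (θ := θ) (η := η) (δ := δ) (ε := 2 * ε) (κ := κ) (J := J) (k := k)
    hB hθ hη hk hκ hJ h1 h2 (by rw [h3]; ring) h4 h5 h6
  have hε : 0 < ε := by rw [h3]; positivity
  have a1 : Real.log (1 + Real.exp (2 * ε * b₀)) / θ ≤
      Real.log (1 + Real.exp (2 * (2 * ε) * (32 * B * k))) / θ := by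
    refine div_le_div_of_nonneg_right (Real.log_le_log (by positivity) ?_) hθ.le
    have : 2 * ε * b₀ ≤ 2 * (2 * ε) * (32 * B * k) := by nlinarith
    linarith [Real.exp_le_exp.2 this]
  have a2 : 4 * B * k * Real.exp (4 * B * k - b₀ / 4) ≤
      4 * B * k * Real.exp (4 * B * k - 32 * B * k / 4) := by
    refine mul_le_mul_of_nonneg_left (Real.exp_le_exp.2 ?_) (by positivity)
    linarith
  linarith

end F50

/-- **The core.** -/
theorem corN50 {d : ℕ} {ρ : Measure ℝ} {β b : ℝ} (hb : HB ρ b)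
    (hO : OneP d ρ β b) (hT : TwoP d ρ β b) (hM : MonT d ρ β b) (hV : VarL d ρ β b) :
    CorN d ρ β := by
  intro h g K hg0 hg
  have hb0 := hb.b0
  obtain ⟨B, hBdef⟩ : ∃ B, B = Bc β b := ⟨_, rfl⟩
  have hM0 : 0 ≤ 4 * |β| * b := by positivity
  have hB : 1 ≤ B := by
    rw [hBdef, Bc]
    have : 0 ≤ 2 * |β| * b := by positivity
    linarith
  have hB0 : 0 < B := by linarith
  obtain ⟨c, hc, hV1⟩ := hV g hg0
  obtain ⟨q, hq1, hq⟩ := F50.exists_q (R := 2 * Real.sqrt K + 1) hc hB (by positivity)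
  have hq1' : (1 : ℝ) ≤ q := by exact_mod_cast hq1
  have hw : 1 ≤ 2 * B * q + 1 := by
    have : 0 ≤ 2 * B * q := by positivity
    linarith
  obtain ⟨η, hη⟩ : ∃ η : ℝ, η = 1 / (8 * q * (2 * B * q + 1) ^ 2) := ⟨_, rfl⟩
  have hη0 : 0 < η := by
    rw [hη]
    positivity
  obtain ⟨θ, hθ⟩ : ∃ θ : ℝ, θ = min (1 / (2 * B)) (η / (20 * B ^ 2)) := ⟨_, rfl⟩
  have hθ0 : 0 < θ := by
    rw [hθ]
    positivity
  obtain ⟨δ, hδ⟩ : ∃ δ : ℝ, δ = η / (20 * B) := ⟨_, rfl⟩
  have hδ0 : 0 < δ := by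
    rw [hδ]
    positivity
  obtain ⟨ε, hε⟩ : ∃ ε : ℝ, ε = η * θ / (1280 * B) := ⟨_, rfl⟩
  have hε0 : 0 < ε := by
    rw [hε]
    positivity
  obtain ⟨m0, hm⟩ := exists_nat_gt (max (5 / η) (10 / (θ * η)))
  refine ⟨ε, δ, 32 * B * q * (m0 + 1), hε0, hδ0, fun b₀ hb₀ => ?_⟩
  obtain ⟨m, hmdef⟩ : ∃ m : ℕ, m = ⌊b₀ / (32 * B * q)⌋₊ := ⟨_, rfl⟩
  have hBq : 0 < 32 * B * q := by positivity
  have hb₀0 : 0 ≤ b₀ := le_trans (by positivity) hb₀
  have hmle : (m : ℝ) ≤ b₀ / (32 * B * q) := by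
    rw [hmdef]
    exact Nat.floor_le (by positivity)
  have hmlt : b₀ / (32 * B * q) < m + 1 := by
    rw [hmdef]
    exact Nat.lt_floor_add_one _
  have hmm : (m0 : ℝ) < m := by
    have h1 : (m0 : ℝ) + 1 ≤ b₀ / (32 * B * q) := by
      rw [le_div_iff₀ hBq]
      linarith
    linarith
  have hm1 : 5 / η ≤ m := (le_max_left _ _).trans (hm.le.trans hmm.le)
  have hm2 : 10 / (θ * η) ≤ m := (le_max_right _ _).trans (hm.le.trans hmm.le)
  have hm0 : 0 < m := by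
    have : (0 : ℝ) < m := lt_of_lt_of_le (by positivity) hm1
    exact_mod_cast this
  obtain ⟨k, hk⟩ : ∃ k, k = q * m := ⟨_, rfl⟩
  have hmk : (m : ℝ) ≤ k := by
    have : m ≤ k := by
      rw [hk]
      exact Nat.le_mul_of_pos_left m (by omega)
    exact_mod_cast this
  have hk1 : 1 ≤ k := by
    rw [hk]
    exact Nat.mul_pos (by omega) hm0
  have hk0 : (0 : ℝ) < k := by exact_mod_cast hk1
  have hkqm : (k : ℝ) = q * m := by
    rw [hk]
    push_cast
    ring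
  have hkb1 : 32 * B * k ≤ b₀ := by
    rw [le_div_iff₀ hBq] at hmle
    rw [hkqm]
    linarith
  have hkb2 : b₀ ≤ 64 * B * k := by
    rw [div_lt_iff₀ hBq] at hmlt
    have h1 : (1 : ℝ) ≤ m := by exact_mod_cast hm0
    rw [hkqm]
    nlinarith [mul_le_mul_of_nonneg_left h1 hBq.le]
  obtain ⟨J, hJ⟩ := exists_nat_gt (4 * k * (4 * |β| * b) *
    (10 * B * k * Real.exp (5 * B * k) / η) ^ 2)
  have hJ1 : 1 ≤ J := by
    have : (0 : ℝ) < J := lt_of_le_of_lt (by positivity) hJ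
    exact_mod_cast this
  obtain ⟨L, hL⟩ : ∃ L : ℕ → ℕ, L = fun j => (2 * k) ^ j := ⟨_, rfl⟩
  obtain ⟨P, hPd⟩ : ∃ P : ℕ, P = (2 * k) ^ J := ⟨_, rfl⟩
  have hL1 : ∀ j, 1 ≤ L j := fun j => by
    rw [hL]
    exact Nat.one_le_pow _ _ (by omega)
  have hPp : 1 ≤ P := by
    rw [hPd]
    exact Nat.one_le_pow _ _ (by omega)
  have hLs : ∀ j, 2 * k * L j = L (j + 1) := fun j => by
    rw [hL]
    simp only
    rw [pow_succ]
    ring
  have hLP : ∀ j, j ≤ J → L j ≤ P := fun j hj => by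
    rw [hL, hPd]
    exact Nat.pow_le_pow_right (by omega) hj
  have hLJ : ∀ j, j < J → 2 * k * L j ≤ P := fun j hj => by
    rw [hLs]
    exact hLP _ hj
  have hLm : ∀ j, L j ≤ L (j + 1) := fun j => by
    rw [← hLs]
    nlinarith [hL1 j]
  -- the length
  refine ⟨6 * P, fun n hnP hgood hn5 => ?_⟩
  by_contra hcon
  have hK : Va ρ β h n ≤ K := not_lt.1 hcon
  -- the plateau
  obtain ⟨κ, hκ⟩ : ∃ κ : ℕ → ℕ → ℝ, κ = fun j t => kap ρ β b h n t (t - L j) (t + L j) := ⟨_, rfl⟩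
  have hmon : ∀ j, j ≤ J → ∀ t, P ≤ t → t < n - P → 0 ≤ κ j t ∧ κ j t ≤ 4 * |β| * b := by
    intro j hj t h1 h2
    have h3 := hLP j hj
    have h4 := hL1 j
    have h5 := hM h n t (t - L j) (t - L j) (t + L j) (t + L j) le_rfl (by omega) (by omega)
      le_rfl (by omega)
    rw [hκ]
    exact ⟨h5.1, h5.2.1⟩
  obtain ⟨j, hj, u, hu1, hu2, hdef⟩ := F50.plateau κ L hk1 hJ1 hM0 hLJ hnP hPp
    (fun j hj t h1 h2 => by
      have h3 := hLP (j + 1) hj
      have h4 := hL1 j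
      have h5 := hLm j
      rw [hκ]
      exact (hM h n t (t - L j) (t - L (j + 1)) (t + L j) (t + L (j + 1)) (by omega) (by omega)
        (by omega) (by omega) (by omega)).2.2)
    (fun t h1 h2 => (hmon 0 (Nat.zero_le _) t h1 h2).2)
    (fun t h1 h2 => (hmon J le_rfl t h1 h2).1)
  have hl1 := hL1 j
  have hl2 : 2 * k * L j ≤ P := hLJ j hj
  -- the `k` rows
  have hTi : ∀ i, i < k → P ≤ u + (2 * i + 1) * L j ∧ u + (2 * i + 1) * L j < n - P := by
    intro i hi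
    have h1 : (2 * i + 1) * L j ≤ 2 * k * L j := Nat.mul_le_mul_right _ (by omega)
    omega
  have hord : Ord n (F50.Tf u 0 (L j) k) (F50.rf u 0 (L j) k) := by
    refine F50.ord_f hl1 ?_
    rw [Nat.zero_add]
    omega
  have hone := (hO h n k (F50.Tf u 0 (L j) k) (F50.rf u 0 (L j) k) hord θ ε b₀ δ hθ0
    (by rw [hθ, ← hBdef]; exact min_le_left _ _) hε0.le hb₀0
    (hgood _ (by simp only [F50.rf]; simp; omega) (by simp only [F50.rf]; simp; omega))
    (hgood _ (by simp only [F50.rf]; simp; omega)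
      (by simp only [F50.rf, Fin.val_last]; rw [Nat.zero_add]; omega))).2
  have hkapT : ∀ (a k' : ℕ) (i : Fin k'), kap ρ β b h n (F50.Tf u a (L j) k' i)
      (F50.rf u a (L j) k' i.castSucc) (F50.rf u a (L j) k' i.succ) =
        κ j (u + (2 * (a + i) + 1) * L j) := by
    intro a k' i
    rw [F50.rf_castSucc, F50.rf_succ, hκ]
    rfl
  have hdefi : ∀ i : Fin k, Real.sqrt (2 * (kap ρ β b h n (F50.Tf u 0 (L j) k i)
      (F50.rf u 0 (L j) k i.castSucc) (F50.rf u 0 (L j) k i.succ) -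
        kap ρ β b h n (F50.Tf u 0 (L j) k i) (F50.rf u 0 (L j) k 0)
          (F50.rf u 0 (L j) k (Fin.last k)))) ≤ Real.sqrt (2 * (2 * k * (4 * |β| * b) / J)) := by
    intro i
    refine Real.sqrt_le_sqrt (mul_le_mul_of_nonneg_left (le_trans ?_ hdef) (by norm_num))
    have h1 := hTi i i.2
    have h2 := hLs j
    have h3 : L (j + 1) ≤ P := hLP (j + 1) hj
    have h4 : (2 * (i : ℕ) + 1) * L j ≤ 2 * k * L j := Nat.mul_le_mul_right _ (by omega)
    have h5 : L j ≤ (2 * (i : ℕ) + 1) * L j := Nat.le_mul_of_pos_left _ (by omega)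
    have h6 : κ (j + 1) (u + (2 * (i : ℕ) + 1) * L j) ≤ kap ρ β b h n (F50.Tf u 0 (L j) k i)
        (F50.rf u 0 (L j) k 0) (F50.rf u 0 (L j) k (Fin.last k)) := by
      rw [hκ]
      have e1 : F50.Tf u 0 (L j) k i = u + (2 * (i : ℕ) + 1) * L j := by simp [F50.Tf]
      have e2 : F50.rf u 0 (L j) k 0 = u := by simp [F50.rf]
      have e3 : F50.rf u 0 (L j) k (Fin.last k) = u + 2 * k * L j := by simp [F50.rf]
      rw [e1, e2, e3]
      exact (hM h n (u + (2 * (i : ℕ) + 1) * L j) u (u + (2 * (i : ℕ) + 1) * L j - L (j + 1))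
        (u + 2 * k * L j) (u + (2 * (i : ℕ) + 1) * L j + L (j + 1)) (by omega) (by omega)
        (by omega) (by omega) (by omega)).2.2
    rw [hkapT 0 k i, Nat.zero_add]
    calc κ j (u + (2 * (i : ℕ) + 1) * L j) - kap ρ β b h n (F50.Tf u 0 (L j) k i)
          (F50.rf u 0 (L j) k 0) (F50.rf u 0 (L j) k (Fin.last k))
        ≤ κ j (u + (2 * (i : ℕ) + 1) * L j) - κ (j + 1) (u + (2 * (i : ℕ) + 1) * L j) := by
          linarith
      _ ≤ ∑ i ∈ Finset.range k,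
          (κ j (u + (2 * i + 1) * L j) - κ (j + 1) (u + (2 * i + 1) * L j)) := by
          refine Finset.single_le_sum (f := fun i : ℕ =>
            κ j (u + (2 * i + 1) * L j) - κ (j + 1) (u + (2 * i + 1) * L j)) ?_
            (Finset.mem_range.2 i.2)
          intro i' hi'
          rw [Finset.mem_range] at hi'
          have h7 := hTi i' hi'
          have h8 := hLm j
          rw [hκ]
          have := (hM h n (u + (2 * i' + 1) * L j) (u + (2 * i' + 1) * L j - L j)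
            (u + (2 * i' + 1) * L j - L (j + 1)) (u + (2 * i' + 1) * L j + L j)
            (u + (2 * i' + 1) * L j + L (j + 1)) (by omega) (by omega)
            (by omega) (by omega) (by omega)).2.2
          simp only
          linarith
  have hsum : ∑ i ∈ Finset.range k, κ j (u + (2 * i + 1) * L j) ≤ η * k := by
    have h1 : ∑ i ∈ Finset.range k, κ j (u + (2 * i + 1) * L j) =
        ∑ i : Fin k, kap ρ β b h n (F50.Tf u 0 (L j) k i)
          (F50.rf u 0 (L j) k i.castSucc) (F50.rf u 0 (L j) k i.succ) := by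
      rw [← Fin.sum_univ_eq_sum_range (fun i => κ j (u + (2 * i + 1) * L j)) k]
      refine Finset.sum_congr rfl fun i _ => ?_
      rw [hkapT 0 k i, Nat.zero_add]
    rw [h1]
    refine hone.trans ?_
    rw [← hBdef]
    have h2 : ∑ i : Fin k, Real.sqrt (2 * (kap ρ β b h n (F50.Tf u 0 (L j) k i)
        (F50.rf u 0 (L j) k i.castSucc) (F50.rf u 0 (L j) k i.succ) -
          kap ρ β b h n (F50.Tf u 0 (L j) k i) (F50.rf u 0 (L j) k 0)
            (F50.rf u 0 (L j) k (Fin.last k)))) ≤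
        k * Real.sqrt (2 * (2 * k * (4 * |β| * b) / J)) := by
      calc _ ≤ ∑ _i : Fin k, Real.sqrt (2 * (2 * k * (4 * |β| * b) / J)) :=
            Finset.sum_le_sum fun i _ => hdefi i
        _ = _ := by simp
    have h3 := F50.rhs_bound' (b₀ := b₀) (B := B) (θ := θ) (η := η) (δ := δ) (ε := ε) (κ := 4 * |β| * b)
      (J := J) (k := k) hB hθ0 hη0 hk0 hM0 (by exact_mod_cast hJ1)
      hδ.le (by rw [hθ]; exact min_le_right _ _) hε
      (hm1.trans hmk) (hm2.trans hmk) hJ.le hkb1 hkb2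
    have h4 : 0 ≤ 2 * B * k * Real.exp (5 * B * k) := by positivity
    have h5 := mul_le_mul_of_nonneg_left h2 h4
    linarith
  -- the block of `q` rows
  obtain ⟨l, hl, hblock⟩ := F50.exists_block (q := q) (m := m) (a := η * q)
    (fun i => κ j (u + (2 * i + 1) * L j)) hm0 (by
      rw [← hk]
      refine hsum.trans (le_of_eq ?_)
      rw [hk]
      push_cast
      ring)
  have hlk : q * l + q ≤ k := by
    rw [hk]
    calc q * l + q = q * (l + 1) := by ring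
      _ ≤ q * m := Nat.mul_le_mul_left _ hl
  have hlL : 2 * (q * l + q) * L j ≤ 2 * k * L j := Nat.mul_le_mul_right _ (by omega)
  have hord2 : Ord n (F50.Tf u (q * l) (L j) q) (F50.rf u (q * l) (L j) q) :=
    F50.ord_f hl1 (by omega)
  have htwo := hT h n q (F50.Tf u (q * l) (L j) q) (F50.rf u (q * l) (L j) q) hord2
  have hkapsum : ∑ i : Fin q, kap ρ β b h n (F50.Tf u (q * l) (L j) q i)
      (F50.rf u (q * l) (L j) q i.castSucc) (F50.rf u (q * l) (L j) q i.succ) =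
        ∑ i ∈ Finset.range q, κ j (u + (2 * (q * l + i) + 1) * L j) := by
    rw [← Fin.sum_univ_eq_sum_range (fun i => κ j (u + (2 * (q * l + i) + 1) * L j)) q]
    exact Finset.sum_congr rfl fun i _ => hkapT (q * l) q i
  have hx0 : 0 ≤ ∑ i ∈ Finset.range q, κ j (u + (2 * (q * l + i) + 1) * L j) := by
    refine Finset.sum_nonneg fun i hi => ?_
    rw [Finset.mem_range] at hi
    have h1 := hTi (q * l + i) (by omega)
    exact (hmon j hj.le _ h1.1 h1.2).1
  have hvap : (q : ℝ) * c ≤ ∑ i : Fin q, vap ρ β b h n (F50.Tf u (q * l) (L j) q i)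
      (F50.rf u (q * l) (L j) q i.castSucc) (F50.rf u (q * l) (L j) q i.succ) := by
    calc (q : ℝ) * c = ∑ _i : Fin q, c := by simp
      _ ≤ _ := by
        refine Finset.sum_le_sum fun i _ => ?_
        refine hV1 h hg n hn5 _ _ _ (hord2.1 i).1 (hord2.1 i).2 ?_
        have h1 : 2 * (q * l + (i.succ : ℕ)) * L j ≤ 2 * k * L j :=
          Nat.mul_le_mul_right _ (by have := i.2; simp only [Fin.val_succ]; omega)
        simp only [F50.rf]
        omega
  rw [hkapsum, ← hBdef] at htwo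
  have h1 := F50.eta_bound (w := 2 * B * q + 1) (q := q) (η := η) hq1' hw hη hx0 hblock
  have h2 : Real.sqrt (Va ρ β h n) ≤ Real.sqrt K := Real.sqrt_le_sqrt hK
  have h3 : (q : ℝ) * c / (2 * B * Real.sqrt (q + 1)) ≤
      (∑ i : Fin q, vap ρ β b h n (F50.Tf u (q * l) (L j) q i)
        (F50.rf u (q * l) (L j) q i.castSucc) (F50.rf u (q * l) (L j) q i.succ)) /
        (2 * B * Real.sqrt (q + 1)) :=
    div_le_div_of_nonneg_right hvap (by positivity)
  linarith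

open Classical in
/-- **Theorem NV from the core.** -/
theorem endNV50 {d : ℕ} {ρ : Measure ℝ} {β : ℝ} (hC : CorN d ρ β) (hP : MulT d ρ β)
    (hI : IncT d ρ β) : MainNV d ρ β := by
  rintro h hh ⟨K, hK⟩
  obtain ⟨g, hg⟩ : ∃ g, g = Real.log (Phi h) + Real.log (∫ t, Real.exp (β * t) ∂ρ) - lam ρ β h :=
    ⟨_, rfl⟩
  have hg0 : 0 < g := by
    have h1 : lam ρ β h < Real.log (Phi h) + Real.log (∫ t, Real.exp (β * t) ∂ρ) := hh
    linarith
  obtain ⟨ε, δ, b₂, hε, hδ, hC1⟩ := hC h g K hg0 (by linarith)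
  obtain ⟨c1, hc1, N1, hI1⟩ := hI h (g / 2) (by linarith)
  have hδ1 : 0 < min δ (c1 / 2) := by positivity
  obtain ⟨b1, hP1⟩ := hP h hh K hK ε (min δ (c1 / 2)) hε hδ1
  obtain ⟨n₀, hC2⟩ := hC1 (max b1 b₂) (le_max_right _ _)
  obtain ⟨N2, hP2⟩ := hP1 (max b1 b₂) (le_max_left _ _)
  obtain ⟨N, hN⟩ : ∃ N, N = max (max N1 N2) (n₀ + 1) := ⟨_, rfl⟩
  have hN1 : N1 ≤ N := by rw [hN]; exact (le_max_left _ _).trans (le_max_left _ _)
  have hN2 : N2 ≤ N := by rw [hN]; exact (le_max_right _ _).trans (le_max_left _ _)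
  have hN3 : n₀ + 1 ≤ N := by rw [hN]; exact le_max_right _ _
  have hN0 : (0 : ℝ) < N := by
    have : 0 < N := by omega
    exact_mod_cast this
  have hI2 := hI1 N hN1
  have hP3 := hP2 N hN2
  obtain ⟨n, hn1, hn2⟩ : ∃ n ∈ (Finset.Ico N (2 * N)).filter (fun n =>
      A ρ β h n - A ρ β h (n - 1) ≤ lam ρ β h + g / 2),
      n ∉ (Finset.Ico N (2 * N)).filter (fun n => ∃ τ : ℕ, 1 ≤ τ ∧ τ ≤ n ∧
        ¬ (law d ρ).real {η | ¬ GoodN β h n τ (max b1 b₂) ε η} ≤ min δ (c1 / 2)) := by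
    refine Finset.exists_mem_notMem_of_card_lt_card ?_
    have h1 : min δ (c1 / 2) * N < c1 * N := by
      refine mul_lt_mul_of_pos_right ?_ hN0
      have : min δ (c1 / 2) ≤ c1 / 2 := min_le_right _ _
      linarith
    exact_mod_cast lt_of_le_of_lt hP3 (lt_of_lt_of_le h1 hI2)
  rw [Finset.mem_filter, Finset.mem_Ico] at hn1
  obtain ⟨⟨hn3, hn4⟩, hn5⟩ := hn1
  refine absurd (hK n) (not_le.2 (hC2 n (by omega) (fun τ h1 h2 => ?_) hn5))
  by_contra h3
  refine hn2 (Finset.mem_filter.2 ⟨Finset.mem_Ico.2 ⟨hn3, hn4⟩, τ, h1, h2, fun h4 => h3 ?_⟩)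
  exact h4.trans (min_le_left _ _)

end Pool.Agent.W_7d29a1_NV
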