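import Pool.Agent.W_7d29a1_NV.Inc34
import Pool.Agent.W_7d29a1_NV.Inc27
import Pool.Agent.W_7d29a1_NV.Cor50
import Pool.Agent.W_7d29a1_NV.MulO79

/-!
Theorem NV, full limit: in very strong disorder the variance of the free energy tends to infinity.
-/

namespace Pool.Agent.W_7d29a1_NV

open MeasureTheory ProbabilityTheory Filter Topology Pool.Agent.W_MP_7d29a1_pr
  Pool.Agent.W_7d29a1_h46 Pool.Agent.W_7d29a1_h46u Pool.Agent.W_7d29a1_D2.B35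
  Pool.Agent.W_7d29a1_Q29

variable {d : ℕ} {ρ : Measure ℝ} [IsProbabilityMeasure ρ]

namespace I34

/-- Some increment is at most the mean increment. -/
lemma exists_inc (a : ℕ → ℝ) (n : ℕ) {c : ℝ} {J : ℕ} (hJ : 1 ≤ J)
    (h : a (n + J) - a n ≤ c * J) : ∃ j : ℕ, 1 ≤ j ∧ j ≤ J ∧ a (n + j) - a (n + j - 1) ≤ c := by
  by_contra hcon
  push Not at hcon
  have h1 : ∀ i : ℕ, 1 ≤ i → i ≤ J → c * i < a (n + i) - a n := by
    intro i hi
    induction i, hi using Nat.le_induction with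
    | base =>
      intro hi
      have := hcon 1 le_rfl hi
      simp only [Nat.add_sub_cancel] at this
      push_cast
      linarith
    | succ i hi ih =>
      intro hi'
      have h2 := ih (by omega)
      have h3 := hcon (i + 1) (by omega) hi'
      have h4 : n + (i + 1) - 1 = n + i := by omega
      rw [h4] at h3
      push_cast
      linarith
  exact absurd h (not_le.2 (h1 J hJ le_rfl))

/-- For large `m` the three errors of the length `m` are small. -/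
lemma small_m (hd : 0 < d) (hρ : EM ρ) (β : ℝ) (h : Vec d) (K : ℝ) {ε : ℝ} (hε : 0 < ε) :
    ∃ m₀ : ℕ, ∀ m : ℕ, m₀ ≤ m → (lam ρ β h - ε) * m ≤ A ρ β h m ∧
      ∫ η, |X β h η m - A ρ β h m| ∂(law d ρ) ≤ ε * m ∧ Real.sqrt K ≤ ε * m := by
  obtain ⟨C, hC0, hC⟩ := momU (ρ := ρ) hd hρ β 1
  have h1 : ∀ᶠ m : ℕ in atTop, lam ρ β h - ε < A ρ β h m / m :=
    (tendsto_A hd hρ β h).eventually (lt_mem_nhds (by linarith))
  obtain ⟨m₁, hm₁⟩ := eventually_atTop.1 h1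
  obtain ⟨m₂, hm₂⟩ := exists_nat_ge (max ((C / ε) ^ 2) (Real.sqrt K / ε))
  refine ⟨max (max m₁ m₂) 1, fun m hm => ?_⟩
  have hm1 : 1 ≤ m := (le_max_right _ _).trans hm
  have hm0 : (0 : ℝ) < m := by exact_mod_cast hm1
  have hm2 : max ((C / ε) ^ 2) (Real.sqrt K / ε) ≤ (m : ℝ) := hm₂.trans (by
    exact_mod_cast ((le_max_right m₁ m₂).trans (le_max_left _ _)).trans hm)
  refine ⟨?_, ?_, ?_⟩
  · have h2 := hm₁ m (((le_max_left m₁ m₂).trans (le_max_left _ _)).trans hm)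
    rw [lt_div_iff₀ hm0] at h2
    exact h2.le
  · have h2 := (hC h m hm1).2
    simp only [pow_one] at h2
    have h3 : (m : ℝ) ^ ((1 / 2 : ℝ) * ((1 : ℕ) : ℝ)) = Real.sqrt m := by
      rw [Nat.cast_one, mul_one, Real.sqrt_eq_rpow]
    rw [h3] at h2
    refine h2.trans ?_
    have h4 : (C / ε) ^ 2 ≤ m := (le_max_left _ _).trans hm2
    have h5 : C / ε ≤ Real.sqrt m := Real.le_sqrt_of_sq_le h4
    have h6 : Real.sqrt m * Real.sqrt m = m := Real.mul_self_sqrt hm0.le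
    rw [div_le_iff₀ hε] at h5
    have h7 := mul_le_mul_of_nonneg_right h5 (Real.sqrt_nonneg (m : ℝ))
    nlinarith
  · have h4 : Real.sqrt K / ε ≤ m := (le_max_right _ _).trans hm2
    rw [div_le_iff₀ hε] at h4
    linarith

end I34

/-- **Theorem NV, full limit.** -/
theorem lim34 (hd : 0 < d) (hρ : EM ρ) {β : ℝ} (hC : CorN d ρ β) (hM : MulO d ρ β)
    (h : Vec d) (hV : VSD ρ β h) : Tendsto (fun n : ℕ => Va ρ β h n) atTop atTop := by
  rw [tendsto_atTop]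
  intro K
  by_contra hcon
  have hfr : ∃ᶠ n : ℕ in atTop, Va ρ β h n ≤ K := by
    intro h1
    refine hcon (h1.mono fun n hn => ?_)
    exact (not_le.1 hn).le
  -- the gap
  obtain ⟨g, hg⟩ : ∃ g : ℝ, g = Real.log (Phi h) + Real.log (∫ t, Real.exp (β * t) ∂ρ) -
    lam ρ β h := ⟨_, rfl⟩
  have hg0 : 0 < g := by
    have h1 : lam ρ β h < Real.log (Phi h) + Real.log (∫ t, Real.exp (β * t) ∂ρ) := hV
    rw [hg]
    linarith
  -- a nearby length with a small increment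
  obtain ⟨J₁, hJ₁⟩ := I34.incC34 (ρ := ρ) hd hρ β h K (ε := g / 4) (by linarith)
  obtain ⟨J, hJ⟩ : ∃ J, J = max J₁ 1 := ⟨_, rfl⟩
  have hJ1 : 1 ≤ J := by
    rw [hJ]
    exact le_max_right _ _
  obtain ⟨C2, hC2⟩ : ∃ C2 : ℝ, C2 = 2 * (2 * Real.log (Phi h) ^ 2 +
        2 * ((∫ r, Real.exp (β * r) ∂ρ) + ∫ r, Real.exp (-β * r) ∂ρ)) := ⟨_, rfl⟩
  have hC20 : 0 ≤ C2 := by
    rw [hC2]
    have h1 : 0 ≤ ∫ r, Real.exp (β * r) ∂ρ := integral_nonneg fun r => (Real.exp_pos _).le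
    have h2 : 0 ≤ ∫ r, Real.exp (-β * r) ∂ρ := integral_nonneg fun r => (Real.exp_pos _).le
    positivity
  obtain ⟨K', hK'⟩ : ∃ K' : ℝ, K' = 2 * K + C2 * (J : ℝ) ^ 2 := ⟨_, rfl⟩
  have hnear : ∀ n : ℕ, J ≤ n → Va ρ β h n ≤ K → ∃ n' : ℕ, n ≤ n' ∧ 1 ≤ n' ∧
      A ρ β h n' - A ρ β h (n' - 1) ≤ lam ρ β h + g / 2 ∧ Va ρ β h n' ≤ K' := by
    intro n hn hVn
    have h1 := hJ₁ J n (by rw [hJ]; exact le_max_left _ _) hn hVn
    obtain ⟨j, hj1, hjJ, hj⟩ := I34.exists_inc (fun n => A ρ β h n) n hJ1 h1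
    refine ⟨n + j, by omega, by omega, ?_, ?_⟩
    · linarith
    · have h2 := Inc27.va27 (ρ := ρ) hd hρ β h n j
      rw [← hC2] at h2
      have h3 : (j : ℝ) ^ 2 ≤ (J : ℝ) ^ 2 :=
        pow_le_pow_left₀ (Nat.cast_nonneg j) (by exact_mod_cast hjJ) 2
      have h4 := mul_le_mul_of_nonneg_left h3 hC20
      rw [hK']
      linarith
  -- the core and the multiplicity
  obtain ⟨ε, δ, b₂, hε, hδ, hcor⟩ := hC h g K' hg0 (by rw [hg]; linarith)
  obtain ⟨k₁, u, C, b₁, hk₁, hu, hCC, hmul⟩ := hM h hV ε hε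
  have hk0 : (0 : ℝ) < k₁ := by exact_mod_cast hk₁
  obtain ⟨ε₂, hε₂⟩ : ∃ ε₂ : ℝ, ε₂ = δ * u / (16 * C * k₁) := ⟨_, rfl⟩
  have hε₂0 : 0 < ε₂ := by
    rw [hε₂]
    positivity
  obtain ⟨m₁, hm₁⟩ := I34.incC34 (ρ := ρ) hd hρ β h K' hε₂0
  obtain ⟨m₂, hm₂⟩ := I34.small_m (ρ := ρ) hd hρ β h K' hε₂0
  obtain ⟨b₀, hb₀⟩ : ∃ b₀ : ℝ, b₀ = max (max b₂ b₁) (max u (u * (max m₁ m₂ : ℕ))) := ⟨_, rfl⟩
  have hb2 : b₂ ≤ b₀ := by
    rw [hb₀]
    exact (le_max_left _ _).trans (le_max_left _ _)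
  have hb1 : b₁ ≤ b₀ := by
    rw [hb₀]
    exact (le_max_right _ _).trans (le_max_left _ _)
  have hbu : u ≤ b₀ := by
    rw [hb₀]
    exact (le_max_left _ _).trans (le_max_right _ _)
  have hbm : u * (max m₁ m₂ : ℕ) ≤ b₀ := by
    rw [hb₀]
    exact (le_max_right _ _).trans (le_max_right _ _)
  have hb0 : 0 < b₀ := hu.trans_le hbu
  obtain ⟨n₀, hn₀⟩ := hcor b₀ hb2
  obtain ⟨m, hm⟩ : ∃ m, m = k₁ * ⌈b₀ / u⌉₊ := ⟨_, rfl⟩
  have hmm : max m₁ m₂ ≤ m := by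
    have h1 : ((max m₁ m₂ : ℕ) : ℝ) ≤ b₀ / u := by
      rw [le_div_iff₀ hu]
      linarith
    have h2 : max m₁ m₂ ≤ ⌈b₀ / u⌉₊ := by exact_mod_cast h1.trans (Nat.le_ceil _)
    rw [hm]
    exact h2.trans (Nat.le_mul_of_pos_left _ hk₁)
  have hmu : (m : ℝ) ≤ 2 * k₁ * b₀ / u := by
    have h1 : (⌈b₀ / u⌉₊ : ℝ) ≤ b₀ / u + 1 := (Nat.ceil_lt_add_one (by positivity)).le
    have h2 : 1 ≤ b₀ / u := by
      rw [le_div_iff₀ hu]
      linarith
    rw [hm]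
    push_cast
    calc (k₁ : ℝ) * ⌈b₀ / u⌉₊ ≤ k₁ * (2 * (b₀ / u)) :=
          mul_le_mul_of_nonneg_left (by linarith) hk0.le
      _ = 2 * k₁ * b₀ / u := by ring
  -- the length
  obtain ⟨n, hnV, hnN⟩ := (hfr.and_eventually (eventually_ge_atTop (max (max n₀ J) m))).exists
  obtain ⟨n', hnn', hn1, hinc, hVn'⟩ := hnear n
    (((le_max_right n₀ J).trans (le_max_left _ _)).trans hnN) hnV
  have hn'0 : n₀ ≤ n' := (((le_max_left n₀ J).trans (le_max_left _ _)).trans hnN).trans hnn'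
  have hn'm : m ≤ n' := ((le_max_right _ _).trans hnN).trans hnn'
  refine absurd hVn' (not_le.2 (hn₀ n' hn'0 (fun τ hτ1 hτn => ?_) hinc))
  have h1 := hmul b₀ hb1 n' τ hτ1 hτn
  rw [← hm] at h1
  obtain ⟨h2, h3, h4⟩ := hm₂ m ((le_max_right _ _).trans hmm)
  have h5 := hm₁ m n' ((le_max_left _ _).trans hmm) hn'm hVn'
  have h6 := I34.trv34 (ρ := ρ) hd hρ β h m n'
  have h7 := (I34.dev_le (ρ := ρ) hd hρ β h n').2.trans (Real.sqrt_le_sqrt hVn')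
  rw [Nat.add_comm m n'] at h6
  have h8 : max 0 (A ρ β h (n' + m) - A ρ β h n' - (m : ℕ) * lam ρ β h) ≤ ε₂ * m := by
    refine max_le (by positivity) ?_
    linarith
  have h9 : b₀ * (law d ρ).real {η | ¬ GoodN β h n' τ b₀ ε η} ≤ C * (8 * (ε₂ * m)) := by
    refine h1.trans (mul_le_mul_of_nonneg_left ?_ hCC.le)
    linarith
  have h10 : C * (8 * (ε₂ * m)) ≤ b₀ * δ := by
    have h11 : C * (8 * (ε₂ * m)) ≤ C * (8 * (ε₂ * (2 * k₁ * b₀ / u))) := by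
      refine mul_le_mul_of_nonneg_left ?_ hCC.le
      refine mul_le_mul_of_nonneg_left ?_ (by norm_num)
      exact mul_le_mul_of_nonneg_left hmu hε₂0.le
    refine h11.trans (le_of_eq ?_)
    rw [hε₂]
    field_simp
    ring
  exact le_of_mul_le_mul_left (h9.trans h10) hb0

end Pool.Agent.W_7d29a1_NV
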