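import Pool.Agent.W_7d29a1_NV.DefsNV

/-!
Joint measurability of the objects of the selection model, and the trivial bounds.
-/

namespace Pool.Agent.W_7d29a1_NV

open MeasureTheory ProbabilityTheory Filter Topology Pool.Agent.W_MP_7d29a1_pr
  Pool.Agent.W_7d29a1_h46 Pool.Agent.W_7d29a1_h46u Pool.Agent.W_7d29a1_D2.B35
  Pool.Agent.W_7d29a1_Q29

variable {d : ℕ}

theorem measurable_cl72 (b : ℝ) : Measurable (cl b) := by
  unfold cl
  exact measurable_const.max (measurable_const.min measurable_id)

theorem cl_of_abs72 {b x : ℝ} (h : |x| ≤ b) : cl b x = x := by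
  unfold cl
  rw [abs_le] at h
  rw [min_eq_right h.2, max_eq_right h.1]

theorem measurable_mx72 (b : ℝ) (t : ℕ) :
    Measurable (fun w : Env d × Env d => mx b t w.1 w.2) := by
  classical
  rw [measurable_pi_iff]
  intro p
  unfold mx
  refine Measurable.ite ?_ ?_ ?_
  · by_cases hp : p.1 = t
    · simp only [hp, true_and]
      exact measurableSet_le ((measurable_pi_apply p).comp measurable_fst).abs measurable_const
    · simp only [hp, false_and]
      exact MeasurableSet.empty
  · exact (measurable_cl72 b).comp ((measurable_pi_apply p).comp measurable_snd)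
  · exact (measurable_pi_apply p).comp measurable_fst

theorem measurable_mxJ72 (b : ℝ) {k : ℕ} (T : Fin k → ℕ) :
    Measurable (fun w : Env d × (Fin k → Env d) => mxJ b T w.1 w.2) := by
  classical
  rw [measurable_pi_iff]
  intro p
  unfold mxJ
  by_cases hp : ∃ i, T i = p.1
  · have e : (fun w : Env d × (Fin k → Env d) => if h : (∃ i, T i = p.1) ∧ |w.1 p| ≤ b then
        cl b (w.2 h.1.choose p) else w.1 p) =
        fun w => if |w.1 p| ≤ b then cl b (w.2 hp.choose p) else w.1 p := by
      funext w
      by_cases hw : |w.1 p| ≤ b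
      · rw [dif_pos ⟨hp, hw⟩, if_pos hw]
      · rw [dif_neg (fun h => hw h.2), if_neg hw]
    refine (congrArg Measurable e).mpr ?_
    refine Measurable.ite ?_ ?_ ?_
    · exact measurableSet_le ((measurable_pi_apply p).comp measurable_fst).abs measurable_const
    · exact (measurable_cl72 b).comp ((measurable_pi_apply p).comp
        ((measurable_pi_apply hp.choose).comp measurable_snd))
    · exact (measurable_pi_apply p).comp measurable_fst
  · have e : (fun w : Env d × (Fin k → Env d) => if h : (∃ i, T i = p.1) ∧ |w.1 p| ≤ b then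
        cl b (w.2 h.1.choose p) else w.1 p) = fun w => w.1 p := by
      funext w
      rw [dif_neg (fun h => hp h.1)]
    refine (congrArg Measurable e).mpr ?_
    exact (measurable_pi_apply p).comp measurable_fst

theorem measurable_PP72 (β : ℝ) (h : Vec d) (m : ℕ) (z : Site d) :
    Measurable (fun η : Env d => PP β h η m z) := measurable_ZT β h _

theorem measurable_sg72 (β : ℝ) (h : Vec d) (a b' : ℕ) (x y : Site d) :
    Measurable (fun η : Env d => sg β h a b' x y η) :=
  (measurable_PP72 β h _ _).comp (measurable_sh a x)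

theorem measurable_Qt72 (β : ℝ) (h : Vec d) (L t : ℕ) (y : Site d) :
    Measurable (fun η : Env d => Qt β h L t y η) :=
  ((measurable_PP72 β h t y).mul ((measurable_Z β h (L - t)).comp (measurable_sh t y))).div
    (measurable_Z β h L)

theorem measurable_pab72 (β : ℝ) (h : Vec d) (n a b' : ℕ) (x y : Site d) :
    Measurable (fun η : Env d => pab β h n a b' x y η) :=
  (((measurable_PP72 β h a x).mul (measurable_sg72 β h a b' x y)).mul
    ((measurable_Z β h (n - b')).comp (measurable_sh b' y))).div (measurable_Z β h n)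

theorem measurable_uab72 (ρ : Measure ℝ) (β b : ℝ) (h : Vec d) (t a b' : ℕ) (x y : Site d) :
    Measurable (fun w : Env d × Env d => uab ρ β b h t a b' x y w.1 w.2) := by
  classical
  have h1 : Measurable (fun w : Env d × Env d =>
      sg β h a b' x y (mx b t w.1 fun _ => c0 ρ β b)) :=
    (measurable_sg72 β h a b' x y).comp
      ((measurable_mx72 b t).comp (measurable_fst.prodMk measurable_const))
  have h2 : Measurable (fun w : Env d × Env d => sg β h a b' x y (mx b t w.1 w.2)) :=
    (measurable_sg72 β h a b' x y).comp (measurable_mx72 b t)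
  unfold uab
  refine Measurable.ite ?_ measurable_const (h2.div h1)
  exact h1 (measurableSet_singleton 0)

theorem measurable_psab72 (ρ : Measure ℝ) [IsProbabilityMeasure ρ] (β b : ℝ) (h : Vec d)
    (t a b' : ℕ) (x y : Site d) [IsProbabilityMeasure (rb ρ b)] :
    Measurable (fun η : Env d => psab ρ β b h t a b' x y η) := by
  unfold psab
  have := (Real.measurable_log.comp
    (measurable_uab72 ρ β b h t a b' x y)).stronglyMeasurable.integral_prod_right'
    (ν := law d (rb ρ b))
  exact this.measurable

theorem measurable_msp72 (β : ℝ) (h : Vec d) (n : ℕ) {k : ℕ} (r : Fin (k + 1) → ℕ)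
    (s : Sp d n k) : Measurable (fun η : Env d => msp β h n r s η) := by
  unfold msp
  exact (((measurable_PP72 β h _ _).mul (Finset.measurable_prod _ fun i _ =>
    measurable_sg72 β h _ _ _ _)).mul ((measurable_Z β h _).comp (measurable_sh _ _))).div
    (measurable_Z β h n)

theorem measurable_Qsp72 (ρ : Measure ℝ) (β b : ℝ) (h : Vec d) (n : ℕ) {k : ℕ} (T : Fin k → ℕ)
    (r : Fin (k + 1) → ℕ) (s : Sp d n k) :
    Measurable (fun η : Env d => Qsp ρ β b h n T r η s) := by
  have h1 : Measurable (fun η : Env d => ((η, fun _ _ => c0 ρ β b) : Env d × (Fin k → Env d))) :=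
    measurable_id.prodMk measurable_const
  have h2 := (measurable_mxJ72 (d := d) b T).comp h1
  exact (measurable_msp72 β h n r s).comp h2

theorem measurable_usp72 (ρ : Measure ℝ) (β b : ℝ) (h : Vec d) (n : ℕ) {k : ℕ} (T : Fin k → ℕ)
    (r : Fin (k + 1) → ℕ) (i : Fin k) (s : Sp d n k) :
    Measurable (fun w : Env d × Env d => usp ρ β b h n T r w.1 i s w.2) :=
  measurable_uab72 ρ β b h _ _ _ _ _

section Abs72

variable {E Ω S Ac : Type} [MeasurableSpace E] [MeasurableSpace Ω] [Fintype S] [Fintype Ac] {k : ℕ}
  {Q : E → S → ℝ} {u : E → Fin k → S → Ω → ℝ} {P : Measure Ω} [IsProbabilityMeasure P]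

theorem am_coord72 (i : Fin k) : Measurable (fun w : E × (Fin k → Ω) => w.2 i) :=
  (measurable_pi_apply i).comp measurable_snd

theorem am_wT72 (hQ : ∀ s, Measurable (fun e => Q e s))
    (hu : ∀ i s, Measurable (fun w : E × Ω => u w.1 i s w.2)) (s : S) :
    Measurable (fun w : E × (Fin k → Ω) => wT (Q w.1) (u w.1) w.2 s) := by
  unfold wT
  refine ((hQ s).comp measurable_fst).mul (Finset.measurable_prod _ fun i _ => ?_)
  exact (hu i s).comp (measurable_fst.prodMk (am_coord72 i))

theorem am_prT72 (hQ : ∀ s, Measurable (fun e => Q e s))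
    (hu : ∀ i s, Measurable (fun w : E × Ω => u w.1 i s w.2)) (s : S) :
    Measurable (fun w : E × (Fin k → Ω) => prT (Q w.1) (u w.1) w.2 s) := by
  unfold prT dT
  exact (am_wT72 hQ hu s).div (Finset.measurable_sum _ fun s _ => am_wT72 hQ hu s)

theorem am_psT72 (hu : ∀ i s, Measurable (fun w : E × Ω => u w.1 i s w.2)) (i : Fin k) (s : S) :
    Measurable (fun e => psT P (u e) i s) := by
  unfold psT
  have := (Real.measurable_log.comp (hu i s)).stronglyMeasurable.integral_prod_right' (ν := P)
  exact this.measurable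

theorem am_kaI72 (hQ : ∀ s, Measurable (fun e => Q e s))
    (hu : ∀ i s, Measurable (fun w : E × Ω => u w.1 i s w.2)) (i : Fin k) :
    Measurable (fun w : E × (Fin k → Ω) => ∑ s, prT (Q w.1) (u w.1) w.2 s *
      (Real.log (u w.1 i s (w.2 i)) - psT P (u w.1) i s)) := by
  refine Finset.measurable_sum _ fun s _ => (am_prT72 hQ hu s).mul (Measurable.sub ?_ ?_)
  · exact Real.measurable_log.comp ((hu i s).comp (measurable_fst.prodMk (am_coord72 i)))
  · exact (am_psT72 hu i s).comp measurable_fst

theorem am_kaT72 (hQ : ∀ s, Measurable (fun e => Q e s))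
    (hu : ∀ i s, Measurable (fun w : E × Ω => u w.1 i s w.2)) (i : Fin k) :
    Measurable (fun e => kaT P (Q e) (u e) i) := by
  unfold kaT
  have := (am_kaI72 (P := P) hQ hu i).stronglyMeasurable.integral_prod_right'
    (ν := Measure.pi fun _ : Fin k => P)
  exact this.measurable

open Classical in
theorem am_clT72 (hQ : ∀ s, Measurable (fun e => Q e s))
    (hu : ∀ i s, Measurable (fun w : E × Ω => u w.1 i s w.2)) (f : S → Ac) (a : Ac) :
    Measurable (fun w : E × (Fin k → Ω) => clT f (Q w.1) (u w.1) w.2 a) := by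
  unfold clT
  refine Finset.measurable_sum _ fun s _ => ?_
  by_cases hs : f s = a
  · simp only [hs, if_true]
    exact am_prT72 hQ hu s
  · simp only [hs, if_false]
    exact measurable_const

theorem am_upd72 (i : Fin k) :
    Measurable (fun w : (E × (Fin k → Ω)) × Ω => Function.update w.1.2 i w.2) := by
  rw [measurable_pi_iff]
  intro j
  by_cases hj : j = i
  · subst hj
    simp only [Function.update_self]
    exact measurable_snd
  · simp only [Function.update_of_ne hj]
    exact (measurable_pi_apply j).comp (measurable_snd.comp measurable_fst)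

theorem am_ouI72 (hQ : ∀ s, Measurable (fun e => Q e s))
    (hu : ∀ i s, Measurable (fun w : E × Ω => u w.1 i s w.2)) (f : S → Ac) (i : Fin k) :
    Measurable (fun w : (E × (Fin k → Ω)) × Ω =>
      ∑ a, clT f (Q w.1.1) (u w.1.1) w.1.2 a *
        (Real.log (clT f (Q w.1.1) (u w.1.1) w.1.2 a) -
          Real.log (clT f (Q w.1.1) (u w.1.1) (Function.update w.1.2 i w.2) a))) := by
  refine Finset.measurable_sum _ fun a _ => ?_
  have h1 : Measurable (fun w : (E × (Fin k → Ω)) × Ω => clT f (Q w.1.1) (u w.1.1) w.1.2 a) :=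
    (am_clT72 hQ hu f a).comp measurable_fst
  have h2 : Measurable (fun w : (E × (Fin k → Ω)) × Ω =>
      clT f (Q w.1.1) (u w.1.1) (Function.update w.1.2 i w.2) a) :=
    (am_clT72 hQ hu f a).comp ((measurable_fst.comp measurable_fst).prodMk (am_upd72 i))
  exact h1.mul ((Real.measurable_log.comp h1).sub (Real.measurable_log.comp h2))

theorem am_ouT72 (hQ : ∀ s, Measurable (fun e => Q e s))
    (hu : ∀ i s, Measurable (fun w : E × Ω => u w.1 i s w.2)) (f : S → Ac) (i : Fin k) :
    Measurable (fun e => ouT P f (Q e) (u e) i) := by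
  unfold ouT
  have h1 := (am_ouI72 hQ hu f i).stronglyMeasurable.integral_prod_right' (ν := P)
  have h2 := h1.integral_prod_right' (ν := Measure.pi fun _ : Fin k => P)
  exact h2.measurable

end Abs72

end Pool.Agent.W_7d29a1_NV
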