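import Pool.Agent.W_7d29a1_Q29.Loc42
import Pool.Agent.W_7d29a1_V.Five58

/-!
The increments of the mean free energy at a length with small variance.
-/

namespace Pool.Agent.W_7d29a1_NV.I34

open MeasureTheory ProbabilityTheory Filter Topology Pool.Agent.W_MP_7d29a1_pr
  Pool.Agent.W_7d29a1_h46 Pool.Agent.W_7d29a1_h46u Pool.Agent.W_7d29a1_D2
  Pool.Agent.W_7d29a1_D2.B35 Pool.Agent.W_7d29a1_V.Law2 Pool.Agent.W_7d29a1_Q29

variable {d : ℕ}

/-- The walk of `s d` steps with `a j` steps `+ e_j` and `s - a j` steps `- e_j`. -/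
def wk (s : ℕ) (a : Fin d → Fin (s + 1)) : Fin (s * d) → Step d :=
  fun i => ((finProdFinEquiv.symm i).2,
    decide (((finProdFinEquiv.symm i).1 : ℕ) < (a (finProdFinEquiv.symm i).2 : ℕ)))

lemma sum_sgn (s a : ℕ) (ha : a ≤ s) :
    ∑ l ∈ Finset.range s, (if l < a then (1 : ℤ) else -1) = 2 * a - s := by
  have h1 : ∑ l ∈ Finset.range s, (if l < a then (1 : ℤ) else -1) =
      ∑ l ∈ Finset.range s, ((if l < a then (2 : ℤ) else 0) - 1) := by
    refine Finset.sum_congr rfl fun l _ => ?_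
    split_ifs <;> norm_num
  rw [h1, Finset.sum_sub_distrib, ← Finset.sum_filter]
  have h2 : (Finset.range s).filter (fun l => l < a) = Finset.range a := by
    ext l
    simp only [Finset.mem_filter, Finset.mem_range]
    omega
  rw [h2]
  simp
  ring

lemma wk_pos (s : ℕ) (a : Fin d → Fin (s + 1)) (j : Fin d) :
    pos (wk s a) (s * d) j = 2 * ((a j : ℕ) : ℤ) - s := by
  have h1 : pos (wk s a) (s * d) = ∑ i : Fin (s * d), vec (wk s a i) := by
    unfold pos
    exact Finset.sum_congr rfl fun i _ => if_pos i.2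
  rw [h1, Finset.sum_apply]
  have h2 : ∑ i : Fin (s * d), vec (wk s a i) j =
      ∑ p : Fin s × Fin d, vec ((p.2, decide ((p.1 : ℕ) < (a p.2 : ℕ))) : Step d) j := by
    rw [← finProdFinEquiv.sum_comp]
    refine Finset.sum_congr rfl fun p _ => ?_
    unfold wk
    rw [Equiv.symm_apply_apply]
  rw [h2, Fintype.sum_prod_type]
  have h3 : ∀ l : Fin s, ∑ j' : Fin d, vec ((j', decide ((l : ℕ) < (a j' : ℕ))) : Step d) j =
      if (l : ℕ) < (a j : ℕ) then 1 else -1 := by
    intro l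
    rw [Finset.sum_eq_single j]
    · unfold vec
      rw [Pi.single_eq_same]
      simp only [decide_eq_true_eq]
    · intro j' _ hj
      unfold vec
      exact Pi.single_eq_of_ne (Ne.symm hj) _
    · intro hj
      exact absurd (Finset.mem_univ j) hj
  simp only [h3]
  rw [Fin.sum_univ_eq_sum_range (fun l => if l < (a j : ℕ) then (1 : ℤ) else -1) s]
  exact sum_sgn s (a j) (Nat.lt_succ_iff.1 (a j).2)

lemma wk_inj (s : ℕ) : Function.Injective fun a : Fin d → Fin (s + 1) =>
    pos (wk s a) (s * d) := by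
  intro a b hab
  funext j
  have h1 : pos (wk s a) (s * d) j = pos (wk s b) (s * d) j := congrFun hab j
  rw [wk_pos, wk_pos] at h1
  exact Fin.ext (by omega)

/-- One walk only. -/
lemma one_walk (hd : 0 < d) (β : ℝ) (h : Vec d) (η : Env d) {r : ℕ} (q : Fin r → Step d)
    (k : ℕ) : Real.log (wgt β h η q) + X β h (sh r (pos q r) η) k ≤ X β h η (r + k) := by
  unfold X
  rw [← Real.log_mul (wgt_pos β h η q).ne' (Z_pos hd β h _ k).ne', Z_add]
  refine Real.log_le_log (mul_pos (wgt_pos β h η q) (Z_pos hd β h _ k)) ?_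
  exact Finset.single_le_sum (f := fun s : Fin r → Step d =>
    wgt β h η s * Z β h (sh r (pos s r) η) k)
    (fun s _ => mul_nonneg (wgt_pos β h η s).le (Z_pos hd β h _ k).le) (Finset.mem_univ q)

lemma log_wgt_ge (β : ℝ) (h : Vec d) (η : Env d) {r : ℕ} (q : Fin r → Step d) :
    -(‖h‖ * r + |β| * ∑ i : Fin r, |η ((i : ℕ) + 1, pos q ((i : ℕ) + 1))|) ≤
      Real.log (wgt β h η q) := by
  unfold wgt
  rw [Real.log_exp]
  have h1 : |inner ℝ h (emb (pos q r))| ≤ ‖h‖ * r := by
    refine (abs_real_inner_le_norm _ _).trans (mul_le_mul_of_nonneg_left ?_ (norm_nonneg h))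
    rw [norm_emb]
    exact nrm_pos_le q r
  have h2 : |β * energy η q| ≤ |β| * ∑ i : Fin r, |η ((i : ℕ) + 1, pos q ((i : ℕ) + 1))| := by
    rw [abs_mul]
    refine mul_le_mul_of_nonneg_left ?_ (abs_nonneg β)
    unfold energy
    exact Finset.abs_sum_le_sum_abs _ _
  linarith [(abs_le.1 h1).1, (abs_le.1 h2).1]

variable {ρ : Measure ℝ} [IsProbabilityMeasure ρ]

omit [IsProbabilityMeasure ρ] in
lemma abs_int (hρ : EM ρ) : Integrable (fun t : ℝ => |t|) ρ := by
  have h1 := (hρ 1).add (hρ (-1))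
  refine h1.mono' (continuous_abs.measurable.aestronglyMeasurable)
    (Filter.Eventually.of_forall fun t => ?_)
  rw [Real.norm_eq_abs, abs_abs]
  have h2 := Real.add_one_le_exp (1 * t)
  have h3 := Real.add_one_le_exp (-1 * t)
  have h4 := Real.exp_pos (1 * t)
  have h5 := Real.exp_pos (-1 * t)
  simp only [Pi.add_apply]
  rcases abs_cases t with ⟨h6, _⟩ | ⟨h6, _⟩ <;> rw [h6] <;> linarith

lemma coord_int (hρ : EM ρ) (p : ℕ × Site d) :
    Integrable (fun ξ : Env d => |ξ p|) (law d ρ) ∧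
      ∫ ξ : Env d, |ξ p| ∂(law d ρ) = ∫ t, |t| ∂ρ := by
  have h1 : MeasurePreserving (Function.eval p) (law d ρ) ρ :=
    measurePreserving_eval_infinitePi (fun _ : ℕ × Site d => ρ) p
  refine ⟨h1.integrable_comp_of_integrable (g := fun t : ℝ => |t|) (abs_int hρ), ?_⟩
  exact LawU_integral h1 (F := fun t : ℝ => |t|) continuous_abs.measurable.aestronglyMeasurable

/-- `(E |f|) ^ 2 ≤ E f ^ 2`. -/
lemma abs_le_sqrt {Ω : Type*} [MeasurableSpace Ω] {P : Measure Ω} [IsProbabilityMeasure P]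
    {f : Ω → ℝ} (hf : Integrable f P) (hf2 : Integrable (fun x => f x ^ 2) P) :
    ∫ x, |f x| ∂P ≤ Real.sqrt (∫ x, f x ^ 2 ∂P) := by
  refine Real.le_sqrt_of_sq_le ?_
  obtain ⟨m, hm⟩ : ∃ m, m = ∫ x, |f x| ∂P := ⟨_, rfl⟩
  rw [← hm]
  have h1 : 0 ≤ ∫ x, (|f x| - m) ^ 2 ∂P := integral_nonneg fun x => sq_nonneg _
  have h2 : ∀ x, (|f x| - m) ^ 2 = (f x ^ 2 - 2 * m * |f x|) + m ^ 2 := fun x => by
    rw [sub_sq, sq_abs]
    ring
  simp only [h2] at h1
  have h3 : Integrable (fun x => 2 * m * |f x|) P := hf.abs.const_mul _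
  have h4 : Integrable (fun x => f x ^ 2 - 2 * m * |f x|) P := hf2.sub h3
  rw [integral_add h4 (integrable_const _), integral_sub hf2 h3, integral_const_mul, ← hm,
    integral_const] at h1
  simp only [probReal_univ, smul_eq_mul, one_mul] at h1
  nlinarith

lemma sq_int34 (hd : 0 < d) (hρ : EM ρ) (β : ℝ) (h : Vec d) (m : ℕ) :
    Integrable (fun η : Env d => (X β h η m - A ρ β h m) ^ 2) (law d ρ) := by
  rcases Nat.eq_zero_or_pos m with rfl | hm
  · have h1 : ∀ η : Env d, X β h η 0 = 0 := by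
      intro η
      unfold X
      rw [Z_zero, Real.log_one]
    simp only [h1]
    exact integrable_const _
  · obtain ⟨C, _, hC⟩ := momU (ρ := ρ) hd hρ β 2
    have h1 := (hC h m hm).1
    simpa only [sq_abs] using h1

/-- `E |X - A| ≤ √Var`. -/
lemma dev_le (hd : 0 < d) (hρ : EM ρ) (β : ℝ) (h : Vec d) (n : ℕ) :
    Integrable (fun η : Env d => |X β h η n - A ρ β h n|) (law d ρ) ∧
      ∫ η, |X β h η n - A ρ β h n| ∂(law d ρ) ≤ Real.sqrt (Va ρ β h n) := by
  have h1 : Integrable (fun η : Env d => X β h η n - A ρ β h n) (law d ρ) :=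
    (concU hd hρ β h n).1.sub (integrable_const _)
  exact ⟨h1.abs, abs_le_sqrt h1 (sq_int34 hd hρ β h n)⟩

/-- The partition function from the best site at the time `m`. -/
lemma X_le_max (hd : 0 < d) (β : ℝ) (h : Vec d) (η : Env d) (m k : ℕ) {M : ℝ}
    (hM : ∀ x ∈ boxF d m, X β h (sh m x η) k ≤ M) : X β h η (m + k) ≤ X β h η m + M := by
  unfold X
  rw [Real.log_le_iff_le_exp (Z_pos hd β h η _), Real.exp_add,
    Real.exp_log (Z_pos hd β h η m), Z_add, Z_eq, Finset.sum_mul]
  refine Finset.sum_le_sum fun s _ => mul_le_mul_of_nonneg_left ?_ (wgt_pos β h η s).le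
  rw [← Real.log_le_iff_le_exp (Z_pos hd β h _ k)]
  exact hM _ (pos_mem_box s m)

lemma sp_dep {S : Set (ℕ × Site d)} {F : Env d → ℝ} (hF : DependsOn F S) (η ξ : Env d) :
    F (sp S η ξ) = F η := hF fun _ hp => sp_mem hp

lemma sh_sh34 (t t' : ℕ) (x x' : Site d) (η : Env d) :
    sh t' x' (sh t x η) = sh (t' + t) (x' + x) η := by
  funext p
  unfold sh
  simp only [add_assoc]

/-- **The increments at a length with small variance.** -/
theorem inc34 (hd : 0 < d) (hρ : EM ρ) (β : ℝ) (h : Vec d) (n s m : ℕ) (hm : s * d ≤ m)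
    (hn : s * d ≤ n) : A ρ β h (m + (n - s * d)) ≤ A ρ β h m + A ρ β h n +
      (‖h‖ + |β| * ∫ t, |t| ∂ρ) * ((s * d : ℕ) : ℝ) +
      ((2 * ((m + s * d : ℕ) : ℝ) + 1) / (s + 1)) ^ d * Real.sqrt (Va ρ β h n) := by
  classical
  obtain ⟨r, hr⟩ : ∃ r, r = s * d := ⟨_, rfl⟩
  obtain ⟨E1, hE1⟩ : ∃ E1, E1 = ∫ t, |t| ∂ρ := ⟨_, rfl⟩
  have hE0 : 0 ≤ E1 := by
    rw [hE1]
    exact integral_nonneg fun t => abs_nonneg t
  rw [← hr] at hm hn ⊢
  rw [← hE1]
  set S : Set (ℕ × Site d) := {p | m < p.1} with hS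
  set k := n - r with hk
  -- the values at the sites of the time `m`
  have hdep : ∀ x : Site d, DependsOn (fun η : Env d => X β h (sh m x η) k) S := by
    intro x η η' hη
    show X β h (sh m x η) k = X β h (sh m x η') k
    unfold X
    congr 1
    refine dependsOn_Z β h k fun p hp => ?_
    refine hη _ ?_
    show m < p.1 + m
    have := hp.1
    omega
  have hne : (boxF d m).Nonempty := ⟨0, by
    rw [mem_boxF]
    intro i
    simp⟩
  have hmax : ∀ η : Env d, ∃ x ∈ boxF d m, ∀ x' ∈ boxF d m,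
      X β h (sh m x' η) k ≤ X β h (sh m x η) k := fun η =>
    Finset.exists_max_image (boxF d m) (fun x => X β h (sh m x η) k) hne
  choose xs hxs hxm using hmax
  -- the cost of the last steps
  let co : (Fin d → Fin (s + 1)) → Site d → Env d → ℝ := fun a x ξ =>
    ‖h‖ * r + |β| * ∑ i : Fin (s * d), |ξ ((i : ℕ) + 1 + (m - r),
      pos (wk s a) ((i : ℕ) + 1) + (x - pos (wk s a) (s * d)))|
  have hcoI : ∀ a x, Integrable (co a x) (law d ρ) ∧
      ∫ ξ, co a x ξ ∂(law d ρ) = (‖h‖ + |β| * E1) * r := by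
    intro a x
    have i1 : Integrable (fun ξ : Env d => ∑ i : Fin (s * d), |ξ ((i : ℕ) + 1 + (m - r),
        pos (wk s a) ((i : ℕ) + 1) + (x - pos (wk s a) (s * d)))|) (law d ρ) :=
      integrable_finsetSum _ fun i _ => (coord_int hρ _).1
    refine ⟨(integrable_const _).add (i1.const_mul _), ?_⟩
    show ∫ ξ, (‖h‖ * r + |β| * ∑ i : Fin (s * d), |ξ ((i : ℕ) + 1 + (m - r),
      pos (wk s a) ((i : ℕ) + 1) + (x - pos (wk s a) (s * d)))|) ∂(law d ρ) = _
    rw [integral_add (integrable_const _) (i1.const_mul |β|), integral_const_mul |β|,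
      integral_finsetSum _ fun i _ => (coord_int hρ _).1]
    simp only [(coord_int hρ _).2, ← hE1]
    rw [Finset.sum_const, Finset.card_univ, Fintype.card_fin, integral_const]
    simp only [probReal_univ, nsmul_eq_mul, smul_eq_mul, one_mul]
    rw [← hr]
    ring
  -- one walk into the best site
  have hone : ∀ (η ξ : Env d) (a : Fin d → Fin (s + 1)), X β h (sh m (xs η) η) k ≤
      X β h (sh (m - r) (xs η - pos (wk s a) (s * d)) (sp S η ξ)) n + co a (xs η) ξ := by
    intro η ξ a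
    obtain ⟨ζ, hζ⟩ : ∃ ζ, ζ = sh (m - r) (xs η - pos (wk s a) (s * d)) (sp S η ξ) := ⟨_, rfl⟩
    have h1 := one_walk hd β h ζ (wk s a) k
    have h2 := log_wgt_ge β h ζ (wk s a)
    have h3 : sh (s * d) (pos (wk s a) (s * d)) ζ = sh m (xs η) (sp S η ξ) := by
      rw [hζ, sh_sh34]
      congr 1
      · omega
      · abel
    have h4 : X β h (sh m (xs η) (sp S η ξ)) k = X β h (sh m (xs η) η) k :=
      sp_dep (hdep (xs η)) η ξ
    have h5 : ∀ i : Fin (s * d), ζ ((i : ℕ) + 1, pos (wk s a) ((i : ℕ) + 1)) =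
        ξ ((i : ℕ) + 1 + (m - r),
          pos (wk s a) ((i : ℕ) + 1) + (xs η - pos (wk s a) (s * d))) := by
      intro i
      rw [hζ]
      unfold sh
      refine sp_not ?_
      show ¬ (m < (i : ℕ) + 1 + (m - r))
      have := i.2
      omega
    have h6 : s * d + k = n := by omega
    rw [h3, h4, h6] at h1
    simp only [h5] at h2
    rw [← hζ]
    show _ ≤ _ + (‖h‖ * r + |β| * ∑ i : Fin (s * d), |ξ ((i : ℕ) + 1 + (m - r),
      pos (wk s a) ((i : ℕ) + 1) + (xs η - pos (wk s a) (s * d)))|)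
    have h7 : ((s * d : ℕ) : ℝ) = r := by rw [hr]
    rw [h7] at h2
    linarith
  -- the average over the walks
  obtain ⟨N, hN⟩ : ∃ N : ℝ, N = ((s : ℝ) + 1) ^ d := ⟨_, rfl⟩
  have hN0 : 0 < N := by
    rw [hN]
    positivity
  have hcard : (Fintype.card (Fin d → Fin (s + 1)) : ℝ) = N := by
    rw [hN, Fintype.card_fun, Fintype.card_fin, Fintype.card_fin]
    push_cast
    rfl
  obtain ⟨c1, hc1⟩ : ∃ c1, c1 = (‖h‖ + |β| * E1) * r := ⟨_, rfl⟩
  set W : Site d → Env d × Env d → ℝ := fun x' z =>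
    |X β h (sh (m - r) x' (sp S z.1 z.2)) n - A ρ β h n| with hW
  have hsum : ∀ η ξ : Env d, N * X β h (sh m (xs η) η) k ≤
      N * A ρ β h n + ∑ x' ∈ boxF d (m + r), W x' (η, ξ) + ∑ a, co a (xs η) ξ := by
    intro η ξ
    have h1 : ∑ _a : Fin d → Fin (s + 1), X β h (sh m (xs η) η) k ≤
        ∑ a : Fin d → Fin (s + 1), (A ρ β h n + W (xs η - pos (wk s a) (s * d)) (η, ξ) +
          co a (xs η) ξ) := by
      refine Finset.sum_le_sum fun a _ => (hone η ξ a).trans ?_
      have h2 := le_abs_self (X β h (sh (m - r) (xs η - pos (wk s a) (s * d)) (sp S η ξ)) n -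
        A ρ β h n)
      simp only [hW]
      linarith
    rw [Finset.sum_add_distrib, Finset.sum_add_distrib, Finset.sum_const, Finset.sum_const,
      Finset.card_univ, nsmul_eq_mul, nsmul_eq_mul, hcard] at h1
    have h3 : ∑ a : Fin d → Fin (s + 1), W (xs η - pos (wk s a) (s * d)) (η, ξ) ≤
        ∑ x' ∈ boxF d (m + r), W x' (η, ξ) := by
      have hinj : Function.Injective fun a : Fin d → Fin (s + 1) =>
          xs η - pos (wk s a) (s * d) := fun a b hab => wk_inj s (sub_right_injective hab)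
      rw [← Finset.sum_image (f := fun x' => W x' (η, ξ))
        (g := fun a : Fin d → Fin (s + 1) => xs η - pos (wk s a) (s * d))
        (fun a _ b _ hab => hinj hab)]
      refine Finset.sum_le_sum_of_subset_of_nonneg ?_ fun x' _ _ => abs_nonneg _
      intro x' hx'
      obtain ⟨a, _, rfl⟩ := Finset.mem_image.1 hx'
      rw [mem_boxF]
      intro i
      have h4 := mem_boxF.1 (hxs η) i
      have h5 := mem_boxF.1 (pos_mem_box (wk s a) (s * d)) i
      rw [Pi.sub_apply]
      refine (abs_sub _ _).trans ?_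
      have h6 : ((s * d : ℕ) : ℤ) = r := by rw [hr]
      rw [h6] at h5
      push_cast
      linarith
    linarith
  have hmp : MeasurePreserving (fun z : Env d × Env d => sp S z.1 z.2)
      ((law d ρ).prod (law d ρ)) (law d ρ) := mp_sp (ρ := ρ) S
  have iW : ∀ x', Integrable (W x') ((law d ρ).prod (law d ρ)) ∧
      ∫ z, W x' z ∂((law d ρ).prod (law d ρ)) = ∫ η, |X β h η n - A ρ β h n| ∂(law d ρ) := by
    intro x'
    have h1 := (mp_sh (ρ := ρ) (m - r) x').comp hmp
    have h2 := (dev_le (ρ := ρ) hd hρ β h n).1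
    refine ⟨h1.integrable_comp_of_integrable h2, ?_⟩
    exact LawU_integral h1 (F := fun η : Env d => |X β h η n - A ρ β h n|)
      h2.aestronglyMeasurable
  have iX : ∀ l, Integrable (fun z : Env d × Env d => X β h (sp S z.1 z.2) l)
      ((law d ρ).prod (law d ρ)) ∧ ∫ z : Env d × Env d, X β h (sp S z.1 z.2) l
        ∂((law d ρ).prod (law d ρ)) = A ρ β h l := by
    intro l
    have h2 := (concU (ρ := ρ) hd hρ β h l).1
    exact ⟨hmp.integrable_comp_of_integrable h2, LawU_integral hmp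
      (F := fun η : Env d => X β h η l) h2.aestronglyMeasurable⟩
  -- the bound for almost every future
  have iWs : Integrable (fun z => ∑ x' ∈ boxF d (m + r), W x' z)
      ((law d ρ).prod (law d ρ)) := integrable_finsetSum _ fun x' _ => (iW x').1
  have hae : ∀ᵐ η ∂(law d ρ), ∫ ξ, X β h (sp S η ξ) (m + k) ∂(law d ρ) ≤
      (∫ ξ, X β h (sp S η ξ) m ∂(law d ρ)) + (A ρ β h n + c1 +
        (∫ ξ, ∑ x' ∈ boxF d (m + r), W x' (η, ξ) ∂(law d ρ)) / N) := by
    filter_upwards [iWs.prod_right_ae, (iX (m + k)).1.prod_right_ae, (iX m).1.prod_right_ae]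
      with η h1 h2 h3
    obtain ⟨M, hM⟩ : ∃ M, M = X β h (sh m (xs η) η) k := ⟨_, rfl⟩
    have i1 : Integrable (fun ξ => ∑ a, co a (xs η) ξ) (law d ρ) :=
      integrable_finsetSum _ fun a _ => (hcoI a _).1
    have h4 : N * M ≤ N * A ρ β h n + (∫ ξ, ∑ x' ∈ boxF d (m + r), W x' (η, ξ) ∂(law d ρ)) +
        N * c1 := by
      have h5 : ∫ _ξ : Env d, N * M ∂(law d ρ) ≤ ∫ ξ, (N * A ρ β h n +
          ∑ x' ∈ boxF d (m + r), W x' (η, ξ) + ∑ a, co a (xs η) ξ) ∂(law d ρ) :=
        integral_mono (integrable_const _) (((integrable_const _).add h1).add i1) fun ξ => by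
          rw [hM]
          exact hsum η ξ
      have i2 : Integrable (fun ξ => N * A ρ β h n + ∑ x' ∈ boxF d (m + r), W x' (η, ξ))
          (law d ρ) := (integrable_const _).add h1
      rw [integral_add i2 i1, integral_add (integrable_const _) h1,
        integral_finsetSum _ fun a _ => (hcoI a _).1] at h5
      simp only [(hcoI _ _).2, ← hc1] at h5
      rw [Finset.sum_const, Finset.card_univ, nsmul_eq_mul, hcard] at h5
      simp only [integral_const, probReal_univ, smul_eq_mul, one_mul] at h5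
      exact h5
    have h6 : M ≤ A ρ β h n + c1 +
        (∫ ξ, ∑ x' ∈ boxF d (m + r), W x' (η, ξ) ∂(law d ρ)) / N := by
      rw [← sub_le_iff_le_add', le_div_iff₀ hN0]
      linarith
    have h7 : ∫ ξ, X β h (sp S η ξ) (m + k) ∂(law d ρ) ≤
        ∫ ξ, (X β h (sp S η ξ) m + M) ∂(law d ρ) := by
      refine integral_mono h2 (h3.add (integrable_const _)) fun ξ => ?_
      refine X_le_max hd β h (sp S η ξ) m k fun x hx => ?_
      rw [hM]
      have h8 : X β h (sh m x (sp S η ξ)) k = X β h (sh m x η) k := sp_dep (hdep x) η ξ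
      rw [h8]
      exact hxm η x hx
    rw [integral_add h3 (integrable_const _)] at h7
    simp only [integral_const, probReal_univ, smul_eq_mul, one_mul] at h7
    linarith
  have hfin := integral_mono_ae (iX (m + k)).1.integral_prod_left
    ((iX m).1.integral_prod_left.add ((integrable_const (A ρ β h n + c1)).add
      (iWs.integral_prod_left.div_const N))) hae
  have e1 : ∫ η, (∫ ξ, X β h (sp S η ξ) (m + k) ∂(law d ρ)) ∂(law d ρ) = A ρ β h (m + k) := by
    rw [← integral_prod _ (iX (m + k)).1]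
    exact (iX (m + k)).2
  have e2 : ∫ η, (∫ ξ, X β h (sp S η ξ) m ∂(law d ρ)) ∂(law d ρ) = A ρ β h m := by
    rw [← integral_prod _ (iX m).1]
    exact (iX m).2
  have e3 : ∫ η, (∫ ξ, ∑ x' ∈ boxF d (m + r), W x' (η, ξ) ∂(law d ρ)) ∂(law d ρ) =
      (2 * ((m + r : ℕ) : ℝ) + 1) ^ d * ∫ η, |X β h η n - A ρ β h n| ∂(law d ρ) := by
    rw [← integral_prod _ iWs, integral_finsetSum _ fun x' _ => (iW x').1]
    simp only [(iW _).2]
    rw [Finset.sum_const, Pool.Agent.W_7d29a1_V.card_boxF58, nsmul_eq_mul]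
    push_cast
    rfl
  have e4 : ∫ η, ((∫ ξ, X β h (sp S η ξ) m ∂(law d ρ)) + (A ρ β h n + c1 +
      (∫ ξ, ∑ x' ∈ boxF d (m + r), W x' (η, ξ) ∂(law d ρ)) / N)) ∂(law d ρ) =
      A ρ β h m + (A ρ β h n + c1 + ((2 * ((m + r : ℕ) : ℝ) + 1) ^ d *
        ∫ η, |X β h η n - A ρ β h n| ∂(law d ρ)) / N) := by
    have j1 : Integrable (fun η : Env d => ∫ ξ, X β h (sp S η ξ) m ∂(law d ρ)) (law d ρ) :=
      (iX m).1.integral_prod_left
    have j2 : Integrable (fun η : Env d =>
        (∫ ξ, ∑ x' ∈ boxF d (m + r), W x' (η, ξ) ∂(law d ρ)) / N) (law d ρ) :=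
      iWs.integral_prod_left.div_const N
    have j3 : Integrable (fun η : Env d => A ρ β h n + c1 +
        (∫ ξ, ∑ x' ∈ boxF d (m + r), W x' (η, ξ) ∂(law d ρ)) / N) (law d ρ) :=
      (integrable_const _).add j2
    rw [integral_add j1 j3, integral_add (integrable_const _) j2, integral_div, e2, e3]
    simp only [integral_const, probReal_univ, smul_eq_mul, one_mul]
  have h9 : A ρ β h (m + k) ≤ A ρ β h m + (A ρ β h n + c1 + ((2 * ((m + r : ℕ) : ℝ) + 1) ^ d *
      ∫ η, |X β h η n - A ρ β h n| ∂(law d ρ)) / N) := by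
    rw [← e1, ← e4]
    exact hfin
  have h10 : ((2 * ((m + r : ℕ) : ℝ) + 1) ^ d * ∫ η, |X β h η n - A ρ β h n| ∂(law d ρ)) / N ≤
      ((2 * ((m + r : ℕ) : ℝ) + 1) / (s + 1)) ^ d * Real.sqrt (Va ρ β h n) := by
    rw [div_pow, ← hN, div_mul_eq_mul_div]
    refine div_le_div_of_nonneg_right ?_ hN0.le
    exact mul_le_mul_of_nonneg_left (dev_le hd hρ β h n).2 (by positivity)
  linarith

/-- A function of the future seen through the law of the end point. -/
lemma mean_fut (hd : 0 < d) (β : ℝ) (h : Vec d) (m : ℕ) {F : Env d → ℝ} (hm : Measurable F)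
    (hi : Integrable F (law d ρ))
    (hdep : ∀ y : Site d, DependsOn (fun η : Env d => F (sh m y η)) {p : ℕ × Site d | p.1 ≤ m}ᶜ) :
    Integrable (fun η => ∑ s : Fin m → Step d, FreeU_p β h m s η * F (sh m (pos s m) η))
      (law d ρ) ∧
    ∫ η, ∑ s : Fin m → Step d, FreeU_p β h m s η * F (sh m (pos s m) η) ∂(law d ρ) =
      ∫ η, F η ∂(law d ρ) := by
  have hXs : ∀ y : Site d, Integrable (fun η => F (sh m y η)) (law d ρ) := fun y =>
    (mp_sh m y).integrable_comp_of_integrable hi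
  have hp : ∀ s : Fin m → Step d, Integrable (FreeU_p β h m s) (law d ρ) := fun s => by
    refine (integrable_const (1 : ℝ)).mono' (FreeU_meas β h m s).aestronglyMeasurable
      (Filter.Eventually.of_forall fun η => ?_)
    rw [Real.norm_eq_abs, abs_of_nonneg (FreeU_nonneg hd β h m s η)]
    exact FreeU_le_one hd β h m s η
  have hpX : ∀ s : Fin m → Step d,
      Integrable (fun η => FreeU_p β h m s η * F (sh m (pos s m) η)) (law d ρ) := fun s => by
    refine (hXs (pos s m)).bdd_mul (c := 1) (FreeU_meas β h m s).aestronglyMeasurable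
      (Filter.Eventually.of_forall fun η => ?_)
    rw [Real.norm_eq_abs, abs_of_nonneg (FreeU_nonneg hd β h m s η)]
    exact FreeU_le_one hd β h m s η
  refine ⟨integrable_finsetSum _ fun s _ => hpX s, ?_⟩
  rw [integral_finsetSum _ fun s _ => hpX s]
  have h1 : ∀ s : Fin m → Step d, ∫ η, FreeU_p β h m s η * F (sh m (pos s m) η) ∂(law d ρ) =
      (∫ η, FreeU_p β h m s η ∂(law d ρ)) * ∫ η, F η ∂(law d ρ) := by
    intro s
    have h2 := integral_indep (ρ := ρ) {p : ℕ × Site d | p.1 ≤ m} (F := FreeU_p β h m s)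
      (G := fun η => F (sh m (pos s m) η)) (FreeU_meas β h m s)
      (hm.comp (measurable_sh m (pos s m))) (FreeU_dep β h m s) (hdep (pos s m))
    rw [h2, integral_sh m (pos s m) hm]
  rw [Finset.sum_congr rfl fun s _ => h1 s, ← Finset.sum_mul,
    ← integral_finsetSum _ fun s _ => hp s]
  simp only [FreeU_sum hd]
  simp

/-- **The transport of the deviation.** -/
theorem trv34 (hd : 0 < d) (hρ : EM ρ) (β : ℝ) (h : Vec d) (m n : ℕ) :
    ∫ η, |X β h η (m + n) - A ρ β h (m + n)| ∂(law d ρ) ≤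
      2 * (A ρ β h (m + n) - A ρ β h m - A ρ β h n) +
        (∫ η, |X β h η m - A ρ β h m| ∂(law d ρ)) + ∫ η, |X β h η n - A ρ β h n| ∂(law d ρ) := by
  have hX : ∀ k, Integrable (fun η => X β h η k) (law d ρ) := fun k => (concU hd hρ β h k).1
  have hD : ∀ k, Integrable (fun η : Env d => |X β h η k - A ρ β h k|) (law d ρ) := fun k =>
    (dev_le hd hρ β h k).1
  obtain ⟨i1, e1⟩ := mean_fut (ρ := ρ) hd β h m (F := fun η => X β h η n) (measurable_X β h n)
    (hX n) (FreeU_dep2 β h m n)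
  obtain ⟨i2, e2⟩ := mean_fut (ρ := ρ) hd β h m (F := fun η => |X β h η n - A ρ β h n|)
    ((measurable_X β h n).sub_const _).abs (hD n) (fun y η η' hη => by
      have := FreeU_dep2 β h m n y hη
      simp only at this ⊢
      rw [this])
  set g := A ρ β h (m + n) - A ρ β h m - A ρ β h n with hg
  have hpt : ∀ η : Env d, |X β h η (m + n) - A ρ β h (m + n)| ≤
      (X β h η (m + n) - X β h η m -
        ∑ s : Fin m → Step d, FreeU_p β h m s η * X β h (sh m (pos s m) η) n) +
      |X β h η m - A ρ β h m| +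
      (∑ s : Fin m → Step d, FreeU_p β h m s η * |X β h (sh m (pos s m) η) n - A ρ β h n|) +
      g := by
    intro η
    have h1 := FreeU_pt hd β h m n η
    have h2 : |∑ s : Fin m → Step d, FreeU_p β h m s η *
        (X β h (sh m (pos s m) η) n - A ρ β h n)| ≤
        ∑ s : Fin m → Step d, FreeU_p β h m s η *
          |X β h (sh m (pos s m) η) n - A ρ β h n| := by
      refine (Finset.abs_sum_le_sum_abs _ _).trans (le_of_eq ?_)
      refine Finset.sum_congr rfl fun s _ => ?_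
      rw [abs_mul, abs_of_nonneg (FreeU_nonneg hd β h m s η)]
    have h3 : ∑ s : Fin m → Step d, FreeU_p β h m s η *
        (X β h (sh m (pos s m) η) n - A ρ β h n) =
        (∑ s : Fin m → Step d, FreeU_p β h m s η * X β h (sh m (pos s m) η) n) -
          A ρ β h n := by
      simp only [mul_sub]
      rw [Finset.sum_sub_distrib, ← Finset.sum_mul, FreeU_sum hd, one_mul]
    have h4 : 0 ≤ g := by
      have := A_add_le hd hρ β h m n
      rw [hg]
      linarith
    rw [h3] at h2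
    obtain ⟨h5, h6⟩ := abs_le.1 h2
    have h7 := le_abs_self (X β h η m - A ρ β h m)
    have h8 := neg_abs_le (X β h η m - A ρ β h m)
    rw [abs_le]
    constructor <;> linarith
  have i3 : Integrable (fun η : Env d => X β h η (m + n) - X β h η m) (law d ρ) :=
    (hX (m + n)).sub (hX m)
  have i4 : Integrable (fun η : Env d => X β h η (m + n) - X β h η m -
      ∑ s : Fin m → Step d, FreeU_p β h m s η * X β h (sh m (pos s m) η) n) (law d ρ) :=
    i3.sub i1
  have i5 : Integrable (fun η : Env d => X β h η (m + n) - X β h η m -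
      ∑ s : Fin m → Step d, FreeU_p β h m s η * X β h (sh m (pos s m) η) n +
      |X β h η m - A ρ β h m|) (law d ρ) := i4.add (hD m)
  have i6 : Integrable (fun η : Env d => X β h η (m + n) - X β h η m -
      ∑ s : Fin m → Step d, FreeU_p β h m s η * X β h (sh m (pos s m) η) n +
      |X β h η m - A ρ β h m| +
      ∑ s : Fin m → Step d, FreeU_p β h m s η * |X β h (sh m (pos s m) η) n - A ρ β h n|)
      (law d ρ) := i5.add i2
  have i7 : Integrable (fun η : Env d => X β h η (m + n) - X β h η m -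
      ∑ s : Fin m → Step d, FreeU_p β h m s η * X β h (sh m (pos s m) η) n +
      |X β h η m - A ρ β h m| +
      (∑ s : Fin m → Step d, FreeU_p β h m s η * |X β h (sh m (pos s m) η) n - A ρ β h n|) + g)
      (law d ρ) := i6.add (integrable_const g)
  have h9 := integral_mono (hD (m + n)) i7 hpt
  rw [integral_add i6 (integrable_const g), integral_add i5 i2, integral_add i4 (hD m),
    integral_sub i3 i1, integral_sub (hX (m + n)) (hX m), e1, e2, integral_const] at h9
  simp only [probReal_univ, smul_eq_mul, one_mul] at h9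
  have h10 : ∫ η, X β h η (m + n) ∂(law d ρ) = A ρ β h (m + n) := rfl
  have h11 : ∫ η, X β h η m ∂(law d ρ) = A ρ β h m := rfl
  have h12 : ∫ η, X β h η n ∂(law d ρ) = A ρ β h n := rfl
  rw [h10, h11, h12] at h9
  linarith

/-- **Small variance at the length `n` forces small increments behind `n`.** -/
theorem incC34 (hd : 0 < d) (hρ : EM ρ) (β : ℝ) (h : Vec d) (K : ℝ) {ε : ℝ} (hε : 0 < ε) :
    ∃ m₁ : ℕ, ∀ m n : ℕ, m₁ ≤ m → m ≤ n → Va ρ β h n ≤ K →
      A ρ β h (n + m) - A ρ β h n ≤ (lam ρ β h + ε) * m := by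
  obtain ⟨C1, hC1⟩ : ∃ C1, C1 = ‖h‖ + |β| * ∫ t, |t| ∂ρ := ⟨_, rfl⟩
  have hC10 : 0 ≤ C1 := by
    rw [hC1]
    have : 0 ≤ ∫ t, |t| ∂ρ := integral_nonneg fun t => abs_nonneg t
    positivity
  obtain ⟨C0, hC0⟩ : ∃ C0, C0 = C1 + |lam ρ β h| := ⟨_, rfl⟩
  have hC00 : 0 ≤ C0 := by
    rw [hC0]
    positivity
  obtain ⟨q, hq⟩ := exists_nat_ge (max (2 * d * C0 / ε) d)
  have hq1 : 2 * d * C0 / ε ≤ q := (le_max_left _ _).trans hq
  have hqd : d ≤ q := by exact_mod_cast (le_max_right (2 * d * C0 / ε) (d : ℝ)).trans hq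
  have hq0 : 0 < q := by omega
  have hq0' : (0 : ℝ) < q := by exact_mod_cast hq0
  have hd' : (0 : ℝ) < d := by exact_mod_cast hd
  obtain ⟨m₁, hm₁⟩ := exists_nat_ge (max 1 (2 * ((7 * q : ℝ) ^ d * Real.sqrt K) / ε))
  refine ⟨m₁, fun m n hm hmn hV => ?_⟩
  have hm' : max 1 (2 * ((7 * q : ℝ) ^ d * Real.sqrt K) / ε) ≤ (m : ℝ) :=
    hm₁.trans (by exact_mod_cast hm)
  have hm1 : (1 : ℝ) ≤ m := (le_max_left _ _).trans hm'
  have hmK : 2 * ((7 * q : ℝ) ^ d * Real.sqrt K) / ε ≤ m := (le_max_right _ _).trans hm'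
  obtain ⟨s, hs⟩ : ∃ s, s = m / q := ⟨_, rfl⟩
  have hsq : s * q ≤ m := by
    rw [hs]
    exact Nat.div_mul_le_self m q
  have hsq' : m < (s + 1) * q := by
    rw [hs]
    have := Nat.lt_div_mul_add (a := m) hq0
    nlinarith
  have hr : s * d ≤ m := (Nat.mul_le_mul_left s hqd).trans hsq
  have h1 := inc34 (ρ := ρ) hd hρ β h n s (m + s * d) (by omega) (hr.trans hmn)
  have h2 : m + s * d + (n - s * d) = n + m := by omega
  rw [h2, ← hC1] at h1
  have h3 := A_le_lam (ρ := ρ) hd hρ β h (m + s * d)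
  obtain ⟨r, hrr⟩ : ∃ r : ℝ, r = ((s * d : ℕ) : ℝ) := ⟨_, rfl⟩
  have hr0 : 0 ≤ r := by
    rw [hrr]
    exact Nat.cast_nonneg _
  have hrm : r ≤ m := by
    rw [hrr]
    exact_mod_cast hr
  have hrq : r * q ≤ m * d := by
    rw [hrr]
    have : s * d * q ≤ m * d := by nlinarith
    exact_mod_cast this
  have e1 : ((m + s * d : ℕ) : ℝ) = m + r := by
    rw [hrr]
    push_cast
    ring
  have e2 : ((m + s * d + s * d : ℕ) : ℝ) = m + r + r := by
    rw [hrr]
    push_cast
    ring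
  rw [e1] at h3
  rw [e2, ← hrr] at h1
  -- the volume factor
  have h4 : (2 * ((m : ℝ) + r + r) + 1) / (s + 1) ≤ 7 * q := by
    rw [div_le_iff₀ (by positivity)]
    have h5 : (m : ℝ) ≤ (s + 1) * q := by
      have : m ≤ (s + 1) * q := hsq'.le
      exact_mod_cast this
    nlinarith
  have h5 : ((2 * ((m : ℝ) + r + r) + 1) / (s + 1)) ^ d * Real.sqrt (Va ρ β h n) ≤
      (7 * q : ℝ) ^ d * Real.sqrt K :=
    mul_le_mul (pow_le_pow_left₀ (by positivity) h4 d) (Real.sqrt_le_sqrt hV)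
      (Real.sqrt_nonneg _) (by positivity)
  have h6 : (7 * q : ℝ) ^ d * Real.sqrt K ≤ ε * m / 2 := by
    rw [div_le_iff₀ hε] at hmK
    linarith
  have h7 : C0 * r ≤ ε * m / 2 := by
    have h8 : 2 * d * C0 ≤ q * ε := by
      rw [div_le_iff₀ hε] at hq1
      exact hq1
    have h9 : C0 * (r * q) ≤ C0 * (m * d) := mul_le_mul_of_nonneg_left hrq hC00
    have h10 : (2 * d * C0) * m ≤ (q * ε) * m := mul_le_mul_of_nonneg_right h8 (by linarith)
    have h11 : (C0 * r) * q ≤ (ε * m / 2) * q := by nlinarith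
    exact le_of_mul_le_mul_right h11 hq0'
  have h8 : lam ρ β h * r ≤ |lam ρ β h| * r := mul_le_mul_of_nonneg_right (le_abs_self _) hr0
  have h9 : C0 * r = C1 * r + |lam ρ β h| * r := by
    rw [hC0]
    ring
  nlinarith

end Pool.Agent.W_7d29a1_NV.I34
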