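import Pool.Agent.W_7d29a1_NV.DefsNV
import Pool.Agent.W_7d29a1_V.Rch48

/-!
The first and the last marginal of the law of the separators.
-/

namespace Pool.Agent.W_7d29a1_NV.M53

open MeasureTheory ProbabilityTheory Filter Topology Pool.Agent.W_MP_7d29a1_pr
  Pool.Agent.W_7d29a1_h46 Pool.Agent.W_7d29a1_h46u Pool.Agent.W_7d29a1_D2.B35
  Pool.Agent.W_7d29a1_Q29 Pool.Agent.W_7d29a1_V.R48

variable {d : ℕ}

lemma boxF_mono {a b : ℕ} (hab : a ≤ b) : boxF d a ⊆ boxF d b := by
  intro x hx
  rw [mem_boxF] at hx ⊢
  intro i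
  have h1 : (a : ℤ) ≤ b := by exact_mod_cast hab
  exact (hx i).trans h1

lemma boxF_add {a b : ℕ} {x y : Site d} (hx : x ∈ boxF d a) (hy : y ∈ boxF d b) :
    x + y ∈ boxF d (a + b) := by
  rw [mem_boxF] at hx hy ⊢
  intro i
  push_cast
  exact (abs_add_le _ _).trans (add_le_add (hx i) (hy i))

/-- One segment, then free. -/
lemma seg_Z (β : ℝ) (h : Vec d) (η : Env d) {n a b : ℕ} (hab : a ≤ b) (hbn : b ≤ n) {x : Site d}
    (hx : x ∈ boxF d a) :
    ∑ y ∈ boxF d n, sg β h a b x y η * Z β h (sh b y η) (n - b) = Z β h (sh a x η) (n - a) := by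
  have h1 : n - a = (b - a) + (n - b) := by omega
  rw [h1, Z_add_PP]
  have h2 : ∀ w ∈ boxF d (b - a), PP β h (sh a x η) (b - a) w *
      Z β h (sh (b - a) w (sh a x η)) (n - b) =
      sg β h a b x (x + w) η * Z β h (sh b (x + w) η) (n - b) := by
    intro w _
    unfold sg
    rw [sh_sh, add_sub_cancel_left, Nat.add_sub_cancel' hab]
  rw [Finset.sum_congr rfl h2]
  have h3 : ∑ w ∈ boxF d (b - a), sg β h a b x (x + w) η * Z β h (sh b (x + w) η) (n - b) =
      ∑ y ∈ (boxF d (b - a)).map (addLeftEmbedding x),
        sg β h a b x y η * Z β h (sh b y η) (n - b) := by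
    rw [Finset.sum_map]
    rfl
  rw [h3]
  symm
  refine Finset.sum_subset ?_ ?_
  · intro y hy
    rw [Finset.mem_map] at hy
    obtain ⟨w, hw, rfl⟩ := hy
    have h4 := boxF_add hx hw
    rw [Nat.add_sub_cancel' hab] at h4
    exact boxF_mono hbn h4
  · intro y _ hy
    have h5 : y - x ∉ boxF d (b - a) := by
      intro h6
      apply hy
      rw [Finset.mem_map]
      exact ⟨y - x, h6, by simp [addLeftEmbedding]⟩
    unfold sg
    rw [PP_eq_zero_of_notMem h5, zero_mul]

lemma seg_out (β : ℝ) (h : Vec d) (η : Env d) {a b : ℕ} (hab : a ≤ b) {x y : Site d}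
    (hx : x ∈ boxF d a) (hy : y ∉ boxF d b) : sg β h a b x y η = 0 := by
  unfold sg
  refine PP_eq_zero_of_notMem fun h1 => hy ?_
  have h2 := boxF_add hx h1
  rwa [Nat.add_sub_cancel' hab, add_sub_cancel] at h2

/-- The weight of the later separators. -/
noncomputable def GG (β : ℝ) (h : Vec d) (n : ℕ) (η : Env d) (k : ℕ) (r : Fin (k + 1) → ℕ)
    (s : Sp d n k) : ℝ :=
  (∏ i : Fin k, sg β h (r i.castSucc) (r i.succ) (s i.castSucc) (s i.succ) η) *
    Z β h (sh (r (Fin.last k)) (s (Fin.last k)) η) (n - r (Fin.last k))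

/-- The weight of the earlier separators. -/
noncomputable def HH (β : ℝ) (h : Vec d) (n : ℕ) (η : Env d) (k : ℕ) (r : Fin (k + 1) → ℕ)
    (s : Sp d n k) : ℝ :=
  PP β h η (r 0) (s 0) *
    ∏ i : Fin k, sg β h (r i.castSucc) (r i.succ) (s i.castSucc) (s i.succ) η

open Classical in
lemma sum_GG (β : ℝ) (h : Vec d) (η : Env d) {n : ℕ} : ∀ (k : ℕ) (r : Fin (k + 1) → ℕ),
    (∀ i : Fin k, r i.castSucc ≤ r i.succ) → r (Fin.last k) ≤ n →
    ∀ x : {x : Site d // x ∈ boxF d n}, (x : Site d) ∈ boxF d (r 0) →
      (∑ s : Sp d n k, if s 0 = x then GG β h n η k r s else 0) =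
        Z β h (sh (r 0) x η) (n - r 0) := by
  intro k
  induction k with
  | zero =>
    intro r _ _ x _
    rw [Finset.sum_eq_single (fun _ : Fin 1 => x)]
    · rw [if_pos rfl]
      unfold GG
      simp
    · intro s _ hs
      refine if_neg fun h1 => hs ?_
      funext i
      rw [Subsingleton.elim i 0, h1]
    · intro h1
      exact absurd (Finset.mem_univ _) h1
  | succ k ih =>
    intro r hr hn x hx
    have hr' : ∀ i : Fin k, (fun j : Fin (k + 1) => r j.succ) i.castSucc ≤
        (fun j : Fin (k + 1) => r j.succ) i.succ := fun i => by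
      have := hr i.succ
      rwa [← Fin.succ_castSucc] at this
    have hn' : (fun j : Fin (k + 1) => r j.succ) (Fin.last k) ≤ n := by
      show r (Fin.last k).succ ≤ n
      rw [Fin.succ_last]
      exact hn
    have ih' := ih (fun j => r j.succ) hr' hn'
    have h01 : r 0 ≤ r 1 := hr 0
    have h1n : r 1 ≤ n := by
      have hm : ∀ j : Fin (k + 1), r j.succ ≤ r (Fin.last (k + 1)) := by
        intro j
        induction j using Fin.reverseInduction with
        | last => rw [Fin.succ_last]
        | cast j hj => exact (hr' j).trans hj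
      exact (hm 0).trans hn
    rw [← (Fin.consEquiv (fun _ : Fin (k + 2) => {x : Site d // x ∈ boxF d n})).sum_comp,
      Fintype.sum_prod_type]
    have e1 : ∀ (y : {x : Site d // x ∈ boxF d n}) (s : Sp d n k),
        (if (Fin.consEquiv (fun _ : Fin (k + 2) => {x : Site d // x ∈ boxF d n})) (y, s) 0 = x then
          GG β h n η (k + 1) r
            ((Fin.consEquiv (fun _ : Fin (k + 2) => {x : Site d // x ∈ boxF d n})) (y, s)) else 0) =
        if y = x then sg β h (r 0) (r 1) x (s 0) η * GG β h n η k (fun j => r j.succ) s else 0 := by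
      intro y s
      have e0 : (Fin.consEquiv (fun _ : Fin (k + 2) => {x : Site d // x ∈ boxF d n})) (y, s) =
          (Fin.cons y s : Sp d n (k + 1)) := rfl
      rw [e0, Fin.cons_zero]
      by_cases hy : y = x
      · subst hy
        rw [if_pos rfl, if_pos rfl]
        unfold GG
        rw [Fin.prod_univ_succ, mul_assoc]
        congr 1
      · rw [if_neg hy, if_neg hy]
    rw [Finset.sum_congr rfl fun y _ => Finset.sum_congr rfl fun s _ => e1 y s]
    rw [Finset.sum_comm]
    have e2 : ∀ s : Sp d n k, (∑ y : {x : Site d // x ∈ boxF d n},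
        if y = x then sg β h (r 0) (r 1) x (s 0) η * GG β h n η k (fun j => r j.succ) s else 0) =
        ∑ y : {x : Site d // x ∈ boxF d n}, sg β h (r 0) (r 1) x y η *
          (if s 0 = y then GG β h n η k (fun j => r j.succ) s else 0) := by
      intro s
      rw [Finset.sum_ite_eq' Finset.univ x, if_pos (Finset.mem_univ _),
        Finset.sum_eq_single (s 0)]
      · rw [if_pos rfl]
      · intro y _ hy
        rw [if_neg (Ne.symm hy), mul_zero]
      · intro h1
        exact absurd (Finset.mem_univ _) h1
    rw [Finset.sum_congr rfl fun s _ => e2 s, Finset.sum_comm]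
    have e3 : ∀ y : {x : Site d // x ∈ boxF d n}, (∑ s : Sp d n k, sg β h (r 0) (r 1) x y η *
          (if s 0 = y then GG β h n η k (fun j => r j.succ) s else 0)) =
        sg β h (r 0) (r 1) x y η * Z β h (sh (r 1) y η) (n - r 1) := by
      intro y
      rw [← Finset.mul_sum]
      by_cases hy : (y : Site d) ∈ boxF d (r 1)
      · rw [ih' y hy]
        rfl
      · rw [seg_out β h η h01 hx hy, zero_mul, zero_mul]
    rw [Finset.sum_congr rfl fun y _ => e3 y, ← seg_Z β h η h01 h1n hx]
    exact Finset.sum_coe_sort (boxF d n)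
      (fun y => sg β h (r 0) (r 1) x y η * Z β h (sh (r 1) y η) (n - r 1))

open Classical in
lemma sum_HH (β : ℝ) (h : Vec d) (η : Env d) {n : ℕ} : ∀ (k : ℕ) (r : Fin (k + 1) → ℕ),
    (∀ i : Fin k, r i.castSucc ≤ r i.succ) → r (Fin.last k) ≤ n →
    ∀ x : {x : Site d // x ∈ boxF d n},
      (∑ s : Sp d n k, if s (Fin.last k) = x then HH β h n η k r s else 0) =
        PP β h η (r (Fin.last k)) x := by
  intro k
  induction k with
  | zero =>
    intro r _ _ x
    rw [Finset.sum_eq_single (fun _ : Fin 1 => x)]
    · rw [if_pos rfl]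
      unfold HH
      simp
    · intro s _ hs
      refine if_neg fun h1 => hs ?_
      funext i
      rw [Subsingleton.elim i (Fin.last 0), h1]
    · intro h1
      exact absurd (Finset.mem_univ _) h1
  | succ k ih =>
    intro r hr hn x
    have hr' : ∀ i : Fin k, (fun j : Fin (k + 1) => r j.castSucc) i.castSucc ≤
        (fun j : Fin (k + 1) => r j.castSucc) i.succ := fun i => by
      have := hr i.castSucc
      rwa [Fin.succ_castSucc] at this
    have hl : r (Fin.last k).castSucc ≤ r (Fin.last (k + 1)) := by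
      have := hr (Fin.last k)
      rwa [Fin.succ_last] at this
    have hn' : (fun j : Fin (k + 1) => r j.castSucc) (Fin.last k) ≤ n := hl.trans hn
    have ih' := ih (fun j => r j.castSucc) hr' hn'
    rw [← (Fin.snocEquiv (fun _ : Fin (k + 2) => {x : Site d // x ∈ boxF d n})).sum_comp,
      Fintype.sum_prod_type]
    have e1 : ∀ (y : {x : Site d // x ∈ boxF d n}) (s : Sp d n k),
        (if (Fin.snocEquiv (fun _ : Fin (k + 2) => {x : Site d // x ∈ boxF d n})) (y, s)
            (Fin.last (k + 1)) = x then
          HH β h n η (k + 1) r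
            ((Fin.snocEquiv (fun _ : Fin (k + 2) => {x : Site d // x ∈ boxF d n})) (y, s)) else 0) =
        if y = x then HH β h n η k (fun j => r j.castSucc) s *
          sg β h (r (Fin.last k).castSucc) (r (Fin.last (k + 1))) (s (Fin.last k)) x η else 0 := by
      intro y s
      have e0 : (Fin.snocEquiv (fun _ : Fin (k + 2) => {x : Site d // x ∈ boxF d n})) (y, s) =
          (Fin.snoc s y : Sp d n (k + 1)) := rfl
      rw [e0, Fin.snoc_last]
      by_cases hy : y = x
      · subst hy
        rw [if_pos rfl, if_pos rfl]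
        unfold HH
        rw [Fin.prod_univ_castSucc, ← mul_assoc]
        congr 1
        · congr 1
          refine Finset.prod_congr rfl fun i _ => ?_
          rw [Fin.succ_castSucc]
          simp only [Fin.snoc_castSucc]
        · rw [Fin.succ_last, Fin.snoc_last, Fin.snoc_castSucc]
      · rw [if_neg hy, if_neg hy]
    rw [Finset.sum_congr rfl fun y _ => Finset.sum_congr rfl fun s _ => e1 y s]
    rw [Finset.sum_comm]
    have e2 : ∀ s : Sp d n k, (∑ y : {x : Site d // x ∈ boxF d n},
        if y = x then HH β h n η k (fun j => r j.castSucc) s *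
          sg β h (r (Fin.last k).castSucc) (r (Fin.last (k + 1))) (s (Fin.last k)) x η else 0) =
        ∑ y : {x : Site d // x ∈ boxF d n},
          (if s (Fin.last k) = y then HH β h n η k (fun j => r j.castSucc) s else 0) *
            sg β h (r (Fin.last k).castSucc) (r (Fin.last (k + 1))) y x η := by
      intro s
      rw [Finset.sum_ite_eq' Finset.univ x, if_pos (Finset.mem_univ _),
        Finset.sum_eq_single (s (Fin.last k))]
      · rw [if_pos rfl]
      · intro y _ hy
        rw [if_neg (Ne.symm hy), zero_mul]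
      · intro h1
        exact absurd (Finset.mem_univ _) h1
    rw [Finset.sum_congr rfl fun s _ => e2 s, Finset.sum_comm]
    have e3 : ∀ y : {x : Site d // x ∈ boxF d n}, (∑ s : Sp d n k,
          (if s (Fin.last k) = y then HH β h n η k (fun j => r j.castSucc) s else 0) *
            sg β h (r (Fin.last k).castSucc) (r (Fin.last (k + 1))) y x η) =
        PP β h η (r (Fin.last k).castSucc) y *
          sg β h (r (Fin.last k).castSucc) (r (Fin.last (k + 1))) y x η := by
      intro y
      rw [← Finset.sum_mul, ih' y]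
    rw [Finset.sum_congr rfl fun y _ => e3 y]
    rw [Finset.sum_coe_sort (boxF d n)
      (fun y => PP β h η (r (Fin.last k).castSucc) y *
          sg β h (r (Fin.last k).castSucc) (r (Fin.last (k + 1))) y x η)]
    have h5 : r (Fin.last (k + 1)) = r (Fin.last k).castSucc +
        (r (Fin.last (k + 1)) - r (Fin.last k).castSucc) := by omega
    conv_rhs => rw [h5]
    rw [PP_add]
    symm
    refine Finset.sum_subset (boxF_mono hn') fun y _ hy => ?_
    rw [PP_eq_zero_of_notMem hy, zero_mul]

/-- The marginals. -/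
theorem marT53 (d : ℕ) : MarT d := by
  classical
  intro β h n k T r ho η x
  have hr : ∀ i : Fin k, r i.castSucc ≤ r i.succ := fun i => (ho.1 i).1.le.trans (ho.1 i).2
  constructor
  · have h1 : (∑ s : Sp d n k, if s 0 = x then msp β h n r s η else 0) =
        PP β h η (r 0) x * (∑ s : Sp d n k, if s 0 = x then GG β h n η k r s else 0) /
          Z β h η n := by
      rw [Finset.mul_sum, Finset.sum_div]
      refine Finset.sum_congr rfl fun s _ => ?_
      by_cases hs : s 0 = x
      · rw [if_pos hs, if_pos hs]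
        unfold msp GG
        rw [hs, mul_assoc]
      · rw [if_neg hs, if_neg hs, mul_zero, zero_div]
    by_cases hx : (x : Site d) ∈ boxF d (r 0)
    · rw [sum_GG β h η k r hr ho.2 x hx] at h1
      unfold Qt
      rw [← h1]
    · have h2 : PP β h η (r 0) x = 0 := PP_eq_zero_of_notMem hx
      rw [h2, zero_mul, zero_div] at h1
      unfold Qt
      rw [h2, zero_mul, zero_div]
      exact h1
  · have h1 : (∑ s : Sp d n k, if s (Fin.last k) = x then msp β h n r s η else 0) =
        (∑ s : Sp d n k, if s (Fin.last k) = x then HH β h n η k r s else 0) *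
          Z β h (sh (r (Fin.last k)) x η) (n - r (Fin.last k)) / Z β h η n := by
      rw [Finset.sum_mul, Finset.sum_div]
      refine Finset.sum_congr rfl fun s _ => ?_
      by_cases hs : s (Fin.last k) = x
      · rw [if_pos hs, if_pos hs]
        unfold msp HH
        rw [hs]
      · rw [if_neg hs, if_neg hs, zero_mul, zero_div]
    rw [sum_HH β h η k r hr ho.2 x] at h1
    unfold Qt
    rw [← h1]

end Pool.Agent.W_7d29a1_NV.M53
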