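import Pool.Agent.W_7d29a1_NV.DefsNV

/-!
Theorem NV, leaf T1, steps S1 and S2: selection is relative entropy, sharp Pinsker inequality,
chain rule over the coarse classes.
-/

namespace Pool.Agent.W_7d29a1_NV

open MeasureTheory ProbabilityTheory Filter Topology

namespace P85

/-! ### Pinsker -/

lemma mono_aux : MonotoneOn (fun x : ℝ => Real.log x - 2 * (x - 1) / (x + 1)) (Set.Ioi 0) := by
  have hd : ∀ x : ℝ, 0 < x → HasDerivAt (fun x : ℝ => Real.log x - 2 * (x - 1) / (x + 1))
      (x⁻¹ - (2 * (x + 1) - 2 * (x - 1)) / (x + 1) ^ 2) x := by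
    intro x hx
    have h1 : HasDerivAt (fun x : ℝ => 2 * (x - 1)) 2 x := by
      simpa using ((hasDerivAt_id x).sub_const 1).const_mul 2
    have h2 : HasDerivAt (fun x : ℝ => x + 1) 1 x := by
      simpa using (hasDerivAt_id x).add_const 1
    have h3 := (Real.hasDerivAt_log hx.ne').sub (h1.div h2 (by positivity))
    refine h3.congr_deriv ?_
    ring
  refine monotoneOn_of_deriv_nonneg (convex_Ioi 0) ?_ ?_ ?_
  · intro x hx
    exact (hd x hx).continuousAt.continuousWithinAt
  · intro x hx
    rw [interior_Ioi] at hx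
    exact (hd x hx).differentiableAt.differentiableWithinAt
  · intro x hx
    rw [interior_Ioi] at hx
    have hx' : (0 : ℝ) < x := hx
    rw [(hd x hx).deriv]
    have h : x⁻¹ - (2 * (x + 1) - 2 * (x - 1)) / (x + 1) ^ 2 =
        (x - 1) ^ 2 / (x * (x + 1) ^ 2) := by
      field_simp
      ring
    rw [h]
    positivity

lemma log_ge {x : ℝ} (hx : 1 ≤ x) : 2 * (x - 1) / (x + 1) ≤ Real.log x := by
  have h := mono_aux (a := 1) (b := x) (by simp) (lt_of_lt_of_le one_pos hx) hx
  simp at h
  linarith

lemma log_le {x : ℝ} (h0 : 0 < x) (hx : x ≤ 1) : Real.log x ≤ 2 * (x - 1) / (x + 1) := by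
  have h := mono_aux (a := x) (b := 1) h0 (by simp) hx
  simp at h
  linarith

lemma der_aux {x : ℝ} (hx : 0 < x) :
    HasDerivAt (fun x : ℝ => (4 * x + 2 * x ^ 2) * Real.log x - 5 * x ^ 2 + 4 * x + 1)
      (4 * (1 + x) * Real.log x + 8 - 8 * x) x := by
  have h1 : HasDerivAt (fun x : ℝ => 4 * x + 2 * x ^ 2) (4 + 2 * (2 * x)) x := by
    have a : HasDerivAt (fun x : ℝ => 4 * x) 4 x := by
      simpa using (hasDerivAt_id x).const_mul 4
    have b : HasDerivAt (fun x : ℝ => 2 * x ^ 2) (2 * (2 * x)) x := by
      simpa using (hasDerivAt_pow 2 x).const_mul 2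
    exact a.add b
  have h2 := h1.mul (Real.hasDerivAt_log hx.ne')
  have h3 : HasDerivAt (fun x : ℝ => 5 * x ^ 2) (5 * (2 * x)) x := by
    simpa using (hasDerivAt_pow 2 x).const_mul 5
  have h4 : HasDerivAt (fun x : ℝ => 4 * x) 4 x := by
    simpa using (hasDerivAt_id x).const_mul 4
  have h5 := ((h2.sub h3).add h4).add_const 1
  refine h5.congr_deriv ?_
  field_simp
  ring

lemma f_nonneg {x : ℝ} (hx : 0 < x) :
    0 ≤ (4 * x + 2 * x ^ 2) * Real.log x - 5 * x ^ 2 + 4 * x + 1 := by
  rcases le_total 1 x with h | h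
  · have hm : MonotoneOn (fun x : ℝ => (4 * x + 2 * x ^ 2) * Real.log x - 5 * x ^ 2 + 4 * x + 1)
        (Set.Ici 1) := by
      refine monotoneOn_of_deriv_nonneg (convex_Ici 1) ?_ ?_ ?_
      · intro y hy
        exact (der_aux (lt_of_lt_of_le one_pos hy)).continuousAt.continuousWithinAt
      · intro y hy
        rw [interior_Ici] at hy
        exact (der_aux (lt_trans one_pos hy)).differentiableAt.differentiableWithinAt
      · intro y hy
        rw [interior_Ici] at hy
        have hy' : (1 : ℝ) < y := hy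
        rw [(der_aux (lt_trans one_pos hy)).deriv]
        have h1 := log_ge hy'.le
        rw [div_le_iff₀ (by linarith)] at h1
        nlinarith
    have h1 := hm (a := 1) (b := x) (by simp) h h
    simp at h1
    linarith
  · have hm : AntitoneOn (fun x : ℝ => (4 * x + 2 * x ^ 2) * Real.log x - 5 * x ^ 2 + 4 * x + 1)
        (Set.Ioc 0 1) := by
      refine antitoneOn_of_deriv_nonpos (convex_Ioc 0 1) ?_ ?_ ?_
      · intro y hy
        exact (der_aux hy.1).continuousAt.continuousWithinAt
      · intro y hy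
        rw [interior_Ioc] at hy
        exact (der_aux hy.1).differentiableAt.differentiableWithinAt
      · intro y hy
        rw [interior_Ioc] at hy
        rw [(der_aux hy.1).deriv]
        have h1 := log_le hy.1 hy.2.le
        rw [le_div_iff₀ (by linarith [hy.1])] at h1
        nlinarith
    have h1 := hm (a := x) (b := 1) ⟨hx, h⟩ (by simp) h
    simp at h1
    linarith

lemma pt {p q : ℝ} (hp : 0 < p) (hq : 0 < q) :
    |p - q| ^ 2 ≤ ((2 * p + 4 * q) / 3) * (p * (Real.log p - Real.log q) - p + q) := by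
  have h := f_nonneg (div_pos hp hq)
  rw [Real.log_div hp.ne' hq.ne'] at h
  have h1 : 0 ≤ q ^ 2 * ((4 * (p / q) + 2 * (p / q) ^ 2) * (Real.log p - Real.log q) -
      5 * (p / q) ^ 2 + 4 * (p / q) + 1) := mul_nonneg (sq_nonneg q) h
  have h2 : q ^ 2 * ((4 * (p / q) + 2 * (p / q) ^ 2) * (Real.log p - Real.log q) -
      5 * (p / q) ^ 2 + 4 * (p / q) + 1) = (4 * p * q + 2 * p ^ 2) * (Real.log p - Real.log q) -
      5 * p ^ 2 + 4 * p * q + q ^ 2 := by
    field_simp
  rw [h2] at h1
  rw [sq_abs]
  nlinarith

lemma g_nonneg {p q : ℝ} (hp : 0 < p) (hq : 0 < q) :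
    0 ≤ p * (Real.log p - Real.log q) - p + q := by
  have h := Real.log_le_sub_one_of_pos (div_pos hq hp)
  rw [Real.log_div hq.ne' hp.ne'] at h
  have h1 : p * (Real.log q - Real.log p) ≤ p * (q / p - 1) :=
    mul_le_mul_of_nonneg_left h hp.le
  have h2 : p * (q / p - 1) = q - p := by
    field_simp
  linarith

/-- **Pinsker**. -/
theorem pinsker {S : Type*} (T : Finset S) (p q : S → ℝ) (hp : ∀ s ∈ T, 0 ≤ p s)
    (hq : ∀ s ∈ T, 0 ≤ q s) (h0 : ∀ s ∈ T, (p s = 0 ↔ q s = 0)) (sp : ∑ s ∈ T, p s = 1)
    (sq : ∑ s ∈ T, q s = 1) :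
    (∑ s ∈ T, |p s - q s|) ^ 2 ≤ 2 * ∑ s ∈ T, p s * (Real.log (p s) - Real.log (q s)) := by
  have h1 := Finset.sum_sq_le_sum_mul_sum_of_sq_le_mul T (r := fun s => |p s - q s|)
    (f := fun s => (2 * p s + 4 * q s) / 3)
    (g := fun s => p s * (Real.log (p s) - Real.log (q s)) - p s + q s)
    (fun s hs => by
      have := hp s hs
      have := hq s hs
      positivity)
    (fun s hs => by
      rcases (hp s hs).eq_or_lt with h | h
      · have h' := (h0 s hs).mp h.symm
        simp only [← h, h']
        simp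
      · have h' : 0 < q s := lt_of_le_of_ne (hq s hs) fun e => h.ne' ((h0 s hs).mpr e.symm)
        exact g_nonneg h h')
    (fun s hs => by
      rcases (hp s hs).eq_or_lt with h | h
      · have h' := (h0 s hs).mp h.symm
        simp only [← h, h']
        simp
      · have h' : 0 < q s := lt_of_le_of_ne (hq s hs) fun e => h.ne' ((h0 s hs).mpr e.symm)
        exact pt h h')
  refine h1.trans (le_of_eq ?_)
  have e1 : ∑ s ∈ T, (2 * p s + 4 * q s) / 3 = 2 := by
    rw [← Finset.sum_div, Finset.sum_add_distrib, ← Finset.mul_sum, ← Finset.mul_sum, sp, sq]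
    norm_num
  have e2 : ∑ s ∈ T, (p s * (Real.log (p s) - Real.log (q s)) - p s + q s) =
      ∑ s ∈ T, p s * (Real.log (p s) - Real.log (q s)) := by
    rw [Finset.sum_add_distrib, Finset.sum_sub_distrib, sp, sq]
    ring
  rw [e1, e2]

/-! ### Coarse classes -/

section Fib

variable {S A : Type} [Fintype S] [Fintype A]

open Classical in
/-- The mass of the class `a`. -/
noncomputable def ms (f : S → A) (p : S → ℝ) (a : A) : ℝ := ∑ s, if f s = a then p s else 0

omit [Fintype A] in
lemma ms_nonneg (f : S → A) {p : S → ℝ} (hp : ∀ s, 0 ≤ p s) (a : A) : 0 ≤ ms f p a := by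
  classical
  unfold ms
  refine Finset.sum_nonneg fun s _ => ?_
  split_ifs
  · exact hp s
  · exact le_rfl

omit [Fintype A] in
lemma le_ms (f : S → A) {p : S → ℝ} (hp : ∀ s, 0 ≤ p s) (s : S) : p s ≤ ms f p (f s) := by
  classical
  unfold ms
  have h := Finset.single_le_sum (f := fun t => if f t = f s then p t else 0)
    (fun t _ => by
      show 0 ≤ (if f t = f s then p t else 0)
      split_ifs
      · exact hp t
      · exact le_rfl) (Finset.mem_univ s)
  simpa using h

lemma sum_ms (f : S → A) (p : S → ℝ) : ∑ a, ms f p a = ∑ s, p s := by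
  classical
  unfold ms
  rw [Finset.sum_comm]
  refine Finset.sum_congr rfl fun s _ => ?_
  simp

omit [Fintype A] in
open Classical in
lemma fib (f : S → A) (p q : S → ℝ) (hp : ∀ s, 0 ≤ p s) (hq : ∀ s, 0 ≤ q s)
    (h0 : ∀ s, (p s = 0 ↔ q s = 0)) (a : A) :
    ms f p a * (∑ s, if f s = a then |p s / ms f p a - q s / ms f q a| else 0) ^ 2 ≤
      2 * ((∑ s, if f s = a then p s * (Real.log (p s) - Real.log (q s)) else 0) -
        ms f p a * (Real.log (ms f p a) - Real.log (ms f q a))) := by
  rcases (ms_nonneg f hp a).eq_or_lt with h | h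
  · rw [← h]
    have h1 : ∀ s, (if f s = a then p s * (Real.log (p s) - Real.log (q s)) else 0) = 0 := by
      intro s
      split_ifs with hs
      · have h2 := le_ms f hp s
        rw [hs, ← h] at h2
        rw [le_antisymm h2 (hp s)]
        ring
      · rfl
    rw [Finset.sum_congr rfl fun s _ => h1 s]
    simp
  · have h' : 0 < ms f q a := by
      refine lt_of_le_of_ne (ms_nonneg f hq a) fun e => h.ne' ?_
      unfold ms
      refine Finset.sum_eq_zero fun s _ => ?_
      split_ifs with hs
      · have h2 := le_ms f hq s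
        rw [hs, ← e] at h2
        exact (h0 s).mpr (le_antisymm h2 (hq s))
      · rfl
    set P := ms f p a with hP
    set Q := ms f q a with hQ
    have k1 := pinsker (Finset.univ.filter fun s => f s = a) (fun s => p s / P)
      (fun s => q s / Q) (fun s _ => div_nonneg (hp s) h.le)
      (fun s _ => div_nonneg (hq s) h'.le)
      (fun s _ => by
        rw [div_eq_zero_iff, div_eq_zero_iff]
        constructor
        · rintro (e | e)
          · exact Or.inl ((h0 s).mp e)
          · exact absurd e h.ne'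
        · rintro (e | e)
          · exact Or.inl ((h0 s).mpr e)
          · exact absurd e h'.ne')
      (by
        rw [← Finset.sum_div, Finset.sum_filter]
        exact div_self h.ne')
      (by
        rw [← Finset.sum_div, Finset.sum_filter]
        exact div_self h'.ne')
    rw [Finset.sum_filter, Finset.sum_filter] at k1
    have k2 := mul_le_mul_of_nonneg_left k1 h.le
    refine k2.trans (le_of_eq ?_)
    have e1 : ∀ s, (if f s = a then p s / P * (Real.log (p s / P) - Real.log (q s / Q)) else 0) =
        P⁻¹ * ((if f s = a then p s * (Real.log (p s) - Real.log (q s)) else 0) -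
          (if f s = a then p s else 0) * (Real.log P - Real.log Q)) := by
      intro s
      split_ifs with hs
      · rcases (hp s).eq_or_lt with h2 | h2
        · rw [← h2]
          simp
        · have h3 : 0 < q s := lt_of_le_of_ne (hq s) fun e => h2.ne' ((h0 s).mpr e.symm)
          rw [Real.log_div h2.ne' h.ne', Real.log_div h3.ne' h'.ne']
          ring
      · ring
    rw [Finset.sum_congr rfl fun s _ => e1 s, ← Finset.mul_sum, Finset.sum_sub_distrib,
      ← Finset.sum_mul]
    have e2 : ∑ s, (if f s = a then p s else 0) = P := rfl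
    rw [e2]
    field_simp

open Classical in
/-- The chain rule with Pinsker. -/
theorem chain (f : S → A) (p q : S → ℝ) (hp : ∀ s, 0 ≤ p s) (hq : ∀ s, 0 ≤ q s)
    (h0 : ∀ s, (p s = 0 ↔ q s = 0)) :
    ∑ a, ms f p a * (∑ s, if f s = a then |p s / ms f p a - q s / ms f q a| else 0) ^ 2 ≤
      2 * ((∑ s, p s * (Real.log (p s) - Real.log (q s))) -
        ∑ a, ms f p a * (Real.log (ms f p a) - Real.log (ms f q a))) := by
  refine (Finset.sum_le_sum fun a _ => fib f p q hp hq h0 a).trans (le_of_eq ?_)
  rw [← Finset.mul_sum, Finset.sum_sub_distrib]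
  congr 2
  exact sum_ms f fun s => p s * (Real.log (p s) - Real.log (q s))

/-- Relative entropy is nonnegative. -/
theorem kl_nonneg (p q : S → ℝ) (hp : ∀ s, 0 ≤ p s) (hq : ∀ s, 0 ≤ q s)
    (h0 : ∀ s, (p s = 0 ↔ q s = 0)) (sp : ∑ s, p s = 1) (sq : ∑ s, q s = 1) :
    0 ≤ ∑ s, p s * (Real.log (p s) - Real.log (q s)) := by
  have h := pinsker Finset.univ p q (fun s _ => hp s) (fun s _ => hq s) (fun s _ => h0 s) sp sq
  have h1 := sq_nonneg (∑ s, |p s - q s|)
  linarith

end Fib

/-! ### Resampling one coordinate -/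

theorem mp_upd {Ω : Type} [MeasurableSpace Ω] {k : ℕ} (P : Measure Ω) [IsProbabilityMeasure P]
    (i : Fin k) : MeasurePreserving (fun w : (Fin k → Ω) × Ω => Function.update w.1 i w.2)
      ((Measure.pi fun _ : Fin k => P).prod P) (Measure.pi fun _ : Fin k => P) := by
  refine ⟨measurable_update', ?_⟩
  symm
  refine Measure.pi_eq fun s hs => ?_
  rw [Measure.map_apply measurable_update' (MeasurableSet.univ_pi hs)]
  have e1 : (fun w : (Fin k → Ω) × Ω => Function.update w.1 i w.2) ⁻¹' (Set.univ.pi s) =
      (Set.univ.pi (Function.update s i Set.univ)) ×ˢ (s i) := by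
    ext w
    simp only [Set.mem_preimage, Set.mem_pi, Set.mem_univ, forall_const, Set.mem_prod]
    constructor
    · intro h
      constructor
      · intro j
        by_cases hj : j = i
        · subst hj
          simp
        · have := h j
          rw [Function.update_of_ne hj] at this ⊢
          exact this
      · have := h i
        rw [Function.update_self] at this
        exact this
    · rintro ⟨h1, h2⟩ j
      by_cases hj : j = i
      · subst hj
        rw [Function.update_self]
        exact h2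
      · have := h1 j
        rw [Function.update_of_ne hj] at this ⊢
        exact this
  rw [e1, Measure.prod_prod, Measure.pi_pi]
  have e2 : ∀ j, P (Function.update s i Set.univ j) =
      Function.update (fun j => P (s j)) i 1 j := by
    intro j
    by_cases hj : j = i
    · subst hj
      simp
    · rw [Function.update_of_ne hj, Function.update_of_ne hj]
  rw [Finset.prod_congr rfl fun j _ => e2 j, Finset.prod_update_of_mem (Finset.mem_univ i),
    one_mul, mul_comm, ← Finset.prod_erase_mul Finset.univ _ (Finset.mem_univ i), mul_comm,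
    Finset.sdiff_singleton_eq_erase]

/-! ### The selection model -/

section Mod

variable {Ω S A : Type} [MeasurableSpace Ω] [Fintype S] [Fintype A] {k : ℕ} {P : Measure Ω}
  [IsProbabilityMeasure P] {Q : S → ℝ} {u : Fin k → S → Ω → ℝ} {B : ℝ}

omit [IsProbabilityMeasure P] in
lemma u_pos (h : HT P Q u B) (i : Fin k) (s : S) (x : Ω) : 0 < u i s x :=
  (Real.exp_pos _).trans_le (h.lo i s x)

omit [IsProbabilityMeasure P] in
lemma logu_abs (h : HT P Q u B) (i : Fin k) (s : S) (x : Ω) : |Real.log (u i s x)| ≤ B := by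
  rw [abs_le]
  constructor
  · rw [← Real.log_exp (-B)]
    exact Real.log_le_log (Real.exp_pos _) (h.lo i s x)
  · rw [← Real.log_exp B]
    exact Real.log_le_log (u_pos h i s x) (h.hi i s x)

omit [IsProbabilityMeasure P] in
lemma wT_bds (h : HT P Q u B) (ω : Fin k → Ω) (s : S) :
    Q s * Real.exp (-(B * k)) ≤ wT Q u ω s ∧ wT Q u ω s ≤ Q s * Real.exp (B * k) := by
  unfold wT
  constructor
  · refine mul_le_mul_of_nonneg_left ?_ (h.q0 s)
    have h1 : ∏ _i : Fin k, Real.exp (-B) ≤ ∏ i, u i s (ω i) :=
      Finset.prod_le_prod (fun i _ => (Real.exp_pos _).le) (fun i _ => h.lo i s (ω i))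
    rw [Finset.prod_const, Finset.card_univ, Fintype.card_fin, ← Real.exp_nat_mul] at h1
    refine le_trans (le_of_eq ?_) h1
    congr 1
    ring
  · refine mul_le_mul_of_nonneg_left ?_ (h.q0 s)
    have h1 : ∏ i, u i s (ω i) ≤ ∏ _i : Fin k, Real.exp B :=
      Finset.prod_le_prod (fun i _ => (u_pos h i s _).le) (fun i _ => h.hi i s (ω i))
    rw [Finset.prod_const, Finset.card_univ, Fintype.card_fin, ← Real.exp_nat_mul] at h1
    refine h1.trans (le_of_eq ?_)
    congr 1
    ring

omit [IsProbabilityMeasure P] in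
lemma dT_bds (h : HT P Q u B) (ω : Fin k → Ω) :
    Real.exp (-(B * k)) ≤ dT Q u ω ∧ dT Q u ω ≤ Real.exp (B * k) := by
  unfold dT
  constructor
  · refine le_trans (le_of_eq ?_) (Finset.sum_le_sum fun s _ => (wT_bds h ω s).1)
    rw [← Finset.sum_mul, h.q1, one_mul]
  · refine (Finset.sum_le_sum fun s _ => (wT_bds h ω s).2).trans (le_of_eq ?_)
    rw [← Finset.sum_mul, h.q1, one_mul]

omit [IsProbabilityMeasure P] in
lemma dT_pos (h : HT P Q u B) (ω : Fin k → Ω) : 0 < dT Q u ω :=
  (Real.exp_pos _).trans_le (dT_bds h ω).1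

omit [IsProbabilityMeasure P] in
lemma logd_abs (h : HT P Q u B) (ω : Fin k → Ω) : |Real.log (dT Q u ω)| ≤ B * k := by
  rw [abs_le]
  constructor
  · rw [← Real.log_exp (-(B * k))]
    exact Real.log_le_log (Real.exp_pos _) (dT_bds h ω).1
  · rw [← Real.log_exp (B * k)]
    exact Real.log_le_log (dT_pos h ω) (dT_bds h ω).2

omit [IsProbabilityMeasure P] in
lemma wT_nonneg (h : HT P Q u B) (ω : Fin k → Ω) (s : S) : 0 ≤ wT Q u ω s :=
  mul_nonneg (h.q0 s) (Finset.prod_nonneg fun i _ => (u_pos h i s _).le)

omit [IsProbabilityMeasure P] in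
lemma prT_nonneg (h : HT P Q u B) (ω : Fin k → Ω) (s : S) : 0 ≤ prT Q u ω s :=
  div_nonneg (wT_nonneg h ω s) (dT_pos h ω).le

omit [IsProbabilityMeasure P] in
lemma prT_sum (h : HT P Q u B) (ω : Fin k → Ω) : ∑ s, prT Q u ω s = 1 := by
  unfold prT
  rw [← Finset.sum_div]
  exact div_self (dT_pos h ω).ne'

omit [IsProbabilityMeasure P] in
lemma prT_le_one (h : HT P Q u B) (ω : Fin k → Ω) (s : S) : prT Q u ω s ≤ 1 := by
  rw [← prT_sum h ω]
  exact Finset.single_le_sum (fun t _ => prT_nonneg h ω t) (Finset.mem_univ s)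

omit [IsProbabilityMeasure P] in
lemma prT_zero (h : HT P Q u B) (ω : Fin k → Ω) (s : S) : prT Q u ω s = 0 ↔ Q s = 0 := by
  unfold prT wT
  rw [div_eq_zero_iff, mul_eq_zero]
  constructor
  · rintro ((e | e) | e)
    · exact e
    · exact absurd e (Finset.prod_pos fun i _ => u_pos h i s _).ne'
    · exact absurd e (dT_pos h ω).ne'
  · intro e
    exact Or.inl (Or.inl e)

omit [IsProbabilityMeasure P] in
lemma prT_le_exp (h : HT P Q u B) (ω ω' : Fin k → Ω) (s : S) :
    prT Q u ω s ≤ Real.exp (4 * B * k) * prT Q u ω' s := by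
  unfold prT
  rw [← mul_div_assoc, div_le_div_iff₀ (dT_pos h ω) (dT_pos h ω')]
  have h1 := (wT_bds h ω s).2
  have h2 := (dT_bds h ω').2
  have h3 := (wT_bds h ω' s).1
  have h4 := (dT_bds h ω).1
  have e0 := h.q0 s
  calc wT Q u ω s * dT Q u ω' ≤ (Q s * Real.exp (B * k)) * Real.exp (B * k) :=
        mul_le_mul h1 h2 (dT_pos h ω').le (mul_nonneg e0 (Real.exp_pos _).le)
    _ = Real.exp (4 * B * k) * (Q s * Real.exp (-(B * k))) * Real.exp (-(B * k)) := by
        have e1 : Real.exp (4 * B * k) = Real.exp (B * k) * Real.exp (B * k) *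
            (Real.exp (B * k) * Real.exp (B * k)) := by
          rw [← Real.exp_add, ← Real.exp_add]
          congr 1
          ring
        have e2 : Real.exp (B * k) * Real.exp (-(B * k)) = 1 := by
          rw [← Real.exp_add]
          simp
        rw [e1]
        linear_combination (-(Q s * Real.exp (B * k) * Real.exp (B * k)) *
          (Real.exp (B * k) * Real.exp (-(B * k)) + 1)) * e2
    _ ≤ Real.exp (4 * B * k) * wT Q u ω' s * dT Q u ω := by
        refine mul_le_mul (mul_le_mul_of_nonneg_left h3 (Real.exp_pos _).le) h4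
          (Real.exp_pos _).le (mul_nonneg (Real.exp_pos _).le (wT_nonneg h ω' s))

omit [IsProbabilityMeasure P] in
lemma meas_wT (h : HT P Q u B) (s : S) : Measurable fun ω : Fin k → Ω => wT Q u ω s := by
  unfold wT
  exact (Finset.measurable_prod _ fun i _ => (h.um i s).comp (measurable_pi_apply i)).const_mul _

omit [IsProbabilityMeasure P] in
lemma meas_dT (h : HT P Q u B) : Measurable fun ω : Fin k → Ω => dT Q u ω := by
  unfold dT
  exact Finset.measurable_sum _ fun s _ => meas_wT h s

omit [IsProbabilityMeasure P] in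
lemma meas_prT (h : HT P Q u B) (s : S) : Measurable fun ω : Fin k → Ω => prT Q u ω s :=
  (meas_wT h s).div (meas_dT h)

omit [MeasurableSpace Ω] [Fintype A] in
lemma clT_eq (f : S → A) (ω : Fin k → Ω) (a : A) : clT f Q u ω a = ms f (prT Q u ω) a := rfl

omit [IsProbabilityMeasure P] [Fintype A] in
lemma meas_clT (h : HT P Q u B) (f : S → A) (a : A) :
    Measurable fun ω : Fin k → Ω => clT f Q u ω a := by
  classical
  unfold clT
  refine Finset.measurable_sum _ fun s _ => ?_
  split_ifs
  · exact meas_prT h s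
  · exact measurable_const

omit [IsProbabilityMeasure P] in
/-- The pointwise identity. -/
lemma kl_pt (h : HT P Q u B) (i : Fin k) (ω : Fin k → Ω) (x : Ω) :
    ∑ s, prT Q u ω s * (Real.log (prT Q u ω s) -
      Real.log (prT Q u (Function.update ω i x) s)) =
    (∑ s, prT Q u ω s * (Real.log (u i s (ω i)) - Real.log (u i s x))) -
      (Real.log (dT Q u ω) - Real.log (dT Q u (Function.update ω i x))) := by
  have e1 : ∀ s, prT Q u ω s * (Real.log (prT Q u ω s) -
      Real.log (prT Q u (Function.update ω i x) s)) =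
      prT Q u ω s * (Real.log (u i s (ω i)) - Real.log (u i s x)) -
        prT Q u ω s * (Real.log (dT Q u ω) - Real.log (dT Q u (Function.update ω i x))) := by
    intro s
    rcases (h.q0 s).eq_or_lt with h0 | h0
    · rw [(prT_zero h ω s).mpr h0.symm]
      ring
    · have hl : ∀ ω' : Fin k → Ω, Real.log (prT Q u ω' s) =
          Real.log (Q s) + ∑ j, Real.log (u j s (ω' j)) - Real.log (dT Q u ω') := by
        intro ω'
        have h1 : 0 < ∏ j, u j s (ω' j) := Finset.prod_pos fun j _ => u_pos h j s _
        unfold prT wT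
        rw [Real.log_div (mul_pos h0 h1).ne' (dT_pos h ω').ne', Real.log_mul h0.ne' h1.ne',
          Real.log_prod fun j _ => (u_pos h j s _).ne']
      have e2 : ∑ j, Real.log (u j s (ω j)) -
          ∑ j, Real.log (u j s (Function.update ω i x j)) =
          Real.log (u i s (ω i)) - Real.log (u i s x) := by
        rw [← Finset.sum_sub_distrib, Finset.sum_eq_single i]
        · rw [Function.update_self]
        · intro j _ hj
          rw [Function.update_of_ne hj, sub_self]
        · intro hi
          exact absurd (Finset.mem_univ i) hi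
      rw [hl ω, hl (Function.update ω i x)]
      linear_combination (prT Q u ω s) * e2
  rw [Finset.sum_congr rfl fun s _ => e1 s, Finset.sum_sub_distrib, ← Finset.sum_mul,
    prT_sum h ω, one_mul]

/-- The relative entropy of the classes. -/
noncomputable def KS (Q : S → ℝ) (u : Fin k → S → Ω → ℝ) (i : Fin k)
    (w : (Fin k → Ω) × Ω) : ℝ :=
  ∑ s, prT Q u w.1 s * (Real.log (prT Q u w.1 s) -
    Real.log (prT Q u (Function.update w.1 i w.2) s))

/-- The relative entropy of the coarse classes. -/
noncomputable def KA (f : S → A) (Q : S → ℝ) (u : Fin k → S → Ω → ℝ) (i : Fin k)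
    (w : (Fin k → Ω) × Ω) : ℝ :=
  ∑ a, clT f Q u w.1 a * (Real.log (clT f Q u w.1 a) -
    Real.log (clT f Q u (Function.update w.1 i w.2) a))

open Classical in
/-- The mean square distance of the conditional laws. -/
noncomputable def LA (f : S → A) (Q : S → ℝ) (u : Fin k → S → Ω → ℝ) (i : Fin k)
    (w : (Fin k → Ω) × Ω) : ℝ :=
  ∑ a, clT f Q u w.1 a * (∑ s, if f s = a then
    |prT Q u w.1 s / clT f Q u w.1 a - prT Q u (Function.update w.1 i w.2) s /
      clT f Q u (Function.update w.1 i w.2) a| else 0) ^ 2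

omit [IsProbabilityMeasure P] in
lemma meas_KS (h : HT P Q u B) (i : Fin k) : Measurable (KS Q u i) := by
  unfold KS
  refine Finset.measurable_sum _ fun s _ => ?_
  have h1 : Measurable fun w : (Fin k → Ω) × Ω => prT Q u w.1 s :=
    (meas_prT h s).comp measurable_fst
  have h2 : Measurable fun w : (Fin k → Ω) × Ω => prT Q u (Function.update w.1 i w.2) s :=
    (meas_prT h s).comp measurable_update'
  exact h1.mul (h1.log.sub h2.log)

omit [IsProbabilityMeasure P] in
lemma meas_KA (h : HT P Q u B) (f : S → A) (i : Fin k) : Measurable (KA f Q u i) := by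
  unfold KA
  refine Finset.measurable_sum _ fun a _ => ?_
  have h1 : Measurable fun w : (Fin k → Ω) × Ω => clT f Q u w.1 a :=
    (meas_clT h f a).comp measurable_fst
  have h2 : Measurable fun w : (Fin k → Ω) × Ω => clT f Q u (Function.update w.1 i w.2) a :=
    (meas_clT h f a).comp measurable_update'
  exact h1.mul (h1.log.sub h2.log)

omit [IsProbabilityMeasure P] in
lemma meas_LA (h : HT P Q u B) (f : S → A) (i : Fin k) : Measurable (LA f Q u i) := by
  classical
  unfold LA
  refine Finset.measurable_sum _ fun a _ => ?_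
  have h1 : Measurable fun w : (Fin k → Ω) × Ω => clT f Q u w.1 a :=
    (meas_clT h f a).comp measurable_fst
  have h2 : Measurable fun w : (Fin k → Ω) × Ω => clT f Q u (Function.update w.1 i w.2) a :=
    (meas_clT h f a).comp measurable_update'
  refine h1.mul (Measurable.pow_const ?_ 2)
  refine Finset.measurable_sum _ fun s _ => ?_
  have h3 : Measurable fun w : (Fin k → Ω) × Ω => prT Q u w.1 s :=
    (meas_prT h s).comp measurable_fst
  have h4 : Measurable fun w : (Fin k → Ω) × Ω => prT Q u (Function.update w.1 i w.2) s :=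
    (meas_prT h s).comp measurable_update'
  split_ifs
  · exact ((h3.div h1).sub (h4.div h2)).abs
  · exact measurable_const

omit [IsProbabilityMeasure P] in
lemma KS_le (h : HT P Q u B) (i : Fin k) (w : (Fin k → Ω) × Ω) :
    KS Q u i w ≤ 2 * B + 2 * (B * k) := by
  unfold KS
  rw [kl_pt h]
  have h1 : ∑ s, prT Q u w.1 s * (Real.log (u i s (w.1 i)) - Real.log (u i s w.2)) ≤
      ∑ s, prT Q u w.1 s * (2 * B) := by
    refine Finset.sum_le_sum fun s _ => mul_le_mul_of_nonneg_left ?_ (prT_nonneg h _ s)
    have a1 := (abs_le.mp (logu_abs h i s (w.1 i))).2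
    have a2 := (abs_le.mp (logu_abs h i s w.2)).1
    linarith
  rw [← Finset.sum_mul, prT_sum h, one_mul] at h1
  have a1 := (abs_le.mp (logd_abs h w.1)).1
  have a2 := (abs_le.mp (logd_abs h (Function.update w.1 i w.2))).2
  linarith

omit [IsProbabilityMeasure P] in
lemma LA_le (h : HT P Q u B) (f : S → A) (i : Fin k) (w : (Fin k → Ω) × Ω) :
    LA f Q u i w ≤ 2 * (KS Q u i w - KA f Q u i w) :=
  chain f _ _ (prT_nonneg h w.1) (prT_nonneg h _)
    (fun s => (prT_zero h _ s).trans (prT_zero h _ s).symm)

omit [IsProbabilityMeasure P] in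
lemma LA_nonneg (h : HT P Q u B) (f : S → A) (i : Fin k) (w : (Fin k → Ω) × Ω) :
    0 ≤ LA f Q u i w :=
  Finset.sum_nonneg fun a _ => mul_nonneg (ms_nonneg f (prT_nonneg h w.1) a) (sq_nonneg _)

omit [IsProbabilityMeasure P] in
lemma KA_nonneg (h : HT P Q u B) (f : S → A) (i : Fin k) (w : (Fin k → Ω) × Ω) :
    0 ≤ KA f Q u i w := by
  unfold KA
  refine kl_nonneg (clT f Q u w.1) (clT f Q u (Function.update w.1 i w.2))
    (fun a => ms_nonneg f (prT_nonneg h _) a) (fun a => ms_nonneg f (prT_nonneg h _) a) ?_ ?_ ?_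
  · have h1 : ∀ ω ω' : Fin k → Ω, ∀ a, clT f Q u ω a = 0 → clT f Q u ω' a = 0 := by
      classical
      intro ω ω' a ha
      rw [clT_eq] at ha ⊢
      unfold ms
      refine Finset.sum_eq_zero fun s _ => ?_
      split_ifs with hs
      · have h2 := le_ms f (prT_nonneg h ω) s
        rw [hs, ha] at h2
        exact (prT_zero h ω' s).mpr ((prT_zero h ω s).mp (le_antisymm h2 (prT_nonneg h ω s)))
      · rfl
    exact fun a => ⟨h1 _ _ a, h1 _ _ a⟩
  · exact (sum_ms f _).trans (prT_sum h _)
  · exact (sum_ms f _).trans (prT_sum h _)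

lemma int_KS (h : HT P Q u B) (i : Fin k) :
    Integrable (KS Q u i) ((Measure.pi fun _ : Fin k => P).prod P) := by
  refine Integrable.of_bound (meas_KS h i).aestronglyMeasurable (2 * B + 2 * (B * k))
    (ae_of_all _ fun w => ?_)
  rw [Real.norm_eq_abs, abs_of_nonneg]
  · exact KS_le h i w
  · have h1 := LA_le h (fun s => s) i w
    have h2 := LA_nonneg h (fun s => s) i w
    have h3 := KA_nonneg h (fun s => s) i w
    linarith

lemma int_KA (h : HT P Q u B) (f : S → A) (i : Fin k) :
    Integrable (KA f Q u i) ((Measure.pi fun _ : Fin k => P).prod P) := by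
  refine (int_KS h i).mono' (meas_KA h f i).aestronglyMeasurable (ae_of_all _ fun w => ?_)
  rw [Real.norm_eq_abs, abs_of_nonneg (KA_nonneg h f i w)]
  have h1 := LA_le h f i w
  have h2 := LA_nonneg h f i w
  linarith

lemma int_LA (h : HT P Q u B) (f : S → A) (i : Fin k) :
    Integrable (LA f Q u i) ((Measure.pi fun _ : Fin k => P).prod P) := by
  refine ((int_KS h i).const_mul 2).mono' (meas_LA h f i).aestronglyMeasurable
    (ae_of_all _ fun w => ?_)
  rw [Real.norm_eq_abs, abs_of_nonneg (LA_nonneg h f i w)]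
  have h1 := LA_le h f i w
  have h2 := KA_nonneg h f i w
  linarith

lemma int_logu (h : HT P Q u B) (i : Fin k) (s : S) :
    Integrable (fun x => Real.log (u i s x)) P :=
  Integrable.of_bound (h.um i s).log.aestronglyMeasurable B
    (ae_of_all _ fun x => by rw [Real.norm_eq_abs]; exact logu_abs h i s x)

lemma int_logd (h : HT P Q u B) :
    Integrable (fun ω : Fin k → Ω => Real.log (dT Q u ω)) (Measure.pi fun _ : Fin k => P) :=
  Integrable.of_bound (meas_dT h).log.aestronglyMeasurable (B * k)
    (ae_of_all _ fun x => by rw [Real.norm_eq_abs]; exact logd_abs h x)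

end Mod

end P85

open P85

section Thm

variable {Ω S A : Type} [MeasurableSpace Ω] [Fintype S] [Fintype A] {k : ℕ} {P : Measure Ω}
  [IsProbabilityMeasure P] {Q : S → ℝ} {u : Fin k → S → Ω → ℝ} {B : ℝ}

/-- **S1**: the selection of one row is the relative entropy under resampling of the row. -/
theorem klrow85 (h : HT P Q u B) (i : Fin k) :
    kaT P Q u i = ∫ ω, ∫ x, ∑ s, prT Q u ω s * (Real.log (prT Q u ω s) -
      Real.log (prT Q u (Function.update ω i x) s)) ∂P ∂(Measure.pi fun _ => P) := by
  have hmp := mp_upd P i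
  have hpr : ∀ s, Integrable (fun ω : Fin k → Ω => prT Q u ω s * Real.log (u i s (ω i)))
      (Measure.pi fun _ : Fin k => P) := by
    intro s
    refine Integrable.of_bound ((meas_prT h s).mul
      ((h.um i s).comp (measurable_pi_apply i)).log).aestronglyMeasurable B
      (ae_of_all _ fun ω => ?_)
    rw [Real.norm_eq_abs, abs_mul, abs_of_nonneg (prT_nonneg h ω s)]
    have h1 := prT_le_one h ω s
    have h2 := logu_abs h i s (ω i)
    calc _ ≤ 1 * B := mul_le_mul h1 h2 (abs_nonneg _) zero_le_one
      _ = B := one_mul B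
  have hpc : ∀ s (c : ℝ), Integrable (fun ω : Fin k → Ω => prT Q u ω s * c)
      (Measure.pi fun _ : Fin k => P) := by
    intro s c
    refine Integrable.mul_const ?_ c
    refine Integrable.of_bound (meas_prT h s).aestronglyMeasurable 1 (ae_of_all _ fun ω => ?_)
    rw [Real.norm_eq_abs, abs_of_nonneg (prT_nonneg h ω s)]
    exact prT_le_one h ω s
  have e1 : ∀ ω : Fin k → Ω, ∫ x, ∑ s, prT Q u ω s * (Real.log (prT Q u ω s) -
      Real.log (prT Q u (Function.update ω i x) s)) ∂P =
      (∑ s, prT Q u ω s * (Real.log (u i s (ω i)) - psT P u i s)) -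
        (Real.log (dT Q u ω) - ∫ x, Real.log (dT Q u (Function.update ω i x)) ∂P) := by
    intro ω
    have hd : Integrable (fun x => Real.log (dT Q u (Function.update ω i x))) P :=
      Integrable.of_bound ((meas_dT h).comp (measurable_update ω)).log.aestronglyMeasurable
        (B * k) (ae_of_all _ fun x => by rw [Real.norm_eq_abs]; exact logd_abs h _)
    have hs : ∀ s, Integrable (fun x => prT Q u ω s * (Real.log (u i s (ω i)) -
        Real.log (u i s x))) P := fun s =>
      ((integrable_const _).sub (int_logu h i s)).const_mul _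
    have hsub : Integrable (fun x => Real.log (dT Q u ω) -
        Real.log (dT Q u (Function.update ω i x))) P := (integrable_const _).sub hd
    rw [integral_congr_ae (ae_of_all _ fun x => kl_pt h i ω x),
      integral_sub (integrable_finsetSum _ fun s _ => hs s) hsub,
      integral_sub (integrable_const _) hd, integral_finsetSum _ fun s _ => hs s]
    congr 1
    · refine Finset.sum_congr rfl fun s _ => ?_
      rw [integral_const_mul, integral_sub (integrable_const _) (int_logu h i s)]
      simp [psT]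
    · simp
  rw [integral_congr_ae (ae_of_all _ e1)]
  have hE : Integrable (fun ω : Fin k → Ω => ∫ x, Real.log (dT Q u (Function.update ω i x)) ∂P)
      (Measure.pi fun _ : Fin k => P) :=
    (hmp.integrable_comp_of_integrable (int_logd h)).integral_prod_left
  have hS : Integrable (fun ω : Fin k → Ω => ∑ s, prT Q u ω s * (Real.log (u i s (ω i)) -
      psT P u i s)) (Measure.pi fun _ : Fin k => P) := by
    refine integrable_finsetSum _ fun s _ => ?_
    have := (hpr s).sub (hpc s (psT P u i s))
    refine this.congr (ae_of_all _ fun ω => ?_)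
    simp only [Pi.sub_apply]
    ring
  have hsub : Integrable (fun ω : Fin k → Ω => Real.log (dT Q u ω) -
      ∫ x, Real.log (dT Q u (Function.update ω i x)) ∂P) (Measure.pi fun _ : Fin k => P) :=
    (int_logd h).sub hE
  rw [integral_sub hS hsub, integral_sub (int_logd h) hE]
  have e2 : ∫ ω, ∫ x, Real.log (dT Q u (Function.update ω i x)) ∂P
      ∂(Measure.pi fun _ : Fin k => P) =
      ∫ ω, Real.log (dT Q u ω) ∂(Measure.pi fun _ : Fin k => P) := by
    rw [← integral_prod (fun w : (Fin k → Ω) × Ω => Real.log (dT Q u (Function.update w.1 i w.2)))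
      (hmp.integrable_comp_of_integrable (int_logd h))]
    have h1 := integral_map (f := fun ω : Fin k → Ω => Real.log (dT Q u ω))
      hmp.measurable.aemeasurable (μ := (Measure.pi fun _ : Fin k => P).prod P)
      (meas_dT h).log.aestronglyMeasurable
    rw [hmp.map_eq] at h1
    exact h1.symm
  rw [e2, sub_self, sub_zero]
  rfl

theorem kaT_eq (h : HT P Q u B) (i : Fin k) :
    kaT P Q u i = ∫ w, KS Q u i w ∂((Measure.pi fun _ : Fin k => P).prod P) := by
  rw [klrow85 h i, integral_prod _ (int_KS h i)]
  rfl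

theorem ouT_eq (h : HT P Q u B) (f : S → A) (i : Fin k) :
    ouT P f Q u i = ∫ w, KA f Q u i w ∂((Measure.pi fun _ : Fin k => P).prod P) := by
  rw [integral_prod _ (int_KA h f i)]
  rfl

/-- **S2** on the product space. -/
theorem pinT85' (h : HT P Q u B) (f : S → A) (i : Fin k) :
    ∫ w, LA f Q u i w ∂((Measure.pi fun _ : Fin k => P).prod P) ≤
      2 * (kaT P Q u i - ouT P f Q u i) := by
  rw [kaT_eq h i, ouT_eq h f i, ← integral_sub (int_KS h i) (int_KA h f i),
    ← integral_const_mul]
  exact integral_mono (int_LA h f i) (((int_KS h i).sub (int_KA h f i)).const_mul 2)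
    (fun w => LA_le h f i w)

open Classical in
/-- **S2**: Pinsker for the conditional laws. -/
theorem pinT85 (h : HT P Q u B) (f : S → A) (i : Fin k) :
    ∫ ω, ∫ x, ∑ a, clT f Q u ω a * (∑ s, if f s = a then
      |prT Q u ω s / clT f Q u ω a - prT Q u (Function.update ω i x) s /
        clT f Q u (Function.update ω i x) a| else 0) ^ 2 ∂P ∂(Measure.pi fun _ => P) ≤
      2 * (kaT P Q u i - ouT P f Q u i) := by
  have h1 := pinT85' h f i
  rw [integral_prod _ (int_LA h f i)] at h1
  exact h1

theorem ou_le85 (h : HT P Q u B) (f : S → A) (i : Fin k) : ouT P f Q u i ≤ kaT P Q u i := by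
  have h1 := pinT85' h f i
  have h2 : 0 ≤ ∫ w, LA f Q u i w ∂((Measure.pi fun _ : Fin k => P).prod P) :=
    integral_nonneg fun w => LA_nonneg h f i w
  linarith

theorem ou_nn85 (h : HT P Q u B) (f : S → A) (i : Fin k) : 0 ≤ ouT P f Q u i := by
  rw [ouT_eq h f i]
  exact integral_nonneg fun w => KA_nonneg h f i w

theorem ka_nn85 (h : HT P Q u B) (i : Fin k) : 0 ≤ kaT P Q u i :=
  (ou_nn85 h (fun s => s) i).trans (ou_le85 h (fun s => s) i)

end Thm

end Pool.Agent.W_7d29a1_NV
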