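import Pool.Agent.W_7d29a1_NV.Tel52
import Pool.Agent.W_7d29a1_NV.Pin85

/-!
Leaf T1 (`OneT`) of Theorem NV, closed.
-/

namespace Pool.Agent.W_7d29a1_NV

open MeasureTheory

theorem pin52 : Pin52 := by
  intro Ω S A _ _ _ k P _ Q u B f _ h i
  exact ⟨ou_le85 h f i, pinT85 h f i⟩

/-- Leaf T1. -/
theorem oneT : OneT := oneT52 pin52

end Pool.Agent.W_7d29a1_NV
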