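import Mathlib

/-!
Theorem NV: two pigeonhole lemmas and the numbers of the final assembly.
-/

namespace Pool.Agent.W_7d29a1_NV

/-- The plateau: a decreasing family of bounded functions has a scale and a row of places where
the differences are small. -/
lemma plat92 {f : ℕ → ℕ → ℝ} {M : ℝ} {a N k J : ℕ} {s : ℕ → ℕ} (hN : 1 ≤ N) (hJ : 1 ≤ J)
    (hs : ∀ j < J, s j * k ≤ N) (h0 : ∀ t < 2 * N, 0 ≤ f J (a + t))
    (hM : ∀ t < 2 * N, f 0 (a + t) ≤ M)
    (hanti : ∀ j < J, ∀ t < 2 * N, f (j + 1) (a + t) ≤ f j (a + t)) :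
    ∃ j < J, ∃ t0 < N, ∑ i ∈ Finset.range k,
      (f j (a + t0 + s j * i) - f (j + 1) (a + t0 + s j * i)) ≤ 2 * k * M / J := by
  have hN0 : (0 : ℝ) < N := by exact_mod_cast hN
  have hJ0 : (0 : ℝ) < J := by exact_mod_cast hJ
  -- the scale
  have h1 : ∑ j ∈ Finset.range J, ∑ t ∈ Finset.range (2 * N),
      (f j (a + t) - f (j + 1) (a + t)) ≤ ∑ _j ∈ Finset.range J, 2 * N * M / J := by
    rw [Finset.sum_comm]
    have h2 : ∀ t ∈ Finset.range (2 * N), ∑ j ∈ Finset.range J,
        (f j (a + t) - f (j + 1) (a + t)) ≤ M := by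
      intro t ht
      rw [Finset.mem_range] at ht
      rw [Finset.sum_range_sub' (fun j => f j (a + t))]
      have := h0 t ht
      have := hM t ht
      linarith
    refine (Finset.sum_le_sum h2).trans (le_of_eq ?_)
    rw [Finset.sum_const, Finset.sum_const, Finset.card_range, Finset.card_range, nsmul_eq_mul,
      nsmul_eq_mul]
    push_cast
    field_simp
  obtain ⟨j, hj, hj2⟩ := Finset.exists_le_of_sum_le
    (Finset.nonempty_range_iff.2 (by omega)) h1
  rw [Finset.mem_range] at hj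
  refine ⟨j, hj, ?_⟩
  -- the place
  set D : ℕ → ℝ := fun t => f j t - f (j + 1) t with hD
  have hD0 : ∀ t < 2 * N, 0 ≤ D (a + t) := fun t ht => by
    have := hanti j hj t ht
    simp only [hD]
    linarith
  have h3 : ∑ t0 ∈ Finset.range N, ∑ i ∈ Finset.range k, D (a + t0 + s j * i) ≤
      ∑ _t0 ∈ Finset.range N, 2 * k * M / J := by
    rw [Finset.sum_comm]
    have h4 : ∀ i ∈ Finset.range k, ∑ t0 ∈ Finset.range N, D (a + t0 + s j * i) ≤
        2 * N * M / J := by
      intro i hi
      rw [Finset.mem_range] at hi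
      refine le_trans ?_ hj2
      have h5 : s j * i ≤ N := (Nat.mul_le_mul_left _ hi.le).trans (hs j hj)
      have h6 : ∑ t0 ∈ Finset.range N, D (a + t0 + s j * i) =
          ∑ t ∈ (Finset.range N).map (addRightEmbedding (s j * i)), D (a + t) := by
        rw [Finset.sum_map]
        refine Finset.sum_congr rfl fun t _ => ?_
        simp only [addRightEmbedding_apply, add_assoc]
      rw [h6]
      refine Finset.sum_le_sum_of_subset_of_nonneg ?_ ?_
      · intro t ht
        rw [Finset.mem_map] at ht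
        obtain ⟨u, hu, rfl⟩ := ht
        rw [Finset.mem_range] at hu
        simp only [addRightEmbedding_apply, Finset.mem_range]
        omega
      · intro t ht _
        exact hD0 t (Finset.mem_range.1 ht)
    refine (Finset.sum_le_sum h4).trans (le_of_eq ?_)
    rw [Finset.sum_const, Finset.sum_const, Finset.card_range, Finset.card_range, nsmul_eq_mul,
      nsmul_eq_mul]
    ring
  obtain ⟨t0, ht0, ht1⟩ := Finset.exists_le_of_sum_le
    (Finset.nonempty_range_iff.2 (by omega)) h3
  exact ⟨t0, Finset.mem_range.1 ht0, ht1⟩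

lemma blocks92 (f : ℕ → ℝ) (q p : ℕ) : ∑ i ∈ Finset.range (q * p), f i =
    ∑ l ∈ Finset.range p, ∑ i ∈ Finset.range q, f (q * l + i) := by
  induction p with
  | zero => simp
  | succ p ih => rw [Nat.mul_succ, Finset.sum_range_add, ih, Finset.sum_range_succ]

/-- One of the blocks has a small sum. -/
lemma block92 {f : ℕ → ℝ} {s : ℝ} {q p : ℕ} (hp : 1 ≤ p)
    (h : ∑ i ∈ Finset.range (q * p), f i ≤ s * p) :
    ∃ l < p, ∑ i ∈ Finset.range q, f (q * l + i) ≤ s := by
  rw [blocks92] at h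
  have h2 : ∑ l ∈ Finset.range p, ∑ i ∈ Finset.range q, f (q * l + i) ≤
      ∑ _l ∈ Finset.range p, s := by
    rw [Finset.sum_const, Finset.card_range, nsmul_eq_mul]
    linarith
  obtain ⟨l, hl, hl2⟩ := Finset.exists_le_of_sum_le
    (Finset.nonempty_range_iff.2 (by omega)) h2
  exact ⟨l, Finset.mem_range.1 hl, hl2⟩

/-- The number of the rows for the random walk. -/
lemma rows92 {B c K : ℝ} (hB : 1 ≤ B) (hc : 0 < c) : ∃ q : ℕ, 1 ≤ q ∧
    2 * Real.sqrt K + 2 < c * q / (2 * B * Real.sqrt (q + 1)) := by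
  set R : ℝ := 4 * B * (2 * Real.sqrt K + 2) / c with hR
  have hR0 : 0 < R := by
    have := Real.sqrt_nonneg K
    positivity
  obtain ⟨q, hq⟩ := exists_nat_gt (R ^ 2 + 1)
  have hq1 : (1 : ℝ) < q := by nlinarith [sq_nonneg R]
  refine ⟨q, by exact_mod_cast hq1.le, ?_⟩
  have h1 : R < Real.sqrt q := by
    rw [Real.lt_sqrt hR0.le]
    linarith
  have h2 : Real.sqrt (q + 1) ≤ 2 * Real.sqrt q := by
    have h3 : (2 : ℝ) * Real.sqrt q = Real.sqrt (4 * q) := by
      rw [Real.sqrt_mul (by norm_num), show (4 : ℝ) = 2 ^ 2 by norm_num,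
        Real.sqrt_sq (by norm_num)]
    rw [h3]
    exact Real.sqrt_le_sqrt (by linarith)
  have h4 : 0 < Real.sqrt (q + 1) := Real.sqrt_pos.2 (by linarith)
  have h5 : 0 < Real.sqrt q := Real.sqrt_pos.2 (by linarith)
  have h6 : Real.sqrt q * Real.sqrt q = q := Real.mul_self_sqrt (by linarith)
  rw [lt_div_iff₀ (by positivity)]
  have h7 : 4 * B * (2 * Real.sqrt K + 2) = R * c := by
    rw [hR]
    field_simp
  have h8 := Real.sqrt_nonneg K
  calc (2 * Real.sqrt K + 2) * (2 * B * Real.sqrt (q + 1))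
      ≤ (2 * Real.sqrt K + 2) * (2 * B * (2 * Real.sqrt q)) := by
        refine mul_le_mul_of_nonneg_left ?_ (by linarith)
        exact mul_le_mul_of_nonneg_left h2 (by linarith)
    _ = R * c * Real.sqrt q := by rw [← h7]; ring
    _ < Real.sqrt q * c * Real.sqrt q := by
        refine mul_lt_mul_of_pos_right ?_ h5
        exact mul_lt_mul_of_pos_right h1 hc
    _ = c * q := by rw [mul_assoc, mul_comm c, ← mul_assoc, h6, mul_comm]

end Pool.Agent.W_7d29a1_NV
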