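import Mathlib

/-!
Finite relative entropy for classes of paths (Mathlib only).
`W` = finite set of paths, `f : W → α` = classification, `mass f p w` = `p`-mass of the class of `w`,
`kl f p q = ∑ w, p w * log (mass f p w / mass f q w)`.
-/

namespace Pool.Agent.W_7d29a1_NV.Kl38

open Finset

variable {W : Type*} [Fintype W] {α γ : Type*} [DecidableEq α] [DecidableEq γ]

/-- mass of the class of `w` -/
noncomputable def mass (f : W → α) (p : W → ℝ) (w : W) : ℝ :=
  ∑ v ∈ Finset.univ.filter (fun v => f v = f w), p v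

/-- relative entropy of the class laws -/
noncomputable def kl (f : W → α) (p q : W → ℝ) : ℝ :=
  ∑ w, p w * Real.log (mass f p w / mass f q w)

theorem mass_congr (f : W → α) (p : W → ℝ) {v w : W} (h : f v = f w) :
    mass f p v = mass f p w := by
  unfold mass; rw [h]

theorem le_mass (f : W → α) {p : W → ℝ} (hp : ∀ w, 0 ≤ p w) (w : W) : p w ≤ mass f p w := by
  unfold mass
  exact Finset.single_le_sum (f := p) (fun v _ => hp v) (by simp)

theorem mass_pos (f : W → α) {p : W → ℝ} (hp : ∀ w, 0 < p w) (w : W) : 0 < mass f p w :=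
  lt_of_lt_of_le (hp w) (le_mass f (fun v => (hp v).le) w)

theorem mass_nonneg (f : W → α) {p : W → ℝ} (hp : ∀ w, 0 ≤ p w) (w : W) : 0 ≤ mass f p w :=
  (hp w).trans (le_mass f hp w)

/-- the mass of a class in terms of the whole sum -/
theorem mass_le_sum (f : W → α) {p : W → ℝ} (hp : ∀ w, 0 ≤ p w) (w : W) :
    mass f p w ≤ ∑ v, p v := by
  unfold mass
  exact Finset.sum_le_sum_of_subset_of_nonneg (Finset.filter_subset _ _) (fun v _ _ => hp v)

/-- **exchange**: `∑ w, p w * (φ w * mass f q w / mass f p w) = ∑ v, q v * φ v` for a class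
function `φ`. -/
theorem sum_exchange (f : W → α) {p : W → ℝ} (hp : ∀ w, 0 < p w) (q φ : W → ℝ)
    (hφ : ∀ v w, f v = f w → φ v = φ w) :
    ∑ w, p w * (φ w * mass f q w / mass f p w) = ∑ v, q v * φ v := by
  have h1 : ∀ w, p w * (φ w * mass f q w / mass f p w)
      = ∑ v, (if f v = f w then p w * φ v * q v / mass f p v else 0) := by
    intro w
    rw [← Finset.sum_filter]
    rw [show p w * (φ w * mass f q w / mass f p w) = p w * φ w / mass f p w * mass f q w by ring]
    conv_lhs => rw [mass.eq_1 f q w]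
    rw [Finset.mul_sum]
    refine Finset.sum_congr rfl (fun v hv => ?_)
    have hvw : f v = f w := (Finset.mem_filter.1 hv).2
    rw [hφ v w hvw, mass_congr f p hvw]
    ring
  rw [Finset.sum_congr rfl (fun w _ => h1 w), Finset.sum_comm]
  refine Finset.sum_congr rfl (fun v _ => ?_)
  rw [← Finset.sum_filter]
  have hpos := mass_pos f hp v
  have h2 : ∀ w ∈ Finset.univ.filter (fun w => f v = f w),
      p w * φ v * q v / mass f p v = p w * (φ v * q v / mass f p v) := fun w _ => by ring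
  rw [Finset.sum_congr rfl h2, ← Finset.sum_mul]
  have h3 : ∑ w ∈ Finset.univ.filter (fun w => f v = f w), p w = mass f p v := by
    unfold mass
    refine Finset.sum_congr ?_ (fun _ _ => rfl)
    ext w; simp [eq_comm]
  rw [h3]
  field_simp

/-- `∑ w, p w * (mass f q w / mass f p w) = ∑ v, q v` -/
theorem sum_ratio (f : W → α) {p : W → ℝ} (hp : ∀ w, 0 < p w) (q : W → ℝ) :
    ∑ w, p w * (mass f q w / mass f p w) = ∑ v, q v := by
  have := sum_exchange f hp q (fun _ => 1) (fun _ _ _ => rfl)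
  simpa using this

/-- coarsening: `∑ w, p w * (mass f q w / mass f p w * (mass g p w / mass g q w)) = ∑ p`
if `g` is coarser than `f`. -/
theorem sum_ratio2 (f : W → α) (g : W → γ) (hfg : ∀ v w, f v = f w → g v = g w)
    {p q : W → ℝ} (hp : ∀ w, 0 < p w) (hq : ∀ w, 0 < q w) :
    ∑ w, p w * (mass f q w / mass f p w * (mass g p w / mass g q w)) = ∑ v, p v := by
  have h1 := sum_exchange f hp q (fun w => mass g p w / mass g q w)
    (fun v w h => by simp only [mass_congr g p (hfg v w h), mass_congr g q (hfg v w h)])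
  have h2 := sum_ratio g hq p
  rw [← h2, ← h1]
  refine Finset.sum_congr rfl (fun w _ => ?_)
  ring

/-! ### the abstract inequality -/

/-- finite form: `∑ p e^{-L} ≤ 1` gives `0 ≤ ∑ p L`. -/
theorem sum_log_nonneg {p L : W → ℝ} (hp : ∀ w, 0 ≤ p w) (h1 : ∑ w, p w = 1)
    (hL : ∑ w, p w * Real.exp (-L w) ≤ 1) : 0 ≤ ∑ w, p w * L w := by
  have h : ∀ w, p w * 1 - p w * Real.exp (-L w) ≤ p w * L w := by
    intro w
    have := Real.add_one_le_exp (-L w)
    nlinarith [hp w]
  have h2 := Finset.sum_le_sum (fun w (_ : w ∈ Finset.univ) => h w)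
  rw [Finset.sum_sub_distrib] at h2
  simp only [mul_one] at h2
  linarith

/-- `∑ p |L| ≤ D + 4 √D`, `D = ∑ p L`, if `∑ p e^{-L} ≤ 1`. -/
theorem sum_abs_log_le {p L : W → ℝ} (hp : ∀ w, 0 ≤ p w) (h1 : ∑ w, p w = 1)
    (hL : ∑ w, p w * Real.exp (-L w) ≤ 1) :
    ∑ w, p w * |L w| ≤ (∑ w, p w * L w) + 4 * Real.sqrt (∑ w, p w * L w) := by
  set D := ∑ w, p w * L w with hD
  have hD0 : 0 ≤ D := sum_log_nonneg hp h1 hL
  -- x = exp(-L/2)
  set x : W → ℝ := fun w => Real.exp (-L w / 2) with hx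
  have hx0 : ∀ w, 0 < x w := fun w => Real.exp_pos _
  have hx2 : ∀ w, x w ^ 2 = Real.exp (-L w) := by
    intro w
    simp only [hx]
    rw [← Real.exp_nat_mul]
    congr 1; push_cast; ring
  have hlin : ∀ w, 2 * (1 - x w) ≤ L w := by
    intro w
    have := Real.add_one_le_exp (-L w / 2)
    simp only [hx]; linarith
  have hsq : ∑ w, p w * (x w - 1) ^ 2 ≤ D := by
    have e1 : ∑ w, p w * (x w - 1) ^ 2
        = (∑ w, p w * Real.exp (-L w)) - 1 + ∑ w, p w * (2 * (1 - x w)) := by
      have e3 : (∑ w, p w * Real.exp (-L w)) - 1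
          = ∑ w, (p w * Real.exp (-L w) - p w) := by
        rw [Finset.sum_sub_distrib, h1]
      rw [e3, ← Finset.sum_add_distrib]
      refine Finset.sum_congr rfl (fun w _ => ?_)
      rw [← hx2]; ring
    have e2 : ∑ w, p w * (2 * (1 - x w)) ≤ D :=
      Finset.sum_le_sum (fun w _ => mul_le_mul_of_nonneg_left (hlin w) (hp w))
    linarith
  have hcs : ∑ w, p w * |x w - 1| ≤ Real.sqrt D := by
    refine Real.le_sqrt_of_sq_le ?_
    have h2 := Finset.sum_sq_le_sum_mul_sum_of_sq_le_mul (Finset.univ : Finset W)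
      (r := fun w => p w * |x w - 1|) (f := p) (g := fun w => p w * (x w - 1) ^ 2)
      (fun w _ => hp w) (fun w _ => mul_nonneg (hp w) (sq_nonneg _))
      (fun w _ => le_of_eq (by rw [mul_pow, sq_abs]; ring))
    rw [h1, one_mul] at h2
    exact h2.trans hsq
  have habs : ∀ w, |L w| ≤ L w + 4 * |x w - 1| := by
    intro w
    have hl := hlin w
    rcases le_or_gt 0 (L w) with h | h
    · rw [abs_of_nonneg h]; linarith [abs_nonneg (x w - 1)]
    · rw [abs_of_neg h]
      have := le_abs_self (x w - 1)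
      linarith
  calc ∑ w, p w * |L w| ≤ ∑ w, p w * (L w + 4 * |x w - 1|) :=
        Finset.sum_le_sum (fun w _ => mul_le_mul_of_nonneg_left (habs w) (hp w))
    _ = D + 4 * ∑ w, p w * |x w - 1| := by
        rw [hD, Finset.mul_sum, ← Finset.sum_add_distrib]
        exact Finset.sum_congr rfl (fun w _ => by ring)
    _ ≤ D + 4 * Real.sqrt D := by linarith

/-! ### relative entropy of classes -/

theorem exp_neg_log_ratio {a b : ℝ} (ha : 0 < a) (hb : 0 < b) :
    Real.exp (-Real.log (a / b)) = b / a := by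
  rw [Real.exp_neg, Real.exp_log (div_pos ha hb), inv_div]

theorem kl_nonneg (f : W → α) {p q : W → ℝ} (hp : ∀ w, 0 < p w) (hq : ∀ w, 0 < q w)
    (h1 : ∑ w, p w = 1) (h2 : ∑ w, q w = 1) : 0 ≤ kl f p q := by
  refine sum_log_nonneg (fun w => (hp w).le) h1 ?_
  have : ∀ w, p w * Real.exp (-Real.log (mass f p w / mass f q w))
      = p w * (mass f q w / mass f p w) := fun w => by
    rw [exp_neg_log_ratio (mass_pos f hp w) (mass_pos f hq w)]
  rw [Finset.sum_congr rfl (fun w _ => this w), sum_ratio f hp q, h2]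

/-- `∑ p |log (P_f/Q_f)| ≤ kl + 4 √kl` -/
theorem sum_abs_log_le_kl (f : W → α) {p q : W → ℝ} (hp : ∀ w, 0 < p w) (hq : ∀ w, 0 < q w)
    (h1 : ∑ w, p w = 1) (h2 : ∑ w, q w = 1) :
    ∑ w, p w * |Real.log (mass f p w / mass f q w)| ≤ kl f p q + 4 * Real.sqrt (kl f p q) := by
  refine sum_abs_log_le (fun w => (hp w).le) h1 ?_
  have : ∀ w, p w * Real.exp (-Real.log (mass f p w / mass f q w))
      = p w * (mass f q w / mass f p w) := fun w => by
    rw [exp_neg_log_ratio (mass_pos f hp w) (mass_pos f hq w)]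
  rw [Finset.sum_congr rfl (fun w _ => this w), sum_ratio f hp q, h2]

/-- conditional log ratio `log [(P_f/P_g)/(Q_f/Q_g)]` -/
noncomputable def clr (f : W → α) (g : W → γ) (p q : W → ℝ) (w : W) : ℝ :=
  Real.log (mass f p w / mass f q w) - Real.log (mass g p w / mass g q w)

theorem exp_neg_clr (f : W → α) (g : W → γ) {p q : W → ℝ} (hp : ∀ w, 0 < p w)
    (hq : ∀ w, 0 < q w) (w : W) :
    Real.exp (-clr f g p q w) = mass f q w / mass f p w * (mass g p w / mass g q w) := by
  unfold clr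
  rw [neg_sub, sub_eq_add_neg, Real.exp_add,
    Real.exp_log (div_pos (mass_pos g hp w) (mass_pos g hq w)),
    exp_neg_log_ratio (mass_pos f hp w) (mass_pos f hq w)]
  ring

theorem sum_exp_neg_clr (f : W → α) (g : W → γ) (hfg : ∀ v w, f v = f w → g v = g w)
    {p q : W → ℝ} (hp : ∀ w, 0 < p w) (hq : ∀ w, 0 < q w) (h1 : ∑ w, p w = 1) :
    ∑ w, p w * Real.exp (-clr f g p q w) = 1 := by
  rw [Finset.sum_congr rfl (fun w _ => by rw [exp_neg_clr f g hp hq w]),
    sum_ratio2 f g hfg hp hq, h1]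

theorem kl_sub_kl (f : W → α) (g : W → γ) (p q : W → ℝ) :
    kl f p q - kl g p q = ∑ w, p w * clr f g p q w := by
  unfold kl clr
  rw [← Finset.sum_sub_distrib]
  exact Finset.sum_congr rfl (fun w _ => by ring)

/-- **coarsening decreases the relative entropy** -/
theorem kl_mono (f : W → α) (g : W → γ) (hfg : ∀ v w, f v = f w → g v = g w)
    {p q : W → ℝ} (hp : ∀ w, 0 < p w) (hq : ∀ w, 0 < q w) (h1 : ∑ w, p w = 1) :
    kl g p q ≤ kl f p q := by
  have := sum_log_nonneg (fun w => (hp w).le) h1 (sum_exp_neg_clr f g hfg hp hq h1).le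
  rw [← kl_sub_kl] at this
  linarith

/-- conditional form of the absolute bound -/
theorem sum_abs_clr_le (f : W → α) (g : W → γ) (hfg : ∀ v w, f v = f w → g v = g w)
    {p q : W → ℝ} (hp : ∀ w, 0 < p w) (hq : ∀ w, 0 < q w) (h1 : ∑ w, p w = 1) :
    ∑ w, p w * |clr f g p q w|
      ≤ (kl f p q - kl g p q) + 4 * Real.sqrt (kl f p q - kl g p q) := by
  rw [kl_sub_kl]
  exact sum_abs_log_le (fun w => (hp w).le) h1 (sum_exp_neg_clr f g hfg hp hq h1).le

/-- **data processing through a common kernel**: if the law of `g` given `f` is the same under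
`p` and `q`, then `kl g ≤ kl f`. -/
theorem kl_kernel (f : W → α) (g : W → γ) {p q : W → ℝ} (hp : ∀ w, 0 < p w)
    (hq : ∀ w, 0 < q w) (h1 : ∑ w, p w = 1)
    (hk : ∀ w, mass (fun v => (f v, g v)) p w * mass f q w
      = mass (fun v => (f v, g v)) q w * mass f p w) :
    kl g p q ≤ kl f p q := by
  have e : kl (fun v => (f v, g v)) p q = kl f p q := by
    unfold kl
    refine Finset.sum_congr rfl (fun w _ => ?_)
    have : mass (fun v => (f v, g v)) p w / mass (fun v => (f v, g v)) q w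
        = mass f p w / mass f q w := by
      rw [div_eq_div_iff (mass_pos _ hq w).ne' (mass_pos _ hq w).ne']
      rw [hk w]; ring
    rw [this]
  rw [← e]
  exact kl_mono _ g (fun v w h => (Prod.ext_iff.1 h).2) hp hq h1

/-- total variation of the class laws -/
theorem tv_le (f : W → α) {p q : W → ℝ} (hp : ∀ w, 0 < p w) (hq : ∀ w, 0 < q w)
    (h1 : ∑ w, p w = 1) (h2 : ∑ w, q w = 1) :
    ∑ w, p w * |mass f q w / mass f p w - 1| ≤ 2 * Real.sqrt (kl f p q) := by
  -- x = sqrt (Q/P), |x^2 - 1| = |x - 1| (x + 1)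
  set D := kl f p q with hD
  set x : W → ℝ := fun w => Real.sqrt (mass f q w / mass f p w) with hx
  have hr : ∀ w, 0 < mass f q w / mass f p w := fun w =>
    div_pos (mass_pos f hq w) (mass_pos f hp w)
  have hx0 : ∀ w, 0 < x w := fun w => Real.sqrt_pos.2 (hr w)
  have hx2 : ∀ w, x w ^ 2 = mass f q w / mass f p w := fun w => Real.sq_sqrt (hr w).le
  have hs1 : ∑ w, p w * x w ^ 2 = 1 := by
    rw [Finset.sum_congr rfl (fun w _ => by rw [hx2 w]), sum_ratio f hp q, h2]
  have hlin : ∀ w, 2 * (1 - x w) ≤ Real.log (mass f p w / mass f q w) := by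
    intro w
    have h3 : Real.log (mass f p w / mass f q w) = -(2 * Real.log (x w)) := by
      have : Real.log (x w ^ 2) = 2 * Real.log (x w) := by
        rw [Real.log_pow]; norm_num
      rw [← this, hx2, ← Real.log_inv, inv_div]
    rw [h3]
    have := Real.log_le_sub_one_of_pos (hx0 w)
    linarith
  have hsum : ∑ w, p w * (2 * (1 - x w)) ≤ D := by
    rw [hD]; unfold kl
    exact Finset.sum_le_sum (fun w _ => mul_le_mul_of_nonneg_left (hlin w) (hp w).le)
  have hsx : ∑ w, p w * (2 * (1 - x w)) = 2 - 2 * ∑ w, p w * x w := by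
    have : ∀ w, p w * (2 * (1 - x w)) = 2 * p w - 2 * (p w * x w) := fun w => by ring
    rw [Finset.sum_congr rfl (fun w _ => this w), Finset.sum_sub_distrib, ← Finset.mul_sum,
      ← Finset.mul_sum, h1]; ring
  have hm : ∑ w, p w * (x w - 1) ^ 2 = 2 - 2 * ∑ w, p w * x w := by
    have : ∀ w, p w * (x w - 1) ^ 2 = p w * x w ^ 2 + p w - 2 * (p w * x w) := fun w => by ring
    rw [Finset.sum_congr rfl (fun w _ => this w), Finset.sum_sub_distrib, Finset.sum_add_distrib,
      ← Finset.mul_sum, h1, hs1]; ring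
  have hpl : ∑ w, p w * (x w + 1) ^ 2 ≤ 4 := by
    have : ∀ w, p w * (x w + 1) ^ 2 = p w * x w ^ 2 + p w + 2 * (p w * x w) := fun w => by ring
    rw [Finset.sum_congr rfl (fun w _ => this w), Finset.sum_add_distrib, Finset.sum_add_distrib,
      ← Finset.mul_sum, h1, hs1]
    have h4 : 0 ≤ ∑ w, p w * (x w - 1) ^ 2 :=
      Finset.sum_nonneg (fun w _ => mul_nonneg (hp w).le (sq_nonneg _))
    rw [hm] at h4
    linarith
  have hD0 : 0 ≤ D := kl_nonneg f hp hq h1 h2
  have h2' := Finset.sum_sq_le_sum_mul_sum_of_sq_le_mul (Finset.univ : Finset W)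
      (r := fun w => p w * |mass f q w / mass f p w - 1|)
      (f := fun w => p w * (x w - 1) ^ 2) (g := fun w => p w * (x w + 1) ^ 2)
      (fun w _ => mul_nonneg (hp w).le (sq_nonneg _))
      (fun w _ => mul_nonneg (hp w).le (sq_nonneg _))
      (fun w _ => le_of_eq (by rw [mul_pow, sq_abs, ← hx2]; ring))
  have h5 : (∑ w, p w * |mass f q w / mass f p w - 1|) ^ 2 ≤ 4 * D := by
    refine h2'.trans ?_
    rw [hm]
    rw [hsx] at hsum
    have h6 : 0 ≤ 2 - 2 * ∑ w, p w * x w := by
      rw [← hm]; exact Finset.sum_nonneg (fun w _ => mul_nonneg (hp w).le (sq_nonneg _))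
    calc (2 - 2 * ∑ w, p w * x w) * ∑ w, p w * (x w + 1) ^ 2
        ≤ (2 - 2 * ∑ w, p w * x w) * 4 := mul_le_mul_of_nonneg_left hpl h6
      _ ≤ 4 * D := by linarith
  have h7 := Real.le_sqrt_of_sq_le h5
  rwa [Real.sqrt_mul (by norm_num), show Real.sqrt 4 = 2 by
    rw [show (4:ℝ) = 2 ^ 2 by norm_num]; exact Real.sqrt_sq (by norm_num)] at h7

end Pool.Agent.W_7d29a1_NV.Kl38
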