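import Pool.Agent.W_7d29a1_h46u.LamU
import Pool.Agent.W_7d29a1_NV.Kl38

/-!
The Markov structure of the walks: exchange of the pieces of two walks between two common sites.
-/

namespace Pool.Agent.W_7d29a1_NV

open MeasureTheory ProbabilityTheory Filter Topology Pool.Agent.W_MP_7d29a1_pr
  Pool.Agent.W_7d29a1_h46 Pool.Agent.W_7d29a1_h46u Pool.Agent.W_7d29a1_NV.Kl38

variable {d n : ℕ}

/-- The walk `v` with the steps `a < i ≤ b` of the walk `w`. -/
def mix (a b : ℕ) (v w : Fin n → Step d) : Fin n → Step d :=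
  fun i => if a ≤ (i : ℕ) ∧ (i : ℕ) < b then w i else v i

/-- The environment `η` with the rows `a < t ≤ b` of the environment `ζ`. -/
def mixE (a b : ℕ) (η ζ : Env d) : Env d := fun p => if a < p.1 ∧ p.1 ≤ b then ζ p else η p

/-- The environment `η` with the rows of `J` of the environment `ζ`. -/
def rsp (J : Finset ℕ) (η ζ : Env d) : Env d := fun p => if p.1 ∈ J then ζ p else η p

/-- The law of the walk of length `n` in the environment `η`. -/
noncomputable def pw (β : ℝ) (h : Vec d) (n : ℕ) (η : Env d) (w : Fin n → Step d) : ℝ :=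
  wgt β h η w / Z β h η n

/-- The class map `g` does not see the walk strictly between the times `a` and `b`. -/
def Blind {γ : Type*} (g : (Fin n → Step d) → γ) (a b : ℕ) : Prop :=
  ∀ v w, pos v a = pos w a → pos v b = pos w b → g (mix a b v w) = g v

/-- The class map `g` sees the positions at the times `a` and `b`. -/
def Pin {γ : Type*} (g : (Fin n → Step d) → γ) (a b : ℕ) : Prop :=
  ∀ v w, g v = g w → pos v a = pos w a ∧ pos v b = pos w b

/-- The positions at the times `a` and `b`. -/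
def pr (a b : ℕ) (w : Fin n → Step d) : Site d × Site d := (pos w a, pos w b)

lemma pos_split (s : Fin n → Step d) {a i : ℕ} (hai : a ≤ i) :
    pos s i = pos s a + ∑ j : Fin n, if a ≤ (j : ℕ) ∧ (j : ℕ) < i then vec (s j) else 0 := by
  unfold pos
  rw [← Finset.sum_add_distrib]
  refine Finset.sum_congr rfl fun j _ => ?_
  by_cases h1 : (j : ℕ) < a
  · rw [if_pos (by omega), if_pos h1, if_neg (by omega), add_zero]
  · by_cases h2 : (j : ℕ) < i
    · rw [if_pos h2, if_neg h1, if_pos (by omega), zero_add]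
    · rw [if_neg h2, if_neg h1, if_neg (by omega), add_zero]

lemma pos_mix_le {a b i : ℕ} (v w : Fin n → Step d) (hi : i ≤ a) :
    pos (mix a b v w) i = pos v i := by
  unfold pos mix
  refine Finset.sum_congr rfl fun j _ => ?_
  by_cases h1 : (j : ℕ) < i
  · rw [if_pos h1, if_pos h1, if_neg (by omega)]
  · rw [if_neg h1, if_neg h1]

lemma pos_mix_mid {a b i : ℕ} {v w : Fin n → Step d} (ha : pos v a = pos w a) (hi : a ≤ i)
    (hb : i ≤ b) : pos (mix a b v w) i = pos w i := by
  rw [pos_split _ hi, pos_split w hi, pos_mix_le v w le_rfl, ha]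
  congr 1
  refine Finset.sum_congr rfl fun j _ => ?_
  by_cases h1 : a ≤ (j : ℕ) ∧ (j : ℕ) < i
  · rw [if_pos h1, if_pos h1]
    unfold mix
    rw [if_pos (by omega)]
  · rw [if_neg h1, if_neg h1]

lemma pos_mix_ge {a b i : ℕ} {v w : Fin n → Step d} (ha : pos v a = pos w a)
    (hb : pos v b = pos w b) (hab : a ≤ b) (hi : b ≤ i) : pos (mix a b v w) i = pos v i := by
  rw [pos_split _ hi, pos_split v hi, pos_mix_mid ha hab le_rfl, hb]
  congr 1
  refine Finset.sum_congr rfl fun j _ => ?_
  by_cases h1 : b ≤ (j : ℕ) ∧ (j : ℕ) < i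
  · rw [if_pos h1, if_pos h1]
    unfold mix
    rw [if_neg (by omega)]
  · rw [if_neg h1, if_neg h1]

lemma mix_mix (a b : ℕ) (v w : Fin n → Step d) : mix a b (mix a b v w) (mix a b w v) = v := by
  funext i
  unfold mix
  by_cases h1 : a ≤ (i : ℕ) ∧ (i : ℕ) < b
  · rw [if_pos h1, if_pos h1]
  · rw [if_neg h1, if_neg h1]

lemma wgt_mix (β : ℝ) (h : Vec d) (η ζ : Env d) {a b : ℕ} (hab : a ≤ b) (hbn : b ≤ n)
    {v w : Fin n → Step d} (ha : pos v a = pos w a) (hb : pos v b = pos w b) :
    wgt β h η v * wgt β h ζ w =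
      wgt β h (mixE a b η ζ) (mix a b v w) * wgt β h (mixE a b ζ η) (mix a b w v) := by
  have h1 : energy η v + energy ζ w =
      energy (mixE a b η ζ) (mix a b v w) + energy (mixE a b ζ η) (mix a b w v) := by
    unfold energy
    rw [← Finset.sum_add_distrib, ← Finset.sum_add_distrib]
    refine Finset.sum_congr rfl fun i _ => ?_
    unfold mixE
    by_cases h2 : a < (i : ℕ) + 1 ∧ (i : ℕ) + 1 ≤ b
    · simp only [if_pos h2]
      rw [pos_mix_mid ha (by omega) h2.2, pos_mix_mid ha.symm (by omega) h2.2, add_comm]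
    · simp only [if_neg h2]
      rcases not_and_or.1 h2 with h3 | h3
      · rw [pos_mix_le _ _ (by omega), pos_mix_le _ _ (by omega)]
      · rw [pos_mix_ge ha hb hab (by omega), pos_mix_ge ha.symm hb.symm hab (by omega)]
  unfold wgt
  rw [← Real.exp_add, ← Real.exp_add, pos_mix_ge ha hb hab hbn,
    pos_mix_ge ha.symm hb.symm hab hbn]
  congr 1
  have h2 : β * energy η v + β * energy ζ w = β * energy (mixE a b η ζ) (mix a b v w) +
      β * energy (mixE a b ζ η) (mix a b w v) := by
    rw [← mul_add, h1, mul_add]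
  linarith

/-- **The exchange of the pieces between two common sites.** -/
theorem swap34 {α γ : Type*} [DecidableEq α] [DecidableEq γ] {a b : ℕ} (hab : a ≤ b)
    (hbn : b ≤ n) (β : ℝ) (h : Vec d) (η ζ : Env d) (F : (Fin n → Step d) → α)
    (G : (Fin n → Step d) → γ) (w w' : Fin n → Step d)
    (hpin : ∀ v v', F v = F w → G v' = G w' → pos v a = pos v' a ∧ pos v b = pos v' b)
    (hF : ∀ v v', F v = F w → G v' = G w' → F (mix a b v v') = F w)
    (hG : ∀ v v', F v = F w → G v' = G w' → G (mix a b v' v) = G w') :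
    mass F (wgt β h η) w * mass G (wgt β h ζ) w' =
      mass F (wgt β h (mixE a b η ζ)) w * mass G (wgt β h (mixE a b ζ η)) w' := by
  unfold mass
  rw [Finset.sum_mul_sum, Finset.sum_mul_sum, ← Finset.sum_product', ← Finset.sum_product']
  refine Finset.sum_nbij' (fun z => (mix a b z.1 z.2, mix a b z.2 z.1))
    (fun z => (mix a b z.1 z.2, mix a b z.2 z.1)) ?_ ?_ ?_ ?_ ?_
  · intro z hz
    simp only [Finset.mem_product, Finset.mem_filter, Finset.mem_univ, true_and] at hz ⊢
    exact ⟨hF _ _ hz.1 hz.2, hG _ _ hz.1 hz.2⟩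
  · intro z hz
    simp only [Finset.mem_product, Finset.mem_filter, Finset.mem_univ, true_and] at hz ⊢
    exact ⟨hF _ _ hz.1 hz.2, hG _ _ hz.1 hz.2⟩
  · intro z _
    exact Prod.ext (mix_mix a b z.1 z.2) (mix_mix a b z.2 z.1)
  · intro z _
    exact Prod.ext (mix_mix a b z.1 z.2) (mix_mix a b z.2 z.1)
  · intro z hz
    simp only [Finset.mem_product, Finset.mem_filter, Finset.mem_univ, true_and] at hz
    obtain ⟨h1, h2⟩ := hpin _ _ hz.1 hz.2
    exact wgt_mix β h η ζ hab hbn h1 h2

lemma mixE_of_eq {a b : ℕ} {η ζ : Env d} (he : ∀ p : ℕ × Site d, ¬ (a < p.1 ∧ p.1 ≤ b) →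
    η p = ζ p) : mixE a b η ζ = ζ := by
  funext p
  unfold mixE
  split_ifs with h1
  · rfl
  · exact he p h1

/-- The class weights of a class map which sees the two sites and nothing in between. -/
theorem swapB34 {γ : Type*} [DecidableEq γ] {a b : ℕ} (hab : a ≤ b) (hbn : b ≤ n) (β : ℝ)
    (h : Vec d) (η ζ : Env d) {g : (Fin n → Step d) → γ} (hB : Blind g a b) (hP : Pin g a b)
    (w : Fin n → Step d) :
    mass g (wgt β h η) w * mass g (wgt β h ζ) w =
      mass g (wgt β h (mixE a b η ζ)) w * mass g (wgt β h (mixE a b ζ η)) w :=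
  swap34 hab hbn β h η ζ g g w w (fun v v' h1 h2 => hP v v' (h1.trans h2.symm))
    (fun v v' h1 h2 => (hB v v' (hP v v' (h1.trans h2.symm)).1
      (hP v v' (h1.trans h2.symm)).2).trans h1)
    (fun v v' h1 h2 => (hB v' v (hP v v' (h1.trans h2.symm)).1.symm
      (hP v v' (h1.trans h2.symm)).2.symm).trans h2)

section Law

variable (hd : 0 < d)

include hd

lemma pw_pos (β : ℝ) (h : Vec d) (n : ℕ) (η : Env d) (w : Fin n → Step d) :
    0 < pw β h n η w := div_pos (wgt_pos _ _ _ _) (Z_pos hd β h η n)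

lemma pw_sum (β : ℝ) (h : Vec d) (n : ℕ) (η : Env d) :
    ∑ w : Fin n → Step d, pw β h n η w = 1 := by
  unfold pw
  rw [← Finset.sum_div, ← Z_eq, div_self (Z_pos hd β h η n).ne']

omit hd in
lemma mass_pw {γ : Type*} [DecidableEq γ] (g : (Fin n → Step d) → γ) (β : ℝ) (h : Vec d)
    (η : Env d) (w : Fin n → Step d) :
    mass g (pw β h n η) w = mass g (wgt β h η) w / Z β h η n := by
  unfold mass pw
  rw [← Finset.sum_div]

omit hd in
lemma mass_wgt_pos {γ : Type*} [DecidableEq γ] (g : (Fin n → Step d) → γ) (β : ℝ) (h : Vec d)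
    (η : Env d) (w : Fin n → Step d) : 0 < mass g (wgt β h η) w :=
  mass_pos g (fun v => wgt_pos β h η v) w

/-- The logarithm of a class probability. -/
lemma log_mass_pw {γ : Type*} [DecidableEq γ] (g : (Fin n → Step d) → γ) (β : ℝ) (h : Vec d)
    (η : Env d) (w : Fin n → Step d) :
    Real.log (mass g (pw β h n η) w) = Real.log (mass g (wgt β h η) w) - X β h η n := by
  rw [mass_pw, Real.log_div (mass_wgt_pos g β h η w).ne' (Z_pos hd β h η n).ne']
  rfl

/-- The relative entropy of the classes in two environments. -/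
lemma kl_pw {γ : Type*} [DecidableEq γ] (g : (Fin n → Step d) → γ) (β : ℝ) (h : Vec d)
    (η ζ : Env d) :
    kl g (pw β h n η) (pw β h n ζ) =
      ∑ w : Fin n → Step d, pw β h n η w *
        (Real.log (mass g (wgt β h η) w) - Real.log (mass g (wgt β h ζ) w)) -
      (X β h η n - X β h ζ n) := by
  have h1 : X β h η n - X β h ζ n =
      ∑ w : Fin n → Step d, pw β h n η w * (X β h η n - X β h ζ n) := by
    rw [← Finset.sum_mul, pw_sum hd, one_mul]
  rw [h1, ← Finset.sum_sub_distrib]
  unfold kl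
  refine Finset.sum_congr rfl fun w _ => ?_
  rw [Real.log_div (mass_pos g (fun v => pw_pos hd β h n η v) w).ne'
    (mass_pos g (fun v => pw_pos hd β h n ζ v) w).ne', log_mass_pw hd, log_mass_pw hd]
  ring

/-- **Data processing**: the outer classes move less than the two sites around the changed rows. -/
theorem kl_out34 {γ : Type*} [DecidableEq γ] {a b : ℕ} (hab : a ≤ b) (hbn : b ≤ n) (β : ℝ)
    (h : Vec d) {η ζ : Env d} (he : ∀ p : ℕ × Site d, ¬ (a < p.1 ∧ p.1 ≤ b) → η p = ζ p)
    {g : (Fin n → Step d) → γ} (hB : Blind g a b) :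
    kl g (pw β h n η) (pw β h n ζ) ≤ kl (pr a b) (pw β h n η) (pw β h n ζ) := by
  refine kl_kernel (pr a b) g (fun w => pw_pos hd β h n η w) (fun w => pw_pos hd β h n ζ w)
    (pw_sum hd β h n η) fun w => ?_
  have h1 := swap34 hab hbn β h η ζ (fun v => (pr a b v, g v)) (pr a b) w w
    (fun v v' h1 h2 => by
      have h3 : pr a b v = pr a b v' := (Prod.ext_iff.1 h1).1.trans h2.symm
      exact Prod.ext_iff.1 h3)
    (fun v v' h1 h2 => by
      have h3 : pr a b v = pr a b v' := (Prod.ext_iff.1 h1).1.trans h2.symm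
      have h4 := (Prod.ext_iff.1 h3)
      have h5 : pos v a = pos v' a := h4.1
      have h6 : pos v b = pos v' b := h4.2
      refine Eq.trans ?_ h1
      refine Prod.ext ?_ (hB v v' h5 h6)
      exact Prod.ext (pos_mix_le _ _ le_rfl) (pos_mix_ge h5 h6 hab le_rfl))
    (fun v v' h1 h2 => by
      have h3 : pr a b v = pr a b v' := (Prod.ext_iff.1 h1).1.trans h2.symm
      have h4 := (Prod.ext_iff.1 h3)
      have h5 : pos v a = pos v' a := h4.1
      have h6 : pos v b = pos v' b := h4.2
      refine Eq.trans ?_ h2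
      exact Prod.ext (pos_mix_le _ _ le_rfl) (pos_mix_ge h5.symm h6.symm hab le_rfl))
  rw [mixE_of_eq he, mixE_of_eq (η := ζ) (ζ := η) fun p hp => (he p hp).symm] at h1
  simp only [mass_pw]
  rw [div_mul_div_comm, div_mul_div_comm, h1]
  congr 1
  exact mul_comm _ _

/-- A class map which sees the two sites moves at least as much. -/
theorem kl_in34 {γ : Type*} [DecidableEq γ] {a b : ℕ} (β : ℝ) (h : Vec d) (η ζ : Env d)
    {g : (Fin n → Step d) → γ} (hP : Pin g a b) :
    kl (pr a b) (pw β h n η) (pw β h n ζ) ≤ kl g (pw β h n η) (pw β h n ζ) :=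
  kl_mono g (pr a b) (fun v w hvw => Prod.ext (hP v w hvw).1 (hP v w hvw).2)
    (fun w => pw_pos hd β h n η w) (fun w => pw_pos hd β h n ζ w) (pw_sum hd β h n η)

end Law

lemma pr_blind {a b a' b' : ℕ} (ha : a' ≤ a) (hab : a ≤ b) (hb : b ≤ b') :
    Blind (pr a' b' : (Fin n → Step d) → _) a b := fun _ _ h1 h2 =>
  Prod.ext (pos_mix_le _ _ ha) (pos_mix_ge h1 h2 hab hb)

/-- `J` is separated by the class map `g`. -/
def Sep {γ : Type*} (g : (Fin n → Step d) → γ) (J : Finset ℕ) : Prop :=
  ∀ t ∈ J, ∃ a b : ℕ, a < t ∧ t ≤ b ∧ b ≤ n ∧ Blind g a b ∧ Pin g a b ∧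
    ∀ t' ∈ J, t' ≠ t → ¬ (a < t' ∧ t' ≤ b)

lemma Sep.mono {γ : Type*} {g : (Fin n → Step d) → γ} {J J' : Finset ℕ} (hJ : J ⊆ J')
    (h : Sep g J') : Sep g J := by
  intro t ht
  obtain ⟨a, b, h1, h2, h3, h4, h5, h6⟩ := h t (hJ ht)
  exact ⟨a, b, h1, h2, h3, h4, h5, fun t' ht' => h6 t' (hJ ht')⟩

lemma rsp_empty (η ζ : Env d) : rsp ∅ η ζ = η := by
  funext p
  unfold rsp
  rw [if_neg (Finset.notMem_empty _)]

/-- **The rows between the sites of a class contribute independently.** -/
theorem add34 {γ : Type*} [DecidableEq γ] (β : ℝ) (h : Vec d) (η ζ : Env d)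
    {g : (Fin n → Step d) → γ} (J : Finset ℕ) (hS : Sep g J) (w : Fin n → Step d) :
    Real.log (mass g (wgt β h η) w) - Real.log (mass g (wgt β h (rsp J η ζ)) w) =
      ∑ t ∈ J, (Real.log (mass g (wgt β h η) w) -
        Real.log (mass g (wgt β h (rsp {t} η ζ)) w)) := by
  classical
  induction J using Finset.induction_on with
  | empty => rw [rsp_empty, Finset.sum_empty, sub_self]
  | insert t J ht ih =>
    rw [Finset.sum_insert ht, ← ih (hS.mono (Finset.subset_insert t J))]
    obtain ⟨a, b, h1, h2, h3, h4, h5, h6⟩ := hS t (Finset.mem_insert_self t J)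
    have h7 := swapB34 (by omega) h3 β h η (rsp (insert t J) η ζ) h4 h5 w
    have h8 : mixE a b η (rsp (insert t J) η ζ) = rsp {t} η ζ := by
      funext p
      unfold mixE rsp
      by_cases hp : a < p.1 ∧ p.1 ≤ b
      · rw [if_pos hp]
        by_cases hpt : p.1 = t
        · rw [if_pos (by rw [hpt]; exact Finset.mem_insert_self t J),
            if_pos (by rw [hpt]; exact Finset.mem_singleton_self t)]
        · rw [if_neg, if_neg (by rwa [Finset.mem_singleton])]
          intro hpJ
          exact h6 p.1 hpJ hpt hp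
      · rw [if_neg hp, if_neg]
        rw [Finset.mem_singleton]
        intro hpt
        rw [hpt] at hp
        exact hp ⟨h1, h2⟩
    have h9 : mixE a b (rsp (insert t J) η ζ) η = rsp J η ζ := by
      funext p
      unfold mixE rsp
      by_cases hp : a < p.1 ∧ p.1 ≤ b
      · rw [if_pos hp, if_neg]
        intro hpJ
        exact h6 p.1 (Finset.mem_insert_of_mem hpJ) (fun hpt => ht (by rwa [← hpt])) hp
      · rw [if_neg hp]
        by_cases hpJ : p.1 ∈ J
        · rw [if_pos (Finset.mem_insert_of_mem hpJ), if_pos hpJ]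
        · rw [if_neg, if_neg hpJ]
          rw [Finset.mem_insert, not_or]
          refine ⟨fun hpt => ?_, hpJ⟩
          rw [hpt] at hp
          exact hp ⟨h1, h2⟩
    rw [h8, h9] at h7
    have h10 : Real.log (mass g (wgt β h η) w) +
        Real.log (mass g (wgt β h (rsp (insert t J) η ζ)) w) =
        Real.log (mass g (wgt β h (rsp {t} η ζ)) w) +
          Real.log (mass g (wgt β h (rsp J η ζ)) w) := by
      rw [← Real.log_mul (mass_wgt_pos _ _ _ _ _).ne' (mass_wgt_pos _ _ _ _ _).ne', h7,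
        Real.log_mul (mass_wgt_pos _ _ _ _ _).ne' (mass_wgt_pos _ _ _ _ _).ne']
    linarith

end Pool.Agent.W_7d29a1_NV
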