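import Pool.Agent.W_7d29a1_NV.DefsNV
import Pool.Agent.W_7d29a1_NV.Swap34

/-!
Leaf M of Theorem NV: bounds of the selection and data processing.
-/

namespace Pool.Agent.W_7d29a1_NV

open MeasureTheory ProbabilityTheory Filter Topology Pool.Agent.W_MP_7d29a1_pr
  Pool.Agent.W_7d29a1_h46 Pool.Agent.W_7d29a1_h46u Pool.Agent.W_7d29a1_D2.B35
  Pool.Agent.W_7d29a1_Q29 Pool.Agent.W_7d29a1_NV.Kl38

variable {d n : ℕ}

/-! ### The classes of walks with given positions at two times -/

open Classical in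
lemma path31 (β : ℝ) (h : Vec d) (ζ : Env d) {a b' : ℕ} (hab : a ≤ b') (hbn : b' ≤ n)
    (x y : Site d) :
    (∑ w : Fin n → Step d, if pos w a = x ∧ pos w b' = y then wgt β h ζ w else 0) =
      PP β h ζ a x * sg β h a b' x y ζ * Z β h (sh b' y ζ) (n - b') := by
  obtain ⟨m, rfl⟩ := Nat.exists_eq_add_of_le hab
  obtain ⟨l, rfl⟩ := Nat.exists_eq_add_of_le hbn
  unfold sg PP ZT
  rw [Z_eq]
  have e1 : a + m - a = m := by omega
  have e2 : a + m + l - (a + m) = l := by omega
  rw [e1, e2, sum_glue, sum_glue, Finset.sum_mul_sum, Finset.sum_mul]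
  refine Finset.sum_congr rfl fun s _ => ?_
  rw [Finset.sum_mul]
  refine Finset.sum_congr rfl fun q _ => ?_
  rw [Finset.mul_sum]
  refine Finset.sum_congr rfl fun r _ => ?_
  rw [pos_glue_le (Fin.append s q) r (show a ≤ a + m by omega), pos_glue_le s q le_rfl,
    pos_glue_le (Fin.append s q) r le_rfl, pos_glue_add, wgt_glue, wgt_glue, pos_glue_add]
  by_cases hs : pos s a = x
  · by_cases hq : pos q m = y - x
    · have h1 : pos s a + pos q m = y := by rw [hs, hq]; abel
      rw [if_pos ⟨hs, h1⟩, if_pos (show s ∈ {s : Fin a → Step d | pos s a = x} from hs),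
        if_pos (show q ∈ {q : Fin m → Step d | pos q m = y - x} from hq), h1, hs]
    · have h1 : ¬ (pos s a = x ∧ pos s a + pos q m = y) := by
        rintro ⟨_, h2⟩
        refine hq ?_
        rw [← h2, hs]
        abel
      rw [if_neg h1, if_neg (show ¬ q ∈ {q : Fin m → Step d | pos q m = y - x} from hq), mul_zero,
        zero_mul]
  · have h1 : ¬ (pos s a = x ∧ pos s a + pos q m = y) := fun h2 => hs h2.1
    rw [if_neg h1, if_neg (show ¬ s ∈ {s : Fin a → Step d | pos s a = x} from hs), zero_mul,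
      zero_mul]

lemma mass31 (β : ℝ) (h : Vec d) (ζ : Env d) {a b' : ℕ} (hab : a ≤ b') (hbn : b' ≤ n)
    (w : Fin n → Step d) :
    mass (pr a b') (wgt β h ζ) w =
      PP β h ζ a (pos w a) * sg β h a b' (pos w a) (pos w b') ζ *
        Z β h (sh b' (pos w b') ζ) (n - b') := by
  classical
  rw [← path31 β h ζ hab hbn]
  unfold mass pr
  rw [Finset.sum_filter]
  refine Finset.sum_congr rfl fun v _ => ?_
  simp only [Prod.mk.injEq]

/-- Sums over the pairs of positions are sums over the walks. -/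
lemma sum31 (β : ℝ) (h : Vec d) (ζ : Env d) {a b' : ℕ} (hab : a ≤ b') (hbn : b' ≤ n)
    (G : Site d → Site d → ℝ) :
    ∑ x ∈ boxF d n, ∑ y ∈ boxF d n, pab β h n a b' x y ζ * G x y =
      ∑ w : Fin n → Step d, pw β h n ζ w * G (pos w a) (pos w b') := by
  classical
  have h1 : ∀ x y : Site d, pab β h n a b' x y ζ * G x y =
      ∑ w : Fin n → Step d, if pos w a = x ∧ pos w b' = y then pw β h n ζ w * G x y else 0 := by
    intro x y
    unfold pab
    rw [← path31 β h ζ hab hbn, Finset.sum_div, Finset.sum_mul]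
    refine Finset.sum_congr rfl fun w _ => ?_
    unfold pw
    split_ifs
    · rfl
    · rw [zero_div, zero_mul]
  simp only [h1]
  have h2 : ∀ x : Site d, (∑ y ∈ boxF d n, ∑ w : Fin n → Step d,
      if pos w a = x ∧ pos w b' = y then pw β h n ζ w * G x y else 0) =
      ∑ w : Fin n → Step d, ∑ y ∈ boxF d n,
        if pos w a = x ∧ pos w b' = y then pw β h n ζ w * G x y else 0 := fun x =>
    Finset.sum_comm
  simp only [h2]
  rw [Finset.sum_comm]
  refine Finset.sum_congr rfl fun w _ => ?_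
  rw [Finset.sum_eq_single (pos w a)]
  · rw [Finset.sum_eq_single (pos w b')]
    · rw [if_pos ⟨rfl, rfl⟩]
    · intro y _ hy
      rw [if_neg]
      exact fun h3 => hy h3.2.symm
    · intro h3
      exact absurd (pos_mem_box w b') h3
  · intro x _ hx
    refine Finset.sum_eq_zero fun y _ => ?_
    rw [if_neg]
    exact fun h3 => hx h3.1.symm
  · intro h3
    exact absurd (pos_mem_box w a) h3

/-! ### The rows seen by the pieces -/

lemma PP_congr31 (β : ℝ) (h : Vec d) {η ζ : Env d} {m : ℕ} (he : ∀ p : ℕ × Site d, p.1 ≤ m →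
    η p = ζ p) (z : Site d) : PP β h η m z = PP β h ζ m z := by
  classical
  unfold PP ZT
  refine Finset.sum_congr rfl fun s _ => ?_
  have h1 : energy η s = energy ζ s := by
    unfold energy
    refine Finset.sum_congr rfl fun i _ => he _ ?_
    have := i.2
    simp only
    omega
  unfold wgt
  rw [h1]

lemma Z_congr31 (β : ℝ) (h : Vec d) {η ζ : Env d} {b' : ℕ} (he : ∀ p : ℕ × Site d, b' < p.1 →
    η p = ζ p) (y : Site d) (l : ℕ) : Z β h (sh b' y η) l = Z β h (sh b' y ζ) l := by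
  refine dependsOn_Z β h l fun p hp => ?_
  unfold sh
  have := hp.1
  exact he _ (by simp only; omega)

lemma mx_eq31 {b : ℝ} {t : ℕ} (η ξ ξ' : Env d) {p : ℕ × Site d} (hp : p.1 ≠ t) :
    mx b t η ξ p = mx b t η ξ' p := by
  unfold mx
  rw [if_neg (fun h => hp h.1), if_neg (fun h => hp h.1)]

lemma abs_cl31 {b : ℝ} (hb : 0 ≤ b) (x : ℝ) : |cl b x| ≤ b := by
  unfold cl
  rw [abs_le]
  refine ⟨le_max_left _ _, max_le (by linarith) (min_le_left _ _)⟩

lemma mx_sub31 {b : ℝ} (hb : 0 ≤ b) (t : ℕ) (η ξ ξ' : Env d) (p : ℕ × Site d) :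
    mx b t η ξ p ≤ mx b t η ξ' p + (if p.1 = t then 2 * b else 0) := by
  classical
  unfold mx
  by_cases hp : p.1 = t
  · rw [if_pos hp]
    by_cases h2 : |η p| ≤ b
    · rw [if_pos ⟨hp, h2⟩, if_pos ⟨hp, h2⟩]
      have h3 := abs_le.1 (abs_cl31 hb (ξ p))
      have h4 := abs_le.1 (abs_cl31 hb (ξ' p))
      linarith [h3.2, h4.1]
    · rw [if_neg (fun h => h2 h.2), if_neg (fun h => h2 h.2)]
      linarith
  · rw [if_neg hp, if_neg (fun h => hp h.1), if_neg (fun h => hp h.1)]
    linarith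

lemma energy_mx31 {b : ℝ} (hb : 0 ≤ b) (t : ℕ) (η ξ ξ' : Env d) (w : Fin n → Step d) :
    energy (mx b t η ξ) w ≤ energy (mx b t η ξ') w + 2 * b := by
  unfold energy
  have h1 : ∑ i : Fin n, mx b t η ξ ((i : ℕ) + 1, pos w (i + 1)) ≤
      ∑ i : Fin n, (mx b t η ξ' ((i : ℕ) + 1, pos w (i + 1)) +
        (if (i : ℕ) + 1 = t then 2 * b else 0)) :=
    Finset.sum_le_sum fun i _ => mx_sub31 hb t η ξ ξ' _
  refine h1.trans ?_
  rw [Finset.sum_add_distrib]
  have h2 : ∑ i : Fin n, (if (i : ℕ) + 1 = t then 2 * b else 0) ≤ 2 * b := by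
    by_cases h3 : ∃ i : Fin n, (i : ℕ) + 1 = t
    · obtain ⟨i, hi⟩ := h3
      rw [Finset.sum_eq_single i]
      · rw [if_pos hi]
      · intro j _ hj
        rw [if_neg]
        intro h4
        exact hj (Fin.ext (by omega))
      · intro h4
        exact absurd (Finset.mem_univ i) h4
    · rw [Finset.sum_eq_zero]
      · linarith
      · intro i _
        rw [if_neg fun h4 => h3 ⟨i, h4⟩]
  linarith

lemma wgt_mx31 {b : ℝ} (hb : 0 ≤ b) (β : ℝ) (h : Vec d) (t : ℕ) (η ξ ξ' : Env d)
    (w : Fin n → Step d) :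
    wgt β h (mx b t η ξ) w ≤ Real.exp (2 * |β| * b) * wgt β h (mx b t η ξ') w := by
  unfold wgt
  rw [← Real.exp_add, Real.exp_le_exp]
  have h1 := energy_mx31 hb t η ξ ξ' w
  have h2 := energy_mx31 hb t η ξ' ξ w
  have h3 : |energy (mx b t η ξ) w - energy (mx b t η ξ') w| ≤ 2 * b := by
    rw [abs_le]
    constructor <;> linarith
  have h4 : β * (energy (mx b t η ξ) w - energy (mx b t η ξ') w) ≤ |β| * (2 * b) := by
    refine (le_abs_self _).trans ?_
    rw [abs_mul]
    exact mul_le_mul_of_nonneg_left h3 (abs_nonneg β)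
  linarith

lemma mass_mx31 {γ : Type*} [DecidableEq γ] (g : (Fin n → Step d) → γ) {b : ℝ} (hb : 0 ≤ b)
    (β : ℝ) (h : Vec d) (t : ℕ) (η ξ ξ' : Env d) (w : Fin n → Step d) :
    mass g (wgt β h (mx b t η ξ)) w ≤
      Real.exp (2 * |β| * b) * mass g (wgt β h (mx b t η ξ')) w := by
  unfold mass
  rw [Finset.mul_sum]
  exact Finset.sum_le_sum fun v _ => wgt_mx31 hb β h t η ξ ξ' v

lemma log_mass_mx31 {γ : Type*} [DecidableEq γ] (g : (Fin n → Step d) → γ) {b : ℝ} (hb : 0 ≤ b)
    (β : ℝ) (h : Vec d) (t : ℕ) (η ξ ξ' : Env d) (w : Fin n → Step d) :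
    |Real.log (mass g (wgt β h (mx b t η ξ)) w) - Real.log (mass g (wgt β h (mx b t η ξ')) w)| ≤
      2 * |β| * b := by
  have key : ∀ ξ ξ' : Env d, Real.log (mass g (wgt β h (mx b t η ξ)) w) ≤
      2 * |β| * b + Real.log (mass g (wgt β h (mx b t η ξ')) w) := by
    intro ξ ξ'
    have h1 := Real.log_le_log (mass_wgt_pos g β h _ w) (mass_mx31 g hb β h t η ξ ξ' w)
    rwa [Real.log_mul (Real.exp_pos _).ne' (mass_wgt_pos g β h _ w).ne', Real.log_exp] at h1
  rw [abs_le]
  constructor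
  · linarith [key ξ' ξ]
  · linarith [key ξ ξ']

/-! ### The gain -/

/-- The logarithm of the weight of the class of `w`. -/
noncomputable def lm31 (β b : ℝ) (h : Vec d) (t a b' : ℕ) (w : Fin n → Step d) (η ξ : Env d) : ℝ :=
  Real.log (mass (pr a b') (wgt β h (mx b t η ξ)) w)

lemma log_uab31 (ρ : Measure ℝ) (β b : ℝ) (h : Vec d) {t a b' : ℕ} (hat : a < t) (htb : t ≤ b')
    (hbn : b' ≤ n) (w : Fin n → Step d) (η ξ : Env d) :
    Real.log (uab ρ β b h t a b' (pos w a) (pos w b') η ξ) =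
      lm31 β b h t a b' w η ξ - lm31 β b h t a b' w η fun _ => c0 ρ β b := by
  have hab : a ≤ b' := by omega
  have e1 : PP β h (mx b t η ξ) a (pos w a) =
      PP β h (mx b t η fun _ => c0 ρ β b) a (pos w a) :=
    PP_congr31 β h (fun p hp => mx_eq31 η _ _ (by omega)) _
  have e2 : Z β h (sh b' (pos w b') (mx b t η ξ)) (n - b') =
      Z β h (sh b' (pos w b') (mx b t η fun _ => c0 ρ β b)) (n - b') :=
    Z_congr31 β h (fun p hp => mx_eq31 η _ _ (by omega)) _ _
  have h1 := mass_wgt_pos (pr a b') β h (mx b t η ξ) w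
  have h2 := mass_wgt_pos (pr a b') β h (mx b t η fun _ => c0 ρ β b) w
  unfold lm31
  rw [mass31 β h _ hab hbn] at h1 h2 ⊢
  rw [mass31 β h _ hab hbn, e1, e2]
  rw [e1, e2] at h1
  unfold uab
  have h3 : sg β h a b' (pos w a) (pos w b') (mx b t η fun _ => c0 ρ β b) ≠ 0 := by
    intro h4
    rw [h4, mul_zero, zero_mul] at h2
    exact lt_irrefl _ h2
  have h4 : sg β h a b' (pos w a) (pos w b') (mx b t η ξ) ≠ 0 := by
    intro h5
    rw [h5, mul_zero, zero_mul] at h1
    exact lt_irrefl _ h1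
  have h5 : PP β h (mx b t η fun _ => c0 ρ β b) a (pos w a) ≠ 0 := by
    intro h5
    rw [h5, zero_mul, zero_mul] at h1
    exact lt_irrefl _ h1
  have h6 : Z β h (sh b' (pos w b') (mx b t η fun _ => c0 ρ β b)) (n - b') ≠ 0 := by
    intro h5
    rw [h5, mul_zero] at h1
    exact lt_irrefl _ h1
  rw [if_neg h3, Real.log_div h4 h3, Real.log_mul (mul_ne_zero h5 h4) h6, Real.log_mul h5 h4,
    Real.log_mul (mul_ne_zero h5 h3) h6, Real.log_mul h5 h3]
  ring

/-! ### Measurability -/

lemma measurable_mx31 (b : ℝ) (t : ℕ) :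
    Measurable fun q : Env d × Env d => mx b t q.1 q.2 := by
  classical
  refine measurable_pi_lambda _ fun p => ?_
  unfold mx
  have h1 : Measurable fun q : Env d × Env d => q.1 p := (measurable_pi_apply p).comp measurable_fst
  have h2 : Measurable fun q : Env d × Env d => q.2 p := (measurable_pi_apply p).comp measurable_snd
  have h3 : MeasurableSet {q : Env d × Env d | p.1 = t ∧ |q.1 p| ≤ b} := by
    by_cases hp : p.1 = t
    · simp only [hp, true_and]
      exact measurableSet_le h1.abs measurable_const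
    · simp only [hp, false_and]
      exact MeasurableSet.const _
  refine Measurable.ite h3 ?_ h1
  unfold cl
  exact measurable_const.max (measurable_const.min h2)

lemma measurable_mass31 {γ : Type*} [DecidableEq γ] (g : (Fin n → Step d) → γ) (β : ℝ) (h : Vec d)
    (w : Fin n → Step d) : Measurable fun η : Env d => mass g (wgt β h η) w := by
  unfold mass
  exact Finset.measurable_sum _ fun v _ => measurable_wgt β h v

lemma measurable_pw31 (β : ℝ) (h : Vec d) (w : Fin n → Step d) :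
    Measurable fun η : Env d => pw β h n η w := (measurable_wgt β h w).div (measurable_Z β h n)

lemma measurable_lm31 (β b : ℝ) (h : Vec d) (t a b' : ℕ) (w : Fin n → Step d) :
    Measurable fun q : Env d × Env d => lm31 β b h t a b' w q.1 q.2 :=
  Real.measurable_log.comp ((measurable_mass31 (pr a b') β h w).comp (measurable_mx31 b t))

/-! ### The selection as a sum over the walks -/

section Sel

variable (P : Measure (Env d)) [IsProbabilityMeasure P]

/-- The selection of the row `t` for fixed values elsewhere and at the row. -/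
noncomputable def g31 (β b : ℝ) (h : Vec d) (n t a b' : ℕ) (η ξ : Env d) : ℝ :=
  ∑ w : Fin n → Step d, pw β h n (mx b t η ξ) w *
    (lm31 β b h t a b' w η ξ - ∫ ξ', lm31 β b h t a b' w η ξ' ∂P)

omit [IsProbabilityMeasure P] in
lemma measurable_g31 [SFinite P] (β b : ℝ) (h : Vec d) (n t a b' : ℕ) :
    Measurable fun q : Env d × Env d => g31 P β b h n t a b' q.1 q.2 := by
  unfold g31
  refine Finset.measurable_sum _ fun w _ => ?_
  refine ((measurable_pw31 β h w).comp (measurable_mx31 b t)).mul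
    ((measurable_lm31 β b h t a b' w).sub ?_)
  have h1 : StronglyMeasurable fun η : Env d => ∫ ξ', lm31 β b h t a b' w η ξ' ∂P :=
    (measurable_lm31 β b h t a b' w).stronglyMeasurable.integral_prod_right'
  exact h1.measurable.comp measurable_fst

lemma lm_sub31 {b : ℝ} (hb : 0 ≤ b) (β : ℝ) (h : Vec d) (t a b' : ℕ) (w : Fin n → Step d)
    (η ξ ξ' : Env d) :
    |lm31 β b h t a b' w η ξ - lm31 β b h t a b' w η ξ'| ≤ 2 * |β| * b :=
  log_mass_mx31 (pr a b') hb β h t η ξ ξ' w

lemma integrable_lm31 {b : ℝ} (hb : 0 ≤ b) (β : ℝ) (h : Vec d) (t a b' : ℕ)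
    (w : Fin n → Step d) (η : Env d) :
    Integrable (fun ξ => lm31 β b h t a b' w η ξ) P := by
  have hm : Measurable fun ξ : Env d => lm31 β b h t a b' w η ξ :=
    Measurable.of_uncurry_left (f := fun η ξ : Env d => lm31 β b h t a b' w η ξ)
      (measurable_lm31 β b h t a b' w)
  refine Integrable.of_bound hm.aestronglyMeasurable
    (|lm31 β b h t a b' w η 0| + 2 * |β| * b) (Eventually.of_forall fun ξ => ?_)
  rw [Real.norm_eq_abs]
  have h1 := lm_sub31 hb β h t a b' w η ξ 0
  have h2 : |lm31 β b h t a b' w η ξ| ≤ |lm31 β b h t a b' w η 0| +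
      |lm31 β b h t a b' w η ξ - lm31 β b h t a b' w η 0| := by
    have := abs_add_le (lm31 β b h t a b' w η 0)
      (lm31 β b h t a b' w η ξ - lm31 β b h t a b' w η 0)
    rwa [add_sub_cancel] at this
  linarith

lemma lm_int31 {b : ℝ} (hb : 0 ≤ b) (β : ℝ) (h : Vec d) (t a b' : ℕ) (w : Fin n → Step d)
    (η ξ : Env d) :
    |lm31 β b h t a b' w η ξ - ∫ ξ', lm31 β b h t a b' w η ξ' ∂P| ≤ 2 * |β| * b := by
  have h0 := integrable_lm31 P hb β h t a b' w η
  have h1 : lm31 β b h t a b' w η ξ - ∫ ξ', lm31 β b h t a b' w η ξ' ∂P =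
      ∫ ξ', (lm31 β b h t a b' w η ξ - lm31 β b h t a b' w η ξ') ∂P := by
    rw [integral_sub (integrable_const _) h0, integral_const, probReal_univ, one_smul]
  rw [h1]
  have h2 := norm_integral_le_of_norm_le_const (μ := P)
    (f := fun ξ' => lm31 β b h t a b' w η ξ - lm31 β b h t a b' w η ξ') (C := 2 * |β| * b)
    (Eventually.of_forall fun ξ' => by
      rw [Real.norm_eq_abs]
      exact lm_sub31 hb β h t a b' w η ξ ξ')
  rwa [probReal_univ, mul_one, Real.norm_eq_abs] at h2

lemma abs_g31 (hd : 0 < d) {b : ℝ} (hb : 0 ≤ b) (β : ℝ) (h : Vec d) (n t a b' : ℕ)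
    (η ξ : Env d) : |g31 P β b h n t a b' η ξ| ≤ 2 * |β| * b := by
  unfold g31
  refine (Finset.abs_sum_le_sum_abs _ _).trans ?_
  calc ∑ w : Fin n → Step d, |pw β h n (mx b t η ξ) w *
        (lm31 β b h t a b' w η ξ - ∫ ξ', lm31 β b h t a b' w η ξ' ∂P)|
      ≤ ∑ w : Fin n → Step d, pw β h n (mx b t η ξ) w * (2 * |β| * b) := by
        refine Finset.sum_le_sum fun w _ => ?_
        rw [abs_mul, abs_of_pos (pw_pos hd β h n _ w)]
        exact mul_le_mul_of_nonneg_left (lm_int31 P hb β h t a b' w η ξ)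
          (pw_pos hd β h n _ w).le
    _ = 2 * |β| * b := by rw [← Finset.sum_mul, pw_sum hd, one_mul]

lemma integrable_g31 (hd : 0 < d) {b : ℝ} (hb : 0 ≤ b) (β : ℝ) (h : Vec d) (n t a b' : ℕ)
    (η : Env d) : Integrable (fun ξ => g31 P β b h n t a b' η ξ) P := by
  have hm : Measurable fun ξ : Env d => g31 P β b h n t a b' η ξ :=
    Measurable.of_uncurry_left (f := fun η ξ : Env d => g31 P β b h n t a b' η ξ)
      (measurable_g31 P β b h n t a b')
  exact Integrable.of_bound hm.aestronglyMeasurable (2 * |β| * b)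
    (Eventually.of_forall fun ξ => by
      rw [Real.norm_eq_abs]
      exact abs_g31 P hd hb β h n t a b' η ξ)

/-- The selection is the mean of a difference over a resampled row. -/
lemma g31_eq {b : ℝ} (hb : 0 ≤ b) (β : ℝ) (h : Vec d) (n t a b' : ℕ) (η ξ : Env d) :
    g31 P β b h n t a b' η ξ = ∫ ξ', ∑ w : Fin n → Step d, pw β h n (mx b t η ξ) w *
      (lm31 β b h t a b' w η ξ - lm31 β b h t a b' w η ξ') ∂P := by
  unfold g31
  have h0 := fun w => integrable_lm31 P hb β h t a b' (n := n) w η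
  have h2 : ∀ w ∈ (Finset.univ : Finset (Fin n → Step d)), Integrable (fun ξ' =>
      pw β h n (mx b t η ξ) w * (lm31 β b h t a b' w η ξ - lm31 β b h t a b' w η ξ')) P :=
    fun w _ => ((integrable_const _).sub (h0 w)).const_mul _
  rw [integral_finsetSum _ h2]
  refine Finset.sum_congr rfl fun w _ => ?_
  rw [integral_const_mul, integral_sub (integrable_const _) (h0 w), integral_const, probReal_univ,
    one_smul]

lemma integrable_F31 {b : ℝ} (hb : 0 ≤ b) (β : ℝ) (h : Vec d) (n t a b' : ℕ) (η ξ : Env d) :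
    Integrable (fun ξ' => ∑ w : Fin n → Step d, pw β h n (mx b t η ξ) w *
      (lm31 β b h t a b' w η ξ - lm31 β b h t a b' w η ξ')) P :=
  integrable_finsetSum _ fun w _ =>
    ((integrable_const _).sub (integrable_lm31 P hb β h t a b' w η)).const_mul _

omit [IsProbabilityMeasure P] in
/-- The difference is a relative entropy plus the change of the free energy. -/
lemma F31_eq (hd : 0 < d) (β b : ℝ) (h : Vec d) (n t a b' : ℕ) (η ξ ξ' : Env d) :
    ∑ w : Fin n → Step d, pw β h n (mx b t η ξ) w *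
      (lm31 β b h t a b' w η ξ - lm31 β b h t a b' w η ξ') =
      kl (pr a b') (pw β h n (mx b t η ξ)) (pw β h n (mx b t η ξ')) +
        (X β h (mx b t η ξ) n - X β h (mx b t η ξ') n) := by
  rw [kl_pw hd]
  unfold lm31
  ring

/-- **Data processing.** -/
lemma g31_mono (hd : 0 < d) {b : ℝ} (hb : 0 ≤ b) (β : ℝ) (h : Vec d) {n t a a' b₁ b₂ : ℕ}
    (haa : a' ≤ a) (hat : a < t) (htb : t ≤ b₁) (hbb : b₁ ≤ b₂) (hbn : b₂ ≤ n) (η ξ : Env d) :
    g31 P β b h n t a' b₂ η ξ ≤ g31 P β b h n t a b₁ η ξ := by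
  rw [g31_eq P hb, g31_eq P hb]
  refine integral_mono (integrable_F31 P hb β h n t a' b₂ η ξ)
    (integrable_F31 P hb β h n t a b₁ η ξ) fun ξ' => ?_
  simp only
  rw [F31_eq hd, F31_eq hd]
  have h1 := kl_out34 hd (n := n) (show a ≤ b₁ by omega) (show b₁ ≤ n by omega) β h
    (η := mx b t η ξ) (ζ := mx b t η ξ')
    (fun p hp => mx_eq31 η ξ ξ' (fun h2 => hp (by omega)))
    (g := pr a' b₂) (pr_blind haa (by omega) hbb)
  linarith

lemma X_mx31 (hd : 0 < d) {b : ℝ} (hb : 0 ≤ b) (β : ℝ) (h : Vec d) (n t : ℕ)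
    (η ξ ξ' : Env d) : |X β h (mx b t η ξ) n - X β h (mx b t η ξ') n| ≤ 2 * |β| * b := by
  have key : ∀ ξ ξ' : Env d, X β h (mx b t η ξ) n ≤ 2 * |β| * b + X β h (mx b t η ξ') n := by
    intro ξ ξ'
    have h2 : Z β h (mx b t η ξ) n ≤ Real.exp (2 * |β| * b) * Z β h (mx b t η ξ') n := by
      rw [Z_eq, Z_eq, Finset.mul_sum]
      exact Finset.sum_le_sum fun v _ => wgt_mx31 hb β h t η ξ ξ' v
    have h1 := Real.log_le_log (Z_pos hd β h _ n) h2
    rwa [Real.log_mul (Real.exp_pos _).ne' (Z_pos hd β h _ n).ne', Real.log_exp] at h1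
  rw [abs_le]
  constructor
  · linarith [key ξ' ξ]
  · linarith [key ξ ξ']

lemma integrable_X31 (hd : 0 < d) {b : ℝ} (hb : 0 ≤ b) (β : ℝ) (h : Vec d) (n t : ℕ)
    (η : Env d) : Integrable (fun ξ => X β h (mx b t η ξ) n) P := by
  have hm : Measurable fun ξ : Env d => X β h (mx b t η ξ) n :=
    Measurable.of_uncurry_left (f := fun η ξ : Env d => X β h (mx b t η ξ) n)
      ((measurable_X β h n).comp (measurable_mx31 b t))
  refine Integrable.of_bound hm.aestronglyMeasurable
    (|X β h (mx b t η 0) n| + 2 * |β| * b) (Eventually.of_forall fun ξ => ?_)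
  rw [Real.norm_eq_abs]
  have h1 := X_mx31 hd hb β h n t η ξ 0
  have h2 := abs_add_le (X β h (mx b t η 0) n) (X β h (mx b t η ξ) n - X β h (mx b t η 0) n)
  rw [add_sub_cancel] at h2
  linarith

/-- The selection is nonnegative. -/
lemma int_g31_nonneg (hd : 0 < d) {b : ℝ} (hb : 0 ≤ b) (β : ℝ) (h : Vec d) (n t a b' : ℕ)
    (η : Env d) : 0 ≤ ∫ ξ, g31 P β b h n t a b' η ξ ∂P := by
  have hX := integrable_X31 P hd hb β h n t η
  have h1 : ∀ ξ : Env d, X β h (mx b t η ξ) n - ∫ ξ', X β h (mx b t η ξ') n ∂P ≤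
      g31 P β b h n t a b' η ξ := by
    intro ξ
    rw [g31_eq P hb]
    have h2 : X β h (mx b t η ξ) n - ∫ ξ', X β h (mx b t η ξ') n ∂P =
        ∫ ξ', (X β h (mx b t η ξ) n - X β h (mx b t η ξ') n) ∂P := by
      rw [integral_sub (integrable_const _) hX, integral_const, probReal_univ, one_smul]
    rw [h2]
    refine integral_mono ((integrable_const _).sub hX) (integrable_F31 P hb β h n t a b' η ξ)
      fun ξ' => ?_
    simp only
    rw [F31_eq hd]
    have h3 := kl_nonneg (pr a b') (fun w => pw_pos hd β h n (mx b t η ξ) w)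
      (fun w => pw_pos hd β h n (mx b t η ξ') w) (pw_sum hd β h n _) (pw_sum hd β h n _)
    linarith
  have h4 := integral_mono (hX.sub (integrable_const _)) (integrable_g31 P hd hb β h n t a b' η) h1
  have h5 : ∫ ξ, (X β h (mx b t η ξ) n - ∫ ξ', X β h (mx b t η ξ') n ∂P) ∂P = 0 := by
    rw [integral_sub hX (integrable_const _), integral_const, probReal_univ, one_smul, sub_self]
  calc (0 : ℝ) = ∫ ξ, (X β h (mx b t η ξ) n - ∫ ξ', X β h (mx b t η ξ') n ∂P) ∂P := h5.symm
    _ ≤ _ := h4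

lemma int_g31_le (hd : 0 < d) {b : ℝ} (hb : 0 ≤ b) (β : ℝ) (h : Vec d) (n t a b' : ℕ)
    (η : Env d) : |∫ ξ, g31 P β b h n t a b' η ξ ∂P| ≤ 2 * |β| * b := by
  have h2 := norm_integral_le_of_norm_le_const (μ := P)
    (f := fun ξ => g31 P β b h n t a b' η ξ) (C := 2 * |β| * b)
    (Eventually.of_forall fun ξ => by
      rw [Real.norm_eq_abs]
      exact abs_g31 P hd hb β h n t a b' η ξ)
  rwa [probReal_univ, mul_one, Real.norm_eq_abs] at h2

lemma integrable_int_g31 (hd : 0 < d) {b : ℝ} (hb : 0 ≤ b) (β : ℝ) (h : Vec d) (n t a b' : ℕ)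
    (P' : Measure (Env d)) [IsProbabilityMeasure P'] :
    Integrable (fun η => ∫ ξ, g31 P β b h n t a b' η ξ ∂P) P' := by
  have hm : StronglyMeasurable fun η : Env d => ∫ ξ, g31 P β b h n t a b' η ξ ∂P :=
    (measurable_g31 P β b h n t a b').stronglyMeasurable.integral_prod_right'
  exact Integrable.of_bound hm.aestronglyMeasurable (2 * |β| * b)
    (Eventually.of_forall fun η => by
      rw [Real.norm_eq_abs]
      exact int_g31_le P hd hb β h n t a b' η)

end Sel

/-- The law of a bounded value is a probability measure. -/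
lemma prob_rb31 {ρ : Measure ℝ} [IsProbabilityMeasure ρ] {b : ℝ} (hb : HB ρ b) : IsProbabilityMeasure (rb ρ b) := by
  unfold rb
  refine cond_isProbabilityMeasure ?_
  intro h0
  have h1 := hb.half
  unfold Measure.real at h1
  rw [h0] at h1
  simp at h1
  linarith

/-- The selection of the polymer, as a sum over the walks. -/
lemma kap_eq31 (ρ : Measure ℝ) [IsProbabilityMeasure ρ] {β b : ℝ} (hb : HB ρ b) (h : Vec d)
    {n t a b' : ℕ} (hat : a < t) (htb : t ≤ b') (hbn : b' ≤ n) :
    kap ρ β b h n t a b' =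
      ∫ η, ∫ ξ, g31 (law d (rb ρ b)) β b h n t a b' η ξ ∂(law d (rb ρ b)) ∂(law d ρ) := by
  have := prob_rb31 hb
  unfold kap
  congr 1
  funext η
  congr 1
  funext ξ
  rw [sum31 β h _ (show a ≤ b' by omega) hbn
    (fun x y => Real.log (uab ρ β b h t a b' x y η ξ) - psab ρ β b h t a b' x y η)]
  unfold g31
  refine Finset.sum_congr rfl fun w _ => ?_
  congr 1
  have h0 := integrable_lm31 (law d (rb ρ b)) hb.b0.le β h t a b' w η
  have h1 : psab ρ β b h t a b' (pos w a) (pos w b') η =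
      (∫ ξ', lm31 β b h t a b' w η ξ' ∂(law d (rb ρ b))) -
        lm31 β b h t a b' w η fun _ => c0 ρ β b := by
    unfold psab
    have h2 : (fun ξ => Real.log (uab ρ β b h t a b' (pos w a) (pos w b') η ξ)) =
        fun ξ => lm31 β b h t a b' w η ξ - lm31 β b h t a b' w η fun _ => c0 ρ β b := by
      funext ξ
      exact log_uab31 ρ β b h hat htb hbn w η ξ
    rw [h2, integral_sub h0 (integrable_const _), integral_const, probReal_univ, one_smul]
  rw [h1, log_uab31 ρ β b h hat htb hbn w η ξ]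
  ring

/-- **Leaf M.** -/
theorem monT31 {d : ℕ} (hd : 0 < d) (ρ : Measure ℝ) [IsProbabilityMeasure ρ] {β b : ℝ}
    (hb : HB ρ b) : MonT d ρ β b := by
  intro h n t a a' b₁ b₂ haa hat htb hbb hbn
  have := prob_rb31 hb
  rw [kap_eq31 ρ hb h hat htb (by omega), kap_eq31 ρ hb h (by omega) (by omega) hbn]
  have h4 : 2 * |β| * b ≤ 4 * |β| * b := by
    have := mul_nonneg (abs_nonneg β) hb.b0.le
    linarith
  refine ⟨integral_nonneg fun η => int_g31_nonneg _ hd hb.b0.le β h n t a b₁ η, ?_, ?_⟩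
  · have h2 := norm_integral_le_of_norm_le_const (μ := law d ρ)
      (f := fun η => ∫ ξ, g31 (law d (rb ρ b)) β b h n t a b₁ η ξ ∂(law d (rb ρ b)))
      (C := 2 * |β| * b) (Eventually.of_forall fun η => by
        rw [Real.norm_eq_abs]
        exact int_g31_le _ hd hb.b0.le β h n t a b₁ η)
    rw [probReal_univ, mul_one, Real.norm_eq_abs] at h2
    exact ((le_abs_self _).trans h2).trans h4
  · refine integral_mono (integrable_int_g31 _ hd hb.b0.le β h n t a' b₂ _)
      (integrable_int_g31 _ hd hb.b0.le β h n t a b₁ _) fun η => ?_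
    exact integral_mono (integrable_g31 _ hd hb.b0.le β h n t a' b₂ η)
      (integrable_g31 _ hd hb.b0.le β h n t a b₁ η) fun ξ =>
        g31_mono _ hd hb.b0.le β h haa hat htb hbb hbn η ξ

end Pool.Agent.W_7d29a1_NV
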