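import Pool.Agent.W_7d29a1_NV.DefsNV
import Pool.Agent.W_7d29a1_Q29.Csy42

/-!
The resampling of the bounded values, for large bounds: the standing hypotheses and the mean of
the unbounded part.
-/

namespace Pool.Agent.W_7d29a1_NV

open MeasureTheory ProbabilityTheory Filter Topology Pool.Agent.W_MP_7d29a1_pr
  Pool.Agent.W_7d29a1_h46 Pool.Agent.W_7d29a1_h46u Pool.Agent.W_7d29a1_D2.B35
  Pool.Agent.W_7d29a1_Q29 Pool.Agent.W_7d29a1_Q29.Csy42

variable {ρ : Measure ℝ} [IsProbabilityMeasure ρ]

/-- The value of a site of the base environment, minus the annealed constant. -/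
noncomputable def fb21 (ρ : Measure ℝ) (β b x : ℝ) : ℝ :=
  if |x| ≤ b then β * c0 ρ β b - cb ρ β else β * x - cb ρ β

lemma icc_eq21 (b : ℝ) : Set.Icc (-b) b = {x : ℝ | |x| ≤ b} := by
  ext x
  exact abs_le.symm

lemma tendsto_icc21 : Tendsto (fun b : ℝ => ρ.real (Set.Icc (-b) b)) atTop (𝓝 1) := by
  have h1 : Tendsto (fun b : ℝ => ∫ x, (Set.Icc (-b) b).indicator (fun _ => (1 : ℝ)) x ∂ρ) atTop
      (𝓝 (∫ x : ℝ, (1 : ℝ) ∂ρ)) := by
    refine tendsto_integral_filter_of_dominated_convergence (fun _ => (1 : ℝ)) ?_ ?_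
      (integrable_const _) ?_
    · exact Eventually.of_forall fun b =>
        (measurable_const.indicator measurableSet_Icc).aestronglyMeasurable
    · refine Eventually.of_forall fun b => Eventually.of_forall fun x => ?_
      by_cases hx : x ∈ Set.Icc (-b) b
      · simp [hx]
      · simp [hx]
    · refine Eventually.of_forall fun x => ?_
      refine tendsto_const_nhds.congr' ?_
      filter_upwards [eventually_ge_atTop |x|] with b hb
      rw [Set.indicator_of_mem]
      exact abs_le.1 hb
  simp only [integral_indicator measurableSet_Icc, integral_const, probReal_univ, smul_eq_mul,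
    mul_one, MeasurableSet.univ, measureReal_restrict_apply, Set.univ_inter] at h1
  exact h1

/-- The standing hypotheses hold for all large bounds. -/
lemma eventually_HB21 (hnc : ∀ c : ℝ, ρ {c} ≠ 1) : ∀ᶠ b in atTop, HB ρ b := by
  have hT := tendsto_icc21 (ρ := ρ)
  have hcond : ∀ b c : ℝ, rb ρ b {c} = 1 → ρ.real (Set.Icc (-b) b) ≤ ρ.real {c} := by
    intro b c h
    unfold rb at h
    rw [ProbabilityTheory.cond_apply measurableSet_Icc] at h
    have h0 : ρ (Set.Icc (-b) b) ≠ 0 := by
      intro h0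
      rw [h0] at h
      have h3 : ρ (Set.Icc (-b) b ∩ {c}) = 0 := measure_mono_null Set.inter_subset_left h0
      rw [h3, mul_zero] at h
      exact zero_ne_one h
    have h4 : ρ (Set.Icc (-b) b) ≤ ρ {c} := by
      have h5 : ρ (Set.Icc (-b) b ∩ {c}) = ρ (Set.Icc (-b) b) := by
        have h6 := congrArg (fun z => ρ (Set.Icc (-b) b) * z) h
        rwa [← mul_assoc, ENNReal.mul_inv_cancel h0 (measure_ne_top _ _), one_mul, mul_one] at h6
      rw [← h5]
      exact measure_mono Set.inter_subset_right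
    exact ENNReal.toReal_mono (measure_ne_top _ _) h4
  have hhalf : ∀ᶠ b in atTop, 1 / 2 < ρ.real (Set.Icc (-b) b) :=
    hT.eventually (lt_mem_nhds (by norm_num : (1 / 2 : ℝ) < 1))
  by_cases hA : ∃ c : ℝ, 1 / 2 < ρ.real {c}
  · obtain ⟨c, hc⟩ := hA
    have hc1 : ρ.real {c} < 1 := by
      refine lt_of_le_of_ne measureReal_le_one fun h => hnc c ?_
      have h2 : (ρ {c}).toReal = 1 := h
      rw [← ENNReal.ofReal_toReal (measure_ne_top ρ {c}), h2, ENNReal.ofReal_one]
    filter_upwards [eventually_gt_atTop 0, hhalf, hT.eventually (lt_mem_nhds hc1)]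
      with b h1 h2 h3
    refine ⟨h1, h2.le, fun c' hc' => ?_⟩
    have h4 := hcond b c' hc'
    by_cases hcc : c' = c
    · rw [hcc] at h4
      linarith
    · have h5 : ρ.real {c} + ρ.real {c'} ≤ 1 := by
        have hd : Disjoint ({c} : Set ℝ) {c'} := Set.disjoint_singleton.2 fun h => hcc h.symm
        rw [← measureReal_union hd (measurableSet_singleton c')]
        exact measureReal_le_one
      linarith
  · filter_upwards [eventually_gt_atTop 0, hhalf] with b h1 h2
    refine ⟨h1, h2.le, fun c' hc' => hA ⟨c', ?_⟩⟩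
    exact lt_of_lt_of_le h2 (hcond b c' hc')

/-- The mean of the exponential under the law of the bounded values. -/
lemma tendsto_c021 (hρ : EM ρ) {β : ℝ} (hβ : β ≠ 0) :
    Tendsto (fun b : ℝ => β * c0 ρ β b) atTop (𝓝 (cb ρ β)) := by
  have hint := hρ β
  have h1 : Tendsto (fun b : ℝ => ∫ x, (Set.Icc (-b) b).indicator
      (fun x => Real.exp (β * x)) x ∂ρ) atTop (𝓝 (∫ x : ℝ, Real.exp (β * x) ∂ρ)) := by
    refine tendsto_integral_filter_of_dominated_convergence (fun x => Real.exp (β * x)) ?_ ?_
      hint ?_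
    · exact Eventually.of_forall fun b => (hint.aestronglyMeasurable.indicator measurableSet_Icc)
    · refine Eventually.of_forall fun b => Eventually.of_forall fun x => ?_
      by_cases hx : x ∈ Set.Icc (-b) b
      · rw [Set.indicator_of_mem hx, Real.norm_eq_abs, abs_of_pos (Real.exp_pos _)]
      · rw [Set.indicator_of_notMem hx, norm_zero]
        exact (Real.exp_pos _).le
    · refine Eventually.of_forall fun x => ?_
      refine tendsto_const_nhds.congr' ?_
      filter_upwards [eventually_ge_atTop |x|] with b hb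
      rw [Set.indicator_of_mem]
      exact abs_le.1 hb
  have hpos : 0 < ∫ x : ℝ, Real.exp (β * x) ∂ρ := integral_exp_pos hint
  have h2 : Tendsto (fun b : ℝ => (ρ.real (Set.Icc (-b) b))⁻¹ *
      ∫ x, (Set.Icc (-b) b).indicator (fun x => Real.exp (β * x)) x ∂ρ) atTop
      (𝓝 (∫ x : ℝ, Real.exp (β * x) ∂ρ)) := by
    have := (tendsto_icc21 (ρ := ρ).inv₀ one_ne_zero).mul h1
    rwa [inv_one, one_mul] at this
  have h3 := (Real.continuousAt_log hpos.ne').tendsto.comp h2
  refine h3.congr fun b => ?_
  show Real.log ((ρ.real (Set.Icc (-b) b))⁻¹ *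
    ∫ x, (Set.Icc (-b) b).indicator (fun x => Real.exp (β * x)) x ∂ρ) = _
  unfold c0 rb
  rw [mul_div_cancel₀ _ hβ, ProbabilityTheory.cond, integral_smul_measure,
    integral_indicator measurableSet_Icc, smul_eq_mul, ENNReal.toReal_inv]
  rfl

lemma integrable_id21 (hρ : EM ρ) : Integrable (fun x : ℝ => |x|) ρ := by
  have h1 := (hρ 1).add (hρ (-1))
  refine h1.mono' measurable_norm.aestronglyMeasurable (Eventually.of_forall fun x => ?_)
  rw [Real.norm_eq_abs, abs_abs]
  show |x| ≤ Real.exp (1 * x) + Real.exp (-1 * x)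
  have h2 := Real.add_one_le_exp (1 * x)
  have h3 := Real.add_one_le_exp (-1 * x)
  have h4 := Real.exp_pos (1 * x)
  have h5 := Real.exp_pos (-1 * x)
  rcases abs_choice x with h | h <;> rw [h] <;> linarith

lemma measurable_fb21 (β b : ℝ) : Measurable (fb21 ρ β b) := by
  unfold fb21
  refine Measurable.ite ?_ measurable_const ((measurable_id.const_mul β).sub_const _)
  exact measurableSet_le measurable_norm measurable_const

lemma integrable_fb21 (hρ : EM ρ) (β b : ℝ) : Integrable (fb21 ρ β b) ρ := by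
  refine (((integrable_id21 hρ).const_mul |β|).add
    (integrable_const (|β * c0 ρ β b| + |cb ρ β|))).mono'
    (measurable_fb21 β b).aestronglyMeasurable (Eventually.of_forall fun x => ?_)
  rw [Real.norm_eq_abs]
  show |fb21 ρ β b x| ≤ |β| * |x| + (|β * c0 ρ β b| + |cb ρ β|)
  have h0 : 0 ≤ |β| * |x| := by positivity
  unfold fb21
  split_ifs
  · have := abs_sub (β * c0 ρ β b) (cb ρ β)
    linarith
  · have h1 := abs_sub (β * x) (cb ρ β)
    rw [abs_mul] at h1
    have := abs_nonneg (β * c0 ρ β b)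
    linarith

/-- The mean of the base value tends to the annealed constant. -/
lemma tendsto_fb21 (hρ : EM ρ) {β : ℝ} (hβ : β ≠ 0) :
    Tendsto (fun b : ℝ => ∫ x, fb21 ρ β b x ∂ρ) atTop (𝓝 0) := by
  have h1 := tendsto_c021 hρ hβ
  have h2 : Tendsto (fun b : ℝ => ∫ x, fb21 ρ β b x ∂ρ) atTop (𝓝 (∫ _ : ℝ, (0 : ℝ) ∂ρ)) := by
    refine tendsto_integral_filter_of_dominated_convergence
      (fun x => |β| * |x| + (1 + 2 * |cb ρ β|)) ?_ ?_
      (((integrable_id21 hρ).const_mul |β|).add (integrable_const _)) ?_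
    · exact Eventually.of_forall fun b => (measurable_fb21 β b).aestronglyMeasurable
    · have h3 := (h1.sub_const (cb ρ β)).abs
      rw [sub_self, abs_zero] at h3
      filter_upwards [h3.eventually (gt_mem_nhds (by norm_num : (0 : ℝ) < 1))] with b hb
      refine Eventually.of_forall fun x => ?_
      rw [Real.norm_eq_abs]
      have h0 : 0 ≤ |β| * |x| := by positivity
      have h5 := abs_nonneg (cb ρ β)
      unfold fb21
      split_ifs
      · linarith
      · have h1 := abs_sub (β * x) (cb ρ β)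
        rw [abs_mul] at h1
        linarith
    · refine Eventually.of_forall fun x => ?_
      have h3 := h1.sub_const (cb ρ β)
      rw [sub_self] at h3
      refine h3.congr' ?_
      filter_upwards [eventually_ge_atTop |x|] with b hb
      unfold fb21
      rw [if_pos hb]
  rwa [integral_zero] at h2

/-- A large bound for which the unbounded part has a small mean. -/
theorem exists_b21 (hρ : EM ρ) {β : ℝ} (hβ : β ≠ 0) (hnc : ∀ c : ℝ, ρ {c} ≠ 1) {e : ℝ}
    (he : 0 < e) : ∃ b : ℝ, HB ρ b ∧ -e ≤ ∫ x, fb21 ρ β b x ∂ρ := by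
  have h1 := (tendsto_fb21 hρ hβ).eventually (lt_mem_nhds (neg_lt_zero.2 he))
  obtain ⟨b, hb1, hb2⟩ := ((eventually_HB21 hnc).and h1).exists
  exact ⟨b, hb1, hb2.le⟩

end Pool.Agent.W_7d29a1_NV
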