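import Pool.Agent.W_7d29a1_NV.MeasN66
import Pool.Agent.W_7d29a1_Q29.Sum98

/-!
Leaf Q: `TwoT` for the polymer.
-/

namespace Pool.Agent.W_7d29a1_NV.M66

open MeasureTheory ProbabilityTheory Filter Topology Pool.Agent.W_MP_7d29a1_pr
  Pool.Agent.W_7d29a1_h46 Pool.Agent.W_7d29a1_h46u Pool.Agent.W_7d29a1_D2.B35
  Pool.Agent.W_7d29a1_Q29 Pool.Agent.W_7d29a1_NV

/-! ### The abstract model -/

section Abs

variable {Ω S : Type} [MeasurableSpace Ω] [Fintype S] {k : ℕ} {P : Measure Ω}
  {Q : S → ℝ} {u : Fin k → S → Ω → ℝ} {B : ℝ}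

lemma prod_bd (H : HT P Q u B) (ω : Fin k → Ω) (s : S) :
    Real.exp (-(B * k)) ≤ ∏ i, u i s (ω i) ∧ ∏ i, u i s (ω i) ≤ Real.exp (B * k) := by
  have e1 : Real.exp (-(B * k)) = ∏ _i : Fin k, Real.exp (-B) := by
    rw [Finset.prod_const, Finset.card_univ, Fintype.card_fin, ← Real.exp_nat_mul]
    congr 1
    ring
  have e2 : Real.exp (B * k) = ∏ _i : Fin k, Real.exp B := by
    rw [Finset.prod_const, Finset.card_univ, Fintype.card_fin, ← Real.exp_nat_mul]
    congr 1
    ring
  constructor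
  · rw [e1]
    exact Finset.prod_le_prod (fun i _ => (Real.exp_pos _).le) fun i _ => H.lo i s _
  · rw [e2]
    exact Finset.prod_le_prod (fun i _ => (Real.exp_pos _).le.trans (H.lo i s _))
      fun i _ => H.hi i s _

lemma wT_nonneg (H : HT P Q u B) (ω : Fin k → Ω) (s : S) : 0 ≤ wT Q u ω s :=
  mul_nonneg (H.q0 s) ((Real.exp_pos _).le.trans (prod_bd H ω s).1)

lemma dT_bd (H : HT P Q u B) (ω : Fin k → Ω) :
    Real.exp (-(B * k)) ≤ dT Q u ω ∧ dT Q u ω ≤ Real.exp (B * k) := by
  constructor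
  · calc Real.exp (-(B * k)) = ∑ s, Q s * Real.exp (-(B * k)) := by
          rw [← Finset.sum_mul, H.q1, one_mul]
      _ ≤ dT Q u ω := Finset.sum_le_sum fun s _ =>
          mul_le_mul_of_nonneg_left (prod_bd H ω s).1 (H.q0 s)
  · calc dT Q u ω ≤ ∑ s, Q s * Real.exp (B * k) := Finset.sum_le_sum fun s _ =>
          mul_le_mul_of_nonneg_left (prod_bd H ω s).2 (H.q0 s)
      _ = Real.exp (B * k) := by rw [← Finset.sum_mul, H.q1, one_mul]

lemma dT_pos (H : HT P Q u B) (ω : Fin k → Ω) : 0 < dT Q u ω :=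
  (Real.exp_pos _).trans_le (dT_bd H ω).1

lemma prT_nonneg (H : HT P Q u B) (ω : Fin k → Ω) (s : S) : 0 ≤ prT Q u ω s :=
  div_nonneg (wT_nonneg H ω s) (dT_pos H ω).le

lemma prT_sum (H : HT P Q u B) (ω : Fin k → Ω) : ∑ s, prT Q u ω s = 1 := by
  unfold prT
  rw [← Finset.sum_div]
  exact div_self (dT_pos H ω).ne'

lemma log_dT (H : HT P Q u B) (ω : Fin k → Ω) : |Real.log (dT Q u ω)| ≤ B * k := by
  obtain ⟨h1, h2⟩ := dT_bd H ω
  rw [abs_le]
  constructor
  · have := Real.log_le_log (Real.exp_pos _) h1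
    rwa [Real.log_exp] at this
  · have := Real.log_le_log (dT_pos H ω) h2
    rwa [Real.log_exp] at this

lemma log_u (H : HT P Q u B) (i : Fin k) (s : S) (x : Ω) : |Real.log (u i s x)| ≤ B := by
  have h1 := H.lo i s x
  have h2 := H.hi i s x
  rw [abs_le]
  constructor
  · have := Real.log_le_log (Real.exp_pos _) h1
    rwa [Real.log_exp] at this
  · have := Real.log_le_log ((Real.exp_pos _).trans_le h1) h2
    rwa [Real.log_exp] at this

lemma B_nonneg (H : HT P Q u B) (i : Fin k) (s : S) (x : Ω) : 0 ≤ B :=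
  (abs_nonneg _).trans (log_u H i s x)

variable [IsProbabilityMeasure P]

lemma psT_bd (H : HT P Q u B) (i : Fin k) (s : S) : |psT P u i s| ≤ B := by
  have h1 := norm_integral_le_of_norm_le_const (μ := P) (f := fun x => Real.log (u i s x))
    (C := B) (Eventually.of_forall fun x => log_u H i s x)
  simpa [psT] using h1

lemma dev_bd (H : HT P Q u B) (i : Fin k) (s : S) (x : Ω) :
    |Real.log (u i s x) - psT P u i s| ≤ 2 * B := by
  refine (abs_sub _ _).trans ?_
  linarith [log_u H i s x, psT_bd H i s]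

lemma vaT_bd (H : HT P Q u B) (i : Fin k) (s : S) : 0 ≤ vaT P u i s ∧ vaT P u i s ≤ 4 * B ^ 2 := by
  constructor
  · exact integral_nonneg fun x => sq_nonneg _
  · have h1 : ∀ x, (Real.log (u i s x) - psT P u i s) ^ 2 ≤ 4 * B ^ 2 := by
      intro x
      have h2 := dev_bd H i s x
      rw [← sq_abs]
      calc |Real.log (u i s x) - psT P u i s| ^ 2 ≤ (2 * B) ^ 2 :=
            pow_le_pow_left₀ (abs_nonneg _) h2 2
        _ = 4 * B ^ 2 := by ring
    have h3 := norm_integral_le_of_norm_le_const (μ := P)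
      (f := fun x => (Real.log (u i s x) - psT P u i s) ^ 2) (C := 4 * B ^ 2)
      (Eventually.of_forall fun x => by
        rw [Real.norm_eq_abs, abs_of_nonneg (sq_nonneg _)]
        exact h1 x)
    have h4 := (le_abs_self _).trans h3
    simpa [vaT] using h4

lemma sum_pr_le (H : HT P Q u B) (ω : Fin k → Ω) {f : S → ℝ} {C : ℝ} (hf : ∀ s, |f s| ≤ C) :
    |∑ s, prT Q u ω s * f s| ≤ C := by
  refine (Finset.abs_sum_le_sum_abs _ _).trans ?_
  calc ∑ s, |prT Q u ω s * f s| ≤ ∑ s, prT Q u ω s * C := Finset.sum_le_sum fun s _ => by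
        rw [abs_mul, abs_of_nonneg (prT_nonneg H ω s)]
        exact mul_le_mul_of_nonneg_left (hf s) (prT_nonneg H ω s)
    _ = C := by rw [← Finset.sum_mul, prT_sum H, one_mul]

lemma kaT_bd (H : HT P Q u B) (i : Fin k) : |kaT P Q u i| ≤ 2 * B := by
  have h1 := norm_integral_le_of_norm_le_const (μ := Measure.pi fun _ : Fin k => P)
    (f := fun ω => ∑ s, prT Q u ω s * (Real.log (u i s (ω i)) - psT P u i s)) (C := 2 * B)
    (Eventually.of_forall fun ω => by
      rw [Real.norm_eq_abs]
      exact sum_pr_le H ω fun s => dev_bd H i s (ω i))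
  simpa [kaT] using h1

/-- The selection is not negative. -/
lemma kaT_nonneg (h1 : OneT) (hB : 1 ≤ B) (H : HT P Q u B) (i : Fin k) : 0 ≤ kaT P Q u i := by
  have h2 := (h1 Ω S Unit k P Q u B (fun _ => ()) ∅ (1 / (2 * B)) hB (by positivity) le_rfl H).1 i
  refine le_trans (le_of_eq ?_) h2
  have hc : ∀ ω a, clT (fun _ : S => ()) Q u ω a = 1 := by
    intro ω a
    unfold clT
    rw [← prT_sum H ω]
    exact Finset.sum_congr rfl fun s _ => if_pos rfl
  unfold ouT
  simp [hc]

end Abs

/-! ### The polymer -/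

section Pol

variable {d : ℕ} {ρ : Measure ℝ} [IsProbabilityMeasure ρ] {β b : ℝ}

lemma ord_inj {n k : ℕ} {T : Fin k → ℕ} {r : Fin (k + 1) → ℕ} (hO : Ord n T r) :
    Function.Injective T := by
  have hr : StrictMono r := Fin.strictMono_iff_lt_succ.2 fun i =>
    (hO.1 i).1.trans_le (hO.1 i).2
  have hlt : ∀ i j : Fin k, i < j → T i < T j := by
    intro i j hij
    have h1 : i.succ ≤ j.castSucc := by
      rw [Fin.le_def, Fin.val_succ, Fin.val_castSucc]
      exact hij
    exact ((hO.1 i).2.trans (hr.monotone h1)).trans_lt (hO.1 j).1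
  intro i j hij
  rcases lt_trichotomy i j with h | h | h
  · exact absurd hij (hlt i j h).ne
  · exact h
  · exact absurd hij (hlt j i h).ne'

lemma sq_int {α : Type*} [MeasurableSpace α] {μ : Measure α} [IsProbabilityMeasure μ]
    {g : α → ℝ} (h1 : Integrable g μ) (h2 : Integrable (fun x => g x ^ 2) μ) :
    (∫ x, g x ∂μ) ^ 2 ≤ ∫ x, g x ^ 2 ∂μ := by
  set m := ∫ x, g x ∂μ with hm
  have h3 : 0 ≤ ∫ x, (g x - m) ^ 2 ∂μ := integral_nonneg fun x => sq_nonneg _
  have h4 : ∫ x, (g x - m) ^ 2 ∂μ = ∫ x, g x ^ 2 ∂μ - m ^ 2 := by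
    have e : (fun x => (g x - m) ^ 2) = fun x => g x ^ 2 - (2 * m * g x - m ^ 2) := by
      funext x
      ring
    have i1 : Integrable (fun x => 2 * m * g x) μ := h1.const_mul _
    have i2 : Integrable (fun x => 2 * m * g x - m ^ 2) μ := i1.sub (integrable_const _)
    rw [e, integral_sub h2 i2, integral_sub i1 (integrable_const _), integral_const_mul,
      integral_const, ← hm]
    simp
    ring
  linarith

lemma one_le_Bc (hb : HB ρ b) (β : ℝ) : 1 ≤ Bc β b := by
  unfold Bc
  have := hb.b0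
  have : 0 ≤ 2 * |β| * b := by positivity
  linarith

/-- The mean of the distance of two resampled free energies. -/
lemma dist66 (hd : 0 < d) (hρ : EM ρ) (hb : HB ρ b) (hE : EqT d ρ β b) (hW : MixT d ρ b)
    (h : Vec d) {n k : ℕ} {T : Fin k → ℕ} {r : Fin (k + 1) → ℕ} (hO : Ord n T r) :
    ∫ η, (∫ ω, ∫ ω', |Real.log (dT (Qsp ρ β b h n T r η) (usp ρ β b h n T r η) ω) -
      Real.log (dT (Qsp ρ β b h n T r η) (usp ρ β b h n T r η) ω')|
      ∂(Measure.pi fun _ => law d (rb ρ b)) ∂(Measure.pi fun _ => law d (rb ρ b))) ∂(law d ρ) ≤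
      2 * Real.sqrt (Va ρ β h n) := by
  haveI := prob_rb hb
  set Pk : Measure (Fin k → Env d) := Measure.pi fun _ => law d (rb ρ b) with hPk
  set X' : Env d × (Fin k → Env d) → ℝ := fun w => X β h (mxJ b T w.1 w.2) n with hX'
  set a : ℝ := A ρ β h n with ha
  have hmJ : Measurable fun w : Env d × (Fin k → Env d) => mxJ b T w.1 w.2 :=
    mxJ_meas b T measurable_fst measurable_snd
  have hXm : Measurable X' := (measurable_X β h n).comp hmJ
  have hmp := hW k T (ord_inj hO)
  have hXi : Integrable (fun η : Env d => |X β h η n - a|) (law d ρ) :=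
    ((concU hd hρ β h n).1.sub (integrable_const _)).abs
  have hXi2 : Integrable (fun w => |X' w - a|) ((law d ρ).prod Pk) :=
    hmp.integrable_comp_of_integrable hXi
  -- for a fixed environment the free energies are bounded
  have hbd : ∀ η : Env d, ∃ c : ℝ, ∀ ξ : Fin k → Env d, |X' (η, ξ)| ≤ c := by
    intro η
    obtain ⟨H, h1⟩ := hE h n k T r hO η
    refine ⟨Bc β b * k + |X β h (mxJ b T η fun _ _ => c0 ρ β b) n|, fun ξ => ?_⟩
    have h2 := (h1 ξ).2
    have h3 := log_dT H ξ
    have h4 : X' (η, ξ) = Real.log (dT (Qsp ρ β b h n T r η) (usp ρ β b h n T r η) ξ) +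
        X β h (mxJ b T η fun _ _ => c0 ρ β b) n := by
      rw [h2]
      simp [hX']
    rw [h4]
    exact (abs_add_le _ _).trans (add_le_add h3 le_rfl)
  have hint : ∀ η : Env d, Integrable (fun ξ => X' (η, ξ)) Pk := by
    intro η
    obtain ⟨c, hc⟩ := hbd η
    exact Integrable.mono' (integrable_const c)
      (hXm.comp (measurable_const.prodMk measurable_id)).aestronglyMeasurable
      (Eventually.of_forall hc)
  have hint2 : ∀ η : Env d, Integrable (fun ξ => |X' (η, ξ) - a|) Pk := fun η =>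
    ((hint η).sub (integrable_const _)).abs
  have key : ∀ η : Env d, (∫ ω, ∫ ω', |Real.log (dT (Qsp ρ β b h n T r η)
      (usp ρ β b h n T r η) ω) - Real.log (dT (Qsp ρ β b h n T r η) (usp ρ β b h n T r η) ω')|
      ∂Pk ∂Pk) ≤ 2 * ∫ ξ, |X' (η, ξ) - a| ∂Pk := by
    intro η
    obtain ⟨H, h1⟩ := hE h n k T r hO η
    have e : ∀ ω ω' : Fin k → Env d, |Real.log (dT (Qsp ρ β b h n T r η)
        (usp ρ β b h n T r η) ω) - Real.log (dT (Qsp ρ β b h n T r η) (usp ρ β b h n T r η) ω')| ≤
        |X' (η, ω) - a| + |X' (η, ω') - a| := by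
      intro ω ω'
      rw [(h1 ω).2, (h1 ω').2]
      have e2 : X β h (mxJ b T η ω) n - X β h (mxJ b T η fun _ _ => c0 ρ β b) n -
          (X β h (mxJ b T η ω') n - X β h (mxJ b T η fun _ _ => c0 ρ β b) n) =
          (X' (η, ω) - a) - (X' (η, ω') - a) := by
        simp only [hX']
        ring
      rw [e2]
      exact abs_sub _ _
    set J : ℝ := ∫ ξ, |X' (η, ξ) - a| ∂Pk with hJ
    have h2 : ∀ ω, ∫ ω', |Real.log (dT (Qsp ρ β b h n T r η)
        (usp ρ β b h n T r η) ω) - Real.log (dT (Qsp ρ β b h n T r η) (usp ρ β b h n T r η) ω')|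
        ∂Pk ≤ |X' (η, ω) - a| + J := by
      intro ω
      have h3 : ∫ ω', (|X' (η, ω) - a| + |X' (η, ω') - a|) ∂Pk = |X' (η, ω) - a| + J := by
        rw [integral_add (integrable_const _) (hint2 η), integral_const]
        simp [hJ]
      rw [← h3]
      refine integral_mono_of_nonneg (Eventually.of_forall fun _ => abs_nonneg _)
        ((integrable_const _).add (hint2 η)) (Eventually.of_forall fun ω' => e ω ω')
    have h4 : ∫ ω, (|X' (η, ω) - a| + J) ∂Pk = 2 * J := by
      rw [integral_add (hint2 η) (integrable_const _), integral_const, ← hJ]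
      simp
      ring
    rw [← h4]
    exact integral_mono_of_nonneg (Eventually.of_forall fun _ => integral_nonneg fun _ =>
      abs_nonneg _) ((hint2 η).add (integrable_const _)) (Eventually.of_forall h2)
  have hJi : Integrable (fun η => ∫ ξ, |X' (η, ξ) - a| ∂Pk) (law d ρ) := hXi2.integral_prod_left
  have h5 := integral_mono_of_nonneg (μ := law d ρ) (Eventually.of_forall fun η =>
    integral_nonneg fun _ => integral_nonneg fun _ => abs_nonneg _) (hJi.const_mul 2)
    (Eventually.of_forall key)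
  refine h5.trans ?_
  rw [integral_const_mul, ← integral_prod _ hXi2]
  have h6 : ∫ w, |X' w - a| ∂((law d ρ).prod Pk) = ∫ η, |X β h η n - a| ∂(law d ρ) :=
    LawU_integral (F := fun η => |X β h η n - a|) hmp hXi.aestronglyMeasurable
  rw [h6]
  refine mul_le_mul_of_nonneg_left ?_ (by norm_num)
  refine Real.le_sqrt_of_sq_le ?_
  have hsq : Integrable (fun η : Env d => |X β h η n - a| ^ 2) (law d ρ) := by
    rcases Nat.eq_zero_or_pos n with hn | hn
    · have h7 : ∀ η : Env d, X β h η n = 0 := by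
        intro η
        rw [hn]
        unfold X
        rw [Z_zero, Real.log_one]
      simp only [h7]
      exact integrable_const _
    · obtain ⟨C, _, hC⟩ := momU (ρ := ρ) hd hρ β 2
      exact (hC h n hn).1
  refine (sq_int hXi hsq).trans (le_of_eq ?_)
  simp only [sq_abs]
  rfl

/-- Leaf Q. -/
theorem twoP66 (hd : 0 < d) (hρ : EM ρ) (hb : HB ρ b) (h1 : OneT) (h2 : TwoT)
    (hE : EqT d ρ β b) (hK : KapT d ρ β b) (hW : MixT d ρ b) : TwoP d ρ β b := by
  intro h n k T r hO
  haveI := prob_rb hb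
  have hB := one_le_Bc hb β
  set B : ℝ := Bc β b with hBdef
  set P : Measure (Env d) := law d (rb ρ b) with hP
  set Pk : Measure (Fin k → Env d) := Measure.pi fun _ => P with hPk
  set V : Env d → ℝ := fun η => ∑ i, ∫ ω, ∑ s, prT (Qsp ρ β b h n T r η) (usp ρ β b h n T r η) ω s *
      vaT P (usp ρ β b h n T r η) i s ∂Pk with hV
  set I : Env d → ℝ := fun η => ∫ ω, ∫ ω', |Real.log (dT (Qsp ρ β b h n T r η)
      (usp ρ β b h n T r η) ω) - Real.log (dT (Qsp ρ β b h n T r η) (usp ρ β b h n T r η) ω')|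
      ∂Pk ∂Pk with hI
  set κ : Env d → ℝ := fun η => ∑ i, kaT P (Qsp ρ β b h n T r η) (usp ρ β b h n T r η) i with hκ
  have hpt : ∀ η, V η / (2 * B * Real.sqrt (k + 1)) ≤
      I η + κ η + (2 * B * k + 1) * Real.sqrt (2 * κ η) := fun η =>
    h2 (Env d) (Sp d n k) k P _ _ B hB (hE h n k T r hO η).1
  -- measurability and bounds
  have mv : ∀ i, Measurable fun η => ∫ ω, ∑ s, prT (Qsp ρ β b h n T r η)
      (usp ρ β b h n T r η) ω s * vaT P (usp ρ β b h n T r η) i s ∂Pk := by
    intro i
    have h3 : Measurable fun w : Env d × (Fin k → Env d) => ∑ s, prT (Qsp ρ β b h n T r w.1)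
        (usp ρ β b h n T r w.1) w.2 s * vaT P (usp ρ β b h n T r w.1) i s :=
      Finset.measurable_sum _ fun s _ =>
        (prT_meas ρ β b h n T r s measurable_fst measurable_snd).mul
          ((vaT_meas hb β h n T r i s).comp measurable_fst)
    exact (h3.stronglyMeasurable.integral_prod_right (ν := Pk)).measurable
  have bv : ∀ i η, |∫ ω, ∑ s, prT (Qsp ρ β b h n T r η)
      (usp ρ β b h n T r η) ω s * vaT P (usp ρ β b h n T r η) i s ∂Pk| ≤ 4 * B ^ 2 := by
    intro i η
    have H := (hE h n k T r hO η).1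
    have h3 := norm_integral_le_of_norm_le_const (μ := Pk)
      (f := fun ω => ∑ s, prT (Qsp ρ β b h n T r η) (usp ρ β b h n T r η) ω s *
        vaT P (usp ρ β b h n T r η) i s) (C := 4 * B ^ 2)
      (Eventually.of_forall fun ω => sum_pr_le H ω fun s => by
        rw [abs_of_nonneg (vaT_bd H i s).1]
        exact (vaT_bd H i s).2)
    simpa using h3
  have iv : ∀ i, Integrable (fun η => ∫ ω, ∑ s, prT (Qsp ρ β b h n T r η)
      (usp ρ β b h n T r η) ω s * vaT P (usp ρ β b h n T r η) i s ∂Pk) (law d ρ) := fun i =>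
    Integrable.mono' (integrable_const _) (mv i).aestronglyMeasurable
      (Eventually.of_forall fun η => bv i η)
  have iV : Integrable V (law d ρ) := integrable_finsetSum _ fun i _ => iv i
  have ik : ∀ i, Integrable (fun η => kaT P (Qsp ρ β b h n T r η) (usp ρ β b h n T r η) i)
      (law d ρ) := fun i =>
    Integrable.mono' (integrable_const (2 * B)) (kaT_meas hb β h n T r i).aestronglyMeasurable
      (Eventually.of_forall fun η => kaT_bd (hE h n k T r hO η).1 i)
  have iκ : Integrable κ (law d ρ) := integrable_finsetSum _ fun i _ => ik i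
  have κ0 : ∀ η, 0 ≤ κ η := fun η => Finset.sum_nonneg fun i _ =>
    kaT_nonneg h1 hB (hE h n k T r hO η).1 i
  have κm : Measurable κ := Finset.measurable_sum _ fun i _ => kaT_meas hb β h n T r i
  have κb : ∀ η, κ η ≤ 2 * B * k := by
    intro η
    calc κ η ≤ ∑ _i : Fin k, 2 * B := Finset.sum_le_sum fun i _ =>
          (le_abs_self _).trans (kaT_bd (hE h n k T r hO η).1 i)
      _ = 2 * B * k := by
          rw [Finset.sum_const, Finset.card_univ, Fintype.card_fin, nsmul_eq_mul]
          ring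
  have is : Integrable (fun η => Real.sqrt (2 * κ η)) (law d ρ) := by
    refine Integrable.mono' (integrable_const (Real.sqrt (2 * (2 * B * k))))
      (κm.const_mul 2).sqrt.aestronglyMeasurable (Eventually.of_forall fun η => ?_)
    rw [Real.norm_eq_abs, abs_of_nonneg (Real.sqrt_nonneg _)]
    exact Real.sqrt_le_sqrt (by linarith [κb η])
  have mI : Measurable I := by
    have h3 : Measurable fun w : (Env d × (Fin k → Env d)) × (Fin k → Env d) =>
        |Real.log (dT (Qsp ρ β b h n T r w.1.1) (usp ρ β b h n T r w.1.1) w.1.2) -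
        Real.log (dT (Qsp ρ β b h n T r w.1.1) (usp ρ β b h n T r w.1.1) w.2)| :=
      measurable_norm.comp ((Real.measurable_log.comp (dT_meas ρ β b h n T r
        (measurable_fst.comp measurable_fst) (measurable_snd.comp measurable_fst))).sub
        (Real.measurable_log.comp (dT_meas ρ β b h n T r
        (measurable_fst.comp measurable_fst) measurable_snd)))
    have h4 := (h3.stronglyMeasurable.integral_prod_right' (ν := Pk))
    exact (h4.integral_prod_right' (ν := Pk)).measurable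
  have bI : ∀ η, |I η| ≤ 2 * (B * k) := by
    intro η
    have H := (hE h n k T r hO η).1
    have h3 : ∀ ω ω' : Fin k → Env d, |Real.log (dT (Qsp ρ β b h n T r η)
        (usp ρ β b h n T r η) ω) - Real.log (dT (Qsp ρ β b h n T r η) (usp ρ β b h n T r η) ω')| ≤
        2 * (B * k) := by
      intro ω ω'
      refine (abs_sub _ _).trans ?_
      linarith [log_dT H ω, log_dT H ω']
    have h4 : ∀ ω, |∫ ω', |Real.log (dT (Qsp ρ β b h n T r η)
        (usp ρ β b h n T r η) ω) - Real.log (dT (Qsp ρ β b h n T r η) (usp ρ β b h n T r η) ω')|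
        ∂Pk| ≤ 2 * (B * k) := by
      intro ω
      have h5 := norm_integral_le_of_norm_le_const (μ := Pk) (f := fun ω' =>
        |Real.log (dT (Qsp ρ β b h n T r η) (usp ρ β b h n T r η) ω) -
          Real.log (dT (Qsp ρ β b h n T r η) (usp ρ β b h n T r η) ω')|) (C := 2 * (B * k))
        (Eventually.of_forall fun ω' => by
          rw [Real.norm_eq_abs, abs_abs]
          exact h3 ω ω')
      simpa using h5
    have h6 := norm_integral_le_of_norm_le_const (μ := Pk) (f := fun ω => ∫ ω',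
        |Real.log (dT (Qsp ρ β b h n T r η) (usp ρ β b h n T r η) ω) -
          Real.log (dT (Qsp ρ β b h n T r η) (usp ρ β b h n T r η) ω')| ∂Pk) (C := 2 * (B * k))
        (Eventually.of_forall fun ω => h4 ω)
    simpa [hI] using h6
  have iI : Integrable I (law d ρ) := Integrable.mono' (integrable_const _)
    mI.aestronglyMeasurable (Eventually.of_forall bI)
  have iIκ : Integrable (fun η => I η + κ η) (law d ρ) := iI.add iκ
  -- integrate
  have h3 := integral_mono (iV.div_const _) (iIκ.add (is.const_mul (2 * B * k + 1))) hpt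
  have eV : ∫ η, V η / (2 * B * Real.sqrt (k + 1)) ∂(law d ρ) =
      (∑ i : Fin k, vap ρ β b h n (T i) (r i.castSucc) (r i.succ)) /
        (2 * B * Real.sqrt (k + 1)) := by
    rw [integral_div]
    congr 1
    rw [hV, integral_finsetSum _ fun i _ => iv i]
    exact Finset.sum_congr rfl fun i _ => (hK h n k T r hO i).2.2
  have eκ : ∫ η, κ η ∂(law d ρ) =
      ∑ i : Fin k, kap ρ β b h n (T i) (r i.castSucc) (r i.succ) := by
    rw [hκ, integral_finsetSum _ fun i _ => ik i]
    exact Finset.sum_congr rfl fun i _ => (hK h n k T r hO i).1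
  have eR : ∫ η, (I η + κ η + (2 * B * k + 1) * Real.sqrt (2 * κ η)) ∂(law d ρ) =
      ∫ η, I η ∂(law d ρ) + ∫ η, κ η ∂(law d ρ) +
        (2 * B * k + 1) * ∫ η, Real.sqrt (2 * κ η) ∂(law d ρ) := by
    rw [integral_add iIκ (is.const_mul _), integral_add iI iκ, integral_const_mul]
  have hs : ∫ η, Real.sqrt (2 * κ η) ∂(law d ρ) ≤
      Real.sqrt (2 * ∑ i : Fin k, kap ρ β b h n (T i) (r i.castSucc) (r i.succ)) := by
    refine Real.le_sqrt_of_sq_le ?_
    have e4 : ∀ η, Real.sqrt (2 * κ η) ^ 2 = 2 * κ η := fun η =>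
      Real.sq_sqrt (by linarith [κ0 η])
    have i4 : Integrable (fun η => Real.sqrt (2 * κ η) ^ 2) (law d ρ) := by
      simp only [e4]
      exact iκ.const_mul 2
    refine (sq_int is i4).trans (le_of_eq ?_)
    simp only [e4]
    rw [integral_const_mul, eκ]
  have hd' := dist66 hd hρ hb hE hW h hO
  have hk : 0 ≤ 2 * B * k + 1 := by positivity
  calc (∑ i : Fin k, vap ρ β b h n (T i) (r i.castSucc) (r i.succ)) /
        (2 * B * Real.sqrt (k + 1)) = ∫ η, V η / (2 * B * Real.sqrt (k + 1)) ∂(law d ρ) := eV.symm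
    _ ≤ ∫ η, (I η + κ η + (2 * B * k + 1) * Real.sqrt (2 * κ η)) ∂(law d ρ) := h3
    _ = ∫ η, I η ∂(law d ρ) + ∑ i : Fin k, kap ρ β b h n (T i) (r i.castSucc) (r i.succ) +
        (2 * B * k + 1) * ∫ η, Real.sqrt (2 * κ η) ∂(law d ρ) := by rw [eR, eκ]
    _ ≤ _ := add_le_add (add_le_add hd' le_rfl) (mul_le_mul_of_nonneg_left hs hk)

end Pol

end Pool.Agent.W_7d29a1_NV.M66
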