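import Pool.Agent.W_7d29a1_NV.MeasNV72
import Pool.Agent.W_7d29a1_NV.TwoP66

/-!
Leaf O: `OneT` for the polymer.
-/

namespace Pool.Agent.W_7d29a1_NV.O72

open MeasureTheory ProbabilityTheory Filter Topology Pool.Agent.W_MP_7d29a1_pr
  Pool.Agent.W_7d29a1_h46 Pool.Agent.W_7d29a1_h46u Pool.Agent.W_7d29a1_D2.B35
  Pool.Agent.W_7d29a1_Q29 Pool.Agent.W_7d29a1_NV Pool.Agent.W_7d29a1_NV.M66

section Abs

variable {Ω S Ac : Type} [MeasurableSpace Ω] [Fintype S] [Fintype Ac] {k : ℕ} {P : Measure Ω}
  {Q : S → ℝ} {u : Fin k → S → Ω → ℝ} {B : ℝ}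

lemma pt72 {p q : ℝ} (hp : 0 ≤ p) (hq : 0 ≤ q) (hpq : 0 < p → 0 < q) :
    p - q ≤ p * (Real.log p - Real.log q) := by
  rcases hp.eq_or_lt with h0 | hp
  · subst h0; simpa using hq
  have hq' := hpq hp
  have hl : Real.log (q / p) ≤ q / p - 1 := Real.log_le_sub_one_of_pos (by positivity)
  rw [Real.log_div hq'.ne' hp.ne'] at hl
  have hl2 := mul_le_mul_of_nonneg_left hl hp.le
  have hl3 : p * (q / p - 1) = q - p := by field_simp
  rw [hl3] at hl2
  linarith

lemma cl_nonneg (H : HT P Q u B) (f : S → Ac) (ω : Fin k → Ω) (a : Ac) :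
    0 ≤ clT f Q u ω a := by
  classical
  unfold clT
  refine Finset.sum_nonneg fun s _ => ?_
  split_ifs
  · exact prT_nonneg H ω s
  · exact le_rfl

lemma cl_sum (H : HT P Q u B) (f : S → Ac) (ω : Fin k → Ω) : ∑ a, clT f Q u ω a = 1 := by
  classical
  unfold clT
  rw [Finset.sum_comm, ← prT_sum H ω]
  refine Finset.sum_congr rfl fun s _ => ?_
  rw [Finset.sum_ite_eq]
  simp

lemma pr_pos (H : HT P Q u B) {ω ω' : Fin k → Ω} {s : S} (h : 0 < prT Q u ω s) :
    0 < prT Q u ω' s := by
  have hQ : 0 < Q s := by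
    rcases (H.q0 s).eq_or_lt with h0 | h0
    · exfalso
      unfold prT wT at h
      rw [← h0] at h
      simp at h
    · exact h0
  unfold prT wT
  exact div_pos (mul_pos hQ ((Real.exp_pos _).trans_le (prod_bd H ω' s).1)) (dT_pos H ω')

lemma cl_pos (H : HT P Q u B) (f : S → Ac) {ω ω' : Fin k → Ω} {a : Ac}
    (h : 0 < clT f Q u ω a) : 0 < clT f Q u ω' a := by
  classical
  by_contra hn
  have h0 : clT f Q u ω' a = 0 := le_antisymm (not_lt.1 hn) (cl_nonneg H f ω' a)
  unfold clT at h0 h
  rw [Finset.sum_eq_zero_iff_of_nonneg] at h0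
  · apply lt_irrefl (0 : ℝ)
    refine lt_of_lt_of_le h (le_of_eq ?_)
    refine Finset.sum_eq_zero fun s hs => ?_
    have h2 := h0 s hs
    split_ifs with hf
    · rw [if_pos hf] at h2
      rcases (prT_nonneg H ω s).eq_or_lt with h3 | h3
      · exact h3.symm
      · exact absurd h2 (pr_pos H h3).ne'
    · rfl
  · intro s _
    split_ifs
    · exact prT_nonneg H ω' s
    · exact le_rfl

lemma ou_nonneg (H : HT P Q u B) (f : S → Ac) (i : Fin k) : 0 ≤ ouT P f Q u i := by
  unfold ouT
  refine integral_nonneg fun ω => integral_nonneg fun x => ?_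
  have h1 : ∑ a, (clT f Q u ω a - clT f Q u (Function.update ω i x) a) = 0 := by
    rw [Finset.sum_sub_distrib, cl_sum H, cl_sum H, sub_self]
  change (0 : ℝ) ≤ ∑ a, clT f Q u ω a * (Real.log (clT f Q u ω a) -
    Real.log (clT f Q u (Function.update ω i x) a))
  rw [← h1]
  exact Finset.sum_le_sum fun a _ => pt72 (cl_nonneg H f ω a) (cl_nonneg H f _ a)
    (fun h => cl_pos H f h)

lemma base_le (H : HT P Q u B) (ω : Fin k → Ω) (s : S) :
    Q s ≤ Real.exp (2 * B * k) * prT Q u ω s := by
  obtain ⟨h1, h2⟩ := prod_bd H ω s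
  obtain ⟨h3, h4⟩ := dT_bd H ω
  have hd := dT_pos H ω
  unfold prT wT
  rw [mul_div_assoc', le_div_iff₀ hd]
  have e : Real.exp (2 * B * k) = Real.exp (B * k) * Real.exp (B * k) := by
    rw [← Real.exp_add]; congr 1; ring
  have e2 : Real.exp (B * k) * Real.exp (-(B * k)) = 1 := by
    rw [← Real.exp_add]; simp
  have hQ := H.q0 s
  calc Q s * dT Q u ω ≤ Q s * Real.exp (B * k) := mul_le_mul_of_nonneg_left h4 hQ
    _ = (Real.exp (B * k) * Real.exp (B * k)) * (Q s * Real.exp (-(B * k))) := by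
        rw [show (Real.exp (B * k) * Real.exp (B * k)) * (Q s * Real.exp (-(B * k))) =
          (Real.exp (B * k) * Real.exp (-(B * k))) * (Q s * Real.exp (B * k)) by ring, e2, one_mul]
    _ ≤ (Real.exp (B * k) * Real.exp (B * k)) * (Q s * ∏ i, u i s (ω i)) :=
        mul_le_mul_of_nonneg_left (mul_le_mul_of_nonneg_left h1 hQ) (by positivity)
    _ = Real.exp (2 * B * k) * (Q s * ∏ i, u i s (ω i)) := by rw [e]

end Abs

/-- Jensen for the square root. -/
lemma int_sqrt {Ω : Type*} [MeasurableSpace Ω] {μ : Measure Ω} [IsProbabilityMeasure μ]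
    {g : Ω → ℝ} (hg : Integrable g μ) (h0 : ∀ x, 0 ≤ g x) :
    Integrable (fun x => Real.sqrt (g x)) μ ∧
      ∫ x, Real.sqrt (g x) ∂μ ≤ Real.sqrt (∫ x, g x ∂μ) := by
  have hi : Integrable (fun x => Real.sqrt (g x)) μ := by
    refine (hg.add (integrable_const (1 : ℝ))).mono'
      (Real.continuous_sqrt.comp_aestronglyMeasurable hg.aestronglyMeasurable)
      (Eventually.of_forall fun x => ?_)
    rw [Real.norm_eq_abs, abs_of_nonneg (Real.sqrt_nonneg _)]
    have h1 := Real.sq_sqrt (h0 x)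
    have h2 := Real.sqrt_nonneg (g x)
    change Real.sqrt (g x) ≤ g x + 1
    nlinarith [sq_nonneg (Real.sqrt (g x) - 1)]
  refine ⟨hi, ?_⟩
  have key : ∀ s : ℝ, 0 < s → ∫ x, Real.sqrt (g x) ∂μ ≤ ((∫ x, g x ∂μ) / s + s) / 2 := by
    intro s hs
    have e : ((∫ x, g x ∂μ) / s + s) / 2 = ∫ x, (g x / s + s) / 2 ∂μ := by
      rw [integral_div, integral_add (hg.div_const s) (integrable_const _), integral_div]
      simp
    rw [e]
    refine integral_mono hi (((hg.div_const s).add (integrable_const _)).div_const 2) fun x => ?_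
    have h1 := Real.sq_sqrt (h0 x)
    have h3 : (g x / s + s) / 2 - Real.sqrt (g x) = (1 / (2 * s)) * (Real.sqrt (g x) - s) ^ 2 := by
      have : (1 / (2 * s)) * (Real.sqrt (g x) - s) ^ 2 =
        (1 / (2 * s)) * (Real.sqrt (g x) ^ 2 - 2 * Real.sqrt (g x) * s + s ^ 2) := by ring
      rw [this, h1]
      field_simp
      ring
    have h4 : 0 ≤ (1 / (2 * s)) * (Real.sqrt (g x) - s) ^ 2 := by positivity
    change Real.sqrt (g x) ≤ (g x / s + s) / 2
    linarith
  have hI : 0 ≤ ∫ x, g x ∂μ := integral_nonneg h0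
  rcases hI.eq_or_lt with hz | hp
  · rw [← hz, Real.sqrt_zero]
    refine le_of_forall_pos_le_add fun e he => ?_
    have := key (2 * e) (by positivity)
    rw [← hz, zero_div] at this
    linarith
  · have hs := Real.sqrt_pos.2 hp
    have := key _ hs
    have h2 : (∫ x, g x ∂μ) / Real.sqrt (∫ x, g x ∂μ) = Real.sqrt (∫ x, g x ∂μ) := by
      rw [div_eq_iff hs.ne', Real.mul_self_sqrt hI]
    rw [h2] at this
    linarith

variable {d : ℕ}

lemma mxJ_self (b : ℝ) {k : ℕ} (T : Fin k → ℕ) (η : Env d) : mxJ b T η (fun _ => η) = η := by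
  classical
  funext p
  unfold mxJ
  by_cases h : (∃ i, T i = p.1) ∧ |η p| ≤ b
  · rw [dif_pos h, cl_of_abs72 h.2]
  · rw [dif_neg h]

open Classical in
/-- The mass outside of the good pairs. -/
lemma out72 {n k : ℕ} {β b : ℝ} {h : Vec d} {T : Fin k → ℕ} {r : Fin (k + 1) → ℕ} {B : ℝ}
    {ρ : Measure ℝ} {P : Measure (Env d)} (hO : Ord n T r) (hM : MarT d) (η : Env d) (b₀ ε : ℝ)
    (H : HT P (Qsp ρ β b h n T r η) (usp ρ β b h n T r η) B)
    (hpr : ∀ s, prT (Qsp ρ β b h n T r η) (usp ρ β b h n T r η) (fun _ => η) s = msp β h n r s η)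
    (h0 : GoodN β h n (r 0) b₀ ε η) (hk : GoodN β h n (r (Fin.last k)) b₀ ε η) :
    ∃ AA : Finset ({x : Site d // x ∈ boxF d n} × {x : Site d // x ∈ boxF d n}),
      (AA.card : ℝ) ≤ Real.exp (2 * ε * b₀) ∧
      (∑ s : Sp d n k, if fsp s ∈ AA then 0 else Qsp ρ β b h n T r η s) ≤
        2 * Real.exp (2 * B * k - b₀ / 4) := by
  set A0 : ℕ → Finset {x : Site d // x ∈ boxF d n} := fun τ =>
    Finset.univ.filter (fun x => Real.exp (-b₀) ≤ Qt β h n τ x.1 η) with hA0
  have hmem : ∀ (τ : ℕ) (x : {x : Site d // x ∈ boxF d n}),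
      x ∈ A0 τ ↔ Real.exp (-b₀) ≤ Qt β h n τ x.1 η := by
    intro τ x
    simp [hA0]
  have hcard : ∀ τ, GoodN β h n τ b₀ ε η → ((A0 τ).card : ℝ) ≤ Real.exp (ε * b₀) := by
    intro τ hτ
    refine le_trans ?_ hτ.1
    have : (A0 τ).card ≤
        ((boxF d n).filter fun x => Real.exp (-b₀) ≤ Qt β h n τ x η).card := by
      refine Finset.card_le_card_of_injOn (fun x => x.1) ?_ ?_
      · intro x hx
        have hx' := (hmem τ x).1 (Finset.mem_coe.1 hx)
        exact Finset.mem_coe.2 (Finset.mem_filter.2 ⟨x.2, hx'⟩)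
      · intro x _ y _ hxy
        exact Subtype.ext hxy
    exact_mod_cast this
  have hmass : ∀ τ, GoodN β h n τ b₀ ε η →
      (∑ x : {x : Site d // x ∈ boxF d n}, if x ∈ A0 τ then 0 else Qt β h n τ x.1 η) ≤
        Real.exp (-(b₀ / 4)) := by
    intro τ hτ
    refine le_trans (le_of_eq ?_) hτ.2
    rw [Finset.sum_filter]
    rw [← Finset.sum_coe_sort (boxF d n) (fun x =>
      if Qt β h n τ x η < Real.exp (-b₀) then Qt β h n τ x η else 0)]
    refine Finset.sum_congr rfl fun x _ => ?_
    by_cases hx : Real.exp (-b₀) ≤ Qt β h n τ x.1 η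
    · rw [if_pos ((hmem τ x).2 hx), if_neg (not_lt.2 hx)]
    · rw [if_neg (fun hm => hx ((hmem τ x).1 hm)), if_pos (not_le.1 hx)]
  refine ⟨A0 (r 0) ×ˢ A0 (r (Fin.last k)), ?_, ?_⟩
  · rw [Finset.card_product]
    push_cast
    calc ((A0 (r 0)).card : ℝ) * ((A0 (r (Fin.last k))).card : ℝ)
        ≤ Real.exp (ε * b₀) * Real.exp (ε * b₀) :=
          mul_le_mul (hcard _ h0) (hcard _ hk) (Nat.cast_nonneg _) (Real.exp_pos _).le
      _ = Real.exp (2 * ε * b₀) := by rw [← Real.exp_add]; congr 1; ring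
  · have hm0 : ∀ s : Sp d n k, 0 ≤ msp β h n r s η := fun s => by
      rw [← hpr s]; exact prT_nonneg H _ s
    have hterm : ∀ s : Sp d n k,
        (if fsp s ∈ A0 (r 0) ×ˢ A0 (r (Fin.last k)) then 0 else Qsp ρ β b h n T r η s) ≤
        Real.exp (2 * B * k) * ((if s 0 ∈ A0 (r 0) then 0 else msp β h n r s η) +
          (if s (Fin.last k) ∈ A0 (r (Fin.last k)) then 0 else msp β h n r s η)) := by
      intro s
      have hb := base_le H (fun _ => η) s
      rw [hpr s] at hb
      have hs0 := hm0 s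
      have hE := Real.exp_pos (2 * B * k)
      by_cases hs : fsp s ∈ A0 (r 0) ×ˢ A0 (r (Fin.last k))
      · rw [if_pos hs]
        refine mul_nonneg hE.le (add_nonneg ?_ ?_) <;> split_ifs <;> linarith
      · rw [if_neg hs]
        by_cases h1 : s 0 ∈ A0 (r 0)
        · have h2 : s (Fin.last k) ∉ A0 (r (Fin.last k)) := by
            intro h2
            exact hs (Finset.mem_product.2 ⟨h1, h2⟩)
          rw [if_pos h1, if_neg h2, zero_add]
          exact hb
        · rw [if_neg h1]
          refine hb.trans (mul_le_mul_of_nonneg_left ?_ hE.le)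
          split_ifs <;> linarith
    refine (Finset.sum_le_sum fun s _ => hterm s).trans ?_
    rw [← Finset.mul_sum, Finset.sum_add_distrib]
    have e1 : (∑ s : Sp d n k, if s 0 ∈ A0 (r 0) then 0 else msp β h n r s η) =
        ∑ x : {x : Site d // x ∈ boxF d n}, if x ∈ A0 (r 0) then 0 else Qt β h n (r 0) x.1 η := by
      have : ∀ s : Sp d n k, (if s 0 ∈ A0 (r 0) then 0 else msp β h n r s η) =
          ∑ x : {x : Site d // x ∈ boxF d n}, if x ∈ A0 (r 0) then 0 else
            (if s 0 = x then msp β h n r s η else 0) := by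
        intro s
        rw [Finset.sum_eq_single (s 0)]
        · rw [if_pos rfl]
        · intro x _ hx
          split_ifs with h1 h2
          · rfl
          · exact absurd h2.symm hx
          · rfl
        · intro hx; exact absurd (Finset.mem_univ _) hx
      rw [Finset.sum_congr rfl fun s _ => this s, Finset.sum_comm]
      refine Finset.sum_congr rfl fun x _ => ?_
      by_cases hx : x ∈ A0 (r 0)
      · simp [hx]
      · simp only [hx, if_false]
        exact (hM β h n k T r hO η x).1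
    have e2 : (∑ s : Sp d n k, if s (Fin.last k) ∈ A0 (r (Fin.last k)) then 0 else
        msp β h n r s η) =
        ∑ x : {x : Site d // x ∈ boxF d n}, if x ∈ A0 (r (Fin.last k)) then 0 else
          Qt β h n (r (Fin.last k)) x.1 η := by
      have : ∀ s : Sp d n k, (if s (Fin.last k) ∈ A0 (r (Fin.last k)) then 0 else
          msp β h n r s η) =
          ∑ x : {x : Site d // x ∈ boxF d n}, if x ∈ A0 (r (Fin.last k)) then 0 else
            (if s (Fin.last k) = x then msp β h n r s η else 0) := by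
        intro s
        rw [Finset.sum_eq_single (s (Fin.last k))]
        · rw [if_pos rfl]
        · intro x _ hx
          split_ifs with h1 h2
          · rfl
          · exact absurd h2.symm hx
          · rfl
        · intro hx; exact absurd (Finset.mem_univ _) hx
      rw [Finset.sum_congr rfl fun s _ => this s, Finset.sum_comm]
      refine Finset.sum_congr rfl fun x _ => ?_
      by_cases hx : x ∈ A0 (r (Fin.last k))
      · simp [hx]
      · simp only [hx, if_false]
        exact (hM β h n k T r hO η x).2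
    rw [e1, e2]
    have h3 := hmass _ h0
    have h4 := hmass _ hk
    have h5 : Real.exp (2 * B * k - b₀ / 4) = Real.exp (2 * B * k) * Real.exp (-(b₀ / 4)) := by
      rw [← Real.exp_add]; congr 1
    rw [h5]
    have := mul_le_mul_of_nonneg_left (add_le_add h3 h4) (Real.exp_pos (2 * B * k)).le
    linarith

open Classical in
/-- **Leaf O.** -/
theorem onep72 {ρ : Measure ℝ} [IsProbabilityMeasure ρ] {β b : ℝ} (hb : HB ρ b) (h1 : OneT)
    (hE : EqT d ρ β b) (hM : MarT d) (hK : KapT d ρ β b) : OneP d ρ β b := by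
  intro h n k T r hO θ ε b₀ δ hθ hθ' hε hb₀ hg0 hgk
  haveI := prob_rb hb
  set B := Bc β b with hBdef
  have hB1 : 1 ≤ B := by
    rw [hBdef]; unfold Bc
    have := mul_nonneg (mul_nonneg zero_le_two (abs_nonneg β)) hb.b0.le
    linarith
  have hB0 : 0 < B := lt_of_lt_of_le one_pos hB1
  set P := law d (rb ρ b) with hP
  have hH : ∀ η, HT P (Qsp ρ β b h n T r η) (usp ρ β b h n T r η) B := fun η =>
    (hE h n k T r hO η).1
  set ka : Env d → Fin k → ℝ := fun η i => kaT P (Qsp ρ β b h n T r η) (usp ρ β b h n T r η) i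
    with hka
  set ou : Env d → Fin k → ℝ := fun η i => ouT P fsp (Qsp ρ β b h n T r η)
    (usp ρ β b h n T r η) i with hou
  have hle : ∀ η i, ou η i ≤ ka η i := fun η i =>
    (h1 (Env d) (Sp d n k) _ k P (Qsp ρ β b h n T r η) (usp ρ β b h n T r η) B fsp ∅
      (1 / (2 * B)) hB1 (by positivity) le_rfl (hH η)).1 i
  have hou0 : ∀ η i, 0 ≤ ou η i := fun η i => ou_nonneg (hH η) fsp i
  have hka0 : ∀ η i, 0 ≤ ka η i := fun η i => (hou0 η i).trans (hle η i)
  have hkaB : ∀ η i, ka η i ≤ 2 * B := fun η i => (le_abs_self _).trans (kaT_bd (hH η) i)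
  have hmQ : ∀ s, Measurable fun η : Env d => Qsp ρ β b h n T r η s := fun s =>
    measurable_Qsp72 ρ β b h n T r s
  have hmu : ∀ i s, Measurable fun w : Env d × Env d => usp ρ β b h n T r w.1 i s w.2 :=
    fun i s => measurable_usp72 ρ β b h n T r i s
  have hmka : ∀ i, Measurable fun η => ka η i := fun i => am_kaT72 hmQ hmu i
  have hmou : ∀ i, Measurable fun η => ou η i := fun i => am_ouT72 hmQ hmu fsp i
  have hika : ∀ i, Integrable (fun η => ka η i) (law d ρ) := fun i => by
    refine (integrable_const (2 * B)).mono' (hmka i).aestronglyMeasurable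
      (Eventually.of_forall fun η => ?_)
    rw [Real.norm_eq_abs, abs_of_nonneg (hka0 η i)]
    exact hkaB η i
  have hiou : ∀ i, Integrable (fun η => ou η i) (law d ρ) := fun i => by
    refine (integrable_const (2 * B)).mono' (hmou i).aestronglyMeasurable
      (Eventually.of_forall fun η => ?_)
    rw [Real.norm_eq_abs, abs_of_nonneg (hou0 η i)]
    exact (hle η i).trans (hkaB η i)
  have eka : ∀ i, ∫ η, ka η i ∂(law d ρ) =
      kap ρ β b h n (T i) (r i.castSucc) (r i.succ) := fun i => (hK h n k T r hO i).1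
  have eou : ∀ i, ∫ η, ou η i ∂(law d ρ) =
      kap ρ β b h n (T i) (r 0) (r (Fin.last k)) := fun i => (hK h n k T r hO i).2.1
  refine ⟨fun i => ?_, ?_⟩
  · rw [← eka, ← eou]
    exact integral_mono (hiou i) (hika i) fun η => hle η i
  -- the bad set
  set U1 := toMeasurable (law d ρ) {η | ¬ GoodN β h n (r 0) b₀ ε η} with hU1
  set U2 := toMeasurable (law d ρ) {η | ¬ GoodN β h n (r (Fin.last k)) b₀ ε η} with hU2
  have hU1m : MeasurableSet U1 := measurableSet_toMeasurable _ _
  have hU2m : MeasurableSet U2 := measurableSet_toMeasurable _ _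
  have hU1d : (law d ρ).real U1 ≤ δ := by
    rw [Measure.real, hU1, measure_toMeasurable]
    exact hg0
  have hU2d : (law d ρ).real U2 ≤ δ := by
    rw [Measure.real, hU2, measure_toMeasurable]
    exact hgk
  set R : ℝ := Real.log (1 + Real.exp (2 * ε * b₀)) / θ + 4 * B ^ 2 * θ * k +
    4 * B * k * Real.exp (4 * B * k - b₀ / 4) with hR
  set c : ℝ := 2 * B * k * Real.exp (5 * B * k) with hc
  have hc0 : 0 ≤ c := by rw [hc]; positivity
  have hR0 : 0 ≤ R := by
    have : 0 ≤ Real.log (1 + Real.exp (2 * ε * b₀)) :=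
      Real.log_nonneg (by linarith [Real.exp_pos (2 * ε * b₀)])
    rw [hR]; positivity
  have hpt : ∀ η, ∑ i, ka η i ≤ R + (U1.indicator (fun _ => 2 * B * k) η +
      U2.indicator (fun _ => 2 * B * k) η) +
      c * ∑ i, Real.sqrt (2 * (ka η i - ou η i)) := by
    intro η
    have hs0 : 0 ≤ ∑ i, Real.sqrt (2 * (ka η i - ou η i)) :=
      Finset.sum_nonneg fun i _ => Real.sqrt_nonneg _
    have hcs := mul_nonneg hc0 hs0
    have hi1 : 0 ≤ U1.indicator (fun _ => 2 * B * (k : ℝ)) η :=
      Set.indicator_nonneg (fun _ _ => by positivity) η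
    have hi2 : 0 ≤ U2.indicator (fun _ => 2 * B * (k : ℝ)) η :=
      Set.indicator_nonneg (fun _ _ => by positivity) η
    have htriv : ∑ i, ka η i ≤ 2 * B * k := by
      calc ∑ i, ka η i ≤ ∑ _i : Fin k, 2 * B := Finset.sum_le_sum fun i _ => hkaB η i
        _ = 2 * B * k := by
          rw [Finset.sum_const, Finset.card_univ, Fintype.card_fin, nsmul_eq_mul]; ring
    by_cases hu1 : η ∈ U1
    · rw [Set.indicator_of_mem hu1]
      linarith
    by_cases hu2 : η ∈ U2
    · rw [Set.indicator_of_mem hu2]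
      linarith
    have hgd0 : GoodN β h n (r 0) b₀ ε η := by
      by_contra hn
      exact hu1 (subset_toMeasurable _ _ hn)
    have hgdk : GoodN β h n (r (Fin.last k)) b₀ ε η := by
      by_contra hn
      exact hu2 (subset_toMeasurable _ _ hn)
    have hpr : ∀ s, prT (Qsp ρ β b h n T r η) (usp ρ β b h n T r η) (fun _ => η) s =
        msp β h n r s η := fun s => by
      rw [((hE h n k T r hO η).2 fun _ => η).1 s, mxJ_self]
    obtain ⟨AA, hAA, hout⟩ := out72 hO hM η b₀ ε (hH η) hpr hgd0 hgdk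
    have hmain := (h1 (Env d) (Sp d n k) _ k P (Qsp ρ β b h n T r η) (usp ρ β b h n T r η) B fsp
      AA θ hB1 hθ hθ' (hH η)).2
    have hl : Real.log (1 + AA.card) / θ ≤ Real.log (1 + Real.exp (2 * ε * b₀)) / θ := by
      refine div_le_div_of_nonneg_right (Real.log_le_log (by positivity) (by linarith)) hθ.le
    have hout' : 2 * B * k * Real.exp (2 * B * k) *
        (∑ s : Sp d n k, if fsp s ∈ AA then 0 else Qsp ρ β b h n T r η s) ≤
        4 * B * k * Real.exp (4 * B * k - b₀ / 4) := by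
      refine (mul_le_mul_of_nonneg_left hout (by positivity)).trans (le_of_eq ?_)
      have : Real.exp (4 * B * k - b₀ / 4) =
          Real.exp (2 * B * k) * Real.exp (2 * B * k - b₀ / 4) := by
        rw [← Real.exp_add]; congr 1; ring
      rw [this]; ring
    rw [Set.indicator_of_notMem hu1, Set.indicator_of_notMem hu2]
    have hm' : ∑ i, ka η i ≤ Real.log (1 + AA.card) / θ + 4 * B ^ 2 * θ * k +
      2 * B * k * Real.exp (2 * B * k) *
        (∑ s : Sp d n k, if fsp s ∈ AA then 0 else Qsp ρ β b h n T r η s) +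
      c * ∑ i, Real.sqrt (2 * (ka η i - ou η i)) := by
      convert hmain
    rw [hR]
    linarith
  -- integrate
  have hsq : ∀ i, Integrable (fun η => Real.sqrt (2 * (ka η i - ou η i))) (law d ρ) ∧
      ∫ η, Real.sqrt (2 * (ka η i - ou η i)) ∂(law d ρ) ≤
        Real.sqrt (∫ η, 2 * (ka η i - ou η i) ∂(law d ρ)) := fun i =>
    int_sqrt (((hika i).sub (hiou i)).const_mul 2) fun η => by
      have := hle η i
      change 0 ≤ 2 * (ka η i - ou η i)
      linarith
  have hi1 : Integrable (U1.indicator (fun _ => 2 * B * (k : ℝ))) (law d ρ) :=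
    (integrable_const _).indicator hU1m
  have hi2 : Integrable (U2.indicator (fun _ => 2 * B * (k : ℝ))) (law d ρ) :=
    (integrable_const _).indicator hU2m
  have hsum : Integrable (fun η => c * ∑ i, Real.sqrt (2 * (ka η i - ou η i))) (law d ρ) :=
    (integrable_finset_sum _ fun i _ => (hsq i).1).const_mul c
  have hI1 : ∫ η, U1.indicator (fun _ => 2 * B * (k : ℝ)) η ∂(law d ρ) ≤ 2 * B * k * δ := by
    rw [integral_indicator hU1m, setIntegral_const, smul_eq_mul, mul_comm]
    exact mul_le_mul_of_nonneg_left hU1d (by positivity)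
  have hI2 : ∫ η, U2.indicator (fun _ => 2 * B * (k : ℝ)) η ∂(law d ρ) ≤ 2 * B * k * δ := by
    rw [integral_indicator hU2m, setIntegral_const, smul_eq_mul, mul_comm]
    exact mul_le_mul_of_nonneg_left hU2d (by positivity)
  have hint := integral_mono (μ := law d ρ) (integrable_finset_sum _ fun i _ => hika i)
    (((integrable_const R).add (hi1.add hi2)).add hsum) (fun η => hpt η)
  rw [integral_finset_sum _ fun i _ => hika i] at hint
  have hrhs : ∫ η, (R + (U1.indicator (fun _ => 2 * B * (k : ℝ)) η +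
      U2.indicator (fun _ => 2 * B * (k : ℝ)) η) +
      c * ∑ i, Real.sqrt (2 * (ka η i - ou η i))) ∂(law d ρ) ≤
      R + (2 * B * k * δ + 2 * B * k * δ) + c * ∑ i, Real.sqrt (2 *
        (kap ρ β b h n (T i) (r i.castSucc) (r i.succ) -
          kap ρ β b h n (T i) (r 0) (r (Fin.last k)))) := by
    have hi12 : Integrable (fun η => U1.indicator (fun _ => 2 * B * (k : ℝ)) η +
        U2.indicator (fun _ => 2 * B * (k : ℝ)) η) (law d ρ) := hi1.add hi2
    have hiR : Integrable (fun η => R + (U1.indicator (fun _ => 2 * B * (k : ℝ)) η +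
        U2.indicator (fun _ => 2 * B * (k : ℝ)) η)) (law d ρ) := (integrable_const R).add hi12
    have hRc : ∫ _ : Env d, R ∂(law d ρ) = R := by simp
    rw [integral_add hiR hsum, integral_add (integrable_const R) hi12, integral_add hi1 hi2,
      integral_const_mul, integral_finset_sum _ fun i _ => (hsq i).1, hRc]
    have hss : ∑ i, ∫ η, Real.sqrt (2 * (ka η i - ou η i)) ∂(law d ρ) ≤ ∑ i, Real.sqrt (2 *
        (kap ρ β b h n (T i) (r i.castSucc) (r i.succ) -
          kap ρ β b h n (T i) (r 0) (r (Fin.last k)))) := by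
      refine Finset.sum_le_sum fun i _ => (hsq i).2.trans (le_of_eq ?_)
      rw [integral_const_mul, integral_sub (hika i) (hiou i), eka, eou]
    have := mul_le_mul_of_nonneg_left hss hc0
    linarith
  have hfin := hint.trans hrhs
  rw [Finset.sum_congr rfl fun i _ => eka i] at hfin
  refine hfin.trans (le_of_eq ?_)
  rw [hR, hc]
  ring

end Pool.Agent.W_7d29a1_NV.O72
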