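import Pool.Agent.W_7d29a1_NV.DefsNV

/-!
Measurability in the environment of the quantities of the selection model of the polymer.
-/

namespace Pool.Agent.W_7d29a1_NV.M66

open MeasureTheory ProbabilityTheory Filter Topology Pool.Agent.W_MP_7d29a1_pr
  Pool.Agent.W_7d29a1_h46 Pool.Agent.W_7d29a1_h46u Pool.Agent.W_7d29a1_D2.B35
  Pool.Agent.W_7d29a1_Q29 Pool.Agent.W_7d29a1_NV

variable {d : ℕ} {ρ : Measure ℝ} {β b : ℝ}

lemma prob_rb [IsProbabilityMeasure ρ] (hb : HB ρ b) : IsProbabilityMeasure (rb ρ b) := by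
  have h0 : ρ (Set.Icc (-b) b) ≠ 0 := by
    intro h
    have h1 := hb.half
    rw [Measure.real, h, ENNReal.toReal_zero] at h1
    norm_num at h1
  exact ProbabilityTheory.cond_isProbabilityMeasure h0

lemma cl_meas (b : ℝ) : Measurable (cl b) :=
  measurable_const.max (measurable_const.min measurable_id)

lemma mx_meas {α : Type*} [MeasurableSpace α] (b : ℝ) (t : ℕ) {f g : α → Env d}
    (hf : Measurable f) (hg : Measurable g) : Measurable fun w => mx b t (f w) (g w) := by
  classical
  refine measurable_pi_iff.2 fun p => ?_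
  have hfp : Measurable fun w => f w p := (measurable_pi_apply p).comp hf
  have hgp : Measurable fun w => g w p := (measurable_pi_apply p).comp hg
  by_cases hp : p.1 = t
  · have e : (fun w => mx b t (f w) (g w) p) = fun w => if |f w p| ≤ b then cl b (g w p)
        else f w p := by
      funext w
      unfold mx
      by_cases h : |f w p| ≤ b
      · rw [if_pos ⟨hp, h⟩, if_pos h]
      · rw [if_neg (fun h' => h h'.2), if_neg h]
    rw [e]
    exact Measurable.ite (measurableSet_le (measurable_norm.comp hfp) measurable_const)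
      ((cl_meas b).comp hgp) hfp
  · have e : (fun w => mx b t (f w) (g w) p) = fun w => f w p := by
      funext w
      unfold mx
      rw [if_neg (fun h' => hp h'.1)]
    rw [e]
    exact hfp

lemma mxJ_meas {α : Type*} [MeasurableSpace α] (b : ℝ) {k : ℕ} (T : Fin k → ℕ) {f : α → Env d}
    {g : α → Fin k → Env d} (hf : Measurable f) (hg : Measurable g) :
    Measurable fun w => mxJ b T (f w) (g w) := by
  classical
  refine measurable_pi_iff.2 fun p => ?_
  have hfp : Measurable fun w => f w p := (measurable_pi_apply p).comp hf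
  by_cases hp : ∃ i, T i = p.1
  · have hgp : Measurable fun w => g w hp.choose p :=
      (measurable_pi_apply p).comp ((measurable_pi_apply hp.choose).comp hg)
    have e : (fun w => mxJ b T (f w) (g w) p) = fun w => if |f w p| ≤ b then
        cl b (g w hp.choose p) else f w p := by
      funext w
      unfold mxJ
      by_cases h : |f w p| ≤ b
      · rw [dif_pos ⟨hp, h⟩, if_pos h]
      · rw [dif_neg (fun h' => h h'.2), if_neg h]
    rw [e]
    exact Measurable.ite (measurableSet_le (measurable_norm.comp hfp) measurable_const)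
      ((cl_meas b).comp hgp) hfp
  · have e : (fun w => mxJ b T (f w) (g w) p) = fun w => f w p := by
      funext w
      unfold mxJ
      rw [dif_neg (fun h' => hp h'.1)]
    rw [e]
    exact hfp

lemma PP_meas (β : ℝ) (h : Vec d) (t : ℕ) (y : Site d) :
    Measurable fun η : Env d => PP β h η t y := measurable_ZT β h _

lemma sg_meas (β : ℝ) (h : Vec d) (a b' : ℕ) (x y : Site d) : Measurable (sg β h a b' x y) :=
  (PP_meas β h (b' - a) (y - x)).comp (measurable_sh a x)

lemma uab_meas {α : Type*} [MeasurableSpace α] (ρ : Measure ℝ) (β b : ℝ) (h : Vec d)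
    (t a b' : ℕ) (x y : Site d) {f g : α → Env d} (hf : Measurable f) (hg : Measurable g) :
    Measurable fun w => uab ρ β b h t a b' x y (f w) (g w) := by
  classical
  have h1 : Measurable fun w => sg β h a b' x y (mx b t (f w) fun _ => c0 ρ β b) :=
    (sg_meas β h a b' x y).comp (mx_meas b t hf measurable_const)
  have h2 : Measurable fun w => sg β h a b' x y (mx b t (f w) (g w)) :=
    (sg_meas β h a b' x y).comp (mx_meas b t hf hg)
  have e : (fun w => uab ρ β b h t a b' x y (f w) (g w)) = fun w =>
      if sg β h a b' x y (mx b t (f w) fun _ => c0 ρ β b) = 0 then 1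
      else sg β h a b' x y (mx b t (f w) (g w)) /
        sg β h a b' x y (mx b t (f w) fun _ => c0 ρ β b) := by
    funext w
    unfold uab
    congr
  rw [e]
  exact Measurable.ite (h1 (measurableSet_singleton 0)) measurable_const (h2.div h1)

lemma psab_meas [IsProbabilityMeasure ρ] (hb : HB ρ b) (β : ℝ) (h : Vec d) (t a b' : ℕ)
    (x y : Site d) : Measurable (psab ρ β b h t a b' x y) := by
  haveI := prob_rb hb
  have h1 : Measurable fun w : Env d × Env d => Real.log (uab ρ β b h t a b' x y w.1 w.2) :=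
    Real.measurable_log.comp (uab_meas ρ β b h t a b' x y measurable_fst measurable_snd)
  exact (h1.stronglyMeasurable.integral_prod_right (ν := law d (rb ρ b))).measurable

lemma msp_meas (β : ℝ) (h : Vec d) (n : ℕ) {k : ℕ} (r : Fin (k + 1) → ℕ) (s : Sp d n k) :
    Measurable (msp β h n r s) := by
  unfold msp
  refine Measurable.div (Measurable.mul (Measurable.mul (PP_meas β h _ _) ?_) ?_)
    (measurable_Z β h n)
  · exact Finset.measurable_prod _ fun i _ => sg_meas β h _ _ _ _
  · exact (measurable_Z β h _).comp (measurable_sh _ _)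

lemma Qsp_meas (ρ : Measure ℝ) (β b : ℝ) (h : Vec d) (n : ℕ) {k : ℕ} (T : Fin k → ℕ)
    (r : Fin (k + 1) → ℕ) (s : Sp d n k) : Measurable fun η => Qsp ρ β b h n T r η s :=
  (msp_meas β h n r s).comp (mxJ_meas b T measurable_id measurable_const)

lemma usp_meas {α : Type*} [MeasurableSpace α] (ρ : Measure ℝ) (β b : ℝ) (h : Vec d) (n : ℕ)
    {k : ℕ} (T : Fin k → ℕ) (r : Fin (k + 1) → ℕ) (i : Fin k) (s : Sp d n k)
    {f g : α → Env d} (hf : Measurable f) (hg : Measurable g) :
    Measurable fun w => usp ρ β b h n T r (f w) i s (g w) := uab_meas ρ β b h _ _ _ _ _ hf hg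

lemma psT_meas [IsProbabilityMeasure ρ] (hb : HB ρ b) (β : ℝ) (h : Vec d) (n : ℕ)
    {k : ℕ} (T : Fin k → ℕ) (r : Fin (k + 1) → ℕ) (i : Fin k) (s : Sp d n k) :
    Measurable fun η => psT (law d (rb ρ b)) (usp ρ β b h n T r η) i s :=
  psab_meas hb β h _ _ _ _ _

lemma vaT_meas [IsProbabilityMeasure ρ] (hb : HB ρ b) (β : ℝ) (h : Vec d) (n : ℕ)
    {k : ℕ} (T : Fin k → ℕ) (r : Fin (k + 1) → ℕ) (i : Fin k) (s : Sp d n k) :
    Measurable fun η => vaT (law d (rb ρ b)) (usp ρ β b h n T r η) i s := by
  haveI := prob_rb hb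
  have h1 : Measurable fun w : Env d × Env d => (Real.log (usp ρ β b h n T r w.1 i s w.2) -
      psT (law d (rb ρ b)) (usp ρ β b h n T r w.1) i s) ^ 2 :=
    ((Real.measurable_log.comp (usp_meas ρ β b h n T r i s measurable_fst measurable_snd)).sub
      ((psT_meas hb β h n T r i s).comp measurable_fst)).pow_const 2
  exact (h1.stronglyMeasurable.integral_prod_right (ν := law d (rb ρ b))).measurable

lemma wT_meas {α : Type*} [MeasurableSpace α] (ρ : Measure ℝ) (β b : ℝ) (h : Vec d) (n : ℕ)
    {k : ℕ} (T : Fin k → ℕ) (r : Fin (k + 1) → ℕ) (s : Sp d n k)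
    {f : α → Env d} {g : α → Fin k → Env d} (hf : Measurable f) (hg : Measurable g) :
    Measurable fun w => wT (Qsp ρ β b h n T r (f w)) (usp ρ β b h n T r (f w)) (g w) s := by
  unfold wT
  refine ((Qsp_meas ρ β b h n T r s).comp hf).mul (Finset.measurable_prod _ fun i _ => ?_)
  exact usp_meas ρ β b h n T r i s hf ((measurable_pi_apply i).comp hg)

lemma dT_meas {α : Type*} [MeasurableSpace α] (ρ : Measure ℝ) (β b : ℝ) (h : Vec d) (n : ℕ)
    {k : ℕ} (T : Fin k → ℕ) (r : Fin (k + 1) → ℕ)
    {f : α → Env d} {g : α → Fin k → Env d} (hf : Measurable f) (hg : Measurable g) :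
    Measurable fun w => dT (Qsp ρ β b h n T r (f w)) (usp ρ β b h n T r (f w)) (g w) := by
  unfold dT
  exact Finset.measurable_sum _ fun s _ => wT_meas ρ β b h n T r s hf hg

lemma prT_meas {α : Type*} [MeasurableSpace α] (ρ : Measure ℝ) (β b : ℝ) (h : Vec d) (n : ℕ)
    {k : ℕ} (T : Fin k → ℕ) (r : Fin (k + 1) → ℕ) (s : Sp d n k)
    {f : α → Env d} {g : α → Fin k → Env d} (hf : Measurable f) (hg : Measurable g) :
    Measurable fun w => prT (Qsp ρ β b h n T r (f w)) (usp ρ β b h n T r (f w)) (g w) s :=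
  (wT_meas ρ β b h n T r s hf hg).div (dT_meas ρ β b h n T r hf hg)

lemma kaT_meas [IsProbabilityMeasure ρ] (hb : HB ρ b) (β : ℝ) (h : Vec d) (n : ℕ)
    {k : ℕ} (T : Fin k → ℕ) (r : Fin (k + 1) → ℕ) (i : Fin k) :
    Measurable fun η => kaT (law d (rb ρ b)) (Qsp ρ β b h n T r η) (usp ρ β b h n T r η) i := by
  haveI := prob_rb hb
  have h1 : Measurable fun w : Env d × (Fin k → Env d) =>
      ∑ s, prT (Qsp ρ β b h n T r w.1) (usp ρ β b h n T r w.1) w.2 s *
        (Real.log (usp ρ β b h n T r w.1 i s (w.2 i)) -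
          psT (law d (rb ρ b)) (usp ρ β b h n T r w.1) i s) := by
    refine Finset.measurable_sum _ fun s _ => ?_
    refine (prT_meas ρ β b h n T r s measurable_fst measurable_snd).mul ?_
    refine (Real.measurable_log.comp ?_).sub ((psT_meas hb β h n T r i s).comp measurable_fst)
    exact usp_meas ρ β b h n T r i s measurable_fst
      ((measurable_pi_apply i).comp measurable_snd)
  exact (h1.stronglyMeasurable.integral_prod_right
    (ν := Measure.pi fun _ : Fin k => law d (rb ρ b))).measurable

end Pool.Agent.W_7d29a1_NV.M66
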