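import Pool.Agent.W_7d29a1_NV.Chn20
import Pool.Agent.W_7d29a1_NV.MeasN66

/-!
The selections of the model are those of the polymer.
-/

namespace Pool.Agent.W_7d29a1_NV.K20

open MeasureTheory ProbabilityTheory Filter Topology Pool.Agent.W_MP_7d29a1_pr
  Pool.Agent.W_7d29a1_h46 Pool.Agent.W_7d29a1_h46u Pool.Agent.W_7d29a1_D2.B35
  Pool.Agent.W_7d29a1_Q29 Pool.Agent.W_7d29a1_NV Pool.Agent.W_7d29a1_NV.M66

variable {d : ℕ} {ρ : Measure ℝ} {β b : ℝ}

/-! ### Locality -/

lemma wgt_congr20 {n : ℕ} {η η' : Env d} (hη : ∀ p : ℕ × Site d, 1 ≤ p.1 → p.1 ≤ n → η p = η' p)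
    (β : ℝ) (h : Vec d) (q : Fin n → Step d) : wgt β h η q = wgt β h η' q := by
  have h1 : energy η q = energy η' q := by
    unfold energy
    exact Finset.sum_congr rfl fun i _ => hη _ (Nat.le_add_left 1 i) i.2
  unfold wgt
  rw [h1]

lemma PP_congr20 {n : ℕ} {η η' : Env d} (hη : ∀ p : ℕ × Site d, 1 ≤ p.1 → p.1 ≤ n → η p = η' p)
    (β : ℝ) (h : Vec d) (z : Site d) : PP β h η n z = PP β h η' n z := by
  unfold PP ZT
  refine Finset.sum_congr rfl fun q _ => ?_
  rw [wgt_congr20 hη]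

lemma Z_congr20 {n : ℕ} {η η' : Env d} (hη : ∀ p : ℕ × Site d, 1 ≤ p.1 → p.1 ≤ n → η p = η' p)
    (β : ℝ) (h : Vec d) : Z β h η n = Z β h η' n := by
  rw [Z_eq, Z_eq]
  exact Finset.sum_congr rfl fun q _ => wgt_congr20 hη β h q

lemma sg_congr20 {a b' : ℕ} {η η' : Env d}
    (hη : ∀ p : ℕ × Site d, a < p.1 → p.1 ≤ b' → η p = η' p) (β : ℝ) (h : Vec d)
    (x y : Site d) : sg β h a b' x y η = sg β h a b' x y η' := by
  unfold sg
  refine PP_congr20 (fun p h1 h2 => ?_) β h _
  unfold sh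
  exact hη _ (by simp only; omega) (by simp only; omega)

lemma PP_zero20 {n : ℕ} {η : Env d} {h : Vec d} {z : Site d} (h0 : PP β h η n z = 0)
    (η' : Env d) : PP β h η' n z = 0 := by
  classical
  rw [PP_eq20] at h0 ⊢
  refine Finset.sum_eq_zero fun q _ => ?_
  have h1 := (Finset.sum_eq_zero_iff_of_nonneg fun q _ => by
    split_ifs
    · exact (wgt_pos _ _ _ _).le
    · exact le_rfl).1 h0 q (Finset.mem_univ q)
  by_cases hq : pos q n = z
  · rw [if_pos hq] at h1
    exact absurd h1 (wgt_pos _ _ _ _).ne'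
  · exact if_neg hq

lemma sg_zero20 {a b' : ℕ} {η η' : Env d} {h : Vec d} {x y : Site d}
    (h0 : sg β h a b' x y η = 0) : sg β h a b' x y η' = 0 :=
  PP_zero20 h0 _

/-! ### The mixed environments -/

lemma abs_cl20 (hb : 0 ≤ b) (x : ℝ) : |cl b x| ≤ b := by
  unfold cl
  rw [abs_le]
  exact ⟨le_max_left _ _, max_le (by linarith) (min_le_left _ _)⟩

lemma mx_row20 {t : ℕ} {p : ℕ × Site d} (hp : p.1 = t) (η ξ : Env d) :
    mx b t η ξ p = open Classical in if |η p| ≤ b then cl b (ξ p) else η p := by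
  unfold mx
  by_cases h : |η p| ≤ b
  · rw [if_pos ⟨hp, h⟩, if_pos h]
  · rw [if_neg (fun h' => h h'.2), if_neg h]

lemma mx_off20 {t : ℕ} {p : ℕ × Site d} (hp : p.1 ≠ t) (η ξ : Env d) : mx b t η ξ p = η p := by
  unfold mx
  rw [if_neg (fun h' => hp h'.1)]

lemma mxJ_row20 {k : ℕ} {T : Fin k → ℕ} (hT : Function.Injective T) (i : Fin k)
    {p : ℕ × Site d} (hp : T i = p.1) (η : Env d) (ξ : Fin k → Env d) :
    mxJ b T η ξ p = open Classical in if |η p| ≤ b then cl b (ξ i p) else η p := by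
  unfold mxJ
  by_cases h : |η p| ≤ b
  · have h1 : (∃ i, T i = p.1) ∧ |η p| ≤ b := ⟨⟨i, hp⟩, h⟩
    rw [dif_pos h1, if_pos h]
    have h2 : h1.1.choose = i := hT (h1.1.choose_spec.trans hp.symm)
    rw [h2]
  · rw [dif_neg (fun h' => h h'.2), if_neg h]

lemma mxJ_off20 {k : ℕ} {T : Fin k → ℕ} {p : ℕ × Site d} (hp : ∀ i, T i ≠ p.1) (η : Env d)
    (ξ : Fin k → Env d) : mxJ b T η ξ p = η p := by
  unfold mxJ
  rw [dif_neg (fun h' => h'.1.elim hp)]

lemma mx_mx20 (hb : 0 ≤ b) (t : ℕ) (η ζ' ζ : Env d) :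
    mx b t (mx b t η ζ') ζ = mx b t η ζ := by
  classical
  funext p
  by_cases hp : p.1 = t
  · rw [mx_row20 hp, mx_row20 hp, mx_row20 hp]
    by_cases h : |η p| ≤ b
    · rw [if_pos h, if_pos h, if_pos (abs_cl20 hb _)]
    · rw [if_neg h, if_neg h]
  · rw [mx_off20 hp, mx_off20 hp, mx_off20 hp]

lemma mx_mxJ20 (hb : 0 ≤ b) {k : ℕ} {T : Fin k → ℕ} (hT : Function.Injective T) (i : Fin k)
    (η : Env d) (ξ : Fin k → Env d) (ζ : Env d) :
    mx b (T i) (mxJ b T η ξ) ζ = mxJ b T η (Function.update ξ i ζ) := by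
  classical
  funext p
  by_cases hp : p.1 = T i
  · rw [mx_row20 hp, mxJ_row20 hT i hp.symm, mxJ_row20 hT i hp.symm, Function.update_self]
    by_cases h : |η p| ≤ b
    · rw [if_pos h, if_pos (abs_cl20 hb _), if_pos h]
    · rw [if_neg h, if_neg h]
  · rw [mx_off20 hp]
    by_cases hj : ∃ j, T j = p.1
    · obtain ⟨j, hj⟩ := hj
      have hji : j ≠ i := by
        rintro rfl
        exact hp hj.symm
      rw [mxJ_row20 hT j hj, mxJ_row20 hT j hj, Function.update_of_ne hji]
    · have hj' : ∀ i, T i ≠ p.1 := fun i hi => hj ⟨i, hi⟩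
      rw [mxJ_off20 hj', mxJ_off20 hj']

lemma mxJ_eq20 (hb : 0 ≤ b) {k : ℕ} {T : Fin k → ℕ} (hT : Function.Injective T) (i : Fin k)
    (η : Env d) (ξ : Fin k → Env d) :
    mx b (T i) (mxJ b T η ξ) (ξ i) = mxJ b T η ξ := by
  rw [mx_mxJ20 hb hT, Function.update_eq_self]

lemma ord_inj20 {n k : ℕ} {T : Fin k → ℕ} {r : Fin (k + 1) → ℕ} (hO : Ord n T r) :
    StrictMono T := by
  intro i j hij
  have h1 : r i.succ ≤ r j.castSucc := ord_mono hO (by
    rw [Fin.succ_le_castSucc_iff]
    exact hij)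
  exact ((hO.1 i).2.trans h1).trans_lt (hO.1 j).1

/-! ### Resampling one row -/

lemma mp_upd20 {Ω : Type*} [MeasurableSpace Ω] (μ : Measure Ω) [IsProbabilityMeasure μ] {k : ℕ}
    (i : Fin k) :
    MeasurePreserving (fun w : (Fin k → Ω) × Ω => Function.update w.1 i w.2)
      ((Measure.pi fun _ : Fin k => μ).prod μ) (Measure.pi fun _ : Fin k => μ) := by
  have hm : Measurable fun w : (Fin k → Ω) × Ω => Function.update w.1 i w.2 := by
    refine measurable_pi_iff.2 fun j => ?_
    by_cases hj : j = i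
    · subst hj
      simp only [Function.update_self]
      exact measurable_snd
    · simp only [Function.update_of_ne hj]
      exact (measurable_pi_apply j).comp measurable_fst
  refine ⟨hm, ?_⟩
  refine (Measure.pi_eq fun s hs => ?_).symm
  rw [Measure.map_apply hm (MeasurableSet.univ_pi hs)]
  have h1 : (fun w : (Fin k → Ω) × Ω => Function.update w.1 i w.2) ⁻¹' Set.pi Set.univ s =
      (Set.pi Set.univ (Function.update s i Set.univ)) ×ˢ (s i) := by
    ext w
    simp only [Set.mem_preimage, Set.mem_pi, Set.mem_univ, true_implies, Set.mem_prod]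
    constructor
    · intro hw
      refine ⟨fun j => ?_, ?_⟩
      · by_cases hj : j = i
        · subst hj
          rw [Function.update_self]
          exact Set.mem_univ _
        · rw [Function.update_of_ne hj]
          have h2 := hw j
          rwa [Function.update_of_ne hj] at h2
      · have h2 := hw i
        rwa [Function.update_self] at h2
    · rintro ⟨h2, h3⟩ j
      by_cases hj : j = i
      · subst hj
        rw [Function.update_self]
        exact h3
      · rw [Function.update_of_ne hj]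
        have h4 := h2 j
        rwa [Function.update_of_ne hj] at h4
  rw [h1, Measure.prod_prod, Measure.pi_pi]
  have h2 : ∏ j, μ (Function.update s i Set.univ j) = ∏ j ∈ Finset.univ.erase i, μ (s j) := by
    rw [← Finset.mul_prod_erase Finset.univ _ (Finset.mem_univ i), Function.update_self,
      measure_univ, one_mul]
    refine Finset.prod_congr rfl fun j hj => ?_
    rw [Function.update_of_ne (Finset.ne_of_mem_erase hj)]
  rw [h2, mul_comm, Finset.mul_prod_erase Finset.univ (fun j => μ (s j)) (Finset.mem_univ i)]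

lemma int_upd20 {Ω : Type*} [MeasurableSpace Ω] (μ : Measure Ω) [IsProbabilityMeasure μ] {k : ℕ}
    (i : Fin k) {G : (Fin k → Ω) → ℝ} (hG : Measurable G) {M : ℝ} (hM : ∀ x, |G x| ≤ M) :
    ∫ x, ∫ y, G (Function.update x i y) ∂μ ∂(Measure.pi fun _ : Fin k => μ) =
      ∫ x, G x ∂(Measure.pi fun _ : Fin k => μ) := by
  have hm := (mp_upd20 μ i)
  have hI : Integrable (fun w : (Fin k → Ω) × Ω => G (Function.update w.1 i w.2))
      ((Measure.pi fun _ : Fin k => μ).prod μ) :=
    (integrable_const M).mono' (hG.comp hm.measurable).aestronglyMeasurable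
      (Eventually.of_forall fun w => hM _)
  have h1 := integral_prod _ hI
  have h2 := LawU_integral hm (F := G) hG.aestronglyMeasurable
  rw [← h2, h1]

theorem trans20 [IsProbabilityMeasure ρ] (hb : HB ρ b) (hW : MixT d ρ b) {k : ℕ} {T : Fin k → ℕ}
    (hT : Function.Injective T) (i : Fin k) {F : Env d → Env d → ℝ}
    (hFm : Measurable fun w : Env d × Env d => F w.1 w.2) {M : ℝ} (hFM : ∀ η ζ, |F η ζ| ≤ M)
    (hF : ∀ η ζ, F (mx b (T i) η ζ) ζ = F η ζ) :
    ∫ η, ∫ ξ, F (mxJ b T η ξ) (ξ i) ∂(Measure.pi fun _ : Fin k => law d (rb ρ b)) ∂(law d ρ) =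
      ∫ η, ∫ ζ, F η ζ ∂(law d (rb ρ b)) ∂(law d ρ) := by
  have := prob_rb hb
  have h0 : Measurable fun η : Env d => ∫ ζ, F η ζ ∂(law d (rb ρ b)) :=
    (hFm.stronglyMeasurable.integral_prod_right (ν := law d (rb ρ b))).measurable
  have hbd : ∀ η : Env d, |∫ ζ, F η ζ ∂(law d (rb ρ b))| ≤ M := fun η => by
    have h1 := norm_integral_le_of_norm_le_const (μ := law d (rb ρ b)) (f := fun ζ => F η ζ)
      (C := M) (Eventually.of_forall fun ζ => hFM η ζ)
    rwa [probReal_univ, mul_one] at h1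
  have hW' := hW k T hT
  rw [← LawU_integral hW' h0.aestronglyMeasurable]
  have hI : Integrable (fun w : Env d × (Fin k → Env d) =>
      ∫ ζ, F (mxJ b T w.1 w.2) ζ ∂(law d (rb ρ b)))
      ((law d ρ).prod (Measure.pi fun _ : Fin k => law d (rb ρ b))) :=
    (integrable_const M).mono' (h0.comp hW'.measurable).aestronglyMeasurable
      (Eventually.of_forall fun w => hbd _)
  rw [integral_prod _ hI]
  refine integral_congr_ae (Eventually.of_forall fun η => ?_)
  simp only
  have hG : Measurable fun ξ : Fin k → Env d => F (mxJ b T η ξ) (ξ i) :=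
    hFm.comp ((mxJ_meas b T measurable_const measurable_id).prodMk (measurable_pi_apply i))
  rw [← int_upd20 (law d (rb ρ b)) i hG fun ξ => hFM _ _]
  refine integral_congr_ae (Eventually.of_forall fun ξ => ?_)
  refine integral_congr_ae (Eventually.of_forall fun ζ => ?_)
  simp only
  rw [Function.update_self, ← mx_mxJ20 hb.b0.le hT, hF]

/-! ### The gains of a segment -/

lemma pab_meas20 (β : ℝ) (h : Vec d) (n a b' : ℕ) (x y : Site d) :
    Measurable (pab β h n a b' x y) := by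
  unfold pab
  exact (((PP_meas β h a x).mul (sg_meas β h a b' x y)).mul
    ((measurable_Z β h _).comp (measurable_sh _ _))).div (measurable_Z β h n)

lemma uab_bd20 (hE : EqT d ρ β b) (h : Vec d) {n t a b' : ℕ} (h1 : a < t) (h2 : t ≤ b')
    (h3 : b' ≤ n) {x y : Site d} (hx : x ∈ boxF d n) (hy : y ∈ boxF d n) (η ξ : Env d) :
    |Real.log (uab ρ β b h t a b' x y η ξ)| ≤ Bc β b := by
  have hO : Ord n ![t] ![a, b'] := by
    refine ⟨fun i => ?_, h3⟩
    have hi : i = 0 := Fin.ext (Nat.lt_one_iff.1 i.2)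
    subst hi
    exact ⟨h1, h2⟩
  have hH := (hE h n 1 ![t] ![a, b'] hO η).1
  have h4 : Real.exp (-Bc β b) ≤ uab ρ β b h t a b' x y η ξ :=
    hH.lo 0 ![⟨x, hx⟩, ⟨y, hy⟩] ξ
  have h5 : uab ρ β b h t a b' x y η ξ ≤ Real.exp (Bc β b) :=
    hH.hi 0 ![⟨x, hx⟩, ⟨y, hy⟩] ξ
  have h6 : 0 < uab ρ β b h t a b' x y η ξ := (Real.exp_pos _).trans_le h4
  rw [abs_le]
  exact ⟨(Real.le_log_iff_exp_le h6).2 h4, (Real.log_le_iff_le_exp h6).2 h5⟩

lemma psab_bd20 [IsProbabilityMeasure ρ] (hb : HB ρ b) (hE : EqT d ρ β b) (h : Vec d)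
    {n t a b' : ℕ} (h1 : a < t) (h2 : t ≤ b')
    (h3 : b' ≤ n) {x y : Site d} (hx : x ∈ boxF d n) (hy : y ∈ boxF d n) (η : Env d) :
    |psab ρ β b h t a b' x y η| ≤ Bc β b := by
  have := prob_rb hb
  have h4 := norm_integral_le_of_norm_le_const (μ := law d (rb ρ b))
    (f := fun ξ => Real.log (uab ρ β b h t a b' x y η ξ))
    (C := Bc β b) (Eventually.of_forall fun ξ => uab_bd20 hE h h1 h2 h3 hx hy η ξ)
  rwa [probReal_univ, mul_one] at h4

lemma uab_mx20 (hb : 0 ≤ b) (h : Vec d) (t a b' : ℕ) (x y : Site d) (η ζ' ζ : Env d) :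
    uab ρ β b h t a b' x y (mx b t η ζ') ζ = uab ρ β b h t a b' x y η ζ := by
  unfold uab
  rw [mx_mx20 hb, mx_mx20 hb]

lemma psab_mx20 (hb : 0 ≤ b) (h : Vec d) (t a b' : ℕ) (x y : Site d) (η ζ' : Env d) :
    psab ρ β b h t a b' x y (mx b t η ζ') = psab ρ β b h t a b' x y η := by
  unfold psab
  simp only [uab_mx20 hb]

lemma loc20 {n k : ℕ} {T : Fin k → ℕ} {r : Fin (k + 1) → ℕ} (hO : Ord n T r) (hb : 0 ≤ b)
    (i : Fin k) (h : Vec d) (x y : Site d) (η : Env d) (ξ : Fin k → Env d) (ζ : Env d) :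
    sg β h (r i.castSucc) (r i.succ) x y (mx b (T i) (mxJ b T η ξ) ζ) =
      sg β h (r i.castSucc) (r i.succ) x y (mx b (T i) η ζ) := by
  classical
  have hT := (ord_inj20 hO).injective
  refine sg_congr20 (fun p hp1 hp2 => ?_) β h x y
  by_cases hp : p.1 = T i
  · rw [mx_row20 hp, mx_row20 hp, mxJ_row20 hT i hp.symm]
    by_cases h' : |η p| ≤ b
    · rw [if_pos h', if_pos (abs_cl20 hb _), if_pos h']
    · rw [if_neg h', if_neg h']
  · rw [mx_off20 hp, mx_off20 hp, mxJ_off20]
    intro j hj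
    rcases lt_trichotomy j i with hji | hji | hji
    · have h1 : r j.succ ≤ r i.castSucc := ord_mono hO (by
        rw [Fin.succ_le_castSucc_iff]
        exact hji)
      have h2 := (hO.1 j).2
      omega
    · rw [hji] at hj
      exact hp hj.symm
    · have h1 : r i.succ ≤ r j.castSucc := ord_mono hO (by
        rw [Fin.succ_le_castSucc_iff]
        exact hji)
      have h2 := (hO.1 j).1
      omega

lemma uab_loc20 {n k : ℕ} {T : Fin k → ℕ} {r : Fin (k + 1) → ℕ} (hO : Ord n T r) (hb : 0 ≤ b)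
    (i : Fin k) (h : Vec d) (x y : Site d) (η : Env d) (ξ : Fin k → Env d) (ζ : Env d) :
    uab ρ β b h (T i) (r i.castSucc) (r i.succ) x y (mxJ b T η ξ) ζ =
      uab ρ β b h (T i) (r i.castSucc) (r i.succ) x y η ζ := by
  unfold uab
  rw [loc20 hO hb, loc20 hO hb]

lemma psab_loc20 {n k : ℕ} {T : Fin k → ℕ} {r : Fin (k + 1) → ℕ} (hO : Ord n T r) (hb : 0 ≤ b)
    (i : Fin k) (h : Vec d) (x y : Site d) (η : Env d) (ξ : Fin k → Env d) :
    psab ρ β b h (T i) (r i.castSucc) (r i.succ) x y (mxJ b T η ξ) =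
      psab ρ β b h (T i) (r i.castSucc) (r i.succ) x y η := by
  unfold psab
  simp only [uab_loc20 hO hb]

theorem core20 [IsProbabilityMeasure ρ] (hd : 0 < d) (hb : HB ρ b) (hW : MixT d ρ b) (h : Vec d)
    {n k : ℕ} {T : Fin k → ℕ} (hT : Function.Injective T) (i : Fin k) {a b' : ℕ} (hab : a ≤ b')
    (hbn : b' ≤ n) {g : Site d → Site d → Env d → Env d → ℝ}
    (hg : ∀ x y, Measurable fun w : Env d × Env d => g x y w.1 w.2) {M : ℝ}
    (hM : ∀ x ∈ boxF d n, ∀ y ∈ boxF d n, ∀ η ζ, |g x y η ζ| ≤ M)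
    (hgm : ∀ x y η ζ, g x y (mx b (T i) η ζ) ζ = g x y η ζ) :
    ∫ η, ∫ ξ, ∑ x ∈ boxF d n, ∑ y ∈ boxF d n, pab β h n a b' x y (mxJ b T η ξ) *
        g x y (mxJ b T η ξ) (ξ i) ∂(Measure.pi fun _ : Fin k => law d (rb ρ b)) ∂(law d ρ) =
      ∫ η, ∫ ζ, ∑ x ∈ boxF d n, ∑ y ∈ boxF d n, pab β h n a b' x y (mx b (T i) η ζ) *
        g x y η ζ ∂(law d (rb ρ b)) ∂(law d ρ) := by
  have h1 := trans20 hb hW hT i (F := fun η ζ => ∑ x ∈ boxF d n, ∑ y ∈ boxF d n,
    pab β h n a b' x y (mx b (T i) η ζ) * g x y η ζ) ?_ (M := M) ?_ ?_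
  · rw [← h1]
    simp only [mxJ_eq20 hb.b0.le hT]
  · refine Finset.measurable_sum _ fun x _ => Finset.measurable_sum _ fun y _ => ?_
    exact ((pab_meas20 β h n a b' x y).comp (mx_meas b (T i) measurable_fst measurable_snd)).mul
      (hg x y)
  · intro η ζ
    refine (Finset.abs_sum_le_sum_abs _ _).trans ?_
    have h2 : ∀ x ∈ boxF d n, |∑ y ∈ boxF d n, pab β h n a b' x y (mx b (T i) η ζ) *
        g x y η ζ| ≤ ∑ y ∈ boxF d n, pab β h n a b' x y (mx b (T i) η ζ) * M := by
      intro x hx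
      refine (Finset.abs_sum_le_sum_abs _ _).trans (Finset.sum_le_sum fun y hy => ?_)
      rw [abs_mul, abs_of_nonneg (pab_nonneg20 hd _ _ _ _ _ _ _ _)]
      exact mul_le_mul_of_nonneg_left (hM x hx y hy η ζ) (pab_nonneg20 hd _ _ _ _ _ _ _ _)
    refine (Finset.sum_le_sum h2).trans (le_of_eq ?_)
    simp only [← Finset.sum_mul]
    rw [sum_pab_one20 hd β h _ hab hbn, one_mul]
  · intro η ζ
    simp only [mx_mx20 hb.b0.le, hgm]

/-- The gain minus its mean. -/
noncomputable def g1 (ρ : Measure ℝ) (β b : ℝ) (h : Vec d) (t a b' : ℕ) (x y : Site d)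
    (η ζ : Env d) : ℝ :=
  Real.log (uab ρ β b h t a b' x y η ζ) - psab ρ β b h t a b' x y η

/-- The variance of the gain. -/
noncomputable def g3 (ρ : Measure ℝ) (β b : ℝ) (h : Vec d) (t a b' : ℕ) (x y : Site d)
    (η : Env d) : ℝ :=
  ∫ ξ', (Real.log (uab ρ β b h t a b' x y η ξ') - psab ρ β b h t a b' x y η) ^ 2
    ∂(law d (rb ρ b))

lemma g1_meas20 [IsProbabilityMeasure ρ] (hb : HB ρ b) (h : Vec d) (t a b' : ℕ) (x y : Site d) :
    Measurable fun w : Env d × Env d => g1 ρ β b h t a b' x y w.1 w.2 :=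
  (Real.measurable_log.comp (uab_meas ρ β b h t a b' x y measurable_fst measurable_snd)).sub
    ((psab_meas hb β h t a b' x y).comp measurable_fst)

lemma g3_meas20 [IsProbabilityMeasure ρ] (hb : HB ρ b) (h : Vec d) (t a b' : ℕ) (x y : Site d) :
    Measurable fun w : Env d × Env d => g3 ρ β b h t a b' x y w.1 := by
  have := prob_rb hb
  have h1 : Measurable fun w : Env d × Env d => (g1 ρ β b h t a b' x y w.1 w.2) ^ 2 :=
    (g1_meas20 hb h t a b' x y).pow_const 2
  have h2 : Measurable (g3 ρ β b h t a b' x y) :=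
    (h1.stronglyMeasurable.integral_prod_right (ν := law d (rb ρ b))).measurable
  exact h2.comp measurable_fst

lemma g1_bd20 [IsProbabilityMeasure ρ] (hb : HB ρ b) (hE : EqT d ρ β b) (h : Vec d)
    {n t a b' : ℕ} (h1 : a < t) (h2 : t ≤ b')
    (h3 : b' ≤ n) {x y : Site d} (hx : x ∈ boxF d n) (hy : y ∈ boxF d n) (η ζ : Env d) :
    |g1 ρ β b h t a b' x y η ζ| ≤ 2 * Bc β b := by
  unfold g1
  refine (abs_sub _ _).trans ?_
  have h4 := uab_bd20 hE h h1 h2 h3 hx hy η ζ
  have h5 := psab_bd20 hb hE h h1 h2 h3 hx hy η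
  linarith

lemma g3_bd20 [IsProbabilityMeasure ρ] (hb : HB ρ b) (hE : EqT d ρ β b) (h : Vec d)
    {n t a b' : ℕ} (h1 : a < t) (h2 : t ≤ b')
    (h3 : b' ≤ n) {x y : Site d} (hx : x ∈ boxF d n) (hy : y ∈ boxF d n) (η : Env d) :
    |g3 ρ β b h t a b' x y η| ≤ (2 * Bc β b) ^ 2 := by
  have := prob_rb hb
  have h4 := norm_integral_le_of_norm_le_const (μ := law d (rb ρ b))
    (f := fun ξ => (g1 ρ β b h t a b' x y η ξ) ^ 2)
    (C := (2 * Bc β b) ^ 2) (Eventually.of_forall fun ξ => by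
      rw [Real.norm_eq_abs, abs_pow]
      exact pow_le_pow_left₀ (abs_nonneg _) (g1_bd20 hb hE h h1 h2 h3 hx hy η ξ) 2)
  rwa [probReal_univ, mul_one] at h4

/-! ### The outer pins -/

lemma logpab20 (hd : 0 < d) (h : Vec d) {n t a b' : ℕ} (h1 : a < t) (h2 : t ≤ b')
    (x y : Site d) (η ζ ζ' : Env d) :
    pab β h n a b' x y (mx b t η ζ) * (Real.log (pab β h n a b' x y (mx b t η ζ)) -
        Real.log (pab β h n a b' x y (mx b t η ζ'))) =
      pab β h n a b' x y (mx b t η ζ) * (Real.log (uab ρ β b h t a b' x y η ζ) -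
        Real.log (uab ρ β b h t a b' x y η ζ') -
          (X β h (mx b t η ζ) n - X β h (mx b t η ζ') n)) := by
  by_cases h0 : pab β h n a b' x y (mx b t η ζ) = 0
  · rw [h0, zero_mul, zero_mul]
  congr 1
  have hP : ∀ ξ : Env d, PP β h (mx b t η ξ) a x = PP β h η a x := fun ξ =>
    PP_congr20 (fun p _ hp => mx_off20 (by omega) _ _) β h x
  have hZ : ∀ ξ : Env d, Z β h (sh b' y (mx b t η ξ)) (n - b') = Z β h (sh b' y η) (n - b') :=
    fun ξ => Z_congr20 (fun p hp _ => by
      unfold sh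
      exact mx_off20 (by simp only; omega) _ _) β h
  have hZp := fun ξ : Env d => Z_pos hd β h (mx b t η ξ) n
  have hZ2 := Z_pos hd β h (sh b' y η) (n - b')
  have hpab : ∀ ξ : Env d, pab β h n a b' x y (mx b t η ξ) = PP β h η a x *
      sg β h a b' x y (mx b t η ξ) * Z β h (sh b' y η) (n - b') / Z β h (mx b t η ξ) n := by
    intro ξ
    unfold pab
    rw [hP, hZ]
  have hP0 : PP β h η a x ≠ 0 := by
    intro h'
    apply h0
    rw [hpab, h', zero_mul, zero_mul, zero_div]
  have hsg : ∀ ξ : Env d, sg β h a b' x y ξ ≠ 0 := by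
    intro ξ h'
    apply h0
    rw [hpab, sg_zero20 h', mul_zero, zero_mul, zero_div]
  have hu : ∀ ξ : Env d, Real.log (uab ρ β b h t a b' x y η ξ) =
      Real.log (sg β h a b' x y (mx b t η ξ)) -
        Real.log (sg β h a b' x y (mx b t η fun _ => c0 ρ β b)) := by
    intro ξ
    unfold uab
    rw [if_neg (hsg _), Real.log_div (hsg _) (hsg _)]
  have hl : ∀ ξ : Env d, Real.log (pab β h n a b' x y (mx b t η ξ)) =
      Real.log (PP β h η a x) + Real.log (sg β h a b' x y (mx b t η ξ)) +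
        Real.log (Z β h (sh b' y η) (n - b')) - X β h (mx b t η ξ) n := by
    intro ξ
    rw [hpab, Real.log_div (mul_ne_zero (mul_ne_zero hP0 (hsg _)) hZ2.ne') (hZp ξ).ne',
      Real.log_mul (mul_ne_zero hP0 (hsg _)) hZ2.ne', Real.log_mul hP0 (hsg _)]
    rfl
  rw [hl, hl, hu, hu]
  ring

lemma dT_bd20 {Ω S : Type} [MeasurableSpace Ω] [Fintype S] {k : ℕ} {P : Measure Ω} {Q : S → ℝ}
    {u : Fin k → S → Ω → ℝ} {B : ℝ} (hH : HT P Q u B) (ω : Fin k → Ω) :
    |Real.log (dT Q u ω)| ≤ B * k := by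
  have h1 : ∀ s, Real.exp (-(B * k)) ≤ ∏ i, u i s (ω i) ∧ ∏ i, u i s (ω i) ≤ Real.exp (B * k) := by
    intro s
    constructor
    · calc Real.exp (-(B * k)) = ∏ _i : Fin k, Real.exp (-B) := by
            rw [Finset.prod_const, Finset.card_univ, Fintype.card_fin, ← Real.exp_nat_mul]
            congr 1
            ring
        _ ≤ _ := Finset.prod_le_prod (fun _ _ => (Real.exp_pos _).le) fun i _ => hH.lo i s _
    · calc ∏ i, u i s (ω i) ≤ ∏ _i : Fin k, Real.exp B :=
            Finset.prod_le_prod (fun i _ => (Real.exp_pos _).le.trans (hH.lo i s _))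
              fun i _ => hH.hi i s _
        _ = Real.exp (B * k) := by
            rw [Finset.prod_const, Finset.card_univ, Fintype.card_fin, ← Real.exp_nat_mul]
            congr 1
            ring
  have h2 : Real.exp (-(B * k)) ≤ dT Q u ω := by
    calc Real.exp (-(B * k)) = ∑ s, Q s * Real.exp (-(B * k)) := by
          rw [← Finset.sum_mul, hH.q1, one_mul]
      _ ≤ _ := Finset.sum_le_sum fun s _ => mul_le_mul_of_nonneg_left (h1 s).1 (hH.q0 s)
  have h3 : dT Q u ω ≤ Real.exp (B * k) := by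
    calc dT Q u ω ≤ ∑ s, Q s * Real.exp (B * k) :=
          Finset.sum_le_sum fun s _ => mul_le_mul_of_nonneg_left (h1 s).2 (hH.q0 s)
      _ = _ := by rw [← Finset.sum_mul, hH.q1, one_mul]
  have h4 : 0 < dT Q u ω := (Real.exp_pos _).trans_le h2
  rw [abs_le]
  exact ⟨(Real.le_log_iff_exp_le h4).2 h2, (Real.log_le_iff_le_exp h4).2 h3⟩

/-- The law of the outer pins. -/
lemma clT_eq20 (hE : EqT d ρ β b) (h : Vec d) {n k : ℕ} {T : Fin k → ℕ} {r : Fin (k + 1) → ℕ}
    (hO : Ord n T r) (η : Env d) (ω : Fin k → Env d)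
    (p : {x : Site d // x ∈ boxF d n} × {x : Site d // x ∈ boxF d n}) :
    clT fsp (Qsp ρ β b h n T r η) (usp ρ β b h n T r η) ω p =
      pab β h n (r 0) (r (Fin.last k)) p.1 p.2 (mxJ b T η ω) := by
  classical
  have hr := ord_mono hO
  have h1 : clT fsp (Qsp ρ β b h n T r η) (usp ρ β b h n T r η) ω p =
      ∑ s : Sp d n k, msp β h n r s (mxJ b T η ω) * if fsp s = p then 1 else 0 := by
    unfold clT
    refine Finset.sum_congr rfl fun s _ => ?_
    rw [((hE h n k T r hO η).2 ω).1 s]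
    by_cases hs : fsp s = p
    · rw [if_pos hs, if_pos hs, mul_one]
    · rw [if_neg hs, if_neg hs, mul_zero]
  rw [h1, sum_msp20 β h (mxJ b T η ω) hr hO.2 fun s => if fsp s = p then 1 else 0,
    pab_eq20 β h _ (hr (Fin.zero_le _)) hO.2]
  refine Finset.sum_congr rfl fun q _ => ?_
  congr 1
  by_cases hq : pos q (r 0) = p.1 ∧ pos q (r (Fin.last k)) = p.2
  · rw [if_pos hq, if_pos]
    exact Prod.ext (Subtype.ext hq.1) (Subtype.ext hq.2)
  · rw [if_neg hq, if_neg]
    intro h'
    refine hq ⟨?_, ?_⟩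
    · rw [← h']
      rfl
    · rw [← h']
      rfl

lemma out20 [IsProbabilityMeasure ρ] (hd : 0 < d) (hb : HB ρ b) (hE : EqT d ρ β b) (h : Vec d)
    {n k : ℕ} {T : Fin k → ℕ} {r : Fin (k + 1) → ℕ} (hO : Ord n T r) (i : Fin k) (η : Env d) :
    ouT (law d (rb ρ b)) fsp (Qsp ρ β b h n T r η) (usp ρ β b h n T r η) i =
      ∫ ω, ∑ x ∈ boxF d n, ∑ y ∈ boxF d n,
        pab β h n (r 0) (r (Fin.last k)) x y (mxJ b T η ω) *
          g1 ρ β b h (T i) (r 0) (r (Fin.last k)) x y (mxJ b T η ω) (ω i)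
          ∂(Measure.pi fun _ : Fin k => law d (rb ρ b)) := by
  classical
  have := prob_rb hb
  have hr := ord_mono hO
  have hT := (ord_inj20 hO).injective
  have h1 : r 0 < T i := lt_of_le_of_lt (hr (Fin.zero_le _)) (hO.1 i).1
  have h2 : T i ≤ r (Fin.last k) := (hO.1 i).2.trans (hr (Fin.le_last _))
  have h3 := hO.2
  obtain ⟨H, hH⟩ : ∃ H : (Fin k → Env d) → ℝ, H = fun ω => X β h (mxJ b T η ω) n := ⟨_, rfl⟩
  have hHm : Measurable H := by
    rw [hH]
    exact (measurable_X β h n).comp (mxJ_meas b T measurable_const measurable_id)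
  obtain ⟨M, hM⟩ : ∃ M : ℝ, ∀ ω, |H ω| ≤ M := by
    refine ⟨|X β h (mxJ b T η fun _ _ => c0 ρ β b) n| + Bc β b * k, fun ω => ?_⟩
    have h4 := ((hE h n k T r hO η).2 ω).2
    have h5 := dT_bd20 (hE h n k T r hO η).1 ω
    rw [h4] at h5
    rw [hH]
    have h6 := abs_sub_abs_le_abs_sub (X β h (mxJ b T η ω) n)
      (X β h (mxJ b T η fun _ _ => c0 ρ β b) n)
    simp only
    linarith
  obtain ⟨G, hG⟩ : ∃ G : (Fin k → Env d) → ℝ, G = fun ω => ∑ x ∈ boxF d n, ∑ y ∈ boxF d n,
    pab β h n (r 0) (r (Fin.last k)) x y (mxJ b T η ω) *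
      g1 ρ β b h (T i) (r 0) (r (Fin.last k)) x y (mxJ b T η ω) (ω i) := ⟨_, rfl⟩
  have hJm : Measurable fun ω : Fin k → Env d => mxJ b T η ω :=
    mxJ_meas b T measurable_const measurable_id
  have hGm : Measurable G := by
    rw [hG]
    have m1 : Measurable fun ω : Fin k → Env d => (mxJ b T η ω, ω i) :=
      hJm.prodMk (measurable_pi_apply i)
    refine Finset.measurable_sum _ fun x _ => Finset.measurable_sum _ fun y _ => ?_
    have m2 := (g1_meas20 (β := β) hb h (T i) (r 0) (r (Fin.last k)) x y).comp m1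
    have m3 := (pab_meas20 β h n (r 0) (r (Fin.last k)) x y).comp hJm
    exact m3.mul m2
  have hGM : ∀ ω, |G ω| ≤ 2 * Bc β b := by
    intro ω
    rw [hG]
    refine (Finset.abs_sum_le_sum_abs _ _).trans ?_
    have h4 : ∀ x ∈ boxF d n, |∑ y ∈ boxF d n,
        pab β h n (r 0) (r (Fin.last k)) x y (mxJ b T η ω) *
          g1 ρ β b h (T i) (r 0) (r (Fin.last k)) x y (mxJ b T η ω) (ω i)| ≤ ∑ y ∈ boxF d n,
        pab β h n (r 0) (r (Fin.last k)) x y (mxJ b T η ω) * (2 * Bc β b) := by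
      intro x hx
      refine (Finset.abs_sum_le_sum_abs _ _).trans (Finset.sum_le_sum fun y hy => ?_)
      rw [abs_mul, abs_of_nonneg (pab_nonneg20 hd _ _ _ _ _ _ _ _)]
      exact mul_le_mul_of_nonneg_left (g1_bd20 hb hE h h1 h2 h3 hx hy _ _)
        (pab_nonneg20 hd _ _ _ _ _ _ _ _)
    refine (Finset.sum_le_sum h4).trans (le_of_eq ?_)
    simp only [← Finset.sum_mul]
    rw [sum_pab_one20 hd β h _ (hr (Fin.zero_le _)) h3, one_mul]
  -- the inner integrand
  have hI : ∀ (ω : Fin k → Env d) (x : Env d),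
      ∑ p, clT fsp (Qsp ρ β b h n T r η) (usp ρ β b h n T r η) ω p *
        (Real.log (clT fsp (Qsp ρ β b h n T r η) (usp ρ β b h n T r η) ω p) -
          Real.log (clT fsp (Qsp ρ β b h n T r η) (usp ρ β b h n T r η)
            (Function.update ω i x) p)) =
      (∑ y ∈ boxF d n, ∑ z ∈ boxF d n, pab β h n (r 0) (r (Fin.last k)) y z (mxJ b T η ω) *
        (Real.log (uab ρ β b h (T i) (r 0) (r (Fin.last k)) y z (mxJ b T η ω) (ω i)) -
          Real.log (uab ρ β b h (T i) (r 0) (r (Fin.last k)) y z (mxJ b T η ω) x))) -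
        (H ω - H (Function.update ω i x)) := by
    intro ω x
    have e0 : mxJ b T η ω = mx b (T i) (mxJ b T η ω) (ω i) := (mxJ_eq20 hb.b0.le hT i η ω).symm
    have e1 : mxJ b T η (Function.update ω i x) = mx b (T i) (mxJ b T η ω) x :=
      (mx_mxJ20 hb.b0.le hT i η ω x).symm
    simp only [clT_eq20 hE h hO]
    have h4 : ∀ y z : Site d, pab β h n (r 0) (r (Fin.last k)) y z (mxJ b T η ω) *
        (Real.log (pab β h n (r 0) (r (Fin.last k)) y z (mxJ b T η ω)) -
          Real.log (pab β h n (r 0) (r (Fin.last k)) y z (mxJ b T η (Function.update ω i x)))) =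
        pab β h n (r 0) (r (Fin.last k)) y z (mxJ b T η ω) *
        (Real.log (uab ρ β b h (T i) (r 0) (r (Fin.last k)) y z (mxJ b T η ω) (ω i)) -
          Real.log (uab ρ β b h (T i) (r 0) (r (Fin.last k)) y z (mxJ b T η ω) x)) -
        pab β h n (r 0) (r (Fin.last k)) y z (mxJ b T η ω) *
          (H ω - H (Function.update ω i x)) := by
      intro y z
      have h5 := logpab20 (ρ := ρ) (β := β) (b := b) hd h (n := n) h1 h2 y z (mxJ b T η ω)
        (ω i) x
      rw [← e0, ← e1] at h5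
      rw [h5, hH]
      ring
    rw [Fintype.sum_prod_type]
    simp only [h4]
    rw [Finset.sum_coe_sort (boxF d n) (fun y => ∑ z : {x : Site d // x ∈ boxF d n},
      (pab β h n (r 0) (r (Fin.last k)) y z (mxJ b T η ω) *
        (Real.log (uab ρ β b h (T i) (r 0) (r (Fin.last k)) y z (mxJ b T η ω) (ω i)) -
          Real.log (uab ρ β b h (T i) (r 0) (r (Fin.last k)) y z (mxJ b T η ω) x)) -
        pab β h n (r 0) (r (Fin.last k)) y z (mxJ b T η ω) *
          (H ω - H (Function.update ω i x))))]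
    have h6 : ∀ y : Site d, ∑ z : {x : Site d // x ∈ boxF d n},
      (pab β h n (r 0) (r (Fin.last k)) y z (mxJ b T η ω) *
        (Real.log (uab ρ β b h (T i) (r 0) (r (Fin.last k)) y z (mxJ b T η ω) (ω i)) -
          Real.log (uab ρ β b h (T i) (r 0) (r (Fin.last k)) y z (mxJ b T η ω) x)) -
        pab β h n (r 0) (r (Fin.last k)) y z (mxJ b T η ω) *
          (H ω - H (Function.update ω i x))) = ∑ z ∈ boxF d n,
      (pab β h n (r 0) (r (Fin.last k)) y z (mxJ b T η ω) *
        (Real.log (uab ρ β b h (T i) (r 0) (r (Fin.last k)) y z (mxJ b T η ω) (ω i)) -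
          Real.log (uab ρ β b h (T i) (r 0) (r (Fin.last k)) y z (mxJ b T η ω) x)) -
        pab β h n (r 0) (r (Fin.last k)) y z (mxJ b T η ω) *
          (H ω - H (Function.update ω i x))) := fun y =>
      Finset.sum_coe_sort (boxF d n) (fun z => (pab β h n (r 0) (r (Fin.last k)) y z
        (mxJ b T η ω) *
        (Real.log (uab ρ β b h (T i) (r 0) (r (Fin.last k)) y z (mxJ b T η ω) (ω i)) -
          Real.log (uab ρ β b h (T i) (r 0) (r (Fin.last k)) y z (mxJ b T η ω) x)) -
        pab β h n (r 0) (r (Fin.last k)) y z (mxJ b T η ω) *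
          (H ω - H (Function.update ω i x))))
    simp only [h6, Finset.sum_sub_distrib, ← Finset.sum_mul]
    rw [sum_pab_one20 hd β h _ (hr (Fin.zero_le _)) h3, one_mul]
  -- the integral over the new row
  have hJ : ∀ ω : Fin k → Env d, ∫ x, ∑ p, clT fsp (Qsp ρ β b h n T r η) (usp ρ β b h n T r η)
      ω p * (Real.log (clT fsp (Qsp ρ β b h n T r η) (usp ρ β b h n T r η) ω p) -
          Real.log (clT fsp (Qsp ρ β b h n T r η) (usp ρ β b h n T r η)
            (Function.update ω i x) p)) ∂(law d (rb ρ b)) =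
      G ω - (H ω - ∫ x, H (Function.update ω i x) ∂(law d (rb ρ b))) := by
    intro ω
    simp only [hI]
    have i1 : Integrable (fun x => H (Function.update ω i x)) (law d (rb ρ b)) :=
      (integrable_const M).mono' (hHm.comp (by
        refine measurable_pi_iff.2 fun j => ?_
        by_cases hj : j = i
        · subst hj
          simp only [Function.update_self]
          exact measurable_id
        · simp only [Function.update_of_ne hj]
          exact measurable_const)).aestronglyMeasurable (Eventually.of_forall fun x => hM _)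
    have i2 : ∀ y ∈ boxF d n, ∀ z ∈ boxF d n, Integrable (fun x =>
        Real.log (uab ρ β b h (T i) (r 0) (r (Fin.last k)) y z (mxJ b T η ω) x))
        (law d (rb ρ b)) := fun y hy z hz =>
      (integrable_const (Bc β b)).mono' (Real.measurable_log.comp
        (uab_meas ρ β b h _ _ _ _ _ measurable_const measurable_id)).aestronglyMeasurable
        (Eventually.of_forall fun x => uab_bd20 hE h h1 h2 h3 hy hz _ _)
    have i3 : ∀ y ∈ boxF d n, ∀ z ∈ boxF d n, Integrable (fun x =>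
        pab β h n (r 0) (r (Fin.last k)) y z (mxJ b T η ω) *
        (Real.log (uab ρ β b h (T i) (r 0) (r (Fin.last k)) y z (mxJ b T η ω) (ω i)) -
          Real.log (uab ρ β b h (T i) (r 0) (r (Fin.last k)) y z (mxJ b T η ω) x)))
        (law d (rb ρ b)) := fun y hy z hz =>
      ((integrable_const _).sub (i2 y hy z hz)).const_mul _
    have i4 : Integrable (fun x => H ω - H (Function.update ω i x)) (law d (rb ρ b)) :=
      (integrable_const _).sub i1
    rw [integral_sub (integrable_finsetSum _ fun y hy => integrable_finsetSum _ fun z hz =>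
      i3 y hy z hz) i4]
    rw [integral_finsetSum _ fun y hy => integrable_finsetSum _ fun z hz => i3 y hy z hz]
    congr 1
    · rw [hG]
      refine Finset.sum_congr rfl fun y hy => ?_
      rw [integral_finsetSum _ fun z hz => i3 y hy z hz]
      refine Finset.sum_congr rfl fun z hz => ?_
      rw [integral_const_mul, integral_sub (integrable_const _) (i2 y hy z hz), integral_const,
        probReal_univ, one_smul]
      rfl
    · rw [integral_sub (integrable_const _) i1, integral_const, probReal_univ, one_smul]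
  unfold ouT
  simp only [hJ]
  have hHm2 : Measurable fun ω : Fin k → Env d =>
      ∫ x, H (Function.update ω i x) ∂(law d (rb ρ b)) := by
    have h4 : Measurable fun w : (Fin k → Env d) × Env d => H (Function.update w.1 i w.2) :=
      hHm.comp (mp_upd20 (law d (rb ρ b)) i).measurable
    exact (h4.stronglyMeasurable.integral_prod_right (ν := law d (rb ρ b))).measurable
  have i1 : Integrable (fun ω : Fin k → Env d => ∫ x, H (Function.update ω i x) ∂(law d (rb ρ b)))
      (Measure.pi fun _ : Fin k => law d (rb ρ b)) :=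
    (integrable_const M).mono' hHm2.aestronglyMeasurable (Eventually.of_forall fun ω => by
      have h4 := norm_integral_le_of_norm_le_const (μ := law d (rb ρ b))
        (f := fun x => H (Function.update ω i x)) (C := M) (Eventually.of_forall fun x => hM _)
      rwa [probReal_univ, mul_one] at h4)
  have i2 : Integrable H (Measure.pi fun _ : Fin k => law d (rb ρ b)) :=
    (integrable_const M).mono' hHm.aestronglyMeasurable (Eventually.of_forall fun ω => hM _)
  have i3 : Integrable G (Measure.pi fun _ : Fin k => law d (rb ρ b)) :=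
    (integrable_const _).mono' hGm.aestronglyMeasurable (Eventually.of_forall fun ω => hGM _)
  have i4 : Integrable (fun ω : Fin k → Env d => H ω -
      ∫ x, H (Function.update ω i x) ∂(law d (rb ρ b)))
      (Measure.pi fun _ : Fin k => law d (rb ρ b)) := i2.sub i1
  rw [integral_sub i3 i4, integral_sub i2 i1,
    int_upd20 (law d (rb ρ b)) i hHm hM, sub_self, sub_zero, hG]

/-- Leaf K. -/
theorem kapT20 [IsProbabilityMeasure ρ] (hd : 0 < d) (hb : HB ρ b) (hE : EqT d ρ β b)
    (hW : MixT d ρ b) : KapT d ρ β b := by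
  intro h n k T r hO i
  have := prob_rb hb
  have hr := ord_mono hO
  have hT := (ord_inj20 hO).injective
  have h1 := (hO.1 i).1
  have h2 := (hO.1 i).2
  have h3 : r i.succ ≤ n := (hr (Fin.le_last _)).trans hO.2
  have hb0 := hb.b0.le
  have h12 : r i.castSucc ≤ r i.succ := (h1.trans_le h2).le
  have h1' : r 0 < T i := lt_of_le_of_lt (hr (Fin.zero_le _)) h1
  have h2' : T i ≤ r (Fin.last k) := h2.trans (hr (Fin.le_last _))
  have key : ∀ (g : Site d → Site d → Env d → Env d → ℝ),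
      (∀ x y (η : Env d) (ξ : Fin k → Env d), g x y (mxJ b T η ξ) (ξ i) = g x y η (ξ i)) →
      ∀ (η : Env d) (ξ : Fin k → Env d),
      ∑ s, prT (Qsp ρ β b h n T r η) (usp ρ β b h n T r η) ξ s *
        g (s i.castSucc) (s i.succ) η (ξ i) =
      ∑ x ∈ boxF d n, ∑ y ∈ boxF d n,
        pab β h n (r i.castSucc) (r i.succ) x y (mxJ b T η ξ) *
          g x y (mxJ b T η ξ) (ξ i) := by
    intro g hg η ξ
    rw [Finset.sum_congr rfl fun s _ => by rw [((hE h n k T r hO η).2 ξ).1 s]]
    rw [sum_msp20 β h (mxJ b T η ξ) hr hO.2 fun s => g (s i.castSucc) (s i.succ) η (ξ i),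
      sum_pab20 β h (mxJ b T η ξ) h12 h3 fun x y => g x y (mxJ b T η ξ) (ξ i)]
    refine Finset.sum_congr rfl fun q _ => ?_
    simp only [hg]
  refine ⟨?_, ?_, ?_⟩
  · have h4 := core20 (ρ := ρ) (β := β) hd hb hW h hT i h12 h3
      (g := fun x y η ζ => g1 ρ β b h (T i) (r i.castSucc) (r i.succ) x y η ζ)
      (fun x y => g1_meas20 hb h _ _ _ x y)
      (fun x hx y hy η ζ => g1_bd20 hb hE h h1 h2 h3 hx hy η ζ)
      (fun x y η ζ => by
        unfold g1
        rw [uab_mx20 hb0, psab_mx20 hb0])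
    refine Eq.trans ?_ h4
    refine integral_congr_ae (Eventually.of_forall fun η => ?_)
    refine integral_congr_ae (Eventually.of_forall fun ξ => ?_)
    exact key (fun x y η ζ => g1 ρ β b h (T i) (r i.castSucc) (r i.succ) x y η ζ)
      (fun x y η ξ => by
        simp only [g1]
        rw [uab_loc20 hO hb0, psab_loc20 hO hb0]) η ξ
  · have h4 := core20 (ρ := ρ) (β := β) hd hb hW h hT i (hr (Fin.zero_le _)) hO.2
      (g := fun x y η ζ => g1 ρ β b h (T i) (r 0) (r (Fin.last k)) x y η ζ)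
      (fun x y => g1_meas20 hb h _ _ _ x y)
      (fun x hx y hy η ζ => g1_bd20 hb hE h h1' h2' hO.2 hx hy η ζ)
      (fun x y η ζ => by
        unfold g1
        rw [uab_mx20 hb0, psab_mx20 hb0])
    refine Eq.trans ?_ h4
    exact integral_congr_ae (Eventually.of_forall fun η => out20 hd hb hE h hO i η)
  · have h4 := core20 (ρ := ρ) (β := β) hd hb hW h hT i h12 h3
      (g := fun x y η _ => g3 ρ β b h (T i) (r i.castSucc) (r i.succ) x y η)
      (fun x y => g3_meas20 hb h _ _ _ x y)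
      (fun x hx y hy η ζ => g3_bd20 hb hE h h1 h2 h3 hx hy η)
      (fun x y η ζ => by
        unfold g3
        simp only [uab_mx20 hb0, psab_mx20 hb0])
    refine Eq.trans ?_ h4
    refine integral_congr_ae (Eventually.of_forall fun η => ?_)
    refine integral_congr_ae (Eventually.of_forall fun ξ => ?_)
    exact key (fun x y η _ => g3 ρ β b h (T i) (r i.castSucc) (r i.succ) x y η)
      (fun x y η ξ => by
        simp only [g3]
        simp only [uab_loc20 hO hb0, psab_loc20 hO hb0]) η ξ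

end Pool.Agent.W_7d29a1_NV.K20
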