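import Pool.Agent.W_7d29a1_NV.DefsNV

/-!
The masses of the separators as sums over walks, and their marginals.
-/

namespace Pool.Agent.W_7d29a1_NV

open MeasureTheory ProbabilityTheory Filter Topology Pool.Agent.W_MP_7d29a1_pr
  Pool.Agent.W_7d29a1_h46 Pool.Agent.W_7d29a1_h46u Pool.Agent.W_7d29a1_D2.B35
  Pool.Agent.W_7d29a1_Q29

section Marg

variable {d : ℕ}

open Classical in
/-- Glue a walk with a given end point and a set of walks. -/
lemma ZT_glue77 (β : ℝ) (h : Vec d) (η : Env d) {m l : ℕ} (z : Site d)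
    (E : Set (Fin m → Step d)) (F : Set (Fin l → Step d)) (G : Set (Fin (m + l) → Step d))
    (hE : ∀ s ∈ E, pos s m = z)
    (hG : ∀ (s : Fin m → Step d) (q : Fin l → Step d), Fin.append s q ∈ G ↔ s ∈ E ∧ q ∈ F) :
    ZT β h η E * ZT β h (sh m z η) F = ZT β h η G := by
  unfold ZT
  rw [Finset.sum_mul_sum, sum_glue]
  refine Finset.sum_congr rfl fun s _ => Finset.sum_congr rfl fun q _ => ?_
  by_cases hs : s ∈ E
  · by_cases hq : q ∈ F
    · rw [if_pos hs, if_pos hq, if_pos ((hG s q).2 ⟨hs, hq⟩), wgt_glue, hE s hs]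
    · rw [if_neg hq, mul_zero, if_neg fun h1 => hq ((hG s q).1 h1).2]
  · rw [if_neg hs, zero_mul, if_neg fun h1 => hs ((hG s q).1 h1).1]

/-- The segments multiply. -/
lemma segs77 (β : ℝ) (h : Vec d) (η : Env d) : ∀ (k : ℕ) (r : Fin (k + 1) → ℕ)
    (s : Fin (k + 1) → Site d), (∀ i : Fin k, r i.castSucc ≤ r i.succ) →
    PP β h η (r 0) (s 0) * (∏ i : Fin k, sg β h (r i.castSucc) (r i.succ) (s i.castSucc)
      (s i.succ) η) =
    ZT β h η {w : Fin (r (Fin.last k)) → Step d | ∀ i, pos w (r i) = s i} := by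
  intro k
  induction k with
  | zero =>
    intro r s _
    rw [Finset.univ_eq_empty, Finset.prod_empty, mul_one]
    unfold PP
    have h1 : (Fin.last 0 : Fin 1) = 0 := rfl
    rw [h1]
    congr 1
    ext w
    constructor
    · intro h2 i
      rw [Fin.fin_one_eq_zero i]
      exact h2
    · intro h2
      exact h2 0
  | succ k ih =>
    intro r s hr
    rw [Fin.prod_univ_castSucc, ← mul_assoc]
    have h1 := ih (fun i => r i.castSucc) (fun i => s i.castSucc) fun i => by
      have := hr i.castSucc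
      rwa [Fin.succ_castSucc] at this
    simp only [Fin.castSucc_zero] at h1
    have h2 : (∏ i : Fin k, sg β h (r i.castSucc.castSucc) (r i.castSucc.succ)
        (s i.castSucc.castSucc) (s i.castSucc.succ) η) =
        ∏ i : Fin k, sg β h (r i.castSucc.castSucc) (r i.succ.castSucc)
        (s i.castSucc.castSucc) (s i.succ.castSucc) η := by
      refine Finset.prod_congr rfl fun i _ => ?_
      rw [Fin.succ_castSucc]
    rw [h2, h1]
    have h3 := hr (Fin.last k)
    have h4 : (Fin.last k).succ = Fin.last (k + 1) := Fin.succ_last k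
    rw [h4] at h3 ⊢
    -- monotonicity: all the times are below the last but one
    have h5 : ∀ i : Fin (k + 1), r i.castSucc ≤ r (Fin.last k).castSucc := by
      have h6 : Monotone fun i : Fin (k + 1) => r i.castSucc :=
        Fin.monotone_iff_le_succ.2 fun i => by
          have := hr i.castSucc
          rwa [Fin.succ_castSucc] at this
      exact fun i => h6 (Fin.le_last i)
    have h7 : {w : Fin (r (Fin.last (k + 1))) → Step d | ∀ i, pos w (r i) = s i} =
        {w : Fin (r (Fin.last (k + 1))) → Step d | (∀ i : Fin (k + 1),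
          pos w (r i.castSucc) = s i.castSucc) ∧ pos w (r (Fin.last (k + 1))) =
            s (Fin.last (k + 1))} := by
      ext w
      exact Fin.forall_fin_succ'
    rw [h7]
    unfold sg PP
    generalize r (Fin.last (k + 1)) = R at h3 ⊢
    obtain ⟨l, rfl⟩ := Nat.exists_eq_add_of_le h3
    rw [Nat.add_sub_cancel_left]
    refine ZT_glue77 β h η _ _ _ _ (fun w hw => hw (Fin.last k)) fun w q => ?_
    constructor
    · intro hw
      have hw1 : ∀ i : Fin (k + 1), pos w (r i.castSucc) = s i.castSucc := fun i => by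
        rw [← pos_glue_le w q (h5 i)]
        exact hw.1 i
      refine ⟨hw1, ?_⟩
      have hw2 := hw.2
      rw [pos_glue_add, hw1 (Fin.last k)] at hw2
      exact eq_sub_of_add_eq' hw2
    · rintro ⟨hw1, hw2⟩
      have hw1' : ∀ i : Fin (k + 1), pos w (r i.castSucc) = s i.castSucc := hw1
      have hw2' : pos q l = s (Fin.last (k + 1)) - s (Fin.last k).castSucc := hw2
      refine ⟨fun i => ?_, ?_⟩
      · rw [pos_glue_le w q (h5 i)]
        exact hw1' i
      · rw [pos_glue_add, hw1' (Fin.last k), hw2']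
        abel

/-- The mass of the separators as a sum over walks. -/
lemma mass77 (β : ℝ) (h : Vec d) (η : Env d) {n k : ℕ} (r : Fin (k + 1) → ℕ)
    (s : Fin (k + 1) → Site d) (hr : ∀ i : Fin k, r i.castSucc ≤ r i.succ)
    (hn : r (Fin.last k) ≤ n) :
    PP β h η (r 0) (s 0) * (∏ i : Fin k, sg β h (r i.castSucc) (r i.succ) (s i.castSucc)
      (s i.succ) η) * Z β h (sh (r (Fin.last k)) (s (Fin.last k)) η) (n - r (Fin.last k)) =
    ZT β h η {w : Fin n → Step d | ∀ i, pos w (r i) = s i} := by
  rw [segs77 β h η k r s hr]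
  have h5 : ∀ i : Fin (k + 1), r i ≤ r (Fin.last k) := by
    have h6 : Monotone r := Fin.monotone_iff_le_succ.2 hr
    exact fun i => h6 (Fin.le_last i)
  obtain ⟨l, rfl⟩ := Nat.exists_eq_add_of_le hn
  rw [Nat.add_sub_cancel_left]
  unfold Z
  refine ZT_glue77 β h η _ _ _ _ (fun w hw => hw (Fin.last k)) fun w q => ?_
  constructor
  · intro hw
    refine ⟨fun i => ?_, Set.mem_univ _⟩
    rw [← pos_glue_le w q (h5 i)]
    exact hw i
  · rintro ⟨hw1, -⟩ i
    rw [pos_glue_le w q (h5 i)]
    exact hw1 i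

/-- The separators of a walk. -/
def spw {n k : ℕ} (r : Fin (k + 1) → ℕ) (w : Fin n → Step d) : Sp d n k :=
  fun i => ⟨pos w (r i), pos_mem_box w (r i)⟩

/-- Sums against the masses of the separators are sums over walks. -/
theorem sum_msp77 (β : ℝ) (h : Vec d) (η : Env d) {n k : ℕ} (r : Fin (k + 1) → ℕ)
    (hr : ∀ i : Fin k, r i.castSucc ≤ r i.succ) (hn : r (Fin.last k) ≤ n) (G : Sp d n k → ℝ) :
    ∑ s : Sp d n k, msp β h n r s η * G s =
      (∑ w : Fin n → Step d, wgt β h η w * G (spw r w)) / Z β h η n := by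
  classical
  have h1 : ∀ s : Sp d n k, msp β h n r s η * G s =
      (∑ w : Fin n → Step d, if spw r w = s then wgt β h η w * G (spw r w) else 0) /
        Z β h η n := by
    intro s
    unfold msp
    rw [mass77 β h η r (fun i => (s i : Site d)) hr hn]
    unfold ZT
    rw [div_mul_eq_mul_div, Finset.sum_mul]
    congr 1
    refine Finset.sum_congr rfl fun w _ => ?_
    by_cases hw : spw r w = s
    · rw [if_pos hw, if_pos, hw]
      intro i
      rw [← hw]
      rfl
    · rw [if_neg hw, if_neg, zero_mul]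
      intro h2
      refine hw (funext fun i => Subtype.ext ?_)
      exact h2 i
  rw [Finset.sum_congr rfl fun s _ => h1 s, ← Finset.sum_div, Finset.sum_comm]
  congr 1
  refine Finset.sum_congr rfl fun w _ => ?_
  rw [Finset.sum_ite_eq, if_pos (Finset.mem_univ _)]

/-- The mass of a pair as a sum over walks. -/
lemma pab_eq77 (β : ℝ) (h : Vec d) (η : Env d) {n a b' : ℕ} (hab : a ≤ b') (hbn : b' ≤ n)
    (x y : Site d) : pab β h n a b' x y η =
      ZT β h η {w : Fin n → Step d | pos w a = x ∧ pos w b' = y} / Z β h η n := by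
  have h1 := mass77 (k := 1) (n := n) β h η ![a, b'] ![x, y] (fun i => by
    rw [Fin.fin_one_eq_zero i]; exact hab) hbn
  have h2 : {w : Fin n → Step d | ∀ i : Fin 2, pos w ((![a, b'] : Fin 2 → ℕ) i) =
      (![x, y] : Fin 2 → Site d) i} = {w : Fin n → Step d | pos w a = x ∧ pos w b' = y} := by
    ext w
    constructor
    · intro h3
      exact ⟨h3 0, h3 1⟩
    · rintro ⟨h3, h4⟩ i
      fin_cases i
      · exact h3
      · exact h4
  unfold pab
  rw [← h2, ← h1, Fin.prod_univ_one]
  rfl

/-- Sums against the masses of the pairs are sums over walks. -/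
theorem sum_pab77 (β : ℝ) (h : Vec d) (η : Env d) {n a b' : ℕ} (hab : a ≤ b') (hbn : b' ≤ n)
    (G : Site d → Site d → ℝ) :
    ∑ x ∈ boxF d n, ∑ y ∈ boxF d n, pab β h n a b' x y η * G x y =
      (∑ w : Fin n → Step d, wgt β h η w * G (pos w a) (pos w b')) / Z β h η n := by
  classical
  have h1 : ∀ x y : Site d, pab β h n a b' x y η * G x y =
      (∑ w : Fin n → Step d, if pos w a = x then (if pos w b' = y then
        wgt β h η w * G (pos w a) (pos w b') else 0) else 0) / Z β h η n := by
    intro x y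
    rw [pab_eq77 β h η hab hbn]
    unfold ZT
    rw [div_mul_eq_mul_div, Finset.sum_mul]
    congr 1
    refine Finset.sum_congr rfl fun w _ => ?_
    by_cases hx : pos w a = x
    · by_cases hy : pos w b' = y
      · rw [if_pos hx, if_pos hy, if_pos (show w ∈ {w : Fin n → Step d | pos w a = x ∧
          pos w b' = y} from ⟨hx, hy⟩), hx, hy]
      · rw [if_pos hx, if_neg hy, if_neg (fun h2 : w ∈ {w : Fin n → Step d | pos w a = x ∧
          pos w b' = y} => hy h2.2), zero_mul]
    · rw [if_neg hx, if_neg (fun h2 : w ∈ {w : Fin n → Step d | pos w a = x ∧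
          pos w b' = y} => hx h2.1), zero_mul]
  simp_rw [h1, ← Finset.sum_div]
  congr 1
  rw [Finset.sum_congr rfl fun x _ => Finset.sum_comm, Finset.sum_comm]
  refine Finset.sum_congr rfl fun w _ => ?_
  rw [Finset.sum_eq_single (pos w a)]
  · rw [Finset.sum_eq_single (pos w b')]
    · rw [if_pos rfl, if_pos rfl]
    · intro y _ hy
      rw [if_pos rfl, if_neg (Ne.symm hy)]
    · intro h2
      exact absurd (pos_mem_box w b') h2
  · intro x _ hx
    refine Finset.sum_eq_zero fun y _ => ?_
    rw [if_neg (Ne.symm hx)]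
  · intro h2
    exact absurd (pos_mem_box w a) h2

/-- **The marginal of the separators at two times is the law of the pair.** -/
theorem marg77 (β : ℝ) (h : Vec d) (η : Env d) {n k : ℕ} (r : Fin (k + 1) → ℕ)
    (hr : ∀ i : Fin k, r i.castSucc ≤ r i.succ) (hn : r (Fin.last k) ≤ n) (i j : Fin (k + 1))
    (hij : i ≤ j) (G : Site d → Site d → ℝ) :
    ∑ s : Sp d n k, msp β h n r s η * G (s i) (s j) =
      ∑ x ∈ boxF d n, ∑ y ∈ boxF d n, pab β h n (r i) (r j) x y η * G x y := by
  have h6 : Monotone r := Fin.monotone_iff_le_succ.2 hr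
  rw [sum_msp77 β h η r hr hn, sum_pab77 β h η (h6 hij) ((h6 (Fin.le_last j)).trans hn)]
  rfl

end Marg

end Pool.Agent.W_7d29a1_NV
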