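import Pool.Agent.W_7d29a1_NV.DefsNV

/-!
The law of the positions at several times is the sum over the walks.
-/

namespace Pool.Agent.W_7d29a1_NV.K20

open MeasureTheory ProbabilityTheory Filter Topology Pool.Agent.W_MP_7d29a1_pr
  Pool.Agent.W_7d29a1_h46 Pool.Agent.W_7d29a1_h46u Pool.Agent.W_7d29a1_D2.B35
  Pool.Agent.W_7d29a1_Q29 Pool.Agent.W_7d29a1_NV

variable {d : ℕ}

open Classical in
lemma PP_eq20 (β : ℝ) (h : Vec d) (η : Env d) (m : ℕ) (z : Site d) :
    PP β h η m z = ∑ q : Fin m → Step d, if pos q m = z then wgt β h η q else 0 := by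
  unfold PP ZT
  refine Finset.sum_congr rfl fun q _ => ?_
  by_cases hq : pos q m = z
  · rw [if_pos hq, if_pos (show q ∈ {s : Fin m → Step d | pos s m = z} from hq)]
  · rw [if_neg hq, if_neg (show q ∉ {s : Fin m → Step d | pos s m = z} from hq)]

open Classical in
/-- The product of the segments is the sum over the walks through the separators. -/
lemma chain20 (β : ℝ) (h : Vec d) (η : Env d) : ∀ (k : ℕ) (r : Fin (k + 1) → ℕ)
    (s : Fin (k + 1) → Site d) (m : ℕ), Monotone r → r (Fin.last k) = m →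
    PP β h η (r 0) (s 0) *
        ∏ i : Fin k, sg β h (r i.castSucc) (r i.succ) (s i.castSucc) (s i.succ) η =
      ∑ q : Fin m → Step d, if (∀ i : Fin (k + 1), pos q (r i) = s i) then wgt β h η q else 0 := by
  intro k
  induction k with
  | zero =>
    intro r s m _ hm
    have h0 : r 0 = m := hm
    subst h0
    simp only [Finset.univ_eq_empty, Finset.prod_empty, mul_one]
    rw [PP_eq20]
    refine Finset.sum_congr rfl fun q _ => ?_
    by_cases hq : pos q (r 0) = s 0
    · rw [if_pos hq, if_pos]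
      intro i
      have hi : i = 0 := Fin.ext (Nat.lt_one_iff.1 i.2)
      rw [hi]
      exact hq
    · rw [if_neg hq, if_neg fun h' => hq (h' 0)]
  | succ k ih =>
    intro r s m hr hm
    obtain ⟨l, hl⟩ : ∃ l, m = r (Fin.last k).castSucc + l := by
      refine Nat.exists_eq_add_of_le ?_
      rw [← hm]
      exact hr (Fin.le_last _)
    subst hl
    have hr' : Monotone fun i : Fin (k + 1) => r i.castSucc := fun i j hij =>
      hr (Fin.castSucc_le_castSucc_iff.2 hij)
    have h1 := ih (fun i => r i.castSucc) (fun i => s i.castSucc) (r (Fin.last k).castSucc) hr' rfl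
    rw [Fin.prod_univ_castSucc, ← mul_assoc]
    have h2 : PP β h η (r 0) (s 0) * ∏ i : Fin k, sg β h (r i.castSucc.castSucc)
        (r i.castSucc.succ) (s i.castSucc.castSucc) (s i.castSucc.succ) η =
        ∑ q : Fin (r (Fin.last k).castSucc) → Step d,
          if (∀ i : Fin (k + 1), pos q (r i.castSucc) = s i.castSucc) then wgt β h η q else 0 := by
      rw [← h1]
      rfl
    rw [h2, Finset.sum_mul, sum_glue]
    refine Finset.sum_congr rfl fun u _ => ?_
    have h3 : ∀ v : Fin l → Step d, (∀ i : Fin (k + 1 + 1),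
        pos (Fin.append u v) (r i) = s i) ↔ (∀ i : Fin (k + 1), pos u (r i.castSucc) =
          s i.castSucc) ∧ pos u (r (Fin.last k).castSucc) + pos v l = s (Fin.last (k + 1)) := by
      intro v
      rw [Fin.forall_fin_succ']
      have h4 : ∀ i : Fin (k + 1), pos (Fin.append u v) (r i.castSucc) = pos u (r i.castSucc) :=
        fun i => pos_glue_le u v (hr (Fin.castSucc_le_castSucc_iff.2 (Fin.le_last i)))
      rw [hm, pos_glue_add u v l]
      simp only [h4]
    simp only [h3]
    by_cases hu : ∀ i : Fin (k + 1), pos u (r i.castSucc) = s i.castSucc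
    · rw [if_pos hu]
      have h5 : pos u (r (Fin.last k).castSucc) = s (Fin.last k).castSucc := hu (Fin.last k)
      have h6 : r (Fin.last k).succ - r (Fin.last k).castSucc = l := by
        rw [Fin.succ_last, hm]
        omega
      unfold sg
      rw [h6, PP_eq20, Finset.mul_sum]
      refine Finset.sum_congr rfl fun v _ => ?_
      rw [Fin.succ_last]
      by_cases hv : pos v l = s (Fin.last (k + 1)) - s (Fin.last k).castSucc
      · rw [if_pos hv, if_pos ⟨hu, by rw [h5, hv]; abel⟩, wgt_glue, h5]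
      · rw [if_neg hv, if_neg fun h' => hv (by rw [← h'.2, h5]; abel), mul_zero]
    · rw [if_neg hu, zero_mul]
      symm
      exact Finset.sum_eq_zero fun v _ => if_neg fun h' => hu h'.1

open Classical in
/-- The same with a free end. -/
lemma full20 (β : ℝ) (h : Vec d) (η : Env d) {k n : ℕ} (r : Fin (k + 1) → ℕ)
    (s : Fin (k + 1) → Site d) (hr : Monotone r) (hn : r (Fin.last k) ≤ n) :
    PP β h η (r 0) (s 0) *
        (∏ i : Fin k, sg β h (r i.castSucc) (r i.succ) (s i.castSucc) (s i.succ) η) *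
        Z β h (sh (r (Fin.last k)) (s (Fin.last k)) η) (n - r (Fin.last k)) =
      ∑ q : Fin n → Step d, if (∀ i : Fin (k + 1), pos q (r i) = s i) then wgt β h η q else 0 := by
  obtain ⟨l, rfl⟩ := Nat.exists_eq_add_of_le hn
  rw [chain20 β h η k r s _ hr rfl, Nat.add_sub_cancel_left, Finset.sum_mul, sum_glue]
  refine Finset.sum_congr rfl fun u _ => ?_
  have h4 : ∀ (v : Fin l → Step d) (i : Fin (k + 1)),
      pos (Fin.append u v) (r i) = pos u (r i) :=
    fun v i => pos_glue_le u v (hr (Fin.le_last i))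
  simp only [h4]
  by_cases hu : ∀ i : Fin (k + 1), pos u (r i) = s i
  · simp only [if_pos hu]
    rw [Z_eq, Finset.mul_sum]
    refine Finset.sum_congr rfl fun v _ => ?_
    rw [wgt_glue, hu (Fin.last k)]
  · simp only [if_neg hu, zero_mul, Finset.sum_const_zero]

lemma ord_mono {n k : ℕ} {T : Fin k → ℕ} {r : Fin (k + 1) → ℕ} (hO : Ord n T r) : Monotone r :=
  Fin.monotone_iff_le_succ.2 fun i => ((hO.1 i).1.trans_le (hO.1 i).2).le

open Classical in
lemma msp_eq20 (β : ℝ) (h : Vec d) (η : Env d) {k n : ℕ} {r : Fin (k + 1) → ℕ}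
    (s : Sp d n k) (hr : Monotone r) (hn : r (Fin.last k) ≤ n) :
    msp β h n r s η = ∑ q : Fin n → Step d, wgt β h η q / Z β h η n *
      if (fun i => (⟨pos q (r i), pos_mem_box q (r i)⟩ : {x : Site d // x ∈ boxF d n})) = s
        then 1 else 0 := by
  unfold msp
  rw [full20 β h η r (fun i => (s i : Site d)) hr hn, Finset.sum_div]
  refine Finset.sum_congr rfl fun q _ => ?_
  by_cases hq : ∀ i : Fin (k + 1), pos q (r i) = s i
  · rw [if_pos hq, if_pos, mul_one]
    funext i
    exact Subtype.ext (hq i)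
  · rw [if_neg hq, if_neg, zero_div, mul_zero]
    intro h'
    refine hq fun i => ?_
    rw [← h']

/-- The mean of a function of the separators. -/
lemma sum_msp20 (β : ℝ) (h : Vec d) (η : Env d) {k n : ℕ} {r : Fin (k + 1) → ℕ}
    (hr : Monotone r) (hn : r (Fin.last k) ≤ n) (G : Sp d n k → ℝ) :
    ∑ s, msp β h n r s η * G s = ∑ q : Fin n → Step d, wgt β h η q / Z β h η n *
      G fun i => ⟨pos q (r i), pos_mem_box q (r i)⟩ := by
  classical
  have h1 : ∀ s : Sp d n k, msp β h n r s η * G s = ∑ q : Fin n → Step d,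
      (wgt β h η q / Z β h η n) * if (fun i => (⟨pos q (r i), pos_mem_box q (r i)⟩ :
        {x : Site d // x ∈ boxF d n})) = s then G s else 0 := by
    intro s
    rw [msp_eq20 β h η s hr hn, Finset.sum_mul]
    refine Finset.sum_congr rfl fun q _ => ?_
    rw [mul_assoc]
    congr 1
    split_ifs
    · rw [one_mul]
    · rw [zero_mul]
  rw [Finset.sum_congr rfl fun s _ => h1 s, Finset.sum_comm]
  refine Finset.sum_congr rfl fun q _ => ?_
  rw [← Finset.mul_sum]
  congr 1
  rw [Finset.sum_ite_eq, if_pos (Finset.mem_univ _)]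

open Classical in
lemma pab_eq20 (β : ℝ) (h : Vec d) (η : Env d) {n a b' : ℕ} (hab : a ≤ b') (hn : b' ≤ n)
    (x y : Site d) :
    pab β h n a b' x y η = ∑ q : Fin n → Step d, wgt β h η q / Z β h η n *
      if pos q a = x ∧ pos q b' = y then 1 else 0 := by
  have h1 := full20 β h η (k := 1) ![a, b'] ![x, y] (by
    intro i j hij
    fin_cases i <;> fin_cases j
    · exact le_rfl
    · exact hab
    · exact absurd hij (by decide)
    · exact le_rfl) (n := n) hn
  have h2 : pab β h n a b' x y η = (PP β h η a x * sg β h a b' x y η *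
      Z β h (sh b' y η) (n - b')) / Z β h η n := rfl
  rw [h2]
  have h3 : PP β h η (![a, b'] 0) (![x, y] 0) *
      (∏ i : Fin 1, sg β h (![a, b'] i.castSucc) (![a, b'] i.succ) (![x, y] i.castSucc)
        (![x, y] i.succ) η) *
      Z β h (sh (![a, b'] (Fin.last 1)) (![x, y] (Fin.last 1)) η) (n - ![a, b'] (Fin.last 1)) =
      PP β h η a x * sg β h a b' x y η * Z β h (sh b' y η) (n - b') := by
    rw [Fin.prod_univ_one]
    rfl
  rw [← h3, h1, Finset.sum_div]
  refine Finset.sum_congr rfl fun q _ => ?_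
  have h4 : (∀ i : Fin (1 + 1), pos q (![a, b'] i) = ![x, y] i) ↔ pos q a = x ∧ pos q b' = y := by
    rw [Fin.forall_fin_two]
    rfl
  by_cases hq : pos q a = x ∧ pos q b' = y
  · rw [if_pos (h4.2 hq), if_pos hq, mul_one]
  · rw [if_neg fun h' => hq (h4.1 h'), if_neg hq, zero_div, mul_zero]

/-- The mean of a function of two positions. -/
lemma sum_pab20 (β : ℝ) (h : Vec d) (η : Env d) {n a b' : ℕ} (hab : a ≤ b') (hn : b' ≤ n)
    (G : Site d → Site d → ℝ) :
    ∑ x ∈ boxF d n, ∑ y ∈ boxF d n, pab β h n a b' x y η * G x y =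
      ∑ q : Fin n → Step d, wgt β h η q / Z β h η n * G (pos q a) (pos q b') := by
  classical
  have h1 : ∀ x y : Site d, pab β h n a b' x y η * G x y = ∑ q : Fin n → Step d,
      (wgt β h η q / Z β h η n) * if pos q a = x ∧ pos q b' = y then G x y else 0 := by
    intro x y
    rw [pab_eq20 β h η hab hn x y, Finset.sum_mul]
    refine Finset.sum_congr rfl fun q _ => ?_
    rw [mul_assoc]
    congr 1
    split_ifs
    · rw [one_mul]
    · rw [zero_mul]
  simp only [h1]
  rw [Finset.sum_congr rfl fun x _ => Finset.sum_comm, Finset.sum_comm]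
  refine Finset.sum_congr rfl fun q _ => ?_
  simp only [← Finset.mul_sum]
  congr 1
  rw [Finset.sum_eq_single_of_mem (pos q a) (pos_mem_box q a),
    Finset.sum_eq_single_of_mem (pos q b') (pos_mem_box q b'), if_pos ⟨rfl, rfl⟩]
  · intro y _ hy
    exact if_neg fun h' => hy h'.2.symm
  · intro x _ hx
    exact Finset.sum_eq_zero fun y _ => if_neg fun h' => hx h'.1.symm

lemma sum_wgt20 (hd : 0 < d) (β : ℝ) (h : Vec d) (η : Env d) (n : ℕ) :
    ∑ q : Fin n → Step d, wgt β h η q / Z β h η n = 1 := by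
  rw [← Finset.sum_div, ← Z_eq]
  exact div_self (Z_pos hd β h η n).ne'

lemma wgt_div_nonneg20 (hd : 0 < d) (β : ℝ) (h : Vec d) (η : Env d) {n : ℕ}
    (q : Fin n → Step d) : 0 ≤ wgt β h η q / Z β h η n :=
  div_nonneg (wgt_pos _ _ _ _).le (Z_pos hd β h η n).le

lemma pab_nonneg20 (hd : 0 < d) (β : ℝ) (h : Vec d) (η : Env d) (n a b' : ℕ) (x y : Site d) :
    0 ≤ pab β h n a b' x y η :=
  div_nonneg (mul_nonneg (mul_nonneg (PP_nonneg _ _ _ _ _) (PP_nonneg _ _ _ _ _))
    (Z_pos hd _ _ _ _).le) (Z_pos hd _ _ _ _).le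

lemma sum_pab_one20 (hd : 0 < d) (β : ℝ) (h : Vec d) (η : Env d) {n a b' : ℕ} (hab : a ≤ b')
    (hn : b' ≤ n) : ∑ x ∈ boxF d n, ∑ y ∈ boxF d n, pab β h n a b' x y η = 1 := by
  have h1 := sum_pab20 β h η hab hn fun _ _ => 1
  simp only [mul_one] at h1
  rw [h1, sum_wgt20 hd]

/-- Leaf E2. -/
theorem marT20 : MarT d := by
  classical
  intro β h n k T r hO η x
  have hr := ord_mono hO
  have hQ : ∀ τ : ℕ, τ ≤ n → Qt β h n τ x η = ∑ q : Fin n → Step d, wgt β h η q / Z β h η n *
      if pos q τ = x then 1 else 0 := by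
    intro τ hτ
    have h1 := full20 β h η (k := 0) (fun _ => τ) (fun _ => (x : Site d)) (fun _ _ _ => le_rfl)
      (n := n) hτ
    simp only [Finset.univ_eq_empty, Finset.prod_empty, mul_one] at h1
    unfold Qt
    rw [h1, Finset.sum_div]
    refine Finset.sum_congr rfl fun q _ => ?_
    by_cases hq : pos q τ = x
    · rw [if_pos fun _ => hq, if_pos hq, mul_one]
    · rw [if_neg fun h' => hq (h' 0), if_neg hq, zero_div, mul_zero]
  have hS : ∀ j : Fin (k + 1), (∑ s : Sp d n k, if s j = x then msp β h n r s η else 0) =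
      Qt β h n (r j) x η := by
    intro j
    rw [hQ (r j) ((hr (Fin.le_last j)).trans hO.2)]
    have h1 := sum_msp20 β h η hr hO.2 fun s : Sp d n k => if s j = x then 1 else 0
    have h2 : ∀ s : Sp d n k, (if s j = x then msp β h n r s η else 0) =
        msp β h n r s η * if s j = x then 1 else 0 := by
      intro s
      split_ifs
      · rw [mul_one]
      · rw [mul_zero]
    simp only [h2]
    rw [h1]
    refine Finset.sum_congr rfl fun q _ => ?_
    congr 1
    by_cases hq : pos q (r j) = x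
    · rw [if_pos hq, if_pos (Subtype.ext hq)]
    · rw [if_neg hq, if_neg fun h' => hq (congrArg Subtype.val h')]
  refine ⟨?_, ?_⟩
  · have h1 := hS 0
    convert h1
  · have h1 := hS (Fin.last k)
    convert h1

end Pool.Agent.W_7d29a1_NV.K20
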