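import Pool.Agent.W_7d29a1_NV.DefsNV
import Pool.Agent.W_7d29a1_Q29.SumA98
import Pool.Agent.W_7d29a1_P78.C3

/-!
Insertion of `m` fresh rows at the time `τ`.
-/

set_option autoImplicit false

namespace Pool.Agent.W_7d29a1_NV

open MeasureTheory ProbabilityTheory Filter Topology Pool.Agent.W_MP_7d29a1_pr
  Pool.Agent.W_7d29a1_h46 Pool.Agent.W_7d29a1_h46u Pool.Agent.W_7d29a1_D2.B35
  Pool.Agent.W_7d29a1_Q29 Pool.Agent.W_7d29a1_P89 Pool.Agent.W_7d29a1_P78

variable {d : ℕ} {ρ : Measure ℝ}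

/-- The rows `≤ τ` of `η`, then `m` rows of `ξ`, then the later rows of `η`, shifted by `z0`. -/
def insE (τ m : ℕ) (z0 : Site d) (η ξ : Env d) : Env d := fun p =>
  if p.1 ≤ τ then η p else if p.1 ≤ τ + m then ξ p else η (p.1 - m, p.2 - z0)

/-- The reindexing of the insertion. -/
def insS (τ m : ℕ) (z0 : Site d) (p : ℕ × Site d) : (ℕ × Site d) ⊕ (ℕ × Site d) :=
  if p.1 ≤ τ then Sum.inl p else if p.1 ≤ τ + m then Sum.inr p else Sum.inl (p.1 - m, p.2 - z0)

lemma insS_inj (τ m : ℕ) (z0 : Site d) : Function.Injective (insS τ m z0) := by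
  intro p q h
  unfold insS at h
  have h3 : ∀ p q : ℕ × Site d, p.1 ≤ τ → ¬ q.1 ≤ τ + m → p ≠ (q.1 - m, q.2 - z0) := by
    intro p q hp hq hpq
    have := congrArg Prod.fst hpq
    simp only at this
    omega
  by_cases hp1 : p.1 ≤ τ
  · by_cases hq1 : q.1 ≤ τ
    · rw [if_pos hp1, if_pos hq1] at h
      exact Sum.inl.inj h
    · by_cases hq2 : q.1 ≤ τ + m
      · rw [if_pos hp1, if_neg hq1, if_pos hq2] at h
        exact absurd h (by simp)
      · rw [if_pos hp1, if_neg hq1, if_neg hq2] at h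
        exact absurd (Sum.inl.inj h) (h3 p q hp1 hq2)
  · by_cases hp2 : p.1 ≤ τ + m
    · by_cases hq1 : q.1 ≤ τ
      · rw [if_neg hp1, if_pos hp2, if_pos hq1] at h
        exact absurd h (by simp)
      · by_cases hq2 : q.1 ≤ τ + m
        · rw [if_neg hp1, if_pos hp2, if_neg hq1, if_pos hq2] at h
          exact Sum.inr.inj h
        · rw [if_neg hp1, if_pos hp2, if_neg hq1, if_neg hq2] at h
          exact absurd h (by simp)
    · by_cases hq1 : q.1 ≤ τ
      · rw [if_neg hp1, if_neg hp2, if_pos hq1] at h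
        exact absurd (Sum.inl.inj h).symm (h3 q p hq1 hp2)
      · by_cases hq2 : q.1 ≤ τ + m
        · rw [if_neg hp1, if_neg hp2, if_neg hq1, if_pos hq2] at h
          exact absurd h (by simp)
        · rw [if_neg hp1, if_neg hp2, if_neg hq1, if_neg hq2] at h
          have e := Sum.inl.inj h
          have e1 := congrArg Prod.fst e
          have e2 := congrArg Prod.snd e
          simp only at e1 e2
          exact Prod.ext (by omega) (sub_left_injective e2)

/-- The environment with inserted rows has the law of the environment. -/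
theorem mp_ins [IsProbabilityMeasure ρ] (τ m : ℕ) (z0 : Site d) :
    MeasurePreserving (fun w : Env d × Env d => insE τ m z0 w.1 w.2)
      ((law d ρ).prod (law d ρ)) (law d ρ) := by
  have h := LawU_elim (ρ := ρ) (insS_inj (d := d) τ m z0)
  have e : (fun w : Env d × Env d => insE τ m z0 w.1 w.2) =
      fun w : Env d × Env d => fun p => Sum.elim w.1 w.2 (insS τ m z0 p) := by
    funext w p
    unfold insE insS
    split_ifs <;> rfl
  rw [e]
  exact h

lemma ZT_congr79 {n : ℕ} {η η' : Env d} (β : ℝ) (h : Vec d)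
    (hη : ∀ p : ℕ × Site d, 1 ≤ p.1 → p.1 ≤ n → η p = η' p) (S : Set (Fin n → Step d)) :
    ZT β h η S = ZT β h η' S := by
  classical
  have h1 : ∀ s : Fin n → Step d, energy η s = energy η' s := by
    intro s
    unfold energy
    exact Finset.sum_congr rfl fun i _ => hη _ (Nat.le_add_left 1 i) i.2
  unfold ZT
  refine Finset.sum_congr rfl fun s _ => ?_
  unfold wgt
  rw [h1 s]

/-- The partition function after the insertion. -/
theorem Z_ins (β : ℝ) (h : Vec d) {τ n : ℕ} (m : ℕ) (hτ : τ ≤ n) (z0 : Site d)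
    (η ξ : Env d) :
    ∑ x ∈ boxF d τ, PP β h η τ x * Z β h (sh τ x η) (n - τ) * PP β h (sh τ x ξ) m z0 ≤
      Z β h (insE τ m z0 η ξ) (n + m) := by
  have e1 : n + m = τ + (m + (n - τ)) := by omega
  rw [e1, S98.Z_split]
  refine Finset.sum_le_sum fun x _ => ?_
  have h1 : PP β h (insE τ m z0 η ξ) τ x = PP β h η τ x := by
    refine ZT_congr79 β h (fun p _ hp => ?_) _
    unfold insE
    rw [if_pos hp]
  have h2 : PP β h (sh τ x (insE τ m z0 η ξ)) m z0 = PP β h (sh τ x ξ) m z0 := by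
    refine ZT_congr79 β h (fun p hp1 hp => ?_) _
    unfold sh insE
    simp only
    rw [if_neg (by omega), if_pos (by omega)]
  have h3 : Z β h (sh m z0 (sh τ x (insE τ m z0 η ξ))) (n - τ) = Z β h (sh τ x η) (n - τ) := by
    refine ZT_congr79 β h (fun p hp1 hp => ?_) _
    unfold sh insE
    simp only
    rw [if_neg (by omega), if_neg (by omega)]
    congr 1
    refine Prod.ext ?_ ?_
    · change p.1 + m + τ - m = p.1 + τ
      omega
    · change p.2 + z0 + x - z0 = p.2 + x
      abel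
  have h4 := PP_chainZ β h (sh τ x (insE τ m z0 η ξ)) m (n - τ) z0
  rw [h2, h3] at h4
  rw [h1]
  have h5 := PP_nonneg β h η τ x
  calc PP β h η τ x * Z β h (sh τ x η) (n - τ) * PP β h (sh τ x ξ) m z0
      = PP β h η τ x * (PP β h (sh τ x ξ) m z0 * Z β h (sh τ x η) (n - τ)) := by ring
    _ ≤ _ := mul_le_mul_of_nonneg_left h4 h5

/-- The free energy after the insertion, in terms of the law of `S_τ`. -/
theorem X_ins (hd : 0 < d) (β : ℝ) (h : Vec d) {τ n : ℕ} (m : ℕ) (hτ : τ ≤ n) (z0 : Site d)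
    (η ξ : Env d) {g : ℝ} (hg : 0 < g)
    (hle : g ≤ ∑ x ∈ boxF d τ, Qt β h n τ x η * PP β h (sh τ x ξ) m z0) :
    X β h η n + Real.log g ≤ X β h (insE τ m z0 η ξ) (n + m) := by
  have hZ : 0 < Z β h η n := Z_pos hd β h η n
  have h1 := Z_ins β h m hτ z0 η ξ
  have h2 : Z β h η n * g ≤ Z β h (insE τ m z0 η ξ) (n + m) := by
    refine le_trans ?_ h1
    refine (mul_le_mul_of_nonneg_left hle hZ.le).trans (le_of_eq ?_)
    rw [Finset.mul_sum]
    refine Finset.sum_congr rfl fun x _ => ?_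
    unfold Qt
    field_simp
  unfold X
  rw [← Real.log_mul hZ.ne' hg.ne']
  exact Real.log_le_log (mul_pos hZ hg) h2

end Pool.Agent.W_7d29a1_NV
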