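import Pool.Agent.W_7d29a1_NV.DefsNV

/-!
Theorem NV, the truncated forms: no centring makes the free energy tight.
-/

namespace Pool.Agent.W_7d29a1_NV

open MeasureTheory ProbabilityTheory Filter Topology Pool.Agent.W_MP_7d29a1_pr
  Pool.Agent.W_7d29a1_h46 Pool.Agent.W_7d29a1_h46u Pool.Agent.W_7d29a1_D2.B35
  Pool.Agent.W_7d29a1_Q29

/-- `TwoT` with a truncated difference. -/
def TwoTr : Prop := ∀ (Ω S : Type) [MeasurableSpace Ω] [Fintype S] (k : ℕ)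
  (P : Measure Ω) [IsProbabilityMeasure P] (Q : S → ℝ) (u : Fin k → S → Ω → ℝ) (B : ℝ),
  1 ≤ B → HT P Q u B →
    (∑ i, ∫ ω, ∑ s, prT Q u ω s * vaT P u i s ∂(Measure.pi fun _ => P)) /
        (4 * B * Real.sqrt (k + 1)) ≤
      (∫ ω, ∫ ω', min |Real.log (dT Q u ω) - Real.log (dT Q u ω')| (2 * B * Real.sqrt (k + 1))
        ∂(Measure.pi fun _ => P) ∂(Measure.pi fun _ => P)) + ∑ i, kaT P Q u i +
      (2 * B * k + 1) * Real.sqrt (2 * ∑ i, kaT P Q u i)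

/-- `TwoTr` for the polymer. -/
def TwoPr (d : ℕ) (ρ : Measure ℝ) (β b : ℝ) : Prop :=
  ∀ (h : Vec d) (n k : ℕ) (T : Fin k → ℕ) (r : Fin (k + 1) → ℕ), Ord n T r →
    ∀ a M δ : ℝ, 0 ≤ M → (law d ρ).real {η | M < |X β h η n - a|} ≤ δ →
  (∑ i : Fin k, vap ρ β b h n (T i) (r i.castSucc) (r i.succ)) /
      (4 * Bc β b * Real.sqrt (k + 1)) ≤
    2 * M + 4 * Bc β b * Real.sqrt (k + 1) * δ +
      ∑ i : Fin k, kap ρ β b h n (T i) (r i.castSucc) (r i.succ) +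
      (2 * Bc β b * k + 1) *
        Real.sqrt (2 * ∑ i : Fin k, kap ρ β b h n (T i) (r i.castSucc) (r i.succ))

/-- The local form: at a length with a small increment and concentrated laws of all the positions
the free energy is spread out, around every centre. -/
def CoreR (d : ℕ) (ρ : Measure ℝ) (β : ℝ) : Prop := ∀ (h : Vec d) (g : ℝ), 0 < g →
  lam ρ β h + g ≤ Real.log (Phi h) + Real.log (∫ t, Real.exp (β * t) ∂ρ) →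
    ∃ δ₀ : ℝ, 0 < δ₀ ∧ ∀ M : ℝ, ∃ ε δ b₂ : ℝ, 0 < ε ∧ 0 < δ ∧ ∀ b₀ : ℝ, b₂ ≤ b₀ →
      ∃ n₀ : ℕ, ∀ n : ℕ, n₀ ≤ n →
        A ρ β h n - A ρ β h (n - 1) ≤ lam ρ β h + g / 2 →
        (∀ τ : ℕ, 1 ≤ τ → τ ≤ n → (law d ρ).real {η | ¬ GoodN β h n τ b₀ ε η} ≤ δ) →
          ∀ a : ℝ, δ₀ < (law d ρ).real {η | M < |X β h η n - a|}

/-- The free energy of length `n` is concentrated around `a`, with the profile `R`. -/
def Tgt {d : ℕ} (ρ : Measure ℝ) (β : ℝ) (h : Vec d) (R : ℝ → ℝ) (n : ℕ) (a : ℝ) : Prop :=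
  ∀ δ : ℝ, 0 < δ → (law d ρ).real {η | R δ < |X β h η n - a|} ≤ δ

/-- The increments at a length where the free energy is concentrated. -/
def IncTt (d : ℕ) (ρ : Measure ℝ) (β : ℝ) : Prop := ∀ (h : Vec d) (ε : ℝ), 0 < ε →
  ∀ R : ℝ → ℝ, ∃ R' : ℝ → ℝ, ∃ n₀ : ℕ, ∀ (n : ℕ) (a : ℝ), n₀ ≤ n → Tgt ρ β h R n a →
    ∃ n' : ℕ, n ≤ n' ∧ A ρ β h n' - A ρ β h (n' - 1) ≤ lam ρ β h + ε ∧ Tgt ρ β h R' n' a

/-- The laws of the positions at a length where the free energy is concentrated. -/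
def MulTt (d : ℕ) (ρ : Measure ℝ) (β : ℝ) : Prop := ∀ h : Vec d, VSD ρ β h →
  ∀ ε δ : ℝ, 0 < ε → 0 < δ → ∀ R : ℝ → ℝ, ∃ b₁ : ℝ, ∀ b₀ : ℝ, b₁ ≤ b₀ → ∃ n₀ : ℕ,
    ∀ (n : ℕ) (a : ℝ), n₀ ≤ n → Tgt ρ β h R n a → ∀ τ : ℕ, 1 ≤ τ → τ ≤ n →
      (law d ρ).real {η | ¬ GoodN β h n τ b₀ ε η} ≤ δ

/-- The theorem: no subsequence of the centred free energies is tight. -/
def MainNT (d : ℕ) (ρ : Measure ℝ) (β : ℝ) : Prop := ∀ h : Vec d, VSD ρ β h →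
  ¬ ∃ (φ : ℕ → ℕ) (a : ℕ → ℝ), StrictMono φ ∧ ∀ δ : ℝ, 0 < δ → ∃ M : ℝ, ∀ j : ℕ,
    (law d ρ).real {η | M < |X β h η (φ j) - a j|} ≤ δ

end Pool.Agent.W_7d29a1_NV
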