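import Pool.Agent.W_7d29a1_NV.MulEnd79
import Pool.Agent.W_7d29a1_NV.IncP92
import Pool.Agent.W_7d29a1_NV.DefsR66

/-!
Leaf `MulTt`: the law of the position is concentrated on few sites as soon as the free energy of
the same length is tight (the insertion of helper79, with the increment in probability of helper92
in place of the second variance).
-/

set_option autoImplicit false

namespace Pool.Agent.W_7d29a1_NV.MT27

open MeasureTheory ProbabilityTheory Filter Topology Pool.Agent.W_MP_7d29a1_pr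
  Pool.Agent.W_7d29a1_h46 Pool.Agent.W_7d29a1_h46u Pool.Agent.W_7d29a1_D2.B35
  Pool.Agent.W_7d29a1_Q29 Pool.Agent.W_7d29a1_P89 Pool.Agent.W_7d29a1_P78

variable {d : ℕ} {ρ : Measure ℝ}

open Classical in
/-- The gain of one insertion, pathwise. -/
theorem gainP27 (hd : 0 < d) (β : ℝ) (h : Vec d) {b lm : ℝ} {n τ m : ℕ} (hτ : τ ≤ n)
    (z0 : Site d) {U : ℝ} {η ξ : Env d}
    (hx : Real.exp (b - U) ≤ ∑ x ∈ boxF d n,
      if Lk (⟨lm, β, h, 1⟩ : Prm d) m z0 U (sh τ x ξ) then Qt β h n τ x η else 0) :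
    X β h η n + (lm * m + b) ≤ X β h (insE τ m z0 η ξ) (n + m) := by
  set P : Prm d := ⟨lm, β, h, 1⟩ with hP
  have h4 : Real.exp (lm * m + b) ≤
      ∑ x ∈ boxF d τ, Qt β h n τ x η * PP β h (sh τ x ξ) m z0 := by
    have e1 : ∑ x ∈ boxF d τ, Qt β h n τ x η * PP β h (sh τ x ξ) m z0 =
        ∑ x ∈ boxF d n, Qt β h n τ x η * PP β h (sh τ x ξ) m z0 := by
      refine Finset.sum_subset (boxF_mono79 hτ) fun x _ hx => ?_
      rw [S98.Qt_off hx, zero_mul]
    rw [e1]
    have e2 : Real.exp (lm * m + b) = Real.exp (lm * m + U) * Real.exp (b - U) := by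
      rw [← Real.exp_add]
      congr 1
      ring
    rw [e2]
    refine (mul_le_mul_of_nonneg_left hx (Real.exp_pos _).le).trans ?_
    rw [Finset.mul_sum]
    refine Finset.sum_le_sum fun x _ => ?_
    have hq := S98.Qt_nonneg hd β h n τ x η
    by_cases hl : Lk P m z0 U (sh τ x ξ)
    · rw [if_pos hl]
      have h5 : Real.exp U ≤ Real.exp (-((m : ℝ) * lm)) * PP β h (sh τ x ξ) m z0 := hl
      have h6 : Real.exp (lm * m + U) ≤ PP β h (sh τ x ξ) m z0 := by
        have h7 := mul_le_mul_of_nonneg_left h5 (Real.exp_pos ((m : ℝ) * lm)).le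
        rw [← mul_assoc, ← Real.exp_add, ← Real.exp_add, add_neg_cancel, Real.exp_zero,
          one_mul, mul_comm (m : ℝ)] at h7
        exact h7
      rw [mul_comm (Qt β h n τ x η)]
      exact mul_le_mul_of_nonneg_right h6 hq
    · rw [if_neg hl, mul_zero]
      exact mul_nonneg hq (PP_nonneg _ _ _ _ _)
  have h8 := X_ins hd β h m hτ z0 η ξ (Real.exp_pos _) h4
  rw [Real.log_exp] at h8
  linarith

/-- The insertion: in an environment in which the law of the position is spread out, the insertion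
of `m` rows gains `lam m + b` with probability at least one half. -/
theorem gain27 [IsProbabilityMeasure ρ] (hd : 0 < d) (hρ : EM ρ) (β : ℝ) {h : Vec d}
    (hV : VSD ρ β h) {ε : ℝ} (hε : 0 < ε) :
    ∃ c₀ C' b₁ : ℝ, 0 < c₀ ∧ 0 < C' ∧ 1 ≤ b₁ ∧ ∀ b : ℝ, b₁ ≤ b → ∃ (m : ℕ) (z0 : Site d),
      c₀ * b ≤ m ∧ m ≤ C' * b ∧ ∀ n τ : ℕ, τ ≤ n → ∀ η : Env d, ¬ GoodN β h n τ b ε η →
        1 / 2 ≤ (law d ρ).real {ξ | X β h η n + (lam ρ β h * m + b) ≤
          X β h (insE τ m z0 η ξ) (n + m)} := by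
  classical
  have hLM : LMassP d ρ := lMassP79
  set P : Prm d := ⟨lam ρ β h, β, h, 1⟩ with hP
  have hPP := Pool.Agent.W_7d29a1_P79.hP79 hd hρ hV
  set θ : ℝ := min (min (ε / 8) (1 / 32)) 1 with hθ
  have hθ0 : 0 < θ := lt_min (lt_min (by positivity) (by norm_num)) one_pos
  have hθ1 : θ ≤ ε / 8 := (min_le_left _ _).trans (min_le_left _ _)
  have hθ2 : θ ≤ 1 / 32 := (min_le_left _ _).trans (min_le_right _ _)
  have hθ3 : θ ≤ 1 := min_le_right _ _
  obtain ⟨k, y, u, hk1, hu1, hp⟩ := Pool.Agent.W_7d29a1_P79.pair79 hd hρ P hPP hθ0 hθ3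
  have hu0 : 0 < u := lt_of_lt_of_le one_pos hu1
  have hk0 : (1 : ℝ) ≤ k := by exact_mod_cast hk1
  set C' : ℝ := k * (2 / u + 1) with hC'
  have hC0 : 0 < C' := by positivity
  set c : ℝ := min (ε / 2) (1 / 4) with hc
  have hc0 : 0 < c := lt_min (by positivity) (by norm_num)
  have hc1 : c ≤ ε / 2 := min_le_left _ _
  have hc2 : c ≤ 1 / 4 := min_le_right _ _
  obtain ⟨b₁, hb11, hb₁⟩ := num79 hc0 d (B := θ * u) (by positivity) C' hC0.le
  refine ⟨2 / u, C', b₁, by positivity, hC0, hb11, fun b hb => ?_⟩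
  have hbb1 : b₁ ≤ b := hb
  have hb1 : 1 ≤ b := hb11.trans hbb1
  have hb0 : 0 < b := by linarith
  set r : ℕ := ⌈2 * b / u⌉₊ with hr
  have hr1 : 2 * b / u ≤ r := Nat.le_ceil _
  have hr2 : (r : ℝ) < 2 * b / u + 1 := Nat.ceil_lt_add_one (by positivity)
  have hU1 : 2 * b ≤ r * u := by
    rw [div_le_iff₀ hu0] at hr1
    exact hr1
  have hU2 : (r : ℝ) * u ≤ 2 * b + u := by
    have := mul_le_mul_of_nonneg_right hr2.le hu0.le
    rw [add_mul, div_mul_cancel₀ _ hu0.ne', one_mul] at this
    exact this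
  set m : ℕ := r * k with hm
  have hmC : (m : ℝ) ≤ C' * b := by
    rw [hm, hC']
    push_cast
    have h1 : (r : ℝ) ≤ (2 / u + 1) * b := by
      have h2 : 2 * b / u + 1 ≤ (2 / u + 1) * b := by
        have : 2 * b / u = 2 / u * b := by ring
        rw [this]
        nlinarith
      linarith
    nlinarith
  have hmc : 2 / u * b ≤ (m : ℝ) := by
    have h1 : (r : ℝ) ≤ m := by
      rw [hm]
      exact_mod_cast Nat.le_mul_of_pos_right r hk1
    refine le_trans (le_of_eq ?_) (hr1.trans h1)
    ring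
  refine ⟨m, r • y, hmc, hmC, fun n τ hτn η hη => ?_⟩
  -- the probability of luck
  set z0 : Site d := r • y with hz0
  set U : ℝ := r * u with hU
  set p : ℝ := (law d ρ).real {ξ : Env d | Lk P m z0 U ξ} with hpd
  have hplow : Real.exp (-(θ * (2 * b + u))) ≤ p := by
    refine le_trans ?_ (concat78 P k y u r)
    refine le_trans ?_ (pow_le_pow_left₀ (Real.exp_pos _).le hp r)
    rw [← Real.exp_nat_mul, Real.exp_le_exp]
    have : θ * (r * u) ≤ θ * (2 * b + u) := mul_le_mul_of_nonneg_left hU2 hθ0.le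
    linarith
  have hp0 : 0 < p := (Real.exp_pos _).trans_le hplow
  have hnum := hb₁ b hbb1 m hmC
  have hpow1 : (1 : ℝ) ≤ (4 * (m : ℝ) + 1) ^ d := one_le_pow₀ (by
    have : (0 : ℝ) ≤ m := Nat.cast_nonneg m
    linarith)
  have hQ0 : ∀ x, 0 ≤ Qt β h n τ x η := fun x => S98.Qt_nonneg hd β h n τ x η
  have hfin : 1 / 2 ≤ (law d ρ).real {ξ | Real.exp (b - U) ≤ ∑ x ∈ boxF d n,
      if Lk P m z0 U (sh τ x ξ) then Qt β h n τ x η else 0} := by
    -- the conclusion from the lucky mass lemma
    have key : ∀ (A : Finset (Site d)) (q : Site d → ℝ) (M : ℝ), A ⊆ boxF d n →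
        (∀ x ∈ A, 0 ≤ q x) → (∀ x ∈ A, q x ≤ M) → 0 < ∑ x ∈ A, q x →
        8 * M * (4 * (m : ℝ) + 1) ^ d ≤ p * ∑ x ∈ A, q x →
        (∀ ξ : Env d, p * (∑ x ∈ A, q x) / 2 <
          (∑ x ∈ A, if Lk P m z0 U (sh τ x ξ) then q x else 0) →
          Real.exp (b - U) ≤ ∑ x ∈ A, if Lk P m z0 U (sh τ x ξ) then Qt β h n τ x η else 0) →
        1 / 2 ≤ (law d ρ).real {ξ | Real.exp (b - U) ≤ ∑ x ∈ boxF d n,
          if Lk P m z0 U (sh τ x ξ) then Qt β h n τ x η else 0} := by
      intro A q M hAs hq0 hqM hT hnum' hgain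
      have h1 := hLM P τ m z0 U A q M hq0 hqM hT hp0
      have hpT : 0 < p * ∑ x ∈ A, q x := mul_pos hp0 hT
      have h2 : 4 * M * (4 * (m : ℝ) + 1) ^ d / (p * ∑ x ∈ A, q x) ≤ 1 / 2 := by
        rw [div_le_iff₀ hpT]
        linarith
      have hmeas : MeasurableSet {ξ : Env d | (∑ x ∈ A,
          if Lk P m z0 U (sh τ x ξ) then q x else 0) ≤ p * (∑ x ∈ A, q x) / 2} := by
        refine measurableSet_le (Finset.measurable_fun_sum _ fun x _ => ?_) measurable_const
        exact Measurable.ite ((measurable_sh τ x) (measurableSet_Lk78 P m z0 U))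
          measurable_const measurable_const
      have h3 := probReal_compl_eq_one_sub (μ := law d ρ) hmeas
      have h4 : {ξ : Env d | (∑ x ∈ A, if Lk P m z0 U (sh τ x ξ) then q x else 0) ≤
          p * (∑ x ∈ A, q x) / 2}ᶜ ⊆ {ξ | Real.exp (b - U) ≤ ∑ x ∈ boxF d n,
          if Lk P m z0 U (sh τ x ξ) then Qt β h n τ x η else 0} := by
        intro ξ hξ
        have h5 : p * (∑ x ∈ A, q x) / 2 <
          (∑ x ∈ A, if Lk P m z0 U (sh τ x ξ) then q x else 0) := not_le.1 hξ
        refine (hgain ξ h5).trans ?_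
        refine Finset.sum_le_sum_of_subset_of_nonneg hAs fun x _ _ => ?_
        split_ifs
        · exact hQ0 x
        · exact le_rfl
      have h5 := measureReal_mono (μ := law d ρ) h4
      rw [h3] at h5
      linarith
    by_cases hi : (((boxF d n).filter fun x => Real.exp (-b) ≤ Qt β h n τ x η).card : ℝ) ≤
        Real.exp (ε * b)
    · -- the mass of the small atoms is large
      have hii : Real.exp (-(b / 4)) <
          ∑ x ∈ (boxF d n).filter fun x => Qt β h n τ x η < Real.exp (-b), Qt β h n τ x η := by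
        by_contra hcon
        exact hη ⟨hi, not_lt.1 hcon⟩
      set A : Finset (Site d) := (boxF d n).filter fun x => Qt β h n τ x η < Real.exp (-b) with hAd
      have hT : 0 < ∑ x ∈ A, Qt β h n τ x η := (Real.exp_pos _).trans hii
      have hpT : Real.exp (-(θ * (2 * b + u))) * Real.exp (-(b / 4)) ≤
          p * ∑ x ∈ A, Qt β h n τ x η :=
        mul_le_mul hplow hii.le (Real.exp_pos _).le hp0.le
      rw [← Real.exp_add] at hpT
      refine key A (fun x => Qt β h n τ x η) (Real.exp (-b)) (Finset.filter_subset _ _)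
        (fun x _ => hQ0 x) (fun x hx => (Finset.mem_filter.1 hx).2.le) hT ?_ ?_
      · refine le_trans ?_ hpT
        have h6 : 8 * (4 * (m : ℝ) + 1) ^ d ≤ Real.exp (c * b - θ * u) := by
          rw [Real.exp_sub, le_div_iff₀ (Real.exp_pos _)]
          exact hnum
        have h7 : 8 * Real.exp (-b) * (4 * (m : ℝ) + 1) ^ d ≤
            Real.exp (c * b - θ * u) * Real.exp (-b) := by
          have := mul_le_mul_of_nonneg_right h6 (Real.exp_pos (-b)).le
          linarith
        refine h7.trans ?_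
        rw [← Real.exp_add, Real.exp_le_exp]
        nlinarith
      · intro ξ hξ
        refine le_trans ?_ hξ.le
        refine le_trans ?_ (div_le_div_of_nonneg_right hpT two_pos.le)
        rw [le_div_iff₀ two_pos]
        have h6 : 8 * Real.exp (θ * u) ≤ Real.exp (c * b) := by
          refine le_trans ?_ hnum
          have := mul_le_mul_of_nonneg_right hpow1 (Real.exp_pos (θ * u)).le
          linarith
        have h7 : (2 : ℝ) ≤ Real.exp (c * b - θ * u) := by
          rw [Real.exp_sub, le_div_iff₀ (Real.exp_pos _)]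
          have := Real.exp_pos (θ * u)
          linarith
        calc Real.exp (b - U) * 2 ≤ Real.exp (b - U) * Real.exp (c * b - θ * u) :=
              mul_le_mul_of_nonneg_left h7 (Real.exp_pos _).le
          _ = Real.exp (b - U + (c * b - θ * u)) := (Real.exp_add _ _).symm
          _ ≤ _ := by
            rw [Real.exp_le_exp]
            nlinarith
    · -- there are many atoms
      rw [not_le] at hi
      set A : Finset (Site d) := (boxF d n).filter fun x => Real.exp (-b) ≤ Qt β h n τ x η with hAd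
      have hsum : ∑ _x ∈ A, (1 : ℝ) = A.card := by simp
      have hcard : 0 < (A.card : ℝ) := (Real.exp_pos _).trans hi
      refine key A (fun _ => 1) 1 (Finset.filter_subset _ _) (fun _ _ => zero_le_one)
        (fun _ _ => le_rfl) (by rw [hsum]; exact hcard) ?_ ?_
      · rw [hsum]
        have hpT : Real.exp (-(θ * (2 * b + u))) * Real.exp (ε * b) ≤ p * A.card :=
          mul_le_mul hplow hi.le (Real.exp_pos _).le hp0.le
        rw [← Real.exp_add] at hpT
        refine le_trans ?_ hpT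
        have h6 : 8 * (4 * (m : ℝ) + 1) ^ d ≤ Real.exp (c * b - θ * u) := by
          rw [Real.exp_sub, le_div_iff₀ (Real.exp_pos _)]
          exact hnum
        rw [mul_one]
        refine h6.trans ?_
        rw [Real.exp_le_exp]
        nlinarith
      · intro ξ hξ
        have h6 : 0 < ∑ x ∈ A, (if Lk P m z0 U (sh τ x ξ) then (1 : ℝ) else 0) := by
          refine lt_of_le_of_lt ?_ hξ
          rw [hsum]
          positivity
        obtain ⟨x, hxA, hx⟩ := Finset.exists_ne_zero_of_sum_ne_zero h6.ne'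
        have hl : Lk P m z0 U (sh τ x ξ) := by
          by_contra hcon
          exact hx (if_neg hcon)
        have h7 : Real.exp (b - U) ≤ Qt β h n τ x η := by
          refine le_trans ?_ (Finset.mem_filter.1 hxA).2
          rw [Real.exp_le_exp]
          linarith
        refine h7.trans ?_
        have h8 := Finset.single_le_sum (s := A) (a := x)
          (f := fun x => if Lk P m z0 U (sh τ x ξ) then Qt β h n τ x η else 0)
          (fun x _ => by
            split_ifs
            · exact hQ0 x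
            · exact le_rfl) hxA
        beta_reduce at h8
        rw [if_pos hl] at h8
        exact h8
  exact hfin.trans (measureReal_mono fun ξ hξ => gainP27 hd β h hτn z0 hξ)

/-- A section argument: if every environment of `Bad` has sections of mass at least one half in a
set of small mass, then `Bad` is small. -/
theorem sec27 [IsProbabilityMeasure ρ] {G : Set (Env d × Env d)} (hG : MeasurableSet G)
    (Bad : Set (Env d)) (hBad : ∀ η ∈ Bad, 1 / 2 ≤ (law d ρ).real {ξ | (η, ξ) ∈ G}) :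
    (law d ρ).real Bad ≤ 2 * ((law d ρ).prod (law d ρ)).real G := by
  set I : Env d × Env d → ℝ := G.indicator fun _ => (1 : ℝ) with hI
  have hIi : Integrable I ((law d ρ).prod (law d ρ)) := (integrable_const (1 : ℝ)).indicator hG
  have hsec : ∀ η : Env d, ∫ ξ, I (η, ξ) ∂(law d ρ) = (law d ρ).real {ξ | (η, ξ) ∈ G} := by
    intro η
    have h1 : (fun ξ => I (η, ξ)) = {ξ | (η, ξ) ∈ G}.indicator fun _ => (1 : ℝ) := by
      funext ξ
      rfl
    have h2 : MeasurableSet {ξ | (η, ξ) ∈ G} := measurable_prodMk_left hG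
    rw [h1, integral_indicator_const _ h2, smul_eq_mul, mul_one]
  have hT : ∫ η, (∫ ξ, I (η, ξ) ∂(law d ρ)) ∂(law d ρ) = ((law d ρ).prod (law d ρ)).real G := by
    rw [← integral_prod _ hIi, hI, integral_indicator_const _ hG, smul_eq_mul, mul_one]
  have hmk := mul_meas_ge_le_integral_of_nonneg (μ := law d ρ)
    (Eventually.of_forall fun η => (integral_nonneg fun ξ =>
      Set.indicator_nonneg (fun _ _ => zero_le_one) _ : 0 ≤ ∫ ξ, I (η, ξ) ∂(law d ρ)))
    hIi.integral_prod_left (1 / 2)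
  rw [hT] at hmk
  have hsub : Bad ⊆ {η | 1 / 2 ≤ ∫ ξ, I (η, ξ) ∂(law d ρ)} := by
    intro η hη
    show 1 / 2 ≤ ∫ ξ, I (η, ξ) ∂(law d ρ)
    rw [hsec η]
    exact hBad η hη
  have h2 := measureReal_mono (μ := law d ρ) hsub
  linarith

/-- Leaf `MulTt`. -/
theorem mulTt27 [IsProbabilityMeasure ρ] (hd : 0 < d) (hρ : EM ρ) (β : ℝ) : MulTt d ρ β := by
  intro h hV ε δ hε hδ R
  obtain ⟨c₀, C', b₁, hc0, hC0, hb11, hg⟩ := gain27 hd hρ β hV hε
  obtain ⟨δ₁, hδ₁, m₁, hI⟩ := incP92 (ρ := ρ) hd hρ β h (1 / (4 * C')) (δ / 8) (by positivity)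
    (by linarith)
  refine ⟨max b₁ (max (m₁ / c₀) (4 / 3 * (R (δ / 8) + R δ₁) + 1)), fun b hb => ?_⟩
  have hbb1 : b₁ ≤ b := (le_max_left _ _).trans hb
  have hbb2 : (m₁ : ℝ) / c₀ ≤ b := (le_max_left _ _).trans ((le_max_right _ _).trans hb)
  have hbb3 : 4 / 3 * (R (δ / 8) + R δ₁) + 1 ≤ b :=
    (le_max_right _ _).trans ((le_max_right _ _).trans hb)
  have hb1 : 1 ≤ b := hb11.trans hbb1
  obtain ⟨m, z0, hm1, hm2, hgain⟩ := hg b hbb1
  have hmm : m₁ ≤ m := by
    have h1 : (m₁ : ℝ) ≤ m := by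
      rw [div_le_iff₀ hc0] at hbb2
      linarith
    exact_mod_cast h1
  refine ⟨m, fun n a hn hT τ hτ1 hτn => ?_⟩
  -- the upper bound
  set y : ℝ := a + R δ₁ with hy
  have hup : (law d ρ).real {η | y < X β h η n} ≤ δ₁ := by
    refine (measureReal_mono fun η hη => ?_).trans (hT δ₁ hδ₁)
    have h1 : y < X β h η n := hη
    show R δ₁ < |X β h η n - a|
    exact lt_of_lt_of_le (by linarith) (le_abs_self _)
  have hup2 := hI m n y hmm hn hup
  -- the lower bound
  have hlo : (law d ρ).real {η | X β h η n < a - R (δ / 8)} ≤ δ / 8 := by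
    refine (measureReal_mono fun η hη => ?_).trans (hT (δ / 8) (by linarith))
    have h1 : X β h η n < a - R (δ / 8) := hη
    show R (δ / 8) < |X β h η n - a|
    exact lt_of_lt_of_le (by linarith) (neg_abs_le _ |> neg_le_neg |>.trans (le_of_eq (neg_neg _)))
  set G : Set (Env d × Env d) := {w | X β h w.1 n + (lam ρ β h * m + b) ≤
    X β h (insE τ m z0 w.1 w.2) (n + m)} with hG
  have hmp := mp_ins (d := d) (ρ := ρ) τ m z0
  have hGm : MeasurableSet G := measurableSet_le
    (((measurable_X β h n).comp measurable_fst).add_const _)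
    ((measurable_X β h (n + m)).comp hmp.measurable)
  have hsub : G ⊆ {w : Env d × Env d | X β h w.1 n < a - R (δ / 8)} ∪
      {w | y + (lam ρ β h + 1 / (4 * C')) * m < X β h (insE τ m z0 w.1 w.2) (n + m)} := by
    intro w hw
    by_contra hno
    rw [Set.mem_union, not_or] at hno
    obtain ⟨h1, h2⟩ := hno
    have h1' : a - R (δ / 8) ≤ X β h w.1 n := not_lt.1 h1
    have h2' : X β h (insE τ m z0 w.1 w.2) (n + m) ≤
        y + (lam ρ β h + 1 / (4 * C')) * m := not_lt.1 h2
    have h3 : X β h w.1 n + (lam ρ β h * m + b) ≤ X β h (insE τ m z0 w.1 w.2) (n + m) := hw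
    have h4 : 1 / (4 * C') * (m : ℝ) ≤ b / 4 := by
      have h5 := mul_le_mul_of_nonneg_left hm2 (show (0 : ℝ) ≤ 1 / (4 * C') by positivity)
      refine h5.trans (le_of_eq ?_)
      field_simp
    rw [add_mul] at h2'
    linarith
  have hP1 : ((law d ρ).prod (law d ρ)).real {w : Env d × Env d | X β h w.1 n < a - R (δ / 8)} ≤
      δ / 8 := by
    refine le_trans (le_of_eq ?_) hlo
    have h1 := (measurePreserving_fst (μ := law d ρ) (ν := law d ρ)).measure_preimage
      (measurableSet_lt (measurable_X β h n) (measurable_const (a := a - R (δ / 8)))).nullMeasurableSet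
    unfold Measure.real
    rw [← h1]
    rfl
  have hP2 : ((law d ρ).prod (law d ρ)).real
      {w | y + (lam ρ β h + 1 / (4 * C')) * m < X β h (insE τ m z0 w.1 w.2) (n + m)} ≤ δ / 8 := by
    refine le_trans (le_of_eq ?_) hup2
    have h1 := hmp.measure_preimage (measurableSet_lt (measurable_const
      (a := y + (lam ρ β h + 1 / (4 * C')) * m)) (measurable_X β h (n + m))).nullMeasurableSet
    unfold Measure.real
    rw [← h1]
    rfl
  have hfin := sec27 (ρ := ρ) hGm {η | ¬ GoodN β h n τ b ε η}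
    (fun η hη => hgain n τ hτn η hη)
  have h5 := (measureReal_mono (μ := (law d ρ).prod (law d ρ)) hsub).trans
    (measureReal_union_le _ _)
  linarith

end Pool.Agent.W_7d29a1_NV.MT27
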