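import Pool.Agent.W_7d29a1_NV.MeasN66
import Pool.Agent.W_7d29a1_NV.Chn20
import Pool.Agent.W_7d29a1_Q29.Dual85

/-!
Theorem NV, leaf V, the site half: the variance of the gain of a segment is bounded below by the
squares of the masses of the sites of the row.
-/

namespace Pool.Agent.W_7d29a1_NV.S62

open MeasureTheory ProbabilityTheory Filter Topology Pool.Agent.W_MP_7d29a1_pr
  Pool.Agent.W_7d29a1_h46 Pool.Agent.W_7d29a1_h46u Pool.Agent.W_7d29a1_D2.B35
  Pool.Agent.W_7d29a1_Q29 Pool.Agent.W_7d29a1_NV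

/-! ### Finite sums -/

section Fin

variable {ι σ : Type*} [Fintype ι]

lemma sum_bd (w : ι → ℝ) (hw : ∀ i, 0 ≤ w i) (v : ι → ℝ) {M : ℝ} (hv : ∀ i, |v i| ≤ M) :
    Real.exp (-M) * ∑ i, w i ≤ ∑ i, w i * Real.exp (v i) ∧
      ∑ i, w i * Real.exp (v i) ≤ Real.exp M * ∑ i, w i := by
  rw [Finset.mul_sum, Finset.mul_sum]
  refine ⟨Finset.sum_le_sum fun i _ => ?_, Finset.sum_le_sum fun i _ => ?_⟩
  · rw [mul_comm]
    exact mul_le_mul_of_nonneg_left (Real.exp_le_exp.2 (abs_le.1 (hv i)).1) (hw i)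
  · rw [mul_comm (Real.exp M)]
    exact mul_le_mul_of_nonneg_left (Real.exp_le_exp.2 (abs_le.1 (hv i)).2) (hw i)

open Classical in
/-- One direction of the site estimate. -/
lemma one_dir (w : ι → ℝ) (hw : ∀ i, 0 ≤ w i) (g : ι → σ) (β M : ℝ) (u v : σ → ℝ) (z : σ)
    (huv : ∀ s, s ≠ z → u s = v s) (hu : ∀ s, |β * u s| ≤ M) (hv : ∀ s, |β * v s| ≤ M)
    (h0 : 0 < ∑ i, w i) (hle : β * v z ≤ β * u z) :
    Real.exp (-(2 * M)) * ((∑ i, if g i = z then w i else 0) / ∑ i, w i) * (β * u z - β * v z) ≤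
      Real.log (∑ i, w i * Real.exp (β * u (g i))) -
        Real.log (∑ i, w i * Real.exp (β * v (g i))) := by
  set S0 := ∑ i, w i with hS0
  set Su := ∑ i, w i * Real.exp (β * u (g i)) with hSu
  set Sv := ∑ i, w i * Real.exp (β * v (g i)) with hSv
  set Az := ∑ i, if g i = z then w i else 0 with hAz
  have hAz0 : 0 ≤ Az := Finset.sum_nonneg fun i _ => by split_ifs <;> first | exact hw i | exact le_rfl
  have bu := sum_bd w hw (fun i => β * u (g i)) fun i => hu _
  have bv := sum_bd w hw (fun i => β * v (g i)) fun i => hv _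
  have pu : 0 < Su := lt_of_lt_of_le (mul_pos (Real.exp_pos _) h0) bu.1
  have pv : 0 < Sv := lt_of_lt_of_le (mul_pos (Real.exp_pos _) h0) bv.1
  have hdiff : Su - Sv = Az * (Real.exp (β * u z) - Real.exp (β * v z)) := by
    rw [hSu, hSv, hAz, ← Finset.sum_sub_distrib, Finset.sum_mul]
    refine Finset.sum_congr rfl fun i _ => ?_
    by_cases hi : g i = z
    · rw [if_pos hi, hi]
      ring
    · rw [if_neg hi, huv _ hi]
      ring
  have hlog : (Su - Sv) / Su ≤ Real.log Su - Real.log Sv := by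
    have h1 := Real.add_one_le_exp (Real.log Sv - Real.log Su)
    rw [Real.exp_sub, Real.exp_log pv, Real.exp_log pu] at h1
    have h2 : (Su - Sv) / Su = 1 - Sv / Su := by
      field_simp
    rw [h2]
    linarith
  refine le_trans ?_ hlog
  rw [hdiff]
  have h3 : Real.exp (-M) * (β * u z - β * v z) ≤ Real.exp (β * u z) - Real.exp (β * v z) := by
    have h4 := Real.add_one_le_exp (β * u z - β * v z)
    have h5 : Real.exp (β * u z) - Real.exp (β * v z) =
        Real.exp (β * v z) * (Real.exp (β * u z - β * v z) - 1) := by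
      rw [mul_sub, ← Real.exp_add, mul_one]
      congr 2
      ring
    rw [h5]
    have h6 : Real.exp (-M) ≤ Real.exp (β * v z) := Real.exp_le_exp.2 (abs_le.1 (hv z)).1
    refine mul_le_mul h6 (by linarith) (by linarith) (Real.exp_pos _).le
  have h7 : Real.exp (-(2 * M)) * (Az / S0) * (β * u z - β * v z) =
      Az * (Real.exp (-M) * (β * u z - β * v z)) / (Real.exp M * S0) := by
    have h8 : Real.exp (-(2 * M)) = Real.exp (-M) / Real.exp M := by
      rw [← Real.exp_sub]
      congr 1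
      ring
    rw [h8]
    field_simp
  rw [h7]
  have h9 : 0 ≤ β * u z - β * v z := by linarith
  refine div_le_div₀ ?_ ?_ pu bu.2
  · exact mul_nonneg hAz0 ((mul_nonneg (Real.exp_pos _).le h9).trans h3)
  · exact mul_le_mul_of_nonneg_left h3 hAz0

open Classical in
/-- The site estimate. -/
lemma two_dir (w : ι → ℝ) (hw : ∀ i, 0 ≤ w i) (g : ι → σ) (β M : ℝ) (u v : σ → ℝ) (z : σ)
    (huv : ∀ s, s ≠ z → u s = v s) (hu : ∀ s, |β * u s| ≤ M) (hv : ∀ s, |β * v s| ≤ M)
    (h0 : 0 < ∑ i, w i) :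
    Real.exp (-(2 * M)) * ((∑ i, if g i = z then w i else 0) / ∑ i, w i) * (|β| * |u z - v z|) ≤
      |Real.log (∑ i, w i * Real.exp (β * u (g i))) -
        Real.log (∑ i, w i * Real.exp (β * v (g i)))| := by
  have hab : |β| * |u z - v z| = |β * u z - β * v z| := by
    rw [← abs_mul]
    congr 1
    ring
  rw [hab]
  rcases le_total (β * v z) (β * u z) with h | h
  · rw [abs_of_nonneg (sub_nonneg.2 h)]
    exact (one_dir w hw g β M u v z huv hu hv h0 h).trans (le_abs_self _)
  · rw [abs_sub_comm, abs_of_nonneg (sub_nonneg.2 h), abs_sub_comm]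
    exact (one_dir w hw g β M v u z (fun s hs => (huv s hs).symm) hv hu h0 h).trans
      (le_abs_self _)

end Fin

/-! ### The segment as a function of the row -/

section Seg

variable {d : ℕ}

/-- The energy when the row `t` is changed. -/
lemma energy_row {m t a : ℕ} (hat : a < t) (htm : t ≤ a + m) (x : Site d) (η η' : Env d)
    (hη : ∀ p : ℕ × Site d, p.1 ≠ t → η' p = η p) (q : Fin m → Step d) :
    energy (sh a x η') q = energy (sh a x η) q +
      (η' (t, pos q (t - a) + x) - η (t, pos q (t - a) + x)) := by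
  have hi : t - a - 1 < m := by omega
  unfold energy
  have h1 : ∀ i : Fin m, i ≠ ⟨t - a - 1, hi⟩ →
      sh a x η' (i + 1, pos q (i + 1)) = sh a x η (i + 1, pos q (i + 1)) := by
    intro i hne
    unfold sh
    refine hη _ ?_
    simp only
    intro h2
    refine hne (Fin.ext ?_)
    simp only
    omega
  have e1 := Finset.add_sum_erase Finset.univ
    (fun i : Fin m => sh a x η' (i + 1, pos q (i + 1)))
      (Finset.mem_univ (⟨t - a - 1, hi⟩ : Fin m))
  have e2 := Finset.add_sum_erase Finset.univ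
    (fun i : Fin m => sh a x η (i + 1, pos q (i + 1)))
      (Finset.mem_univ (⟨t - a - 1, hi⟩ : Fin m))
  rw [← e1, ← e2, Finset.sum_congr rfl fun i h => h1 i (Finset.ne_of_mem_erase h)]
  have h3 : t - a - 1 + 1 = t - a := by omega
  have h4 : t - a + a = t := by omega
  have h5 : ∀ ζ : Env d, sh a x ζ (t - a - 1 + 1, pos q (t - a - 1 + 1)) =
      ζ (t, pos q (t - a) + x) := by
    intro ζ
    rw [h3]
    unfold sh
    rw [h4]
  simp only [h5]
  ring

lemma wgt_row {m t a : ℕ} (hat : a < t) (htm : t ≤ a + m) (β : ℝ) (h : Vec d) (x : Site d)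
    (η η' : Env d) (hη : ∀ p : ℕ × Site d, p.1 ≠ t → η' p = η p) (q : Fin m → Step d) :
    wgt β h (sh a x η') q = wgt β h (sh a x η) q *
      Real.exp (β * (η' (t, pos q (t - a) + x) - η (t, pos q (t - a) + x))) := by
  unfold wgt
  rw [← Real.exp_add, energy_row hat htm x η η' hη q]
  congr 1
  ring

open Classical in
/-- The weights of the walks of the segment. -/
noncomputable def ww (β : ℝ) (h : Vec d) (a b' : ℕ) (x y : Site d) (η : Env d)
    (q : Fin (b' - a) → Step d) : ℝ :=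
  if pos q (b' - a) = y - x then wgt β h (sh a x η) q else 0

lemma ww_nonneg (β : ℝ) (h : Vec d) (a b' : ℕ) (x y : Site d) (η : Env d)
    (q : Fin (b' - a) → Step d) : 0 ≤ ww β h a b' x y η q := by
  unfold ww
  split_ifs
  · exact (wgt_pos _ _ _ _).le
  · exact le_rfl

lemma sg_eq (β : ℝ) (h : Vec d) (a b' : ℕ) (x y : Site d) (η : Env d) :
    sg β h a b' x y η = ∑ q, ww β h a b' x y η q := by
  unfold sg ww
  rw [K20.PP_eq20]

lemma sg_row {t a b' : ℕ} (hat : a < t) (htb : t ≤ b') (β : ℝ) (h : Vec d) (x y : Site d)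
    (η η' : Env d) (hη : ∀ p : ℕ × Site d, p.1 ≠ t → η' p = η p) :
    sg β h a b' x y η' = ∑ q, ww β h a b' x y η q *
      Real.exp (β * (fun s : Site d => η' (t, s) - η (t, s)) (pos q (t - a) + x)) := by
  rw [sg_eq]
  refine Finset.sum_congr rfl fun q _ => ?_
  unfold ww
  rw [wgt_row hat (by omega) β h x η η' hη q, ite_mul, zero_mul]

open Classical in
/-- The weight of the walks of the segment through `(t, z)`. -/
noncomputable def thr (β : ℝ) (h : Vec d) (a b' t : ℕ) (x y z : Site d) (η : Env d) : ℝ :=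
  ∑ q, if pos q (t - a) + x = z then ww β h a b' x y η q else 0

lemma thr_nonneg (β : ℝ) (h : Vec d) (a b' t : ℕ) (x y z : Site d) (η : Env d) :
    0 ≤ thr β h a b' t x y z η :=
  Finset.sum_nonneg fun q _ => by
    split_ifs
    · exact ww_nonneg _ _ _ _ _ _ _ _
    · exact le_rfl

lemma thr_le (β : ℝ) (h : Vec d) (a b' t : ℕ) (x y z : Site d) (η : Env d) :
    thr β h a b' t x y z η ≤ sg β h a b' x y η := by
  rw [sg_eq]
  refine Finset.sum_le_sum fun q _ => ?_
  split_ifs
  · exact le_rfl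
  · exact ww_nonneg _ _ _ _ _ _ _ _

lemma thr_eq {t a b' : ℕ} (hat : a < t) (htb : t ≤ b') (β : ℝ) (h : Vec d) (x y z : Site d)
    (η : Env d) : thr β h a b' t x y z η = sg β h a t x z η * sg β h t b' z y η := by
  classical
  have h1 := K20.chain20 β h (sh a x η) 1 ![t - a, b' - a] ![z - x, y - x] (b' - a) (by
    intro i j hij
    fin_cases i <;> fin_cases j
    · exact le_rfl
    · show t - a ≤ b' - a
      omega
    · exact absurd hij (by decide)
    · exact le_rfl) rfl
  have h2 : PP β h (sh a x η) (![t - a, b' - a] 0) (![z - x, y - x] 0) *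
      ∏ i : Fin 1, sg β h (![t - a, b' - a] i.castSucc) (![t - a, b' - a] i.succ)
        (![z - x, y - x] i.castSucc) (![z - x, y - x] i.succ) (sh a x η) =
      sg β h a t x z η * sg β h t b' z y η := by
    rw [Fin.prod_univ_one]
    have h3 : sh (t - a) (z - x) (sh a x η) = sh t z η := by
      funext p
      unfold sh
      refine congrArg η (Prod.ext ?_ ?_)
      · show p.1 + (t - a) + a = p.1 + t
        omega
      · show p.2 + (z - x) + x = p.2 + z
        abel
    have h4 : b' - a - (t - a) = b' - t := by omega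
    have h5 : y - x - (z - x) = y - z := by abel
    show PP β h (sh a x η) (t - a) (z - x) *
      PP β h (sh (t - a) (z - x) (sh a x η)) (b' - a - (t - a)) (y - x - (z - x)) = _
    rw [h3, h4, h5]
    rfl
  rw [← h2, h1]
  unfold thr
  refine Finset.sum_congr rfl fun q _ => ?_
  have h6 : (∀ i : Fin (1 + 1), pos q (![t - a, b' - a] i) = ![z - x, y - x] i) ↔
      pos q (t - a) = z - x ∧ pos q (b' - a) = y - x := by
    rw [Fin.forall_fin_two]
    rfl
  unfold ww
  by_cases hq : pos q (t - a) = z - x ∧ pos q (b' - a) = y - x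
  · rw [if_pos (h6.2 hq), if_pos (by rw [hq.1]; abel), if_pos hq.2]
  · rw [if_neg fun h' => hq (h6.1 h')]
    by_cases hq1 : pos q (t - a) + x = z
    · rw [if_pos hq1, if_neg fun h' => hq ⟨by rw [← hq1]; abel, h'⟩]
    · rw [if_neg hq1]

open Classical in
/-- The law of the position at the time `t`. -/
lemma Qt_eq (β : ℝ) (h : Vec d) (η : Env d) {n t : ℕ} (ht : t ≤ n) (z : Site d) :
    Qt β h n t z η = ∑ q : Fin n → Step d, wgt β h η q / Z β h η n *
      if pos q t = z then 1 else 0 := by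
  have h1 := K20.full20 β h η (k := 0) (fun _ => t) (fun _ => z) (fun _ _ _ => le_rfl)
    (n := n) ht
  simp only [Finset.univ_eq_empty, Finset.prod_empty, mul_one] at h1
  unfold Qt
  rw [h1, Finset.sum_div]
  refine Finset.sum_congr rfl fun q _ => ?_
  by_cases hq : pos q t = z
  · rw [if_pos fun _ => hq, if_pos hq, mul_one]
  · rw [if_neg fun h' => hq (h' 0), if_neg hq, zero_div, mul_zero]

lemma Qt_nonneg (hd : 0 < d) (β : ℝ) (h : Vec d) (η : Env d) (n t : ℕ) (z : Site d) :
    0 ≤ Qt β h n t z η :=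
  div_nonneg (mul_nonneg (PP_nonneg _ _ _ _ _) (Z_pos hd _ _ _ _).le) (Z_pos hd _ _ _ _).le

lemma Qt_sum (hd : 0 < d) (β : ℝ) (h : Vec d) (η : Env d) {n t : ℕ} (ht : t ≤ n) :
    ∑ z ∈ boxF d n, Qt β h n t z η = 1 := by
  classical
  simp only [Qt_eq β h η ht]
  rw [Finset.sum_comm]
  refine Eq.trans (Finset.sum_congr rfl fun q _ => ?_) (K20.sum_wgt20 hd β h η n)
  rw [← Finset.mul_sum, Finset.sum_ite_eq, if_pos (pos_mem_box q t), mul_one]

/-- The mass of the walks through `(t, z)`, `(a, x)` and `(b', y)`. -/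
lemma pab_thr (hd : 0 < d) {t a b' n : ℕ} (β : ℝ) (h : Vec d) (η : Env d) (x y z : Site d) :
    pab β h n a b' x y η * (thr β h a b' t x y z η / sg β h a b' x y η) =
      PP β h η a x * thr β h a b' t x y z η * Z β h (sh b' y η) (n - b') / Z β h η n := by
  have h1 := thr_nonneg β h a b' t x y z η
  have h2 := thr_le β h a b' t x y z η
  have hZ := (Z_pos hd β h η n).ne'
  unfold pab
  by_cases hs : sg β h a b' x y η = 0
  · have h3 : thr β h a b' t x y z η = 0 := le_antisymm (by rw [← hs]; exact h2) h1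
    rw [h3, hs]
    simp
  · field_simp

lemma sum_pab_thr (hd : 0 < d) {t a b' n : ℕ} (hat : a < t) (htb : t ≤ b') (hbn : b' ≤ n) (β : ℝ)
    (h : Vec d) (η : Env d) (z : Site d) :
    ∑ x ∈ boxF d n, ∑ y ∈ boxF d n, pab β h n a b' x y η *
      (thr β h a b' t x y z η / sg β h a b' x y η) = Qt β h n t z η := by
  classical
  have h1 : ∀ x y : Site d, pab β h n a b' x y η *
      (thr β h a b' t x y z η / sg β h a b' x y η) =
      ∑ q : Fin n → Step d, wgt β h η q / Z β h η n *
        if pos q a = x ∧ pos q t = z ∧ pos q b' = y then 1 else 0 := by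
    intro x y
    rw [pab_thr hd, thr_eq hat htb]
    have h2 := K20.full20 β h η (k := 2) ![a, t, b'] ![x, z, y] (by
      refine Fin.monotone_iff_le_succ.2 fun i => ?_
      fin_cases i
      · exact hat.le
      · exact htb) (n := n) hbn
    have h3 : PP β h η (![a, t, b'] 0) (![x, z, y] 0) *
        (∏ i : Fin 2, sg β h (![a, t, b'] i.castSucc) (![a, t, b'] i.succ) (![x, z, y] i.castSucc)
          (![x, z, y] i.succ) η) *
        Z β h (sh (![a, t, b'] (Fin.last 2)) (![x, z, y] (Fin.last 2)) η)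
          (n - ![a, t, b'] (Fin.last 2)) =
        PP β h η a x * (sg β h a t x z η * sg β h t b' z y η) * Z β h (sh b' y η) (n - b') := by
      rw [Fin.prod_univ_two]
      rfl
    rw [← h3, h2, Finset.sum_div]
    refine Finset.sum_congr rfl fun q _ => ?_
    have h4 : (∀ i : Fin (2 + 1), pos q (![a, t, b'] i) = ![x, z, y] i) ↔
        pos q a = x ∧ pos q t = z ∧ pos q b' = y := by
      constructor
      · intro h'
        exact ⟨h' 0, h' 1, h' 2⟩
      · rintro ⟨e1, e2, e3⟩ i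
        fin_cases i
        · exact e1
        · exact e2
        · exact e3
    by_cases hq : pos q a = x ∧ pos q t = z ∧ pos q b' = y
    · rw [if_pos (h4.2 hq), if_pos hq, mul_one]
    · rw [if_neg fun h' => hq (h4.1 h'), if_neg hq, zero_div, mul_zero]
  simp only [h1]
  rw [Finset.sum_congr rfl fun x _ => Finset.sum_comm, Finset.sum_comm,
    Qt_eq β h η (htb.trans hbn)]
  refine Finset.sum_congr rfl fun q _ => ?_
  simp only [← Finset.mul_sum]
  congr 1
  rw [Finset.sum_eq_single_of_mem (pos q a) (pos_mem_box q a),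
    Finset.sum_eq_single_of_mem (pos q b') (pos_mem_box q b')]
  · by_cases hz : pos q t = z
    · rw [if_pos ⟨rfl, hz, rfl⟩, if_pos hz]
    · rw [if_neg fun h' => hz h'.2.1, if_neg hz]
  · intro y _ hy
    exact if_neg fun h' => hy h'.2.2.symm
  · intro x _ hx
    exact Finset.sum_eq_zero fun y _ => if_neg fun h' => hx h'.1.symm

end Seg

/-! ### The gain -/

section Gain

variable {d : ℕ} {ρ : Measure ℝ} {β b : ℝ}

lemma cl_abs {b : ℝ} (hb : 0 ≤ b) (x : ℝ) : |cl b x| ≤ b := by
  unfold cl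
  rw [abs_le]
  exact ⟨le_max_left _ _, max_le (by linarith) (min_le_left _ _)⟩

lemma cl_id {b x : ℝ} (hx : x ∈ Set.Icc (-b) b) : cl b x = x := by
  unfold cl
  rw [min_eq_right hx.2, max_eq_right hx.1]

/-- The environments with the bounded values of the row `t` replaced. -/
lemma mx_off (b : ℝ) (t : ℕ) (η ξ : Env d) (p : ℕ × Site d) (hp : p.1 ≠ t) :
    mx b t η ξ p = η p := by
  unfold mx
  exact if_neg fun h => hp h.1

lemma mx_diff {b : ℝ} (hb : 0 ≤ b) (t : ℕ) (η ξ : Env d) (s : Site d) :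
    |mx b t η ξ (t, s) - η (t, s)| ≤ 2 * b := by
  unfold mx
  by_cases h : |η (t, s)| ≤ b
  · rw [if_pos ⟨rfl, h⟩]
    have h1 := cl_abs hb (ξ (t, s))
    have h2 := abs_sub (cl b (ξ (t, s))) (η (t, s))
    linarith
  · rw [if_neg fun h' => h h'.2, sub_self, abs_zero]
    linarith

lemma mx_diff2 {b : ℝ} (hb : 0 ≤ b) (t : ℕ) (η ξ ξ' : Env d) (s : Site d) :
    |mx b t η ξ (t, s) - mx b t η ξ' (t, s)| ≤ 2 * b := by
  unfold mx
  by_cases h : |η (t, s)| ≤ b
  · rw [if_pos ⟨rfl, h⟩, if_pos ⟨rfl, h⟩]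
    have h1 := cl_abs hb (ξ (t, s))
    have h2 := abs_sub (cl b (ξ (t, s))) (cl b (ξ' (t, s)))
    have h3 := cl_abs hb (ξ' (t, s))
    linarith
  · rw [if_neg fun h' => h h'.2, if_neg fun h' => h h'.2, sub_self, abs_zero]
    linarith

lemma abs_mul_le {β b x : ℝ} (hx : |x| ≤ 2 * b) : |β * x| ≤ 2 * |β| * b := by
  rw [abs_mul]
  nlinarith [abs_nonneg β, mul_le_mul_of_nonneg_left hx (abs_nonneg β)]

/-- The ratio of two resampled segments. -/
lemma sg_ratio {t a b' : ℕ} (hat : a < t) (htb : t ≤ b') (hb : 0 ≤ b) (h : Vec d) (x y : Site d)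
    (η ξ ξ' : Env d) : sg β h a b' x y (mx b t η ξ) ≤
      Real.exp (2 * |β| * b) * sg β h a b' x y (mx b t η ξ') := by
  rw [sg_row hat htb β h x y (mx b t η ξ') (mx b t η ξ) fun p hp => by
    rw [mx_off b t η ξ p hp, mx_off b t η ξ' p hp], sg_eq β h a b' x y (mx b t η ξ')]
  exact (sum_bd _ (ww_nonneg β h a b' x y _) _
    fun q => abs_mul_le (mx_diff2 hb t η ξ ξ' _)).2

/-- The logarithm of the gain is bounded. -/
theorem uab_bd (hb : 0 ≤ b) (h : Vec d) {t a b' : ℕ} (hat : a < t) (htb : t ≤ b')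
    (x y : Site d) (η ξ : Env d) : |Real.log (uab ρ β b h t a b' x y η ξ)| ≤ 2 * |β| * b := by
  have hM : 0 ≤ 2 * |β| * b := by positivity
  unfold uab
  by_cases h0 : sg β h a b' x y (mx b t η fun _ => c0 ρ β b) = 0
  · rw [if_pos h0, Real.log_one, abs_zero]
    exact hM
  rw [if_neg h0]
  have p0 : 0 < sg β h a b' x y (mx b t η fun _ => c0 ρ β b) :=
    lt_of_le_of_ne (PP_nonneg _ _ _ _ _) (Ne.symm h0)
  have r1 := sg_ratio (β := β) hat htb hb h x y η ξ fun _ => c0 ρ β b
  have r2 := sg_ratio (β := β) hat htb hb h x y η (fun _ => c0 ρ β b) ξ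
  have p1 : 0 < sg β h a b' x y (mx b t η ξ) := by
    by_contra hc
    have : Real.exp (2 * |β| * b) * sg β h a b' x y (mx b t η ξ) ≤ 0 :=
      mul_nonpos_of_nonneg_of_nonpos (Real.exp_pos _).le (not_lt.1 hc)
    linarith
  rw [abs_le, Real.log_div p1.ne' h0]
  have l1 := Real.log_le_log p1 r1
  have l2 := Real.log_le_log p0 r2
  rw [Real.log_mul (Real.exp_ne_zero _) h0, Real.log_exp] at l1
  rw [Real.log_mul (Real.exp_ne_zero _) p1.ne', Real.log_exp] at l2
  constructor <;> linarith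

/-- The variance of a bounded value. -/
noncomputable def v0 (ρ : Measure ℝ) (b : ℝ) : ℝ :=
  ∫ u, ∫ r, (cl b u - cl b r) ^ 2 ∂(rb ρ b) ∂(rb ρ b)

lemma cl_int [IsProbabilityMeasure ρ] (hb : HB ρ b) :
    Integrable (fun w : ℝ × ℝ => (cl b w.1 - cl b w.2) ^ 2) ((rb ρ b).prod (rb ρ b)) := by
  have := M66.prob_rb hb
  refine Integrable.of_bound (C := (2 * b) ^ 2) ?_ (Filter.Eventually.of_forall fun w => ?_)
  · exact (((M66.cl_meas b).comp measurable_fst).sub
      ((M66.cl_meas b).comp measurable_snd)).pow_const 2 |>.aestronglyMeasurable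
  · rw [Real.norm_eq_abs, abs_of_nonneg (sq_nonneg _), sq_le_sq]
    have h1 := cl_abs hb.b0.le w.1
    have h2 := abs_sub (cl b w.1) (cl b w.2)
    have h3 := cl_abs hb.b0.le w.2
    have h4 : |2 * b| = 2 * b := abs_of_nonneg (by linarith [hb.b0])
    rw [h4]
    linarith

lemma v0_pos [IsProbabilityMeasure ρ] (hb : HB ρ b) : 0 < v0 ρ b := by
  have := M66.prob_rb hb
  have hI := cl_int hb
  have h0 : 0 ≤ v0 ρ b := integral_nonneg fun u => integral_nonneg fun r => sq_nonneg _
  refine lt_of_le_of_ne h0 fun heq => ?_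
  have h1 : ∫ w : ℝ × ℝ, (cl b w.1 - cl b w.2) ^ 2 ∂((rb ρ b).prod (rb ρ b)) = 0 := by
    rw [integral_prod _ hI]
    exact heq.symm
  have h2 := (integral_eq_zero_iff_of_nonneg (fun w : ℝ × ℝ => sq_nonneg _) hI).1 h1
  have h3 := Measure.ae_ae_of_ae_prod h2
  have h4 : ∀ᵐ u ∂(rb ρ b), u ∈ Set.Icc (-b) b := by
    unfold rb
    exact ProbabilityTheory.ae_cond_mem measurableSet_Icc
  obtain ⟨u, hu, hu2⟩ := (h3.and h4).exists
  have h5 : ∀ᵐ r ∂(rb ρ b), r = u := by
    filter_upwards [hu, h4] with r hr hr2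
    have h6 : (cl b u - cl b r) ^ 2 = 0 := hr
    rw [cl_id hu2, cl_id hr2] at h6
    have h7 := pow_eq_zero_iff (two_ne_zero) |>.1 h6
    linarith
  refine hb.nc u ?_
  have h8 : rb ρ b {u}ᶜ = 0 := by
    have : ∀ᵐ r ∂(rb ρ b), r ∈ ({u} : Set ℝ) := h5
    exact this
  exact (prob_compl_eq_zero_iff (measurableSet_singleton u)).1 h8

/-- The influence of the site `(t, z)` on the logarithm of the gain. -/
lemma uab_site {t a b' : ℕ} (hat : a < t) (htb : t ≤ b') (hb : 0 ≤ b) (h : Vec d)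
    (x y z : Site d) (η ξ : Env d) (r : ℝ) (hz : |η (t, z)| ≤ b) :
    Real.exp (-(2 * (2 * |β| * b))) * (thr β h a b' t x y z η / sg β h a b' x y η) *
      (|β| * |cl b (ξ (t, z)) - cl b r|) ≤
      |Real.log (uab ρ β b h t a b' x y η ξ) -
        Real.log (uab ρ β b h t a b' x y η (Function.update ξ (t, z) r))| := by
  classical
  by_cases h0 : sg β h a b' x y η = 0
  · rw [h0, div_zero, mul_zero, zero_mul]
    exact abs_nonneg _
  have p0 : 0 < sg β h a b' x y η := lt_of_le_of_ne (PP_nonneg _ _ _ _ _) (Ne.symm h0)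
  have ex : ∀ ζ : Env d, sg β h a b' x y (mx b t η ζ) = ∑ q, ww β h a b' x y η q *
      Real.exp (β * (fun s : Site d => mx b t η ζ (t, s) - η (t, s)) (pos q (t - a) + x)) :=
    fun ζ => sg_row hat htb β h x y η (mx b t η ζ) fun p hp => mx_off b t η ζ p hp
  have pp : ∀ ζ : Env d, 0 < sg β h a b' x y (mx b t η ζ) := by
    intro ζ
    rw [ex ζ]
    refine lt_of_lt_of_le (mul_pos (Real.exp_pos _) ?_) (sum_bd _ (ww_nonneg β h a b' x y _) _
      fun q => abs_mul_le (mx_diff hb t η ζ _)).1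
    rw [← sg_eq]
    exact p0
  have hu : ∀ ζ : Env d, Real.log (uab ρ β b h t a b' x y η ζ) =
      Real.log (sg β h a b' x y (mx b t η ζ)) -
        Real.log (sg β h a b' x y (mx b t η fun _ => c0 ρ β b)) := by
    intro ζ
    unfold uab
    rw [if_neg (pp _).ne', Real.log_div (pp _).ne' (pp _).ne']
  rw [hu, hu, sub_sub_sub_cancel_right, ex, ex]
  have key := two_dir (ww β h a b' x y η) (ww_nonneg β h a b' x y η)
    (fun q => pos q (t - a) + x) β (2 * |β| * b)
    (fun s : Site d => mx b t η ξ (t, s) - η (t, s))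
    (fun s : Site d => mx b t η (Function.update ξ (t, z) r) (t, s) - η (t, s)) z
    (by
      intro s hs
      have hne : ((t, s) : ℕ × Site d) ≠ (t, z) := fun h' => hs (Prod.ext_iff.1 h').2
      have e3 : mx b t η ξ (t, s) = mx b t η (Function.update ξ (t, z) r) (t, s) := by
        unfold mx
        rw [Function.update_of_ne hne]
      show mx b t η ξ (t, s) - η (t, s) = _
      rw [e3])
    (fun s => abs_mul_le (mx_diff hb t η ξ s)) (fun s => abs_mul_le (mx_diff hb t η _ s))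
    (by rw [← sg_eq]; exact p0)
  rw [← sg_eq] at key
  have hv : (fun s : Site d => mx b t η ξ (t, s) - η (t, s)) z -
      (fun s : Site d => mx b t η (Function.update ξ (t, z) r) (t, s) - η (t, s)) z =
      cl b (ξ (t, z)) - cl b r := by
    have e1 : mx b t η ξ (t, z) = cl b (ξ (t, z)) := by
      unfold mx
      exact if_pos ⟨rfl, hz⟩
    have e2 : mx b t η (Function.update ξ (t, z) r) (t, z) = cl b r := by
      unfold mx
      rw [if_pos ⟨rfl, hz⟩, Function.update_self]
    simp only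
    rw [e1, e2]
    ring
  rw [hv] at key
  unfold thr
  convert key

/-- The variance of the gain is at least the square of the mass of a bounded site. -/
theorem var_site [IsProbabilityMeasure ρ] (hb : HB ρ b) {t a b' : ℕ} (hat : a < t) (htb : t ≤ b')
    (h : Vec d) (x y z : Site d) (η : Env d) (hz : |η (t, z)| ≤ b) :
    β ^ 2 * Real.exp (-(8 * |β| * b)) * v0 ρ b / 4 *
      (thr β h a b' t x y z η / sg β h a b' x y η) ^ 2 ≤
      ∫ ξ', (Real.log (uab ρ β b h t a b' x y η ξ') - psab ρ β b h t a b' x y η) ^ 2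
        ∂(law d (rb ρ b)) := by
  classical
  have := M66.prob_rb hb
  set m := psab ρ β b h t a b' x y η with hm
  set q := thr β h a b' t x y z η / sg β h a b' x y η with hq
  set F : Env d → ℝ := fun ξ => Real.log (uab ρ β b h t a b' x y η ξ) with hF
  have hFm : Measurable F := Real.measurable_log.comp
    (M66.uab_meas ρ β b h t a b' x y measurable_const measurable_id)
  have hFb : ∀ ξ, |F ξ| ≤ 2 * |β| * b := fun ξ => uab_bd hb.b0.le h hat htb x y η ξ
  have hGb : ∀ ξ, ‖(F ξ - m) ^ 2‖ ≤ (2 * |β| * b + |m|) ^ 2 := by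
    intro ξ
    rw [Real.norm_eq_abs, abs_of_nonneg (sq_nonneg _), sq_le_sq]
    have h1 := abs_sub (F ξ) m
    have h2 := hFb ξ
    have h3 : 0 ≤ 2 * |β| * b := (abs_nonneg _).trans h2
    rw [abs_of_nonneg (by positivity : 0 ≤ 2 * |β| * b + |m|)]
    linarith
  have hG : Integrable (fun ξ => (F ξ - m) ^ 2) (law d (rb ρ b)) :=
    Integrable.of_bound ((hFm.sub_const m).pow_const 2).aestronglyMeasurable _
      (Filter.Eventually.of_forall hGb)
  have mp := D85.mp_update (ρ := rb ρ b) ((t, z) : ℕ × Site d)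
  have mp1 : MeasurePreserving (Prod.fst : Env d × ℝ → Env d)
      ((law d (rb ρ b)).prod (rb ρ b)) (law d (rb ρ b)) := measurePreserving_fst
  have i1 : ∫ w, (F (Function.update w.1 (t, z) w.2) - m) ^ 2 ∂((law d (rb ρ b)).prod (rb ρ b)) =
      ∫ ξ, (F ξ - m) ^ 2 ∂(law d (rb ρ b)) := LawU_integral mp hG.aestronglyMeasurable
  have i2 : ∫ w, (F w.1 - m) ^ 2 ∂((law d (rb ρ b)).prod (rb ρ b)) =
      ∫ ξ, (F ξ - m) ^ 2 ∂(law d (rb ρ b)) := LawU_integral mp1 hG.aestronglyMeasurable
  have j1 : Integrable (fun w : Env d × ℝ => (F (Function.update w.1 (t, z) w.2) - m) ^ 2)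
      ((law d (rb ρ b)).prod (rb ρ b)) := mp.integrable_comp_of_integrable hG
  have j2 : Integrable (fun w : Env d × ℝ => (F w.1 - m) ^ 2)
      ((law d (rb ρ b)).prod (rb ρ b)) := mp1.integrable_comp_of_integrable hG
  have mp2 : MeasurePreserving (fun w : Env d × ℝ => (w.1 (t, z), w.2))
      ((law d (rb ρ b)).prod (rb ρ b)) ((rb ρ b).prod (rb ρ b)) :=
    (D85.mp_coord (ρ := rb ρ b) ((t, z) : ℕ × Site d)).prod (MeasurePreserving.id _)
  have hI := cl_int hb
  have j3 : Integrable (fun w : Env d × ℝ => (cl b (w.1 (t, z)) - cl b w.2) ^ 2)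
      ((law d (rb ρ b)).prod (rb ρ b)) := mp2.integrable_comp_of_integrable hI
  have i3 : ∫ w, (cl b (w.1 (t, z)) - cl b w.2) ^ 2 ∂((law d (rb ρ b)).prod (rb ρ b)) =
      v0 ρ b := by
    have h1 := LawU_integral mp2 hI.aestronglyMeasurable
    rw [h1, integral_prod _ hI]
    rfl
  set c := β ^ 2 * Real.exp (-(8 * |β| * b)) / 4 * q ^ 2 with hc
  have hpt : ∀ w : Env d × ℝ, 2 * (c * (cl b (w.1 (t, z)) - cl b w.2) ^ 2) ≤
      (F w.1 - m) ^ 2 + (F (Function.update w.1 (t, z) w.2) - m) ^ 2 := by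
    intro w
    have h1 := uab_site (ρ := ρ) (β := β) hat htb hb.b0.le h x y z η w.1 w.2 hz
    have h2 : 0 ≤ Real.exp (-(2 * (2 * |β| * b))) * q *
        (|β| * |cl b (w.1 (t, z)) - cl b w.2|) := by
      have : 0 ≤ q := div_nonneg (thr_nonneg _ _ _ _ _ _ _ _ _) (PP_nonneg _ _ _ _ _)
      positivity
    have h3 : (Real.exp (-(2 * (2 * |β| * b))) * q *
        (|β| * |cl b (w.1 (t, z)) - cl b w.2|)) ^ 2 ≤
        (F w.1 - F (Function.update w.1 (t, z) w.2)) ^ 2 := by
      rw [← sq_abs (F w.1 - F (Function.update w.1 (t, z) w.2))]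
      exact pow_le_pow_left₀ h2 h1 2
    have h4 : (Real.exp (-(2 * (2 * |β| * b))) * q *
        (|β| * |cl b (w.1 (t, z)) - cl b w.2|)) ^ 2 =
        4 * (c * (cl b (w.1 (t, z)) - cl b w.2) ^ 2) := by
      have e1 : Real.exp (-(8 * |β| * b)) = Real.exp (-(2 * (2 * |β| * b))) ^ 2 := by
        rw [← Real.exp_nat_mul]
        congr 1
        push_cast
        ring
      rw [hc, mul_pow, mul_pow, mul_pow, sq_abs, sq_abs, e1]
      ring
    rw [h4] at h3
    nlinarith [sq_nonneg (F w.1 - m + (F (Function.update w.1 (t, z) w.2) - m))]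
  have hint := integral_mono (((j3.const_mul c).const_mul 2)) (j2.add j1) hpt
  have e1 : ∫ w, 2 * (c * (cl b (w.1 (t, z)) - cl b w.2) ^ 2)
      ∂((law d (rb ρ b)).prod (rb ρ b)) = 2 * (c * v0 ρ b) := by
    rw [integral_const_mul, integral_const_mul, i3]
  have e2 : ∫ w, ((fun w : Env d × ℝ => (F w.1 - m) ^ 2) + fun w : Env d × ℝ =>
      (F (Function.update w.1 (t, z) w.2) - m) ^ 2) w ∂((law d (rb ρ b)).prod (rb ρ b)) =
      2 * ∫ ξ, (F ξ - m) ^ 2 ∂(law d (rb ρ b)) := by
    have h1 := integral_add j2 j1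
    rw [i1, i2] at h1
    rw [two_mul, ← h1]
    rfl
  have e3 : β ^ 2 * Real.exp (-(8 * |β| * b)) * v0 ρ b / 4 * q ^ 2 = c * v0 ρ b := by
    rw [hc]
    ring
  rw [e3]
  have h5 : 2 * (c * v0 ρ b) ≤ 2 * ∫ ξ, (F ξ - m) ^ 2 ∂(law d (rb ρ b)) := by
    rw [← e1, ← e2]
    exact hint
  linarith

/-- **The site half of leaf V.** -/
theorem siteV [IsProbabilityMeasure ρ] (hβ : β ≠ 0) (hb : HB ρ b) : ∃ c : ℝ, 0 < c ∧
    ∀ (h : Vec d) (n t a b' : ℕ), a < t → t ≤ b' → b' ≤ n → ∀ η : Env d,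
      c * (∑ z ∈ boxF d n, if |η (t, z)| ≤ b then Qt β h n t z η ^ 3 else 0) ≤
        ∑ x ∈ boxF d n, ∑ y ∈ boxF d n, pab β h n a b' x y η *
          (∫ ξ', (Real.log (uab ρ β b h t a b' x y η ξ') - psab ρ β b h t a b' x y η) ^ 2
            ∂(law d (rb ρ b))) := by
  have hv := v0_pos hb
  refine ⟨β ^ 2 * Real.exp (-(8 * |β| * b)) * v0 ρ b / 4, by positivity, ?_⟩
  intro h n t a b' hat htb hbn η
  set c := β ^ 2 * Real.exp (-(8 * |β| * b)) * v0 ρ b / 4 with hc
  have hc0 : 0 < c := by rw [hc]; positivity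
  set V : Site d → Site d → ℝ := fun x y =>
    ∫ ξ', (Real.log (uab ρ β b h t a b' x y η ξ') - psab ρ β b h t a b' x y η) ^ 2
      ∂(law d (rb ρ b)) with hV
  rcases Nat.eq_zero_or_pos d with hd | hd
  · subst hd
    have : IsEmpty (Fin n → Step 0) := ⟨fun q => (q ⟨0, by omega⟩).1.elim0⟩
    have hZ : Z β h η n = 0 := by
      rw [Z_eq]
      exact Finset.sum_of_isEmpty _
    have hQ : ∀ z, Qt β h n t z η = 0 := fun z => by
      unfold Qt
      rw [hZ, div_zero]
    have hp : ∀ x y, pab β h n a b' x y η = 0 := fun x y => by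
      unfold pab
      rw [hZ, div_zero]
    simp [hQ, hp]
  set R := ∑ x ∈ boxF d n, ∑ y ∈ boxF d n, pab β h n a b' x y η * V x y with hR
  have hkey : ∀ z : Site d, |η (t, z)| ≤ b → c * Qt β h n t z η ^ 2 ≤ R := by
    intro z hz
    have h1 := sum_pab_thr hd hat htb hbn β h η z
    have h2 := K20.sum_pab_one20 hd β h η (hat.le.trans htb) hbn
    set Q := Qt β h n t z η with hQ
    have h3 : ∀ x y : Site d, pab β h n a b' x y η * V x y ≥ c * (2 * Q * (pab β h n a b' x y η *
        (thr β h a b' t x y z η / sg β h a b' x y η)) - Q ^ 2 * pab β h n a b' x y η) := by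
      intro x y
      have h4 := var_site (β := β) hb hat htb h x y z η hz
      have h5 := K20.pab_nonneg20 hd β h η n a b' x y
      have h6 := mul_le_mul_of_nonneg_left h4 h5
      have h7 := mul_nonneg (mul_nonneg hc0.le h5)
        (sq_nonneg (thr β h a b' t x y z η / sg β h a b' x y η - Q))
      rw [← hc] at h6
      have h8 : pab β h n a b' x y η * (c * (thr β h a b' t x y z η / sg β h a b' x y η) ^ 2) ≤
          pab β h n a b' x y η * V x y := h6
      nlinarith
    have h9 : ∑ x ∈ boxF d n, ∑ y ∈ boxF d n, c * (2 * Q * (pab β h n a b' x y η *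
        (thr β h a b' t x y z η / sg β h a b' x y η)) - Q ^ 2 * pab β h n a b' x y η) ≤ R :=
      Finset.sum_le_sum fun x _ => Finset.sum_le_sum fun y _ => h3 x y
    simp only [← Finset.mul_sum, Finset.sum_sub_distrib] at h9
    rw [h1, h2] at h9
    nlinarith
  have hR0 : 0 ≤ R := Finset.sum_nonneg fun x _ => Finset.sum_nonneg fun y _ =>
    mul_nonneg (K20.pab_nonneg20 hd β h η n a b' x y) (integral_nonneg fun _ => sq_nonneg _)
  have h10 : ∀ z ∈ boxF d n, c * (if |η (t, z)| ≤ b then Qt β h n t z η ^ 3 else 0) ≤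
      R * Qt β h n t z η := by
    intro z _
    have h11 := Qt_nonneg hd β h η n t z
    split_ifs with hz
    · have h12 := mul_le_mul_of_nonneg_right (hkey z hz) h11
      nlinarith
    · rw [mul_zero]
      exact mul_nonneg hR0 h11
  rw [Finset.mul_sum]
  refine (Finset.sum_le_sum h10).trans ?_
  rw [← Finset.mul_sum, Qt_sum hd β h η (htb.trans hbn), mul_one]

end Gain

end Pool.Agent.W_7d29a1_NV.S62

namespace Pool.Agent.W_7d29a1_NV

open MeasureTheory ProbabilityTheory Filter Topology Pool.Agent.W_MP_7d29a1_pr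
  Pool.Agent.W_7d29a1_h46 Pool.Agent.W_7d29a1_h46u Pool.Agent.W_7d29a1_D2.B35
  Pool.Agent.W_7d29a1_Q29

/-- **The site half of leaf V**, with the frozen names. -/
theorem siteV {d : ℕ} {ρ : Measure ℝ} {β b : ℝ} [IsProbabilityMeasure ρ] (hβ : β ≠ 0)
    (hb : HB ρ b) : ∃ c : ℝ, 0 < c ∧
    ∀ (h : Vec d) (n t a b' : ℕ), a < t → t ≤ b' → b' ≤ n → ∀ η : Env d,
      c * (∑ z ∈ boxF d n, if |η (t, z)| ≤ b then Qt β h n t z η ^ 3 else 0) ≤
        ∑ x ∈ boxF d n, ∑ y ∈ boxF d n, pab β h n a b' x y η *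
          (∫ ξ', (Real.log (uab ρ β b h t a b' x y η ξ') - psab ρ β b h t a b' x y η) ^ 2
            ∂(law d (rb ρ b))) := S62.siteV hβ hb

end Pool.Agent.W_7d29a1_NV
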