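import Pool.Agent.W_7d29a1_Q29.Defs29

/-!
Theorem NV: in very strong disorder the variance of the free energy is unbounded, in every
dimension. Definitions and frozen statements of the leaves.
-/

namespace Pool.Agent.W_7d29a1_NV

open MeasureTheory ProbabilityTheory Filter Topology Pool.Agent.W_MP_7d29a1_pr
  Pool.Agent.W_7d29a1_h46 Pool.Agent.W_7d29a1_h46u Pool.Agent.W_7d29a1_D2.B35
  Pool.Agent.W_7d29a1_Q29

/-! ### The abstract selection model

`S` classes with base masses `Q`, `k` independent rows `ω i`, gains `u i s (ω i)`. -/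

section Abs

variable {Ω S A : Type} [MeasurableSpace Ω] [Fintype S] [Fintype A] {k : ℕ}

/-- The weight of the class `s`. -/
noncomputable def wT (Q : S → ℝ) (u : Fin k → S → Ω → ℝ) (ω : Fin k → Ω) (s : S) : ℝ :=
  Q s * ∏ i, u i s (ω i)

/-- The total weight. -/
noncomputable def dT (Q : S → ℝ) (u : Fin k → S → Ω → ℝ) (ω : Fin k → Ω) : ℝ :=
  ∑ s, wT Q u ω s

/-- The law of the class. -/
noncomputable def prT (Q : S → ℝ) (u : Fin k → S → Ω → ℝ) (ω : Fin k → Ω) (s : S) : ℝ :=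
  wT Q u ω s / dT Q u ω

/-- The mean gain. -/
noncomputable def psT (P : Measure Ω) (u : Fin k → S → Ω → ℝ) (i : Fin k) (s : S) : ℝ :=
  ∫ x, Real.log (u i s x) ∂P

/-- The variance of the gain. -/
noncomputable def vaT (P : Measure Ω) (u : Fin k → S → Ω → ℝ) (i : Fin k) (s : S) : ℝ :=
  ∫ x, (Real.log (u i s x) - psT P u i s) ^ 2 ∂P

/-- The selection of the row `i`. -/
noncomputable def kaT (P : Measure Ω) (Q : S → ℝ) (u : Fin k → S → Ω → ℝ) (i : Fin k) : ℝ :=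
  ∫ ω, ∑ s, prT Q u ω s * (Real.log (u i s (ω i)) - psT P u i s) ∂(Measure.pi fun _ => P)

open Classical in
/-- The law of the coarse class `f s`. -/
noncomputable def clT (f : S → A) (Q : S → ℝ) (u : Fin k → S → Ω → ℝ) (ω : Fin k → Ω) (a : A) : ℝ :=
  ∑ s, if f s = a then prT Q u ω s else 0

/-- The relative entropy of the coarse class when the row `i` is resampled. -/
noncomputable def ouT (P : Measure Ω) (f : S → A) (Q : S → ℝ) (u : Fin k → S → Ω → ℝ)
    (i : Fin k) : ℝ :=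
  ∫ ω, ∫ x, ∑ a, clT f Q u ω a * (Real.log (clT f Q u ω a) -
    Real.log (clT f Q u (Function.update ω i x) a)) ∂P ∂(Measure.pi fun _ => P)

/-- The hypotheses of the selection model. -/
structure HT (P : Measure Ω) (Q : S → ℝ) (u : Fin k → S → Ω → ℝ) (B : ℝ) : Prop where
  q0 : ∀ s, 0 ≤ Q s
  q1 : ∑ s, Q s = 1
  um : ∀ i s, Measurable (u i s)
  lo : ∀ i s x, Real.exp (-B) ≤ u i s x
  hi : ∀ i s x, u i s x ≤ Real.exp B
  u1 : ∀ i s, ∫ x, u i s x ∂P = 1

end Abs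

open Classical in
/-- Leaf T1: the selection is bounded by the number of coarse classes, up to the defects. -/
def OneT : Prop := ∀ (Ω S A : Type) [MeasurableSpace Ω] [Fintype S] [Fintype A] (k : ℕ)
  (P : Measure Ω) [IsProbabilityMeasure P] (Q : S → ℝ) (u : Fin k → S → Ω → ℝ) (B : ℝ)
  (f : S → A) (AA : Finset A) (θ : ℝ), 1 ≤ B → 0 < θ → θ ≤ 1 / (2 * B) → HT P Q u B →
    (∀ i, ouT P f Q u i ≤ kaT P Q u i) ∧
    ∑ i, kaT P Q u i ≤ Real.log (1 + AA.card) / θ + 4 * B ^ 2 * θ * k +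
      2 * B * k * Real.exp (2 * B * k) * (∑ s, if f s ∈ AA then 0 else Q s) +
      2 * B * k * Real.exp (5 * B * k) * ∑ i, Real.sqrt (2 * (kaT P Q u i - ouT P f Q u i))

/-- Leaf T2: if the selection is small then the free energy fluctuates like a random walk. -/
def TwoT : Prop := ∀ (Ω S : Type) [MeasurableSpace Ω] [Fintype S] (k : ℕ)
  (P : Measure Ω) [IsProbabilityMeasure P] (Q : S → ℝ) (u : Fin k → S → Ω → ℝ) (B : ℝ),
  1 ≤ B → HT P Q u B →
    (∑ i, ∫ ω, ∑ s, prT Q u ω s * vaT P u i s ∂(Measure.pi fun _ => P)) /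
        (2 * B * Real.sqrt (k + 1)) ≤
      (∫ ω, ∫ ω', |Real.log (dT Q u ω) - Real.log (dT Q u ω')| ∂(Measure.pi fun _ => P)
        ∂(Measure.pi fun _ => P)) + ∑ i, kaT P Q u i +
      (2 * B * k + 1) * Real.sqrt (2 * ∑ i, kaT P Q u i)

/-! ### The polymer -/

section Pol

variable {d : ℕ}

/-- The law of a bounded value. -/
noncomputable def rb (ρ : Measure ℝ) (b : ℝ) : Measure ℝ := ProbabilityTheory.cond ρ (Set.Icc (-b) b)

/-- The constant value of the row in the base environment: `exp (β c₀) = ∫ exp (β x) d(rb)`. -/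
noncomputable def c0 (ρ : Measure ℝ) (β b : ℝ) : ℝ :=
  Real.log (∫ x, Real.exp (β * x) ∂(rb ρ b)) / β

/-- Truncation to `[-b, b]`. -/
noncomputable def cl (b x : ℝ) : ℝ := max (-b) (min b x)

/-- The bounded values of the row `t` of `η` are replaced by those of `ξ` (truncated). -/
noncomputable def mx (b : ℝ) (t : ℕ) (η ξ : Env d) : Env d :=
  open Classical in fun p => if p.1 = t ∧ |η p| ≤ b then cl b (ξ p) else η p

/-- The bounded values of the rows `T i` of `η` are replaced by those of `ξ i` (truncated). -/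
noncomputable def mxJ (b : ℝ) {k : ℕ} (T : Fin k → ℕ) (η : Env d) (ξ : Fin k → Env d) : Env d :=
  open Classical in fun p =>
    if h : (∃ i, T i = p.1) ∧ |η p| ≤ b then cl b (ξ h.1.choose p) else η p

/-- The weight of the segment from `(a, x)` to `(b', y)`. -/
noncomputable def sg (β : ℝ) (h : Vec d) (a b' : ℕ) (x y : Site d) (η : Env d) : ℝ :=
  PP β h (sh a x η) (b' - a) (y - x)

/-- The law of `(S_a, S_b')` for the polymer of length `n`. -/
noncomputable def pab (β : ℝ) (h : Vec d) (n a b' : ℕ) (x y : Site d) (η : Env d) : ℝ :=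
  PP β h η a x * sg β h a b' x y η * Z β h (sh b' y η) (n - b') / Z β h η n

/-- The gain of the segment `(a, x) → (b', y)` from the row `t`, with the values `ξ`, relative to
the base environment. -/
noncomputable def uab (ρ : Measure ℝ) (β b : ℝ) (h : Vec d) (t a b' : ℕ) (x y : Site d)
    (η ξ : Env d) : ℝ :=
  open Classical in
  if sg β h a b' x y (mx b t η fun _ => c0 ρ β b) = 0 then 1
  else sg β h a b' x y (mx b t η ξ) / sg β h a b' x y (mx b t η fun _ => c0 ρ β b)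

/-- The mean gain of the segment. -/
noncomputable def psab (ρ : Measure ℝ) (β b : ℝ) (h : Vec d) (t a b' : ℕ) (x y : Site d)
    (η : Env d) : ℝ :=
  ∫ ξ, Real.log (uab ρ β b h t a b' x y η ξ) ∂(law d (rb ρ b))

/-- The selection at the row `t` of the positions at the times `a < t ≤ b'`. -/
noncomputable def kap (ρ : Measure ℝ) (β b : ℝ) (h : Vec d) (n t a b' : ℕ) : ℝ :=
  ∫ η, ∫ ξ, ∑ x ∈ boxF d n, ∑ y ∈ boxF d n, pab β h n a b' x y (mx b t η ξ) *
    (Real.log (uab ρ β b h t a b' x y η ξ) - psab ρ β b h t a b' x y η)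
    ∂(law d (rb ρ b)) ∂(law d ρ)

/-- The mean variance of the gain. -/
noncomputable def vap (ρ : Measure ℝ) (β b : ℝ) (h : Vec d) (n t a b' : ℕ) : ℝ :=
  ∫ η, ∫ ξ, ∑ x ∈ boxF d n, ∑ y ∈ boxF d n, pab β h n a b' x y (mx b t η ξ) *
    (∫ ξ', (Real.log (uab ρ β b h t a b' x y η ξ') - psab ρ β b h t a b' x y η) ^ 2
      ∂(law d (rb ρ b))) ∂(law d (rb ρ b)) ∂(law d ρ)

/-! The separators: times `r 0 < ... < r k`, rows `r i < T i ≤ r (i + 1)`. -/

/-- The separator classes. -/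
abbrev Sp (d n k : ℕ) := Fin (k + 1) → {x : Site d // x ∈ boxF d n}

/-- The mass of the separators `s` in the environment `η`. -/
noncomputable def msp (β : ℝ) (h : Vec d) (n : ℕ) {k : ℕ} (r : Fin (k + 1) → ℕ) (s : Sp d n k)
    (η : Env d) : ℝ :=
  PP β h η (r 0) (s 0) * (∏ i : Fin k, sg β h (r i.castSucc) (r i.succ) (s i.castSucc) (s i.succ) η) *
    Z β h (sh (r (Fin.last k)) (s (Fin.last k)) η) (n - r (Fin.last k)) / Z β h η n

/-- The base masses. -/
noncomputable def Qsp (ρ : Measure ℝ) (β b : ℝ) (h : Vec d) (n : ℕ) {k : ℕ} (T : Fin k → ℕ)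
    (r : Fin (k + 1) → ℕ) (η : Env d) (s : Sp d n k) : ℝ :=
  msp β h n r s (mxJ b T η fun _ _ => c0 ρ β b)

/-- The gains. -/
noncomputable def usp (ρ : Measure ℝ) (β b : ℝ) (h : Vec d) (n : ℕ) {k : ℕ} (T : Fin k → ℕ)
    (r : Fin (k + 1) → ℕ) (η : Env d) (i : Fin k) (s : Sp d n k) (ξ : Env d) : ℝ :=
  uab ρ β b h (T i) (r i.castSucc) (r i.succ) (s i.castSucc) (s i.succ) η ξ

/-- The times are in order. -/
def Ord (n : ℕ) {k : ℕ} (T : Fin k → ℕ) (r : Fin (k + 1) → ℕ) : Prop :=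
  (∀ i : Fin k, r i.castSucc < T i ∧ T i ≤ r i.succ) ∧ r (Fin.last k) ≤ n

/-- The outer pins. -/
def fsp {n k : ℕ} (s : Sp d n k) : {x : Site d // x ∈ boxF d n} × {x : Site d // x ∈ boxF d n} :=
  (s 0, s (Fin.last k))

end Pol

/-- The standing hypotheses on `b`. -/
structure HB (ρ : Measure ℝ) (b : ℝ) : Prop where
  b0 : 0 < b
  half : 1 / 2 ≤ ρ.real (Set.Icc (-b) b)
  nc : ∀ c : ℝ, rb ρ b {c} ≠ 1

/-- The bound of the logarithmic gains. -/
noncomputable def Bc (β b : ℝ) : ℝ := 2 * |β| * b + 1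

section Leaves

variable (d : ℕ) (ρ : Measure ℝ) (β b : ℝ)

/-- Leaf E: for a fixed environment the separators form a selection model. -/
def EqT : Prop := ∀ (h : Vec d) (n k : ℕ) (T : Fin k → ℕ) (r : Fin (k + 1) → ℕ), Ord n T r →
  ∀ η : Env d,
    HT (law d (rb ρ b)) (Qsp ρ β b h n T r η) (usp ρ β b h n T r η) (Bc β b) ∧
    ∀ ξ : Fin k → Env d,
      (∀ s, prT (Qsp ρ β b h n T r η) (usp ρ β b h n T r η) ξ s = msp β h n r s (mxJ b T η ξ)) ∧
      Real.log (dT (Qsp ρ β b h n T r η) (usp ρ β b h n T r η) ξ) =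
        X β h (mxJ b T η ξ) n - X β h (mxJ b T η fun _ _ => c0 ρ β b) n

/-- Leaf E2: the first and the last marginal of the law of the separators. -/
def MarT : Prop := ∀ (β : ℝ) (h : Vec d) (n k : ℕ) (T : Fin k → ℕ) (r : Fin (k + 1) → ℕ),
  Ord n T r → ∀ (η : Env d) (x : {x : Site d // x ∈ boxF d n}),
    (∑ s : Sp d n k, open Classical in if s 0 = x then msp β h n r s η else 0) =
      Qt β h n (r 0) x η ∧
    (∑ s : Sp d n k, open Classical in if s (Fin.last k) = x then msp β h n r s η else 0) =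
      Qt β h n (r (Fin.last k)) x η

/-- Leaf W: the law of the environment with resampled rows. -/
def MixT : Prop := ∀ (k : ℕ) (T : Fin k → ℕ), Function.Injective T →
  MeasurePreserving (fun w : Env d × (Fin k → Env d) => mxJ b T w.1 w.2)
    ((law d ρ).prod (Measure.pi fun _ => law d (rb ρ b))) (law d ρ)

/-- Leaf W1: the same for one row. -/
def Mix1 : Prop := ∀ t : ℕ, MeasurePreserving (fun w : Env d × Env d => mx b t w.1 w.2)
    ((law d ρ).prod (law d (rb ρ b))) (law d ρ)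

/-- Leaf K: the selections of the model are those of the polymer. -/
def KapT : Prop := ∀ (h : Vec d) (n k : ℕ) (T : Fin k → ℕ) (r : Fin (k + 1) → ℕ), Ord n T r →
  ∀ i : Fin k,
    ∫ η, kaT (law d (rb ρ b)) (Qsp ρ β b h n T r η) (usp ρ β b h n T r η) i ∂(law d ρ) =
      kap ρ β b h n (T i) (r i.castSucc) (r i.succ) ∧
    ∫ η, ouT (law d (rb ρ b)) fsp (Qsp ρ β b h n T r η) (usp ρ β b h n T r η) i ∂(law d ρ) =
      kap ρ β b h n (T i) (r 0) (r (Fin.last k)) ∧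
    ∫ η, (∫ ξ, ∑ s, prT (Qsp ρ β b h n T r η) (usp ρ β b h n T r η) ξ s *
      vaT (law d (rb ρ b)) (usp ρ β b h n T r η) i s ∂(Measure.pi fun _ => law d (rb ρ b)))
        ∂(law d ρ) = vap ρ β b h n (T i) (r i.castSucc) (r i.succ)

/-- Leaf M: data processing and bounds. -/
def MonT : Prop := ∀ (h : Vec d) (n t a a' b₁ b₂ : ℕ), a' ≤ a → a < t → t ≤ b₁ → b₁ ≤ b₂ →
  b₂ ≤ n → 0 ≤ kap ρ β b h n t a b₁ ∧ kap ρ β b h n t a b₁ ≤ 4 * |β| * b ∧
    kap ρ β b h n t a' b₂ ≤ kap ρ β b h n t a b₁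

/-- Leaf V: the localisation. -/
def VarL : Prop := ∀ g : ℝ, 0 < g → ∃ c : ℝ, 0 < c ∧ ∀ h : Vec d,
  lam ρ β h + g ≤ Real.log (Phi h) + Real.log (∫ t, Real.exp (β * t) ∂ρ) →
  ∀ n : ℕ, A ρ β h n - A ρ β h (n - 1) ≤ lam ρ β h + g / 2 →
    ∀ t a b' : ℕ, a < t → t ≤ b' → b' < n → c ≤ vap ρ β b h n t a b'

open Classical in
/-- The good event: the law of `S_τ` is concentrated on few sites. -/
def GoodN {d : ℕ} (β : ℝ) (h : Vec d) (n τ : ℕ) (b₀ ε : ℝ) (η : Env d) : Prop :=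
  (((boxF d n).filter fun x => Real.exp (-b₀) ≤ Qt β h n τ x η).card : ℝ) ≤ Real.exp (ε * b₀) ∧
    (∑ x ∈ (boxF d n).filter fun x => Qt β h n τ x η < Real.exp (-b₀), Qt β h n τ x η) ≤
      Real.exp (-(b₀ / 4))

open Classical in
/-- Leaf P: the number of classes, from the moments of the partition function and a bounded
variance. -/
def MulT : Prop := ∀ h : Vec d, VSD ρ β h → ∀ K : ℝ, (∀ n : ℕ, Va ρ β h n ≤ K) →
  ∀ ε δ : ℝ, 0 < ε → 0 < δ → ∃ b₁ : ℝ, ∀ b₀ : ℝ, b₁ ≤ b₀ → ∃ N₀ : ℕ, ∀ N : ℕ, N₀ ≤ N →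
    (((Finset.Ico N (2 * N)).filter fun n => ∃ τ : ℕ, 1 ≤ τ ∧ τ ≤ n ∧
      ¬ (law d ρ).real {η | ¬ GoodN β h n τ b₀ ε η} ≤ δ).card : ℝ) ≤ δ * N

open Classical in
/-- Leaf N: the increments of the mean free energy are small at a positive fraction of the
lengths. -/
def IncT : Prop := ∀ (h : Vec d) (g : ℝ), 0 < g → ∃ c : ℝ, 0 < c ∧ ∃ N₀ : ℕ, ∀ N : ℕ, N₀ ≤ N →
  c * N ≤ (((Finset.Ico N (2 * N)).filter fun n =>
    A ρ β h n - A ρ β h (n - 1) ≤ lam ρ β h + g).card : ℝ)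

open Classical in
/-- Leaf O: `OneT` for the polymer. -/
def OneP : Prop := ∀ (h : Vec d) (n k : ℕ) (T : Fin k → ℕ) (r : Fin (k + 1) → ℕ), Ord n T r →
  ∀ θ ε b₀ δ : ℝ, 0 < θ → θ ≤ 1 / (2 * Bc β b) → 0 ≤ ε → 0 ≤ b₀ →
    (law d ρ).real {η | ¬ GoodN β h n (r 0) b₀ ε η} ≤ δ →
    (law d ρ).real {η | ¬ GoodN β h n (r (Fin.last k)) b₀ ε η} ≤ δ →
    (∀ i : Fin k, kap ρ β b h n (T i) (r 0) (r (Fin.last k)) ≤
      kap ρ β b h n (T i) (r i.castSucc) (r i.succ)) ∧
    ∑ i : Fin k, kap ρ β b h n (T i) (r i.castSucc) (r i.succ) ≤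
      4 * Bc β b * k * δ + Real.log (1 + Real.exp (2 * ε * b₀)) / θ + 4 * Bc β b ^ 2 * θ * k +
      4 * Bc β b * k * Real.exp (4 * Bc β b * k - b₀ / 4) +
      2 * Bc β b * k * Real.exp (5 * Bc β b * k) * ∑ i : Fin k,
        Real.sqrt (2 * (kap ρ β b h n (T i) (r i.castSucc) (r i.succ) -
          kap ρ β b h n (T i) (r 0) (r (Fin.last k))))

/-- Leaf Q: `TwoT` for the polymer. -/
def TwoP : Prop := ∀ (h : Vec d) (n k : ℕ) (T : Fin k → ℕ) (r : Fin (k + 1) → ℕ), Ord n T r →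
  (∑ i : Fin k, vap ρ β b h n (T i) (r i.castSucc) (r i.succ)) /
      (2 * Bc β b * Real.sqrt (k + 1)) ≤
    2 * Real.sqrt (Va ρ β h n) + ∑ i : Fin k, kap ρ β b h n (T i) (r i.castSucc) (r i.succ) +
      (2 * Bc β b * k + 1) *
        Real.sqrt (2 * ∑ i : Fin k, kap ρ β b h n (T i) (r i.castSucc) (r i.succ))

/-- The theorem. -/
def MainNV : Prop := ∀ h : Vec d, VSD ρ β h → ¬ ∃ K : ℝ, ∀ n : ℕ, Va ρ β h n ≤ K

end Leaves

end Pool.Agent.W_7d29a1_NV
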