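import Pool.Agent.W_7d29a1_h46u.LamU
import Pool.Agent.W_7d29a1_NV.DefsNV

/-!
Theorem NV, leaf N: the increments of the mean free energy are small at a positive fraction of
the lengths.
-/

set_option autoImplicit false

namespace Pool.Agent.W_7d29a1_NV

open MeasureTheory ProbabilityTheory Filter Topology Pool.Agent.W_MP_7d29a1_pr
  Pool.Agent.W_7d29a1_h46 Pool.Agent.W_7d29a1_h46u

/-- Real sequences: `a n / n → L`, increments bounded below by `p`. -/
theorem incA86 {a : ℕ → ℝ} {L p : ℝ} (hlow : ∀ n, 1 ≤ n → p ≤ a n - a (n - 1))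
    (hlim : Tendsto (fun n : ℕ => a n / n) atTop (𝓝 L)) {g : ℝ} (hg : 0 < g) :
    ∃ c : ℝ, 0 < c ∧ ∃ N₀ : ℕ, ∀ N : ℕ, N₀ ≤ N →
      c * N ≤ (((Finset.Ico N (2 * N)).filter fun n => a n - a (n - 1) ≤ L + g).card : ℝ) := by
  have hκ : 0 < g / 8 := by linarith
  have h1 : ∀ᶠ n : ℕ in atTop, a n / n < L + g / 8 := hlim.eventually (gt_mem_nhds (by linarith))
  have h2 : ∀ᶠ n : ℕ in atTop, L - g / 8 < a n / n := hlim.eventually (lt_mem_nhds (by linarith))
  obtain ⟨N1, hN1⟩ := eventually_atTop.1 (h1.and h2)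
  refine ⟨g / 4 / (|L + g - p| + 1), by positivity, N1 + 2, fun N hNN1 => ?_⟩
  set s : Finset ℕ := (Finset.Ico N (2 * N)).filter fun n => a n - a (n - 1) ≤ L + g with hs
  have hsum : ∑ n ∈ Finset.Ico N (2 * N), (a n - a (n - 1)) = a (2 * N - 1) - a (N - 1) := by
    obtain ⟨M, rfl⟩ : ∃ M, N = M + 1 := ⟨N - 1, by omega⟩
    have e1 : ∑ n ∈ Finset.Ico (M + 1) (2 * (M + 1)), (a n - a (n - 1)) =
        ∑ n ∈ Finset.Ico M (2 * M + 1), (a (n + 1) - a n) := by
      rw [show 2 * (M + 1) = (2 * M + 1) + 1 by ring]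
      rw [← Finset.sum_Ico_add' (fun n => a n - a (n - 1)) M (2 * M + 1) 1]
      exact Finset.sum_congr rfl fun n _ => by rw [Nat.add_sub_cancel]
    rw [e1, Finset.sum_Ico_sub a (by omega)]
    congr 2
  have hup : a (2 * N - 1) ≤ (2 * N - 1 : ℕ) * (L + g / 8) := by
    have h3 := (hN1 (2 * N - 1) (by omega)).1.le
    have h4 : (0 : ℝ) < ((2 * N - 1 : ℕ) : ℝ) := by
      have : 0 < 2 * N - 1 := by omega
      exact_mod_cast this
    rw [div_le_iff₀ h4] at h3
    linarith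
  have hdn : (N - 1 : ℕ) * (L - g / 8) ≤ a (N - 1) := by
    have h3 := (hN1 (N - 1) (by omega)).2.le
    have h4 : (0 : ℝ) < ((N - 1 : ℕ) : ℝ) := by
      have : 0 < N - 1 := by omega
      exact_mod_cast this
    rw [le_div_iff₀ h4] at h3
    linarith
  have hc1 : ((2 * N - 1 : ℕ) : ℝ) = 2 * N - 1 := by
    rw [Nat.cast_sub (by omega)]
    push_cast
    ring
  have hc2 : ((N - 1 : ℕ) : ℝ) = N - 1 := by
    rw [Nat.cast_sub (by omega)]
    push_cast
    ring
  rw [hc1] at hup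
  rw [hc2] at hdn
  have hNpos : (1 : ℝ) ≤ N := by
    have : 1 ≤ N := by omega
    exact_mod_cast this
  -- the sum from above
  have hS1 : ∑ n ∈ Finset.Ico N (2 * N), (a n - a (n - 1)) ≤ N * (L + g / 2) := by
    rw [hsum]
    nlinarith
  -- the sum from below
  have hcard : ((Finset.Ico N (2 * N)).card : ℝ) = N := by
    rw [Nat.card_Ico]
    congr 1
    omega
  have hS2 : (N : ℝ) * (L + g) - (s.card : ℝ) * (L + g - p) ≤
      ∑ n ∈ Finset.Ico N (2 * N), (a n - a (n - 1)) := by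
    rw [← Finset.sum_filter_add_sum_filter_not (Finset.Ico N (2 * N))
      (fun n => a n - a (n - 1) ≤ L + g)]
    have e1 : (s.card : ℝ) * p ≤ ∑ n ∈ s, (a n - a (n - 1)) := by
      calc (s.card : ℝ) * p = ∑ _n ∈ s, p := by rw [Finset.sum_const, nsmul_eq_mul]
        _ ≤ _ := Finset.sum_le_sum fun n hn => by
          have := Finset.mem_Ico.1 (Finset.mem_filter.1 hn).1
          exact hlow n (by omega)
    have e2 : (((Finset.Ico N (2 * N)).filter fun n => ¬ (a n - a (n - 1) ≤ L + g)).card : ℝ) *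
        (L + g) ≤ ∑ n ∈ (Finset.Ico N (2 * N)).filter (fun n => ¬ (a n - a (n - 1) ≤ L + g)),
          (a n - a (n - 1)) := by
      rw [← nsmul_eq_mul, ← Finset.sum_const]
      exact Finset.sum_le_sum fun n hn => (not_le.1 (Finset.mem_filter.1 hn).2).le
    have e3 : (s.card : ℝ) + (((Finset.Ico N (2 * N)).filter fun n =>
        ¬ (a n - a (n - 1) ≤ L + g)).card : ℝ) = N := by
      rw [← hcard, hs]
      exact_mod_cast Finset.card_filter_add_card_filter_not
        (s := Finset.Ico N (2 * N)) (fun n => a n - a (n - 1) ≤ L + g)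
    have e4 : (((Finset.Ico N (2 * N)).filter fun n =>
        ¬ (a n - a (n - 1) ≤ L + g)).card : ℝ) * (L + g) = (N - s.card) * (L + g) := by
      rw [← e3]
      ring
    rw [e4] at e2
    rw [← hs]
    linarith
  have hS3 : (N : ℝ) * (g / 2) ≤ (s.card : ℝ) * (L + g - p) := by nlinarith
  have hS4 : (s.card : ℝ) * (L + g - p) ≤ (s.card : ℝ) * (|L + g - p| + 1) :=
    mul_le_mul_of_nonneg_left ((le_abs_self _).trans (by linarith)) (Nat.cast_nonneg _)
  rw [div_mul_eq_mul_div, div_le_iff₀ (by positivity)]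
  nlinarith

/-- Leaf N. -/
theorem inc86 {d : ℕ} {ρ : Measure ℝ} [IsProbabilityMeasure ρ] (hd : 0 < d) (hρ : EM ρ)
    (β : ℝ) : IncT d ρ β := by
  intro h g hg
  refine incA86 (p := A ρ β h 1) (fun n hn => ?_) (tendsto_A hd hρ β h) hg
  obtain ⟨m, rfl⟩ : ∃ m, n = m + 1 := ⟨n - 1, by omega⟩
  have := A_add_le hd hρ β h m 1
  rw [Nat.add_sub_cancel]
  linarith

end Pool.Agent.W_7d29a1_NV
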