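import Mathlib

/-!
Relative entropy on finite sets: Hellinger lower bound, total variation, the absolute log-ratio,
data processing, chain rule, and telescoping along a chain of random probability vectors.
-/

namespace Pool.Agent.W_7d29a1_NV

open MeasureTheory Finset

variable {ι κ : Type*}

/-- Relative entropy over the finite set `T` (`0 log = 0`). -/
noncomputable def kl (T : Finset ι) (p q : ι → ℝ) : ℝ := ∑ s ∈ T, p s * Real.log (p s / q s)

/-- A pair of probability vectors on `T`, the first absolutely continuous. -/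
structure PP77 (T : Finset ι) (p q : ι → ℝ) : Prop where
  hp : ∀ s ∈ T, 0 ≤ p s
  hq : ∀ s ∈ T, 0 ≤ q s
  ac : ∀ s ∈ T, q s = 0 → p s = 0
  sp : ∑ s ∈ T, p s = 1
  sq : ∑ s ∈ T, q s = 1

theorem two_point77 {p q : ℝ} (hp : 0 ≤ p) (hq : 0 ≤ q) (ac : q = 0 → p = 0) :
    2 * p - 2 * (√p * √q) ≤ p * Real.log (p / q) := by
  rcases hp.eq_or_lt with h | hp0
  · rw [← h]; simp
  have hq0 : 0 < q := by
    rcases hq.eq_or_lt with h | h
    · exact absurd (ac h.symm) hp0.ne'
    · exact h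
  have h1 : Real.log (p / q) = -(2 * Real.log (√q / √p)) := by
    rw [Real.log_div hp0.ne' hq0.ne', Real.log_div (Real.sqrt_pos.2 hq0).ne'
      (Real.sqrt_pos.2 hp0).ne', Real.log_sqrt hq0.le, Real.log_sqrt hp0.le]
    ring
  have h2 := Real.log_le_sub_one_of_pos (div_pos (Real.sqrt_pos.2 hq0) (Real.sqrt_pos.2 hp0))
  have h3 : p * (√q / √p) = √p * √q := by
    have hs : √p ≠ 0 := (Real.sqrt_pos.2 hp0).ne'
    have e : p = √p * √p := (Real.mul_self_sqrt hp0.le).symm
    field_simp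
    nlinarith
  rw [h1]
  nlinarith

/-- The Hellinger distance is at most the relative entropy. -/
theorem hel77 {T : Finset ι} {p q : ι → ℝ} (h : PP77 T p q) :
    ∑ s ∈ T, (√(p s) - √(q s)) ^ 2 ≤ kl T p q := by
  have h1 : ∑ s ∈ T, (2 * p s - 2 * (√(p s) * √(q s))) ≤ kl T p q :=
    Finset.sum_le_sum fun s hs => two_point77 (h.hp s hs) (h.hq s hs) (h.ac s hs)
  have h2 : ∑ s ∈ T, (√(p s) - √(q s)) ^ 2 = ∑ s ∈ T, (2 * p s - 2 * (√(p s) * √(q s))) := by
    have e : ∀ s ∈ T, (√(p s) - √(q s)) ^ 2 = (2 * p s - 2 * (√(p s) * √(q s))) + (q s - p s) := by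
      intro s hs
      have e1 := Real.sq_sqrt (h.hp s hs)
      have e2 := Real.sq_sqrt (h.hq s hs)
      nlinarith
    rw [Finset.sum_congr rfl e, Finset.sum_add_distrib, Finset.sum_sub_distrib (f := q), h.sp, h.sq]
    ring
  rw [h2]
  exact h1

theorem kl_nonneg77 {T : Finset ι} {p q : ι → ℝ} (h : PP77 T p q) : 0 ≤ kl T p q :=
  (Finset.sum_nonneg fun _ _ => sq_nonneg _).trans (hel77 h)

/-- Total variation. -/
theorem tv77 {T : Finset ι} {p q : ι → ℝ} (h : PP77 T p q) :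
    ∑ s ∈ T, |p s - q s| ≤ 2 * √(kl T p q) := by
  have e : ∀ s ∈ T, |p s - q s| = |√(p s) - √(q s)| * (√(p s) + √(q s)) := by
    intro s hs
    have e1 := Real.mul_self_sqrt (h.hp s hs)
    have e2 := Real.mul_self_sqrt (h.hq s hs)
    have e3 : 0 ≤ √(p s) + √(q s) := add_nonneg (Real.sqrt_nonneg _) (Real.sqrt_nonneg _)
    rw [← abs_of_nonneg e3, ← abs_mul]
    congr 1
    nlinarith
  rw [Finset.sum_congr rfl e]
  have hcs := Finset.sum_mul_sq_le_sq_mul_sq T (fun s => |√(p s) - √(q s)|)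
    (fun s => √(p s) + √(q s))
  have h1 : ∑ s ∈ T, |√(p s) - √(q s)| ^ 2 ≤ kl T p q := by
    refine le_trans (le_of_eq ?_) (hel77 h)
    exact Finset.sum_congr rfl fun s _ => sq_abs _
  have h2 : ∑ s ∈ T, (√(p s) + √(q s)) ^ 2 ≤ 4 := by
    calc ∑ s ∈ T, (√(p s) + √(q s)) ^ 2 ≤ ∑ s ∈ T, (2 * p s + 2 * q s) := by
          refine Finset.sum_le_sum fun s hs => ?_
          have e1 := Real.sq_sqrt (h.hp s hs)
          have e2 := Real.sq_sqrt (h.hq s hs)
          nlinarith [sq_nonneg (√(p s) - √(q s))]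
      _ = 4 := by
          rw [Finset.sum_add_distrib, ← Finset.mul_sum, ← Finset.mul_sum, h.sp, h.sq]
          norm_num
  have hk := kl_nonneg77 h
  have h0 : 0 ≤ ∑ s ∈ T, |√(p s) - √(q s)| * (√(p s) + √(q s)) :=
    Finset.sum_nonneg fun s _ => mul_nonneg (abs_nonneg _)
      (add_nonneg (Real.sqrt_nonneg _) (Real.sqrt_nonneg _))
  have h3 : (∑ s ∈ T, |√(p s) - √(q s)| * (√(p s) + √(q s))) ^ 2 ≤ (2 * √(kl T p q)) ^ 2 := by
    rw [mul_pow, Real.sq_sqrt hk]
    refine hcs.trans ?_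
    have h5 : 0 ≤ ∑ s ∈ T, |√(p s) - √(q s)| ^ 2 := Finset.sum_nonneg fun _ _ => sq_nonneg _
    nlinarith [mul_le_mul h1 h2 (Finset.sum_nonneg fun _ _ => sq_nonneg _) hk]
  exact abs_le_of_sq_le_sq' h3 (by positivity) |>.2

/-- The mean absolute log-ratio. -/
theorem abs77 {T : Finset ι} {p q : ι → ℝ} (h : PP77 T p q) :
    ∑ s ∈ T, p s * |Real.log (p s / q s)| ≤ kl T p q + 2 * √(kl T p q) := by
  have h1 : ∀ s ∈ T, p s * |Real.log (p s / q s)| ≤
      p s * Real.log (p s / q s) + (|p s - q s| + (q s - p s)) := by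
    intro s hs
    rcases (h.hp s hs).eq_or_lt with h0 | hp0
    · rw [← h0]
      have := h.hq s hs
      simp only [zero_mul, zero_sub, abs_neg, sub_zero, zero_add]
      have := abs_nonneg (q s)
      linarith
    have hq0 : 0 < q s := by
      rcases (h.hq s hs).eq_or_lt with h' | h'
      · exact absurd (h.ac s hs h'.symm) hp0.ne'
      · exact h'
    rcases le_total 0 (Real.log (p s / q s)) with hl | hl
    · rw [abs_of_nonneg hl]
      have := le_abs_self (p s - q s)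
      linarith
    · rw [abs_of_nonpos hl]
      have e : Real.log (q s / p s) = -Real.log (p s / q s) := by
        rw [← Real.log_inv, inv_div]
      have h2 := Real.log_le_sub_one_of_pos (div_pos hq0 hp0)
      rw [e] at h2
      have h3 : p s * -Real.log (p s / q s) ≤ q s - p s := by
        have := mul_le_mul_of_nonneg_left h2 hp0.le
        have e2 : p s * (q s / p s - 1) = q s - p s := by field_simp
        rw [e2] at this
        exact this
      have h4 := neg_abs_le (p s - q s)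
      have h5 := le_abs_self (q s - p s)
      rw [abs_sub_comm] at h5
      linarith
  calc ∑ s ∈ T, p s * |Real.log (p s / q s)|
      ≤ ∑ s ∈ T, (p s * Real.log (p s / q s) + (|p s - q s| + (q s - p s))) :=
        Finset.sum_le_sum h1
    _ = kl T p q + ∑ s ∈ T, |p s - q s| := by
        rw [Finset.sum_add_distrib, Finset.sum_add_distrib, Finset.sum_sub_distrib, h.sp, h.sq]
        unfold kl
        ring
    _ ≤ _ := by
        have := tv77 h
        linarith

/-! ### Images and conditional laws -/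

variable [DecidableEq κ]

/-- The image of `p` under `f`. -/
noncomputable def pf (T : Finset ι) (f : ι → κ) (p : ι → ℝ) (a : κ) : ℝ :=
  ∑ s ∈ T with f s = a, p s

/-- The conditional law of `s` given `f s`. -/
noncomputable def cd (T : Finset ι) (f : ι → κ) (p : ι → ℝ) (s : ι) : ℝ := p s / pf T f p (f s)

theorem pf_nonneg77 {T : Finset ι} {f : ι → κ} {p : ι → ℝ} (hp : ∀ s ∈ T, 0 ≤ p s) (a : κ) :
    0 ≤ pf T f p a :=
  Finset.sum_nonneg fun s hs => hp s (Finset.mem_filter.1 hs).1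

theorem le_pf77 {T : Finset ι} {f : ι → κ} {p : ι → ℝ} (hp : ∀ s ∈ T, 0 ≤ p s) {s : ι}
    (hs : s ∈ T) : p s ≤ pf T f p (f s) :=
  Finset.single_le_sum (f := p) (fun t ht => hp t (Finset.mem_filter.1 ht).1)
    (Finset.mem_filter.2 ⟨hs, rfl⟩)

theorem sum_pf77 (T : Finset ι) (f : ι → κ) (p : ι → ℝ) (g : κ → ℝ) :
    ∑ a ∈ T.image f, pf T f p a * g a = ∑ s ∈ T, p s * g (f s) := by
  rw [← Finset.sum_fiberwise_of_maps_to (g := f) (t := T.image f)
    (fun s hs => Finset.mem_image_of_mem f hs)]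
  refine Finset.sum_congr rfl fun a _ => ?_
  unfold pf
  rw [Finset.sum_mul]
  refine Finset.sum_congr rfl fun s hs => ?_
  rw [(Finset.mem_filter.1 hs).2]

theorem pf_pp77 {T : Finset ι} {p q : ι → ℝ} (h : PP77 T p q) (f : ι → κ) :
    PP77 (T.image f) (pf T f p) (pf T f q) where
  hp := fun a _ => pf_nonneg77 h.hp a
  hq := fun a _ => pf_nonneg77 h.hq a
  ac := by
    intro a _ h0
    unfold pf at h0 ⊢
    rw [Finset.sum_eq_zero_iff_of_nonneg fun s hs => h.hq s (Finset.mem_filter.1 hs).1] at h0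
    refine Finset.sum_eq_zero fun s hs => h.ac s (Finset.mem_filter.1 hs).1 (h0 s hs)
  sp := by
    have := sum_pf77 T f p fun _ => 1
    simp only [mul_one] at this
    rw [this, h.sp]
  sq := by
    have := sum_pf77 T f q fun _ => 1
    simp only [mul_one] at this
    rw [this, h.sq]

/-- The conditional laws on a fibre of positive mass. -/
theorem cd_pp77 {T : Finset ι} {p q : ι → ℝ} (h : PP77 T p q) (f : ι → κ) {a : κ}
    (ha : 0 < pf T f p a) :
    PP77 (T.filter fun s => f s = a) (fun s => p s / pf T f p a) (fun s => q s / pf T f q a) := by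
  have hq : 0 < pf T f q a := by
    rcases (pf_nonneg77 h.hq a : 0 ≤ pf T f q a).eq_or_lt with h0 | h0
    · exfalso
      have h1 : pf T f p a = 0 := by
        have h0' := h0.symm
        unfold pf at h0' ⊢
        rw [Finset.sum_eq_zero_iff_of_nonneg fun s hs => h.hq s (Finset.mem_filter.1 hs).1] at h0'
        exact Finset.sum_eq_zero fun s hs => h.ac s (Finset.mem_filter.1 hs).1 (h0' s hs)
      exact ha.ne' h1
    · exact h0
  refine ⟨fun s hs => div_nonneg (h.hp s (Finset.mem_filter.1 hs).1) ha.le,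
    fun s hs => div_nonneg (h.hq s (Finset.mem_filter.1 hs).1) hq.le, fun s hs h0 => ?_, ?_, ?_⟩
  · rw [div_eq_zero_iff] at h0
    rcases h0 with h0 | h0
    · rw [h.ac s (Finset.mem_filter.1 hs).1 h0, zero_div]
    · exact absurd h0 hq.ne'
  · rw [← Finset.sum_div]
    exact div_self ha.ne'
  · rw [← Finset.sum_div]
    exact div_self hq.ne'

/-- The conditional relative entropy. -/
noncomputable def ckl (T : Finset ι) (f : ι → κ) (p q : ι → ℝ) : ℝ :=
  ∑ s ∈ T, p s * Real.log (cd T f p s / cd T f q s)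

/-- **Chain rule.** -/
theorem chain77 {T : Finset ι} {p q : ι → ℝ} (h : PP77 T p q) (f : ι → κ) :
    kl T p q = kl (T.image f) (pf T f p) (pf T f q) + ckl T f p q := by
  unfold kl ckl
  rw [sum_pf77 T f p fun a => Real.log (pf T f p a / pf T f q a), ← Finset.sum_add_distrib]
  refine Finset.sum_congr rfl fun s hs => ?_
  rcases (h.hp s hs).eq_or_lt with h0 | hp0
  · rw [← h0]; simp
  have hq0 : 0 < q s := by
    rcases (h.hq s hs).eq_or_lt with h' | h'
    · exact absurd (h.ac s hs h'.symm) hp0.ne'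
    · exact h'
  have h1 : 0 < pf T f p (f s) := hp0.trans_le (le_pf77 h.hp hs)
  have h2 : 0 < pf T f q (f s) := hq0.trans_le (le_pf77 h.hq hs)
  unfold cd
  rw [Real.log_div h1.ne' h2.ne', Real.log_div (div_pos hp0 h1).ne' (div_pos hq0 h2).ne',
    Real.log_div hp0.ne' h1.ne', Real.log_div hq0.ne' h2.ne', Real.log_div hp0.ne' hq0.ne']
  ring

/-- A sum over `T` in fibres. -/
theorem fib77 {T : Finset ι} (f : ι → κ) {p : ι → ℝ} (hp : ∀ s ∈ T, 0 ≤ p s) (g : ι → ℝ) :
    ∑ s ∈ T, p s * g s = ∑ a ∈ T.image f, pf T f p a *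
      ∑ s ∈ T with f s = a, p s / pf T f p a * g s := by
  rw [← Finset.sum_fiberwise_of_maps_to (g := f) (t := T.image f)
    (fun s hs => Finset.mem_image_of_mem f hs)]
  refine Finset.sum_congr rfl fun a _ => ?_
  rcases (pf_nonneg77 hp a : 0 ≤ pf T f p a).eq_or_lt with h0 | h0
  · rw [← h0, zero_mul]
    have h0' := h0.symm
    unfold pf at h0'
    rw [Finset.sum_eq_zero_iff_of_nonneg fun s hs => hp s (Finset.mem_filter.1 hs).1] at h0'
    exact Finset.sum_eq_zero fun s hs => by rw [h0' s hs, zero_mul]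
  · rw [Finset.mul_sum]
    refine Finset.sum_congr rfl fun s _ => ?_
    field_simp

theorem ckl_eq77 {T : Finset ι} {p q : ι → ℝ} (h : PP77 T p q) (f : ι → κ) :
    ckl T f p q = ∑ a ∈ T.image f, pf T f p a *
      kl (T.filter fun s => f s = a) (fun s => p s / pf T f p a) (fun s => q s / pf T f q a) := by
  unfold ckl
  rw [fib77 f h.hp]
  refine Finset.sum_congr rfl fun a _ => ?_
  congr 1
  unfold kl cd
  refine Finset.sum_congr rfl fun s hs => ?_
  rw [(Finset.mem_filter.1 hs).2]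

theorem ckl_nonneg77 {T : Finset ι} {p q : ι → ℝ} (h : PP77 T p q) (f : ι → κ) :
    0 ≤ ckl T f p q := by
  rw [ckl_eq77 h f]
  refine Finset.sum_nonneg fun a _ => ?_
  rcases (pf_nonneg77 h.hp a : 0 ≤ pf T f p a).eq_or_lt with h0 | h0
  · rw [← h0, zero_mul]
  · exact mul_nonneg h0.le (kl_nonneg77 (cd_pp77 h f h0))

/-- **Data processing**, deterministic maps. -/
theorem dpi77 {T : Finset ι} {p q : ι → ℝ} (h : PP77 T p q) (f : ι → κ) :
    kl (T.image f) (pf T f p) (pf T f q) ≤ kl T p q := by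
  rw [chain77 h f]
  linarith [ckl_nonneg77 h f]

/-- The mean absolute conditional log-ratio. -/
theorem cabs77 {T : Finset ι} {p q : ι → ℝ} (h : PP77 T p q) (f : ι → κ) :
    ∑ s ∈ T, p s * |Real.log (cd T f p s / cd T f q s)| ≤
      ckl T f p q + 2 * √(ckl T f p q) := by
  obtain ⟨D, hD⟩ : ∃ D : κ → ℝ, D = fun a => kl (T.filter fun s => f s = a)
    (fun s => p s / pf T f p a) (fun s => q s / pf T f q a) := ⟨_, rfl⟩
  have hDe : ckl T f p q = ∑ a ∈ T.image f, pf T f p a * D a := by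
    rw [ckl_eq77 h f, hD]
  have hP := pf_pp77 h f
  have hD0 : ∀ a, 0 < pf T f p a → 0 ≤ D a := by
    intro a ha
    rw [hD]
    exact kl_nonneg77 (cd_pp77 h f ha)
  rw [fib77 f h.hp]
  have h1 : ∑ a ∈ T.image f, pf T f p a * ∑ s ∈ T with f s = a, p s / pf T f p a *
      |Real.log (cd T f p s / cd T f q s)| ≤
      ∑ a ∈ T.image f, pf T f p a * (D a + 2 * √(D a)) := by
    refine Finset.sum_le_sum fun a _ => ?_
    rcases (pf_nonneg77 h.hp a : 0 ≤ pf T f p a).eq_or_lt with h0 | h0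
    · rw [← h0, zero_mul, zero_mul]
    · refine mul_le_mul_of_nonneg_left ?_ h0.le
      have h2 := abs77 (cd_pp77 h f h0)
      rw [hD]
      refine le_trans (le_of_eq ?_) h2
      refine Finset.sum_congr rfl fun s hs => ?_
      unfold cd
      rw [(Finset.mem_filter.1 hs).2]
  refine h1.trans ?_
  have h2 : ∑ a ∈ T.image f, pf T f p a * (D a + 2 * √(D a)) =
      ckl T f p q + 2 * ∑ a ∈ T.image f, pf T f p a * √(D a) := by
    rw [hDe, Finset.mul_sum, ← Finset.sum_add_distrib]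
    exact Finset.sum_congr rfl fun a _ => by ring
  rw [h2]
  have h3 : ∑ a ∈ T.image f, pf T f p a * √(D a) ≤ √(ckl T f p q) := by
    refine Real.le_sqrt_of_sq_le ?_
    have hcs := Finset.sum_mul_sq_le_sq_mul_sq (T.image f) (fun a => √(pf T f p a))
      (fun a => √(pf T f p a) * √(D a))
    have e1 : ∑ a ∈ T.image f, √(pf T f p a) * (√(pf T f p a) * √(D a)) =
        ∑ a ∈ T.image f, pf T f p a * √(D a) := by
      refine Finset.sum_congr rfl fun a ha => ?_
      rw [← mul_assoc, Real.mul_self_sqrt (hP.hp a ha)]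
    have e2 : ∑ a ∈ T.image f, √(pf T f p a) ^ 2 = 1 := by
      rw [← hP.sp]
      exact Finset.sum_congr rfl fun a ha => Real.sq_sqrt (hP.hp a ha)
    have e3 : ∑ a ∈ T.image f, (√(pf T f p a) * √(D a)) ^ 2 = ckl T f p q := by
      rw [hDe]
      refine Finset.sum_congr rfl fun a ha => ?_
      rcases (hP.hp a ha).eq_or_lt with h0 | h0
      · rw [← h0]; simp
      · rw [mul_pow, Real.sq_sqrt h0.le, Real.sq_sqrt (hD0 a h0)]
    rw [e1, e2, e3, one_mul] at hcs
    exact hcs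
  linarith

/-- **Data processing**, a common Markov kernel `k` from `T` to `B`. -/
theorem dpk77 {B : Finset κ} {T : Finset ι} {p q : ι → ℝ} (h : PP77 T p q) (k : ι → κ → ℝ)
    (hk : ∀ s ∈ T, ∀ b ∈ B, 0 ≤ k s b) (hk1 : ∀ s ∈ T, ∑ b ∈ B, k s b = 1) :
    kl B (fun b => ∑ s ∈ T, p s * k s b) (fun b => ∑ s ∈ T, q s * k s b) ≤ kl T p q := by
  classical
  obtain ⟨P, hP⟩ : ∃ P : ι × κ → ℝ, P = fun x => p x.1 * k x.1 x.2 := ⟨_, rfl⟩
  obtain ⟨Q, hQ⟩ : ∃ Q : ι × κ → ℝ, Q = fun x => q x.1 * k x.1 x.2 := ⟨_, rfl⟩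
  have hPQ : PP77 (T ×ˢ B) P Q := by
    refine ⟨fun x hx => ?_, fun x hx => ?_, fun x hx h0 => ?_, ?_, ?_⟩
    · rw [Finset.mem_product] at hx
      rw [hP]
      exact mul_nonneg (h.hp _ hx.1) (hk _ hx.1 _ hx.2)
    · rw [Finset.mem_product] at hx
      rw [hQ]
      exact mul_nonneg (h.hq _ hx.1) (hk _ hx.1 _ hx.2)
    · rw [Finset.mem_product] at hx
      rw [hQ] at h0
      rw [hP]
      rcases mul_eq_zero.1 h0 with h0 | h0
      · simp only
        rw [h.ac _ hx.1 h0, zero_mul]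
      · simp only
        rw [h0, mul_zero]
    · rw [Finset.sum_product, hP, ← h.sp]
      refine Finset.sum_congr rfl fun s hs => ?_
      simp only
      rw [← Finset.mul_sum, hk1 s hs, mul_one]
    · rw [Finset.sum_product, hQ, ← h.sq]
      refine Finset.sum_congr rfl fun s hs => ?_
      simp only
      rw [← Finset.mul_sum, hk1 s hs, mul_one]
  have h1 := dpi77 hPQ (Prod.snd : ι × κ → κ)
  have hjoint : kl (T ×ˢ B) P Q = kl T p q := by
    unfold kl
    rw [Finset.sum_product]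
    refine Finset.sum_congr rfl fun s hs => ?_
    have e : ∀ b ∈ B, P (s, b) * Real.log (P (s, b) / Q (s, b)) =
        k s b * (p s * Real.log (p s / q s)) := by
      intro b hb
      rw [hP, hQ]
      simp only
      rcases (hk s hs b hb).eq_or_lt with h0 | h0
      · rw [← h0]; simp
      · rw [mul_div_mul_right _ _ h0.ne']
        ring
    rw [Finset.sum_congr rfl e, ← Finset.sum_mul, hk1 s hs, one_mul]
  have hpf : ∀ (w : ι → ℝ) (b : κ), b ∈ B → pf (T ×ˢ B) (Prod.snd : ι × κ → κ)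
      (fun x => w x.1 * k x.1 x.2) b = ∑ s ∈ T, w s * k s b := by
    intro w b hb
    unfold pf
    rw [Finset.sum_filter, Finset.sum_product]
    refine Finset.sum_congr rfl fun s _ => ?_
    simp only
    rw [Finset.sum_ite_eq' B b fun b => w s * k s b, if_pos hb]
  rw [← hjoint]
  refine le_trans (le_of_eq ?_) h1
  rcases T.eq_empty_or_nonempty with rfl | hT
  · have := h.sp
    simp at this
  have himg : (T ×ˢ B).image (Prod.snd : ι × κ → κ) = B := by
    ext b
    simp only [Finset.mem_image, Finset.mem_product, Prod.exists, exists_eq_right]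
    constructor
    · rintro ⟨s, _, hb⟩
      exact hb
    · intro hb
      obtain ⟨s, hs⟩ := hT
      exact ⟨s, hs, hb⟩
  unfold kl
  rw [himg]
  refine Finset.sum_congr rfl fun b hb => ?_
  rw [hP, hQ, hpf p b hb, hpf q b hb]

/-! ### Telescoping along a chain of random probability vectors -/

section Tele

variable {Ω : Type*} [MeasurableSpace Ω] {μ : Measure Ω} [IsProbabilityMeasure μ]

/-- `a b ≤ (θ a² + b² / θ) / 2` in the form used below. -/
theorem young77 {θ x y : ℝ} (hθ : 0 < θ) (hx : 0 < x) (z : ℝ) (hy : 0 ≤ y) :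
    z * y ≤ θ / 2 * (x * y) + 1 / (2 * θ) * (z ^ 2 / x * y) := by
  have h1 : z ≤ θ / 2 * x + 1 / (2 * θ) * (z ^ 2 / x) := by
    have h2 : 0 ≤ (θ * x - z) ^ 2 / (2 * θ * x) := by positivity
    have h3 : (θ * x - z) ^ 2 / (2 * θ * x) = θ / 2 * x + 1 / (2 * θ) * (z ^ 2 / x) - z := by
      field_simp
      ring
    linarith
  calc z * y ≤ (θ / 2 * x + 1 / (2 * θ) * (z ^ 2 / x)) * y := mul_le_mul_of_nonneg_right h1 hy
    _ = _ := by ring

/-- **Telescoping.** `P 0, …, P k` random positive probability vectors on `T`; the conditional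
relative entropy of `P (j+1)` seen from `P j` is at most `δ` in mean and the change of measure from
`P j` to `P 0` costs `M`: then the conditional relative entropy of `P k` seen from `P 0` is small. -/
theorem tele77 {T : Finset ι} (f : ι → κ) (k : ℕ) (P : ℕ → Ω → ι → ℝ)
    (hm : ∀ j ≤ k, ∀ s ∈ T, Measurable fun ω => P j ω s)
    (hpos : ∀ j ≤ k, ∀ ω, ∀ s ∈ T, 0 < P j ω s) (hsum : ∀ j ≤ k, ∀ ω, ∑ s ∈ T, P j ω s = 1)
    {δ M : ℝ} (hδ : 0 < δ) (hM : 0 < M)
    (hi : ∀ j < k, Integrable (fun ω => ckl T f (P j ω) (P (j + 1) ω)) μ)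
    (hd : ∀ j < k, ∫ ω, ckl T f (P j ω) (P (j + 1) ω) ∂μ ≤ δ)
    (hi2 : ∀ j < k, Integrable (fun ω => ∑ s ∈ T, P 0 ω s ^ 2 / P j ω s *
      |Real.log (cd T f (P j ω) s / cd T f (P (j + 1) ω) s)|) μ)
    (hM2 : ∀ j < k, ∫ ω, ∑ s ∈ T, P 0 ω s ^ 2 / P j ω s *
      |Real.log (cd T f (P j ω) s / cd T f (P (j + 1) ω) s)| ∂μ ≤ M) :
    ∫ ω, ckl T f (P 0 ω) (P k ω) ∂μ ≤ k * √((δ + 2 * √δ) * M) := by
  obtain ⟨Y, hY⟩ : ∃ Y : ℕ → Ω → ι → ℝ, Y = fun j ω s =>
    |Real.log (cd T f (P j ω) s / cd T f (P (j + 1) ω) s)| := ⟨_, rfl⟩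
  have hY0 : ∀ j ω s, 0 ≤ Y j ω s := fun j ω s => by rw [hY]; exact abs_nonneg _
  have hPP : ∀ i ≤ k, ∀ j ≤ k, ∀ ω, PP77 T (P i ω) (P j ω) := fun i hi j hj ω =>
    ⟨fun s hs => (hpos i hi ω s hs).le, fun s hs => (hpos j hj ω s hs).le,
      fun s hs h0 => absurd h0 (hpos j hj ω s hs).ne', hsum i hi ω, hsum j hj ω⟩
  have hcd : ∀ j ≤ k, ∀ ω, ∀ s ∈ T, 0 < cd T f (P j ω) s := by
    intro j hj ω s hs
    have h1 := hpos j hj ω s hs
    exact div_pos h1 (h1.trans_le (le_pf77 (fun t ht => (hpos j hj ω t ht).le) hs))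
  have hmcd : ∀ j ≤ k, ∀ s ∈ T, Measurable fun ω => cd T f (P j ω) s := by
    intro j hj s hs
    unfold cd pf
    exact (hm j hj s hs).div (Finset.measurable_sum _ fun t ht =>
      hm j hj t (Finset.mem_filter.1 ht).1)
  have hmY : ∀ j < k, ∀ s ∈ T, Measurable fun ω => Y j ω s := by
    intro j hj s hs
    rw [hY]
    exact ((Real.measurable_log.comp ((hmcd j hj.le s hs).div (hmcd (j + 1) hj s hs)))).abs
  -- the first sums
  obtain ⟨a, ha⟩ : ∃ a : ℝ, a = δ + 2 * √δ := ⟨_, rfl⟩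
  have ha0 : 0 < a := by rw [ha]; positivity
  have h1 : ∀ j < k, Integrable (fun ω => ∑ s ∈ T, P j ω s * Y j ω s) μ ∧
      ∫ ω, ∑ s ∈ T, P j ω s * Y j ω s ∂μ ≤ a := by
    intro j hj
    have hbd : ∀ ω, ∑ s ∈ T, P j ω s * Y j ω s ≤
        (1 + 1 / √δ) * ckl T f (P j ω) (P (j + 1) ω) + √δ := by
      intro ω
      have h2 := cabs77 (hPP j hj.le (j + 1) hj ω) f
      have h3 := ckl_nonneg77 (hPP j hj.le (j + 1) hj ω) f
      have hs : 0 < √δ := Real.sqrt_pos.2 hδ
      have h4 : 2 * √(ckl T f (P j ω) (P (j + 1) ω)) ≤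
          √δ + 1 / √δ * ckl T f (P j ω) (P (j + 1) ω) := by
        have e := Real.mul_self_sqrt h3
        have h5 : 0 ≤ (√δ - √(ckl T f (P j ω) (P (j + 1) ω))) ^ 2 / √δ := by positivity
        have h6 : (√δ - √(ckl T f (P j ω) (P (j + 1) ω))) ^ 2 / √δ =
            √δ + 1 / √δ * (√(ckl T f (P j ω) (P (j + 1) ω)) *
              √(ckl T f (P j ω) (P (j + 1) ω))) - 2 * √(ckl T f (P j ω) (P (j + 1) ω)) := by
          field_simp
          ring
        rw [e] at h6
        linarith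
      rw [hY]
      linarith
    have hint : Integrable (fun ω => ∑ s ∈ T, P j ω s * Y j ω s) μ := by
      refine Integrable.mono' (((hi j hj).const_mul (1 + 1 / √δ)).add (integrable_const (√δ)))
        ?_ (Filter.Eventually.of_forall fun ω => ?_)
      · exact (Finset.measurable_sum _ fun s hs =>
          (hm j hj.le s hs).mul (hmY j hj s hs)).aestronglyMeasurable
      · rw [Real.norm_eq_abs, abs_of_nonneg (Finset.sum_nonneg fun s hs =>
          mul_nonneg (hpos j hj.le ω s hs).le (hY0 j ω s))]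
        exact hbd ω
    refine ⟨hint, ?_⟩
    have h5 := integral_mono hint (((hi j hj).const_mul (1 + 1 / √δ)).add
      (integrable_const (√δ))) hbd
    refine h5.trans ?_
    have h6 : ∫ ω, ((1 + 1 / √δ) * ckl T f (P j ω) (P (j + 1) ω) + √δ) ∂μ =
        (1 + 1 / √δ) * ∫ ω, ckl T f (P j ω) (P (j + 1) ω) ∂μ + √δ := by
      rw [integral_add ((hi j hj).const_mul _) (integrable_const _), integral_const_mul]
      simp
    have h7 : (1 + 1 / √δ) * ∫ ω, ckl T f (P j ω) (P (j + 1) ω) ∂μ ≤ (1 + 1 / √δ) * δ :=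
      mul_le_mul_of_nonneg_left (hd j hj) (by positivity)
    have h8 : (1 + 1 / √δ) * δ + √δ = a := by
      have hs : 0 < √δ := Real.sqrt_pos.2 hδ
      have e := Real.mul_self_sqrt hδ.le
      rw [ha]
      field_simp
      nlinarith
    calc _ = (1 + 1 / √δ) * ∫ ω, ckl T f (P j ω) (P (j + 1) ω) ∂μ + √δ := h6
      _ ≤ _ := by linarith
  -- the change of measure
  obtain ⟨θ, hθ⟩ : ∃ θ : ℝ, θ = √(M / a) := ⟨_, rfl⟩
  have hθ0 : 0 < θ := by rw [hθ]; exact Real.sqrt_pos.2 (div_pos hM ha0)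
  have h2 : ∀ j < k, Integrable (fun ω => ∑ s ∈ T, P 0 ω s * Y j ω s) μ ∧
      ∫ ω, ∑ s ∈ T, P 0 ω s * Y j ω s ∂μ ≤ √(a * M) := by
    intro j hj
    have hbd : ∀ ω, ∑ s ∈ T, P 0 ω s * Y j ω s ≤ θ / 2 * ∑ s ∈ T, P j ω s * Y j ω s +
        1 / (2 * θ) * ∑ s ∈ T, P 0 ω s ^ 2 / P j ω s * Y j ω s := by
      intro ω
      rw [Finset.mul_sum, Finset.mul_sum, ← Finset.sum_add_distrib]
      exact Finset.sum_le_sum fun s hs => young77 hθ0 (hpos j hj.le ω s hs) _ (hY0 j ω s)
    have hi2' : Integrable (fun ω => ∑ s ∈ T, P 0 ω s ^ 2 / P j ω s * Y j ω s) μ := by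
      rw [hY]
      exact hi2 j hj
    have hint : Integrable (fun ω => ∑ s ∈ T, P 0 ω s * Y j ω s) μ := by
      refine Integrable.mono' (((h1 j hj).1.const_mul (θ / 2)).add (hi2'.const_mul (1 / (2 * θ))))
        ?_ (Filter.Eventually.of_forall fun ω => ?_)
      · exact (Finset.measurable_sum _ fun s hs =>
          (hm 0 (Nat.zero_le _) s hs).mul (hmY j hj s hs)).aestronglyMeasurable
      · rw [Real.norm_eq_abs, abs_of_nonneg (Finset.sum_nonneg fun s hs =>
          mul_nonneg (hpos 0 (Nat.zero_le _) ω s hs).le (hY0 j ω s))]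
        exact hbd ω
    refine ⟨hint, ?_⟩
    have h5 := integral_mono hint (((h1 j hj).1.const_mul (θ / 2)).add
      (hi2'.const_mul (1 / (2 * θ)))) hbd
    refine h5.trans ?_
    have h6 : ∫ ω, (θ / 2 * ∑ s ∈ T, P j ω s * Y j ω s +
        1 / (2 * θ) * ∑ s ∈ T, P 0 ω s ^ 2 / P j ω s * Y j ω s) ∂μ =
        θ / 2 * ∫ ω, ∑ s ∈ T, P j ω s * Y j ω s ∂μ +
        1 / (2 * θ) * ∫ ω, ∑ s ∈ T, P 0 ω s ^ 2 / P j ω s * Y j ω s ∂μ := by
      rw [integral_add ((h1 j hj).1.const_mul _) (hi2'.const_mul _), integral_const_mul,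
        integral_const_mul]
    have h7 : θ / 2 * ∫ ω, ∑ s ∈ T, P j ω s * Y j ω s ∂μ ≤ θ / 2 * a :=
      mul_le_mul_of_nonneg_left (h1 j hj).2 (by positivity)
    have h8 : 1 / (2 * θ) * ∫ ω, ∑ s ∈ T, P 0 ω s ^ 2 / P j ω s * Y j ω s ∂μ ≤
        1 / (2 * θ) * M := by
      refine mul_le_mul_of_nonneg_left ?_ (by positivity)
      rw [hY]
      exact hM2 j hj
    have h9 : θ / 2 * a + 1 / (2 * θ) * M = √(a * M) := by
      have e1 : √(a * M) = θ * a := by
        rw [hθ, Real.sqrt_mul ha0.le, Real.sqrt_div hM.le]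
        have e := Real.mul_self_sqrt ha0.le
        have hs : 0 < √a := Real.sqrt_pos.2 ha0
        field_simp
        nlinarith
      have e2 : M = θ * θ * a := by
        rw [hθ, Real.mul_self_sqrt (div_pos hM ha0).le]
        field_simp
      have e3 : 1 / (2 * θ) * M = θ * a / 2 := by
        rw [e2]
        field_simp
      rw [e1, e3]
      ring
    calc _ = θ / 2 * ∫ ω, ∑ s ∈ T, P j ω s * Y j ω s ∂μ +
        1 / (2 * θ) * ∫ ω, ∑ s ∈ T, P 0 ω s ^ 2 / P j ω s * Y j ω s ∂μ := h6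
      _ ≤ θ / 2 * a + 1 / (2 * θ) * M := add_le_add h7 h8
      _ = _ := h9
  -- the telescope
  have h3 : ∀ ω, ckl T f (P 0 ω) (P k ω) ≤ ∑ j ∈ Finset.range k, ∑ s ∈ T, P 0 ω s * Y j ω s := by
    intro ω
    unfold ckl
    rw [Finset.sum_comm]
    refine Finset.sum_le_sum fun s hs => ?_
    rw [← Finset.mul_sum]
    refine mul_le_mul_of_nonneg_left ?_ (hpos 0 (Nat.zero_le _) ω s hs).le
    have e : Real.log (cd T f (P 0 ω) s / cd T f (P k ω) s) =
        ∑ j ∈ Finset.range k, Real.log (cd T f (P j ω) s / cd T f (P (j + 1) ω) s) := by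
      have e1 : ∀ j ∈ Finset.range k, Real.log (cd T f (P j ω) s / cd T f (P (j + 1) ω) s) =
          Real.log (cd T f (P j ω) s) - Real.log (cd T f (P (j + 1) ω) s) := by
        intro j hj
        have hj' := Finset.mem_range.1 hj
        exact Real.log_div (hcd j hj'.le ω s hs).ne' (hcd (j + 1) hj' ω s hs).ne'
      rw [Finset.sum_congr rfl e1, Finset.sum_range_sub' (fun j => Real.log (cd T f (P j ω) s)),
        Real.log_div (hcd 0 (Nat.zero_le _) ω s hs).ne' (hcd k le_rfl ω s hs).ne']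
    rw [e]
    refine Finset.sum_le_sum fun j _ => ?_
    rw [hY]
    exact le_abs_self _
  have hint : Integrable (fun ω => ∑ j ∈ Finset.range k, ∑ s ∈ T, P 0 ω s * Y j ω s) μ :=
    integrable_finsetSum _ fun j hj => (h2 j (Finset.mem_range.1 hj)).1
  have hnn : ∀ ω, 0 ≤ ckl T f (P 0 ω) (P k ω) := fun ω =>
    ckl_nonneg77 (hPP 0 (Nat.zero_le _) k le_rfl ω) f
  have hmono : ∫ ω, ckl T f (P 0 ω) (P k ω) ∂μ ≤
      ∫ ω, ∑ j ∈ Finset.range k, ∑ s ∈ T, P 0 ω s * Y j ω s ∂μ :=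
    integral_mono_of_nonneg (Filter.Eventually.of_forall hnn) hint
      (Filter.Eventually.of_forall h3)
  refine hmono.trans ?_
  rw [integral_finsetSum _ fun j hj => (h2 j (Finset.mem_range.1 hj)).1]
  calc ∑ j ∈ Finset.range k, ∫ ω, ∑ s ∈ T, P 0 ω s * Y j ω s ∂μ
      ≤ ∑ j ∈ Finset.range k, √(a * M) :=
        Finset.sum_le_sum fun j hj => (h2 j (Finset.mem_range.1 hj)).2
    _ = k * √((δ + 2 * √δ) * M) := by
        rw [Finset.sum_const, Finset.card_range, nsmul_eq_mul, ha]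

end Tele

end Pool.Agent.W_7d29a1_NV
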