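import Mathlib

/-!
# MP_7d29a1_pr, THEOREM NV: moments of a sum of independent bounded centred variables (helper6)
-/

set_option autoImplicit false

noncomputable section

open MeasureTheory Set Filter Topology

namespace Pool.Agent.W_7d29a1_NV

section four

variable {Ω : Type} [MeasurableSpace Ω] (P : Measure Ω) [IsProbabilityMeasure P]

theorem bint6 {Ω : Type*} [MeasurableSpace Ω] (P : Measure Ω) [IsProbabilityMeasure P]
    {f : Ω → ℝ} (hf : Measurable f) {C : ℝ} (hb : ∀ x, |f x| ≤ C) : Integrable f P := by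
  refine Integrable.of_bound hf.aestronglyMeasurable C ?_
  filter_upwards with x
  rw [Real.norm_eq_abs]
  exact hb x

theorem cons6_meas (k : ℕ) : Measurable fun p : Ω × (Fin k → Ω) =>
    (Fin.cons p.1 p.2 : Fin (k + 1) → Ω) := by
  refine measurable_pi_lambda _ fun i => ?_
  refine Fin.cases ?_ (fun j => ?_) i
  · simpa using measurable_fst
  · have h : Measurable fun z : Ω × (Fin k → Ω) => z.2 j :=
      (measurable_pi_apply j).comp measurable_snd
    simpa using h

theorem pis6 {k : ℕ} {f : (Fin (k + 1) → Ω) → ℝ} (hf : Measurable f) {C : ℝ}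
    (hb : ∀ ω, |f ω| ≤ C) :
    ∫ ω, f ω ∂(Measure.pi fun _ : Fin (k + 1) => P) =
      ∫ x, ∫ y, f (Fin.cons x y) ∂(Measure.pi fun _ : Fin k => P) ∂P := by
  have h1 := (measurePreserving_piFinSuccAbove (fun _ : Fin (k + 1) => P) 0).symm
  have h2 := h1.integral_comp (MeasurableEquiv.measurableEmbedding _) f
  have h3 : ∀ z : Ω × (Fin k → Ω),
      (MeasurableEquiv.piFinSuccAbove (fun _ : Fin (k + 1) => Ω) 0).symm z
        = Fin.cons z.1 z.2 := by
    intro z
    have h4 : ((MeasurableEquiv.piFinSuccAbove (fun _ : Fin (k + 1) => Ω) 0).symm z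
        : Fin (k + 1) → Ω) = Fin.insertNth 0 z.1 z.2 := rfl
    rw [h4, Fin.insertNth_zero']
  rw [← h2]
  simp_rw [h3]
  have h5 : Integrable (fun z : Ω × (Fin k → Ω) => f (Fin.cons z.1 z.2))
      (P.prod (Measure.pi fun _ : Fin k => P)) :=
    bint6 _ (hf.comp (cons6_meas k)) fun z => hb _
  exact integral_prod (fun z : Ω × (Fin k → Ω) => f (Fin.cons z.1 z.2)) h5

theorem sum6_meas {k : ℕ} {g : Fin k → Ω → ℝ} (hg : ∀ i, Measurable (g i)) :
    Measurable fun ω : Fin k → Ω => ∑ i, g i (ω i) :=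
  Finset.measurable_sum _ fun i _ => (hg i).comp (measurable_pi_apply i)

theorem sum6_bd {k : ℕ} {g : Fin k → Ω → ℝ} {b : ℝ} (hb : ∀ i x, |g i x| ≤ b)
    (ω : Fin k → Ω) : |∑ i, g i (ω i)| ≤ k * b := by
  refine (Finset.abs_sum_le_sum_abs _ _).trans ?_
  refine (Finset.sum_le_sum fun i _ => hb i (ω i)).trans ?_
  simp

/-- The first, second and fourth moment of a sum of independent centred bounded variables. -/
theorem four6 {b : ℝ} (hb0 : 0 ≤ b) : ∀ {k : ℕ} {g : Fin k → Ω → ℝ} (_ : ∀ i, Measurable (g i))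
    (_ : ∀ i x, |g i x| ≤ b) (_ : ∀ i, ∫ x, g i x ∂P = 0),
    ∫ ω, (∑ i, g i (ω i)) ∂(Measure.pi fun _ : Fin k => P) = 0 ∧
    ∫ ω, (∑ i, g i (ω i)) ^ 2 ∂(Measure.pi fun _ : Fin k => P) = ∑ i, ∫ x, g i x ^ 2 ∂P ∧
    ∫ ω, (∑ i, g i (ω i)) ^ 4 ∂(Measure.pi fun _ : Fin k => P) ≤
      ∑ i, ∫ x, g i x ^ 4 ∂P + 3 * (∑ i, ∫ x, g i x ^ 2 ∂P) ^ 2 := by
  intro k
  induction k with
  | zero =>
    intro g _ _ _
    simp
  | succ k ih =>
    intro g hg hb h0
    obtain ⟨i1, i2, i4⟩ := ih (g := fun i => g i.succ) (fun i => hg _) (fun i => hb _)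
      (fun i => h0 _)
    set μ : Measure (Fin k → Ω) := Measure.pi fun _ : Fin k => P with hμ
    have hT : Measurable fun y : Fin k → Ω => ∑ i : Fin k, g i.succ (y i) :=
      sum6_meas fun i => hg i.succ
    have hTb : ∀ y : Fin k → Ω, |∑ i : Fin k, g i.succ (y i)| ≤ k * b :=
      sum6_bd fun i => hb i.succ
    have hTn : ∀ n : ℕ, Integrable (fun y : Fin k → Ω => (∑ i : Fin k, g i.succ (y i)) ^ n) μ :=
      fun n => bint6 μ (hT.pow_const n) (C := (k * b) ^ n) fun y => by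
        rw [abs_pow]
        exact pow_le_pow_left₀ (abs_nonneg _) (hTb y) n
    have hgn : ∀ n : ℕ, Integrable (fun x => g 0 x ^ n) P :=
      fun n => bint6 P ((hg 0).pow_const n) (C := b ^ n) fun x => by
        rw [abs_pow]
        exact pow_le_pow_left₀ (abs_nonneg _) (hb 0 x) n
    have hcons : ∀ (x : Ω) (y : Fin k → Ω),
        ∑ i, g i ((Fin.cons x y : Fin (k + 1) → Ω) i) = g 0 x + ∑ i : Fin k, g i.succ (y i) := by
      intro x y
      rw [Fin.sum_univ_succ]
      simp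
    have hfull : ∀ ω : Fin (k + 1) → Ω, |∑ i, g i (ω i)| ≤ ((k + 1 : ℕ) : ℝ) * b := sum6_bd hb
    have hTn1 : Integrable (fun y : Fin k → Ω => ∑ i : Fin k, g i.succ (y i)) μ := by
      simpa using hTn 1
    have hg1 : Integrable (g 0) P := by simpa using hgn 1
    refine ⟨?_, ?_, ?_⟩
    · rw [pis6 P (sum6_meas hg) hfull]
      have e1 : ∀ x, ∫ y, ∑ i, g i ((Fin.cons x y : Fin (k + 1) → Ω) i) ∂μ = g 0 x := by
        intro x
        rw [integral_congr_ae (Filter.Eventually.of_forall fun y => hcons x y),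
          integral_add (integrable_const _) hTn1, i1]
        simp
      rw [integral_congr_ae (Filter.Eventually.of_forall e1)]
      exact h0 0
    · rw [pis6 P ((sum6_meas hg).pow_const 2) (C := (((k + 1 : ℕ) : ℝ) * b) ^ 2) fun ω => by
        rw [abs_pow]
        exact pow_le_pow_left₀ (abs_nonneg _) (hfull ω) 2]
      have e1 : ∀ x, ∫ y, (∑ i, g i ((Fin.cons x y : Fin (k + 1) → Ω) i)) ^ 2 ∂μ =
          g 0 x ^ 2 + ∑ i : Fin k, ∫ z, g i.succ z ^ 2 ∂P := by
        intro x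
        have e2 : ∀ y : Fin k → Ω, (∑ i, g i ((Fin.cons x y : Fin (k + 1) → Ω) i)) ^ 2 =
            g 0 x ^ 2 + 2 * g 0 x * (∑ i : Fin k, g i.succ (y i)) +
              (∑ i : Fin k, g i.succ (y i)) ^ 2 := by
          intro y
          rw [hcons]
          ring
        have j1 : Integrable (fun y : Fin k → Ω => g 0 x ^ 2 +
            2 * g 0 x * (∑ i : Fin k, g i.succ (y i))) μ :=
          (integrable_const _).add (hTn1.const_mul _)
        rw [integral_congr_ae (Filter.Eventually.of_forall e2), integral_add j1 (hTn 2),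
          integral_add (integrable_const _) (hTn1.const_mul _), integral_const_mul, i1, i2]
        simp
      rw [integral_congr_ae (Filter.Eventually.of_forall e1),
        integral_add (hgn 2) (integrable_const _), Fin.sum_univ_succ]
      simp
    · rw [pis6 P ((sum6_meas hg).pow_const 4) (C := (((k + 1 : ℕ) : ℝ) * b) ^ 4) fun ω => by
        rw [abs_pow]
        exact pow_le_pow_left₀ (abs_nonneg _) (hfull ω) 4]
      set V : ℝ := ∑ i : Fin k, ∫ z, g i.succ z ^ 2 ∂P with hV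
      set M3 : ℝ := ∫ y, (∑ i : Fin k, g i.succ (y i)) ^ 3 ∂μ with hM3
      set M4 : ℝ := ∫ y, (∑ i : Fin k, g i.succ (y i)) ^ 4 ∂μ with hM4
      have e1 : ∀ x, ∫ y, (∑ i, g i ((Fin.cons x y : Fin (k + 1) → Ω) i)) ^ 4 ∂μ =
          g 0 x ^ 4 + 6 * V * g 0 x ^ 2 + 4 * M3 * g 0 x + M4 := by
        intro x
        have e2 : ∀ y : Fin k → Ω, (∑ i, g i ((Fin.cons x y : Fin (k + 1) → Ω) i)) ^ 4 =
            ((g 0 x ^ 4 + 4 * g 0 x ^ 3 * (∑ i : Fin k, g i.succ (y i))) +
              6 * g 0 x ^ 2 * (∑ i : Fin k, g i.succ (y i)) ^ 2) +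
              (4 * g 0 x * (∑ i : Fin k, g i.succ (y i)) ^ 3 +
              (∑ i : Fin k, g i.succ (y i)) ^ 4) := by
          intro y
          rw [hcons]
          ring
        have j1 : Integrable (fun y : Fin k → Ω => g 0 x ^ 4 +
            4 * g 0 x ^ 3 * (∑ i : Fin k, g i.succ (y i))) μ :=
          (integrable_const _).add (hTn1.const_mul _)
        have j2 : Integrable (fun y : Fin k → Ω => (g 0 x ^ 4 +
            4 * g 0 x ^ 3 * (∑ i : Fin k, g i.succ (y i))) +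
            6 * g 0 x ^ 2 * (∑ i : Fin k, g i.succ (y i)) ^ 2) μ :=
          j1.add ((hTn 2).const_mul _)
        have j3 : Integrable (fun y : Fin k → Ω => 4 * g 0 x * (∑ i : Fin k, g i.succ (y i)) ^ 3 +
            (∑ i : Fin k, g i.succ (y i)) ^ 4) μ := ((hTn 3).const_mul _).add (hTn 4)
        rw [integral_congr_ae (Filter.Eventually.of_forall e2), integral_add j2 j3,
          integral_add j1 ((hTn 2).const_mul _),
          integral_add (integrable_const _) (hTn1.const_mul _),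
          integral_add ((hTn 3).const_mul _) (hTn 4), integral_const_mul, integral_const_mul,
          integral_const_mul, i1, i2, ← hM3, ← hM4]
        simp
        ring
      have k1 : Integrable (fun x => g 0 x ^ 4 + 6 * V * g 0 x ^ 2) P :=
        (hgn 4).add ((hgn 2).const_mul _)
      have k2 : Integrable (fun x => g 0 x ^ 4 + 6 * V * g 0 x ^ 2 + 4 * M3 * g 0 x) P :=
        k1.add (hg1.const_mul _)
      rw [integral_congr_ae (Filter.Eventually.of_forall e1), integral_add k2 (integrable_const _),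
        integral_add k1 (hg1.const_mul _), integral_add (hgn 4) ((hgn 2).const_mul _),
        integral_const_mul, integral_const_mul, h0 0, Fin.sum_univ_succ, Fin.sum_univ_succ]
      have hs : 0 ≤ ∫ x, g 0 x ^ 2 ∂P := integral_nonneg fun x => sq_nonneg _
      simp only [integral_const, probReal_univ, smul_eq_mul, one_mul, mul_zero, add_zero]
      nlinarith [sq_nonneg (∫ x, g 0 x ^ 2 ∂P), i4]

/-- The mean absolute value of a sum of independent centred bounded variables. -/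
theorem absum6 {B : ℝ} (hB : 0 < B) {k : ℕ} {g : Fin k → Ω → ℝ} (hg : ∀ i, Measurable (g i))
    (hb : ∀ i x, |g i x| ≤ 2 * B) (h0 : ∀ i, ∫ x, g i x ∂P = 0)
    (hv : ∀ i, ∫ x, g i x ^ 2 ∂P ≤ B ^ 2) :
    (∑ i, ∫ x, g i x ^ 2 ∂P) / (2 * B * Real.sqrt (k + 1)) ≤
      ∫ ω, |∑ i, g i (ω i)| ∂(Measure.pi fun _ : Fin k => P) := by
  obtain ⟨-, m2, m4⟩ := four6 P (b := 2 * B) (by positivity) hg hb h0
  set μ : Measure (Fin k → Ω) := Measure.pi fun _ : Fin k => P with hμ
  set V : ℝ := ∑ i, ∫ x, g i x ^ 2 ∂P with hV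
  have hV0 : 0 ≤ V := Finset.sum_nonneg fun i _ => integral_nonneg fun x => sq_nonneg _
  have hVk : V ≤ k * B ^ 2 := by
    refine (Finset.sum_le_sum fun i _ => hv i).trans ?_
    simp
  have h4 : ∑ i, ∫ x, g i x ^ 4 ∂P ≤ 4 * B ^ 2 * V := by
    rw [hV, Finset.mul_sum]
    refine Finset.sum_le_sum fun i _ => ?_
    rw [← integral_const_mul]
    refine integral_mono (bint6 P ((hg i).pow_const 4) (C := (2 * B) ^ 4) fun x => ?_)
      ((bint6 P ((hg i).pow_const 2) (C := (2 * B) ^ 2) fun x => ?_).const_mul _) fun x => ?_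
    · rw [abs_pow]
      exact pow_le_pow_left₀ (abs_nonneg _) (hb i x) 4
    · rw [abs_pow]
      exact pow_le_pow_left₀ (abs_nonneg _) (hb i x) 2
    · have h1 : g i x ^ 2 ≤ (2 * B) ^ 2 := by
        rw [← sq_abs]
        exact pow_le_pow_left₀ (abs_nonneg _) (hb i x) 2
      have h2 := sq_nonneg (g i x)
      show g i x ^ 4 ≤ 4 * B ^ 2 * g i x ^ 2
      nlinarith
  set r : ℝ := Real.sqrt (k + 1) with hr
  have hk1 : (0 : ℝ) < k + 1 := by positivity
  have hr0 : 0 < r := Real.sqrt_pos.2 hk1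
  have hr2 : r ^ 2 = k + 1 := Real.sq_sqrt hk1.le
  set L : ℝ := 4 / 3 * B * r with hL
  have hL0 : 0 < L := by positivity
  have hpt : ∀ t : ℝ, t ^ 2 / L - 4 / 27 * t ^ 4 / L ^ 3 ≤ |t| := by
    intro t
    have h1 : t ^ 2 = |t| ^ 2 := (sq_abs t).symm
    have h2 : t ^ 4 = |t| ^ 4 := by
      rw [show t ^ 4 = (t ^ 2) ^ 2 by ring, h1]
      ring
    rw [h1, h2]
    set a := |t| with ha
    have ha0 : 0 ≤ a := abs_nonneg t
    have h3 : a - (a ^ 2 / L - 4 / 27 * a ^ 4 / L ^ 3) =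
        a * ((2 * (a / L) - 3) ^ 2 * (a / L + 3)) / 27 := by
      field_simp
      ring
    have h4 : 0 ≤ a * ((2 * (a / L) - 3) ^ 2 * (a / L + 3)) / 27 := by positivity
    linarith
  have hHm : Measurable fun ω : Fin k → Ω => ∑ i, g i (ω i) := sum6_meas hg
  have hHb : ∀ ω : Fin k → Ω, |∑ i, g i (ω i)| ≤ k * (2 * B) := sum6_bd hb
  have hHn : ∀ n : ℕ, Integrable (fun ω : Fin k → Ω => (∑ i, g i (ω i)) ^ n) μ :=
    fun n => bint6 μ (hHm.pow_const n) (C := (k * (2 * B)) ^ n) fun y => by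
      rw [abs_pow]
      exact pow_le_pow_left₀ (abs_nonneg _) (hHb y) n
  have hHa : Integrable (fun ω : Fin k → Ω => |∑ i, g i (ω i)|) μ := by
    have h := hHn 1
    simpa using h.abs
  have hint : Integrable (fun ω : Fin k → Ω => (∑ i, g i (ω i)) ^ 2 / L -
      4 / 27 * (∑ i, g i (ω i)) ^ 4 / L ^ 3) μ := by
    refine ((hHn 2).div_const _).sub (Integrable.div_const ?_ _)
    exact (hHn 4).const_mul _
  have h5 : ∫ ω, ((∑ i, g i (ω i)) ^ 2 / L - 4 / 27 * (∑ i, g i (ω i)) ^ 4 / L ^ 3) ∂μ ≤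
      ∫ ω, |∑ i, g i (ω i)| ∂μ := integral_mono hint hHa fun ω => hpt _
  have h6 : ∫ ω, ((∑ i, g i (ω i)) ^ 2 / L - 4 / 27 * (∑ i, g i (ω i)) ^ 4 / L ^ 3) ∂μ =
      V / L - 4 / 27 * (∫ ω, (∑ i, g i (ω i)) ^ 4 ∂μ) / L ^ 3 := by
    rw [integral_sub ((hHn 2).div_const _) (Integrable.div_const ((hHn 4).const_mul _) _),
      integral_div, integral_div, integral_const_mul, m2]
  rw [h6] at h5
  refine le_trans ?_ h5
  have h7 : ∫ ω, (∑ i, g i (ω i)) ^ 4 ∂μ ≤ 4 * B ^ 2 * r ^ 2 * V := by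
    refine m4.trans ?_
    rw [hr2]
    nlinarith
  have h8 : 4 / 27 * (∫ ω, (∑ i, g i (ω i)) ^ 4 ∂μ) / L ^ 3 ≤
      4 / 27 * (4 * B ^ 2 * r ^ 2 * V) / L ^ 3 := by
    have : 0 < L ^ 3 := by positivity
    gcongr
  refine le_trans ?_ (sub_le_sub_left h8 _)
  rw [hL]
  apply le_of_eq
  field_simp
  ring

end four

end Pool.Agent.W_7d29a1_NV
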