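import Pool.Agent.W_7d29a1_NV.DefsNV
import Pool.Agent.W_7d29a1_NV.KL77
import Pool.Agent.W_7d29a1_NV.Two6a

/-!
# MP_7d29a1_pr, THEOREM NV: leaf T2 (helper6)
-/

set_option autoImplicit false

noncomputable section

open MeasureTheory Set Filter Topology

namespace Pool.Agent.W_7d29a1_NV

section two

variable {Ω S : Type} [MeasurableSpace Ω] [Fintype S] {k : ℕ} {P : Measure Ω}
  {Q : S → ℝ} {u : Fin k → S → Ω → ℝ} {B : ℝ}

theorem ht_pos6 (h : HT P Q u B) (i : Fin k) (s : S) (x : Ω) : 0 < u i s x :=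
  (Real.exp_pos _).trans_le (h.lo i s x)

theorem ht_log6 (h : HT P Q u B) (i : Fin k) (s : S) (x : Ω) : |Real.log (u i s x)| ≤ B := by
  have h1 := Real.log_le_log (Real.exp_pos _) (h.lo i s x)
  have h2 := Real.log_le_log (ht_pos6 h i s x) (h.hi i s x)
  rw [Real.log_exp] at h1 h2
  exact abs_le.2 ⟨by linarith, h2⟩

/-- The logarithmic gain of the class `s`. -/
def gs6 (u : Fin k → S → Ω → ℝ) (ω : Fin k → Ω) (s : S) : ℝ := ∑ i, Real.log (u i s (ω i))

theorem wT_eq6 (h : HT P Q u B) (ω : Fin k → Ω) (s : S) :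
    wT Q u ω s = Q s * Real.exp (gs6 u ω s) := by
  unfold wT gs6
  rw [Real.exp_sum]
  congr 1
  exact Finset.prod_congr rfl fun i _ => (Real.exp_log (ht_pos6 h i s _)).symm

theorem gs6_bd (h : HT P Q u B) (ω : Fin k → Ω) (s : S) : |gs6 u ω s| ≤ k * B :=
  sum6_bd (g := fun i x => Real.log (u i s x)) (fun i x => ht_log6 h i s x) ω

theorem gs6_meas (h : HT P Q u B) (s : S) : Measurable fun ω => gs6 u ω s :=
  sum6_meas (g := fun i x => Real.log (u i s x)) fun i => Real.measurable_log.comp (h.um i s)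

theorem dT_lb6 (h : HT P Q u B) (ω : Fin k → Ω) : Real.exp (-(k * B)) ≤ dT Q u ω := by
  have h1 : Real.exp (-(k * B)) = ∑ s, Q s * Real.exp (-(k * B)) := by
    rw [← Finset.sum_mul, h.q1, one_mul]
  rw [h1]
  unfold dT
  refine Finset.sum_le_sum fun s _ => ?_
  rw [wT_eq6 h]
  refine mul_le_mul_of_nonneg_left (Real.exp_le_exp.2 ?_) (h.q0 s)
  have := abs_le.1 (gs6_bd h ω s)
  linarith [this.1]

theorem dT_ub6 (h : HT P Q u B) (ω : Fin k → Ω) : dT Q u ω ≤ Real.exp (k * B) := by
  have h1 : Real.exp (k * B) = ∑ s, Q s * Real.exp (k * B) := by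
    rw [← Finset.sum_mul, h.q1, one_mul]
  rw [h1]
  unfold dT
  refine Finset.sum_le_sum fun s _ => ?_
  rw [wT_eq6 h]
  exact mul_le_mul_of_nonneg_left (Real.exp_le_exp.2 (abs_le.1 (gs6_bd h ω s)).2) (h.q0 s)

theorem dT_pos6 (h : HT P Q u B) (ω : Fin k → Ω) : 0 < dT Q u ω :=
  (Real.exp_pos _).trans_le (dT_lb6 h ω)

theorem ldT_bd6 (h : HT P Q u B) (ω : Fin k → Ω) : |Real.log (dT Q u ω)| ≤ k * B := by
  have h1 := Real.log_le_log (Real.exp_pos _) (dT_lb6 h ω)
  have h2 := Real.log_le_log (dT_pos6 h ω) (dT_ub6 h ω)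
  rw [Real.log_exp] at h1 h2
  exact abs_le.2 ⟨by linarith, h2⟩

theorem wT_meas6 (h : HT P Q u B) (s : S) : Measurable fun ω => wT Q u ω s := by
  have h1 : (fun ω => wT Q u ω s) = fun ω => Q s * Real.exp (gs6 u ω s) :=
    funext fun ω => wT_eq6 h ω s
  rw [h1]
  exact (Real.measurable_exp.comp (gs6_meas h s)).const_mul _

theorem dT_meas6 (h : HT P Q u B) : Measurable fun ω => dT Q u ω := by
  unfold dT
  exact Finset.measurable_sum _ fun s _ => wT_meas6 h s

theorem prT_meas6 (h : HT P Q u B) (s : S) : Measurable fun ω => prT Q u ω s :=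
  (wT_meas6 h s).div (dT_meas6 h)

theorem prT_nn6 (h : HT P Q u B) (ω : Fin k → Ω) (s : S) : 0 ≤ prT Q u ω s := by
  refine div_nonneg ?_ (dT_pos6 h ω).le
  rw [wT_eq6 h]
  exact mul_nonneg (h.q0 s) (Real.exp_pos _).le

theorem prT_sum6 (h : HT P Q u B) (ω : Fin k → Ω) : ∑ s, prT Q u ω s = 1 := by
  unfold prT
  rw [← Finset.sum_div]
  exact div_self (dT_pos6 h ω).ne'

theorem prT_le6 (h : HT P Q u B) (ω : Fin k → Ω) (s : S) : prT Q u ω s ≤ 1 := by
  rw [← prT_sum6 h ω]
  exact Finset.single_le_sum (fun t _ => prT_nn6 h ω t) (Finset.mem_univ s)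

theorem prT_z6 (h : HT P Q u B) (ω : Fin k → Ω) {s : S} (hs : Q s = 0) : prT Q u ω s = 0 := by
  unfold prT
  rw [wT_eq6 h, hs, zero_mul, zero_div]

theorem prT_z6' (h : HT P Q u B) (ω : Fin k → Ω) {s : S} (hs : prT Q u ω s = 0) : Q s = 0 := by
  unfold prT at hs
  rw [wT_eq6 h, div_eq_zero_iff] at hs
  rcases hs with hs | hs
  · rcases mul_eq_zero.1 hs with h1 | h1
    · exact h1
    · exact absurd h1 (Real.exp_ne_zero _)
  · exact absurd hs (dT_pos6 h ω).ne'

theorem prT_log6 (h : HT P Q u B) (ω ω' : Fin k → Ω) {s : S} (hs : Q s ≠ 0) :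
    Real.log (prT Q u ω s / prT Q u ω' s) =
      gs6 u ω s - gs6 u ω' s - (Real.log (dT Q u ω) - Real.log (dT Q u ω')) := by
  have h1 := (dT_pos6 h ω).ne'
  have h2 := (dT_pos6 h ω').ne'
  unfold prT
  rw [wT_eq6 h, wT_eq6 h,
    Real.log_div (div_ne_zero (mul_ne_zero hs (Real.exp_ne_zero _)) h1)
      (div_ne_zero (mul_ne_zero hs (Real.exp_ne_zero _)) h2),
    Real.log_div (mul_ne_zero hs (Real.exp_ne_zero _)) h1,
    Real.log_div (mul_ne_zero hs (Real.exp_ne_zero _)) h2,
    Real.log_mul hs (Real.exp_ne_zero _), Real.log_mul hs (Real.exp_ne_zero _),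
    Real.log_exp, Real.log_exp]
  ring

theorem pp6 (h : HT P Q u B) (ω ω' : Fin k → Ω) :
    PP77 Finset.univ (prT Q u ω) (prT Q u ω') where
  hp s _ := prT_nn6 h ω s
  hq s _ := prT_nn6 h ω' s
  ac _ _ hs := prT_z6 h ω (prT_z6' h ω' hs)
  sp := prT_sum6 h ω
  sq := prT_sum6 h ω'

theorem prT_mul_log6 (h : HT P Q u B) (ω ω' : Fin k → Ω) (s : S) :
    prT Q u ω s * Real.log (prT Q u ω s / prT Q u ω' s) = prT Q u ω s *
      (gs6 u ω s - gs6 u ω' s - (Real.log (dT Q u ω) - Real.log (dT Q u ω'))) := by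
  by_cases hs : Q s = 0
  · rw [prT_z6 h ω hs, zero_mul, zero_mul]
  · rw [prT_log6 h ω ω' hs]

theorem kl6 (h : HT P Q u B) (ω ω' : Fin k → Ω) :
    kl Finset.univ (prT Q u ω) (prT Q u ω') =
      (∑ s, prT Q u ω s * (gs6 u ω s - gs6 u ω' s)) -
        (Real.log (dT Q u ω) - Real.log (dT Q u ω')) := by
  unfold kl
  rw [Finset.sum_congr rfl fun s _ => prT_mul_log6 h ω ω' s]
  have h1 : ∀ s, prT Q u ω s *
      (gs6 u ω s - gs6 u ω' s - (Real.log (dT Q u ω) - Real.log (dT Q u ω'))) =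
      prT Q u ω s * (gs6 u ω s - gs6 u ω' s) -
        prT Q u ω s * (Real.log (dT Q u ω) - Real.log (dT Q u ω')) := fun s => by ring
  rw [Finset.sum_congr rfl fun s _ => h1 s, Finset.sum_sub_distrib, ← Finset.sum_mul,
    prT_sum6 h, one_mul]

theorem gsd6 (h : HT P Q u B) (ω ω' : Fin k → Ω) (s : S) :
    |gs6 u ω s - gs6 u ω' s| ≤ 2 * (k * B) := by
  have h1 := abs_le.1 (gs6_bd h ω s)
  have h2 := abs_le.1 (gs6_bd h ω' s)
  exact abs_le.2 ⟨by linarith [h1.1, h2.2], by linarith [h1.2, h2.1]⟩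

theorem ldd6 (h : HT P Q u B) (ω ω' : Fin k → Ω) :
    |Real.log (dT Q u ω) - Real.log (dT Q u ω')| ≤ 2 * (k * B) := by
  have h1 := abs_le.1 (ldT_bd6 h ω)
  have h2 := abs_le.1 (ldT_bd6 h ω')
  exact abs_le.2 ⟨by linarith [h1.1, h2.2], by linarith [h1.2, h2.1]⟩

/-- A mean with the class law of a bounded quantity is bounded. -/
theorem prm6 (h : HT P Q u B) (ω : Fin k → Ω) {f : S → ℝ} {C : ℝ} (hf : ∀ s, |f s| ≤ C) :
    |∑ s, prT Q u ω s * f s| ≤ C := by
  refine (Finset.abs_sum_le_sum_abs _ _).trans ?_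
  have h1 : ∀ s ∈ Finset.univ, |prT Q u ω s * f s| ≤ prT Q u ω s * C := fun s _ => by
    rw [abs_mul, abs_of_nonneg (prT_nn6 h ω s)]
    exact mul_le_mul_of_nonneg_left (hf s) (prT_nn6 h ω s)
  refine (Finset.sum_le_sum h1).trans ?_
  rw [← Finset.sum_mul, prT_sum6 h, one_mul]

theorem psT_bd6 [IsProbabilityMeasure P] (h : HT P Q u B) (i : Fin k) (s : S) :
    |psT P u i s| ≤ B := by
  unfold psT
  have h1 := norm_integral_le_of_norm_le_const (μ := P) (f := fun x => Real.log (u i s x)) (C := B)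
    (Filter.Eventually.of_forall fun x => by
      rw [Real.norm_eq_abs]
      exact ht_log6 h i s x)
  simpa using h1

theorem gc_bd6 [IsProbabilityMeasure P] (h : HT P Q u B) (i : Fin k) (s : S) (x : Ω) :
    |Real.log (u i s x) - psT P u i s| ≤ 2 * B := by
  have h1 := abs_le.1 (ht_log6 h i s x)
  have h2 := abs_le.1 (psT_bd6 h i s)
  exact abs_le.2 ⟨by linarith [h1.1, h2.2], by linarith [h1.2, h2.1]⟩

theorem gc_meas6 (h : HT P Q u B) (i : Fin k) (s : S) :
    Measurable fun x => Real.log (u i s x) - psT P u i s :=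
  (Real.measurable_log.comp (h.um i s)).sub_const _

theorem lu_int6 [IsProbabilityMeasure P] (h : HT P Q u B) (i : Fin k) (s : S) :
    Integrable (fun x => Real.log (u i s x)) P :=
  bint6 P (Real.measurable_log.comp (h.um i s)) fun x => ht_log6 h i s x

theorem gc_int6 [IsProbabilityMeasure P] (h : HT P Q u B) (i : Fin k) (s : S) :
    ∫ x, (Real.log (u i s x) - psT P u i s) ∂P = 0 := by
  rw [integral_sub (lu_int6 h i s) (integrable_const _)]
  simp [psT]

theorem va_le6 [IsProbabilityMeasure P] (h : HT P Q u B) (i : Fin k) (s : S) :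
    vaT P u i s ≤ B ^ 2 := by
  have hi := lu_int6 h i s
  have hi2 : Integrable (fun x => Real.log (u i s x) ^ 2) P :=
    bint6 P ((Real.measurable_log.comp (h.um i s)).pow_const 2) (C := B ^ 2) fun x => by
      rw [abs_pow]
      exact pow_le_pow_left₀ (abs_nonneg _) (ht_log6 h i s x) 2
  have e1 : ∀ x, (Real.log (u i s x) - psT P u i s) ^ 2 =
      Real.log (u i s x) ^ 2 - 2 * psT P u i s * Real.log (u i s x) + psT P u i s ^ 2 :=
    fun x => by ring
  have hi3 : Integrable (fun x => Real.log (u i s x) ^ 2 -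
      2 * psT P u i s * Real.log (u i s x)) P := hi2.sub (hi.const_mul _)
  unfold vaT
  rw [integral_congr_ae (Filter.Eventually.of_forall e1), integral_add hi3 (integrable_const _),
    integral_sub hi2 (hi.const_mul _), integral_const_mul]
  have h1 : ∫ x, Real.log (u i s x) ^ 2 ∂P ≤ B ^ 2 := by
    have h2 : ∫ x, Real.log (u i s x) ^ 2 ∂P ≤ ∫ _, B ^ 2 ∂P := by
      refine integral_mono hi2 (integrable_const _) fun x => ?_
      show Real.log (u i s x) ^ 2 ≤ B ^ 2
      rw [← sq_abs]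
      exact pow_le_pow_left₀ (abs_nonneg _) (ht_log6 h i s x) 2
    simpa using h2
  have h3 : ∫ x, Real.log (u i s x) ∂P = psT P u i s := rfl
  rw [h3]
  simp only [integral_const, probReal_univ, smul_eq_mul, one_mul]
  nlinarith [sq_nonneg (psT P u i s)]

theorem gsc6 (u : Fin k → S → Ω → ℝ) (P : Measure Ω) (ω : Fin k → Ω) (s : S) :
    ∑ i, (Real.log (u i s (ω i)) - psT P u i s) = gs6 u ω s - ∑ i, psT P u i s := by
  rw [Finset.sum_sub_distrib]
  rfl

theorem gs_int6 [IsProbabilityMeasure P] (h : HT P Q u B) (hB : 0 ≤ B) (s : S) :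
    ∫ ω, gs6 u ω s ∂(Measure.pi fun _ : Fin k => P) = ∑ i, psT P u i s := by
  have h1 := (four6 P (b := 2 * B) (by positivity) (g := fun i x => Real.log (u i s x) -
    psT P u i s) (fun i => gc_meas6 h i s) (fun i x => gc_bd6 h i s x)
    (fun i => gc_int6 h i s)).1
  rw [integral_congr_ae (Filter.Eventually.of_forall fun ω => gsc6 u P ω s),
    integral_sub (bint6 _ (gs6_meas h s) fun ω => gs6_bd h ω s) (integrable_const _)] at h1
  simp only [integral_const, probReal_univ, smul_eq_mul, one_mul] at h1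
  linarith

theorem ka_sum6 [IsProbabilityMeasure P] (h : HT P Q u B) :
    ∑ i, kaT P Q u i = ∫ ω, ∑ s, prT Q u ω s * (gs6 u ω s - ∑ i, psT P u i s)
      ∂(Measure.pi fun _ : Fin k => P) := by
  unfold kaT
  rw [← integral_finsetSum]
  · refine integral_congr_ae (Filter.Eventually.of_forall fun ω => ?_)
    show ∑ i, ∑ s, prT Q u ω s * (Real.log (u i s (ω i)) - psT P u i s) = _
    rw [Finset.sum_comm]
    refine Finset.sum_congr rfl fun s _ => ?_
    rw [← Finset.mul_sum, gsc6]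
  · intro i _
    refine bint6 _ (Finset.measurable_sum _ fun s _ => (prT_meas6 h s).mul
      (((Real.measurable_log.comp (h.um i s)).comp (measurable_pi_apply i)).sub_const _))
      (C := 2 * B) fun ω => prm6 h ω fun s => gc_bd6 h i s _

/-- **The selection of all the rows.** -/
theorem sel_all6 [IsProbabilityMeasure P] (h : HT P Q u B) (hB : 0 ≤ B) :
    ∫ ω, ∫ ω', kl Finset.univ (prT Q u ω) (prT Q u ω') ∂(Measure.pi fun _ : Fin k => P)
      ∂(Measure.pi fun _ : Fin k => P) = ∑ i, kaT P Q u i := by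
  set μ : Measure (Fin k → Ω) := Measure.pi fun _ : Fin k => P with hμ
  have hF : Integrable (fun ω => Real.log (dT Q u ω)) μ :=
    bint6 μ (Real.measurable_log.comp (dT_meas6 h)) fun ω => ldT_bd6 h ω
  have hg : ∀ s, Integrable (fun ω => gs6 u ω s) μ := fun s =>
    bint6 μ (gs6_meas h s) fun ω => gs6_bd h ω s
  have e1 : ∀ ω, ∫ ω', kl Finset.univ (prT Q u ω) (prT Q u ω') ∂μ =
      (∑ s, prT Q u ω s * (gs6 u ω s - ∑ i, psT P u i s)) -
        (Real.log (dT Q u ω) - ∫ ω', Real.log (dT Q u ω') ∂μ) := by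
    intro ω
    have i1 : ∀ s, Integrable (fun ω' => prT Q u ω s * (gs6 u ω s - gs6 u ω' s)) μ := fun s =>
      ((integrable_const _).sub (hg s)).const_mul _
    have i2 : Integrable (fun ω' => Real.log (dT Q u ω) - Real.log (dT Q u ω')) μ :=
      (integrable_const _).sub hF
    rw [integral_congr_ae (Filter.Eventually.of_forall fun ω' => kl6 h ω ω'),
      integral_sub (integrable_finsetSum _ fun s _ => i1 s) i2,
      integral_finsetSum _ fun s _ => i1 s, integral_sub (integrable_const _) hF]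
    have e2 : ∀ s, ∫ ω', prT Q u ω s * (gs6 u ω s - gs6 u ω' s) ∂μ =
        prT Q u ω s * (gs6 u ω s - ∑ i, psT P u i s) := by
      intro s
      rw [integral_const_mul, integral_sub (integrable_const _) (hg s), gs_int6 h hB s]
      simp
    rw [Finset.sum_congr rfl fun s _ => e2 s]
    simp only [integral_const, probReal_univ, smul_eq_mul, one_mul]
  have i3 : Integrable (fun ω => ∑ s, prT Q u ω s * (gs6 u ω s - ∑ i, psT P u i s)) μ := by
    refine bint6 μ (Finset.measurable_sum _ fun s _ => (prT_meas6 h s).mul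
      ((gs6_meas h s).sub_const _)) (C := k * (2 * B)) fun ω => prm6 h ω fun s => ?_
    rw [← gsc6]
    exact sum6_bd (g := fun i x => Real.log (u i s x) - psT P u i s)
      (fun i x => gc_bd6 h i s x) ω
  have i4 : Integrable (fun ω => Real.log (dT Q u ω) - ∫ ω', Real.log (dT Q u ω') ∂μ) μ :=
    hF.sub (integrable_const _)
  rw [integral_congr_ae (Filter.Eventually.of_forall e1), integral_sub i3 i4,
    integral_sub hF (integrable_const _), ka_sum6 h]
  simp only [integral_const, probReal_univ, smul_eq_mul, one_mul, sub_self, sub_zero]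
  rfl

/-- Jensen for the square root. -/
theorem sqrt6 {Θ : Type} [MeasurableSpace Θ] (M : Measure Θ) [IsProbabilityMeasure M] {f : Θ → ℝ}
    (hf : Measurable f) {C : ℝ} (h0 : ∀ x, 0 ≤ f x) (hC : ∀ x, f x ≤ C) :
    ∫ x, Real.sqrt (f x) ∂M ≤ Real.sqrt (∫ x, f x ∂M) := by
  have hi : Integrable f M := bint6 M hf (C := C) fun x => by
    rw [abs_of_nonneg (h0 x)]
    exact hC x
  have hs : Integrable (fun x => Real.sqrt (f x)) M :=
    bint6 M (Real.continuous_sqrt.measurable.comp hf) (C := Real.sqrt C) fun x => by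
      rw [abs_of_nonneg (Real.sqrt_nonneg _)]
      exact Real.sqrt_le_sqrt (hC x)
  refine Real.le_sqrt_of_sq_le ?_
  set m := ∫ x, Real.sqrt (f x) ∂M with hm
  have h1 : 0 ≤ ∫ x, (Real.sqrt (f x) - m) ^ 2 ∂M := integral_nonneg fun x => sq_nonneg _
  have e1 : ∀ x, (Real.sqrt (f x) - m) ^ 2 = f x - 2 * m * Real.sqrt (f x) + m ^ 2 := by
    intro x
    have := Real.sq_sqrt (h0 x)
    nlinarith
  have hi2 : Integrable (fun x => f x - 2 * m * Real.sqrt (f x)) M := hi.sub (hs.const_mul _)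
  rw [integral_congr_ae (Filter.Eventually.of_forall e1), integral_add hi2 (integrable_const _),
    integral_sub hi (hs.const_mul _), integral_const_mul, ← hm] at h1
  simp only [integral_const, probReal_univ, smul_eq_mul, one_mul] at h1
  nlinarith

/-- The class law of another environment, against the class law. -/
theorem step6 (h : HT P Q u B) (hB : 0 ≤ B) (ω ω' : Fin k → Ω) {g : S → ℝ}
    (hg1 : ∑ s, g s = 1) :
    ∑ s, g s * |gs6 u ω s - gs6 u ω' s| ≤
      |Real.log (dT Q u ω) - Real.log (dT Q u ω')| +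
        (kl Finset.univ (prT Q u ω) (prT Q u ω') +
          2 * Real.sqrt (kl Finset.univ (prT Q u ω) (prT Q u ω'))) +
        k * B * ∑ s, |g s - prT Q u ω s| := by
  set T : S → ℝ := fun s => |gs6 u ω s - gs6 u ω' s| with hT
  have h1 : ∑ s, prT Q u ω s * T s ≤ |Real.log (dT Q u ω) - Real.log (dT Q u ω')| +
      (kl Finset.univ (prT Q u ω) (prT Q u ω') +
        2 * Real.sqrt (kl Finset.univ (prT Q u ω) (prT Q u ω'))) := by
    have h2 := abs77 (pp6 h ω ω')
    have h3 : ∀ s ∈ Finset.univ, prT Q u ω s * T s ≤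
        prT Q u ω s * |Real.log (dT Q u ω) - Real.log (dT Q u ω')| +
          prT Q u ω s * |Real.log (prT Q u ω s / prT Q u ω' s)| := by
      intro s _
      by_cases hs : Q s = 0
      · rw [prT_z6 h ω hs]
        simp
      · rw [prT_log6 h ω ω' hs, ← mul_add]
        refine mul_le_mul_of_nonneg_left ?_ (prT_nn6 h ω s)
        have h4 := abs_add_le (Real.log (dT Q u ω) - Real.log (dT Q u ω'))
          (gs6 u ω s - gs6 u ω' s - (Real.log (dT Q u ω) - Real.log (dT Q u ω')))
        have h5 : Real.log (dT Q u ω) - Real.log (dT Q u ω') +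
            (gs6 u ω s - gs6 u ω' s - (Real.log (dT Q u ω) - Real.log (dT Q u ω'))) =
            gs6 u ω s - gs6 u ω' s := by ring
        rw [h5] at h4
        exact h4
    refine (Finset.sum_le_sum h3).trans ?_
    rw [Finset.sum_add_distrib, ← Finset.sum_mul, prT_sum6 h, one_mul]
    linarith
  have h6 : ∑ s, g s * T s - ∑ s, prT Q u ω s * T s ≤ k * B * ∑ s, |g s - prT Q u ω s| := by
    have e1 : ∑ s, g s * T s - ∑ s, prT Q u ω s * T s =
        ∑ s, (g s - prT Q u ω s) * (T s - k * B) := by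
      have e2 : ∀ s, (g s - prT Q u ω s) * (T s - k * B) =
          g s * T s - prT Q u ω s * T s - (g s - prT Q u ω s) * (k * B) := fun s => by ring
      rw [Finset.sum_congr rfl fun s _ => e2 s, Finset.sum_sub_distrib, Finset.sum_sub_distrib,
        ← Finset.sum_mul, Finset.sum_sub_distrib, hg1, prT_sum6 h]
      ring
    rw [e1, Finset.mul_sum]
    refine Finset.sum_le_sum fun s _ => ?_
    have h7 : |T s - k * B| ≤ k * B := by
      have h8 : 0 ≤ T s := abs_nonneg _
      have h9 : T s ≤ 2 * (k * B) := gsd6 h ω ω' s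
      exact abs_le.2 ⟨by linarith, by linarith⟩
    calc (g s - prT Q u ω s) * (T s - k * B) ≤ |(g s - prT Q u ω s) * (T s - k * B)| :=
          le_abs_self _
      _ = |g s - prT Q u ω s| * |T s - k * B| := abs_mul _ _
      _ ≤ |g s - prT Q u ω s| * (k * B) := mul_le_mul_of_nonneg_left h7 (abs_nonneg _)
      _ = k * B * |g s - prT Q u ω s| := mul_comm _ _
  linarith

theorem kl_meas6 (h : HT P Q u B) : Measurable fun p : (Fin k → Ω) × (Fin k → Ω) =>
    kl Finset.univ (prT Q u p.1) (prT Q u p.2) := by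
  have e : (fun p : (Fin k → Ω) × (Fin k → Ω) => kl Finset.univ (prT Q u p.1) (prT Q u p.2)) =
      fun p => (∑ s, prT Q u p.1 s * (gs6 u p.1 s - gs6 u p.2 s)) -
        (Real.log (dT Q u p.1) - Real.log (dT Q u p.2)) := funext fun p => kl6 h p.1 p.2
  rw [e]
  exact (Finset.measurable_sum _ fun s _ => ((prT_meas6 h s).comp measurable_fst).mul
    (((gs6_meas h s).comp measurable_fst).sub ((gs6_meas h s).comp measurable_snd))).sub
    (((Real.measurable_log.comp (dT_meas6 h)).comp measurable_fst).sub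
      ((Real.measurable_log.comp (dT_meas6 h)).comp measurable_snd))

theorem kl_bd6 (h : HT P Q u B) (ω ω' : Fin k → Ω) :
    |kl Finset.univ (prT Q u ω) (prT Q u ω')| ≤ 4 * (k * B) := by
  rw [kl6 h]
  have h1 := abs_le.1 (prm6 h ω fun s => gsd6 h ω ω' s)
  have h2 := abs_le.1 (ldd6 h ω ω')
  exact abs_le.2 ⟨by linarith [h1.1, h2.2], by linarith [h1.2, h2.1]⟩

/-- The absolute gain of one class. -/
theorem gain6 [IsProbabilityMeasure P] (h : HT P Q u B) (hB : 0 < B) (s : S) :
    (∑ i, vaT P u i s) / (2 * B * Real.sqrt (k + 1)) ≤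
      ∫ p : (Fin k → Ω) × (Fin k → Ω), |gs6 u p.1 s - gs6 u p.2 s|
        ∂((Measure.pi fun _ : Fin k => P).prod (Measure.pi fun _ : Fin k => P)) := by
  set μ : Measure (Fin k → Ω) := Measure.pi fun _ : Fin k => P with hμ
  have h1 := absum6 P hB (g := fun i x => Real.log (u i s x) - psT P u i s)
    (fun i => gc_meas6 h i s) (fun i x => gc_bd6 h i s x) (fun i => gc_int6 h i s)
    (fun i => va_le6 h i s)
  refine le_trans h1 ?_
  have hm : Measurable fun p : (Fin k → Ω) × (Fin k → Ω) => |gs6 u p.1 s - gs6 u p.2 s| :=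
    (((gs6_meas h s).comp measurable_fst).sub ((gs6_meas h s).comp measurable_snd)).abs
  have hi : Integrable (fun p : (Fin k → Ω) × (Fin k → Ω) => |gs6 u p.1 s - gs6 u p.2 s|)
      (μ.prod μ) := bint6 _ hm (C := 2 * (k * B)) fun p => by
    rw [abs_abs]
    exact gsd6 h p.1 p.2 s
  rw [integral_prod _ hi]
  have hg : Integrable (fun ω => gs6 u ω s) μ := bint6 μ (gs6_meas h s) fun ω => gs6_bd h ω s
  have hc : Measurable fun ω : Fin k → Ω => ∑ i, (Real.log (u i s (ω i)) - psT P u i s) :=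
    sum6_meas (g := fun i x => Real.log (u i s x) - psT P u i s) fun i => gc_meas6 h i s
  refine integral_mono (bint6 μ hc.abs (C := k * (2 * B)) fun ω => ?_) hi.integral_prod_left
    fun ω => ?_
  · rw [abs_abs]
    exact sum6_bd (g := fun i x => Real.log (u i s x) - psT P u i s)
      (fun i x => gc_bd6 h i s x) ω
  · show |∑ i, (Real.log (u i s (ω i)) - psT P u i s)| ≤ ∫ ω', |gs6 u ω s - gs6 u ω' s| ∂μ
    have e1 : ∑ i, (Real.log (u i s (ω i)) - psT P u i s) =
        ∫ ω', (gs6 u ω s - gs6 u ω' s) ∂μ := by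
      rw [gsc6, integral_sub (integrable_const _) hg, gs_int6 h hB.le s]
      simp
    rw [e1]
    exact abs_integral_le_integral_abs

end two

open Classical in
theorem twoT6 : TwoT := by
  intro Ω S _ _ k P _ Q u B hB1 h
  have hB : 0 < B := by linarith
  set μ : Measure (Fin k → Ω) := Measure.pi fun _ : Fin k => P with hμ
  set K : ℝ := ∑ i, kaT P Q u i with hK
  set W : ℝ := 2 * B * Real.sqrt (k + 1) with hW
  have hW0 : 0 < W := by
    have : (0 : ℝ) < k + 1 := by positivity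
    have := Real.sqrt_pos.2 this
    positivity
  -- the mean law
  set g : S → ℝ := fun s => ∫ ω, prT Q u ω s ∂μ with hg
  have hpi : ∀ s, Integrable (fun ω => prT Q u ω s) μ := fun s =>
    bint6 μ (prT_meas6 h s) (C := 1) fun ω => by
      rw [abs_of_nonneg (prT_nn6 h ω s)]
      exact prT_le6 h ω s
  have hg0 : ∀ s, 0 ≤ g s := fun s => integral_nonneg fun ω => prT_nn6 h ω s
  have hg1 : ∑ s, g s = 1 := by
    rw [hg]
    show ∑ s, ∫ ω, prT Q u ω s ∂μ = 1
    rw [← integral_finsetSum _ fun s _ => hpi s,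
      integral_congr_ae (Filter.Eventually.of_forall fun ω => prT_sum6 h ω)]
    simp
  -- the left side
  have hL : ∑ i, ∫ ω, ∑ s, prT Q u ω s * vaT P u i s ∂μ = ∑ s, g s * ∑ i, vaT P u i s := by
    have e1 : ∀ i : Fin k, ∫ ω, ∑ s, prT Q u ω s * vaT P u i s ∂μ =
        ∑ s, g s * vaT P u i s := by
      intro i
      rw [integral_finsetSum _ fun s _ => (hpi s).mul_const _]
      exact Finset.sum_congr rfl fun s _ => integral_mul_const _ _
    rw [Finset.sum_congr rfl fun i _ => e1 i, Finset.sum_comm]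
    exact Finset.sum_congr rfl fun s _ => (Finset.mul_sum _ _ _).symm
  -- functions on the product
  have mT : ∀ s, Measurable fun p : (Fin k → Ω) × (Fin k → Ω) => |gs6 u p.1 s - gs6 u p.2 s| :=
    fun s => (((gs6_meas h s).comp measurable_fst).sub ((gs6_meas h s).comp measurable_snd)).abs
  have iT : ∀ s, Integrable (fun p : (Fin k → Ω) × (Fin k → Ω) => |gs6 u p.1 s - gs6 u p.2 s|)
      (μ.prod μ) := fun s => bint6 _ (mT s) (C := 2 * (k * B)) fun p => by
    rw [abs_abs]
    exact gsd6 h p.1 p.2 s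
  have mF : Measurable fun p : (Fin k → Ω) × (Fin k → Ω) =>
      |Real.log (dT Q u p.1) - Real.log (dT Q u p.2)| :=
    (((Real.measurable_log.comp (dT_meas6 h)).comp measurable_fst).sub
      ((Real.measurable_log.comp (dT_meas6 h)).comp measurable_snd)).abs
  have iF : Integrable (fun p : (Fin k → Ω) × (Fin k → Ω) =>
      |Real.log (dT Q u p.1) - Real.log (dT Q u p.2)|) (μ.prod μ) :=
    bint6 _ mF (C := 2 * (k * B)) fun p => by
      rw [abs_abs]
      exact ldd6 h p.1 p.2
  have hk0 : ∀ p : (Fin k → Ω) × (Fin k → Ω), 0 ≤ kl Finset.univ (prT Q u p.1) (prT Q u p.2) :=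
    fun p => kl_nonneg77 (pp6 h p.1 p.2)
  have iK : Integrable (fun p : (Fin k → Ω) × (Fin k → Ω) =>
      kl Finset.univ (prT Q u p.1) (prT Q u p.2)) (μ.prod μ) :=
    bint6 _ (kl_meas6 h) fun p => kl_bd6 h p.1 p.2
  have iR : Integrable (fun p : (Fin k → Ω) × (Fin k → Ω) =>
      Real.sqrt (kl Finset.univ (prT Q u p.1) (prT Q u p.2))) (μ.prod μ) :=
    bint6 _ (Real.continuous_sqrt.measurable.comp (kl_meas6 h)) (C := Real.sqrt (4 * (k * B)))
      fun p => by
        rw [abs_of_nonneg (Real.sqrt_nonneg _)]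
        exact Real.sqrt_le_sqrt ((le_abs_self _).trans (kl_bd6 h p.1 p.2))
  have hKK : ∫ p : (Fin k → Ω) × (Fin k → Ω), kl Finset.univ (prT Q u p.1) (prT Q u p.2)
      ∂(μ.prod μ) = K := by
    rw [integral_prod _ iK]
    exact sel_all6 h hB.le
  have hK0 : 0 ≤ K := by
    rw [← hKK]
    exact integral_nonneg hk0
  have hsq : ∫ p : (Fin k → Ω) × (Fin k → Ω),
      Real.sqrt (kl Finset.univ (prT Q u p.1) (prT Q u p.2)) ∂(μ.prod μ) ≤ Real.sqrt K := by
    rw [← hKK]
    exact sqrt6 (μ.prod μ) (kl_meas6 h) hk0 fun p => (le_abs_self _).trans (kl_bd6 h p.1 p.2)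
  -- the mean law against the law
  have mG : ∀ s, Measurable fun ω => |g s - prT Q u ω s| := fun s =>
    (measurable_const.sub (prT_meas6 h s)).abs
  have bG : ∀ s ω, |g s - prT Q u ω s| ≤ 1 := by
    intro s ω
    have h1 : g s ≤ 1 := by
      rw [← hg1]
      exact Finset.single_le_sum (fun t _ => hg0 t) (Finset.mem_univ s)
    have h2 := prT_le6 h ω s
    have h3 := prT_nn6 h ω s
    have h4 := hg0 s
    exact abs_le.2 ⟨by linarith, by linarith⟩
  have iG : ∀ s, Integrable (fun ω => |g s - prT Q u ω s|) μ := fun s =>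
    bint6 μ (mG s) (C := 1) fun ω => by
      rw [abs_abs]
      exact bG s ω
  have mD : ∀ s, Measurable fun p : (Fin k → Ω) × (Fin k → Ω) =>
      |prT Q u p.1 s - prT Q u p.2 s| := fun s =>
    (((prT_meas6 h s).comp measurable_fst).sub ((prT_meas6 h s).comp measurable_snd)).abs
  have iD : ∀ s, Integrable (fun p : (Fin k → Ω) × (Fin k → Ω) =>
      |prT Q u p.1 s - prT Q u p.2 s|) (μ.prod μ) := fun s =>
    bint6 _ (mD s) (C := 1) fun p => by
      rw [abs_abs]
      have h1 := prT_le6 h p.1 s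
      have h2 := prT_nn6 h p.1 s
      have h3 := prT_le6 h p.2 s
      have h4 := prT_nn6 h p.2 s
      exact abs_le.2 ⟨by linarith, by linarith⟩
  have hTV : ∫ ω, ∑ s, |g s - prT Q u ω s| ∂μ ≤ 2 * Real.sqrt K := by
    have h1 : ∀ s ω, |g s - prT Q u ω s| ≤ ∫ ω', |prT Q u ω s - prT Q u ω' s| ∂μ := by
      intro s ω
      have e1 : g s - prT Q u ω s = - ∫ ω', (prT Q u ω s - prT Q u ω' s) ∂μ := by
        rw [integral_sub (integrable_const _) (hpi s)]
        simp [hg]
      rw [e1, abs_neg]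
      exact abs_integral_le_integral_abs
    have h2 : ∀ s, ∫ ω, |g s - prT Q u ω s| ∂μ ≤
        ∫ p : (Fin k → Ω) × (Fin k → Ω), |prT Q u p.1 s - prT Q u p.2 s| ∂(μ.prod μ) := by
      intro s
      rw [integral_prod _ (iD s)]
      exact integral_mono (iG s) (iD s).integral_prod_left fun ω => h1 s ω
    rw [integral_finsetSum _ fun s _ => iG s]
    refine (Finset.sum_le_sum fun s _ => h2 s).trans ?_
    rw [← integral_finsetSum _ fun s _ => iD s]
    have h3 : ∫ p : (Fin k → Ω) × (Fin k → Ω), ∑ s, |prT Q u p.1 s - prT Q u p.2 s|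
        ∂(μ.prod μ) ≤ ∫ p : (Fin k → Ω) × (Fin k → Ω),
          2 * Real.sqrt (kl Finset.univ (prT Q u p.1) (prT Q u p.2)) ∂(μ.prod μ) :=
      integral_mono (integrable_finsetSum _ fun s _ => iD s) (iR.const_mul _)
        fun p => tv77 (pp6 h p.1 p.2)
    refine h3.trans ?_
    rw [integral_const_mul]
    linarith
  -- assembly
  have iSum : Integrable (fun p : (Fin k → Ω) × (Fin k → Ω) =>
      ∑ s, g s * |gs6 u p.1 s - gs6 u p.2 s|) (μ.prod μ) :=
    integrable_finsetSum _ fun s _ => (iT s).const_mul _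
  have iGS : Integrable (fun ω => ∑ s, |g s - prT Q u ω s|) μ :=
    integrable_finsetSum _ fun s _ => iG s
  have iGS2 : Integrable (fun p : (Fin k → Ω) × (Fin k → Ω) =>
      ∑ s, |g s - prT Q u p.1 s|) (μ.prod μ) := iGS.comp_fst μ
  have hmain : ∑ s, g s * ((∑ i, vaT P u i s) / W) ≤
      (∫ p : (Fin k → Ω) × (Fin k → Ω), |Real.log (dT Q u p.1) - Real.log (dT Q u p.2)|
        ∂(μ.prod μ)) + (K + 2 * Real.sqrt K) + k * B * (2 * Real.sqrt K) := by
    have h1 : ∑ s, g s * ((∑ i, vaT P u i s) / W) ≤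
        ∫ p : (Fin k → Ω) × (Fin k → Ω), ∑ s, g s * |gs6 u p.1 s - gs6 u p.2 s|
          ∂(μ.prod μ) := by
      rw [integral_finsetSum _ fun s _ => (iT s).const_mul _]
      refine Finset.sum_le_sum fun s _ => ?_
      rw [integral_const_mul]
      exact mul_le_mul_of_nonneg_left (gain6 h hB s) (hg0 s)
    refine h1.trans ?_
    have i1 : Integrable (fun p : (Fin k → Ω) × (Fin k → Ω) =>
        kl Finset.univ (prT Q u p.1) (prT Q u p.2) +
          2 * Real.sqrt (kl Finset.univ (prT Q u p.1) (prT Q u p.2))) (μ.prod μ) :=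
      iK.add (iR.const_mul _)
    have i2 : Integrable (fun p : (Fin k → Ω) × (Fin k → Ω) =>
        |Real.log (dT Q u p.1) - Real.log (dT Q u p.2)| +
        (kl Finset.univ (prT Q u p.1) (prT Q u p.2) +
          2 * Real.sqrt (kl Finset.univ (prT Q u p.1) (prT Q u p.2)))) (μ.prod μ) := iF.add i1
    have i3 : Integrable (fun p : (Fin k → Ω) × (Fin k → Ω) =>
        k * B * ∑ s, |g s - prT Q u p.1 s|) (μ.prod μ) := iGS2.const_mul _
    have h2 := integral_mono iSum (i2.add i3) fun p => step6 h hB.le p.1 p.2 hg1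
    refine h2.trans ?_
    have e1 : ∫ p, ((fun p : (Fin k → Ω) × (Fin k → Ω) =>
        |Real.log (dT Q u p.1) - Real.log (dT Q u p.2)| +
        (kl Finset.univ (prT Q u p.1) (prT Q u p.2) +
          2 * Real.sqrt (kl Finset.univ (prT Q u p.1) (prT Q u p.2)))) +
        fun p : (Fin k → Ω) × (Fin k → Ω) => k * B * ∑ s, |g s - prT Q u p.1 s|) p
        ∂(μ.prod μ) =
        (∫ p : (Fin k → Ω) × (Fin k → Ω), |Real.log (dT Q u p.1) - Real.log (dT Q u p.2)|
          ∂(μ.prod μ)) + (K + 2 * ∫ p : (Fin k → Ω) × (Fin k → Ω),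
            Real.sqrt (kl Finset.univ (prT Q u p.1) (prT Q u p.2)) ∂(μ.prod μ)) +
          k * B * ∫ ω, ∑ s, |g s - prT Q u ω s| ∂μ := by
      rw [integral_add' i2 i3, integral_add iF i1, integral_add iK (iR.const_mul _),
        integral_const_mul, integral_const_mul, hKK]
      congr 2
      rw [integral_prod _ iGS2]
      simp
    rw [e1]
    have h4 : (k : ℝ) * B * ∫ ω, ∑ s, |g s - prT Q u ω s| ∂μ ≤ k * B * (2 * Real.sqrt K) :=
      mul_le_mul_of_nonneg_left hTV (by positivity)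
    linarith
  have hleft : (∑ i, ∫ ω, ∑ s, prT Q u ω s * vaT P u i s ∂μ) / W =
      ∑ s, g s * ((∑ i, vaT P u i s) / W) := by
    rw [hL, Finset.sum_div]
    exact Finset.sum_congr rfl fun s _ => mul_div_assoc _ _ _
  rw [hleft, ← integral_prod (fun p : (Fin k → Ω) × (Fin k → Ω) =>
    |Real.log (dT Q u p.1) - Real.log (dT Q u p.2)|) iF]
  refine hmain.trans ?_
  rcases Nat.eq_zero_or_pos k with hk | hk
  · subst hk
    have hK' : K = 0 := by simp [hK]
    rw [hK']
    simp
  · have hk1 : (1 : ℝ) ≤ k := by exact_mod_cast hk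
    have h1 : Real.sqrt (2 * K) = Real.sqrt 2 * Real.sqrt K := Real.sqrt_mul (by norm_num) K
    rw [h1]
    have h2 : (1.41 : ℝ) ≤ Real.sqrt 2 := by
      refine Real.le_sqrt_of_sq_le ?_
      norm_num
    have h3 := Real.sqrt_nonneg K
    have h4 : (1 : ℝ) ≤ k * B := by nlinarith
    have h5 : 2 * Real.sqrt K + k * B * (2 * Real.sqrt K) ≤
        (2 * B * k + 1) * (Real.sqrt 2 * Real.sqrt K) := by
      have h6 : 2 + k * B * 2 ≤ (2 * B * k + 1) * Real.sqrt 2 := by nlinarith
      nlinarith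
    linarith

end Pool.Agent.W_7d29a1_NV
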