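import Pool.Agent.W_7d29a1_NV.Var42
import Pool.Agent.W_7d29a1_NV.Site62

/-!
Theorem NV, leaf V.
-/

namespace Pool.Agent.W_7d29a1_NV

open MeasureTheory ProbabilityTheory Filter Topology Pool.Agent.W_MP_7d29a1_pr
  Pool.Agent.W_7d29a1_h46 Pool.Agent.W_7d29a1_h46u Pool.Agent.W_7d29a1_Q29

/-- Leaf V, for every admissible truncation. -/
theorem varL42 {d : ℕ} {ρ : Measure ℝ} {β b : ℝ} [IsProbabilityMeasure ρ] (hd : 0 < d)
    (hρ : EM ρ) (hβ : β ≠ 0) (hb : HB ρ b) : VarL d ρ β b :=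
  varL_of hd hρ hβ hb (siteV hβ hb)

end Pool.Agent.W_7d29a1_NV
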