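import Pool.Agent.W_7d29a1_NV.Fin76
import Pool.Agent.W_7d29a1_NV.Cor50
import Pool.Agent.W_7d29a1_NV.BigB21
import Pool.Agent.W_7d29a1_NV.OneEnd52
import Pool.Agent.W_7d29a1_NV.OneP72
import Pool.Agent.W_7d29a1_NV.TwoP66
import Pool.Agent.W_7d29a1_NV.Two6
import Pool.Agent.W_7d29a1_NV.Eq41c
import Pool.Agent.W_7d29a1_NV.Kap20
import Pool.Agent.W_7d29a1_NV.Mix96
import Pool.Agent.W_7d29a1_NV.Mon31
import Pool.Agent.W_7d29a1_NV.VarL42
import Pool.Agent.W_7d29a1_NV.MulG78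
import Pool.Agent.W_7d29a1_NV.Inc86

/-!
Theorem NV: in very strong disorder the variance of the free energy is unbounded, in every
dimension and at every tilt. All leaves are plugged in.
-/

namespace Pool.Agent.W_7d29a1_NV

open MeasureTheory ProbabilityTheory Filter Topology Pool.Agent.W_MP_7d29a1_pr
  Pool.Agent.W_7d29a1_h46 Pool.Agent.W_7d29a1_h46u Pool.Agent.W_7d29a1_D2.B35
  Pool.Agent.W_7d29a1_Q29

variable {d : ℕ} {ρ : Measure ℝ} {β b : ℝ}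

theorem kapT76 [IsProbabilityMeasure ρ] (hd : 0 < d) (hβ : 0 < β) (hb : HB ρ b) :
    KapT d ρ β b :=
  K20.kapT20 hd hb (Eq41.eqT41 hd hβ hb) (mix96 hb)

theorem oneP76 [IsProbabilityMeasure ρ] (hd : 0 < d) (hβ : 0 < β) (hb : HB ρ b) :
    OneP d ρ β b :=
  O72.onep72 hb oneT (Eq41.eqT41 hd hβ hb) K20.marT20 (kapT76 hd hβ hb)

theorem twoP76 [IsProbabilityMeasure ρ] (hd : 0 < d) (hρ : EM ρ) (hβ : 0 < β) (hb : HB ρ b) :
    TwoP d ρ β b :=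
  M66.twoP66 hd hρ hb oneT twoT6 (Eq41.eqT41 hd hβ hb) (kapT76 hd hβ hb) (mix96 hb)

/-- The core: a polymer with few classes and a small increment has a large variance. -/
theorem corN76 [IsProbabilityMeasure ρ] (hd : 0 < d) (hρ : EM ρ) (hnc : ∀ c : ℝ, ρ {c} ≠ 1)
    (hβ : 0 < β) : CorN d ρ β := by
  obtain ⟨b, hb⟩ := (eventually_HB21 hnc).exists
  exact corN50 hb (oneP76 hd hβ hb) (twoP76 hd hρ hβ hb) (monT31 hd ρ hb)
    (varL42 hd hρ hβ.ne' hb)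

/-- **Theorem NV.** -/
theorem mainNV76 [IsProbabilityMeasure ρ] (hd : 0 < d) (hρ : EM ρ) (hnc : ∀ c : ℝ, ρ {c} ≠ 1)
    (hβ : 0 < β) : MainNV d ρ β := by
  obtain ⟨b, hb⟩ := (eventually_HB21 hnc).exists
  exact finNV76 hb (oneP76 hd hβ hb) (twoP76 hd hρ hβ hb) (monT31 hd ρ hb)
    (varL42 hd hρ hβ.ne' hb) (mulT hd hρ β) (inc86 hd hρ β)

end Pool.Agent.W_7d29a1_NV
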