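import Pool.Agent.W_7d29a1_NV.IncS10

/-!
Spatial roughness, from one site to the mean over all sites of even parity.
-/

namespace Pool.Agent.W_7d29a1_NV.AvgS10

open MeasureTheory ProbabilityTheory Filter Topology Pool.Agent.W_MP_7d29a1_pr
  Pool.Agent.W_7d29a1_h46 Pool.Agent.W_7d29a1_h46u Pool.Agent.W_7d29a1_D2.B35
  Pool.Agent.W_7d29a1_Q29 Pool.Agent.W_7d29a1_NV Pool.Agent.W_7d29a1_NV.IncS10

variable {d : ℕ} {ρ : Measure ℝ} [IsProbabilityMeasure ρ]

/-- The spatial increment in the mean. -/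
noncomputable def spi (ρ : Measure ℝ) (β : ℝ) (h : Vec d) (n : ℕ) (y : Site d) : ℝ :=
  ∫ η, |X β h (sh 0 y η) n - X β h η n| ∂(law d ρ)

open Classical in
/-- The sites of even parity in the box. -/
noncomputable def evB (d R : ℕ) : Finset (Site d) := (boxF d R).filter fun y => Even (∑ j, y j)

/-- Spatial roughness at all large lengths. -/
def RghQ (ρ : Measure ℝ) (β : ℝ) (h : Vec d) : Prop := ∀ K : ℝ, ∃ R n₀ : ℕ, ∀ n : ℕ, n₀ ≤ n →
  ∃ y ∈ boxF d R, Even (∑ j, y j) ∧ K < ∫ η, |X β h (sh 0 y η) n - X β h η n| ∂(law d ρ)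

omit [IsProbabilityMeasure ρ] in
lemma spi_nonneg (β : ℝ) (h : Vec d) (n : ℕ) (y : Site d) : 0 ≤ spi ρ β h n y :=
  integral_nonneg fun _ => abs_nonneg _

lemma spi_tri (hd : 0 < d) (hρ : EM ρ) (β : ℝ) (h : Vec d) (n : ℕ) (x y : Site d) :
    spi ρ β h n y ≤ spi ρ β h n (x - y) + spi ρ β h n x := by
  obtain ⟨i1, e1⟩ := int_D10 (ρ := ρ) hd hρ β h 0 x y n
  have i2 : Integrable (fun η => |X β h (sh 0 x η) n - X β h η n|) (law d ρ) :=
    ((int_X10 (ρ := ρ) hd hρ β h 0 x n).1.sub (concU (ρ := ρ) hd hρ β h n).1).abs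
  have i3 : Integrable (fun η => |X β h (sh 0 y η) n - X β h η n|) (law d ρ) :=
    ((int_X10 (ρ := ρ) hd hρ β h 0 y n).1.sub (concU (ρ := ρ) hd hρ β h n).1).abs
  unfold spi
  rw [← e1, ← integral_add i1 i2]
  refine integral_mono i3 (i1.add i2) fun η => ?_
  show |X β h (sh 0 y η) n - X β h η n| ≤
    |X β h (sh 0 x η) n - X β h (sh 0 y η) n| + |X β h (sh 0 x η) n - X β h η n|
  have h1 := abs_sub_le (X β h (sh 0 y η) n) (X β h (sh 0 x η) n) (X β h η n)
  rw [abs_sub_comm (X β h (sh 0 y η) n) (X β h (sh 0 x η) n)] at h1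
  exact h1

lemma mem_evB {R : ℕ} {y : Site d} : y ∈ evB d R ↔ y ∈ boxF d R ∧ Even (∑ j, y j) := by
  classical
  unfold evB
  rw [Finset.mem_filter]

lemma evB_card_le (d R : ℕ) : ((evB d R).card : ℝ) ≤ (2 * (R : ℝ) + 1) ^ d := by
  classical
  rw [← card_box10]
  exact_mod_cast Finset.card_filter_le _ _

lemma le_evB_card (d r : ℕ) : (r : ℝ) ^ d ≤ (evB d r).card := by
  classical
  have h1 : ((boxF d (r / 2)).image fun z => z + z) ⊆ evB d r := by
    intro y hy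
    rw [Finset.mem_image] at hy
    obtain ⟨z, hz, rfl⟩ := hy
    rw [mem_evB, mem_boxF]
    rw [mem_boxF] at hz
    refine ⟨fun j => ?_, ?_⟩
    · have h2 := hz j
      rw [Pi.add_apply]
      rw [abs_le] at h2 ⊢
      omega
    · simp only [Pi.add_apply]
      rw [Finset.sum_add_distrib]
      exact ⟨_, rfl⟩
  have h2 := Finset.card_le_card h1
  rw [Finset.card_image_of_injective] at h2
  · have h3 : ((boxF d (r / 2)).card : ℝ) ≤ (evB d r).card := by exact_mod_cast h2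
    refine le_trans ?_ h3
    rw [card_box10]
    refine pow_le_pow_left₀ (by positivity) ?_ d
    have h4 : r ≤ 2 * (r / 2) + 1 := by omega
    exact_mod_cast h4
  · intro z z' hzz
    funext j
    have h3 := congrFun hzz j
    simp only [Pi.add_apply] at h3
    omega

/-- The mean of the spatial increments over the even sites of a large box is large. -/
theorem avgS10 (hd : 0 < d) (hρ : EM ρ) (β : ℝ) (h : Vec d) (hS : RghQ ρ β h) (K : ℝ) :
    ∃ R₀ : ℕ, ∀ R : ℕ, R₀ ≤ R → ∃ n₀ : ℕ, ∀ n : ℕ, n₀ ≤ n →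
      K * (evB d R).card ≤ ∑ y ∈ evB d R,
        ∫ η, |X β h (sh 0 y η) n - X β h η n| ∂(law d ρ) := by
  classical
  obtain ⟨R₁, n₀, hn₀⟩ := hS (2 * 6 ^ d * |K|)
  refine ⟨2 * R₁ + 1, fun R hR => ⟨n₀, fun n hn => ?_⟩⟩
  obtain ⟨y, hy, hev, hK⟩ := hn₀ n hn
  have hK' : 2 * 6 ^ d * |K| < spi ρ β h n y := hK
  show K * (evB d R).card ≤ ∑ y ∈ evB d R, spi ρ β h n y
  have hR0 : (1 : ℝ) ≤ R := by exact_mod_cast (by omega : 1 ≤ R)
  rw [mem_boxF] at hy
  -- sum over the sites `x` of the smaller box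
  have h1 : ∑ _x ∈ evB d (R - R₁), spi ρ β h n y ≤
      ∑ x ∈ evB d (R - R₁), (spi ρ β h n (x - y) + spi ρ β h n x) :=
    Finset.sum_le_sum fun x _ => spi_tri hd hρ β h n x y
  rw [Finset.sum_const, nsmul_eq_mul, Finset.sum_add_distrib] at h1
  have h2 : ∑ x ∈ evB d (R - R₁), spi ρ β h n x ≤ ∑ x ∈ evB d R, spi ρ β h n x := by
    refine Finset.sum_le_sum_of_subset_of_nonneg ?_ fun _ _ _ => spi_nonneg β h n _
    intro x hx
    rw [mem_evB, mem_boxF] at hx ⊢
    exact ⟨fun j => (hx.1 j).trans (by exact_mod_cast Nat.sub_le _ _), hx.2⟩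
  have h3 : ∑ x ∈ evB d (R - R₁), spi ρ β h n (x - y) ≤ ∑ x ∈ evB d R, spi ρ β h n x := by
    rw [← Finset.sum_image (s := evB d (R - R₁)) (g := fun x => x - y)
      (f := fun z => spi ρ β h n z) fun a _ a' _ haa => sub_left_injective haa]
    refine Finset.sum_le_sum_of_subset_of_nonneg ?_ fun _ _ _ => spi_nonneg β h n _
    intro z hz
    rw [Finset.mem_image] at hz
    obtain ⟨x, hx, rfl⟩ := hz
    rw [mem_evB, mem_boxF] at hx ⊢
    refine ⟨fun j => ?_, ?_⟩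
    · have h4 := hx.1 j
      have h5 := hy j
      have h6 : R₁ ≤ R := by omega
      have h7 : ((R - R₁ : ℕ) : ℤ) = (R : ℤ) - R₁ := Nat.cast_sub h6
      rw [h7] at h4
      rw [Pi.sub_apply]
      have h8 := abs_sub (x j) (y j)
      linarith
    · simp only [Pi.sub_apply, Finset.sum_sub_distrib]
      exact hx.2.sub hev
  have h4 : ((R : ℝ) / 2) ^ d ≤ (evB d (R - R₁)).card := by
    refine le_trans (pow_le_pow_left₀ (by positivity) ?_ d) (le_evB_card d (R - R₁))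
    have h5 : R ≤ 2 * (R - R₁) := by omega
    have h6 : (R : ℝ) ≤ 2 * ((R - R₁ : ℕ) : ℝ) := by exact_mod_cast h5
    linarith
  have h5 : ((evB d R).card : ℝ) ≤ 6 ^ d * ((R : ℝ) / 2) ^ d := by
    refine (evB_card_le d R).trans ?_
    rw [← mul_pow]
    refine pow_le_pow_left₀ (by positivity) ?_ d
    linarith
  have h6 : K * (evB d R).card ≤ |K| * (6 ^ d * ((R : ℝ) / 2) ^ d) := by
    calc K * (evB d R).card ≤ |K| * (evB d R).card :=
          mul_le_mul_of_nonneg_right (le_abs_self K) (by positivity)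
      _ ≤ _ := mul_le_mul_of_nonneg_left h5 (abs_nonneg K)
  have h7 : ((R : ℝ) / 2) ^ d * (2 * 6 ^ d * |K|) ≤ (evB d (R - R₁)).card * spi ρ β h n y :=
    mul_le_mul h4 hK'.le (by positivity) (by positivity)
  have h8 : |K| * (6 ^ d * ((R : ℝ) / 2) ^ d) = ((R : ℝ) / 2) ^ d * (2 * 6 ^ d * |K|) / 2 := by
    ring
  rw [h8] at h6
  linarith

end Pool.Agent.W_7d29a1_NV.AvgS10
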