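import Pool.Agent.W_7d29a1_NV.Two34

/-!
A sum of independent indicators is large: the mean of the inverse square root.
-/

namespace Pool.Agent.W_7d29a1_NV

open MeasureTheory ProbabilityTheory Filter Topology

theorem cheb42 {W : Type} [MeasurableSpace W] {ν : Measure W} [IsProbabilityMeasure ν] {k : ℕ}
    (hk : 0 < k) (A : Fin k → Set W) (hA : ∀ i, MeasurableSet (A i)) (J : Finset (Fin k))
    (hJ : k ≤ 2 * J.card) {p : ℝ} (hp : 0 < p) (hpA : ∀ i ∈ J, p ≤ ν.real (A i)) :
    open Classical in
    ∫ z : Fin k → W, 1 / Real.sqrt (((Finset.univ.filter fun i => z i ∈ A i).card : ℝ) + 1)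
      ∂(Measure.pi fun _ => ν) ≤ 8 / (p * k) + 2 / Real.sqrt (p * k) := by
  classical
  set μ : Measure (Fin k → W) := Measure.pi fun _ => ν with hμ
  have hkR : (0 : ℝ) < k := by exact_mod_cast hk
  -- the centred indicators
  set I : Fin k → (Fin k → W) → ℝ := fun i z => (A i).indicator (fun _ => (1 : ℝ)) (z i) with hI
  set q : Fin k → ℝ := fun i => ν.real (A i) with hq
  set f : Fin k → (Fin k → W) → ℝ := fun i z => I i z - q i with hf
  have hq0 : ∀ i, 0 ≤ q i := fun i => measureReal_nonneg
  have hq1 : ∀ i, q i ≤ 1 := fun i => measureReal_le_one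
  have hI01 : ∀ i z, I i z = 0 ∨ I i z = 1 := fun i z => by
    by_cases h : z i ∈ A i
    · right; simp [hI, h]
    · left; simp [hI, h]
  have hIm : ∀ i, Measurable (I i) := fun i =>
    (measurable_const.indicator (hA i)).comp (measurable_pi_apply i)
  have hIint : ∀ i, ∫ z, I i z ∂μ = q i := by
    intro i
    have h1 : MeasurePreserving (fun z : Fin k → W => z i) μ ν :=
      measurePreserving_eval (fun _ => ν) i
    have h2 : ∫ z, I i z ∂μ = ∫ x, (A i).indicator (fun _ => (1 : ℝ)) x ∂ν := by
      rw [← h1.map_eq]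
      exact (integral_map h1.measurable.aemeasurable
        (measurable_const.indicator (hA i)).aestronglyMeasurable).symm
    rw [h2, integral_indicator (hA i)]
    simp [hq, Measure.real]
  have hfm : ∀ i, Measurable (f i) := fun i => (hIm i).sub_const _
  have hf1 : ∀ i z, |f i z| ≤ 1 := by
    intro i z
    rw [hf, abs_le]
    rcases hI01 i z with h | h <;> constructor <;> simp only [h] <;> linarith [hq0 i, hq1 i]
  have hind : iIndepFun f μ := by
    have h1 : iIndepFun (fun i (z : Fin k → W) => (fun x => (A i).indicator (fun _ => (1 : ℝ)) x - q i)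
        (z i)) μ :=
      iIndepFun_pi (X := fun i x => (A i).indicator (fun _ => (1 : ℝ)) x - q i)
        (fun i => ((measurable_const.indicator (hA i)).sub_const _).aemeasurable)
    exact h1
  have hIi : ∀ i, Integrable (I i) μ := fun i => T34.ib (hIm i) (C := 1) fun z => by
    rcases hI01 i z with h | h <;> simp [h]
  have hf0 : ∀ i, ∫ z, f i z ∂μ = 0 := by
    intro i
    rw [hf]
    simp only
    rw [integral_sub (hIi i) (integrable_const _), hIint i]
    simp
  obtain ⟨-, h2, -⟩ := T34.mom34 f hfm hind hf0 (B := 1) hf1 J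
  -- the mean and the variance
  set m : ℝ := ∑ i ∈ J, q i with hm
  have hmJ : p * J.card ≤ m := by
    rw [hm, mul_comm, ← nsmul_eq_mul]
    exact Finset.card_nsmul_le_sum _ _ _ hpA
  have hJk : (k : ℝ) / 2 ≤ J.card := by
    have : (k : ℝ) ≤ 2 * J.card := by exact_mod_cast hJ
    linarith
  have hmk : p * k / 2 ≤ m := by nlinarith
  have hm0 : 0 < m := by
    have : 0 < p * k / 2 := by positivity
    linarith
  have hvar : ∫ z, (∑ i ∈ J, f i z) ^ 2 ∂μ ≤ m := by
    rw [h2, hm]
    refine Finset.sum_le_sum fun i _ => ?_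
    have e : ∀ z, f i z ^ 2 = (1 - 2 * q i) * I i z + q i ^ 2 := by
      intro z
      simp only [hf]
      rcases hI01 i z with h | h <;> rw [h] <;> ring
    rw [integral_congr_ae (Eventually.of_forall e),
      integral_add ((hIi i).const_mul _) (integrable_const _), integral_const_mul, hIint i]
    simp
    nlinarith [hq0 i, hq1 i]
  -- the pointwise bound
  have hcard : ∀ z : Fin k → W, ∑ i ∈ J, I i z ≤
      ((Finset.univ.filter fun i => z i ∈ A i).card : ℝ) := by
    intro z
    have e : ((Finset.univ.filter fun i => z i ∈ A i).card : ℝ) = ∑ i, I i z := by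
      rw [Finset.card_filter]
      push_cast
      refine Finset.sum_congr rfl fun i _ => ?_
      by_cases h : z i ∈ A i <;> simp [hI, h]
    rw [e]
    exact Finset.sum_le_sum_of_subset_of_nonneg (Finset.subset_univ _) fun i _ _ => by
      rcases hI01 i z with h | h <;> simp [h]
  have hpt : ∀ z : Fin k → W,
      1 / Real.sqrt (((Finset.univ.filter fun i => z i ∈ A i).card : ℝ) + 1) ≤
        2 / Real.sqrt (p * k) + 4 / m ^ 2 * (∑ i ∈ J, f i z) ^ 2 := by
    intro z
    have hN0 : (0 : ℝ) ≤ ((Finset.univ.filter fun i => z i ∈ A i).card : ℝ) := Nat.cast_nonneg _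
    have hsum : ∑ i ∈ J, f i z = ∑ i ∈ J, I i z - m := by
      rw [hm, ← Finset.sum_sub_distrib]
    have hpk : 0 < p * k := by positivity
    by_cases hc : m / 2 ≤ ∑ i ∈ J, I i z
    · have h3 : p * k / 4 ≤ ((Finset.univ.filter fun i => z i ∈ A i).card : ℝ) + 1 := by
        linarith [hcard z]
      have h4 : Real.sqrt (p * k) / 2 ≤
          Real.sqrt (((Finset.univ.filter fun i => z i ∈ A i).card : ℝ) + 1) := by
        apply Real.le_sqrt_of_sq_le
        rw [div_pow, Real.sq_sqrt hpk.le]
        linarith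
      have h5 : 0 < Real.sqrt (p * k) := Real.sqrt_pos.2 hpk
      have h6 : 1 / Real.sqrt (((Finset.univ.filter fun i => z i ∈ A i).card : ℝ) + 1) ≤
          1 / (Real.sqrt (p * k) / 2) := one_div_le_one_div_of_le (by positivity) h4
      have h7 : 1 / (Real.sqrt (p * k) / 2) = 2 / Real.sqrt (p * k) := by
        field_simp
      have h8 : 0 ≤ 4 / m ^ 2 * (∑ i ∈ J, f i z) ^ 2 := by positivity
      linarith
    · push Not at hc
      have h3 : 1 / Real.sqrt (((Finset.univ.filter fun i => z i ∈ A i).card : ℝ) + 1) ≤ 1 := by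
        rw [div_le_one (Real.sqrt_pos.2 (by linarith))]
        rw [Real.one_le_sqrt]
        linarith
      have h4 : m ^ 2 / 4 ≤ (∑ i ∈ J, f i z) ^ 2 := by
        rw [hsum]
        nlinarith
      have h5 : 1 ≤ 4 / m ^ 2 * (∑ i ∈ J, f i z) ^ 2 := by
        rw [div_mul_eq_mul_div, le_div_iff₀ (by positivity)]
        linarith
      have h6 : 0 ≤ 2 / Real.sqrt (p * k) := by positivity
      linarith
  have hsqi : Integrable (fun z => (∑ i ∈ J, f i z) ^ 2) μ := by
    refine T34.ib ((Finset.measurable_sum J fun i _ => hfm i).pow_const 2)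
      (C := (J.card : ℝ) ^ 2) fun z => ?_
    rw [abs_pow]
    refine pow_le_pow_left₀ (abs_nonneg _) ?_ 2
    refine (Finset.abs_sum_le_sum_abs _ _).trans ?_
    calc ∑ i ∈ J, |f i z| ≤ ∑ _i ∈ J, (1 : ℝ) := Finset.sum_le_sum fun i _ => hf1 i z
      _ = _ := by simp
  have hlim : ∫ z : Fin k → W,
      1 / Real.sqrt (((Finset.univ.filter fun i => z i ∈ A i).card : ℝ) + 1) ∂μ ≤
      ∫ z, (2 / Real.sqrt (p * k) + 4 / m ^ 2 * (∑ i ∈ J, f i z) ^ 2) ∂μ := by
    refine integral_mono_of_nonneg (Eventually.of_forall fun z => by positivity)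
      ((integrable_const _).add (hsqi.const_mul _)) (Eventually.of_forall hpt)
  refine hlim.trans ?_
  rw [integral_add (integrable_const _) (hsqi.const_mul _), integral_const_mul]
  simp only [integral_const, probReal_univ, smul_eq_mul, one_mul]
  have h9 : 4 / m ^ 2 * ∫ z, (∑ i ∈ J, f i z) ^ 2 ∂μ ≤ 4 / m ^ 2 * m :=
    mul_le_mul_of_nonneg_left hvar (by positivity)
  have h10 : 4 / m ^ 2 * m = 4 / m := by
    field_simp
  have h11 : 4 / m ≤ 8 / (p * k) := by
    rw [div_le_div_iff₀ hm0 (by positivity)]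
    linarith
  linarith

end Pool.Agent.W_7d29a1_NV
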