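import Pool.Agent.W_7d29a1_h46u.LamU

/-!
The choice of the length: `n λ - E log Z_n` almost minimal among the larger lengths.
-/

namespace Pool.Agent.W_7d29a1_NV

open MeasureTheory ProbabilityTheory Filter Topology Pool.Agent.W_MP_7d29a1_pr
  Pool.Agent.W_7d29a1_h46 Pool.Agent.W_7d29a1_h46u

/-- For every `N` some `n ≥ N` has a small last increment and no large increment afterwards. -/
theorem choice34 {d : ℕ} {ρ : Measure ℝ} [IsProbabilityMeasure ρ] (hd : 0 < d) (hρ : EM ρ)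
    (β : ℝ) (h : Vec d) {g : ℝ} (hg : 0 < g) (N : ℕ) : ∃ n : ℕ, N ≤ n ∧ 1 ≤ n ∧
      A ρ β h n - A ρ β h (n - 1) ≤ lam ρ β h + g ∧
      ∀ m : ℕ, A ρ β h (n + m) - A ρ β h n ≤
        lam ρ β h * m + (lam ρ β h - A ρ β h 1) + g := by
  set D : ℕ → ℝ := fun n => n * lam ρ β h - A ρ β h n with hD
  have hD0 : ∀ n, 0 ≤ D n := fun n => by
    have := A_le_lam hd hρ β h n
    simp only [hD]
    linarith
  set S : Set ℝ := D '' {n | N ≤ n} with hS
  have hne : S.Nonempty := ⟨D N, N, (le_refl N : N ≤ N), rfl⟩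
  have hbdd : BddBelow S := ⟨0, by
    rintro _ ⟨n, _, rfl⟩
    exact hD0 n⟩
  obtain ⟨_, ⟨n, hn, rfl⟩, hlt⟩ := Real.lt_sInf_add_pos hne hg
  have hinf : ∀ m, N ≤ m → D n ≤ D m + g := by
    intro m hm
    have := csInf_le hbdd (⟨m, hm, rfl⟩ : D m ∈ S)
    linarith
  have hn' : N ≤ n := hn
  refine ⟨n + 1, by omega, by omega, ?_, fun m => ?_⟩
  · have h1 := hinf (n + 1) (by omega)
    simp only [hD] at h1
    push_cast at h1
    rw [Nat.add_sub_cancel]
    linarith
  · have h1 := hinf (n + 1 + m) (by omega)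
    have h2 := A_add_le hd hρ β h n 1
    simp only [hD] at h1
    push_cast at h1
    linarith

end Pool.Agent.W_7d29a1_NV
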