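import Mathlib

/-!
The end of the argument, the scalar part: the square of a log ratio against the integrand of the
relative entropy, the variance of the logarithm of a variable of mean one, the change of the law.
-/

namespace Pool.Agent.W_7d29a1_NV

open MeasureTheory ProbabilityTheory

/-- The square of a number against `ℓ - 1 + e ^ (-ℓ)` and `e ^ ℓ + e ^ (-ℓ)`. -/
lemma sq_phi21 (l : ℝ) {M : ℝ} (hM : 0 < M) :
    l ^ 2 ≤ 4 * (1 + M) * (l - 1 + Real.exp (-l)) +
      24 / M ^ 2 * (Real.exp l + Real.exp (-l)) := by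
  have h0 : 0 ≤ l - 1 + Real.exp (-l) := by
    have := Real.add_one_le_exp (-l)
    linarith
  have hE : 0 < Real.exp l + Real.exp (-l) := add_pos (Real.exp_pos _) (Real.exp_pos _)
  have hM2 : 0 < M ^ 2 := by positivity
  rcases le_or_gt |l| M with hl | hl
  · have h1 : l ^ 2 ≤ 4 * (1 + M) * (l - 1 + Real.exp (-l)) := by
      rcases le_total l 0 with h | h
      · have h2 := Real.quadratic_le_exp_of_nonneg (neg_nonneg.2 h)
        have h3 : l ^ 2 / 2 ≤ l - 1 + Real.exp (-l) := by nlinarith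
        nlinarith [mul_nonneg hM.le h0]
      · rw [abs_of_nonneg h] at hl
        rcases le_total l 2 with h2 | h2
        · have h3 : 1 - l / 2 ≤ Real.exp (-(l / 2)) := by
            have := Real.add_one_le_exp (-(l / 2))
            linarith
          have h4 : Real.exp (-l) = Real.exp (-(l / 2)) ^ 2 := by
            rw [← Real.exp_nat_mul]
            congr 1
            push_cast
            ring
          have h5 : (1 - l / 2) ^ 2 ≤ Real.exp (-l) := by
            rw [h4]
            exact pow_le_pow_left₀ (by linarith) h3 2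
          have h6 : l ^ 2 / 4 ≤ l - 1 + Real.exp (-l) := by nlinarith
          nlinarith [mul_nonneg hM.le h0]
        · have h3 : l / 2 ≤ l - 1 + Real.exp (-l) := by
            have := Real.exp_pos (-l)
            linarith
          have h4 : l ^ 2 ≤ 4 * (1 + M) * (l / 2) := by nlinarith
          exact h4.trans (mul_le_mul_of_nonneg_left h3 (by positivity))
    have : 0 ≤ 24 / M ^ 2 * (Real.exp l + Real.exp (-l)) := by positivity
    linarith
  · have h1 := Real.pow_div_factorial_le_exp |l| (abs_nonneg l) 4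
    have h2 : Real.exp |l| ≤ Real.exp l + Real.exp (-l) := by
      rcases abs_choice l with h | h
      · rw [h]
        have := Real.exp_pos (-l)
        linarith
      · rw [h]
        have := Real.exp_pos l
        linarith
    have h3 : |l| ^ 4 ≤ 24 * (Real.exp l + Real.exp (-l)) := by
      have h4 : ((Nat.factorial 4 : ℕ) : ℝ) = 24 := by norm_num [Nat.factorial]
      rw [h4, div_le_iff₀ (by norm_num)] at h1
      linarith
    have h5 : l ^ 2 ≤ |l| ^ 4 / M ^ 2 := by
      rw [le_div_iff₀ hM2]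
      have h6 : M ^ 2 ≤ |l| ^ 2 := pow_le_pow_left₀ hM.le hl.le 2
      have h7 : l ^ 2 = |l| ^ 2 := (sq_abs l).symm
      rw [h7]
      have h8 : |l| ^ 4 = |l| ^ 2 * |l| ^ 2 := by ring
      rw [h8]
      exact mul_le_mul_of_nonneg_left h6 (sq_nonneg _)
    have h9 : |l| ^ 4 / M ^ 2 ≤ 24 / M ^ 2 * (Real.exp l + Real.exp (-l)) := by
      rw [div_mul_eq_mul_div]
      gcongr
    have : 0 ≤ 4 * (1 + M) * (l - 1 + Real.exp (-l)) := by positivity
    linarith

/-- The square of the log ratio in mean under the first law. -/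
lemma sum_sq_log21 {ι : Type*} (s : Finset ι) (p q : ι → ℝ) (hp : ∀ a ∈ s, 0 < p a)
    (hq : ∀ a ∈ s, 0 < q a) (hp1 : ∑ a ∈ s, p a = 1) (hq1 : ∑ a ∈ s, q a = 1) {M : ℝ}
    (hM : 0 < M) :
    ∑ a ∈ s, p a * Real.log (p a / q a) ^ 2 ≤
      4 * (1 + M) * ∑ a ∈ s, p a * Real.log (p a / q a) +
        24 / M ^ 2 * (∑ a ∈ s, p a ^ 2 / q a + 1) := by
  have h1 : ∀ a ∈ s, p a * Real.log (p a / q a) ^ 2 ≤
      4 * (1 + M) * (p a * Real.log (p a / q a) - p a + q a) +
        24 / M ^ 2 * (p a ^ 2 / q a + q a) := by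
    intro a ha
    have hpa := hp a ha
    have hqa := hq a ha
    have h2 := mul_le_mul_of_nonneg_left (sq_phi21 (Real.log (p a / q a)) hM) hpa.le
    have h3 : Real.exp (-Real.log (p a / q a)) = q a / p a := by
      rw [← Real.log_inv, Real.exp_log (by positivity), inv_div]
    rw [h3, Real.exp_log (by positivity)] at h2
    refine h2.trans (le_of_eq ?_)
    field_simp
  refine (Finset.sum_le_sum h1).trans (le_of_eq ?_)
  rw [Finset.sum_add_distrib, ← Finset.mul_sum, ← Finset.mul_sum, Finset.sum_add_distrib,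
    Finset.sum_sub_distrib, Finset.sum_add_distrib, hp1, hq1]
  ring

lemma exp_sub_le21 (a b : ℝ) :
    Real.exp a - Real.exp b ≤ (Real.exp a + Real.exp b) * |a - b| := by
  have h1 : Real.exp a - Real.exp b ≤ Real.exp a * |a - b| := by
    have h2 : Real.exp b = Real.exp a * Real.exp (b - a) := by
      rw [← Real.exp_add]
      congr 1
      ring
    have h3 := Real.add_one_le_exp (b - a)
    have h4 := le_abs_self (a - b)
    have h5 : 1 - Real.exp (b - a) ≤ |a - b| := by linarith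
    rw [h2]
    have := mul_le_mul_of_nonneg_left h5 (Real.exp_pos a).le
    linarith
  have := mul_nonneg (Real.exp_pos b).le (abs_nonneg (a - b))
  linarith

variable {Ω : Type*} [MeasurableSpace Ω] {P : Measure Ω} [IsProbabilityMeasure P]

/-- A positive variable of mean one: the variance of the logarithm is at least a multiple of the
square of the mean of the logarithm. -/
lemma var_log21 {u : Ω → ℝ} (hu : ∀ w, 0 < u w) (hu1 : Integrable u P) (hE : ∫ w, u w ∂P = 1)
    (hu2 : Integrable (fun w => u w ^ 2) P) {M2 : ℝ} (hM2 : ∫ w, u w ^ 2 ∂P ≤ M2)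
    (hl1 : Integrable (fun w => Real.log (u w)) P)
    (hl2 : Integrable (fun w => Real.log (u w) ^ 2) P) {Cp : ℝ}
    (hCp : -Cp ≤ ∫ w, Real.log (u w) ∂P) :
    (∫ w, Real.log (u w) ∂P) ^ 2 ≤ (1 + Cp) ^ 2 * (2 * M2 + 2) *
      ∫ w, (Real.log (u w) - ∫ w', Real.log (u w') ∂P) ^ 2 ∂P := by
  obtain ⟨ψ, hψ⟩ : ∃ ψ : ℝ, ψ = ∫ w, Real.log (u w) ∂P := ⟨_, rfl⟩
  rw [← hψ] at hCp ⊢
  have hψ0 : ψ ≤ 0 := by
    have h1 : ∫ w, Real.log (u w) ∂P ≤ ∫ w, (u w - 1) ∂P :=
      integral_mono hl1 (hu1.sub (integrable_const 1)) fun w =>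
        Real.log_le_sub_one_of_pos (hu w)
    rw [integral_sub hu1 (integrable_const 1), hE] at h1
    simp at h1
    rw [hψ]
    exact h1
  have hVi : Integrable (fun w => (Real.log (u w) - ψ) ^ 2) P := by
    have e : ∀ w, (Real.log (u w) - ψ) ^ 2 =
        Real.log (u w) ^ 2 - 2 * ψ * Real.log (u w) + ψ ^ 2 := fun w => by ring
    simp only [e]
    exact (hl2.sub (hl1.const_mul _)).add (integrable_const _)
  obtain ⟨V, hV⟩ : ∃ V : ℝ, V = ∫ w, (Real.log (u w) - ψ) ^ 2 ∂P := ⟨_, rfl⟩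
  rw [← hV]
  have hV0 : 0 ≤ V := by
    rw [hV]
    exact integral_nonneg fun w => sq_nonneg _
  have hM20 : 0 ≤ M2 := (integral_nonneg fun w => sq_nonneg _).trans hM2
  -- the inequality with a parameter
  have hkey : ∀ t : ℝ, 0 < t → 2 * t * (1 - Real.exp ψ) ≤ t ^ 2 * (2 * M2 + 2) + V := by
    intro t ht
    have hpt : ∀ w, 2 * t * (u w - Real.exp ψ) ≤
        t ^ 2 * (2 * u w ^ 2 + 2) + (Real.log (u w) - ψ) ^ 2 := by
      intro w
      have h1 := exp_sub_le21 (Real.log (u w)) ψ
      rw [Real.exp_log (hu w)] at h1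
      have h2 : Real.exp ψ ≤ 1 := by
        rw [← Real.exp_zero]
        exact Real.exp_le_exp.2 hψ0
      have h3 := Real.exp_pos ψ
      have h4 := hu w
      have h5 : 2 * t * ((u w + Real.exp ψ) * |Real.log (u w) - ψ|) ≤
          t ^ 2 * (u w + Real.exp ψ) ^ 2 + |Real.log (u w) - ψ| ^ 2 := by
        nlinarith [sq_nonneg (t * (u w + Real.exp ψ) - |Real.log (u w) - ψ|)]
      rw [sq_abs] at h5
      have h6 : (u w + Real.exp ψ) ^ 2 ≤ 2 * u w ^ 2 + 2 := by
        nlinarith [sq_nonneg (u w - Real.exp ψ)]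
      have h7 := mul_le_mul_of_nonneg_left h1 (by positivity : (0 : ℝ) ≤ 2 * t)
      have h8 := mul_le_mul_of_nonneg_left h6 (sq_nonneg t)
      linarith
    have i1 : Integrable (fun w => 2 * t * (u w - Real.exp ψ)) P :=
      (hu1.sub (integrable_const _)).const_mul _
    have i2 : Integrable (fun w => t ^ 2 * (2 * u w ^ 2 + 2)) P :=
      ((hu2.const_mul 2).add (integrable_const _)).const_mul _
    have h1 := integral_mono i1 (i2.add hVi) hpt
    simp only [Pi.add_apply] at h1
    rw [integral_add i2 hVi, integral_const_mul, integral_sub hu1 (integrable_const _), hE,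
      integral_const_mul, integral_add (hu2.const_mul 2) (integrable_const _),
      integral_const_mul, ← hV] at h1
    simp only [integral_const, probReal_univ, smul_eq_mul, one_mul] at h1
    nlinarith [mul_le_mul_of_nonneg_left hM2 (sq_nonneg t)]
  have he0 : 0 ≤ 1 - Real.exp ψ := by
    have : Real.exp ψ ≤ 1 := by
      rw [← Real.exp_zero]
      exact Real.exp_le_exp.2 hψ0
    linarith
  have hmain : (1 - Real.exp ψ) ^ 2 ≤ (2 * M2 + 2) * V := by
    rcases he0.eq_or_lt with h | h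
    · rw [← h]
      simp
      positivity
    · have h1 := hkey ((1 - Real.exp ψ) / (2 * M2 + 2)) (by positivity)
      have h2 : (0 : ℝ) < 2 * M2 + 2 := by positivity
      have h3 : 2 * ((1 - Real.exp ψ) / (2 * M2 + 2)) * (1 - Real.exp ψ) -
          ((1 - Real.exp ψ) / (2 * M2 + 2)) ^ 2 * (2 * M2 + 2) =
          (1 - Real.exp ψ) ^ 2 / (2 * M2 + 2) := by
        field_simp
        ring
      have h4 : (1 - Real.exp ψ) ^ 2 / (2 * M2 + 2) ≤ V := by linarith
      rwa [div_le_iff₀ h2, mul_comm] at h4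
  -- `1 - e ^ (-x) ≥ x / (1 + x)`
  have hx : -ψ ≤ (1 + Cp) * (1 - Real.exp ψ) := by
    have h1 := Real.add_one_le_exp (-ψ)
    have h2 : Real.exp ψ * Real.exp (-ψ) = 1 := by
      rw [← Real.exp_add]
      simp
    have h3 : Real.exp ψ * (1 - ψ) ≤ 1 := by
      have := mul_le_mul_of_nonneg_left h1 (Real.exp_pos ψ).le
      linarith
    have h4 : -ψ ≤ (1 - ψ) * (1 - Real.exp ψ) := by linarith
    have h5 : (1 - ψ) * (1 - Real.exp ψ) ≤ (1 + Cp) * (1 - Real.exp ψ) :=
      mul_le_mul_of_nonneg_right (by linarith) he0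
    linarith
  have h6 : ψ ^ 2 ≤ ((1 + Cp) * (1 - Real.exp ψ)) ^ 2 := by
    have := pow_le_pow_left₀ (neg_nonneg.2 hψ0) hx 2
    rwa [neg_sq] at this
  calc ψ ^ 2 ≤ (1 + Cp) ^ 2 * (1 - Real.exp ψ) ^ 2 := by
        rw [← mul_pow]
        exact h6
    _ ≤ (1 + Cp) ^ 2 * ((2 * M2 + 2) * V) := mul_le_mul_of_nonneg_left hmain (sq_nonneg _)
    _ = _ := by ring

/-- The mean of a ratio: `E (u / U) ≥ (E √u) ^ 2` when `E U = 1`. -/
lemma ratio21 {u U : Ω → ℝ} (hu : ∀ w, 0 ≤ u w) (hU : ∀ w, 0 < U w) (hU1 : Integrable U P)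
    (hE : ∫ w, U w ∂P = 1) (hq : Integrable (fun w => u w / U w) P)
    (hs : Integrable (fun w => Real.sqrt (u w)) P) {r : ℝ} (hr : 0 < r)
    (hr1 : r ≤ ∫ w, Real.sqrt (u w) ∂P) : r ^ 2 ≤ ∫ w, u w / U w ∂P := by
  have hpt : ∀ w, 2 * r * Real.sqrt (u w) ≤ r ^ 2 * U w + u w / U w := by
    intro w
    have h1 : Real.sqrt (u w) = Real.sqrt (U w) * Real.sqrt (u w / U w) := by
      rw [← Real.sqrt_mul (hU w).le, mul_div_cancel₀ _ (hU w).ne']
    have h2 := Real.sq_sqrt (hU w).le
    have h3 := Real.sq_sqrt (div_nonneg (hu w) (hU w).le)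
    nlinarith [sq_nonneg (r * Real.sqrt (U w) - Real.sqrt (u w / U w))]
  have h1 := integral_mono (hs.const_mul (2 * r)) ((hU1.const_mul (r ^ 2)).add hq) hpt
  simp only [Pi.add_apply] at h1
  rw [integral_const_mul, integral_add (hU1.const_mul _) hq, integral_const_mul, hE] at h1
  nlinarith [mul_le_mul_of_nonneg_left hr1 hr.le]

end Pool.Agent.W_7d29a1_NV
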