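import Pool.Agent.W_7d29a1_NV.CorG21
import Pool.Agent.W_7d29a1_NV.OneEnd52
import Pool.Agent.W_7d29a1_NV.OneP72
import Pool.Agent.W_7d29a1_NV.TwoP66
import Pool.Agent.W_7d29a1_NV.Two6
import Pool.Agent.W_7d29a1_NV.KapT77
import Pool.Agent.W_7d29a1_NV.Mon31
import Pool.Agent.W_7d29a1_NV.MarT53

/-!
The core: assembly.
-/

namespace Pool.Agent.W_7d29a1_NV

open MeasureTheory ProbabilityTheory Filter Topology Pool.Agent.W_MP_7d29a1_pr
  Pool.Agent.W_7d29a1_h46 Pool.Agent.W_7d29a1_h46u Pool.Agent.W_7d29a1_D2.B35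
  Pool.Agent.W_7d29a1_Q29

/-- The core without hypothesis. -/
theorem corN29 {d : ℕ} {ρ : Measure ℝ} [IsProbabilityMeasure ρ] (hd : 0 < d) (hρ : EM ρ)
    (hnc : ∀ c : ℝ, ρ {c} ≠ 1) {β : ℝ} (hβ : 0 < β) : CorN d ρ β := by
  have hE : ∀ b : ℝ, HB ρ b → EqT d ρ β b := fun b hb => Eq41.eqT41 hd hβ hb
  have hK : ∀ b : ℝ, HB ρ b → KapT d ρ β b := fun b hb => kapTm77 hd hb (hE b hb)
  exact corN21 hd hρ hnc hβ (fun b hb => O72.onep72 hb oneT (hE b hb) (M53.marT53 d) (hK b hb))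
    (fun b hb => M66.twoP66 hd hρ hb oneT twoT6 (hE b hb) (hK b hb) (mix96 hb))
    (fun b hb => monT31 hd ρ hb) hK

end Pool.Agent.W_7d29a1_NV
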