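import Pool.Agent.W_7d29a1_Q29.Loc42

/-!
A row switched off: the shift argument.
-/

namespace Pool.Agent.W_7d29a1_NV

open MeasureTheory ProbabilityTheory Filter Topology Pool.Agent.W_MP_7d29a1_pr
  Pool.Agent.W_7d29a1_h46 Pool.Agent.W_7d29a1_h46u Pool.Agent.W_7d29a1_D2
  Pool.Agent.W_7d29a1_D2.B35 Pool.Agent.W_7d29a1_V.Law2 Pool.Agent.W_7d29a1_Q29
  Pool.Agent.W_7d29a1_Q29.Csy42

variable {d : ℕ} {ρ : Measure ℝ} [IsProbabilityMeasure ρ]

/-- The rows of `J` are switched off: they carry the constant `cb / β`. -/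
noncomputable def offR {d : ℕ} (ρ : Measure ℝ) (β : ℝ) (J : Finset ℕ) (η : Env d) : Env d :=
  fun p => if p.1 ∈ J then cb ρ β / β else η p

/-- The row `s + 1` is deleted and the rows behind it are shifted by `x`. -/
def cutE {d : ℕ} (s : ℕ) (x : Site d) (η : Env d) : Env d :=
  fun p => if p.1 ≤ s then η p else η (p.1 + 1, p.2 + x)

lemma mp_cutE (s : ℕ) (x : Site d) : MeasurePreserving (cutE s x) (law d ρ) (law d ρ) := by
  have h1 := LawU_reindex (ρ := ρ) (f := fun p : ℕ × Site d =>
    if p.1 ≤ s then p else ((p.1 + 1, p.2 + x) : ℕ × Site d)) (by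
      rintro ⟨i, y⟩ ⟨j, z⟩ h
      simp only at h
      split_ifs at h with h1 h2 h2
      · exact h
      · rw [Prod.mk.injEq] at h
        omega
      · rw [Prod.mk.injEq] at h
        omega
      · rw [Prod.mk.injEq, Nat.add_right_cancel_iff, add_left_inj] at h
        exact Prod.ext h.1 h.2)
  have h2 : cutE s x = fun (g : Env d) (p : ℕ × Site d) =>
      g (if p.1 ≤ s then p else (p.1 + 1, p.2 + x)) := by
    funext η p
    unfold cutE
    split_ifs <;> rfl
  rw [h2]
  exact h1

lemma wgt_congr {s : ℕ} {η η' : Env d} (hη : ∀ p : ℕ × Site d, 1 ≤ p.1 → p.1 ≤ s → η p = η' p)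
    (β : ℝ) (h : Vec d) (q : Fin s → Step d) : wgt β h η q = wgt β h η' q := by
  have h1 : energy η q = energy η' q := by
    unfold energy
    refine Finset.sum_congr rfl fun i _ => hη _ (Nat.le_add_left 1 i) i.2
  unfold wgt
  rw [h1]

lemma Z_congr {m : ℕ} {η η' : Env d} (hη : ∀ p : ℕ × Site d, 1 ≤ p.1 → p.1 ≤ m → η p = η' p)
    (β : ℝ) (h : Vec d) : Z β h η m = Z β h η' m :=
  dependsOn_Z β h m fun p hp => hη p hp.1 hp.2

/-- The partition function of `s + m` steps in the cut environment. -/
lemma Z_cut (β : ℝ) (h : Vec d) (s m : ℕ) (x : Site d) (η : Env d) :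
    Z β h (cutE s x η) (s + m) =
      ∑ q : Fin s → Step d, wgt β h η q * Z β h (sh (s + 1) (pos q s + x) η) m := by
  rw [Z_add]
  refine Finset.sum_congr rfl fun q _ => ?_
  congr 1
  · refine wgt_congr (fun p _ hp => ?_) β h q
    unfold cutE
    rw [if_pos hp]
  · refine Z_congr (fun p hp _ => ?_) β h
    unfold cutE sh
    simp only
    rw [if_neg (by omega)]
    congr 2
    exact add_assoc _ _ _

omit [IsProbabilityMeasure ρ] in
/-- The partition function with the row `s + 1` off. -/
lemma Z_off (β : ℝ) (hβ : β ≠ 0) (h : Vec d) (s m : ℕ) (η : Env d) :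
    Z β h (offR ρ β {s + 1} η) (s + (1 + m)) =
      Real.exp (cb ρ β) * ∑ e : Step d, Ew h e * Z β h (cutE s (vec e) η) (s + m) := by
  rw [Z_add]
  simp only [Z_cut, Finset.mul_sum]
  rw [Finset.sum_comm]
  refine Finset.sum_congr rfl fun q _ => ?_
  rw [Z_add, ← (Equiv.funUnique (Fin 1) (Step d)).symm.sum_comp, Finset.mul_sum]
  refine Finset.sum_congr rfl fun e _ => ?_
  have h1 : wgt β h (offR ρ β {s + 1} η) q = wgt β h η q := by
    refine wgt_congr (fun p _ hp => ?_) β h q
    unfold offR
    rw [if_neg]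
    simp only [Finset.mem_singleton]
    omega
  have h2 : pos ((Equiv.funUnique (Fin 1) (Step d)).symm e) 1 = vec e := by
    unfold pos
    simp only [Fin.sum_univ_one]
    rfl
  have h3 : wgt β h (sh s (pos q s) (offR ρ β {s + 1} η))
      ((Equiv.funUnique (Fin 1) (Step d)).symm e) = Real.exp (cb ρ β) * Ew h e := by
    unfold wgt energy
    rw [Fin.sum_univ_one, h2]
    have h4 : sh s (pos q s) (offR ρ β {s + 1} η) (((0 : Fin 1) : ℕ) + 1,
        pos ((Equiv.funUnique (Fin 1) (Step d)).symm e) (((0 : Fin 1) : ℕ) + 1)) =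
        cb ρ β / β := by
      unfold sh offR
      simp only
      rw [if_pos]
      simp only [Fin.val_zero, Finset.mem_singleton]
      omega
    rw [h4, mul_div_cancel₀ _ hβ, Real.exp_add]
    exact mul_comm _ _
  have h5 : Z β h (sh 1 (pos ((Equiv.funUnique (Fin 1) (Step d)).symm e) 1)
      (sh s (pos q s) (offR ρ β {s + 1} η))) m = Z β h (sh (s + 1) (pos q s + vec e) η) m := by
    rw [h2]
    refine Z_congr (fun p hp _ => ?_) β h
    unfold sh offR
    simp only
    rw [if_neg]
    · congr 2
      · omega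
      · rw [add_assoc, add_comm (vec e)]
    · simp only [Finset.mem_singleton]
      omega
  rw [h1, h3, h5]
  ring

lemma Ew_sum (h : Vec d) : ∑ e : Step d, Ew h e = Phi h := rfl

/-- Pointwise: the free energy with the row `s + 1` off. -/
lemma X_off_bds (hd : 0 < d) (β : ℝ) (hβ : β ≠ 0) (h : Vec d) (s m : ℕ) (η : Env d) :
    cb ρ β + Real.log (Phi h) + ∑ e : Step d, Ew h e / Phi h * X β h (cutE s (vec e) η) (s + m) ≤
      X β h (offR ρ β {s + 1} η) (s + (1 + m)) ∧
    X β h (offR ρ β {s + 1} η) (s + (1 + m)) ≤ cb ρ β + Real.log (Phi h) +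
      ∑ e : Step d, |X β h (cutE s (vec e) η) (s + m)| := by
  have hP := Phi_pos hd h
  have hne : (Finset.univ : Finset (Step d)).Nonempty := ⟨(⟨0, hd⟩, true), Finset.mem_univ _⟩
  have hw : ∑ e : Step d, Ew h e / Phi h = 1 := by
    rw [← Finset.sum_div, Ew_sum, div_self hP.ne']
  have hw0 : ∀ e : Step d, 0 ≤ Ew h e / Phi h := fun e => div_nonneg (Ew_pos h e).le hP.le
  have hZ : ∀ e : Step d, 0 < Z β h (cutE s (vec e) η) (s + m) := fun e => Z_pos hd β h _ _
  have hS : 0 < ∑ e : Step d, Ew h e / Phi h * Z β h (cutE s (vec e) η) (s + m) :=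
    Finset.sum_pos (fun e _ => mul_pos (div_pos (Ew_pos h e) hP) (hZ e)) hne
  have hX : X β h (offR ρ β {s + 1} η) (s + (1 + m)) = cb ρ β + Real.log (Phi h) +
      Real.log (∑ e : Step d, Ew h e / Phi h * Z β h (cutE s (vec e) η) (s + m)) := by
    unfold X
    rw [Z_off β hβ]
    have h1 : ∑ e : Step d, Ew h e * Z β h (cutE s (vec e) η) (s + m) =
        Phi h * ∑ e : Step d, Ew h e / Phi h * Z β h (cutE s (vec e) η) (s + m) := by
      rw [Finset.mul_sum]
      refine Finset.sum_congr rfl fun e _ => ?_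
      field_simp
    rw [h1, Real.log_mul (Real.exp_pos _).ne' (mul_pos hP hS).ne', Real.log_exp,
      Real.log_mul hP.ne' hS.ne', add_assoc]
  rw [hX]
  constructor
  · have h2 := (strictConcaveOn_log_Ioi.concaveOn).le_map_sum (t := (Finset.univ : Finset (Step d)))
      (w := fun e => Ew h e / Phi h) (p := fun e => Z β h (cutE s (vec e) η) (s + m))
      (fun e _ => hw0 e) hw (fun e _ => hZ e)
    simp only [smul_eq_mul] at h2
    unfold X
    linarith
  · have h3 : Real.log (∑ e : Step d, Ew h e / Phi h * Z β h (cutE s (vec e) η) (s + m)) ≤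
        ∑ e : Step d, |X β h (cutE s (vec e) η) (s + m)| := by
      rw [Real.log_le_iff_le_exp hS]
      have h4 : ∀ e : Step d, Z β h (cutE s (vec e) η) (s + m) ≤
          Real.exp (∑ e : Step d, |X β h (cutE s (vec e) η) (s + m)|) := by
        intro e
        rw [← Real.log_le_iff_le_exp (hZ e)]
        exact (le_abs_self _).trans (Finset.single_le_sum
          (f := fun e : Step d => |X β h (cutE s (vec e) η) (s + m)|)
          (fun e _ => abs_nonneg _) (Finset.mem_univ e))
      calc ∑ e : Step d, Ew h e / Phi h * Z β h (cutE s (vec e) η) (s + m)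
          ≤ ∑ e : Step d, Ew h e / Phi h *
            Real.exp (∑ e : Step d, |X β h (cutE s (vec e) η) (s + m)|) :=
            Finset.sum_le_sum fun e _ => mul_le_mul_of_nonneg_left (h4 e) (hw0 e)
        _ = _ := by rw [← Finset.sum_mul, hw, one_mul]
    linarith

omit [IsProbabilityMeasure ρ] in
lemma measurable_offR (β : ℝ) (J : Finset ℕ) :
    Measurable (offR ρ β J : Env d → Env d) := by
  refine measurable_pi_iff.2 fun p => ?_
  unfold offR
  by_cases hp : p.1 ∈ J
  · simp only [if_pos hp]
    exact measurable_const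
  · simp only [if_neg hp]
    exact measurable_pi_apply p

/-- The lead's shift argument. -/
theorem off_shift (hd : 0 < d) (hρ : EM ρ) (β : ℝ) (hβ : β ≠ 0) (h : Vec d) (s m : ℕ) :
    Integrable (fun η : Env d => X β h (offR ρ β {s + 1} η) (s + (1 + m))) (law d ρ) ∧
    A ρ β h (s + m) + Real.log (Phi h) + cb ρ β ≤
      ∫ η, X β h (offR ρ β {s + 1} η) (s + (1 + m)) ∂(law d ρ) := by
  have hP := Phi_pos hd h
  have hw : ∑ e : Step d, Ew h e / Phi h = 1 := by
    rw [← Finset.sum_div, Ew_sum, div_self hP.ne']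
  have hi : Integrable (fun η : Env d => X β h η (s + m)) (law d ρ) := (concU hd hρ β h (s + m)).1
  have hci : ∀ e : Step d, Integrable (fun η : Env d => X β h (cutE s (vec e) η) (s + m))
      (law d ρ) := fun e => (mp_cutE s (vec e)).integrable_comp_of_integrable hi
  have hce : ∀ e : Step d, ∫ η, X β h (cutE s (vec e) η) (s + m) ∂(law d ρ) = A ρ β h (s + m) :=
    fun e => LawU_integral (mp_cutE s (vec e)) (F := fun η : Env d => X β h η (s + m))
      (measurable_X β h (s + m)).aestronglyMeasurable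
  have hL : Integrable (fun η : Env d => cb ρ β + Real.log (Phi h) +
      ∑ e : Step d, Ew h e / Phi h * X β h (cutE s (vec e) η) (s + m)) (law d ρ) :=
    (integrable_const _).add (integrable_finsetSum _ fun e _ => (hci e).const_mul _)
  have hU : Integrable (fun η : Env d => cb ρ β + Real.log (Phi h) +
      ∑ e : Step d, |X β h (cutE s (vec e) η) (s + m)|) (law d ρ) :=
    (integrable_const _).add (integrable_finsetSum _ fun e _ => (hci e).abs)
  have hI : Integrable (fun η : Env d => X β h (offR ρ β {s + 1} η) (s + (1 + m)))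
      (law d ρ) := by
    refine (hL.abs.add hU.abs).mono' (((measurable_X β h _).comp
      (measurable_offR β _)).aestronglyMeasurable) (Filter.Eventually.of_forall fun η => ?_)
    obtain ⟨h1, h2⟩ := X_off_bds (ρ := ρ) hd β hβ h s m η
    rw [Real.norm_eq_abs]
    exact (abs_le_max_abs_abs h1 h2).trans (max_le_add_of_nonneg (abs_nonneg _) (abs_nonneg _))
  refine ⟨hI, ?_⟩
  have h3 := integral_mono hL hI fun η => (X_off_bds (ρ := ρ) hd β hβ h s m η).1
  rw [integral_add (integrable_const _)
    (integrable_finsetSum _ fun e _ => (hci e).const_mul _), integral_const,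
    integral_finsetSum _ fun e _ => (hci e).const_mul _] at h3
  simp only [integral_const_mul, hce] at h3
  rw [← Finset.sum_mul, hw] at h3
  simp only [probReal_univ, smul_eq_mul, one_mul] at h3
  linarith

end Pool.Agent.W_7d29a1_NV
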