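import Pool.Agent.W_7d29a1_NV.VarA21
import Pool.Agent.W_7d29a1_NV.BigB21
import Pool.Agent.W_7d29a1_NV.Off42
import Pool.Agent.W_7d29a1_NV.MeasN66
import Pool.Agent.W_7d29a1_Q29.SumA98

/-!
The mean variance of the gain of one row is bounded below, for a large bound of the resampling.
-/

namespace Pool.Agent.W_7d29a1_NV

open MeasureTheory ProbabilityTheory Filter Topology Pool.Agent.W_MP_7d29a1_pr
  Pool.Agent.W_7d29a1_h46 Pool.Agent.W_7d29a1_h46u Pool.Agent.W_7d29a1_D2.B35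
  Pool.Agent.W_7d29a1_Q29 Pool.Agent.W_7d29a1_Q29.Csy42

variable {d : ℕ} {ρ : Measure ℝ} [IsProbabilityMeasure ρ] {β b : ℝ}

/-- The base value is bounded. -/
lemma c0_bd21 (hβ : 0 < β) (hb : HB ρ b) : |c0 ρ β b| ≤ b := by
  haveI := M66.prob_rb hb
  have hsupp : ∀ᵐ x ∂(rb ρ b), x ∈ Set.Icc (-b) b := by
    have h1 : ∀ᵐ x ∂(ρ.restrict (Set.Icc (-b) b)), x ∈ Set.Icc (-b) b :=
      ae_restrict_mem measurableSet_Icc
    unfold rb ProbabilityTheory.cond
    exact Measure.ae_smul_measure h1 _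
  have hlo : ∀ᵐ x ∂(rb ρ b), Real.exp (-(β * b)) ≤ Real.exp (β * x) := by
    filter_upwards [hsupp] with x hx
    refine Real.exp_le_exp.2 ?_
    nlinarith [hx.1]
  have hhi : ∀ᵐ x ∂(rb ρ b), Real.exp (β * x) ≤ Real.exp (β * b) := by
    filter_upwards [hsupp] with x hx
    refine Real.exp_le_exp.2 ?_
    nlinarith [hx.2]
  have hi : Integrable (fun x => Real.exp (β * x)) (rb ρ b) := by
    refine (integrable_const (Real.exp (β * b))).mono'
      (Real.measurable_exp.comp (measurable_id.const_mul β)).aestronglyMeasurable ?_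
    filter_upwards [hhi] with x hx
    rw [Real.norm_eq_abs, abs_of_pos (Real.exp_pos _)]
    exact hx
  have h1 := integral_mono_ae (integrable_const _) hi hlo
  have h2 := integral_mono_ae hi (integrable_const _) hhi
  simp only [integral_const, probReal_univ, smul_eq_mul, one_mul] at h1 h2
  have hpos := lt_of_lt_of_le (Real.exp_pos _) h1
  rw [← Real.log_le_iff_le_exp hpos] at h2
  rw [← Real.le_log_iff_exp_le hpos] at h1
  unfold c0
  rw [abs_le]
  constructor
  · rw [le_div_iff₀ hβ]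
    linarith
  · rw [div_le_iff₀ hβ]
    linarith

lemma cl_c021 (hβ : 0 < β) (hb : HB ρ b) : cl b (c0 ρ β b) = c0 ρ β b := by
  have h := abs_le.1 (c0_bd21 hβ hb)
  unfold cl
  rw [min_eq_right h.2, max_eq_right h.1]

/-- The base environment: the bounded values of the row `t` are replaced by the constant. -/
noncomputable def bs21 {d : ℕ} (ρ : Measure ℝ) (β b : ℝ) (t : ℕ) (η : Env d) : Env d :=
  mxJ b (fun _ : Fin 1 => t) η fun _ _ => c0 ρ β b

lemma bs21_row (hβ : 0 < β) (hb : HB ρ b) (t : ℕ) (η : Env d) (z : Site d) :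
    β * bs21 ρ β b t η (t, z) - cb ρ β = fb21 ρ β b (η (t, z)) := by
  unfold bs21 mxJ fb21
  by_cases h : |η (t, z)| ≤ b
  · rw [dif_pos ⟨⟨0, rfl⟩, h⟩, if_pos h, cl_c021 hβ hb]
  · rw [dif_neg (fun h' => h h'.2), if_neg h]

lemma bs21_off (t : ℕ) (η : Env d) {p : ℕ × Site d} (hp : p.1 ≠ t) :
    bs21 ρ β b t η p = η p := by
  unfold bs21 mxJ
  rw [dif_neg]
  rintro ⟨⟨i, hi⟩, -⟩
  exact hp hi.symm

lemma wgt_bs21 (hβ : 0 < β) (hb : HB ρ b) (h : Vec d) {n t : ℕ} (ht : 1 ≤ t) (htn : t ≤ n)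
    (η : Env d) (s : Fin n → Step d) :
    wgt β h (bs21 ρ β b t η) s =
      wgt β h (offR ρ β {t} η) s * Real.exp (fb21 ρ β b (η (t, pos s t))) := by
  have hE : β * energy (bs21 ρ β b t η) s =
      β * energy (offR ρ β {t} η) s + fb21 ρ β b (η (t, pos s t)) := by
    obtain ⟨j, hj⟩ : ∃ j : Fin n, (j : ℕ) + 1 = t := ⟨⟨t - 1, by omega⟩, by simp; omega⟩
    unfold energy
    rw [Finset.mul_sum, Finset.mul_sum, ← Finset.add_sum_erase _ _ (Finset.mem_univ j),
      ← Finset.add_sum_erase (a := j) Finset.univ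
        (fun i : Fin n => β * offR ρ β {t} η ((i : ℕ) + 1, pos s (i + 1))) (Finset.mem_univ j)]
    have h1 : ∑ i ∈ Finset.univ.erase j, β * bs21 ρ β b t η ((i : ℕ) + 1, pos s (i + 1)) =
        ∑ i ∈ Finset.univ.erase j, β * offR ρ β {t} η ((i : ℕ) + 1, pos s (i + 1)) := by
      refine Finset.sum_congr rfl fun i hi => ?_
      have hne : (i : ℕ) + 1 ≠ t := by
        intro h2
        refine (Finset.mem_erase.1 hi).1 (Fin.ext ?_)
        omega
      rw [bs21_off t η hne]
      unfold offR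
      rw [if_neg]
      simpa using hne
    rw [h1, hj]
    have h2 := bs21_row (ρ := ρ) hβ hb t η (pos s t)
    have h3 : β * offR ρ β {t} η (t, pos s t) = cb ρ β := by
      unfold offR
      rw [if_pos (by simp), mul_div_cancel₀ _ hβ.ne']
    rw [h3]
    linarith
  unfold wgt
  rw [hE, ← Real.exp_add]
  congr 1
  ring

/-- The law of the walk with the row `t` off. -/
noncomputable def po21 {d : ℕ} (ρ : Measure ℝ) (β : ℝ) (h : Vec d) {n : ℕ} (t : ℕ)
    (s : Fin n → Step d) (η : Env d) : ℝ :=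
  wgt β h (offR ρ β {t} η) s / Z β h (offR ρ β {t} η) n

lemma wgt_pos21 (h : Vec d) {n : ℕ} (η : Env d) (s : Fin n → Step d) : 0 < wgt β h η s :=
  Real.exp_pos _

lemma po21_sum (hd : 0 < d) (h : Vec d) (n t : ℕ) (η : Env d) :
    ∑ s : Fin n → Step d, po21 ρ β h t s η = 1 := by
  unfold po21
  rw [← Finset.sum_div, ← Z_eq, div_self (Z_pos hd _ _ _ _).ne']

lemma po21_nonneg (hd : 0 < d) (h : Vec d) {n : ℕ} (t : ℕ) (s : Fin n → Step d) (η : Env d) :
    0 ≤ po21 ρ β h t s η :=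
  div_nonneg (wgt_pos21 _ _ _).le (Z_pos hd _ _ _ _).le

lemma po21_le_one (hd : 0 < d) (h : Vec d) {n : ℕ} (t : ℕ) (s : Fin n → Step d) (η : Env d) :
    po21 ρ β h t s η ≤ 1 := by
  rw [← po21_sum (ρ := ρ) (β := β) hd h n t η]
  exact Finset.single_le_sum (f := fun s : Fin n → Step d => po21 ρ β h t s η)
    (fun s _ => po21_nonneg hd h t s η) (Finset.mem_univ s)

lemma measurable_wgt21 (h : Vec d) {n : ℕ} (s : Fin n → Step d) :
    Measurable fun η : Env d => wgt β h η s := by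
  unfold wgt energy
  refine Real.measurable_exp.comp (Measurable.const_add (Measurable.const_mul ?_ β) _)
  exact Finset.measurable_sum _ fun i _ => measurable_pi_apply _

lemma measurable_po21 (h : Vec d) {n : ℕ} (t : ℕ) (s : Fin n → Step d) :
    Measurable fun η : Env d => po21 ρ β h t s η := by
  unfold po21
  exact ((measurable_wgt21 h s).comp (measurable_offR β {t})).div
    ((measurable_Z β h n).comp (measurable_offR β {t}))

lemma po21_dep (h : Vec d) {n : ℕ} (t : ℕ) (s : Fin n → Step d) :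
    DependsOn (fun η : Env d => po21 ρ β h t s η) {p | p.1 ≠ t} := by
  intro η η' hη
  have h1 : offR ρ β {t} η = offR ρ β {t} η' := by
    funext p
    unfold offR
    by_cases hp : p.1 = t
    · rw [if_pos (by simpa using hp), if_pos (by simpa using hp)]
    · rw [if_neg (by simpa using hp), if_neg (by simpa using hp)]
      exact hη p hp
  show po21 ρ β h t s η = po21 ρ β h t s η'
  unfold po21
  rw [h1]

/-- Pointwise: the base environment against the row off. -/
lemma X_bs21 (hd : 0 < d) (hβ : 0 < β) (hb : HB ρ b) (h : Vec d) {n t : ℕ} (ht : 1 ≤ t)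
    (htn : t ≤ n) (η : Env d) :
    X β h (offR ρ β {t} η) n +
      ∑ s : Fin n → Step d, po21 ρ β h t s η * fb21 ρ β b (η (t, pos s t)) ≤
      X β h (bs21 ρ β b t η) n := by
  have hZ := Z_pos hd β h (offR ρ β {t} η) n
  have h1 : Z β h (bs21 ρ β b t η) n = Z β h (offR ρ β {t} η) n *
      ∑ s : Fin n → Step d, po21 ρ β h t s η * Real.exp (fb21 ρ β b (η (t, pos s t))) := by
    rw [Z_eq β h (bs21 ρ β b t η), Finset.mul_sum]
    refine Finset.sum_congr rfl fun s _ => ?_
    rw [wgt_bs21 hβ hb h ht htn]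
    unfold po21
    field_simp
  have h2 := (strictConcaveOn_log_Ioi.concaveOn).le_map_sum
    (t := (Finset.univ : Finset (Fin n → Step d))) (w := fun s => po21 ρ β h t s η)
    (p := fun s => Real.exp (fb21 ρ β b (η (t, pos s t))))
    (fun s _ => po21_nonneg hd h t s η) (po21_sum hd h n t η) (fun s _ => Real.exp_pos _)
  simp only [smul_eq_mul, Real.log_exp] at h2
  have hne : 0 < ∑ s : Fin n → Step d, po21 ρ β h t s η *
      Real.exp (fb21 ρ β b (η (t, pos s t))) := by
    have h3 := Z_pos hd β h (bs21 ρ β b t η) n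
    rw [h1] at h3
    exact (mul_pos_iff_of_pos_left hZ).1 h3
  unfold X
  rw [h1, Real.log_mul hZ.ne' hne.ne']
  linarith

/-- The mean of the correction. -/
lemma int_corr21 (hd : 0 < d) (hρ : EM ρ) (h : Vec d) (n t : ℕ) :
    Integrable (fun η : Env d => ∑ s : Fin n → Step d,
      po21 ρ β h t s η * fb21 ρ β b (η (t, pos s t))) (law d ρ) ∧
    ∫ η : Env d, ∑ s : Fin n → Step d, po21 ρ β h t s η * fb21 ρ β b (η (t, pos s t))
      ∂(law d ρ) = ∫ x, fb21 ρ β b x ∂ρ := by
  have hev : ∀ z : Site d, MeasurePreserving (fun η : Env d => η (t, z)) (law d ρ) ρ := fun z =>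
    measurePreserving_eval_infinitePi (fun _ : ℕ × Site d => ρ) (t, z)
  have hfi : ∀ z : Site d, Integrable (fun η : Env d => fb21 ρ β b (η (t, z))) (law d ρ) :=
    fun z => (hev z).integrable_comp_of_integrable (integrable_fb21 hρ β b)
  have hfe : ∀ z : Site d, ∫ η : Env d, fb21 ρ β b (η (t, z)) ∂(law d ρ) =
      ∫ x, fb21 ρ β b x ∂ρ := fun z =>
    LawU_integral (hev z) (measurable_fb21 β b).aestronglyMeasurable
  have hpi : ∀ s : Fin n → Step d, Integrable (fun η : Env d =>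
      po21 ρ β h t s η * fb21 ρ β b (η (t, pos s t))) (law d ρ) := fun s =>
    (hfi (pos s t)).bdd_mul (c := 1) (measurable_po21 h t s).aestronglyMeasurable
      (Eventually.of_forall fun η => by
        rw [Real.norm_eq_abs, abs_of_nonneg (po21_nonneg hd h t s η)]
        exact po21_le_one hd h t s η)
  refine ⟨integrable_finsetSum _ fun s _ => hpi s, ?_⟩
  rw [integral_finsetSum _ fun s _ => hpi s]
  have h1 : ∀ s : Fin n → Step d, ∫ η : Env d, po21 ρ β h t s η *
      fb21 ρ β b (η (t, pos s t)) ∂(law d ρ) =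
      (∫ η : Env d, po21 ρ β h t s η ∂(law d ρ)) * ∫ x, fb21 ρ β b x ∂ρ := by
    intro s
    have h2 := S98.int_mul_cE (ρ := ρ) {p : ℕ × Site d | p.1 ≠ t} (hpi s) (po21_dep h t s)
    rw [h2, ← integral_mul_const]
    refine integral_congr_ae (Eventually.of_forall fun η => ?_)
    show po21 ρ β h t s η * cE ρ {p : ℕ × Site d | p.1 ≠ t}
      (fun η => fb21 ρ β b (η (t, pos s t))) η = _
    congr 1
    unfold cE
    have h3 : ∀ ξ : Env d, spl {p : ℕ × Site d | p.1 ≠ t} η ξ (t, pos s t) = ξ (t, pos s t) :=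
      fun ξ => S98.spl_not_mem _ _ (by simp)
    simp only [h3]
    exact hfe _
  rw [Finset.sum_congr rfl fun s _ => h1 s, ← Finset.sum_mul]
  have hp1 : ∀ s : Fin n → Step d, Integrable (fun η : Env d => po21 ρ β h t s η) (law d ρ) :=
    fun s => Integrable.of_bound (measurable_po21 h t s).aestronglyMeasurable 1
      (Eventually.of_forall fun η => by
        rw [Real.norm_eq_abs, abs_of_nonneg (po21_nonneg hd h t s η)]
        exact po21_le_one hd h t s η)
  rw [← integral_finsetSum _ fun s _ => hp1 s]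
  simp only [po21_sum hd, integral_const, probReal_univ, smul_eq_mul, one_mul]

/-- The mean variance of the gain of one row is bounded below when the length is one at which the
mean free energy grows slowly; the bound of the resampling is large. -/
theorem varP21 (hd : 0 < d) (hρ : EM ρ) (hβ : 0 < β) (hb : HB ρ b) (hE : EqT d ρ β b)
    (hM : MixT d ρ b) (hK : KapT d ρ β b) {g : ℝ} (hg : 0 < g)
    (hv : -(g / 4) ≤ ∫ x, fb21 ρ β b x ∂ρ) :
    ∃ c : ℝ, 0 < c ∧ ∀ h : Vec d,
      lam ρ β h + g ≤ Real.log (Phi h) + Real.log (∫ t, Real.exp (β * t) ∂ρ) →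
      ∀ n : ℕ, A ρ β h n - A ρ β h (n - 1) ≤ lam ρ β h + g / 2 →
        ∀ t a b' : ℕ, a < t → t ≤ b' → b' ≤ n → c ≤ vap ρ β b h n t a b' := by
  haveI := M66.prob_rb hb
  obtain ⟨C, hC⟩ : ∃ C : ℝ, C = Real.exp (2 * Bc β b) *
      ((1 + Bc β b) ^ 2 * (2 * Real.exp (2 * Bc β b) + 2)) := ⟨_, rfl⟩
  have hB0 : 0 ≤ Bc β b := by
    unfold Bc
    have := hb.b0
    positivity
  have hC0 : 0 < C := by
    rw [hC]
    have := Real.exp_pos (2 * Bc β b)
    positivity
  refine ⟨(g / 4) ^ 2 / C, by positivity, fun h hgap n hn t a b' hat htb hbn => ?_⟩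
  obtain ⟨T, hT⟩ : ∃ T : Fin 1 → ℕ, T = fun _ => t := ⟨_, rfl⟩
  obtain ⟨r, hr⟩ : ∃ r : Fin (1 + 1) → ℕ, r = ![a, b'] := ⟨_, rfl⟩
  have hr0 : r (Fin.castSucc (0 : Fin 1)) = a := by rw [hr]; rfl
  have hr1 : r (Fin.succ (0 : Fin 1)) = b' := by rw [hr]; rfl
  have hOrd : Ord n T r := by
    refine ⟨fun i => ?_, ?_⟩
    · have hi : i = 0 := Subsingleton.elim _ _
      rw [hi, hr0, hr1, hT]
      exact ⟨hat, htb⟩
    · rw [hr]
      exact hbn
  obtain ⟨Q, hQ⟩ : ∃ Q : Env d → Sp d n 1 → ℝ, Q = fun η => Qsp ρ β b h n T r η := ⟨_, rfl⟩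
  obtain ⟨u, hu⟩ : ∃ u : Env d → Fin 1 → Sp d n 1 → Env d → ℝ,
    u = fun η => usp ρ β b h n T r η := ⟨_, rfl⟩
  have hHT : ∀ η, HT (law d (rb ρ b)) (Q η) (u η) (Bc β b) := fun η => by
    rw [hQ, hu]
    exact (hE h n 1 T r hOrd η).1
  have hdT : ∀ η (ξ : Fin 1 → Env d), Real.log (dT (Q η) (u η) ξ) =
      X β h (mxJ b T η ξ) n - X β h (bs21 ρ β b t η) n := fun η ξ => by
    have h1 := ((hE h n 1 T r hOrd η).2 ξ).2
    rw [hQ, hu]
    simp only
    rw [h1, hT]
    rfl
  -- the mean variance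
  obtain ⟨F, hF⟩ : ∃ F : Env d → ℝ, F = fun η => ∫ ξ, ∑ s, prT (Q η) (u η) ξ s *
      vaT (law d (rb ρ b)) (u η) 0 s ∂(Measure.pi fun _ : Fin 1 => law d (rb ρ b)) := ⟨_, rfl⟩
  obtain ⟨G, hG⟩ : ∃ G : Env d → ℝ, G = fun η => ∫ ξ, Real.log (dT (Q η) (u η) ξ)
      ∂(Measure.pi fun _ : Fin 1 => law d (rb ρ b)) := ⟨_, rfl⟩
  have hvap : ∫ η, F η ∂(law d ρ) = vap ρ β b h n t a b' := by
    have h1 := (hK h n 1 T r hOrd 0).2.2
    rw [hr0, hr1, hT] at h1
    rw [← h1, hF, hQ, hu, hT]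
  have hGF : ∀ η, G η ^ 2 ≤ C * F η := fun η => by
    rw [hG, hF, hC]
    exact absV21 hB0 (hHT η)
  have hlogb : ∀ η (ξ : Fin 1 → Env d), |Real.log (dT (Q η) (u η) ξ)| ≤ Bc β b := fun η ξ => by
    rw [dT_one21]
    exact abs_log21 (sum_bds21 (hHT η) (ξ 0)).1 (sum_bds21 (hHT η) (ξ 0)).2
  have hlogm : Measurable fun w : Env d × (Fin 1 → Env d) =>
      Real.log (dT (Q w.1) (u w.1) w.2) := by
    rw [hQ, hu]
    exact Real.measurable_log.comp (M66.dT_meas ρ β b h n T r measurable_fst measurable_snd)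
  have hGm : Measurable G := by
    rw [hG]
    exact (hlogm.stronglyMeasurable.integral_prod_right
      (ν := Measure.pi fun _ : Fin 1 => law d (rb ρ b))).measurable
  have hGb : ∀ η, |G η| ≤ Bc β b := fun η => by
    rw [hG]
    have h1 := norm_integral_le_of_norm_le_const
      (μ := Measure.pi fun _ : Fin 1 => law d (rb ρ b))
      (f := fun ξ => Real.log (dT (Q η) (u η) ξ)) (C := Bc β b)
      (Eventually.of_forall fun ξ => by rw [Real.norm_eq_abs]; exact hlogb η ξ)
    rw [Real.norm_eq_abs] at h1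
    simpa using h1
  have hva0 : ∀ η s, 0 ≤ vaT (law d (rb ρ b)) (u η) 0 s := fun η s =>
    integral_nonneg fun x => sq_nonneg _
  have hva1 : ∀ η s, vaT (law d (rb ρ b)) (u η) 0 s ≤ (2 * Bc β b) ^ 2 := by
    intro η s
    have hl : ∀ x, |Real.log (u η 0 s x)| ≤ Bc β b := fun x =>
      abs_log21 ((hHT η).lo 0 s x) ((hHT η).hi 0 s x)
    have hps : |psT (law d (rb ρ b)) (u η) 0 s| ≤ Bc β b := by
      have h1 := norm_integral_le_of_norm_le_const (μ := law d (rb ρ b))
        (f := fun x => Real.log (u η 0 s x)) (C := Bc β b)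
        (Eventually.of_forall fun x => by rw [Real.norm_eq_abs]; exact hl x)
      rw [Real.norm_eq_abs] at h1
      simpa [psT] using h1
    have hm : Measurable fun x => (Real.log (u η 0 s x) -
        psT (law d (rb ρ b)) (u η) 0 s) ^ 2 :=
      ((Real.measurable_log.comp ((hHT η).um 0 s)).sub_const _).pow_const 2
    have hbd : ∀ x, (Real.log (u η 0 s x) - psT (law d (rb ρ b)) (u η) 0 s) ^ 2 ≤
        (2 * Bc β b) ^ 2 := by
      intro x
      rw [← sq_abs]
      refine pow_le_pow_left₀ (abs_nonneg _) ?_ 2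
      have := abs_sub (Real.log (u η 0 s x)) (psT (law d (rb ρ b)) (u η) 0 s)
      linarith [hl x]
    have hi : Integrable (fun x => (Real.log (u η 0 s x) -
        psT (law d (rb ρ b)) (u η) 0 s) ^ 2) (law d (rb ρ b)) :=
      bdd_int21 hm fun x => by
        rw [abs_of_nonneg (sq_nonneg _)]
        exact hbd x
    have h1 := integral_mono hi (integrable_const _) hbd
    simpa [vaT] using h1
  have hFin : ∀ η (ξ : Fin 1 → Env d), 0 ≤ ∑ s, prT (Q η) (u η) ξ s *
      vaT (law d (rb ρ b)) (u η) 0 s ∧ ∑ s, prT (Q η) (u η) ξ s *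
      vaT (law d (rb ρ b)) (u η) 0 s ≤ (2 * Bc β b) ^ 2 := by
    intro η ξ
    have hw : ∀ s, 0 ≤ wT (Q η) (u η) ξ s := fun s => by
      unfold wT
      rw [Fin.prod_univ_one]
      exact mul_nonneg ((hHT η).q0 s) (u_pos21 (hHT η) s (ξ 0)).le
    have hd0 : 0 < dT (Q η) (u η) ξ := by
      rw [dT_one21]
      exact lt_of_lt_of_le (Real.exp_pos _) (sum_bds21 (hHT η) (ξ 0)).1
    have hp0 : ∀ s, 0 ≤ prT (Q η) (u η) ξ s := fun s => div_nonneg (hw s) hd0.le
    have hp1 : ∑ s, prT (Q η) (u η) ξ s = 1 := by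
      unfold prT
      rw [← Finset.sum_div]
      exact div_self hd0.ne'
    refine ⟨Finset.sum_nonneg fun s _ => mul_nonneg (hp0 s) (hva0 η s), ?_⟩
    calc ∑ s, prT (Q η) (u η) ξ s * vaT (law d (rb ρ b)) (u η) 0 s
        ≤ ∑ s, prT (Q η) (u η) ξ s * (2 * Bc β b) ^ 2 :=
          Finset.sum_le_sum fun s _ => mul_le_mul_of_nonneg_left (hva1 η s) (hp0 s)
      _ = _ := by rw [← Finset.sum_mul, hp1, one_mul]
  have hFm : Measurable F := by
    rw [hF]
    have h1 : Measurable fun w : Env d × (Fin 1 → Env d) =>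
        ∑ s, prT (Q w.1) (u w.1) w.2 s * vaT (law d (rb ρ b)) (u w.1) 0 s := by
      rw [hQ, hu]
      exact Finset.measurable_sum _ fun s _ =>
        (M66.prT_meas ρ β b h n T r s measurable_fst measurable_snd).mul
          ((M66.vaT_meas hb β h n T r 0 s).comp measurable_fst)
    exact (h1.stronglyMeasurable.integral_prod_right
      (ν := Measure.pi fun _ : Fin 1 => law d (rb ρ b))).measurable
  have hFb : ∀ η, |F η| ≤ (2 * Bc β b) ^ 2 := fun η => by
    rw [hF]
    have h1 := norm_integral_le_of_norm_le_const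
      (μ := Measure.pi fun _ : Fin 1 => law d (rb ρ b))
      (f := fun ξ => ∑ s, prT (Q η) (u η) ξ s * vaT (law d (rb ρ b)) (u η) 0 s)
      (C := (2 * Bc β b) ^ 2)
      (Eventually.of_forall fun ξ => by
        rw [Real.norm_eq_abs, abs_of_nonneg (hFin η ξ).1]
        exact (hFin η ξ).2)
    rw [Real.norm_eq_abs] at h1
    simpa using h1
  have hFi : Integrable F (law d ρ) := bdd_int21 hFm hFb
  have hGi : Integrable G (law d ρ) := bdd_int21 hGm hGb
  have hG2i : Integrable (fun η => G η ^ 2) (law d ρ) :=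
    bdd_int21 (hGm.pow_const 2) (C := Bc β b ^ 2) fun η => by
      rw [abs_pow]
      exact pow_le_pow_left₀ (abs_nonneg _) (hGb η) 2
  -- the mean of the logarithm of the total gain
  have hXi : Integrable (fun η => X β h η n) (law d ρ) := (concU hd hρ β h n).1
  have hMT := hM 1 T fun i j _ => Subsingleton.elim i j
  have hXmi : Integrable (fun w : Env d × (Fin 1 → Env d) => X β h (mxJ b T w.1 w.2) n)
      ((law d ρ).prod (Measure.pi fun _ : Fin 1 => law d (rb ρ b))) :=
    hMT.integrable_comp_of_integrable hXi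
  have hXme : ∫ w : Env d × (Fin 1 → Env d), X β h (mxJ b T w.1 w.2) n
      ∂((law d ρ).prod (Measure.pi fun _ : Fin 1 => law d (rb ρ b))) = A ρ β h n :=
    LawU_integral hMT (F := fun η : Env d => X β h η n) (measurable_X β h n).aestronglyMeasurable
  have hLi : Integrable (fun w : Env d × (Fin 1 → Env d) => Real.log (dT (Q w.1) (u w.1) w.2))
      ((law d ρ).prod (Measure.pi fun _ : Fin 1 => law d (rb ρ b))) :=
    bdd_int21 hlogm fun w => hlogb w.1 w.2
  have hbm : Measurable fun η : Env d => X β h (bs21 ρ β b t η) n :=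
    (measurable_X β h n).comp (M66.mxJ_meas b _ measurable_id measurable_const)
  have hbi2 : Integrable (fun w : Env d × (Fin 1 → Env d) => X β h (bs21 ρ β b t w.1) n)
      ((law d ρ).prod (Measure.pi fun _ : Fin 1 => law d (rb ρ b))) := by
    refine (hXmi.sub hLi).congr (Eventually.of_forall fun w => ?_)
    show X β h (mxJ b T w.1 w.2) n - Real.log (dT (Q w.1) (u w.1) w.2) = _
    rw [hdT]
    ring
  have hfst : MeasurePreserving (Prod.fst : Env d × (Fin 1 → Env d) → Env d)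
      ((law d ρ).prod (Measure.pi fun _ : Fin 1 => law d (rb ρ b))) (law d ρ) :=
    measurePreserving_fst
  have hbi : Integrable (fun η : Env d => X β h (bs21 ρ β b t η) n) (law d ρ) :=
    (hfst.integrable_comp hbm.aestronglyMeasurable).1 hbi2
  have hbe : ∫ w : Env d × (Fin 1 → Env d), X β h (bs21 ρ β b t w.1) n
      ∂((law d ρ).prod (Measure.pi fun _ : Fin 1 => law d (rb ρ b))) =
      ∫ η, X β h (bs21 ρ β b t η) n ∂(law d ρ) :=
    LawU_integral hfst (F := fun η : Env d => X β h (bs21 ρ β b t η) n) hbm.aestronglyMeasurable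
  have hGe : ∫ η, G η ∂(law d ρ) = A ρ β h n - ∫ η, X β h (bs21 ρ β b t η) n ∂(law d ρ) := by
    have h1 : ∫ η, G η ∂(law d ρ) = ∫ w : Env d × (Fin 1 → Env d),
        Real.log (dT (Q w.1) (u w.1) w.2)
          ∂((law d ρ).prod (Measure.pi fun _ : Fin 1 => law d (rb ρ b))) := by
      rw [integral_prod _ hLi, hG]
    rw [h1, ← hXme, ← hbe, ← integral_sub hXmi hbi2]
    exact integral_congr_ae (Eventually.of_forall fun w => hdT w.1 w.2)
  -- the base environment
  have ht1 : 1 ≤ t := by omega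
  have htn : t ≤ n := htb.trans hbn
  obtain ⟨hoi, ho⟩ := off_shift (ρ := ρ) hd hρ β hβ.ne' h (t - 1) (n - t)
  have e1 : t - 1 + 1 = t := by omega
  have e2 : t - 1 + (1 + (n - t)) = n := by omega
  have e3 : t - 1 + (n - t) = n - 1 := by omega
  rw [e1, e2] at hoi ho
  rw [e3] at ho
  obtain ⟨hci, hce⟩ := int_corr21 (ρ := ρ) (β := β) (b := b) hd hρ h n t
  have hlow := integral_mono (hoi.add hci) hbi fun η => X_bs21 hd hβ hb h ht1 htn η
  simp only [Pi.add_apply] at hlow
  rw [integral_add hoi hci, hce] at hlow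
  have hgap' : lam ρ β h + g ≤ Real.log (Phi h) + cb ρ β := hgap
  have hGneg : ∫ η, G η ∂(law d ρ) ≤ -(g / 4) := by
    rw [hGe]
    linarith
  -- the conclusion
  have hJ : (∫ η, G η ∂(law d ρ)) ^ 2 ≤ ∫ η, G η ^ 2 ∂(law d ρ) := by
    obtain ⟨m, hm⟩ : ∃ m : ℝ, m = ∫ η, G η ∂(law d ρ) := ⟨_, rfl⟩
    have h1 : 0 ≤ ∫ η, (G η - m) ^ 2 ∂(law d ρ) := integral_nonneg fun η => sq_nonneg _
    have h2 : ∫ η, (G η - m) ^ 2 ∂(law d ρ) =
        ∫ η, G η ^ 2 ∂(law d ρ) - 2 * m * ∫ η, G η ∂(law d ρ) + m ^ 2 := by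
      have e : ∀ η, (G η - m) ^ 2 = G η ^ 2 - 2 * m * G η + m ^ 2 := fun η => by ring
      have i0 : Integrable (fun η => 2 * m * G η) (law d ρ) := hGi.const_mul _
      have i1 : Integrable (fun η => G η ^ 2 - 2 * m * G η) (law d ρ) := hG2i.sub i0
      simp only [e]
      rw [integral_add i1 (integrable_const _), integral_sub hG2i i0, integral_const_mul]
      simp
    rw [h2, ← hm] at h1
    rw [← hm]
    linarith
  have hfin : ∫ η, G η ^ 2 ∂(law d ρ) ≤ C * ∫ η, F η ∂(law d ρ) := by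
    rw [← integral_const_mul]
    exact integral_mono hG2i (hFi.const_mul C) hGF
  rw [← hvap, div_le_iff₀ hC0, mul_comm]
  refine le_trans ?_ (hJ.trans hfin)
  nlinarith

end Pool.Agent.W_7d29a1_NV
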