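import Pool.Agent.W_7d29a1_NV.DefsR66
import Pool.Agent.W_7d29a1_NV.TwoP66

/-!
Leaf Q, truncated: `TwoTr` for the polymer.
-/

namespace Pool.Agent.W_7d29a1_NV.M66

open MeasureTheory ProbabilityTheory Filter Topology Pool.Agent.W_MP_7d29a1_pr
  Pool.Agent.W_7d29a1_h46 Pool.Agent.W_7d29a1_h46u Pool.Agent.W_7d29a1_D2.B35
  Pool.Agent.W_7d29a1_Q29 Pool.Agent.W_7d29a1_NV

section Pol

variable {d : ℕ} {ρ : Measure ℝ} [IsProbabilityMeasure ρ] {β b : ℝ}

lemma min_add66 {x y z R : ℝ} (hR : 0 ≤ R) (h : |x| ≤ |y| + |z|) :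
    min |x| R ≤ min |y| R + min |z| R := by
  have hy := abs_nonneg y
  have hz := abs_nonneg z
  rcases le_total |y| R with h1 | h1 <;> rcases le_total |z| R with h2 | h2
  · rw [min_eq_left h1, min_eq_left h2]
    exact (min_le_left _ _).trans h
  · rw [min_eq_left h1, min_eq_right h2]
    exact (min_le_right _ _).trans (by linarith)
  · rw [min_eq_right h1, min_eq_left h2]
    exact (min_le_right _ _).trans (by linarith)
  · rw [min_eq_right h1, min_eq_right h2]
    exact (min_le_right _ _).trans (by linarith)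

/-- The truncated distance of two resampled free energies. -/
lemma distr66 (hb : HB ρ b) (hE : EqT d ρ β b) (hW : MixT d ρ b)
    (h : Vec d) {n k : ℕ} {T : Fin k → ℕ} {r : Fin (k + 1) → ℕ} (hO : Ord n T r)
    (a : ℝ) {M δ R : ℝ} (hM : 0 ≤ M) (hMδ : (law d ρ).real {η | M < |X β h η n - a|} ≤ δ)
    (hR : 0 ≤ R) :
    ∫ η, (∫ ω, ∫ ω', min |Real.log (dT (Qsp ρ β b h n T r η) (usp ρ β b h n T r η) ω) -
      Real.log (dT (Qsp ρ β b h n T r η) (usp ρ β b h n T r η) ω')| R
      ∂(Measure.pi fun _ => law d (rb ρ b)) ∂(Measure.pi fun _ => law d (rb ρ b))) ∂(law d ρ) ≤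
      2 * M + 2 * R * δ := by
  haveI := prob_rb hb
  set Pk : Measure (Fin k → Env d) := Measure.pi fun _ => law d (rb ρ b) with hPk
  set G : Env d × (Fin k → Env d) → ℝ := fun w => min |X β h (mxJ b T w.1 w.2) n - a| R with hG
  have hmJ : Measurable fun w : Env d × (Fin k → Env d) => mxJ b T w.1 w.2 :=
    mxJ_meas b T measurable_fst measurable_snd
  have hXm : Measurable fun η : Env d => min |X β h η n - a| R :=
    (measurable_norm.comp ((measurable_X β h n).sub_const a)).min measurable_const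
  have hGm : Measurable G := hXm.comp hmJ
  have hG0 : ∀ w, 0 ≤ G w := fun w => le_min (abs_nonneg _) hR
  have hGR : ∀ w, G w ≤ R := fun w => min_le_right _ _
  have hmp := hW k T (ord_inj hO)
  have hGb : ∀ w, ‖G w‖ ≤ R := fun w => by
    rw [Real.norm_eq_abs, abs_of_nonneg (hG0 w)]
    exact hGR w
  have hGi : Integrable G ((law d ρ).prod Pk) :=
    Integrable.mono' (integrable_const R) hGm.aestronglyMeasurable (Eventually.of_forall hGb)
  have hGi2 : ∀ η : Env d, Integrable (fun ξ => G (η, ξ)) Pk := fun η =>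
    Integrable.mono' (integrable_const R)
      (hGm.comp (measurable_const.prodMk measurable_id)).aestronglyMeasurable
      (Eventually.of_forall fun ξ => hGb (η, ξ))
  have hn0 : ∀ x : ℝ, 0 ≤ min |x| R := fun x => le_min (abs_nonneg _) hR
  have key : ∀ η : Env d, (∫ ω, ∫ ω', min |Real.log (dT (Qsp ρ β b h n T r η)
      (usp ρ β b h n T r η) ω) - Real.log (dT (Qsp ρ β b h n T r η) (usp ρ β b h n T r η) ω')| R
      ∂Pk ∂Pk) ≤ 2 * ∫ ξ, G (η, ξ) ∂Pk := by
    intro η
    obtain ⟨H, h1⟩ := hE h n k T r hO η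
    have e : ∀ ω ω' : Fin k → Env d, min |Real.log (dT (Qsp ρ β b h n T r η)
        (usp ρ β b h n T r η) ω) - Real.log (dT (Qsp ρ β b h n T r η) (usp ρ β b h n T r η) ω')| R ≤
        G (η, ω) + G (η, ω') := by
      intro ω ω'
      refine min_add66 hR ?_
      rw [(h1 ω).2, (h1 ω').2]
      have e2 : X β h (mxJ b T η ω) n - X β h (mxJ b T η fun _ _ => c0 ρ β b) n -
          (X β h (mxJ b T η ω') n - X β h (mxJ b T η fun _ _ => c0 ρ β b) n) =
          (X β h (mxJ b T η ω) n - a) - (X β h (mxJ b T η ω') n - a) := by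
        ring
      rw [e2]
      exact abs_sub _ _
    set J : ℝ := ∫ ξ, G (η, ξ) ∂Pk with hJ
    have h2 : ∀ ω, ∫ ω', min |Real.log (dT (Qsp ρ β b h n T r η)
        (usp ρ β b h n T r η) ω) - Real.log (dT (Qsp ρ β b h n T r η) (usp ρ β b h n T r η) ω')| R
        ∂Pk ≤ G (η, ω) + J := by
      intro ω
      have h3 : ∫ ω', (G (η, ω) + G (η, ω')) ∂Pk = G (η, ω) + J := by
        rw [integral_add (integrable_const _) (hGi2 η), integral_const]
        simp [hJ]
      rw [← h3]
      refine integral_mono_of_nonneg (Eventually.of_forall fun _ => hn0 _)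
        ((integrable_const _).add (hGi2 η)) (Eventually.of_forall fun ω' => e ω ω')
    have h4 : ∫ ω, (G (η, ω) + J) ∂Pk = 2 * J := by
      rw [integral_add (hGi2 η) (integrable_const _), integral_const, ← hJ]
      simp
      ring
    rw [← h4]
    exact integral_mono_of_nonneg (Eventually.of_forall fun _ => integral_nonneg fun _ =>
      hn0 _) ((hGi2 η).add (integrable_const _)) (Eventually.of_forall h2)
  have hJi : Integrable (fun η => ∫ ξ, G (η, ξ) ∂Pk) (law d ρ) := hGi.integral_prod_left
  have h5 := integral_mono_of_nonneg (μ := law d ρ) (Eventually.of_forall fun η =>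
    integral_nonneg fun _ => integral_nonneg fun _ => hn0 _) (hJi.const_mul 2)
    (Eventually.of_forall key)
  refine h5.trans ?_
  rw [integral_const_mul, ← integral_prod _ hGi]
  have h6 : ∫ w, G w ∂((law d ρ).prod Pk) = ∫ η, min |X β h η n - a| R ∂(law d ρ) :=
    LawU_integral (F := fun η => min |X β h η n - a| R) hmp hXm.aestronglyMeasurable
  rw [h6]
  have hS : MeasurableSet {η : Env d | M < |X β h η n - a|} :=
    measurableSet_lt measurable_const (measurable_norm.comp ((measurable_X β h n).sub_const a))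
  have h7 : ∀ η : Env d, min |X β h η n - a| R ≤
      M + R * {η : Env d | M < |X β h η n - a|}.indicator (fun _ => (1 : ℝ)) η := by
    intro η
    by_cases hη : M < |X β h η n - a|
    · rw [Set.indicator_of_mem (show η ∈ {η : Env d | M < |X β h η n - a|} from hη)]
      exact (min_le_right _ _).trans (by linarith)
    · rw [Set.indicator_of_notMem (show η ∉ {η : Env d | M < |X β h η n - a|} from hη)]
      push Not at hη
      exact (min_le_left _ _).trans (by linarith)
  have i7 : Integrable ({η : Env d | M < |X β h η n - a|}.indicator fun _ => (1 : ℝ)) (law d ρ) :=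
    (integrable_const (1 : ℝ)).indicator hS
  have h8 : ∫ η, min |X β h η n - a| R ∂(law d ρ) ≤ M + R * δ := by
    calc ∫ η, min |X β h η n - a| R ∂(law d ρ) ≤
        ∫ η, (M + R * {η : Env d | M < |X β h η n - a|}.indicator (fun _ => (1 : ℝ)) η)
          ∂(law d ρ) := integral_mono_of_nonneg (Eventually.of_forall fun _ => hn0 _)
            ((integrable_const _).add (i7.const_mul R)) (Eventually.of_forall h7)
      _ = M + R * (law d ρ).real {η | M < |X β h η n - a|} := by
          rw [integral_add (integrable_const _) (i7.const_mul R), integral_const_mul,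
            integral_indicator_const _ hS]
          simp
      _ ≤ M + R * δ := by
          have := mul_le_mul_of_nonneg_left hMδ hR
          linarith
  linarith

/-- `TwoTr` for the polymer. -/
theorem twoPr66 (hb : HB ρ b) (h1 : OneT) (h2 : TwoTr)
    (hE : EqT d ρ β b) (hK : KapT d ρ β b) (hW : MixT d ρ b) : TwoPr d ρ β b := by
  intro h n k T r hO a M δ hM hMδ
  haveI := prob_rb hb
  have hB := one_le_Bc hb β
  set B : ℝ := Bc β b with hBdef
  set P : Measure (Env d) := law d (rb ρ b) with hP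
  set Pk : Measure (Fin k → Env d) := Measure.pi fun _ => P with hPk
  set V : Env d → ℝ := fun η => ∑ i, ∫ ω, ∑ s, prT (Qsp ρ β b h n T r η) (usp ρ β b h n T r η) ω s *
      vaT P (usp ρ β b h n T r η) i s ∂Pk with hV
  obtain ⟨Rk, hRk⟩ : ∃ Rk : ℝ, Rk = 2 * B * Real.sqrt (k + 1) := ⟨_, rfl⟩
  have hRk0 : 0 ≤ Rk := by
    rw [hRk]
    positivity
  set I : Env d → ℝ := fun η => ∫ ω, ∫ ω', min |Real.log (dT (Qsp ρ β b h n T r η)
      (usp ρ β b h n T r η) ω) - Real.log (dT (Qsp ρ β b h n T r η) (usp ρ β b h n T r η) ω')| Rk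
      ∂Pk ∂Pk with hI
  set κ : Env d → ℝ := fun η => ∑ i, kaT P (Qsp ρ β b h n T r η) (usp ρ β b h n T r η) i with hκ
  have hpt : ∀ η, V η / (4 * B * Real.sqrt (k + 1)) ≤
      I η + κ η + (2 * B * k + 1) * Real.sqrt (2 * κ η) := fun η => by
    have h0 := h2 (Env d) (Sp d n k) k P _ _ B hB (hE h n k T r hO η).1
    rw [← hRk] at h0
    exact h0
  -- measurability and bounds
  have mv : ∀ i, Measurable fun η => ∫ ω, ∑ s, prT (Qsp ρ β b h n T r η)
      (usp ρ β b h n T r η) ω s * vaT P (usp ρ β b h n T r η) i s ∂Pk := by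
    intro i
    have h3 : Measurable fun w : Env d × (Fin k → Env d) => ∑ s, prT (Qsp ρ β b h n T r w.1)
        (usp ρ β b h n T r w.1) w.2 s * vaT P (usp ρ β b h n T r w.1) i s :=
      Finset.measurable_sum _ fun s _ =>
        (prT_meas ρ β b h n T r s measurable_fst measurable_snd).mul
          ((vaT_meas hb β h n T r i s).comp measurable_fst)
    exact (h3.stronglyMeasurable.integral_prod_right (ν := Pk)).measurable
  have bv : ∀ i η, |∫ ω, ∑ s, prT (Qsp ρ β b h n T r η)
      (usp ρ β b h n T r η) ω s * vaT P (usp ρ β b h n T r η) i s ∂Pk| ≤ 4 * B ^ 2 := by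
    intro i η
    have H := (hE h n k T r hO η).1
    have h3 := norm_integral_le_of_norm_le_const (μ := Pk)
      (f := fun ω => ∑ s, prT (Qsp ρ β b h n T r η) (usp ρ β b h n T r η) ω s *
        vaT P (usp ρ β b h n T r η) i s) (C := 4 * B ^ 2)
      (Eventually.of_forall fun ω => sum_pr_le H ω fun s => by
        rw [abs_of_nonneg (vaT_bd H i s).1]
        exact (vaT_bd H i s).2)
    simpa using h3
  have iv : ∀ i, Integrable (fun η => ∫ ω, ∑ s, prT (Qsp ρ β b h n T r η)
      (usp ρ β b h n T r η) ω s * vaT P (usp ρ β b h n T r η) i s ∂Pk) (law d ρ) := fun i =>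
    Integrable.mono' (integrable_const _) (mv i).aestronglyMeasurable
      (Eventually.of_forall fun η => bv i η)
  have iV : Integrable V (law d ρ) := integrable_finsetSum _ fun i _ => iv i
  have ik : ∀ i, Integrable (fun η => kaT P (Qsp ρ β b h n T r η) (usp ρ β b h n T r η) i)
      (law d ρ) := fun i =>
    Integrable.mono' (integrable_const (2 * B)) (kaT_meas hb β h n T r i).aestronglyMeasurable
      (Eventually.of_forall fun η => kaT_bd (hE h n k T r hO η).1 i)
  have iκ : Integrable κ (law d ρ) := integrable_finsetSum _ fun i _ => ik i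
  have κ0 : ∀ η, 0 ≤ κ η := fun η => Finset.sum_nonneg fun i _ =>
    kaT_nonneg h1 hB (hE h n k T r hO η).1 i
  have κm : Measurable κ := Finset.measurable_sum _ fun i _ => kaT_meas hb β h n T r i
  have κb : ∀ η, κ η ≤ 2 * B * k := by
    intro η
    calc κ η ≤ ∑ _i : Fin k, 2 * B := Finset.sum_le_sum fun i _ =>
          (le_abs_self _).trans (kaT_bd (hE h n k T r hO η).1 i)
      _ = 2 * B * k := by
          rw [Finset.sum_const, Finset.card_univ, Fintype.card_fin, nsmul_eq_mul]
          ring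
  have is : Integrable (fun η => Real.sqrt (2 * κ η)) (law d ρ) := by
    refine Integrable.mono' (integrable_const (Real.sqrt (2 * (2 * B * k))))
      (κm.const_mul 2).sqrt.aestronglyMeasurable (Eventually.of_forall fun η => ?_)
    rw [Real.norm_eq_abs, abs_of_nonneg (Real.sqrt_nonneg _)]
    exact Real.sqrt_le_sqrt (by linarith [κb η])
  have mI : Measurable I := by
    have h3 : Measurable fun w : (Env d × (Fin k → Env d)) × (Fin k → Env d) =>
        min |Real.log (dT (Qsp ρ β b h n T r w.1.1) (usp ρ β b h n T r w.1.1) w.1.2) -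
        Real.log (dT (Qsp ρ β b h n T r w.1.1) (usp ρ β b h n T r w.1.1) w.2)| Rk :=
      (measurable_norm.comp ((Real.measurable_log.comp (dT_meas ρ β b h n T r
        (measurable_fst.comp measurable_fst) (measurable_snd.comp measurable_fst))).sub
        (Real.measurable_log.comp (dT_meas ρ β b h n T r
        (measurable_fst.comp measurable_fst) measurable_snd)))).min measurable_const
    have h4 := (h3.stronglyMeasurable.integral_prod_right' (ν := Pk))
    exact (h4.integral_prod_right' (ν := Pk)).measurable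
  have bI : ∀ η, |I η| ≤ Rk := by
    intro η
    have h3 : ∀ x : ℝ, |min |x| Rk| ≤ Rk := by
      intro x
      rw [abs_of_nonneg (le_min (abs_nonneg _) hRk0)]
      exact min_le_right _ _
    have h4 : ∀ ω, |∫ ω', min |Real.log (dT (Qsp ρ β b h n T r η)
        (usp ρ β b h n T r η) ω) - Real.log (dT (Qsp ρ β b h n T r η) (usp ρ β b h n T r η) ω')| Rk
        ∂Pk| ≤ Rk := by
      intro ω
      have h5 := norm_integral_le_of_norm_le_const (μ := Pk) (f := fun ω' =>
        min |Real.log (dT (Qsp ρ β b h n T r η) (usp ρ β b h n T r η) ω) -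
          Real.log (dT (Qsp ρ β b h n T r η) (usp ρ β b h n T r η) ω')| Rk) (C := Rk)
        (Eventually.of_forall fun ω' => by
          rw [Real.norm_eq_abs]
          exact h3 _)
      simpa using h5
    have h6 := norm_integral_le_of_norm_le_const (μ := Pk) (f := fun ω => ∫ ω',
        min |Real.log (dT (Qsp ρ β b h n T r η) (usp ρ β b h n T r η) ω) -
          Real.log (dT (Qsp ρ β b h n T r η) (usp ρ β b h n T r η) ω')| Rk ∂Pk) (C := Rk)
        (Eventually.of_forall fun ω => h4 ω)
    simpa [hI] using h6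
  have iI : Integrable I (law d ρ) := Integrable.mono' (integrable_const _)
    mI.aestronglyMeasurable (Eventually.of_forall bI)
  have iIκ : Integrable (fun η => I η + κ η) (law d ρ) := iI.add iκ
  -- integrate
  have h3 := integral_mono (iV.div_const _) (iIκ.add (is.const_mul (2 * B * k + 1))) hpt
  have eV : ∫ η, V η / (4 * B * Real.sqrt (k + 1)) ∂(law d ρ) =
      (∑ i : Fin k, vap ρ β b h n (T i) (r i.castSucc) (r i.succ)) /
        (4 * B * Real.sqrt (k + 1)) := by
    rw [integral_div]
    congr 1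
    rw [hV, integral_finsetSum _ fun i _ => iv i]
    exact Finset.sum_congr rfl fun i _ => (hK h n k T r hO i).2.2
  have eκ : ∫ η, κ η ∂(law d ρ) =
      ∑ i : Fin k, kap ρ β b h n (T i) (r i.castSucc) (r i.succ) := by
    rw [hκ, integral_finsetSum _ fun i _ => ik i]
    exact Finset.sum_congr rfl fun i _ => (hK h n k T r hO i).1
  have eR : ∫ η, (I η + κ η + (2 * B * k + 1) * Real.sqrt (2 * κ η)) ∂(law d ρ) =
      ∫ η, I η ∂(law d ρ) + ∫ η, κ η ∂(law d ρ) +
        (2 * B * k + 1) * ∫ η, Real.sqrt (2 * κ η) ∂(law d ρ) := by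
    rw [integral_add iIκ (is.const_mul _), integral_add iI iκ, integral_const_mul]
  have hs : ∫ η, Real.sqrt (2 * κ η) ∂(law d ρ) ≤
      Real.sqrt (2 * ∑ i : Fin k, kap ρ β b h n (T i) (r i.castSucc) (r i.succ)) := by
    refine Real.le_sqrt_of_sq_le ?_
    have e4 : ∀ η, Real.sqrt (2 * κ η) ^ 2 = 2 * κ η := fun η =>
      Real.sq_sqrt (by linarith [κ0 η])
    have i4 : Integrable (fun η => Real.sqrt (2 * κ η) ^ 2) (law d ρ) := by
      simp only [e4]
      exact iκ.const_mul 2
    refine (sq_int is i4).trans (le_of_eq ?_)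
    simp only [e4]
    rw [integral_const_mul, eκ]
  have hd' : ∫ η, I η ∂(law d ρ) ≤ 2 * M + 4 * B * Real.sqrt (k + 1) * δ := by
    refine (distr66 hb hE hW h hO a hM hMδ hRk0).trans (le_of_eq ?_)
    rw [hRk]
    ring
  have hk : 0 ≤ 2 * B * k + 1 := by positivity
  calc (∑ i : Fin k, vap ρ β b h n (T i) (r i.castSucc) (r i.succ)) /
        (4 * B * Real.sqrt (k + 1)) = ∫ η, V η / (4 * B * Real.sqrt (k + 1)) ∂(law d ρ) := eV.symm
    _ ≤ ∫ η, (I η + κ η + (2 * B * k + 1) * Real.sqrt (2 * κ η)) ∂(law d ρ) := h3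
    _ = ∫ η, I η ∂(law d ρ) + ∑ i : Fin k, kap ρ β b h n (T i) (r i.castSucc) (r i.succ) +
        (2 * B * k + 1) * ∫ η, Real.sqrt (2 * κ η) ∂(law d ρ) := by rw [eR, eκ]
    _ ≤ _ := add_le_add (add_le_add hd' le_rfl) (mul_le_mul_of_nonneg_left hs hk)

end Pol

end Pool.Agent.W_7d29a1_NV.M66
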