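import Pool.Agent.W_7d29a1_NV.DefsR66
import Pool.Agent.W_7d29a1_NV.Two6

/-!
# MP_7d29a1_pr, THEOREM NV: leaf T2 with a truncated difference
-/

set_option autoImplicit false

noncomputable section

open MeasureTheory Set Filter Topology

namespace Pool.Agent.W_7d29a1_NV

section two

variable {Ω S : Type} [MeasurableSpace Ω] [Fintype S] {k : ℕ} {P : Measure Ω}
  {Q : S → ℝ} {u : Fin k → S → Ω → ℝ} {B : ℝ}

/-- The class law of another environment, against the class law, truncated. -/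
theorem stepR66 (h : HT P Q u B) (hB : 0 ≤ B) (ω ω' : Fin k → Ω) {g : S → ℝ}
    (hg1 : ∑ s, g s = 1) {R : ℝ} (hR : 0 ≤ R) :
    ∑ s, g s * min |gs6 u ω s - gs6 u ω' s| R ≤
      min |Real.log (dT Q u ω) - Real.log (dT Q u ω')| R +
        (kl Finset.univ (prT Q u ω) (prT Q u ω') +
          2 * Real.sqrt (kl Finset.univ (prT Q u ω) (prT Q u ω'))) +
        k * B * ∑ s, |g s - prT Q u ω s| := by
  obtain ⟨T, hT⟩ : ∃ T : S → ℝ, T = fun s => min |gs6 u ω s - gs6 u ω' s| R := ⟨_, rfl⟩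
  have hTe : ∀ s, min |gs6 u ω s - gs6 u ω' s| R = T s := fun s => by rw [hT]
  simp only [hTe]
  have h1 : ∑ s, prT Q u ω s * T s ≤ min |Real.log (dT Q u ω) - Real.log (dT Q u ω')| R +
      (kl Finset.univ (prT Q u ω) (prT Q u ω') +
        2 * Real.sqrt (kl Finset.univ (prT Q u ω) (prT Q u ω'))) := by
    have h2 := abs77 (pp6 h ω ω')
    have h3 : ∀ s ∈ Finset.univ, prT Q u ω s * T s ≤
        prT Q u ω s * min |Real.log (dT Q u ω) - Real.log (dT Q u ω')| R +
          prT Q u ω s * |Real.log (prT Q u ω s / prT Q u ω' s)| := by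
      intro s _
      by_cases hs : Q s = 0
      · rw [prT_z6 h ω hs]
        simp
      · rw [prT_log6 h ω ω' hs, ← mul_add]
        refine mul_le_mul_of_nonneg_left ?_ (prT_nn6 h ω s)
        have h4 := abs_add_le (Real.log (dT Q u ω) - Real.log (dT Q u ω'))
          (gs6 u ω s - gs6 u ω' s - (Real.log (dT Q u ω) - Real.log (dT Q u ω')))
        have h5 : Real.log (dT Q u ω) - Real.log (dT Q u ω') +
            (gs6 u ω s - gs6 u ω' s - (Real.log (dT Q u ω) - Real.log (dT Q u ω'))) =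
            gs6 u ω s - gs6 u ω' s := by ring
        rw [h5] at h4
        rw [← hTe s]
        have h6 := abs_nonneg (gs6 u ω s - gs6 u ω' s - (Real.log (dT Q u ω) -
          Real.log (dT Q u ω')))
        rcases le_total |Real.log (dT Q u ω) - Real.log (dT Q u ω')| R with h7 | h7
        · rw [min_eq_left h7]
          exact (min_le_left _ _).trans h4
        · rw [min_eq_right h7]
          exact (min_le_right _ _).trans (by linarith)
    refine (Finset.sum_le_sum h3).trans ?_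
    rw [Finset.sum_add_distrib, ← Finset.sum_mul, prT_sum6 h, one_mul]
    linarith
  have h6 : ∑ s, g s * T s - ∑ s, prT Q u ω s * T s ≤ k * B * ∑ s, |g s - prT Q u ω s| := by
    have e1 : ∑ s, g s * T s - ∑ s, prT Q u ω s * T s =
        ∑ s, (g s - prT Q u ω s) * (T s - k * B) := by
      have e2 : ∀ s, (g s - prT Q u ω s) * (T s - k * B) =
          g s * T s - prT Q u ω s * T s - (g s - prT Q u ω s) * (k * B) := fun s => by ring
      rw [Finset.sum_congr rfl fun s _ => e2 s, Finset.sum_sub_distrib, Finset.sum_sub_distrib,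
        ← Finset.sum_mul, Finset.sum_sub_distrib, hg1, prT_sum6 h]
      ring
    rw [e1, Finset.mul_sum]
    refine Finset.sum_le_sum fun s _ => ?_
    have h7 : |T s - k * B| ≤ k * B := by
      have h8 : 0 ≤ T s := by
        rw [← hTe s]
        exact le_min (abs_nonneg _) hR
      have h9 : T s ≤ 2 * (k * B) := by
        rw [← hTe s]
        exact (min_le_left _ _).trans (gsd6 h ω ω' s)
      exact abs_le.2 ⟨by linarith, by linarith⟩
    calc (g s - prT Q u ω s) * (T s - k * B) ≤ |(g s - prT Q u ω s) * (T s - k * B)| :=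
          le_abs_self _
      _ = |g s - prT Q u ω s| * |T s - k * B| := abs_mul _ _
      _ ≤ |g s - prT Q u ω s| * (k * B) := mul_le_mul_of_nonneg_left h7 (abs_nonneg _)
      _ = k * B * |g s - prT Q u ω s| := mul_comm _ _
  linarith

/-- The square of the gain of one class. -/
theorem sqg66 [IsProbabilityMeasure P] (h : HT P Q u B) (hB : 0 < B) (s : S) :
    ∫ p : (Fin k → Ω) × (Fin k → Ω), (gs6 u p.1 s - gs6 u p.2 s) ^ 2
        ∂((Measure.pi fun _ : Fin k => P).prod (Measure.pi fun _ : Fin k => P)) =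
      2 * ∑ i, vaT P u i s := by
  obtain ⟨m1, m2, -⟩ := four6 P (b := 2 * B) (by positivity)
    (g := fun i x => Real.log (u i s x) - psT P u i s)
    (fun i => gc_meas6 h i s) (fun i x => gc_bd6 h i s x) (fun i => gc_int6 h i s)
  set μ : Measure (Fin k → Ω) := Measure.pi fun _ : Fin k => P with hμ
  obtain ⟨c, hc⟩ : ∃ c : (Fin k → Ω) → ℝ,
      c = fun ω => ∑ i, (Real.log (u i s (ω i)) - psT P u i s) := ⟨_, rfl⟩
  have hcm : Measurable c := by
    rw [hc]
    exact sum6_meas (g := fun i x => Real.log (u i s x) - psT P u i s) fun i => gc_meas6 h i s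
  have hcb : ∀ ω, |c ω| ≤ k * (2 * B) := fun ω => by
    rw [hc]
    exact sum6_bd (g := fun i x => Real.log (u i s x) - psT P u i s)
      (fun i x => gc_bd6 h i s x) ω
  have hci : Integrable c μ := bint6 μ hcm hcb
  have hc2 : Integrable (fun ω => c ω ^ 2) μ := bint6 μ (hcm.pow_const 2)
    (C := (k * (2 * B)) ^ 2) fun ω => by
      rw [abs_pow]
      exact pow_le_pow_left₀ (abs_nonneg _) (hcb ω) 2
  have m1' : ∫ ω, c ω ∂μ = 0 := by
    rw [hc]
    exact m1
  have m2' : ∫ ω, c ω ^ 2 ∂μ = ∑ i, vaT P u i s := by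
    rw [hc]
    exact m2
  have e0 : ∀ p : (Fin k → Ω) × (Fin k → Ω), (gs6 u p.1 s - gs6 u p.2 s) ^ 2 =
      (c p.1 - c p.2) ^ 2 := by
    intro p
    rw [hc]
    simp only [gsc6]
    congr 1
    ring
  have hi : Integrable (fun p : (Fin k → Ω) × (Fin k → Ω) => (c p.1 - c p.2) ^ 2)
      (μ.prod μ) := by
    refine bint6 _ (((hcm.comp measurable_fst).sub (hcm.comp measurable_snd)).pow_const 2)
      (C := (k * (2 * B) + k * (2 * B)) ^ 2) fun p => ?_
    rw [abs_pow]
    exact pow_le_pow_left₀ (abs_nonneg _) ((abs_sub _ _).trans (add_le_add (hcb _) (hcb _))) 2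
  simp only [e0]
  rw [integral_prod _ hi]
  have e1 : ∀ ω, ∫ ω', (c ω - c ω') ^ 2 ∂μ = c ω ^ 2 + ∑ i, vaT P u i s := by
    intro ω
    have e2 : ∀ ω', (c ω - c ω') ^ 2 = c ω ^ 2 - 2 * c ω * c ω' + c ω' ^ 2 := fun ω' => by ring
    have i1 : Integrable (fun ω' => c ω ^ 2 - 2 * c ω * c ω') μ :=
      (integrable_const _).sub (hci.const_mul _)
    rw [integral_congr_ae (Filter.Eventually.of_forall e2), integral_add i1 hc2,
      integral_sub (integrable_const _) (hci.const_mul _), integral_const_mul, m1', m2']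
    simp
  simp only [e1]
  rw [integral_add hc2 (integrable_const _), m2']
  simp only [integral_const, probReal_univ, smul_eq_mul, one_mul]
  ring

/-- The truncated gain of one class. -/
theorem gainR66 [IsProbabilityMeasure P] (h : HT P Q u B) (hB : 0 < B) {R W : ℝ}
    (hR : R = 2 * B * Real.sqrt (k + 1)) (hW : W = 4 * B * Real.sqrt (k + 1)) (s : S) :
    (∑ i, vaT P u i s) / W ≤
      ∫ p : (Fin k → Ω) × (Fin k → Ω), min |gs6 u p.1 s - gs6 u p.2 s| R
        ∂((Measure.pi fun _ : Fin k => P).prod (Measure.pi fun _ : Fin k => P)) := by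
  have h1 := gain6 h hB s
  have h2 := sqg66 h hB s
  set μ : Measure (Fin k → Ω) := Measure.pi fun _ : Fin k => P with hμ
  rw [← hR] at h1
  have hs : 0 < Real.sqrt ((k : ℝ) + 1) := Real.sqrt_pos.2 (by positivity)
  have hR0 : 0 < R := by
    rw [hR]
    positivity
  have hWR : W = 2 * R := by
    rw [hW, hR]
    ring
  have hm : Measurable fun p : (Fin k → Ω) × (Fin k → Ω) => gs6 u p.1 s - gs6 u p.2 s :=
    ((gs6_meas h s).comp measurable_fst).sub ((gs6_meas h s).comp measurable_snd)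
  have i1 : Integrable (fun p : (Fin k → Ω) × (Fin k → Ω) => |gs6 u p.1 s - gs6 u p.2 s|)
      (μ.prod μ) := bint6 _ hm.abs (C := 2 * (k * B)) fun p => by
    rw [abs_abs]
    exact gsd6 h p.1 p.2 s
  have i2 : Integrable (fun p : (Fin k → Ω) × (Fin k → Ω) => (gs6 u p.1 s - gs6 u p.2 s) ^ 2)
      (μ.prod μ) := bint6 _ (hm.pow_const 2) (C := (2 * (k * B)) ^ 2) fun p => by
    rw [abs_pow]
    exact pow_le_pow_left₀ (abs_nonneg _) (gsd6 h p.1 p.2 s) 2
  have i3 : Integrable (fun p : (Fin k → Ω) × (Fin k → Ω) => min |gs6 u p.1 s - gs6 u p.2 s| R)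
      (μ.prod μ) := bint6 _ (hm.abs.min measurable_const) (C := R) fun p => by
    rw [abs_of_nonneg (le_min (abs_nonneg _) hR0.le)]
    exact min_le_right _ _
  have h3 : ∫ p : (Fin k → Ω) × (Fin k → Ω), (|gs6 u p.1 s - gs6 u p.2 s| -
      1 / (4 * R) * (gs6 u p.1 s - gs6 u p.2 s) ^ 2) ∂(μ.prod μ) ≤
      ∫ p : (Fin k → Ω) × (Fin k → Ω), min |gs6 u p.1 s - gs6 u p.2 s| R ∂(μ.prod μ) := by
    refine integral_mono (i1.sub (i2.const_mul _)) i3 fun p => ?_
    obtain ⟨x, hx⟩ : ∃ x, x = |gs6 u p.1 s - gs6 u p.2 s| := ⟨_, rfl⟩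
    have hx0 : 0 ≤ x := by
      rw [hx]
      exact abs_nonneg _
    show |gs6 u p.1 s - gs6 u p.2 s| - 1 / (4 * R) * (gs6 u p.1 s - gs6 u p.2 s) ^ 2 ≤
      min |gs6 u p.1 s - gs6 u p.2 s| R
    rw [← sq_abs (gs6 u p.1 s - gs6 u p.2 s), ← hx]
    have h4 : 0 ≤ 1 / (4 * R) * x ^ 2 := by positivity
    refine le_min (by linarith) ?_
    have h5 : 1 / (4 * R) * x ^ 2 - x + R = 1 / (4 * R) * (x - 2 * R) ^ 2 := by
      field_simp
      ring
    have h6 : 0 ≤ 1 / (4 * R) * (x - 2 * R) ^ 2 := by positivity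
    linarith
  rw [integral_sub i1 (i2.const_mul _), integral_const_mul, h2] at h3
  have h7 : (∑ i, vaT P u i s) / W =
      (∑ i, vaT P u i s) / R - 1 / (4 * R) * (2 * ∑ i, vaT P u i s) := by
    rw [hWR]
    field_simp
    ring
  rw [h7]
  linarith

end two

open Classical in
/-- **`TwoTr`.** -/
theorem twoTr66 : TwoTr := by
  intro Ω S _ _ k P _ Q u B hB1 h
  have hB : 0 < B := by linarith
  set μ : Measure (Fin k → Ω) := Measure.pi fun _ : Fin k => P with hμ
  set K : ℝ := ∑ i, kaT P Q u i with hK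
  obtain ⟨R, hR⟩ : ∃ R : ℝ, R = 2 * B * Real.sqrt (k + 1) := ⟨_, rfl⟩
  have hR0 : 0 < R := by
    have : (0 : ℝ) < k + 1 := by positivity
    have := Real.sqrt_pos.2 this
    rw [hR]
    positivity
  obtain ⟨W, hW⟩ : ∃ W : ℝ, W = 4 * B * Real.sqrt (k + 1) := ⟨_, rfl⟩
  have hmr : ∀ x : ℝ, |min |x| R| ≤ R := fun x => by
    rw [abs_of_nonneg (le_min (abs_nonneg _) hR0.le)]
    exact min_le_right _ _
  -- the mean law
  set g : S → ℝ := fun s => ∫ ω, prT Q u ω s ∂μ with hg
  have hpi : ∀ s, Integrable (fun ω => prT Q u ω s) μ := fun s =>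
    bint6 μ (prT_meas6 h s) (C := 1) fun ω => by
      rw [abs_of_nonneg (prT_nn6 h ω s)]
      exact prT_le6 h ω s
  have hg0 : ∀ s, 0 ≤ g s := fun s => integral_nonneg fun ω => prT_nn6 h ω s
  have hg1 : ∑ s, g s = 1 := by
    rw [hg]
    show ∑ s, ∫ ω, prT Q u ω s ∂μ = 1
    rw [← integral_finsetSum _ fun s _ => hpi s,
      integral_congr_ae (Filter.Eventually.of_forall fun ω => prT_sum6 h ω)]
    simp
  -- the left side
  have hL : ∑ i, ∫ ω, ∑ s, prT Q u ω s * vaT P u i s ∂μ = ∑ s, g s * ∑ i, vaT P u i s := by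
    have e1 : ∀ i : Fin k, ∫ ω, ∑ s, prT Q u ω s * vaT P u i s ∂μ =
        ∑ s, g s * vaT P u i s := by
      intro i
      rw [integral_finsetSum _ fun s _ => (hpi s).mul_const _]
      exact Finset.sum_congr rfl fun s _ => integral_mul_const _ _
    rw [Finset.sum_congr rfl fun i _ => e1 i, Finset.sum_comm]
    exact Finset.sum_congr rfl fun s _ => (Finset.mul_sum _ _ _).symm
  -- functions on the product
  have mT : ∀ s, Measurable fun p : (Fin k → Ω) × (Fin k → Ω) =>
      min |gs6 u p.1 s - gs6 u p.2 s| R :=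
    fun s => (((gs6_meas h s).comp measurable_fst).sub
      ((gs6_meas h s).comp measurable_snd)).abs.min measurable_const
  have iT : ∀ s, Integrable (fun p : (Fin k → Ω) × (Fin k → Ω) =>
      min |gs6 u p.1 s - gs6 u p.2 s| R) (μ.prod μ) := fun s =>
    bint6 _ (mT s) (C := R) fun p => hmr _
  have mF : Measurable fun p : (Fin k → Ω) × (Fin k → Ω) =>
      min |Real.log (dT Q u p.1) - Real.log (dT Q u p.2)| R :=
    (((Real.measurable_log.comp (dT_meas6 h)).comp measurable_fst).sub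
      ((Real.measurable_log.comp (dT_meas6 h)).comp measurable_snd)).abs.min measurable_const
  have iF : Integrable (fun p : (Fin k → Ω) × (Fin k → Ω) =>
      min |Real.log (dT Q u p.1) - Real.log (dT Q u p.2)| R) (μ.prod μ) :=
    bint6 _ mF (C := R) fun p => hmr _
  have hk0 : ∀ p : (Fin k → Ω) × (Fin k → Ω), 0 ≤ kl Finset.univ (prT Q u p.1) (prT Q u p.2) :=
    fun p => kl_nonneg77 (pp6 h p.1 p.2)
  have iK : Integrable (fun p : (Fin k → Ω) × (Fin k → Ω) =>
      kl Finset.univ (prT Q u p.1) (prT Q u p.2)) (μ.prod μ) :=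
    bint6 _ (kl_meas6 h) fun p => kl_bd6 h p.1 p.2
  have iR : Integrable (fun p : (Fin k → Ω) × (Fin k → Ω) =>
      Real.sqrt (kl Finset.univ (prT Q u p.1) (prT Q u p.2))) (μ.prod μ) :=
    bint6 _ (Real.continuous_sqrt.measurable.comp (kl_meas6 h)) (C := Real.sqrt (4 * (k * B)))
      fun p => by
        rw [abs_of_nonneg (Real.sqrt_nonneg _)]
        exact Real.sqrt_le_sqrt ((le_abs_self _).trans (kl_bd6 h p.1 p.2))
  have hKK : ∫ p : (Fin k → Ω) × (Fin k → Ω), kl Finset.univ (prT Q u p.1) (prT Q u p.2)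
      ∂(μ.prod μ) = K := by
    rw [integral_prod _ iK]
    exact sel_all6 h hB.le
  have hK0 : 0 ≤ K := by
    rw [← hKK]
    exact integral_nonneg hk0
  have hsq : ∫ p : (Fin k → Ω) × (Fin k → Ω),
      Real.sqrt (kl Finset.univ (prT Q u p.1) (prT Q u p.2)) ∂(μ.prod μ) ≤ Real.sqrt K := by
    rw [← hKK]
    exact sqrt6 (μ.prod μ) (kl_meas6 h) hk0 fun p => (le_abs_self _).trans (kl_bd6 h p.1 p.2)
  -- the mean law against the law
  have mG : ∀ s, Measurable fun ω => |g s - prT Q u ω s| := fun s =>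
    (measurable_const.sub (prT_meas6 h s)).abs
  have bG : ∀ s ω, |g s - prT Q u ω s| ≤ 1 := by
    intro s ω
    have h1 : g s ≤ 1 := by
      rw [← hg1]
      exact Finset.single_le_sum (fun t _ => hg0 t) (Finset.mem_univ s)
    have h2 := prT_le6 h ω s
    have h3 := prT_nn6 h ω s
    have h4 := hg0 s
    exact abs_le.2 ⟨by linarith, by linarith⟩
  have iG : ∀ s, Integrable (fun ω => |g s - prT Q u ω s|) μ := fun s =>
    bint6 μ (mG s) (C := 1) fun ω => by
      rw [abs_abs]
      exact bG s ω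
  have mD : ∀ s, Measurable fun p : (Fin k → Ω) × (Fin k → Ω) =>
      |prT Q u p.1 s - prT Q u p.2 s| := fun s =>
    (((prT_meas6 h s).comp measurable_fst).sub ((prT_meas6 h s).comp measurable_snd)).abs
  have iD : ∀ s, Integrable (fun p : (Fin k → Ω) × (Fin k → Ω) =>
      |prT Q u p.1 s - prT Q u p.2 s|) (μ.prod μ) := fun s =>
    bint6 _ (mD s) (C := 1) fun p => by
      rw [abs_abs]
      have h1 := prT_le6 h p.1 s
      have h2 := prT_nn6 h p.1 s
      have h3 := prT_le6 h p.2 s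
      have h4 := prT_nn6 h p.2 s
      exact abs_le.2 ⟨by linarith, by linarith⟩
  have hTV : ∫ ω, ∑ s, |g s - prT Q u ω s| ∂μ ≤ 2 * Real.sqrt K := by
    have h1 : ∀ s ω, |g s - prT Q u ω s| ≤ ∫ ω', |prT Q u ω s - prT Q u ω' s| ∂μ := by
      intro s ω
      have e1 : g s - prT Q u ω s = - ∫ ω', (prT Q u ω s - prT Q u ω' s) ∂μ := by
        rw [integral_sub (integrable_const _) (hpi s)]
        simp [hg]
      rw [e1, abs_neg]
      exact abs_integral_le_integral_abs
    have h2 : ∀ s, ∫ ω, |g s - prT Q u ω s| ∂μ ≤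
        ∫ p : (Fin k → Ω) × (Fin k → Ω), |prT Q u p.1 s - prT Q u p.2 s| ∂(μ.prod μ) := by
      intro s
      rw [integral_prod _ (iD s)]
      exact integral_mono (iG s) (iD s).integral_prod_left fun ω => h1 s ω
    rw [integral_finsetSum _ fun s _ => iG s]
    refine (Finset.sum_le_sum fun s _ => h2 s).trans ?_
    rw [← integral_finsetSum _ fun s _ => iD s]
    have h3 : ∫ p : (Fin k → Ω) × (Fin k → Ω), ∑ s, |prT Q u p.1 s - prT Q u p.2 s|
        ∂(μ.prod μ) ≤ ∫ p : (Fin k → Ω) × (Fin k → Ω),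
          2 * Real.sqrt (kl Finset.univ (prT Q u p.1) (prT Q u p.2)) ∂(μ.prod μ) :=
      integral_mono (integrable_finsetSum _ fun s _ => iD s) (iR.const_mul _)
        fun p => tv77 (pp6 h p.1 p.2)
    refine h3.trans ?_
    rw [integral_const_mul]
    linarith
  -- assembly
  have iSum : Integrable (fun p : (Fin k → Ω) × (Fin k → Ω) =>
      ∑ s, g s * min |gs6 u p.1 s - gs6 u p.2 s| R) (μ.prod μ) :=
    integrable_finsetSum _ fun s _ => (iT s).const_mul _
  have iGS : Integrable (fun ω => ∑ s, |g s - prT Q u ω s|) μ :=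
    integrable_finsetSum _ fun s _ => iG s
  have iGS2 : Integrable (fun p : (Fin k → Ω) × (Fin k → Ω) =>
      ∑ s, |g s - prT Q u p.1 s|) (μ.prod μ) := iGS.comp_fst μ
  have hmain : ∑ s, g s * ((∑ i, vaT P u i s) / W) ≤
      (∫ p : (Fin k → Ω) × (Fin k → Ω), min |Real.log (dT Q u p.1) - Real.log (dT Q u p.2)| R
        ∂(μ.prod μ)) + (K + 2 * Real.sqrt K) + k * B * (2 * Real.sqrt K) := by
    have h1 : ∑ s, g s * ((∑ i, vaT P u i s) / W) ≤
        ∫ p : (Fin k → Ω) × (Fin k → Ω), ∑ s, g s * min |gs6 u p.1 s - gs6 u p.2 s| R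
          ∂(μ.prod μ) := by
      rw [integral_finsetSum _ fun s _ => (iT s).const_mul _]
      refine Finset.sum_le_sum fun s _ => ?_
      rw [integral_const_mul]
      exact mul_le_mul_of_nonneg_left (gainR66 h hB hR hW s) (hg0 s)
    refine h1.trans ?_
    have i1 : Integrable (fun p : (Fin k → Ω) × (Fin k → Ω) =>
        kl Finset.univ (prT Q u p.1) (prT Q u p.2) +
          2 * Real.sqrt (kl Finset.univ (prT Q u p.1) (prT Q u p.2))) (μ.prod μ) :=
      iK.add (iR.const_mul _)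
    have i2 : Integrable (fun p : (Fin k → Ω) × (Fin k → Ω) =>
        min |Real.log (dT Q u p.1) - Real.log (dT Q u p.2)| R +
        (kl Finset.univ (prT Q u p.1) (prT Q u p.2) +
          2 * Real.sqrt (kl Finset.univ (prT Q u p.1) (prT Q u p.2)))) (μ.prod μ) := iF.add i1
    have i3 : Integrable (fun p : (Fin k → Ω) × (Fin k → Ω) =>
        k * B * ∑ s, |g s - prT Q u p.1 s|) (μ.prod μ) := iGS2.const_mul _
    have h2 := integral_mono iSum (i2.add i3) fun p => stepR66 h hB.le p.1 p.2 hg1 hR0.le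
    refine h2.trans ?_
    have e1 : ∫ p, ((fun p : (Fin k → Ω) × (Fin k → Ω) =>
        min |Real.log (dT Q u p.1) - Real.log (dT Q u p.2)| R +
        (kl Finset.univ (prT Q u p.1) (prT Q u p.2) +
          2 * Real.sqrt (kl Finset.univ (prT Q u p.1) (prT Q u p.2)))) +
        fun p : (Fin k → Ω) × (Fin k → Ω) => k * B * ∑ s, |g s - prT Q u p.1 s|) p
        ∂(μ.prod μ) =
        (∫ p : (Fin k → Ω) × (Fin k → Ω), min |Real.log (dT Q u p.1) - Real.log (dT Q u p.2)| R
          ∂(μ.prod μ)) + (K + 2 * ∫ p : (Fin k → Ω) × (Fin k → Ω),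
            Real.sqrt (kl Finset.univ (prT Q u p.1) (prT Q u p.2)) ∂(μ.prod μ)) +
          k * B * ∫ ω, ∑ s, |g s - prT Q u ω s| ∂μ := by
      rw [integral_add' i2 i3, integral_add iF i1, integral_add iK (iR.const_mul _),
        integral_const_mul, integral_const_mul, hKK]
      congr 2
      rw [integral_prod _ iGS2]
      simp
    rw [e1]
    have h4 : (k : ℝ) * B * ∫ ω, ∑ s, |g s - prT Q u ω s| ∂μ ≤ k * B * (2 * Real.sqrt K) :=
      mul_le_mul_of_nonneg_left hTV (by positivity)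
    linarith
  have hleft : (∑ i, ∫ ω, ∑ s, prT Q u ω s * vaT P u i s ∂μ) / W =
      ∑ s, g s * ((∑ i, vaT P u i s) / W) := by
    rw [hL, Finset.sum_div]
    exact Finset.sum_congr rfl fun s _ => mul_div_assoc _ _ _
  rw [← hW, ← hR, hleft, ← integral_prod (fun p : (Fin k → Ω) × (Fin k → Ω) =>
    min |Real.log (dT Q u p.1) - Real.log (dT Q u p.2)| R) iF]
  refine hmain.trans ?_
  rcases Nat.eq_zero_or_pos k with hk | hk
  · subst hk
    have hK' : K = 0 := by simp [hK]
    rw [hK']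
    simp
  · have hk1 : (1 : ℝ) ≤ k := by exact_mod_cast hk
    have h1 : Real.sqrt (2 * K) = Real.sqrt 2 * Real.sqrt K := Real.sqrt_mul (by norm_num) K
    rw [h1]
    have h2 : (1.41 : ℝ) ≤ Real.sqrt 2 := by
      refine Real.le_sqrt_of_sq_le ?_
      norm_num
    have h3 := Real.sqrt_nonneg K
    have h4 : (1 : ℝ) ≤ k * B := by nlinarith
    have h5 : 2 * Real.sqrt K + k * B * (2 * Real.sqrt K) ≤
        (2 * B * k + 1) * (Real.sqrt 2 * Real.sqrt K) := by
      have h6 : 2 + k * B * 2 ≤ (2 * B * k + 1) * Real.sqrt 2 := by nlinarith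
      nlinarith
    linarith

end Pool.Agent.W_7d29a1_NV
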