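import Pool.Agent.W_7d29a1_NV.CoreR66
import Pool.Agent.W_7d29a1_NV.TwoPr66
import Pool.Agent.W_7d29a1_NV.TwoTr66
import Pool.Agent.W_7d29a1_NV.OneEnd52
import Pool.Agent.W_7d29a1_NV.OneP72
import Pool.Agent.W_7d29a1_NV.MarT53
import Pool.Agent.W_7d29a1_NV.KapT77
import Pool.Agent.W_7d29a1_NV.Mix96
import Pool.Agent.W_7d29a1_NV.Mon31
import Pool.Agent.W_7d29a1_NV.Eq41c
import Pool.Agent.W_7d29a1_NV.VarL42
import Pool.Agent.W_7d29a1_NV.BigB21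

/-!
The core, truncated, without hypotheses.
-/

namespace Pool.Agent.W_7d29a1_NV

open MeasureTheory ProbabilityTheory Filter Topology Pool.Agent.W_MP_7d29a1_pr
  Pool.Agent.W_7d29a1_h46 Pool.Agent.W_7d29a1_h46u Pool.Agent.W_7d29a1_D2.B35
  Pool.Agent.W_7d29a1_Q29

variable {d : ℕ} {ρ : Measure ℝ} [IsProbabilityMeasure ρ] {β : ℝ}

/-- `TwoPr`, closed. -/
theorem twoPrE66 (hd : 0 < d) (hβ : 0 < β) {b : ℝ} (hb : HB ρ b) : TwoPr d ρ β b :=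
  M66.twoPr66 hb oneT twoTr66 (Eq41.eqT41 hd hβ hb) (kapTm77 hd hb (Eq41.eqT41 hd hβ hb))
    (mix96 hb)

/-- `OneP`, closed. -/
theorem onePE66 (hd : 0 < d) (hβ : 0 < β) {b : ℝ} (hb : HB ρ b) : OneP d ρ β b :=
  O72.onep72 hb oneT (Eq41.eqT41 hd hβ hb) (M53.marT53 d)
    (kapTm77 hd hb (Eq41.eqT41 hd hβ hb))

/-- **The core, closed.** -/
theorem coreRE66 (hd : 0 < d) (hρ : EM ρ) (hnc : ∀ c : ℝ, ρ {c} ≠ 1) (hβ : 0 < β) :
    CoreR d ρ β := by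
  obtain ⟨b, hb⟩ := (eventually_HB21 hnc).exists
  exact coreR66 hb.b0.le (onePE66 hd hβ hb) (twoPrE66 hd hβ hb) (monT31 hd ρ hb)
    (varL42 hd hρ hβ.ne' hb)

end Pool.Agent.W_7d29a1_NV
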