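import Pool.Agent.W_7d29a1_h46u.LamU

/-!
Theorem NV: the choice of the length `n`.
-/

set_option autoImplicit false

namespace Pool.Agent.W_7d29a1_NV

open MeasureTheory ProbabilityTheory Filter Topology Pool.Agent.W_MP_7d29a1_pr
  Pool.Agent.W_7d29a1_h46 Pool.Agent.W_7d29a1_h46u

lemma tele89 (a : ℕ → ℝ) (N M m : ℕ) (hNM : N ≤ M) :
    ∑ n ∈ Finset.Ico N M, (a (n + m) - a n) = ∑ j ∈ Finset.range m, (a (M + j) - a (N + j)) := by
  induction m with
  | zero => simp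
  | succ m ih =>
    have e1 : ∑ n ∈ Finset.Ico N M, (a (n + (m + 1)) - a n) =
        ∑ n ∈ Finset.Ico N M, (a (n + m) - a n) +
          ∑ n ∈ Finset.Ico N M, (a (n + 1 + m) - a (n + m)) := by
      rw [← Finset.sum_add_distrib]
      refine Finset.sum_congr rfl fun n _ => ?_
      have : n + (m + 1) = n + 1 + m := by ring
      rw [this]
      ring
    rw [e1, ih, Finset.sum_range_succ, Finset.sum_Ico_sub (fun n => a (n + m)) hNM]

theorem densA89 {a : ℕ → ℝ} {L : ℝ} (hle : ∀ n, a n ≤ n * L)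
    (hsup : ∀ m n, a m + a n ≤ a (m + n))
    (hlim : Tendsto (fun n : ℕ => a n / n) atTop (𝓝 L)) {m : ℕ} {b δ : ℝ} (hb : 0 < b)
    (hδ : 0 < δ) (hD : m * L - a m ≤ δ * b / 8) :
    ∃ N₀ : ℕ, ∀ N ≥ N₀, (((Finset.Ico N (2 * N)).filter fun n =>
      ¬ (a (n + m) - a n ≤ L * m + b / 4)).card : ℝ) ≤ δ * N := by
  obtain ⟨κ, hκ⟩ : ∃ κ : ℝ, κ = δ * b / (16 * (m + 1)) := ⟨_, rfl⟩
  have hκ0 : 0 < κ := by
    rw [hκ]
    positivity
  have h1 : ∀ᶠ n : ℕ in atTop, L - κ < a n / n := hlim.eventually (lt_mem_nhds (by linarith))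
  obtain ⟨N1, hN1⟩ := eventually_atTop.1 h1
  refine ⟨max (max N1 m) 1, fun N hN => ?_⟩
  have hN1' : N1 ≤ N := (le_max_left _ _).trans ((le_max_left _ _).trans hN)
  have hNm : m ≤ N := (le_max_right _ _).trans ((le_max_left _ _).trans hN)
  have hN0 : 1 ≤ N := (le_max_right _ _).trans hN
  have hlow : ∀ j, (N + j : ℕ) * (L - κ) ≤ a (N + j) := by
    intro j
    have h2 := (hN1 (N + j) (by omega)).le
    have h3 : (0 : ℝ) < ((N + j : ℕ) : ℝ) := by
      have : 0 < N + j := by omega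
      exact_mod_cast this
    rw [le_div_iff₀ h3] at h2
    linarith
  set S := (Finset.Ico N (2 * N)).filter fun n => ¬ (a (n + m) - a n ≤ L * m + b / 4) with hS
  have h4 : (S.card : ℝ) * (b / 4) ≤ ∑ n ∈ Finset.Ico N (2 * N), (a (n + m) - a n - a m) := by
    calc (S.card : ℝ) * (b / 4) = ∑ _n ∈ S, b / 4 := by rw [Finset.sum_const, nsmul_eq_mul]
      _ ≤ ∑ n ∈ S, (a (n + m) - a n - a m) := by
        refine Finset.sum_le_sum fun n hn => ?_
        have h5 := (Finset.mem_filter.1 hn).2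
        have h6 := hle m
        push Not at h5
        nlinarith
      _ ≤ _ := by
        refine Finset.sum_le_sum_of_subset_of_nonneg (Finset.filter_subset _ _) fun n _ _ => ?_
        have := hsup n m
        linarith
  have h5 : ∑ n ∈ Finset.Ico N (2 * N), (a (n + m) - a n - a m) =
      ∑ j ∈ Finset.range m, (a (2 * N + j) - a (N + j)) - N * a m := by
    rw [Finset.sum_sub_distrib, tele89 a N (2 * N) m (by omega), Finset.sum_const, Nat.card_Ico,
      nsmul_eq_mul]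
    have : 2 * N - N = N := by omega
    rw [this]
  have h6 : ∑ j ∈ Finset.range m, (a (2 * N + j) - a (N + j)) ≤
      ∑ _j ∈ Finset.range m, ((N : ℝ) * L + κ * (2 * N)) := by
    refine Finset.sum_le_sum fun j hj => ?_
    have hj' := Finset.mem_range.1 hj
    have e1 := hle (2 * N + j)
    have e2 := hlow j
    have e3 : (j : ℝ) ≤ N := by exact_mod_cast (hj'.le.trans hNm)
    push_cast at e1 e2
    nlinarith
  rw [Finset.sum_const, Finset.card_range, nsmul_eq_mul] at h6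
  have hNR : (1 : ℝ) ≤ N := by exact_mod_cast hN0
  have h7 : (m : ℝ) * (κ * (2 * N)) ≤ δ * b / 8 * N := by
    have e1 : κ * (16 * (m + 1)) = δ * b := by
      rw [hκ]
      field_simp
    have e2 : (0 : ℝ) ≤ m := Nat.cast_nonneg m
    have e3 : κ * m * 16 ≤ δ * b := by nlinarith
    nlinarith
  have h8 : (S.card : ℝ) * (b / 4) ≤ δ * N * (b / 4) := by
    rw [h5] at h4
    have e1 : N * (m * L - a m) ≤ N * (δ * b / 8) := mul_le_mul_of_nonneg_left hD (by linarith)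
    nlinarith
  exact le_of_mul_le_mul_right h8 (by positivity)

variable {d : ℕ} {ρ : Measure ℝ} [IsProbabilityMeasure ρ]

/-- The choice of the length: all but a fraction `δ` of the lengths are good. -/
theorem densm89 (hd : 0 < d) (hρ : EM ρ) (β : ℝ) (h : Vec d) {m : ℕ} {b δ : ℝ} (hb : 0 < b)
    (hδ : 0 < δ) (hD : m * lam ρ β h - A ρ β h m ≤ δ * b / 8) :
    ∃ N₀ : ℕ, ∀ N ≥ N₀, (((Finset.Ico N (2 * N)).filter fun n =>
      ¬ (A ρ β h (n + m) - A ρ β h n ≤ lam ρ β h * m + b / 4)).card : ℝ) ≤ δ * N :=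
  densA89 (fun n => A_le_lam hd hρ β h n) (fun m n => A_add_le hd hρ β h m n)
    (tendsto_A hd hρ β h) hb hδ hD

/-- The nonrandom error is smaller than every linear function. -/
theorem dm89 (hd : 0 < d) (hρ : EM ρ) (β : ℝ) (h : Vec d) {κ : ℝ} (hκ : 0 < κ) :
    ∀ᶠ m : ℕ in atTop, m * lam ρ β h - A ρ β h m ≤ κ * m := by
  have h1 : ∀ᶠ n : ℕ in atTop, lam ρ β h - κ < A ρ β h n / n :=
    (tendsto_A hd hρ β h).eventually (lt_mem_nhds (by linarith))
  filter_upwards [h1, eventually_ge_atTop 1] with n h2 h3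
  have h4 : (0 : ℝ) < n := by exact_mod_cast h3
  rw [lt_div_iff₀ h4] at h2
  linarith

/-- The nonrandom error is smaller than every linear function, up to a constant. -/
theorem dmC89 (hd : 0 < d) (hρ : EM ρ) (β : ℝ) (h : Vec d) {κ : ℝ} (hκ : 0 < κ) :
    ∃ C : ℝ, ∀ m : ℕ, m * lam ρ β h - A ρ β h m ≤ κ * m + C := by
  obtain ⟨M, hM⟩ := eventually_atTop.1 (dm89 hd hρ β h hκ)
  refine ⟨∑ m ∈ Finset.range M, |m * lam ρ β h - A ρ β h m|, fun m => ?_⟩
  have h0 : (0 : ℝ) ≤ κ * m := by positivity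
  have hs : 0 ≤ ∑ m ∈ Finset.range M, |m * lam ρ β h - A ρ β h m| :=
    Finset.sum_nonneg fun _ _ => abs_nonneg _
  rcases le_or_gt M m with h | h
  · linarith [hM m h]
  · have h1 := Finset.single_le_sum (f := fun m : ℕ => |m * lam ρ β ‹Vec d› - A ρ β ‹Vec d› m|)
      (fun _ _ => abs_nonneg _) (Finset.mem_range.2 h)
    have h2 := le_abs_self (m * lam ρ β ‹Vec d› - A ρ β ‹Vec d› m)
    linarith

open Classical in
/-- The choice of the length, for all `m` at most linear in `b`. -/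
theorem dens89 (hd : 0 < d) (hρ : EM ρ) (β : ℝ) (h : Vec d) {C' δ : ℝ} (hC : 0 < C')
    (hδ : 0 < δ) : ∃ b₁ : ℝ, ∀ b : ℝ, b₁ ≤ b → ∀ m : ℕ, (m : ℝ) ≤ C' * b → ∃ N₀ : ℕ, ∀ N : ℕ,
      N₀ ≤ N → (((Finset.Ico N (2 * N)).filter fun n =>
        ¬ (A ρ β h (n + m) - A ρ β h n ≤ lam ρ β h * m + b / 2)).card : ℝ) ≤ δ * N := by
  obtain ⟨C, hCm⟩ := dmC89 (ρ := ρ) hd hρ β h (show (0 : ℝ) < δ / (8 * C') by positivity)
  refine ⟨max 1 (8 * C / δ), fun b hb m hm => ?_⟩
  have hb1 : 1 ≤ b := (le_max_left _ _).trans hb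
  have hb2 : 8 * C / δ ≤ b := (le_max_right _ _).trans hb
  have h1 : 8 * C ≤ b * δ := by rwa [div_le_iff₀ hδ] at hb2
  have h2 : δ / (8 * C') * m ≤ δ * b / 8 := by
    have e : δ / (8 * C') * (C' * b) = δ * b / 8 := by
      field_simp
    rw [← e]
    exact mul_le_mul_of_nonneg_left hm (by positivity)
  have h3 : m * lam ρ β h - A ρ β h m ≤ δ * (2 * b) / 8 := by
    have := hCm m
    linarith
  obtain ⟨N₀, hN₀⟩ := densm89 hd hρ β h (m := m) (b := 2 * b) (by linarith) hδ h3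
  refine ⟨N₀, fun N hN => ?_⟩
  have h4 := hN₀ N hN
  have e : 2 * b / 4 = b / 2 := by ring
  rw [e] at h4
  convert h4 using 2

end Pool.Agent.W_7d29a1_NV
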