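import Mathlib

/-!
The end of Theorem NV in density form: return times (sequences only, helper27).
-/

namespace Pool.Agent.W_7d29a1_NV.Dens27

open Filter Topology Finset

lemma cnt {D : ℕ → ℝ} (h0 : ∀ n, 0 ≤ D n) (hs : ∀ m n, D (m + n) ≤ D m + D n) (J N : ℕ)
    (b : ℝ) : (#{n ∈ range N | b < D n - D (n + J)} : ℝ) * b ≤
      ∑ n ∈ range J, D n + N * D J := by
  have h1 : ∑ n ∈ range N, D n - ∑ n ∈ range N, D (n + J) ≤ ∑ n ∈ range J, D n := by
    have e1 : ∑ n ∈ range (J + N), D n = ∑ n ∈ range J, D n + ∑ n ∈ range N, D (J + n) :=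
      sum_range_add D J N
    have e2 : ∑ n ∈ range (N + J), D n = ∑ n ∈ range N, D n + ∑ n ∈ range J, D (N + n) :=
      sum_range_add D N J
    have e3 : ∑ n ∈ range N, D (J + n) = ∑ n ∈ range N, D (n + J) :=
      sum_congr rfl fun n _ => by rw [add_comm]
    have e4 : 0 ≤ ∑ n ∈ range J, D (N + n) := sum_nonneg fun n _ => h0 _
    rw [add_comm N J, e1, e3] at e2
    linarith
  have h2 : (#{n ∈ range N | b < D n - D (n + J)} : ℝ) * b ≤
      ∑ n ∈ range N, (D n - D (n + J) + D J) := by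
    rw [← nsmul_eq_mul]
    refine (card_nsmul_le_sum _ _ b fun n hn => ?_).trans
      (sum_le_sum_of_subset_of_nonneg (filter_subset _ _) fun n _ _ => ?_)
    · have h3 := (mem_filter.1 hn).2
      have h4 := h0 J
      linarith
    · have h3 := hs n J
      linarith
  refine h2.trans ?_
  rw [sum_add_distrib, sum_sub_distrib, sum_const, card_range, nsmul_eq_mul]
  linarith

lemma ex_step {A : ℕ → ℝ} {lam g : ℝ} {n J : ℕ} (hJ : 1 ≤ J)
    (h : ¬ g * J < (lam * n - A n) - (lam * ((n + J : ℕ) : ℝ) - A (n + J))) :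
    ∃ i < J, A (n + i + 1) - A (n + i) ≤ lam + g := by
  by_contra hc
  push Not at hc
  apply h
  have h1 : ∑ i ∈ range J, (lam + g) < ∑ i ∈ range J, (A (n + (i + 1)) - A (n + i)) :=
    sum_lt_sum_of_nonempty ⟨0, mem_range.2 hJ⟩ fun i hi => hc i (mem_range.1 hi)
  rw [sum_range_sub fun i => A (n + i), sum_const, card_range, nsmul_eq_mul] at h1
  push_cast
  simp only [add_zero] at h1
  linarith

/-- The set of the `n` with `V n ≤ K` has density zero. -/
theorem dens_seq {A V : ℕ → ℝ} {lam g C : ℝ} (hg : 0 < g)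
    (hsup : ∀ m n, A m + A n ≤ A (m + n)) (hle : ∀ n : ℕ, A n ≤ lam * n)
    (hlim : Tendsto (fun n : ℕ => A n / n) atTop (𝓝 lam))
    (hV : ∀ n j : ℕ, V (n + j) ≤ 2 * V n + C * j ^ 2)
    (core : ∀ K : ℝ, ∃ (m0 : ℕ) (c0 : ℝ) (r0 : ℕ), 1 ≤ m0 ∧ 0 < c0 ∧ ∀ r ≥ r0, ∃ n0 : ℕ,
      ∀ n ≥ n0, A n - A (n - 1) ≤ lam + g →
        A (n + r * m0) - A n ≤ lam * ((r : ℝ) * m0) + c0 * r →
          K < max (V n) (V (n + r * m0))) (K : ℝ) :
    Tendsto (fun N : ℕ => (#{n ∈ range N | V n ≤ K} : ℝ) / N) atTop (𝓝 0) := by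
  obtain ⟨D, hD⟩ : ∃ D : ℕ → ℝ, D = fun n => lam * n - A n := ⟨_, rfl⟩
  have hDn : ∀ n, D n = lam * n - A n := fun n => by rw [hD]
  have h0 : ∀ n, 0 ≤ D n := fun n => by rw [hDn]; linarith [hle n]
  have hs : ∀ m n, D (m + n) ≤ D m + D n := by
    intro m n
    have h1 := hsup m n
    simp only [hDn]
    push_cast
    linarith
  have hlin : ∀ η : ℝ, 0 < η → ∃ M : ℕ, 1 ≤ M ∧ ∀ m ≥ M, D m ≤ η * m := by
    intro η hη
    have h1 := hlim.eventually (lt_mem_nhds (show lam - η < lam by linarith))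
    obtain ⟨M, hM⟩ := eventually_atTop.1 h1
    refine ⟨max M 1, le_max_right _ _, fun m hm => ?_⟩
    have hm1 : (0 : ℝ) < m := by
      exact_mod_cast (le_max_right M 1).trans hm
    have h2 := hM m ((le_max_left _ _).trans hm)
    rw [lt_div_iff₀ hm1] at h2
    rw [hDn]
    linarith
  by_contra hcon
  have hfreq : ∃ δ : ℝ, 0 < δ ∧ ∃ᶠ N : ℕ in atTop, δ * N ≤ (#{n ∈ range N | V n ≤ K} : ℝ) := by
    by_contra hc
    push Not at hc
    refine hcon ?_
    rw [Metric.tendsto_atTop]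
    intro ε hε
    have h1 := hc ε hε
    obtain ⟨N0, hN0⟩ := eventually_atTop.1 h1
    refine ⟨max N0 1, fun N hN => ?_⟩
    have hN1 : (0 : ℝ) < N := by
      exact_mod_cast (le_max_right N0 1).trans hN
    have h2 := hN0 N ((le_max_left _ _).trans hN)
    rw [Real.dist_eq, sub_zero, abs_of_nonneg (by positivity), div_lt_iff₀ hN1]
    exact h2
  obtain ⟨δ, hδ, hfr⟩ := hfreq
  -- step (a)
  obtain ⟨J, hJ1, hJ⟩ := hlin (δ / 4 * g) (by positivity)
  have hJD := hJ J le_rfl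
  have hJ0 : (0 : ℝ) < J := by exact_mod_cast hJ1
  obtain ⟨K', hK'⟩ : ∃ K' : ℝ, K' = max (2 * K + C * J ^ 2) (2 * K + C * 0) := ⟨_, rfl⟩
  have hVJ : ∀ n j : ℕ, j ≤ J → V n ≤ K → V (n + j) ≤ K' := by
    intro n j hj hn
    refine (hV n j).trans ?_
    have hj' : (j : ℝ) ^ 2 ≤ J ^ 2 := by gcongr
    rcases le_total 0 C with hC | hC
    · have : C * (j : ℝ) ^ 2 ≤ C * J ^ 2 := mul_le_mul_of_nonneg_left hj' hC
      rw [hK']
      exact le_trans (by linarith) (le_max_left _ _)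
    · have : C * (j : ℝ) ^ 2 ≤ 0 := mul_nonpos_of_nonpos_of_nonneg hC (by positivity)
      rw [hK']
      exact le_trans (by linarith) (le_max_right _ _)
  obtain ⟨m0, c0, r0, hm0, hc0, hcore⟩ := core K'
  obtain ⟨δ1, hδ1⟩ : ∃ δ1 : ℝ, δ1 = δ / (2 * J) := ⟨_, rfl⟩
  have hδ1p : 0 < δ1 := by
    rw [hδ1]
    positivity
  obtain ⟨j0, hj0⟩ := exists_nat_gt (4 / δ1)
  have hj0p : (0 : ℝ) < j0 := lt_trans (by positivity) hj0
  have hm0' : (0 : ℝ) < m0 := by exact_mod_cast hm0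
  obtain ⟨M, hM1, hM⟩ := hlin (c0 * δ1 / (8 * j0 * m0)) (by positivity)
  obtain ⟨r1, hr1⟩ : ∃ r1 : ℕ, r1 = max r0 M := ⟨_, rfl⟩
  have hr1M : M ≤ r1 := by rw [hr1]; exact le_max_right _ _
  have hr1r : r0 ≤ r1 := by rw [hr1]; exact le_max_left _ _
  have hr1p : 1 ≤ r1 := hM1.trans hr1M
  have hcore' : ∀ i : ℕ, ∃ n0 : ℕ, 1 ≤ i → ∀ n ≥ n0, A n - A (n - 1) ≤ lam + g →
      A (n + i * r1 * m0) - A n ≤ lam * (((i * r1 : ℕ) : ℝ) * m0) + c0 * ((i * r1 : ℕ) : ℝ) →
        K' < max (V n) (V (n + i * r1 * m0)) := by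
    intro i
    by_cases hi : 1 ≤ i
    · obtain ⟨n0, hn0⟩ := hcore (i * r1) (hr1r.trans (Nat.le_mul_of_pos_left r1 hi))
      exact ⟨n0, fun _ => hn0⟩
    · exact ⟨0, fun h => absurd h hi⟩
  choose nn hnn using hcore'
  obtain ⟨n0, hn0⟩ : ∃ n0 : ℕ, n0 = (range (j0 + 1)).sup nn := ⟨_, rfl⟩
  -- the constants of the exceptional sets
  obtain ⟨EJ, hEJ⟩ : ∃ EJ : ℝ, EJ = ∑ n ∈ range J, D n := ⟨_, rfl⟩
  have hEJ0 : 0 ≤ EJ := by
    rw [hEJ]
    exact sum_nonneg fun n _ => h0 n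
  obtain ⟨E2, hE2⟩ : ∃ E2 : ℝ, E2 = ∑ i ∈ Icc 1 j0,
    (∑ n ∈ range (i * r1 * m0), D n) / (c0 * ((i * r1 : ℕ) : ℝ)) := ⟨_, rfl⟩
  obtain ⟨C2, hC2⟩ : ∃ C2 : ℝ, C2 = EJ / (g * J) / J + n0 + E2 + (J + 1) * δ1 := ⟨_, rfl⟩
  obtain ⟨C1, hC1⟩ : ∃ C1 : ℝ, C1 = J + 1 + j0 * (r1 * m0) := ⟨_, rfl⟩
  obtain ⟨N1, hN1⟩ := exists_nat_gt (C1 + j0 * C2)
  obtain ⟨N, hNN, hN⟩ := (hfr.and_eventually (eventually_ge_atTop (N1 + 1))).exists
  have hNr : C1 + j0 * C2 < N := by
    have : ((N1 + 1 : ℕ) : ℝ) ≤ N := by exact_mod_cast hN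
    push_cast at this
    linarith
  have hN0 : (1 : ℝ) ≤ N := by
    have : ((N1 + 1 : ℕ) : ℝ) ≤ N := by exact_mod_cast hN
    push_cast at this
    linarith [(Nat.cast_nonneg N1 : (0 : ℝ) ≤ N1)]
  obtain ⟨T, hT⟩ : ∃ T : Finset ℕ, T = {n ∈ range N | V n ≤ K ∧ ¬ g * J < D n - D (n + J)} :=
    ⟨_, rfl⟩
  obtain ⟨S1, hS1⟩ : ∃ S1 : Finset ℕ, S1 = {n ∈ range (N + J + 1) | V n ≤ K' ∧
    A n - A (n - 1) ≤ lam + g} := ⟨_, rfl⟩
  obtain ⟨S2, hS2⟩ : ∃ S2 : Finset ℕ, ∀ n, n ∈ S2 ↔ n ∈ S1 ∧ n0 ≤ n ∧ ∀ i ∈ Icc 1 j0,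
      ¬ c0 * ((i * r1 : ℕ) : ℝ) < D n - D (n + i * r1 * m0) := by
    classical
    exact ⟨S1.filter _, fun n => mem_filter⟩
  have hbadA : (#{n ∈ range N | g * J < D n - D (n + J)} : ℝ) ≤ EJ / (g * J) + δ / 4 * N := by
    have h1 := cnt h0 hs J N (g * J)
    rw [← hEJ] at h1
    have h2 : (N : ℝ) * D J ≤ N * (δ / 4 * g * J) := mul_le_mul_of_nonneg_left hJD (by positivity)
    rw [← le_div_iff₀ (by positivity)] at h1
    refine h1.trans ?_
    rw [div_le_iff₀ (by positivity)]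
    have e : (EJ / (g * J) + δ / 4 * N) * (g * J) = EJ + N * (δ / 4 * g * J) := by
      field_simp
    rw [e]
    linarith
  have hTS : δ * N - (EJ / (g * J) + δ / 4 * N) ≤ (#T : ℝ) := by
    have h1 : #{n ∈ range N | V n ≤ K} ≤ #T + #{n ∈ range N | g * J < D n - D (n + J)} := by
      refine (card_le_card ?_).trans (card_union_le _ _)
      intro n hn
      rw [mem_filter] at hn
      rw [hT, mem_union, mem_filter, mem_filter]
      by_cases h2 : g * J < D n - D (n + J)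
      · exact Or.inr ⟨hn.1, h2⟩
      · exact Or.inl ⟨hn.1, hn.2, h2⟩
    have h2 : (#{n ∈ range N | V n ≤ K} : ℝ) ≤ #T + #{n ∈ range N | g * J < D n - D (n + J)} := by
      exact_mod_cast h1
    linarith
  have hTJ : (#T : ℝ) ≤ #S1 * J := by
    have h1 : T ⊆ S1.biUnion fun n' => Ico (n' - J) n' := by
      intro n hn
      rw [hT, mem_filter] at hn
      obtain ⟨hn1, hn2, hn3⟩ := hn
      rw [hDn, hDn] at hn3
      obtain ⟨i, hi, hstep⟩ := ex_step hJ1 hn3
      rw [mem_biUnion]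
      refine ⟨n + i + 1, ?_, ?_⟩
      · rw [hS1, mem_filter, mem_range]
        rw [mem_range] at hn1
        refine ⟨by omega, ?_, ?_⟩
        · exact hVJ n (i + 1) (by omega) hn2
        · exact hstep
      · rw [mem_Ico]
        omega
    have h2 : #T ≤ #S1 * J := by
      refine (card_le_card h1).trans (card_biUnion_le_card_mul _ _ _ fun n' _ => ?_)
      rw [Nat.card_Ico]
      omega
    exact_mod_cast h2
  have hbadB : ∀ i ∈ Icc 1 j0, (#{n ∈ range (N + J + 1) | c0 * ((i * r1 : ℕ) : ℝ) <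
      D n - D (n + i * r1 * m0)} : ℝ) ≤
      (∑ n ∈ range (i * r1 * m0), D n) / (c0 * ((i * r1 : ℕ) : ℝ)) +
        (N + J + 1) * (δ1 / (8 * j0)) := by
    intro i hi
    rw [mem_Icc] at hi
    have hir : 1 ≤ i * r1 := Nat.mul_pos hi.1 hr1p
    have hir' : (0 : ℝ) < ((i * r1 : ℕ) : ℝ) := by exact_mod_cast hir
    have h1 := cnt h0 hs (i * r1 * m0) (N + J + 1) (c0 * ((i * r1 : ℕ) : ℝ))
    have h2 : D (i * r1 * m0) ≤ c0 * δ1 / (8 * j0 * m0) * ((i * r1 * m0 : ℕ) : ℝ) := by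
      refine hM _ ?_
      calc M ≤ r1 := hr1M
        _ ≤ i * r1 := Nat.le_mul_of_pos_left r1 hi.1
        _ ≤ i * r1 * m0 := Nat.le_mul_of_pos_right _ hm0
    have h3 : c0 * δ1 / (8 * j0 * m0) * ((i * r1 * m0 : ℕ) : ℝ) =
        δ1 / (8 * j0) * (c0 * ((i * r1 : ℕ) : ℝ)) := by
      push_cast
      field_simp
    rw [h3] at h2
    rw [← le_div_iff₀ (by positivity)] at h1
    refine h1.trans ?_
    rw [div_le_iff₀ (by positivity), add_mul, div_mul_cancel₀ _ (by positivity)]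
    push_cast at h2 ⊢
    have h4 : ((N : ℝ) + J + 1) * D (i * r1 * m0) ≤
        (N + J + 1) * (δ1 / (8 * j0) * (c0 * (i * r1))) :=
      mul_le_mul_of_nonneg_left h2 (by positivity)
    linarith
  have hS12 : (#S1 : ℝ) ≤ #S2 + n0 + E2 + (N + J + 1) * (δ1 / 8) := by
    have h1 : #S1 ≤ #S2 + #(range n0) + #((Icc 1 j0).biUnion fun i =>
        {n ∈ range (N + J + 1) | c0 * ((i * r1 : ℕ) : ℝ) < D n - D (n + i * r1 * m0)}) := by
      refine (card_le_card ?_).trans ((card_union_le _ _).trans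
        (add_le_add_left (card_union_le _ _) _))
      intro n hn
      have hn' := hn
      rw [hS1, mem_filter] at hn
      rw [mem_union, mem_union, hS2]
      by_cases h2 : n < n0
      · exact Or.inl (Or.inr (mem_range.2 h2))
      · by_cases h3 : ∀ i ∈ Icc 1 j0, ¬ c0 * ((i * r1 : ℕ) : ℝ) < D n - D (n + i * r1 * m0)
        · exact Or.inl (Or.inl ⟨hn', not_lt.1 h2, h3⟩)
        · push Not at h3
          obtain ⟨i, hi, h4⟩ := h3
          refine Or.inr (mem_biUnion.2 ⟨i, hi, mem_filter.2 ⟨hn.1, h4⟩⟩)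
    have h2 : (#S1 : ℝ) ≤ #S2 + n0 + ∑ i ∈ Icc 1 j0, (#{n ∈ range (N + J + 1) |
        c0 * ((i * r1 : ℕ) : ℝ) < D n - D (n + i * r1 * m0)} : ℝ) := by
      rw [card_range] at h1
      have h3 := h1.trans (add_le_add_right card_biUnion_le _)
      exact_mod_cast h3
    refine h2.trans ?_
    have h3 := sum_le_sum hbadB
    rw [sum_add_distrib, ← hE2, sum_const, Nat.card_Icc, nsmul_eq_mul] at h3
    have h4 : ((j0 + 1 - 1 : ℕ) : ℝ) * (((N : ℝ) + J + 1) * (δ1 / (8 * j0))) =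
        (N + J + 1) * (δ1 / 8) := by
      rw [Nat.add_sub_cancel]
      field_simp
    rw [h4] at h3
    linarith
  have hret : (j0 : ℝ) * #S2 ≤ N + C1 := by
    have h1 : #(range j0 ×ˢ S2) ≤ #(range (N + J + 1 + j0 * (r1 * m0))) := by
      refine card_le_card_of_injOn (fun p => p.2 + p.1 * (r1 * m0)) ?_ ?_
      · intro p hp
        rw [mem_coe, mem_product, mem_range] at hp
        have h2 : p.2 < N + J + 1 := by
          have h3 := hp.2
          rw [hS2, hS1, mem_filter, mem_range] at h3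
          exact h3.1.1
        have h4 : p.1 * (r1 * m0) ≤ j0 * (r1 * m0) := Nat.mul_le_mul_right _ hp.1.le
        rw [mem_coe, mem_range]
        simp only
        omega
      · have key : ∀ p ∈ (range j0 ×ˢ S2 : Finset (ℕ × ℕ)), ∀ q ∈ (range j0 ×ˢ S2),
            p.2 + p.1 * (r1 * m0) = q.2 + q.1 * (r1 * m0) → ¬ p.1 < q.1 := by
          intro p hp q hq he hlt
          rw [mem_product, mem_range] at hp hq
          obtain ⟨i, hi⟩ : ∃ i : ℕ, q.1 = p.1 + i := ⟨q.1 - p.1, by omega⟩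
          have hi1 : 1 ≤ i := by omega
          have hij : i ≤ j0 := by omega
          have h2 : p.2 = q.2 + i * r1 * m0 := by
            rw [hi, add_mul, ← mul_assoc i] at he
            omega
          have hq2 := hq.2
          rw [hS2] at hq2
          obtain ⟨hq3, hq4, hq5⟩ := hq2
          rw [hS1, mem_filter] at hq3
          have hp2 := hp.2
          rw [hS2, hS1, mem_filter] at hp2
          have h3 := hq5 i (mem_Icc.2 ⟨hi1, hij⟩)
          rw [hDn, hDn, not_lt] at h3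
          have h4 : nn i ≤ q.2 := by
            refine le_trans ?_ hq4
            rw [hn0]
            exact le_sup (f := nn) (mem_range.2 (by omega))
          have h5 := hnn i hi1 q.2 h4 hq3.2.2 (by
            push_cast at h3 ⊢
            linarith)
          rw [← h2] at h5
          exact absurd h5 (not_lt.2 (max_le hq3.2.1 hp2.1.2.1))
        intro p hp q hq he
        rw [mem_coe] at hp hq
        simp only at he
        have h2 := key p hp q hq he
        have h3 := key q hq p hp he.symm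
        have h4 : p.1 = q.1 := by omega
        rw [h4] at he
        exact Prod.ext h4 (by omega)
    rw [card_product, card_range, card_range] at h1
    have h2 : (j0 : ℝ) * #S2 ≤ ((N + J + 1 + j0 * (r1 * m0) : ℕ) : ℝ) := by exact_mod_cast h1
    push_cast at h2
    rw [hC1]
    linarith
  -- the contradiction
  have hS1low : 3 / 2 * δ1 * N - EJ / (g * J) / J ≤ #S1 := by
    have h1 : δ * N - (EJ / (g * J) + δ / 4 * N) ≤ #S1 * J := hTS.trans hTJ
    have h2 : (3 / 2 * δ1 * N - EJ / (g * J) / J) * J =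
        δ * N - (EJ / (g * J) + δ / 4 * N) := by
      rw [hδ1]
      field_simp
      ring
    rw [← h2] at h1
    exact le_of_mul_le_mul_right h1 hJ0
  have hS2low : δ1 * N - C2 ≤ #S2 := by
    rw [hC2]
    have h1 : (0 : ℝ) ≤ δ1 * N := by positivity
    have h2 : (0 : ℝ) ≤ (J + 1) * δ1 := by positivity
    linarith
  have h1 : (j0 : ℝ) * (δ1 * N - C2) ≤ N + C1 :=
    (mul_le_mul_of_nonneg_left hS2low hj0p.le).trans hret
  have h2 : 4 * (N : ℝ) ≤ j0 * (δ1 * N) := by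
    have h3 : 4 < j0 * δ1 := by
      rwa [div_lt_iff₀ hδ1p] at hj0
    nlinarith
  nlinarith

end Pool.Agent.W_7d29a1_NV.Dens27
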