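import Mathlib

/-!
Every window of logarithmic length contains a large variance: the part on sequences.
-/

set_option autoImplicit false

namespace Pool.Agent.W_7d29a1_NV

open Filter Topology Finset

namespace Win36

/-- A double telescope. -/
lemma tele (D : ℕ → ℝ) (n J m : ℕ) : ∑ i ∈ range J, (D (n + i) - D (n + i + m)) =
    ∑ i ∈ range m, (D (n + i) - D (n + i + J)) := by
  have h1 : ∑ i ∈ range (J + m), D (n + i) = ∑ i ∈ range J, D (n + i) +
      ∑ i ∈ range m, D (n + (J + i)) := sum_range_add (fun i => D (n + i)) J m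
  have h2 : ∑ i ∈ range (m + J), D (n + i) = ∑ i ∈ range m, D (n + i) +
      ∑ i ∈ range J, D (n + (m + i)) := sum_range_add (fun i => D (n + i)) m J
  rw [add_comm J m, h2] at h1
  have e1 : ∀ i, D (n + (J + i)) = D (n + i + J) := fun i => by
    congr 1
    omega
  have e2 : ∀ i, D (n + (m + i)) = D (n + i + m) := fun i => by
    congr 1
    omega
  simp only [e1, e2] at h1
  rw [sum_sub_distrib, sum_sub_distrib]
  linarith

/-- The steps and the drops. -/
lemma steps {D : ℕ → ℝ} {α κ : ℝ} (hα : 0 ≤ α) {n J m : ℕ}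
    (hstep : ∀ i < J, 1 ≤ α * (D (n + i) - D (n + i + 1)) + (D (n + i + 1) - D (n + i + 1 + m)))
    (hdrop : ∀ a, n ≤ a → a ≤ n + m → D a - D (a + J) ≤ κ) : (J : ℝ) ≤ (α + m) * κ := by
  have h1 : ∑ _i ∈ range J, (1 : ℝ) ≤ ∑ i ∈ range J, (α * (D (n + i) - D (n + i + 1)) +
      (D (n + i + 1) - D (n + i + 1 + m))) :=
    sum_le_sum fun i hi => hstep i (mem_range.1 hi)
  rw [sum_const, card_range, nsmul_eq_mul, mul_one, sum_add_distrib, ← mul_sum] at h1
  have h2 : ∑ i ∈ range J, (D (n + i) - D (n + i + 1)) = D n - D (n + J) := by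
    have := sum_range_sub' (fun i => D (n + i)) J
    simpa [add_assoc] using this
  have h3 : ∑ i ∈ range J, (D (n + i + 1) - D (n + i + 1 + m)) =
      ∑ i ∈ range m, (D (n + i + 1) - D (n + i + 1 + J)) := by
    have := tele (fun i => D (i + 1)) n J m
    have e1 : ∀ i k : ℕ, n + i + k + 1 = n + i + 1 + k := fun i k => by omega
    simpa [e1] using this
  rw [h2, h3] at h1
  have h4 : D n - D (n + J) ≤ κ := hdrop n le_rfl (by omega)
  have h5 : ∑ i ∈ range m, (D (n + i + 1) - D (n + i + 1 + J)) ≤ ∑ _i ∈ range m, κ :=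
    sum_le_sum fun i hi => hdrop (n + i + 1) (by omega) (by
      have := mem_range.1 hi
      omega)
  rw [sum_const, card_range, nsmul_eq_mul] at h5
  have h6 := mul_le_mul_of_nonneg_left h4 hα
  rw [add_mul]
  linarith

end Win36

/-- Every window of logarithmic length contains an `m` with `K < V m`. -/
theorem win_seq {A V : ℕ → ℝ} {lam g C : ℝ} (hg : 0 < g)
    (hsup : ∀ m n, A m + A n ≤ A (m + n)) (hle : ∀ n : ℕ, A n ≤ lam * n)
    (hlim : Tendsto (fun n : ℕ => A n / n) atTop (𝓝 lam)) (hC : 0 ≤ C)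
    (hdrop : ∀ n j : ℕ, A (n + j) ≤ A n + lam * j +
      C * (Real.sqrt (j * Real.log (n + 2)) + Real.log (n + 2)))
    (core : ∀ K : ℝ, ∃ (m0 : ℕ) (c0 : ℝ) (r0 : ℕ), 1 ≤ m0 ∧ 0 < c0 ∧ ∀ r ≥ r0, ∃ n0 : ℕ,
      ∀ n ≥ n0, A n - A (n - 1) ≤ lam + g →
        A (n + r * m0) - A n ≤ lam * ((r : ℝ) * m0) + c0 * r →
          K < max (V n) (V (n + r * m0))) (K : ℝ) :
    ∃ A₀ : ℝ, ∀ᶠ n : ℕ in atTop, ∃ m : ℕ, n ≤ m ∧ (m : ℝ) ≤ n + A₀ * Real.log n ∧ K < V m := by
  obtain ⟨D, hD⟩ : ∃ D : ℕ → ℝ, D = fun n => lam * n - A n := ⟨_, rfl⟩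
  have hDn : ∀ n, D n = lam * n - A n := fun n => by rw [hD]
  have h0 : ∀ n, 0 ≤ D n := fun n => by rw [hDn]; linarith [hle n]
  have hs : ∀ m n, D (m + n) ≤ D m + D n := by
    intro m n
    have h1 := hsup m n
    simp only [hDn]
    push_cast
    linarith
  have hlin : ∀ η : ℝ, 0 < η → ∃ M : ℕ, 1 ≤ M ∧ ∀ m ≥ M, D m ≤ η * m := by
    intro η hη
    have h1 := hlim.eventually (lt_mem_nhds (show lam - η < lam by linarith))
    obtain ⟨M, hM⟩ := eventually_atTop.1 h1
    refine ⟨max M 1, le_max_right _ _, fun m hm => ?_⟩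
    have hm1 : (0 : ℝ) < m := by
      exact_mod_cast (le_max_right M 1).trans hm
    have h2 := hM m ((le_max_left _ _).trans hm)
    rw [lt_div_iff₀ hm1] at h2
    rw [hDn]
    linarith
  obtain ⟨m0, c0, r0, hm0, hc0, hcore⟩ := core K
  have hm0' : (1 : ℝ) ≤ m0 := by exact_mod_cast hm0
  have hm00 : (0 : ℝ) < m0 := by linarith
  obtain ⟨c1, hc1⟩ : ∃ c1 : ℝ, c1 = lam - A 1 := ⟨_, rfl⟩
  have hc1' : 0 ≤ c1 := by
    have := hle 1
    rw [Nat.cast_one, mul_one] at this
    linarith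
  obtain ⟨η, hη⟩ : ∃ η : ℝ, η = c0 * g / (2 * (c1 + 1) * m0) := ⟨_, rfl⟩
  have hη0 : 0 < η := by rw [hη]; positivity
  obtain ⟨M, hM1, hM⟩ := hlin η hη0
  obtain ⟨r1, hr1⟩ := exists_nat_ge (2 * (c1 / g + 1) / c0)
  obtain ⟨r, hr⟩ : ∃ r : ℕ, r = max (max r0 r1) M := ⟨_, rfl⟩
  have hrr0 : r0 ≤ r := by rw [hr]; exact (le_max_left _ _).trans (le_max_left _ _)
  have hrr1 : (r1 : ℝ) ≤ r := by
    have : r1 ≤ r := by rw [hr]; exact (le_max_right _ _).trans (le_max_left _ _)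
    exact_mod_cast this
  have hrM : M ≤ r := by rw [hr]; exact le_max_right _ _
  obtain ⟨m, hm⟩ : ∃ m : ℕ, m = r * m0 := ⟨_, rfl⟩
  have hmM : M ≤ m := by
    rw [hm]
    exact hrM.trans (Nat.le_mul_of_pos_right r hm0)
  have hmr : (m : ℝ) = r * m0 := by rw [hm]; push_cast; ring
  have hDm : D m ≤ η * m := hM m hmM
  obtain ⟨α, hα⟩ : ∃ α : ℝ, α = (D m + 1) / g := ⟨_, rfl⟩
  have hα0 : 0 < α := by
    have := h0 m
    rw [hα]
    positivity
  have hαg : α * g = D m + 1 := by rw [hα]; exact div_mul_cancel₀ _ hg.ne'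
  have hαc : α * c1 + 1 ≤ c0 * r := by
    have h1 : D m ≤ c0 * g * r / (2 * (c1 + 1)) := by
      refine hDm.trans (le_of_eq ?_)
      rw [hη, hmr]
      field_simp
    have h2 : α ≤ (c0 * g * r / (2 * (c1 + 1)) + 1) / g := by
      rw [hα]
      exact div_le_div_of_nonneg_right (by linarith) hg.le
    have h3 : (c0 * g * r / (2 * (c1 + 1)) + 1) / g = c0 * r / (2 * (c1 + 1)) + 1 / g := by
      field_simp
    rw [h3] at h2
    have h4 := mul_le_mul_of_nonneg_right h2 hc1'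
    have hr00 : (0 : ℝ) ≤ c0 * r := by positivity
    have h5 : c0 * r / (2 * (c1 + 1)) * c1 ≤ c0 * r / 2 := by
      rw [div_mul_eq_mul_div, div_le_div_iff₀ (by positivity) (by norm_num)]
      nlinarith
    have h6 : c1 / g + 1 ≤ c0 * r / 2 := by
      have h7 : 2 * (c1 / g + 1) / c0 ≤ r := hr1.trans hrr1
      rw [div_le_iff₀ hc0] at h7
      linarith
    have h8 : 1 / g * c1 = c1 / g := by ring
    rw [add_mul, h8] at h4
    linarith
  obtain ⟨n0, hn0⟩ := hcore r hrr0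
  obtain ⟨B, hB⟩ : ∃ B : ℝ, B = (α + m) * C := ⟨_, rfl⟩
  have hB0 : 0 ≤ B := by rw [hB]; positivity
  obtain ⟨A₁, hA₁⟩ : ∃ A₁ : ℝ, A₁ = 2 * (B + 2) ^ 2 := ⟨_, rfl⟩
  have hA₁0 : 0 < A₁ := by rw [hA₁]; positivity
  refine ⟨A₁ + 1, ?_⟩
  have hlogT : Tendsto (fun n : ℕ => Real.log n) atTop atTop :=
    Real.tendsto_log_atTop.comp tendsto_natCast_atTop_atTop
  filter_upwards [eventually_ge_atTop n0, eventually_ge_atTop 3, eventually_ge_atTop (m + 3),
    hlogT.eventually_ge_atTop (m : ℝ), hlogT.eventually_ge_atTop (1 : ℝ)]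
    with n hnn0 hn3 hnm hlm hl1
  by_contra hcon
  push Not at hcon
  have hV : ∀ k : ℕ, n ≤ k → (k : ℝ) ≤ n + (A₁ + 1) * Real.log n → V k ≤ K := hcon
  obtain ⟨J, hJ⟩ : ∃ J : ℕ, J = ⌊A₁ * Real.log n⌋₊ := ⟨_, rfl⟩
  have hAl : 0 ≤ A₁ * Real.log n := by positivity
  have hJ1 : (J : ℝ) ≤ A₁ * Real.log n := by rw [hJ]; exact Nat.floor_le hAl
  have hJ2 : A₁ * Real.log n < J + 1 := by rw [hJ]; exact Nat.lt_floor_add_one _
  have hn0' : (0 : ℝ) < n := by
    have : 0 < n := by omega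
    exact_mod_cast this
  have hlog2 : ∀ a : ℕ, a ≤ n + m → Real.log ((a : ℝ) + 2) ≤ 2 * Real.log n := by
    intro a ha
    have h1 : (a : ℝ) + 2 ≤ (n : ℝ) ^ 2 := by
      have h2 : a + 2 ≤ n ^ 2 := by nlinarith
      exact_mod_cast h2
    calc Real.log ((a : ℝ) + 2) ≤ Real.log ((n : ℝ) ^ 2) :=
          Real.log_le_log (by positivity) h1
      _ = 2 * Real.log n := by rw [Real.log_pow]; norm_num
  obtain ⟨κ, hκ⟩ : ∃ κ : ℝ, κ = C * (Real.sqrt (J * (2 * Real.log n)) + 2 * Real.log n) :=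
    ⟨_, rfl⟩
  have hdr : ∀ a, n ≤ a → a ≤ n + m → D a - D (a + J) ≤ κ := by
    intro a _ ha
    have h1 := hdrop a J
    have h2 := hlog2 a ha
    have h3 : Real.sqrt (J * Real.log ((a : ℝ) + 2)) ≤ Real.sqrt (J * (2 * Real.log n)) :=
      Real.sqrt_le_sqrt (mul_le_mul_of_nonneg_left h2 (Nat.cast_nonneg J))
    have h4 : C * (Real.sqrt (J * Real.log ((a : ℝ) + 2)) + Real.log ((a : ℝ) + 2)) ≤ κ := by
      rw [hκ]
      exact mul_le_mul_of_nonneg_left (add_le_add h3 h2) hC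
    simp only [hDn]
    push_cast
    linarith
  have hst : ∀ i < J, 1 ≤ α * (D (n + i) - D (n + i + 1)) +
      (D (n + i + 1) - D (n + i + 1 + m)) := by
    intro i hi
    have hi' : (i : ℝ) + 1 ≤ J := by exact_mod_cast hi
    have hV1 : V (n + i + 1) ≤ K := by
      refine hV _ (by omega) ?_
      push_cast
      rw [add_mul]
      have := hl1
      linarith
    have hV2 : V (n + i + 1 + r * m0) ≤ K := by
      refine hV _ (by omega) ?_
      push_cast
      rw [add_mul, ← hmr]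
      linarith
    have hup : D (n + i) - D (n + i + 1) ≥ -c1 := by
      have := hsup (n + i) 1
      simp only [hDn]
      push_cast
      rw [hc1]
      linarith
    have hdn : D (n + i + 1) - D (n + i + 1 + m) ≥ -D m := by
      have := hs (n + i + 1) m
      linarith
    by_cases hS : A (n + i + 1) - A (n + i) ≤ lam + g
    · have hT : ¬ (A (n + i + 1 + r * m0) - A (n + i + 1) ≤ lam * ((r : ℝ) * m0) + c0 * r) := by
        intro hT
        have h1 := hn0 (n + i + 1) (by omega) (by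
          rw [Nat.add_sub_cancel]
          exact hS) hT
        exact absurd h1 (not_lt.2 (max_le hV1 hV2))
      rw [← hm, ← hmr, not_le] at hT
      have h2 : c0 * r ≤ D (n + i + 1) - D (n + i + 1 + m) := by
        simp only [hDn]
        push_cast
        linarith
      have h3 : α * (-c1) ≤ α * (D (n + i) - D (n + i + 1)) :=
        mul_le_mul_of_nonneg_left hup hα0.le
      linarith
    · rw [not_le] at hS
      have h2 : g ≤ D (n + i) - D (n + i + 1) := by
        simp only [hDn]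
        push_cast
        linarith
      have h3 : α * g ≤ α * (D (n + i) - D (n + i + 1)) := mul_le_mul_of_nonneg_left h2 hα0.le
      linarith
  have hfin := Win36.steps hα0.le hst hdr
  have h1 : Real.sqrt (J * (2 * Real.log n)) ≤ 2 * (B + 2) * Real.log n := by
    refine Real.sqrt_le_iff.2 ⟨by positivity, ?_⟩
    have h2 : (J : ℝ) * (2 * Real.log n) ≤ A₁ * Real.log n * (2 * Real.log n) :=
      mul_le_mul_of_nonneg_right hJ1 (by positivity)
    refine h2.trans (le_of_eq ?_)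
    rw [hA₁]
    ring
  have h2 : (J : ℝ) ≤ B * (2 * (B + 2) * Real.log n + 2 * Real.log n) := by
    refine hfin.trans ?_
    rw [hκ, hB, mul_assoc]
    refine mul_le_mul_of_nonneg_left ?_ (by positivity)
    rw [← hB]
    exact mul_le_mul_of_nonneg_left (by linarith) hC
  have h3 : A₁ * Real.log n - 1 < B * (2 * (B + 2) * Real.log n + 2 * Real.log n) := by
    linarith
  rw [hA₁] at h3
  nlinarith [mul_nonneg hB0 (by linarith : (0 : ℝ) ≤ Real.log n)]

end Pool.Agent.W_7d29a1_NV
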