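import Pool.Agent.W_7d29a1_h46u.LamU
import Pool.Agent.W_7d29a1_NV.Win36

/-!
The mean free energy does not exceed its slope by more than a union bound over the end points.
-/

set_option autoImplicit false

namespace Pool.Agent.W_7d29a1_NV

open MeasureTheory ProbabilityTheory Filter Topology Pool.Agent.W_MP_7d29a1_pr
  Pool.Agent.W_7d29a1_h46 Pool.Agent.W_7d29a1_h46u

variable {d : ℕ} {ρ : Measure ℝ}

namespace Win36

/-- The union bound for a fixed environment. -/
lemma point (hd : 0 < d) (β : ℝ) (h : Vec d) (η : Env d) (n j : ℕ) {θ : ℝ} (hθ : 0 < θ) :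
    X β h η (n + j) ≤ X β h η n +
      1 / θ * Real.log (∑ y ∈ boxF d n, Real.exp (θ * X β h (sh n y η) j)) := by
  set M : ℝ := ∑ y ∈ boxF d n, Real.exp (θ * X β h (sh n y η) j) with hM
  have h1 : ∀ s : Fin n → Step d, Z β h (sh n (pos s n) η) j ≤ Real.exp (1 / θ * Real.log M) := by
    intro s
    have h2 : Real.exp (θ * X β h (sh n (pos s n) η) j) ≤ M :=
      Finset.single_le_sum (f := fun y => Real.exp (θ * X β h (sh n y η) j))
        (fun _ _ => (Real.exp_pos _).le) (pos_mem_box s n)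
    have h3 := Real.log_le_log (Real.exp_pos _) h2
    rw [Real.log_exp] at h3
    have h4 : X β h (sh n (pos s n) η) j ≤ 1 / θ * Real.log M := by
      rw [one_div, ← div_eq_inv_mul, le_div_iff₀ hθ]
      linarith
    have h5 : Z β h (sh n (pos s n) η) j = Real.exp (X β h (sh n (pos s n) η) j) := by
      unfold X
      rw [Real.exp_log (Z_pos hd _ _ _ _)]
    rw [h5]
    exact Real.exp_le_exp.2 h4
  have h5 : Z β h η (n + j) ≤ Z β h η n * Real.exp (1 / θ * Real.log M) := by
    rw [Z_add, Z_eq, Finset.sum_mul]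
    refine Finset.sum_le_sum fun s _ => ?_
    exact mul_le_mul_of_nonneg_left (h1 s) (wgt_pos _ _ _ _).le
  have h6 := Real.log_le_log (Z_pos hd β h η (n + j)) h5
  rw [Real.log_mul (Z_pos hd _ _ _ _).ne' (Real.exp_pos _).ne', Real.log_exp] at h6
  exact h6

lemma card_box_pos (n : ℕ) : (0 : ℝ) < ((boxF d n).card : ℝ) := by
  have : 0 < (boxF d n).card := Finset.card_pos.2 ⟨0, zero_mem_boxF n⟩
  exact_mod_cast this

lemma mean [IsProbabilityMeasure ρ] (hd : 0 < d) (hρ : EM ρ) (β : ℝ) (h : Vec d) (n j : ℕ)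
    {θ : ℝ} (hθ : 0 < θ) (hθ1 : θ ≤ 1) :
    A ρ β h (n + j) ≤ A ρ β h n + A ρ β h j +
      (1 / θ * Real.log ((boxF d n).card : ℝ) + Kc β ρ ^ 2 * θ * j) := by
  have hab : |θ| ≤ 1 := by rw [abs_of_pos hθ]; exact hθ1
  obtain ⟨hi, he⟩ := concU (ρ := ρ) hd hρ β h j
  obtain ⟨he1, he2⟩ := he θ hab
  have hin := (concU (ρ := ρ) hd hρ β h n).1
  have hinj := (concU (ρ := ρ) hd hρ β h (n + j)).1
  -- the exponential of one polymer
  have e1 : ∀ η : Env d, Real.exp (θ * X β h η j) =
      Real.exp (θ * A ρ β h j) * Real.exp (θ * (X β h η j - A ρ β h j)) := fun η => by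
    rw [← Real.exp_add]
    congr 1
    ring
  have i1 : Integrable (fun η : Env d => Real.exp (θ * X β h η j)) (law d ρ) := by
    simp only [e1]
    exact he1.const_mul _
  have v1 : ∫ η, Real.exp (θ * X β h η j) ∂(law d ρ) ≤
      Real.exp (θ * A ρ β h j + Kc β ρ ^ 2 * θ ^ 2 * j) := by
    simp only [e1]
    rw [integral_const_mul, Real.exp_add]
    exact mul_le_mul_of_nonneg_left he2 (Real.exp_pos _).le
  have hm1 : Measurable fun η : Env d => Real.exp (θ * X β h η j) :=
    Real.measurable_exp.comp ((measurable_X β h j).const_mul θ)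
  have i2 : ∀ y : Site d, Integrable (fun η : Env d => Real.exp (θ * X β h (sh n y η) j))
      (law d ρ) := fun y => (mp_sh n y).integrable_comp_of_integrable i1
  have v2 : ∀ y : Site d, ∫ η, Real.exp (θ * X β h (sh n y η) j) ∂(law d ρ) ≤
      Real.exp (θ * A ρ β h j + Kc β ρ ^ 2 * θ ^ 2 * j) := by
    intro y
    have := integral_sh (ρ := ρ) n y hm1
    rw [this]
    exact v1
  set M : Env d → ℝ := fun η => ∑ y ∈ boxF d n, Real.exp (θ * X β h (sh n y η) j) with hM
  have i3 : Integrable M (law d ρ) := integrable_finset_sum _ fun y _ => i2 y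
  set c : ℝ := (boxF d n).card * Real.exp (θ * A ρ β h j + Kc β ρ ^ 2 * θ ^ 2 * j) with hc
  have hc0 : 0 < c := mul_pos (card_box_pos n) (Real.exp_pos _)
  have v3 : ∫ η, M η ∂(law d ρ) ≤ c := by
    rw [hM, integral_finset_sum _ fun y _ => i2 y]
    refine (Finset.sum_le_sum fun y _ => v2 y).trans (le_of_eq ?_)
    rw [Finset.sum_const, nsmul_eq_mul]
  have hMpos : ∀ η, 0 < M η := fun η =>
    Finset.sum_pos (fun _ _ => Real.exp_pos _) ⟨0, zero_mem_boxF n⟩
  have hpt : ∀ η, X β h η (n + j) ≤ X β h η n + 1 / θ * (Real.log c + (M η / c - 1)) := by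
    intro η
    refine (point hd β h η n j hθ).trans ?_
    have h1 : Real.log (M η) ≤ Real.log c + (M η / c - 1) := by
      have h2 := Real.log_le_sub_one_of_pos (div_pos (hMpos η) hc0)
      rw [Real.log_div (hMpos η).ne' hc0.ne'] at h2
      linarith
    have h3 : 1 / θ * Real.log (M η) ≤ 1 / θ * (Real.log c + (M η / c - 1)) :=
      mul_le_mul_of_nonneg_left h1 (by positivity)
    linarith
  have i4 : Integrable (fun η : Env d => 1 / θ * (Real.log c + (M η / c - 1))) (law d ρ) :=
    ((integrable_const _).add ((i3.div_const c).sub (integrable_const _))).const_mul _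
  have h4 : A ρ β h (n + j) ≤ ∫ η, (X β h η n + 1 / θ * (Real.log c + (M η / c - 1)))
      ∂(law d ρ) := integral_mono hinj (hin.add i4) hpt
  have q1 : ∫ η, (M η / c - 1) ∂(law d ρ) = (∫ η, M η ∂(law d ρ)) / c - 1 := by
    rw [integral_sub (i3.div_const c) (integrable_const _), integral_div, integral_const]
    simp
  have q2 : ∫ η, (Real.log c + (M η / c - 1)) ∂(law d ρ) =
      Real.log c + ((∫ η, M η ∂(law d ρ)) / c - 1) := by
    have i5 : Integrable (fun η : Env d => M η / c - 1) (law d ρ) :=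
      (i3.div_const c).sub (integrable_const _)
    rw [integral_add (integrable_const _) i5, q1, integral_const]
    simp
  rw [integral_add hin i4, integral_const_mul, q2] at h4
  have h5 : ∫ η, X β h η n ∂(law d ρ) = A ρ β h n := rfl
  rw [h5] at h4
  have h6 : (∫ η, M η ∂(law d ρ)) / c ≤ 1 := by
    rw [div_le_one hc0]
    exact v3
  have h7 : 1 / θ * (Real.log c + ((∫ η, M η ∂(law d ρ)) / c - 1)) ≤ 1 / θ * Real.log c :=
    mul_le_mul_of_nonneg_left (by linarith) (by positivity)
  have h8 : Real.log c = Real.log ((boxF d n).card : ℝ) +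
      (θ * A ρ β h j + Kc β ρ ^ 2 * θ ^ 2 * j) := by
    rw [hc, Real.log_mul (card_box_pos n).ne' (Real.exp_pos _).ne', Real.log_exp]
  have h9 : 1 / θ * Real.log c = 1 / θ * Real.log ((boxF d n).card : ℝ) +
      (A ρ β h j + Kc β ρ ^ 2 * θ * j) := by
    rw [h8]
    field_simp
  rw [h9] at h7
  linarith

end Win36

/-- The drop bound: `A (n + j)` exceeds `A n + λ j` by a union bound over the end points only. -/
theorem drop36 [IsProbabilityMeasure ρ] (hd : 0 < d) (hρ : EM ρ) (β : ℝ) (h : Vec d) :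
    ∃ C : ℝ, 0 ≤ C ∧ ∀ n j : ℕ, A ρ β h (n + j) ≤ A ρ β h n + lam ρ β h * j +
      C * (Real.sqrt (j * Real.log (n + 2)) + Real.log (n + 2)) := by
  refine ⟨2 * d + Kc β ρ ^ 2, by positivity, fun n j => ?_⟩
  have hn0 : (0 : ℝ) ≤ n := Nat.cast_nonneg n
  have hL0 : 0 < Real.log ((n : ℝ) + 2) := Real.log_pos (by linarith)
  obtain ⟨L, hL⟩ : ∃ L : ℝ, L = Real.log ((n : ℝ) + 2) := ⟨_, rfl⟩
  rw [← hL] at hL0 ⊢
  rcases Nat.eq_zero_or_pos j with hj | hj
  · subst hj
    have : 0 ≤ (2 * d + Kc β ρ ^ 2) * (Real.sqrt (((0 : ℕ) : ℝ) * L) + L) := by positivity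
    simp only [Nat.cast_zero, mul_zero, add_zero] at this ⊢
    linarith
  have hj0 : (0 : ℝ) < j := by exact_mod_cast hj
  set θ : ℝ := min 1 (Real.sqrt (L / j)) with hθ
  have hq : 0 < Real.sqrt (L / j) := Real.sqrt_pos.2 (by positivity)
  have hθ0 : 0 < θ := lt_min one_pos hq
  have hθ1 : θ ≤ 1 := min_le_left _ _
  have hmean := Win36.mean hd hρ β h n j hθ0 hθ1
  have hcard : Real.log ((boxF d n).card : ℝ) ≤ 2 * d * L := by
    have h1 : ((boxF d n).card : ℝ) ≤ ((n : ℝ) + 2) ^ (2 * d) := by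
      rw [card_boxF, pow_mul]
      push_cast
      refine pow_le_pow_left₀ (by positivity) ?_ d
      nlinarith
    refine (Real.log_le_log (Win36.card_box_pos n) h1).trans (le_of_eq ?_)
    rw [Real.log_pow, hL]
    push_cast
    ring
  set S : ℝ := Real.sqrt (j * L) with hS
  have hS0 : 0 ≤ S := Real.sqrt_nonneg _
  have hjq : (j : ℝ) * Real.sqrt (L / j) = S := by
    rw [hS]
    have : (j : ℝ) * L = j ^ 2 * (L / j) := by
      field_simp
    rw [this, Real.sqrt_mul (by positivity), Real.sqrt_sq hj0.le]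
  have h1 : 1 / θ * L ≤ L + S := by
    rw [hθ]
    rcases le_total 1 (Real.sqrt (L / j)) with hc | hc
    · rw [min_eq_left hc]
      linarith
    · rw [min_eq_right hc]
      have h2 : 1 / Real.sqrt (L / j) * L = S := by
        have h3 : Real.sqrt (L / j) * S = L := by
          rw [hS, ← Real.sqrt_mul (by positivity)]
          have : L / j * (j * L) = L ^ 2 := by
            field_simp
          rw [this, Real.sqrt_sq hL0.le]
        rw [one_div, ← div_eq_inv_mul, div_eq_iff hq.ne']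
        linarith
      rw [h2]
      linarith
  have h2 : θ * j ≤ S := by
    rw [← hjq, mul_comm]
    exact mul_le_mul_of_nonneg_left (min_le_right _ _) hj0.le
  have hlj : A ρ β h j ≤ lam ρ β h * j := by
    have := A_le_lam hd hρ β h j
    linarith
  have h3 : 1 / θ * Real.log ((boxF d n).card : ℝ) ≤ 2 * d * (L + S) := by
    calc 1 / θ * Real.log ((boxF d n).card : ℝ) ≤ 1 / θ * (2 * d * L) :=
          mul_le_mul_of_nonneg_left hcard (by positivity)
      _ = 2 * d * (1 / θ * L) := by ring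
      _ ≤ 2 * d * (L + S) := mul_le_mul_of_nonneg_left h1 (by positivity)
  have h4 : Kc β ρ ^ 2 * θ * j ≤ Kc β ρ ^ 2 * S := by
    rw [mul_assoc]
    exact mul_le_mul_of_nonneg_left h2 (sq_nonneg _)
  have h5 : 0 ≤ Kc β ρ ^ 2 * L := by positivity
  have e : (2 * (d : ℝ) + Kc β ρ ^ 2) * (S + L) = 2 * d * (L + S) + Kc β ρ ^ 2 * S +
      Kc β ρ ^ 2 * L := by ring
  rw [e]
  linarith

end Pool.Agent.W_7d29a1_NV
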