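import Pool.Agent.W_7d29a1_P89.Luc78

/-!
# Theorem NV, leaf P: the mass of the lucky sites (helper78)
-/

set_option autoImplicit false

namespace Pool.Agent.W_7d29a1_NV

open MeasureTheory ProbabilityTheory Filter Topology Pool.Agent.W_MP_7d29a1_pr
  Pool.Agent.W_7d29a1_h46 Pool.Agent.W_7d29a1_h46u Pool.Agent.W_7d29a1_D2.B35
  Pool.Agent.W_7d29a1_P89 Pool.Agent.W_7d29a1_P78

variable {d : ℕ} {ρ : Measure ℝ}

/-- The point to point partition function only sees a box. -/
lemma depW_box78 (P : Prm d) (m : ℕ) (z : Site d) :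
    DependsOn (fun η : Env d => W P η m z) {p | (1 ≤ p.1 ∧ p.1 ≤ m) ∧ p.2 ∈ boxF d m} := by
  classical
  intro η η' hη
  have h1 : ∀ s : Fin m → Step d, energy η s = energy η' s := by
    intro s
    unfold energy
    refine Finset.sum_congr rfl fun i _ => hη _ ?_
    exact ⟨⟨Nat.le_add_left 1 i, i.2⟩, pos_mem_box s _⟩
  simp only [W, PP, ZT]
  congr 1
  refine Finset.sum_congr rfl fun s _ => ?_
  unfold wgt
  rw [h1 s]

/-- The event that the segment of length `m` from `(τ, x)` is lucky. -/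
def Ev78 (P : Prm d) (τ m : ℕ) (z0 : Site d) (U : ℝ) (x : Site d) : Set (Env d) :=
  {ξ | Lk P m z0 U (sh τ x ξ)}

lemma measurableSet_Ev78 (P : Prm d) (τ m : ℕ) (z0 : Site d) (U : ℝ) (x : Site d) :
    MeasurableSet (Ev78 P τ m z0 U x) :=
  (measurableSet_Lk78 P m z0 U).preimage (measurable_sh τ x)

lemma dep_Ev78 (P : Prm d) (τ m : ℕ) (z0 : Site d) (U : ℝ) (x : Site d) :
    DependsOn (fun ξ : Env d => ξ ∈ Ev78 P τ m z0 U x) {p | p.2 - x ∈ boxF d m} := by
  intro η η' hη
  have hh : ∀ p ∈ {p : ℕ × Site d | (1 ≤ p.1 ∧ p.1 ≤ m) ∧ p.2 ∈ boxF d m},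
      sh τ x η p = sh τ x η' p := by
    intro p hp
    refine hη (p.1 + τ, p.2 + x) ?_
    change p.2 + x - x ∈ boxF d m
    rw [add_sub_cancel_right]
    exact hp.2
  have h' : W P (sh τ x η) m z0 = W P (sh τ x η') m z0 := depW_box78 P m z0 hh
  change (Real.exp U ≤ W P (sh τ x η) m z0) = (Real.exp U ≤ W P (sh τ x η') m z0)
  rw [h']

lemma real_Ev78 [IsProbabilityMeasure ρ] (P : Prm d) (τ m : ℕ) (z0 : Site d) (U : ℝ)
    (x : Site d) : (law d ρ).real (Ev78 P τ m z0 U x) = (law d ρ).real {ξ | Lk P m z0 U ξ} := by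
  have hmp := mp_sh (ρ := ρ) τ x
  have h : Ev78 P τ m z0 U x = sh τ x ⁻¹' {ξ | Lk P m z0 U ξ} := rfl
  rw [h, measureReal_def, measureReal_def,
    hmp.measure_preimage (measurableSet_Lk78 P m z0 U).nullMeasurableSet]

lemma indep_Ev78 [IsProbabilityMeasure ρ] (P : Prm d) (τ m : ℕ) (z0 : Site d) (U : ℝ)
    {x x' : Site d} (hx : x' - x ∉ boxF d (2 * m)) :
    (law d ρ).real (Ev78 P τ m z0 U x ∩ Ev78 P τ m z0 U x') =
      (law d ρ).real {ξ | Lk P m z0 U ξ} ^ 2 := by
  have hd : DependsOn (fun ξ : Env d => ξ ∈ Ev78 P τ m z0 U x') {p | p.2 - x ∈ boxF d m}ᶜ := by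
    intro η η' hη
    refine dep_Ev78 P τ m z0 U x' fun p hp => hη p ?_
    intro hp2
    apply hx
    have h1 : p.2 - x' ∈ boxF d m := hp
    have h2 : p.2 - x ∈ boxF d m := hp2
    rw [mem_boxF] at h1 h2 ⊢
    intro i
    have h3 := h1 i
    have h4 := h2 i
    simp only [Pi.sub_apply] at h3 h4 ⊢
    rw [abs_le] at h3 h4 ⊢
    push_cast
    constructor <;> linarith [h3.1, h3.2, h4.1, h4.2]
  rw [real_indep78 (ρ := ρ) _ (measurableSet_Ev78 P τ m z0 U x) (measurableSet_Ev78 P τ m z0 U x')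
    (depInd78 (dep_Ev78 P τ m z0 U x)) (depInd78 hd), real_Ev78, real_Ev78, sq]

/-- **The lucky mass.** -/
theorem lmass78 [IsProbabilityMeasure ρ] (P : Prm d) (τ m : ℕ) (z0 : Site d) (U : ℝ)
    (A : Finset (Site d)) (q : Site d → ℝ) {M : ℝ} (hq0 : ∀ x ∈ A, 0 ≤ q x)
    (hqM : ∀ x ∈ A, q x ≤ M) (hT : 0 < ∑ x ∈ A, q x)
    (hp : 0 < (law d ρ).real {ξ | Lk P m z0 U ξ}) :
    (law d ρ).real {ξ | (∑ x ∈ A, open Classical in if Lk P m z0 U (sh τ x ξ) then q x else 0) ≤
        (law d ρ).real {ξ | Lk P m z0 U ξ} * (∑ x ∈ A, q x) / 2} ≤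
      4 * M * (4 * (m : ℝ) + 1) ^ d /
        ((law d ρ).real {ξ | Lk P m z0 U ξ} * ∑ x ∈ A, q x) := by
  classical
  set p := (law d ρ).real {ξ | Lk P m z0 U ξ} with hpd
  set T := ∑ x ∈ A, q x with hTd
  have hM : 0 ≤ M := by
    obtain ⟨x, hx⟩ : A.Nonempty := by
      by_contra h
      rw [Finset.not_nonempty_iff_eq_empty] at h
      rw [hTd, h, Finset.sum_empty] at hT
      exact lt_irrefl _ hT
    exact (hq0 x hx).trans (hqM x hx)
  let E : Site d → Set (Env d) := fun x => Ev78 P τ m z0 U x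
  have hEm : ∀ x, MeasurableSet (E x) := fun x => measurableSet_Ev78 P τ m z0 U x
  let f : Site d → Env d → ℝ := fun x => (E x).indicator fun _ => (1 : ℝ)
  have hfm : ∀ x, Measurable (f x) := fun x => measurable_const.indicator (hEm x)
  have hf0 : ∀ x ξ, 0 ≤ f x ξ := fun x ξ => Set.indicator_nonneg (fun _ _ => zero_le_one) ξ
  have hf1 : ∀ x ξ, f x ξ ≤ 1 := fun x ξ => Set.indicator_le_self' (fun _ _ => zero_le_one) ξ
  have hfi : ∀ x, Integrable (f x) (law d ρ) := fun x => (integrable_const (1 : ℝ)).indicator (hEm x)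
  have hfint : ∀ x, ∫ ξ, f x ξ ∂(law d ρ) = p := by
    intro x
    have h1 : ∫ ξ, f x ξ ∂(law d ρ) = (law d ρ).real (E x) := by
      rw [show f x = (E x).indicator fun _ => (1 : ℝ) from rfl,
        integral_indicator_const _ (hEm x)]
      simp
    rw [h1]
    exact real_Ev78 P τ m z0 U x
  have hffi : ∀ x x', Integrable (fun ξ => f x ξ * f x' ξ) (law d ρ) := by
    intro x x'
    refine (integrable_const (1 : ℝ)).mono' ((hfm x).mul (hfm x')).aestronglyMeasurable
      (Filter.Eventually.of_forall fun ξ => ?_)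
    rw [Real.norm_eq_abs, abs_of_nonneg (mul_nonneg (hf0 _ _) (hf0 _ _))]
    exact mul_le_one₀ (hf1 _ _) (hf0 _ _) (hf1 _ _)
  have hffint : ∀ x x', ∫ ξ, f x ξ * f x' ξ ∂(law d ρ) = (law d ρ).real (E x ∩ E x') := by
    intro x x'
    have h1 : (fun ξ => f x ξ * f x' ξ) = (E x ∩ E x').indicator fun _ => (1 : ℝ) := by
      funext ξ
      by_cases h1 : ξ ∈ E x <;> by_cases h2 : ξ ∈ E x' <;> simp [f, h1, h2]
    rw [h1, integral_indicator_const _ ((hEm x).inter (hEm x'))]
    simp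
  -- the centred sum
  let V : Env d → ℝ := fun ξ => ∑ x ∈ A, q x * (f x ξ - p)
  have hVsum : ∀ ξ, (∑ x ∈ A, if Lk P m z0 U (sh τ x ξ) then q x else 0) = V ξ + p * T := by
    intro ξ
    have h1 : ∀ x, (if Lk P m z0 U (sh τ x ξ) then q x else 0) = q x * (f x ξ - p) + p * q x := by
      intro x
      by_cases h : Lk P m z0 U (sh τ x ξ)
      · have h2 : f x ξ = 1 := Set.indicator_of_mem (show ξ ∈ E x from h) _
        rw [if_pos h, h2]
        ring
      · have h2 : f x ξ = 0 := Set.indicator_of_notMem (show ξ ∉ E x from h) _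
        rw [if_neg h, h2]
        ring
    simp only [h1]
    rw [Finset.sum_add_distrib, ← Finset.mul_sum]
  have hterm : ∀ x x', Integrable (fun ξ => (f x ξ - p) * (f x' ξ - p)) (law d ρ) ∧
      ∫ ξ, (f x ξ - p) * (f x' ξ - p) ∂(law d ρ) = (law d ρ).real (E x ∩ E x') - p ^ 2 := by
    intro x x'
    have e1 : (fun ξ => (f x ξ - p) * (f x' ξ - p)) =
        fun ξ => f x ξ * f x' ξ - p * f x ξ - p * f x' ξ + p ^ 2 := by
      funext ξ
      ring
    rw [e1]
    have i1 := hffi x x'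
    have i2 := (hfi x).const_mul p
    have i3 := (hfi x').const_mul p
    have i12 : Integrable (fun ξ => f x ξ * f x' ξ - p * f x ξ) (law d ρ) := i1.sub i2
    have i123 : Integrable (fun ξ => f x ξ * f x' ξ - p * f x ξ - p * f x' ξ) (law d ρ) :=
      i12.sub i3
    refine ⟨i123.add (integrable_const _), ?_⟩
    rw [integral_add i123 (integrable_const _), integral_sub i12 i3, integral_sub i1 i2, integral_const_mul, integral_const_mul, hffint, hfint, hfint,
      integral_const]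
    simp only [probReal_univ, smul_eq_mul, one_mul]
    ring
  have hV2 : ∀ ξ, V ξ ^ 2 = ∑ x ∈ A, ∑ x' ∈ A, q x * q x' * ((f x ξ - p) * (f x' ξ - p)) := by
    intro ξ
    rw [sq, Finset.sum_mul_sum]
    refine Finset.sum_congr rfl fun x _ => Finset.sum_congr rfl fun x' _ => ?_
    ring
  have hV2i : Integrable (fun ξ => V ξ ^ 2) (law d ρ) := by
    simp only [hV2]
    exact integrable_finsetSum _ fun x _ => integrable_finsetSum _ fun x' _ =>
      (hterm x x').1.const_mul _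
  have hV2int : ∫ ξ, V ξ ^ 2 ∂(law d ρ) =
      ∑ x ∈ A, ∑ x' ∈ A, q x * q x' * ((law d ρ).real (E x ∩ E x') - p ^ 2) := by
    simp only [hV2]
    rw [integral_finsetSum _ fun x _ => integrable_finsetSum _ fun x' _ =>
      (hterm x x').1.const_mul _]
    refine Finset.sum_congr rfl fun x _ => ?_
    rw [integral_finsetSum _ fun x' _ => (hterm x x').1.const_mul _]
    refine Finset.sum_congr rfl fun x' _ => ?_
    rw [integral_const_mul, (hterm x x').2]
  have hbox : ∀ x, ∑ x' ∈ A, q x' * (if x' - x ∈ boxF d (2 * m) then (1 : ℝ) else 0) ≤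
      M * (4 * (m : ℝ) + 1) ^ d := by
    intro x
    have h1 : ∑ x' ∈ A, q x' * (if x' - x ∈ boxF d (2 * m) then (1 : ℝ) else 0) =
        ∑ x' ∈ A.filter (fun x' => x' - x ∈ boxF d (2 * m)), q x' := by
      rw [Finset.sum_filter]
      refine Finset.sum_congr rfl fun x' _ => ?_
      split_ifs <;> simp
    rw [h1]
    have h2 : ∑ x' ∈ A.filter (fun x' => x' - x ∈ boxF d (2 * m)), q x' ≤
        ∑ _x' ∈ A.filter (fun x' => x' - x ∈ boxF d (2 * m)), M :=
      Finset.sum_le_sum fun x' hx' => hqM x' (Finset.mem_filter.1 hx').1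
    refine h2.trans ?_
    rw [Finset.sum_const, nsmul_eq_mul, mul_comm]
    refine mul_le_mul_of_nonneg_left ?_ hM
    have h3 : (A.filter (fun x' => x' - x ∈ boxF d (2 * m))).card ≤ (boxF d (2 * m)).card := by
      refine Finset.card_le_card_of_injOn (fun x' => x' - x) ?_ ?_
      · intro x' hx'
        exact (Finset.mem_filter.1 hx').2
      · intro a _ b _ hab
        exact sub_left_injective hab
    have h4 : (boxF d (2 * m)).card = (2 * (2 * m) + 1) ^ d := by
      unfold boxF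
      rw [Fintype.card_piFinset, Finset.prod_const, Finset.card_univ, Fintype.card_fin,
        Int.card_Icc]
      congr 1
      omega
    rw [h4] at h3
    have h5 : ((A.filter (fun x' => x' - x ∈ boxF d (2 * m))).card : ℝ) ≤
        (((2 * (2 * m) + 1) ^ d : ℕ) : ℝ) := by exact_mod_cast h3
    refine h5.trans (le_of_eq ?_)
    push_cast
    congr 1
    ring
  have hVle : ∫ ξ, V ξ ^ 2 ∂(law d ρ) ≤ p * T * (M * (4 * (m : ℝ) + 1) ^ d) := by
    rw [hV2int]
    have h1 : ∀ x ∈ A, ∑ x' ∈ A, q x * q x' * ((law d ρ).real (E x ∩ E x') - p ^ 2) ≤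
        q x * p * (M * (4 * (m : ℝ) + 1) ^ d) := by
      intro x hx
      have h2 : ∑ x' ∈ A, q x * q x' * ((law d ρ).real (E x ∩ E x') - p ^ 2) ≤
          ∑ x' ∈ A, q x * p * (q x' * (if x' - x ∈ boxF d (2 * m) then (1 : ℝ) else 0)) := by
        refine Finset.sum_le_sum fun x' hx' => ?_
        have hqq : 0 ≤ q x * q x' := mul_nonneg (hq0 x hx) (hq0 x' hx')
        by_cases hb : x' - x ∈ boxF d (2 * m)
        · rw [if_pos hb]
          have h3 : (law d ρ).real (E x ∩ E x') ≤ p :=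
            (measureReal_mono (μ := law d ρ) (s₁ := E x ∩ E x') (s₂ := E x)
              Set.inter_subset_left).trans_eq (real_Ev78 P τ m z0 U x)
          calc q x * q x' * ((law d ρ).real (E x ∩ E x') - p ^ 2) ≤ q x * q x' * p :=
                mul_le_mul_of_nonneg_left (by nlinarith [sq_nonneg p]) hqq
            _ = q x * p * (q x' * 1) := by ring
        · rw [if_neg hb]
          have h3 : (law d ρ).real (E x ∩ E x') = p ^ 2 := indep_Ev78 P τ m z0 U hb
          rw [h3]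
          simp
      refine h2.trans ?_
      rw [← Finset.mul_sum]
      exact mul_le_mul_of_nonneg_left (hbox x) (mul_nonneg (hq0 x hx) hp.le)
    refine (Finset.sum_le_sum h1).trans (le_of_eq ?_)
    rw [← Finset.sum_mul, ← Finset.sum_mul]
    ring
  -- Chebyshev
  have hpT : 0 < p * T := mul_pos hp hT
  have hcheb := mul_meas_ge_le_integral_of_nonneg
    (Filter.Eventually.of_forall fun ξ => sq_nonneg (V ξ)) hV2i ((p * T / 2) ^ 2)
  have hsub : {ξ : Env d | (∑ x ∈ A, if Lk P m z0 U (sh τ x ξ) then q x else 0) ≤ p * T / 2} ⊆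
      {ξ | (p * T / 2) ^ 2 ≤ V ξ ^ 2} := by
    intro ξ hξ
    have h1 : V ξ + p * T ≤ p * T / 2 := by
      rw [← hVsum ξ]
      exact hξ
    change (p * T / 2) ^ 2 ≤ V ξ ^ 2
    nlinarith
  have h1 : (p * T / 2) ^ 2 * (law d ρ).real
      {ξ : Env d | (∑ x ∈ A, if Lk P m z0 U (sh τ x ξ) then q x else 0) ≤ p * T / 2} ≤
      p * T * (M * (4 * (m : ℝ) + 1) ^ d) :=
    (mul_le_mul_of_nonneg_left (measureReal_mono hsub) (sq_nonneg _)).trans (hcheb.trans hVle)
  have h2 : (law d ρ).real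
      {ξ : Env d | (∑ x ∈ A, if Lk P m z0 U (sh τ x ξ) then q x else 0) ≤ p * T / 2} ≤
      4 * M * (4 * (m : ℝ) + 1) ^ d / (p * T) := by
    rw [le_div_iff₀ hpT]
    have h3 : 0 < p * T / 4 := by positivity
    refine le_of_mul_le_mul_left ?_ h3
    calc p * T / 4 * ((law d ρ).real
          {ξ : Env d | (∑ x ∈ A, if Lk P m z0 U (sh τ x ξ) then q x else 0) ≤ p * T / 2} *
          (p * T)) = (p * T / 2) ^ 2 * (law d ρ).real
          {ξ : Env d | (∑ x ∈ A, if Lk P m z0 U (sh τ x ξ) then q x else 0) ≤ p * T / 2} := by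
          ring
      _ ≤ p * T * (M * (4 * (m : ℝ) + 1) ^ d) := h1
      _ = p * T / 4 * (4 * M * (4 * (m : ℝ) + 1) ^ d) := by ring
  exact h2

end Pool.Agent.W_7d29a1_NV
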