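import Pool.Agent.W_7d29a1_NV.MulL27
import Pool.Agent.W_7d29a1_NV.LMass78
import Pool.Agent.W_7d29a1_NV.Cor50
import Pool.Agent.W_7d29a1_NV.DensA27
import Pool.Agent.W_7d29a1_NV.Inc27
import Pool.Agent.W_7d29a1_h46u.LamU

/-!
Theorem NV in density form: for every `K` the set of the `n` with variance at most `K` has
density zero (helper27).
-/

namespace Pool.Agent.W_7d29a1_NV

open MeasureTheory ProbabilityTheory Filter Topology Pool.Agent.W_MP_7d29a1_pr
  Pool.Agent.W_7d29a1_h46 Pool.Agent.W_7d29a1_h46u Pool.Agent.W_7d29a1_D2.B35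
  Pool.Agent.W_7d29a1_Q29

variable {d : ℕ} {ρ : Measure ℝ}

/-- The variance is unbounded along every set of lengths of positive density. -/
theorem dens27 [IsProbabilityMeasure ρ] (hd : 0 < d) (hρ : EM ρ) {β : ℝ} (hC : CorN d ρ β)
    (h : Vec d) (hV : VSD ρ β h) (K : ℝ) :
    Tendsto (fun N : ℕ => (((Finset.range N).filter fun n => Va ρ β h n ≤ K).card : ℝ) / N)
      atTop (𝓝 0) := by
  obtain ⟨g, hg⟩ : ∃ g : ℝ, g = Real.log (Phi h) + Real.log (∫ t, Real.exp (β * t) ∂ρ) -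
    lam ρ β h := ⟨_, rfl⟩
  have hg0 : 0 < g := by
    have h1 : lam ρ β h < Real.log (Phi h) + Real.log (∫ t, Real.exp (β * t) ∂ρ) := hV
    rw [hg]
    linarith
  have hLM : LMassP d ρ := fun P τ m z0 U A q M h0 hM hT hp => lmass78 P τ m z0 U A q h0 hM hT hp
  refine Dens27.dens_seq (A := fun n => A ρ β h n) (V := fun n => Va ρ β h n)
    (lam := lam ρ β h) (g := g / 2)
    (C := 2 * (2 * Real.log (Phi h) ^ 2 +
        2 * ((∫ r, Real.exp (β * r) ∂ρ) + ∫ r, Real.exp (-β * r) ∂ρ))) (by positivity)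
    (fun m n => A_add_le hd hρ β h m n) (fun n => ?_) (tendsto_A hd hρ β h)
    (fun n j => Inc27.va27 hd hρ β h n j) (fun K => ?_) K
  · have h1 := A_le_lam hd hρ β h n
    linarith
  · obtain ⟨ε, δ, b₂, hε, hδ, hcor⟩ := hC h g (max K 1) hg0 (by rw [hg]; linarith)
    obtain ⟨k, u, r₀, hk, hu, hmul⟩ := L27.mulL27 hd hρ β hLM hV hε hδ
      (K := max K 1) (lt_of_lt_of_le one_pos (le_max_right _ _))
    refine ⟨k, u / 4, max r₀ ⌈2 * b₂ / u⌉₊, hk, by positivity, fun r hr => ?_⟩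
    have hb : b₂ ≤ r * u / 2 := by
      have h1 : 2 * b₂ / u ≤ r :=
        (Nat.le_ceil _).trans (by exact_mod_cast (le_max_right _ _).trans hr)
      rw [div_le_iff₀ hu] at h1
      linarith
    obtain ⟨n₀, hn₀⟩ := hcor (r * u / 2) hb
    refine ⟨max n₀ 1, fun n hn hA1 hA2 => ?_⟩
    by_contra hcon
    rw [not_lt, max_le_iff] at hcon
    have hK1 : Va ρ β h n ≤ max K 1 := hcon.1.trans (le_max_left _ _)
    have hK2 : Va ρ β h (n + r * k) ≤ max K 1 := hcon.2.trans (le_max_left _ _)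
    have h1 := hn₀ n ((le_max_left _ _).trans hn) (fun τ _ hτn => hmul r
      ((le_max_left _ _).trans hr) n τ ((le_max_right _ _).trans hn) hτn hK1 hK2 (by
        push_cast
        linarith)) hA1
    exact absurd hK1 (not_le.2 h1)

/-- In particular the variance is unbounded. -/
theorem unb27 [IsProbabilityMeasure ρ] (hd : 0 < d) (hρ : EM ρ) {β : ℝ} (hC : CorN d ρ β)
    (h : Vec d) (hV : VSD ρ β h) (K : ℝ) : ∃ᶠ n : ℕ in atTop, K < Va ρ β h n := by
  intro hcon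
  obtain ⟨N₀, hN₀⟩ := eventually_atTop.1 hcon
  have h1 := dens27 hd hρ hC h hV K
  have h2 := h1.eventually (gt_mem_nhds (show (0 : ℝ) < 1 / 2 by norm_num))
  obtain ⟨N₁, hN₁⟩ := eventually_atTop.1 h2
  obtain ⟨N, hN⟩ : ∃ N : ℕ, N = max N₁ (2 * N₀ + 1) := ⟨_, rfl⟩
  have h3 := hN₁ N (by rw [hN]; exact le_max_left _ _)
  have hNN : 2 * N₀ + 1 ≤ N := by rw [hN]; exact le_max_right _ _
  have hNp : (0 : ℝ) < N := by
    have : 0 < N := by omega
    exact_mod_cast this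
  rw [div_lt_iff₀ hNp] at h3
  have h4 : Finset.Ico N₀ N ⊆ (Finset.range N).filter fun n => Va ρ β h n ≤ K := by
    intro n hn
    rw [Finset.mem_Ico] at hn
    rw [Finset.mem_filter, Finset.mem_range]
    exact ⟨hn.2, not_lt.1 (hN₀ n hn.1)⟩
  have h5 := Finset.card_le_card h4
  rw [Nat.card_Ico] at h5
  have h6 : ((N - N₀ : ℕ) : ℝ) ≤ (((Finset.range N).filter fun n => Va ρ β h n ≤ K).card : ℝ) := by
    exact_mod_cast h5
  rw [Nat.cast_sub (by omega)] at h6
  have h7 : (2 * N₀ + 1 : ℝ) ≤ N := by exact_mod_cast hNN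
  linarith

end Pool.Agent.W_7d29a1_NV
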