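import Pool.Agent.W_7d29a1_NV.DefsR66

/-!
Theorem NV, the final form: no subsequence of the centred free energies is tight.
-/

namespace Pool.Agent.W_7d29a1_NV

open MeasureTheory ProbabilityTheory Filter Topology Pool.Agent.W_MP_7d29a1_pr
  Pool.Agent.W_7d29a1_h46 Pool.Agent.W_7d29a1_h46u Pool.Agent.W_7d29a1_D2.B35
  Pool.Agent.W_7d29a1_Q29

/-- **The theorem from its leaves.** -/
theorem finT66 {d : ℕ} {ρ : Measure ℝ} {β : ℝ} (h1 : CoreR d ρ β) (h2 : IncTt d ρ β)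
    (h3 : MulTt d ρ β) : MainNT d ρ β := by
  rintro h hvs ⟨φ, a, hφ, ht⟩
  obtain ⟨g, hg⟩ : ∃ g : ℝ, g = Real.log (Phi h) + Real.log (∫ t, Real.exp (β * t) ∂ρ) -
    lam ρ β h := ⟨_, rfl⟩
  have hg0 : 0 < g := by
    have h4 : lam ρ β h < Real.log (Phi h) + Real.log (∫ t, Real.exp (β * t) ∂ρ) := hvs
    linarith
  obtain ⟨δ₀, hδ₀, hc⟩ := h1 h g hg0 (by linarith)
  -- the profile
  choose! R hR using ht
  have htg : ∀ j, Tgt ρ β h R (φ j) (a j) := fun j δ hδ => hR δ hδ j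
  obtain ⟨R', n₁, hI⟩ := h2 h (g / 2) (by linarith) R
  obtain ⟨ε, δ, b₂, hε, hδ, hc2⟩ := hc (R' δ₀)
  obtain ⟨b₁, hM⟩ := h3 h hvs ε δ hε hδ R'
  obtain ⟨n₂, hM2⟩ := hM (max b₁ b₂) (le_max_left _ _)
  obtain ⟨n₃, hc3⟩ := hc2 (max b₁ b₂) (le_max_right _ _)
  obtain ⟨j, hj⟩ : ∃ j, j = n₁ + n₂ + n₃ := ⟨_, rfl⟩
  have hφj : j ≤ φ j := hφ.id_le j
  obtain ⟨n, hn, hinc, hT⟩ := hI (φ j) (a j) (by omega) (htg j)
  have h5 := hc3 n (by omega) hinc (fun τ h6 h7 => hM2 n (a j) (by omega) hT τ h6 h7) (a j)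
  exact absurd (hT δ₀ hδ₀) (not_le.2 h5)

end Pool.Agent.W_7d29a1_NV
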