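import Pool.Agent.W_7d29a1_NV.IncP92
import Pool.Agent.W_7d29a1_NV.Inc27
import Pool.Agent.W_7d29a1_NV.DefsR66

/-!
A length with a tight free energy: the increments of the mean behind it.
-/

namespace Pool.Agent.W_7d29a1_NV

open MeasureTheory ProbabilityTheory Filter Topology Pool.Agent.W_MP_7d29a1_pr
  Pool.Agent.W_7d29a1_h46 Pool.Agent.W_7d29a1_h46u Pool.Agent.W_7d29a1_D2.B35
  Pool.Agent.W_7d29a1_Q29

variable {d : ℕ} {ρ : Measure ℝ} [IsProbabilityMeasure ρ]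

/-- The second moment of the increments. -/
lemma incsq92 (hd : 0 < d) (hρ : EM ρ) (β : ℝ) (h : Vec d) : ∃ C : ℝ, 0 < C ∧ ∀ n j : ℕ,
    Integrable (fun η => (X β h η (n + j) - X β h η n) ^ 2) (law d ρ) ∧
      ∫ η, (X β h η (n + j) - X β h η n) ^ 2 ∂(law d ρ) ≤ C * (j : ℝ) ^ 2 := by
  obtain ⟨C, hC⟩ : ∃ C : ℝ, C = 2 * Real.log (Phi h) ^ 2 +
        2 * ((∫ r, Real.exp (β * r) ∂ρ) + ∫ r, Real.exp (-β * r) ∂ρ) := ⟨_, rfl⟩
  have hC0 : 0 < C := by
    rw [hC]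
    have h1 : 0 < ∫ r, Real.exp (β * r) ∂ρ := integral_exp_pos (hρ β)
    have h2 : 0 < ∫ r, Real.exp (-β * r) ∂ρ := integral_exp_pos (hρ (-β))
    positivity
  refine ⟨C, hC0, fun n j => ⟨?_, ?_⟩⟩
  · have hm : Measurable fun η : Env d => (X β h η (n + j) - X β h η n) ^ 2 :=
      ((measurable_X β h (n + j)).sub (measurable_X β h n)).pow_const 2
    have i1 := N85.Va_int (ρ := ρ) hd hρ β h (n + j)
    have i0 := N85.Va_int (ρ := ρ) hd hρ β h n
    refine (((i1.add i0).const_mul 3).add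
      (integrable_const (3 * (A ρ β h (n + j) - A ρ β h n) ^ 2))).mono' hm.aestronglyMeasurable
      (Eventually.of_forall fun η => ?_)
    rw [Real.norm_eq_abs, abs_of_nonneg (sq_nonneg _)]
    simp only [Pi.add_apply]
    nlinarith [sq_nonneg ((X β h η (n + j) - A ρ β h (n + j)) + (X β h η n - A ρ β h n)),
      sq_nonneg ((X β h η (n + j) - A ρ β h (n + j)) - (A ρ β h (n + j) - A ρ β h n)),
      sq_nonneg ((X β h η n - A ρ β h n) + (A ρ β h (n + j) - A ρ β h n))]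
  · rw [hC]
    exact Inc27.steps27 hd hρ β h n j

/-- The mean increment behind a length with a tight free energy. -/
theorem ntmean92 (hd : 0 < d) (hρ : EM ρ) (β : ℝ) (h : Vec d) {ε : ℝ} (hε : 0 < ε) :
    ∃ δ₂ : ℝ, 0 < δ₂ ∧ ∀ M : ℝ, ∃ J : ℕ, 1 ≤ J ∧ ∀ n : ℕ, J ≤ n → ∀ a : ℝ,
      (law d ρ).real {η | M < |X β h η n - a|} ≤ δ₂ →
        A ρ β h (n + J) - A ρ β h n ≤ (lam ρ β h + ε) * J := by
  obtain ⟨C, hC0, hinc⟩ := incsq92 (ρ := ρ) hd hρ β h
  obtain ⟨Λ, hΛ⟩ : ∃ Λ : ℝ, Λ = lam ρ β h := ⟨_, rfl⟩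
  obtain ⟨C', hC'⟩ : ∃ C' : ℝ, C' = 2 * C + 2 * (|Λ| + ε + 2) ^ 2 := ⟨_, rfl⟩
  have hΛ0 := abs_nonneg Λ
  have hC'0 : 0 < C' := by rw [hC']; positivity
  obtain ⟨δ', hδ'⟩ : ∃ δ' : ℝ, δ' = ε ^ 2 / (32 * C') := ⟨_, rfl⟩
  have hδ'0 : 0 < δ' := by rw [hδ']; positivity
  obtain ⟨δ₁, hδ₁, m₁, hm₁⟩ := incP92 (ρ := ρ) hd hρ β h (ε / 4) δ' (by linarith) hδ'0
  refine ⟨min δ₁ δ', lt_min hδ₁ hδ'0, fun M => ?_⟩
  obtain ⟨J₀, hJ₀⟩ := exists_nat_gt (8 * |M| / ε + |M|)
  refine ⟨m₁ + J₀ + 1, by omega, fun n hn a hn2 => ?_⟩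
  obtain ⟨J, hJ⟩ : ∃ J : ℕ, J = m₁ + J₀ + 1 := ⟨_, rfl⟩
  rw [← hJ] at hn ⊢
  have hJR : (1 : ℝ) ≤ J := by
    have : 1 ≤ J := by omega
    exact_mod_cast this
  have hJ0R : (J₀ : ℝ) ≤ J := by exact_mod_cast (by omega : J₀ ≤ J)
  have hq : 0 ≤ 8 * |M| / ε := by positivity
  have hM1 : |M| ≤ J := by linarith
  have hM2 : 2 * |M| ≤ ε / 4 * J := by
    have h1 : 8 * |M| / ε ≤ J := by linarith [abs_nonneg M]
    rw [div_le_iff₀ hε] at h1
    linarith
  obtain ⟨v, hv⟩ : ∃ v : ℝ, v = (Λ + ε / 4) * J + 2 * |M| := ⟨_, rfl⟩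
  have hv1 : |v| ≤ (|Λ| + ε + 2) * J := by
    rw [hv]
    refine (abs_add_le _ _).trans ?_
    rw [abs_mul, abs_of_nonneg (show (0 : ℝ) ≤ J by linarith),
      abs_of_nonneg (show 0 ≤ 2 * |M| by positivity)]
    have h1 : |Λ + ε / 4| ≤ |Λ| + ε := by
      refine (abs_add_le _ _).trans ?_
      rw [abs_of_nonneg (show 0 ≤ ε / 4 by linarith)]
      linarith
    nlinarith
  -- the bad set
  obtain ⟨Bd, hBd⟩ : ∃ Bd : Set (Env d), Bd = {η | M < |X β h η n - a|} ∪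
    {η | a + |M| + (lam ρ β h + ε / 4) * J < X β h η (n + J)} := ⟨_, rfl⟩
  have hBm : MeasurableSet Bd := by
    rw [hBd]
    exact (measurableSet_lt measurable_const
      ((measurable_X β h n).sub_const a).abs).union
      (measurableSet_lt measurable_const (measurable_X β h (n + J)))
  have hp : (law d ρ).real Bd ≤ 2 * δ' := by
    rw [hBd]
    refine (measureReal_union_le _ _).trans ?_
    have h1 : (law d ρ).real {η : Env d | a + |M| < X β h η n} ≤ δ₁ := by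
      refine (measureReal_mono ?_).trans (hn2.trans (min_le_left _ _))
      intro η hη
      have h2 : a + |M| < X β h η n := hη
      show M < |X β h η n - a|
      refine lt_of_lt_of_le ?_ (le_abs_self _)
      linarith [le_abs_self M]
    have h3 := hm₁ J n (a + |M|) (by omega) hn h1
    have h4 := hn2.trans (min_le_right _ _)
    linarith
  obtain ⟨hU2, hU2b⟩ := hinc n J
  obtain ⟨U, hU⟩ : ∃ U : Env d → ℝ, U = fun η => X β h η (n + J) - X β h η n := ⟨_, rfl⟩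
  have hXn := (concU (ρ := ρ) hd hρ β h n).1
  have hXj := (concU (ρ := ρ) hd hρ β h (n + J)).1
  have hUi : Integrable U (law d ρ) := by
    rw [hU]
    exact hXj.sub hXn
  have hUe : ∫ η, U η ∂(law d ρ) = A ρ β h (n + J) - A ρ β h n := by
    rw [hU]
    exact integral_sub hXj hXn
  obtain ⟨t, ht⟩ : ∃ t : ℝ, t = 8 * C' * J / ε := ⟨_, rfl⟩
  have ht0 : 0 < t := by rw [ht]; positivity
  have hpt : ∀ η, U η ≤ v + ((2 * (X β h η (n + J) - X β h η n) ^ 2 + 2 * v ^ 2) / (2 * t)) +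
      Bd.indicator (fun _ => t / 2) η := by
    intro η
    have e1 : U η = X β h η (n + J) - X β h η n := by rw [hU]
    rw [← e1]
    have h0 : (U η - v) ^ 2 ≤ 2 * U η ^ 2 + 2 * v ^ 2 := by nlinarith [sq_nonneg (U η + v)]
    have h00 : 0 ≤ (U η - v) ^ 2 := sq_nonneg _
    by_cases hη : η ∈ Bd
    · rw [Set.indicator_of_mem hη]
      have h1 : U η - v ≤ (U η - v) ^ 2 / (2 * t) + t / 2 := by
        have h2 : (U η - v) ^ 2 / (2 * t) + t / 2 - (U η - v) = (U η - v - t) ^ 2 / (2 * t) := by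
          field_simp
          ring
        have h3 : 0 ≤ (U η - v - t) ^ 2 / (2 * t) := by positivity
        linarith
      have h4 : (U η - v) ^ 2 / (2 * t) ≤ (2 * U η ^ 2 + 2 * v ^ 2) / (2 * t) :=
        div_le_div_of_nonneg_right h0 (by positivity)
      linarith
    · rw [Set.indicator_of_notMem hη]
      have h1 : U η ≤ v := by
        rw [hBd, Set.mem_union, not_or] at hη
        have h2 : |X β h η n - a| ≤ M := not_lt.1 hη.1
        have h3 : X β h η (n + J) ≤ a + |M| + (lam ρ β h + ε / 4) * J := not_lt.1 hη.2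
        have h4 := (abs_le.1 h2).1
        rw [e1, hv, hΛ]
        linarith [le_abs_self M]
      have h5 : 0 ≤ (2 * U η ^ 2 + 2 * v ^ 2) / (2 * t) := by positivity
      linarith
  have hi1 : Integrable (fun η => v + ((2 * (X β h η (n + J) - X β h η n) ^ 2 + 2 * v ^ 2) /
      (2 * t))) (law d ρ) :=
    (integrable_const _).add (((hU2.const_mul 2).add (integrable_const _)).div_const _)
  have hi2 : Integrable (Bd.indicator fun _ : Env d => t / 2) (law d ρ) :=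
    (integrable_const _).indicator hBm
  have h6 := integral_mono hUi (hi1.add hi2) hpt
  have e2 : ∫ η, (v + ((2 * (X β h η (n + J) - X β h η n) ^ 2 + 2 * v ^ 2) / (2 * t)) +
      Bd.indicator (fun _ => t / 2) η) ∂(law d ρ) = v +
      (2 * (∫ η, (X β h η (n + J) - X β h η n) ^ 2 ∂(law d ρ)) + 2 * v ^ 2) / (2 * t) +
      (law d ρ).real Bd * (t / 2) := by
    have e3 : ∫ η : Env d, (2 * (X β h η (n + J) - X β h η n) ^ 2 + 2 * v ^ 2) / (2 * t)
        ∂(law d ρ) = (2 * (∫ η, (X β h η (n + J) - X β h η n) ^ 2 ∂(law d ρ)) + 2 * v ^ 2) /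
          (2 * t) := by
      rw [integral_div, integral_add (hU2.const_mul 2) (integrable_const _), integral_const_mul]
      simp
    have hi3 : Integrable (fun η : Env d => (2 * (X β h η (n + J) - X β h η n) ^ 2 +
        2 * v ^ 2) / (2 * t)) (law d ρ) :=
      ((hU2.const_mul 2).add (integrable_const _)).div_const _
    rw [integral_add hi1 hi2, integral_indicator_const _ hBm, integral_add (integrable_const _)
      hi3, e3]
    simp
  have h7 : ∫ η, U η ∂(law d ρ) ≤ v +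
      (2 * (∫ η, (X β h η (n + J) - X β h η n) ^ 2 ∂(law d ρ)) + 2 * v ^ 2) / (2 * t) +
      (law d ρ).real Bd * (t / 2) := by
    rw [← e2]
    exact h6
  rw [hUe] at h7
  have h8 : (2 * (∫ η, (X β h η (n + J) - X β h η n) ^ 2 ∂(law d ρ)) + 2 * v ^ 2) / (2 * t) ≤
      ε / 8 * J := by
    have h9 : v ^ 2 ≤ ((|Λ| + ε + 2) * J) ^ 2 := by
      rw [← sq_abs v]
      exact pow_le_pow_left₀ (abs_nonneg _) hv1 2
    have h10 : 2 * (∫ η, (X β h η (n + J) - X β h η n) ^ 2 ∂(law d ρ)) + 2 * v ^ 2 ≤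
        C' * (J : ℝ) ^ 2 * 2 := by
      rw [hC']
      nlinarith
    rw [div_le_iff₀ (by positivity)]
    have h11 : ε / 8 * J * (2 * t) = C' * (J : ℝ) ^ 2 * 2 := by
      rw [ht]
      field_simp
    rw [h11]
    exact h10
  have h12 : (law d ρ).real Bd * (t / 2) ≤ ε / 4 * J := by
    refine (mul_le_mul_of_nonneg_right hp (by positivity)).trans (le_of_eq ?_)
    rw [hδ', ht]
    field_simp
    ring
  have h13 : v = Λ * J + ε / 4 * J + 2 * |M| := by
    rw [hv]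
    ring
  have h14 := h7.trans (add_le_add (add_le_add le_rfl h8) h12)
  rw [← hΛ]
  have h15 : 0 ≤ ε * J := by positivity
  have h16 : (Λ + ε) * J = Λ * J + ε * J := by ring
  rw [h16]
  linarith

/-- From a length with a tight free energy to a length with a small increment. -/
theorem ntstep92 (hd : 0 < d) (hρ : EM ρ) (β : ℝ) (h : Vec d) {ε : ℝ} (hε : 0 < ε)
    (Mf : ℝ → ℝ) : ∃ (J : ℕ) (Mf' : ℝ → ℝ), ∀ n : ℕ, J ≤ n → ∀ a : ℝ,
      (∀ δ : ℝ, 0 < δ → (law d ρ).real {η | Mf δ < |X β h η n - a|} ≤ δ) →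
        ∃ n' : ℕ, n < n' ∧ n' ≤ n + J ∧ A ρ β h n' - A ρ β h (n' - 1) ≤ lam ρ β h + ε ∧
          ∀ δ : ℝ, 0 < δ → (law d ρ).real {η | Mf' δ < |X β h η n' - a|} ≤ δ := by
  obtain ⟨C, hC0, hinc⟩ := incsq92 (ρ := ρ) hd hρ β h
  obtain ⟨δ₂, hδ₂, hmean⟩ := ntmean92 (ρ := ρ) hd hρ β h hε
  obtain ⟨J, hJ1, hJ⟩ := hmean (Mf δ₂)
  refine ⟨J, fun δ => Mf (δ / 2) + (2 * C * (J : ℝ) ^ 2 / δ + 1), fun n hn a hta => ?_⟩
  have h1 := hJ n hn a (hta δ₂ hδ₂)
  obtain ⟨i, hi, hi2⟩ : ∃ i < J, A ρ β h (n + i + 1) - A ρ β h (n + i) ≤ lam ρ β h + ε := by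
    by_contra hc
    push Not at hc
    have h2 : ∑ i ∈ Finset.range J, (lam ρ β h + ε) <
        ∑ i ∈ Finset.range J, (A ρ β h (n + (i + 1)) - A ρ β h (n + i)) :=
      Finset.sum_lt_sum_of_nonempty ⟨0, Finset.mem_range.2 hJ1⟩
        fun i hi => hc i (Finset.mem_range.1 hi)
    rw [Finset.sum_range_sub fun i => A ρ β h (n + i), Finset.sum_const, Finset.card_range,
      nsmul_eq_mul] at h2
    simp only [add_zero] at h2
    linarith
  refine ⟨n + i + 1, by omega, by omega, ?_, fun δ hδ => ?_⟩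
  · rw [Nat.add_sub_cancel]
    exact hi2
  · obtain ⟨hU2, hU2b⟩ := hinc n (i + 1)
    obtain ⟨R, hR⟩ : ∃ R : ℝ, R = 2 * C * (J : ℝ) ^ 2 / δ + 1 := ⟨_, rfl⟩
    have hJ0 : (0 : ℝ) < J := by exact_mod_cast hJ1
    have hR1 : 1 ≤ R := by
      have : 0 ≤ 2 * C * (J : ℝ) ^ 2 / δ := by positivity
      linarith
    have h3 : {η : Env d | Mf (δ / 2) + (2 * C * (J : ℝ) ^ 2 / δ + 1) <
        |X β h η (n + i + 1) - a|} ⊆ {η | Mf (δ / 2) < |X β h η n - a|} ∪
        {η | R ^ 2 ≤ (X β h η (n + (i + 1)) - X β h η n) ^ 2} := by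
      intro η hη
      have h4 : Mf (δ / 2) + (2 * C * (J : ℝ) ^ 2 / δ + 1) < |X β h η (n + i + 1) - a| := hη
      rw [← hR] at h4
      by_contra hno
      rw [Set.mem_union, not_or] at hno
      have h5 : |X β h η n - a| ≤ Mf (δ / 2) := not_lt.1 hno.1
      have h6 : ¬ R ^ 2 ≤ (X β h η (n + (i + 1)) - X β h η n) ^ 2 := hno.2
      have h7 : |X β h η (n + (i + 1)) - X β h η n| < R := by
        by_contra h8
        rw [not_lt] at h8
        apply h6
        rw [← sq_abs (X β h η (n + (i + 1)) - X β h η n)]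
        exact pow_le_pow_left₀ (by linarith) h8 2
      have h9 : |X β h η (n + i + 1) - a| ≤ |X β h η (n + (i + 1)) - X β h η n| +
          |X β h η n - a| := by
        have h10 : X β h η (n + i + 1) - a = (X β h η (n + (i + 1)) - X β h η n) +
          (X β h η n - a) := by
          rw [← add_assoc n i 1]
          ring
        rw [h10]
        exact abs_add_le _ _
      linarith
    refine (measureReal_mono h3).trans ((measureReal_union_le _ _).trans ?_)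
    have h4 := hta (δ / 2) (by linarith)
    have h5 := mul_meas_ge_le_integral_of_nonneg
      (Filter.Eventually.of_forall fun η : Env d => sq_nonneg (X β h η (n + (i + 1)) - X β h η n))
      hU2 (R ^ 2)
    have h6 : ((i + 1 : ℕ) : ℝ) ≤ J := by exact_mod_cast hi
    have h7 : ((i + 1 : ℕ) : ℝ) ^ 2 ≤ (J : ℝ) ^ 2 := pow_le_pow_left₀ (by positivity) h6 2
    have h8 : (law d ρ).real {η : Env d | R ^ 2 ≤ (X β h η (n + (i + 1)) - X β h η n) ^ 2} ≤
        δ / 2 := by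
      have h9 : C * (J : ℝ) ^ 2 ≤ δ / 2 * R := by
        have h10 : δ / 2 * R = C * (J : ℝ) ^ 2 + δ / 2 := by
          rw [hR]
          field_simp
        linarith
      have h11 : R ≤ R ^ 2 := by nlinarith
      have h12 : R ^ 2 * (law d ρ).real
          {η : Env d | R ^ 2 ≤ (X β h η (n + (i + 1)) - X β h η n) ^ 2} ≤ δ / 2 * R ^ 2 := by
        refine h5.trans (hU2b.trans ?_)
        have h13 : C * ((i + 1 : ℕ) : ℝ) ^ 2 ≤ C * (J : ℝ) ^ 2 :=
          mul_le_mul_of_nonneg_left h7 hC0.le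
        have h14 : δ / 2 * R ≤ δ / 2 * R ^ 2 := mul_le_mul_of_nonneg_left h11 (by linarith)
        linarith
      have h15 : 0 < R ^ 2 := by positivity
      rw [mul_comm (δ / 2)] at h12
      exact le_of_mul_le_mul_left h12 h15
    linarith

/-- The leaf of `DefsR66`. -/
theorem incTt92 (hd : 0 < d) (hρ : EM ρ) (β : ℝ) : IncTt d ρ β := by
  intro h ε hε R
  obtain ⟨J, R', hR'⟩ := ntstep92 (ρ := ρ) hd hρ β h hε R
  refine ⟨R', J, fun n a hn ht => ?_⟩
  obtain ⟨n', h1, _, h3, h4⟩ := hR' n hn a ht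
  exact ⟨n', h1.le, h3, h4⟩

end Pool.Agent.W_7d29a1_NV
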