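import Pool.Agent.W_7d29a1_NV.CoreE66
import Pool.Agent.W_7d29a1_NV.FinT66
import Pool.Agent.W_7d29a1_NV.NTm92
import Pool.Agent.W_7d29a1_NV.MulT27

/-!
Theorem NV, the final form: no subsequence of the centred free energies is tight.
-/

namespace Pool.Agent.W_7d29a1_NV

open MeasureTheory ProbabilityTheory Filter Topology Pool.Agent.W_MP_7d29a1_pr
  Pool.Agent.W_7d29a1_h46 Pool.Agent.W_7d29a1_h46u Pool.Agent.W_7d29a1_D2.B35
  Pool.Agent.W_7d29a1_Q29

variable {d : ℕ} {ρ : Measure ℝ} [IsProbabilityMeasure ρ] {β : ℝ}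

/-- **No subsequence of `log Z_n - a_n` is tight**, at every tilt of very strong disorder. -/
theorem mainNT66 (hd : 0 < d) (hρ : EM ρ) (hnc : ∀ c : ℝ, ρ {c} ≠ 1) (hβ : 0 < β) :
    MainNT d ρ β :=
  finT66 (coreRE66 hd hρ hnc hβ) (incTt92 hd hρ β) (MT27.mulTt27 hd hρ β)

end Pool.Agent.W_7d29a1_NV
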