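import Pool.Agent.W_7d29a1_NV.DefsNV
import Pool.Agent.W_7d29a1_V.Rch48

/-!
Leaf E: for a fixed environment the separators form a selection model.
-/

namespace Pool.Agent.W_7d29a1_NV.Eq41

open MeasureTheory ProbabilityTheory Filter Topology Pool.Agent.W_MP_7d29a1_pr
  Pool.Agent.W_7d29a1_h46 Pool.Agent.W_7d29a1_h46u Pool.Agent.W_7d29a1_D2.B35
  Pool.Agent.W_7d29a1_Q29 Pool.Agent.W_7d29a1_NV

variable {d : ℕ}

/-! ### Chapman - Kolmogorov along the separators -/

/-- The weight of the separators without the tail. -/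
noncomputable def pre (β : ℝ) (h : Vec d) {n k : ℕ} (r : Fin (k + 1) → ℕ) (s : Sp d n k)
    (η : Env d) : ℝ :=
  PP β h η (r 0) (s 0) * ∏ i : Fin k, sg β h (r i.castSucc) (r i.succ) (s i.castSucc) (s i.succ) η

lemma sum_sub {n m : ℕ} (hm : m ≤ n) (f : Site d → ℝ) (hf : ∀ x, x ∉ boxF d m → f x = 0) :
    ∑ x : {x : Site d // x ∈ boxF d n}, f x = ∑ x ∈ boxF d m, f x := by
  rw [Finset.sum_coe_sort (boxF d n) f]
  symm
  refine Finset.sum_subset ?_ fun x _ hx => hf x hx
  intro x hx
  rw [mem_boxF] at hx ⊢
  intro j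
  exact (hx j).trans (by exact_mod_cast hm)

lemma pre_snoc (β : ℝ) (h : Vec d) {n k : ℕ} (r : Fin (k + 2) → ℕ) (s : Sp d n k)
    (z : {x : Site d // x ∈ boxF d n}) (η : Env d) :
    pre β h r (Fin.snoc (α := fun _ => {x : Site d // x ∈ boxF d n}) s z : Sp d n (k + 1)) η =
      pre β h (fun i : Fin (k + 1) => r i.castSucc) s η *
        sg β h (r (Fin.last k).castSucc) (r (Fin.last (k + 1))) (s (Fin.last k)) z η := by
  unfold pre
  rw [Fin.prod_univ_castSucc, ← mul_assoc]
  have h0 : (Fin.snoc (α := fun _ => {x : Site d // x ∈ boxF d n}) s z : Sp d n (k + 1)) 0 =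
      s 0 := by
    rw [← Fin.castSucc_zero, Fin.snoc_castSucc]
  rw [h0]
  congr 1
  · congr 1
    refine Finset.prod_congr rfl fun i _ => ?_
    rw [← Fin.castSucc_succ, Fin.snoc_castSucc, Fin.snoc_castSucc]
  · rw [Fin.succ_last, Fin.snoc_castSucc, Fin.snoc_last]

open Classical in
lemma pre_sum (β : ℝ) (h : Vec d) {n : ℕ} (η : Env d) : ∀ (k : ℕ) (r : Fin (k + 1) → ℕ),
    (∀ i : Fin k, r i.castSucc ≤ r i.succ) → r (Fin.last k) ≤ n →
    ∀ y : {x : Site d // x ∈ boxF d n},
      (∑ s : Sp d n k, if s (Fin.last k) = y then pre β h r s η else 0) =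
        PP β h η (r (Fin.last k)) y := by
  intro k
  induction k with
  | zero =>
    intro r _ _ y
    rw [Finset.sum_eq_single (fun _ => y)]
    · rw [if_pos rfl]
      unfold pre
      simp
    · intro s _ hs
      rw [if_neg]
      intro h1
      apply hs
      funext i
      rw [← h1]
      exact congrArg s (Fin.ext (by simp))
    · intro h1
      exact absurd (Finset.mem_univ _) h1
  | succ k ih =>
    intro r hr hn y
    have hk : r (Fin.last k).castSucc ≤ r (Fin.last (k + 1)) := by
      have := hr (Fin.last k)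
      rwa [Fin.succ_last] at this
    rw [← (Fin.snocEquiv (fun _ : Fin (k + 2) => {x : Site d // x ∈ boxF d n})).sum_comp,
      Fintype.sum_prod_type, Finset.sum_eq_single y]
    · have h1 : ∀ s : Sp d n k,
          (if (Fin.snocEquiv (fun _ : Fin (k + 2) => {x : Site d // x ∈ boxF d n})) (y, s)
            (Fin.last (k + 1)) = y then pre β h r
              ((Fin.snocEquiv (fun _ : Fin (k + 2) => {x : Site d // x ∈ boxF d n})) (y, s)) η
            else 0) =
          pre β h (fun i : Fin (k + 1) => r i.castSucc) s η *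
            sg β h (r (Fin.last k).castSucc) (r (Fin.last (k + 1))) (s (Fin.last k)) y η := by
        intro s
        have hs : (Fin.snocEquiv (fun _ : Fin (k + 2) => {x : Site d // x ∈ boxF d n})) (y, s) =
          (Fin.snoc (α := fun _ => {x : Site d // x ∈ boxF d n}) s y : Sp d n (k + 1)) := rfl
        rw [hs, if_pos (Fin.snoc_last (α := fun _ => {x : Site d // x ∈ boxF d n}) _ _)]
        exact pre_snoc β h r s y η
      rw [Finset.sum_congr rfl fun s _ => h1 s]
      have h2 : ∀ s : Sp d n k,
          pre β h (fun i : Fin (k + 1) => r i.castSucc) s η *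
            sg β h (r (Fin.last k).castSucc) (r (Fin.last (k + 1))) (s (Fin.last k)) y η =
          ∑ x : {x : Site d // x ∈ boxF d n}, (if s (Fin.last k) = x then
            pre β h (fun i : Fin (k + 1) => r i.castSucc) s η else 0) *
              sg β h (r (Fin.last k).castSucc) (r (Fin.last (k + 1))) x y η := by
        intro s
        rw [Finset.sum_eq_single (s (Fin.last k))]
        · rw [if_pos rfl]
        · intro x _ hx
          rw [if_neg (Ne.symm hx), zero_mul]
        · intro h3
          exact absurd (Finset.mem_univ _) h3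
      rw [Finset.sum_congr rfl fun s _ => h2 s, Finset.sum_comm]
      have h4 : ∀ x : {x : Site d // x ∈ boxF d n}, (∑ s : Sp d n k,
          (if s (Fin.last k) = x then pre β h (fun i : Fin (k + 1) => r i.castSucc) s η else 0) *
              sg β h (r (Fin.last k).castSucc) (r (Fin.last (k + 1))) x y η) =
          PP β h η (r (Fin.last k).castSucc) x *
            sg β h (r (Fin.last k).castSucc) (r (Fin.last (k + 1))) x y η := by
        intro x
        rw [← Finset.sum_mul]
        congr 1
        exact ih (fun i : Fin (k + 1) => r i.castSucc)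
          (fun i => by
            have := hr i.castSucc
            rwa [← Fin.castSucc_succ] at this) (hk.trans hn) x
      rw [Finset.sum_congr rfl fun x _ => h4 x]
      have h5 := sum_sub (n := n) (hk.trans hn)
        (fun x : Site d => PP β h η (r (Fin.last k).castSucc) x *
            sg β h (r (Fin.last k).castSucc) (r (Fin.last (k + 1))) x y η)
        (fun x hx => by rw [W_7d29a1_V.R48.PP_eq_zero_of_notMem hx, zero_mul])
      rw [h5]
      have h6 := W_7d29a1_V.R48.PP_add β h η (r (Fin.last k).castSucc)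
        (r (Fin.last (k + 1)) - r (Fin.last k).castSucc) y
      rw [Nat.add_sub_cancel' hk] at h6
      rw [h6]
      rfl
    · intro z _ hz
      refine Finset.sum_eq_zero fun s _ => if_neg ?_
      intro h1
      apply hz
      rw [← h1]
      exact (Fin.snoc_last (α := fun _ => {x : Site d // x ∈ boxF d n}) _ _).symm
    · intro h1
      exact absurd (Finset.mem_univ _) h1

/-- The total weight of the separators. -/
lemma tot_sum (β : ℝ) (h : Vec d) {n : ℕ} (η : Env d) {k : ℕ} (r : Fin (k + 1) → ℕ)
    (hr : ∀ i : Fin k, r i.castSucc ≤ r i.succ) (hn : r (Fin.last k) ≤ n) :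
    ∑ s : Sp d n k, pre β h r s η *
      Z β h (sh (r (Fin.last k)) (s (Fin.last k)) η) (n - r (Fin.last k)) = Z β h η n := by
  classical
  have h2 : ∀ s : Sp d n k, pre β h r s η *
      Z β h (sh (r (Fin.last k)) (s (Fin.last k)) η) (n - r (Fin.last k)) =
      ∑ x : {x : Site d // x ∈ boxF d n}, (if s (Fin.last k) = x then pre β h r s η else 0) *
        Z β h (sh (r (Fin.last k)) x η) (n - r (Fin.last k)) := by
    intro s
    rw [Finset.sum_eq_single (s (Fin.last k))]
    · rw [if_pos rfl]
    · intro x _ hx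
      rw [if_neg (Ne.symm hx), zero_mul]
    · intro h3
      exact absurd (Finset.mem_univ _) h3
  rw [Finset.sum_congr rfl fun s _ => h2 s, Finset.sum_comm]
  have h4 : ∀ x : {x : Site d // x ∈ boxF d n}, (∑ s : Sp d n k,
      (if s (Fin.last k) = x then pre β h r s η else 0) *
        Z β h (sh (r (Fin.last k)) x η) (n - r (Fin.last k))) =
      PP β h η (r (Fin.last k)) x * Z β h (sh (r (Fin.last k)) x η) (n - r (Fin.last k)) := by
    intro x
    rw [← Finset.sum_mul, pre_sum β h η k r hr hn x]
  rw [Finset.sum_congr rfl fun x _ => h4 x]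
  have h5 := sum_sub (n := n) hn
    (fun x : Site d => PP β h η (r (Fin.last k)) x *
      Z β h (sh (r (Fin.last k)) x η) (n - r (Fin.last k)))
    (fun x hx => by rw [W_7d29a1_V.R48.PP_eq_zero_of_notMem hx, zero_mul])
  rw [h5]
  have h6 := W_7d29a1_V.R48.Z_add_PP β h η (r (Fin.last k)) (n - r (Fin.last k))
  rw [Nat.add_sub_cancel' hn] at h6
  exact h6.symm

lemma msp_eq (β : ℝ) (h : Vec d) {n : ℕ} (η : Env d) {k : ℕ} (r : Fin (k + 1) → ℕ)
    (s : Sp d n k) : msp β h n r s η = pre β h r s η *
      Z β h (sh (r (Fin.last k)) (s (Fin.last k)) η) (n - r (Fin.last k)) / Z β h η n := rfl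

lemma msp_sum (hd : 0 < d) (β : ℝ) (h : Vec d) {n : ℕ} (η : Env d) {k : ℕ} (r : Fin (k + 1) → ℕ)
    (hr : ∀ i : Fin k, r i.castSucc ≤ r i.succ) (hn : r (Fin.last k) ≤ n) :
    ∑ s : Sp d n k, msp β h n r s η = 1 := by
  rw [Finset.sum_congr rfl fun s _ => msp_eq β h η r s, ← Finset.sum_div,
    tot_sum β h η r hr hn]
  exact div_self (Z_pos hd β h η n).ne'

end Pool.Agent.W_7d29a1_NV.Eq41
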