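import Pool.Agent.W_7d29a1_NV.Eq41

/-!
Leaf E: the gains of a row.
-/

namespace Pool.Agent.W_7d29a1_NV.Eq41

open MeasureTheory ProbabilityTheory Filter Topology Pool.Agent.W_MP_7d29a1_pr
  Pool.Agent.W_7d29a1_h46 Pool.Agent.W_7d29a1_h46u Pool.Agent.W_7d29a1_D2.B35
  Pool.Agent.W_7d29a1_Q29 Pool.Agent.W_7d29a1_NV

variable {d : ℕ}

/-! ### Truncation and the base value -/

lemma cl_abs {b : ℝ} (hb : 0 ≤ b) (x : ℝ) : |cl b x| ≤ b := by
  unfold cl
  rw [abs_le]
  exact ⟨le_max_left _ _, max_le (by linarith) (min_le_left _ _)⟩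

lemma cl_eq {b x : ℝ} (hx : |x| ≤ b) : cl b x = x := by
  unfold cl
  rw [abs_le] at hx
  rw [min_eq_right hx.2, max_eq_right hx.1]

lemma measurable_cl (b : ℝ) : Measurable (cl b) := by
  unfold cl
  exact measurable_const.max (measurable_const.min measurable_id)

variable {ρ : Measure ℝ} {β b : ℝ}

lemma Icc_ne [IsProbabilityMeasure ρ] (hb : HB ρ b) : ρ (Set.Icc (-b) b) ≠ 0 := by
  intro h0
  have h1 := hb.half
  unfold Measure.real at h1
  rw [h0] at h1
  norm_num at h1

lemma rb_prob [IsProbabilityMeasure ρ] (hb : HB ρ b) : IsProbabilityMeasure (rb ρ b) :=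
  ProbabilityTheory.cond_isProbabilityMeasure (Icc_ne hb)

lemma rb_ae [IsProbabilityMeasure ρ] (b : ℝ) : ∀ᵐ x ∂(rb ρ b), |x| ≤ b := by
  have h1 : ∀ᵐ x ∂(rb ρ b), x ∈ Set.Icc (-b) b := by
    unfold rb
    exact ProbabilityTheory.ae_cond_mem measurableSet_Icc
  filter_upwards [h1] with x hx
  exact abs_le.2 ⟨hx.1, hx.2⟩

lemma abs_mul_le' {β b x : ℝ} (hx : |x| ≤ b) : |β * x| ≤ |β| * b := by
  rw [abs_mul]
  exact mul_le_mul_of_nonneg_left hx (abs_nonneg β)

lemma exp_int [IsProbabilityMeasure ρ] (β : ℝ) (hb : HB ρ b) :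
    Integrable (fun x => Real.exp (β * x)) (rb ρ b) := by
  have := rb_prob hb
  refine Integrable.of_bound (C := Real.exp (|β| * b)) (by fun_prop) ?_
  filter_upwards [rb_ae (ρ := ρ) b] with x hx
  rw [Real.norm_eq_abs, abs_of_pos (Real.exp_pos _)]
  exact Real.exp_le_exp.2 ((le_abs_self _).trans (abs_mul_le' hx))

lemma mom_le [IsProbabilityMeasure ρ] (β : ℝ) (hb : HB ρ b) :
    Real.exp (-(|β| * b)) ≤ ∫ x, Real.exp (β * x) ∂(rb ρ b) ∧
      ∫ x, Real.exp (β * x) ∂(rb ρ b) ≤ Real.exp (|β| * b) := by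
  have := rb_prob hb
  constructor
  · have h1 := integral_mono_ae (integrable_const (Real.exp (-(|β| * b)))) (exp_int β hb)
      (by
        filter_upwards [rb_ae (ρ := ρ) b] with x hx
        exact Real.exp_le_exp.2 (neg_le_of_abs_le (abs_mul_le' hx)))
    simpa using h1
  · have h1 := integral_mono_ae (exp_int β hb) (integrable_const (Real.exp (|β| * b)))
      (by
        filter_upwards [rb_ae (ρ := ρ) b] with x hx
        exact Real.exp_le_exp.2 ((le_abs_self _).trans (abs_mul_le' hx)))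
    simpa using h1

lemma mom_pos [IsProbabilityMeasure ρ] (β : ℝ) (hb : HB ρ b) :
    0 < ∫ x, Real.exp (β * x) ∂(rb ρ b) := (Real.exp_pos _).trans_le (mom_le β hb).1

lemma beta_c0 [IsProbabilityMeasure ρ] (hβ : 0 < β) :
    β * c0 ρ β b = Real.log (∫ x, Real.exp (β * x) ∂(rb ρ b)) := by
  unfold c0
  field_simp

lemma exp_c0 [IsProbabilityMeasure ρ] (hβ : 0 < β) (hb : HB ρ b) :
    Real.exp (β * c0 ρ β b) = ∫ x, Real.exp (β * x) ∂(rb ρ b) := by
  rw [beta_c0 hβ, Real.exp_log (mom_pos β hb)]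

lemma c0_abs [IsProbabilityMeasure ρ] (hβ : 0 < β) (hb : HB ρ b) : |c0 ρ β b| ≤ b := by
  have h1 := mom_le (ρ := ρ) (b := b) β hb
  have h2 := beta_c0 (ρ := ρ) (b := b) hβ
  have h3 : |β * c0 ρ β b| ≤ |β| * b := by
    rw [h2, abs_le]
    constructor
    · rw [Real.le_log_iff_exp_le (mom_pos β hb)]
      exact h1.1
    · rw [Real.log_le_iff_le_exp (mom_pos β hb)]
      exact h1.2
  rw [abs_mul] at h3
  exact le_of_mul_le_mul_left h3 (abs_pos.2 hβ.ne')

/-! ### One row -/

/-- The change of the value at the site `(t, z)`. -/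
noncomputable def dl (b : ℝ) (t : ℕ) (η ξ ξ' : Env d) (z : Site d) : ℝ :=
  mx b t η ξ (t, z) - mx b t η ξ' (t, z)

lemma mx_of_ne {b : ℝ} {t : ℕ} {η ξ : Env d} {p : ℕ × Site d} (hp : p.1 ≠ t) :
    mx b t η ξ p = η p := by
  unfold mx
  rw [if_neg fun h => hp h.1]

lemma dl_abs {b : ℝ} (hb : 0 ≤ b) (t : ℕ) (η ξ ξ' : Env d) (z : Site d) :
    |dl b t η ξ ξ' z| ≤ 2 * b := by
  unfold dl mx
  by_cases h : |η (t, z)| ≤ b
  · rw [if_pos ⟨rfl, h⟩, if_pos ⟨rfl, h⟩]
    have h1 := cl_abs hb (ξ (t, z))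
    have h2 := cl_abs hb (ξ' (t, z))
    rw [abs_le] at h1 h2 ⊢
    constructor <;> linarith
  · rw [if_neg fun h' => h h'.2, if_neg fun h' => h h'.2, sub_self, abs_zero]
    linarith

lemma energy_mx {b : ℝ} {t a m : ℕ} (ht : a < t) (ht' : t ≤ a + m) (x : Site d)
    (η ξ ξ' : Env d) (s : Fin m → Step d) :
    energy (sh a x (mx b t η ξ)) s = energy (sh a x (mx b t η ξ')) s +
      dl b t η ξ ξ' (pos s (t - a) + x) := by
  have hi : t - a - 1 < m := by omega
  rw [← sub_eq_iff_eq_add']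
  unfold energy
  rw [← Finset.sum_sub_distrib, Finset.sum_eq_single (⟨t - a - 1, hi⟩ : Fin m)]
  · unfold sh dl
    have h1 : t - a - 1 + 1 = t - a := by omega
    have h2 : t - a + a = t := by omega
    simp only [h1, h2]
  · intro i _ hne
    unfold sh
    simp only
    have h1 : (i : ℕ) + 1 + a ≠ t := by
      intro h2
      apply hne
      ext
      simp only
      omega
    rw [mx_of_ne h1, mx_of_ne h1, sub_self]
  · intro h1
    exact absurd (Finset.mem_univ _) h1

lemma wgt_mx (β : ℝ) (h : Vec d) {b : ℝ} {t a m : ℕ} (ht : a < t) (ht' : t ≤ a + m) (x : Site d)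
    (η ξ ξ' : Env d) (s : Fin m → Step d) :
    wgt β h (sh a x (mx b t η ξ)) s = wgt β h (sh a x (mx b t η ξ')) s *
      Real.exp (β * dl b t η ξ ξ' (pos s (t - a) + x)) := by
  unfold wgt
  rw [energy_mx ht ht' x η ξ ξ' s, ← Real.exp_add]
  congr 1
  ring

open Classical in
lemma sg_eq (β : ℝ) (h : Vec d) (a b' : ℕ) (x y : Site d) (η : Env d) :
    sg β h a b' x y η = ∑ s : Fin (b' - a) → Step d,
      if pos s (b' - a) = y - x then wgt β h (sh a x η) s else 0 := by
  unfold sg PP ZT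
  refine Finset.sum_congr rfl fun s _ => ?_
  by_cases hs : pos s (b' - a) = y - x
  · rw [if_pos (show s ∈ {r : Fin (b' - a) → Step d | pos r (b' - a) = y - x} from hs), if_pos hs]
  · rw [if_neg (show ¬ s ∈ {r : Fin (b' - a) → Step d | pos r (b' - a) = y - x} from hs), if_neg hs]

lemma sg_nonneg (β : ℝ) (h : Vec d) (a b' : ℕ) (x y : Site d) (η : Env d) :
    0 ≤ sg β h a b' x y η := PP_nonneg _ _ _ _ _

lemma sg_mx_le (β : ℝ) (h : Vec d) {b : ℝ} (hb : 0 ≤ b) {t a b' : ℕ} (ht : a < t) (ht' : t ≤ b')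
    (x y : Site d) (η ξ ξ' : Env d) :
    sg β h a b' x y (mx b t η ξ) ≤ Real.exp (Bc β b) * sg β h a b' x y (mx b t η ξ') := by
  classical
  rw [sg_eq, sg_eq, Finset.mul_sum]
  refine Finset.sum_le_sum fun s _ => ?_
  by_cases hs : pos s (b' - a) = y - x
  · rw [if_pos hs, if_pos hs, wgt_mx β h ht (by omega) x η ξ ξ' s, mul_comm]
    refine mul_le_mul_of_nonneg_right (Real.exp_le_exp.2 ?_) (wgt_pos _ _ _ _).le
    have h1 := abs_mul_le' (β := β) (dl_abs hb t η ξ ξ' (pos s (t - a) + x))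
    unfold Bc
    have h2 := le_abs_self (β * dl b t η ξ ξ' (pos s (t - a) + x))
    nlinarith [abs_nonneg β]
  · rw [if_neg hs, if_neg hs, mul_zero]

lemma uab_lo (ρ : Measure ℝ) (β : ℝ) (h : Vec d) {b : ℝ} (hb : 0 ≤ b) {t a b' : ℕ} (ht : a < t)
    (ht' : t ≤ b') (x y : Site d) (η ξ : Env d) :
    Real.exp (-(Bc β b)) ≤ uab ρ β b h t a b' x y η ξ := by
  have hB : 0 ≤ Bc β b := by
    unfold Bc
    positivity
  unfold uab
  split_ifs with h0
  · rw [← Real.exp_zero]
    exact Real.exp_le_exp.2 (by linarith)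
  · have h1 := (sg_nonneg β h a b' x y (mx b t η fun _ => c0 ρ β b)).lt_of_ne' h0
    rw [le_div_iff₀ h1, Real.exp_neg, inv_mul_le_iff₀ (Real.exp_pos _)]
    exact sg_mx_le β h hb ht ht' x y η _ ξ

lemma uab_hi (ρ : Measure ℝ) (β : ℝ) (h : Vec d) {b : ℝ} (hb : 0 ≤ b) {t a b' : ℕ} (ht : a < t)
    (ht' : t ≤ b') (x y : Site d) (η ξ : Env d) :
    uab ρ β b h t a b' x y η ξ ≤ Real.exp (Bc β b) := by
  have hB : 0 ≤ Bc β b := by
    unfold Bc
    positivity
  unfold uab
  split_ifs with h0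
  · rw [← Real.exp_zero]
    exact Real.exp_le_exp.2 hB
  · have h1 := (sg_nonneg β h a b' x y (mx b t η fun _ => c0 ρ β b)).lt_of_ne' h0
    rw [div_le_iff₀ h1]
    exact sg_mx_le β h hb ht ht' x y η ξ _

lemma measurable_mx (b : ℝ) (t : ℕ) (η : Env d) : Measurable fun ξ : Env d => mx b t η ξ := by
  rw [measurable_pi_iff]
  intro p
  unfold mx
  by_cases hp : p.1 = t ∧ |η p| ≤ b
  · simp only [if_pos hp]
    exact (measurable_cl b).comp (measurable_pi_apply p)
  · simp only [if_neg hp]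
    exact measurable_const

lemma measurable_sh (a : ℕ) (x : Site d) : Measurable fun η : Env d => sh a x η := by
  rw [measurable_pi_iff]
  intro p
  exact measurable_pi_apply (p.1 + a, p.2 + x)

lemma measurable_sg (β : ℝ) (h : Vec d) (a b' : ℕ) (x y : Site d) :
    Measurable fun η : Env d => sg β h a b' x y η :=
  (measurable_ZT β h _).comp (measurable_sh a x)

lemma measurable_uab (ρ : Measure ℝ) (β b : ℝ) (h : Vec d) (t a b' : ℕ) (x y : Site d)
    (η : Env d) : Measurable fun ξ : Env d => uab ρ β b h t a b' x y η ξ := by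
  unfold uab
  split_ifs
  · exact measurable_const
  · exact ((measurable_sg β h a b' x y).comp (measurable_mx b t η)).div_const _

lemma mx_pos {b : ℝ} {t : ℕ} {η : Env d} {z : Site d} (h : |η (t, z)| ≤ b) (ξ : Env d) :
    mx b t η ξ (t, z) = cl b (ξ (t, z)) := by
  unfold mx
  rw [if_pos ⟨rfl, h⟩]

lemma mx_neg {b : ℝ} {t : ℕ} {η : Env d} {z : Site d} (h : ¬ |η (t, z)| ≤ b) (ξ : Env d) :
    mx b t η ξ (t, z) = η (t, z) := by
  unfold mx
  rw [if_neg fun h' => h h'.2]

/-- The mean factor of a site is `1`. -/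
lemma int_dl [IsProbabilityMeasure ρ] (hβ : 0 < β) (hb : HB ρ b) (t : ℕ) (η : Env d)
    (z : Site d) :
    ∫ ξ, Real.exp (β * dl b t η ξ (fun _ => c0 ρ β b) z) ∂(law d (rb ρ b)) = 1 := by
  have := rb_prob hb
  unfold dl
  by_cases h : |η (t, z)| ≤ b
  · simp only [mx_pos h]
    have h1 : cl b (c0 ρ β b) = c0 ρ β b := cl_eq (c0_abs hβ hb)
    have hme : MeasurePreserving (fun ξ : Env d => ξ (t, z)) (law d (rb ρ b)) (rb ρ b) :=
      measurePreserving_eval_infinitePi (fun _ : ℕ × Site d => rb ρ b) (t, z)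
    have hg : AEStronglyMeasurable (fun x : ℝ => Real.exp (β * (cl b x - c0 ρ β b)))
        (rb ρ b) := by
      have := measurable_cl b
      fun_prop
    have h2 := LawU_integral (F := fun x : ℝ => Real.exp (β * (cl b x - c0 ρ β b))) hme hg
    rw [h1, h2]
    have h3 : ∫ x, Real.exp (β * (cl b x - c0 ρ β b)) ∂(rb ρ b) =
        ∫ x, Real.exp (-(β * c0 ρ β b)) * Real.exp (β * x) ∂(rb ρ b) := by
      refine integral_congr_ae ?_
      filter_upwards [rb_ae (ρ := ρ) b] with x hx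
      rw [cl_eq hx, ← Real.exp_add]
      congr 1
      ring
    rw [h3, integral_const_mul, ← exp_c0 hβ hb, ← Real.exp_add, neg_add_cancel, Real.exp_zero]
  · simp only [mx_neg h, sub_self, mul_zero, Real.exp_zero]
    simp

lemma int_uab [IsProbabilityMeasure ρ] (hβ : 0 < β) (hb : HB ρ b) (h : Vec d) {t a b' : ℕ}
    (ht : a < t) (ht' : t ≤ b') (x y : Site d) (η : Env d) :
    ∫ ξ, uab ρ β b h t a b' x y η ξ ∂(law d (rb ρ b)) = 1 := by
  classical
  have := rb_prob hb
  by_cases h0 : sg β h a b' x y (mx b t η fun _ => c0 ρ β b) = 0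
  · unfold uab
    simp only [if_pos h0]
    simp
  · unfold uab
    simp only [if_neg h0]
    rw [integral_div]
    have h1 : ∫ ξ, sg β h a b' x y (mx b t η ξ) ∂(law d (rb ρ b)) =
        sg β h a b' x y (mx b t η fun _ => c0 ρ β b) := by
      have e1 : ∀ ξ : Env d, sg β h a b' x y (mx b t η ξ) =
          ∑ s : Fin (b' - a) → Step d, (if pos s (b' - a) = y - x then
            wgt β h (sh a x (mx b t η fun _ => c0 ρ β b)) s else 0) *
              Real.exp (β * dl b t η ξ (fun _ => c0 ρ β b) (pos s (t - a) + x)) := by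
        intro ξ
        rw [sg_eq]
        refine Finset.sum_congr rfl fun s _ => ?_
        by_cases hs : pos s (b' - a) = y - x
        · rw [if_pos hs, if_pos hs]
          exact wgt_mx β h ht (by omega) x η ξ _ s
        · rw [if_neg hs, if_neg hs, zero_mul]
      have hint : ∀ z : Site d, Integrable
          (fun ξ : Env d => Real.exp (β * dl b t η ξ (fun _ => c0 ρ β b) z))
          (law d (rb ρ b)) := by
        intro z
        refine Integrable.of_bound (C := Real.exp (|β| * (2 * b))) ?_ ?_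
        · have hm : Measurable fun ξ : Env d => dl b t η ξ (fun _ => c0 ρ β b) z := by
            unfold dl
            exact ((measurable_pi_apply (t, z)).comp (measurable_mx b t η)).sub measurable_const
          exact (Real.measurable_exp.comp (hm.const_mul β)).aestronglyMeasurable
        · refine Filter.Eventually.of_forall fun ξ => ?_
          rw [Real.norm_eq_abs, abs_of_pos (Real.exp_pos _)]
          exact Real.exp_le_exp.2 ((le_abs_self _).trans (abs_mul_le' (dl_abs hb.b0.le _ _ _ _ _)))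
      rw [integral_congr_ae (Filter.Eventually.of_forall e1),
        integral_finsetSum _ fun s _ => (hint _).const_mul _, sg_eq]
      refine Finset.sum_congr rfl fun s _ => ?_
      rw [integral_const_mul, int_dl hβ hb, mul_one]
    rw [h1]
    exact div_self h0

/-- The weight of a segment is the base weight times the gain. -/
lemma sg_mul_uab (ρ : Measure ℝ) (β : ℝ) (h : Vec d) {b : ℝ} (hb : 0 ≤ b) {t a b' : ℕ}
    (ht : a < t) (ht' : t ≤ b') (x y : Site d) (η ξ : Env d) :
    sg β h a b' x y (mx b t η fun _ => c0 ρ β b) * uab ρ β b h t a b' x y η ξ =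
      sg β h a b' x y (mx b t η ξ) := by
  unfold uab
  split_ifs with h0
  · have h1 := sg_mx_le β h hb ht ht' x y η ξ (fun _ => c0 ρ β b)
    rw [h0, mul_zero] at h1
    rw [h0, zero_mul]
    exact (le_antisymm h1 (sg_nonneg _ _ _ _ _ _ _)).symm
  · field_simp

end Pool.Agent.W_7d29a1_NV.Eq41
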