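import Pool.Agent.W_7d29a1_NV.Kl38
import Pool.Agent.W_7d29a1_h46u.Defs

/-!
The Markov property of the polymer at path level, by exchanging segments of two paths.
-/

set_option autoImplicit false

namespace Pool.Agent.W_7d29a1_NV.F89

open MeasureTheory Pool.Agent.W_MP_7d29a1_pr Pool.Agent.W_7d29a1_h46 Pool.Agent.W_7d29a1_h46u

variable {d n : ℕ}

/-- The path `v` with the steps `r, …, r' - 1` of `w`. -/
def swp (r r' : ℕ) (v w : Fin n → Step d) : Fin n → Step d :=
  fun j => if r ≤ (j : ℕ) ∧ (j : ℕ) < r' then w j else v j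

lemma swp_swp (r r' : ℕ) (v w : Fin n → Step d) : swp r r' (swp r r' v w) (swp r r' w v) = v := by
  funext j
  unfold swp
  by_cases h : r ≤ (j : ℕ) ∧ (j : ℕ) < r'
  · simp [h]
  · simp [h]

lemma pos_sub (s : Fin n → Step d) {r t : ℕ} (h : r ≤ t) :
    pos s t = pos s r + ∑ j : Fin n, if r ≤ (j : ℕ) ∧ (j : ℕ) < t then vec (s j) else 0 := by
  unfold pos
  rw [← Finset.sum_add_distrib]
  refine Finset.sum_congr rfl fun j _ => ?_
  by_cases h1 : (j : ℕ) < r
  · have h2 : (j : ℕ) < t := by omega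
    have h3 : ¬ (r ≤ (j : ℕ) ∧ (j : ℕ) < t) := by omega
    simp [h1, h2]
  · by_cases h2 : (j : ℕ) < t
    · have h3 : r ≤ (j : ℕ) := by omega
      simp [h1, h2, h3]
    · simp [h1, h2]

lemma swp_pos_le {r r' t : ℕ} (v w : Fin n → Step d) (ht : t ≤ r) :
    pos (swp r r' v w) t = pos v t := by
  unfold pos
  refine Finset.sum_congr rfl fun j _ => ?_
  by_cases h1 : (j : ℕ) < t
  · have h2 : ¬ (r ≤ (j : ℕ) ∧ (j : ℕ) < r') := by omega
    simp [h1, swp, h2]
  · simp [h1]

lemma swp_pos_mid {r r' t : ℕ} (v w : Fin n → Step d) (h1 : pos v r = pos w r) (hr : r ≤ t)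
    (ht : t ≤ r') : pos (swp r r' v w) t = pos w t := by
  rw [pos_sub _ hr, pos_sub w hr, swp_pos_le v w le_rfl, h1]
  congr 1
  refine Finset.sum_congr rfl fun j _ => ?_
  by_cases h : r ≤ (j : ℕ) ∧ (j : ℕ) < t
  · have h2 : r ≤ (j : ℕ) ∧ (j : ℕ) < r' := by omega
    simp [swp, h2]
  · simp [h]

lemma swp_pos_ge {r r' t : ℕ} (v w : Fin n → Step d) (hr : r ≤ r') (h1 : pos v r = pos w r)
    (h2 : pos v r' = pos w r') (ht : r' ≤ t) : pos (swp r r' v w) t = pos v t := by
  rw [pos_sub _ ht, pos_sub v ht, swp_pos_mid v w h1 hr le_rfl, h2]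
  congr 1
  refine Finset.sum_congr rfl fun j _ => ?_
  by_cases h : r' ≤ (j : ℕ) ∧ (j : ℕ) < t
  · have h2 : ¬ (r ≤ (j : ℕ) ∧ (j : ℕ) < r') := by omega
    simp [swp, h2]
  · simp [h]

/-- The exchange of a segment preserves the product of the weights. -/
lemma swp_wgt {r r' : ℕ} (hr : r ≤ r') (β : ℝ) (h : Vec d) (η : Env d) (v w : Fin n → Step d)
    (h1 : pos v r = pos w r) (h2 : pos v r' = pos w r') :
    wgt β h η (swp r r' v w) * wgt β h η (swp r r' w v) = wgt β h η v * wgt β h η w := by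
  -- the positions at one time are exchanged or not
  have key : ∀ t : ℕ, (pos (swp r r' v w) t = pos v t ∧ pos (swp r r' w v) t = pos w t) ∨
      (pos (swp r r' v w) t = pos w t ∧ pos (swp r r' w v) t = pos v t) := by
    intro t
    rcases le_total t r with ht | ht
    · exact Or.inl ⟨swp_pos_le v w ht, swp_pos_le w v ht⟩
    · rcases le_total t r' with ht' | ht'
      · exact Or.inr ⟨swp_pos_mid v w h1 ht ht', swp_pos_mid w v h1.symm ht ht'⟩
      · exact Or.inl ⟨swp_pos_ge v w hr h1 h2 ht', swp_pos_ge w v hr h1.symm h2.symm ht'⟩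
  have hE : energy η (swp r r' v w) + energy η (swp r r' w v) = energy η v + energy η w := by
    unfold energy
    rw [← Finset.sum_add_distrib, ← Finset.sum_add_distrib]
    refine Finset.sum_congr rfl fun i _ => ?_
    rcases key (i + 1) with h | h
    · rw [h.1, h.2]
    · rw [h.1, h.2, add_comm]
  have hI : inner ℝ h (emb (pos (swp r r' v w) n)) + inner ℝ h (emb (pos (swp r r' w v) n)) =
      inner ℝ h (emb (pos v n)) + inner ℝ h (emb (pos w n)) := by
    rcases key n with h | h
    · rw [h.1, h.2]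
    · rw [h.1, h.2, add_comm]
  unfold wgt
  rw [← Real.exp_add, ← Real.exp_add]
  congr 1
  have e : ∀ a b c e : ℝ, (a + β * b) + (c + β * e) = (a + c) + β * (b + e) := fun a b c e => by
    ring
  rw [e, e, hE, hI]

/-- A set of paths closed under the exchange of the segment `[r, r']`. -/
structure Cls (r r' : ℕ) (C : Finset (Fin n → Step d)) : Prop where
  le : r ≤ r'
  left : ∀ v ∈ C, ∀ w ∈ C, pos v r = pos w r
  right : ∀ v ∈ C, ∀ w ∈ C, pos v r' = pos w r'
  swp : ∀ v ∈ C, ∀ w ∈ C, swp r r' v w ∈ C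

/-- `F` depends on the positions outside `(r, r')` only. -/
def OutS (r r' : ℕ) (F : (Fin n → Step d) → ℝ) : Prop :=
  ∀ v v' : Fin n → Step d, (∀ t, t ≤ r ∨ r' ≤ t → pos v' t = pos v t) → F v' = F v

/-- `f` depends on the positions in `[r, r']` only. -/
def InS (r r' : ℕ) (f : (Fin n → Step d) → ℝ) : Prop :=
  ∀ v v' : Fin n → Step d, (∀ t, r ≤ t → t ≤ r' → pos v' t = pos v t) → f v' = f v

/-- **The Markov property.** Inside a class the positions in a segment and outside of it are
independent. -/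
theorem indep89 {r r' : ℕ} {C : Finset (Fin n → Step d)} (hC : Cls r r' C) (β : ℝ) (h : Vec d)
    (η : Env d) {F f : (Fin n → Step d) → ℝ} (hF : OutS r r' F) (hf : InS r r' f) :
    (∑ v ∈ C, wgt β h η v * (F v * f v)) * ∑ v ∈ C, wgt β h η v =
      (∑ v ∈ C, wgt β h η v * F v) * ∑ v ∈ C, wgt β h η v * f v := by
  classical
  rw [Finset.sum_mul_sum, Finset.sum_mul_sum, ← Finset.sum_product', ← Finset.sum_product']
  refine Finset.sum_nbij' (fun p => (swp r r' p.1 p.2, swp r r' p.2 p.1))
    (fun p => (swp r r' p.1 p.2, swp r r' p.2 p.1)) ?_ ?_ ?_ ?_ ?_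
  · intro p hp
    have hp' := Finset.mem_product.1 hp
    exact Finset.mem_product.2 ⟨hC.swp _ hp'.1 _ hp'.2, hC.swp _ hp'.2 _ hp'.1⟩
  · intro p hp
    have hp' := Finset.mem_product.1 hp
    exact Finset.mem_product.2 ⟨hC.swp _ hp'.1 _ hp'.2, hC.swp _ hp'.2 _ hp'.1⟩
  · intro p _
    exact Prod.ext (swp_swp r r' p.1 p.2) (swp_swp r r' p.2 p.1)
  · intro p _
    exact Prod.ext (swp_swp r r' p.1 p.2) (swp_swp r r' p.2 p.1)
  · intro p hp
    have hp' := Finset.mem_product.1 hp
    have h1 := hC.left _ hp'.1 _ hp'.2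
    have h2 := hC.right _ hp'.1 _ hp'.2
    have hw := swp_wgt hC.le β h η p.1 p.2 h1 h2
    have hFe : F (swp r r' p.1 p.2) = F p.1 := hF _ _ fun t ht => by
      rcases ht with ht | ht
      · exact swp_pos_le _ _ ht
      · exact swp_pos_ge _ _ hC.le h1 h2 ht
    have hfe : f (swp r r' p.2 p.1) = f p.1 := hf _ _ fun t ht ht' =>
      swp_pos_mid _ _ h1.symm ht ht'
    simp only
    rw [hFe, hfe]
    have : wgt β h η (swp r r' p.1 p.2) * F p.1 * (wgt β h η (swp r r' p.2 p.1) * f p.1) =
        (wgt β h η (swp r r' p.1 p.2) * wgt β h η (swp r r' p.2 p.1)) * (F p.1 * f p.1) := by ring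
    rw [this, hw]
    ring

/-- The classes given by the positions at the times of `T`. -/
lemma cls_filter [DecidableEq (Site d)] {r r' : ℕ} (hr : r ≤ r') {T : Set ℕ} (h1 : r ∈ T)
    (h2 : r' ∈ T) (hT : ∀ t ∈ T, t ≤ r ∨ r' ≤ t) {w0 : Fin n → Step d}
    {C : Finset (Fin n → Step d)} (hC : ∀ v, v ∈ C ↔ ∀ t ∈ T, pos v t = pos w0 t) :
    Cls r r' C := by
  refine ⟨hr, fun v hv w hw => ?_, fun v hv w hw => ?_, fun v hv w hw => ?_⟩
  · rw [(hC v).1 hv r h1, (hC w).1 hw r h1]
  · rw [(hC v).1 hv r' h2, (hC w).1 hw r' h2]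
  · refine (hC _).2 fun t ht => ?_
    have e1 : pos v r = pos w r := by rw [(hC v).1 hv r h1, (hC w).1 hw r h1]
    have e2 : pos v r' = pos w r' := by rw [(hC v).1 hv r' h2, (hC w).1 hw r' h2]
    rcases hT t ht with h | h
    · rw [swp_pos_le v w h]
      exact (hC v).1 hv t ht
    · rw [swp_pos_ge v w hr e1 e2 h]
      exact (hC v).1 hv t ht

lemma sum_wgt_pos {C : Finset (Fin n → Step d)} (hne : C.Nonempty) (β : ℝ) (h : Vec d)
    (η : Env d) : 0 < ∑ v ∈ C, wgt β h η v :=
  Finset.sum_pos (fun _ _ => Real.exp_pos _) hne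

/-- **The product form**: given the positions at the separators `r 0 ≤ r 1 ≤ …` the functions of
the segments are independent. -/
theorem prod89 {C : Finset (Fin n → Step d)} (hne : C.Nonempty) (β : ℝ) (h : Vec d) (η : Env d)
    {r : ℕ → ℕ} (hr : Monotone r) (f : ℕ → (Fin n → Step d) → ℝ) (k : ℕ)
    (hC : ∀ i < k, Cls (r i) (r (i + 1)) C) (hf : ∀ i < k, InS (r i) (r (i + 1)) (f i)) :
    (∑ v ∈ C, wgt β h η v * ∏ i ∈ Finset.range k, f i v) / ∑ v ∈ C, wgt β h η v =
      ∏ i ∈ Finset.range k, ((∑ v ∈ C, wgt β h η v * f i v) / ∑ v ∈ C, wgt β h η v) := by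
  have hN := (sum_wgt_pos hne β h η).ne'
  induction k with
  | zero => simp [div_self hN]
  | succ k ih =>
    have ih' := ih (fun i hi => hC i (by omega)) (fun i hi => hf i (by omega))
    rw [Finset.prod_range_succ (fun i => (∑ v ∈ C, wgt β h η v * f i v) / ∑ v ∈ C, wgt β h η v),
      ← ih']
    have hF : OutS (n := n) (r k) (r (k + 1)) fun v : Fin n → Step d =>
        ∏ i ∈ Finset.range k, f i v := by
      intro v v' hv
      refine Finset.prod_congr rfl fun i hi => ?_
      have hi' := Finset.mem_range.1 hi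
      refine hf i (by omega) v v' fun t _ ht => hv t (Or.inl (ht.trans (hr (by omega))))
    have key := indep89 (hC k (by omega)) β h η hF (hf k (by omega))
    simp only [Finset.prod_range_succ]
    rw [div_mul_div_comm, div_eq_div_iff hN (mul_ne_zero hN hN)]
    have : ∀ a b c : ℝ, a * (b * c) = a * c * b := fun a b c => by ring
    calc (∑ v ∈ C, wgt β h η v * ((∏ i ∈ Finset.range k, f i v) * f k v)) *
          ((∑ v ∈ C, wgt β h η v) * ∑ v ∈ C, wgt β h η v)
        = ((∑ v ∈ C, wgt β h η v * ((∏ i ∈ Finset.range k, f i v) * f k v)) *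
          ∑ v ∈ C, wgt β h η v) * ∑ v ∈ C, wgt β h η v := by ring
      _ = _ := by rw [key]

/-- The ratio of the weights in two environments which agree on the rows `(r, r']` is a function of
the positions outside. -/
lemma outS_ratio {r r' : ℕ} (β : ℝ) {η η' : Env d}
    (hη : ∀ p : ℕ × Site d, r < p.1 → p.1 ≤ r' → η' p = η p) :
    OutS (n := n) r r' fun v => Real.exp (β * energy (fun p => η' p - η p) v) := by
  intro v v' hv
  have : energy (fun p => η' p - η p) v' = energy (fun p => η' p - η p) v := by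
    unfold energy
    refine Finset.sum_congr rfl fun i _ => ?_
    by_cases h1 : r < (i : ℕ) + 1 ∧ (i : ℕ) + 1 ≤ r'
    · have e1 := hη ((i : ℕ) + 1, pos v' ((i : ℕ) + 1)) h1.1 h1.2
      have e2 := hη ((i : ℕ) + 1, pos v ((i : ℕ) + 1)) h1.1 h1.2
      simp only [e1, e2, sub_self]
    · rw [hv ((i : ℕ) + 1) (by omega)]
  simp only [this]

/-- The ratio of the weights in two environments which agree outside the rows `(r, r')` is a
function of the positions inside. -/
lemma inS_ratio {r r' : ℕ} (β : ℝ) {η η' : Env d}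
    (hη : ∀ p : ℕ × Site d, p.1 ≤ r ∨ r' < p.1 → η' p = η p) :
    InS (n := n) r r' fun v => Real.exp (β * energy (fun p => η' p - η p) v) := by
  intro v v' hv
  have : energy (fun p => η' p - η p) v' = energy (fun p => η' p - η p) v := by
    unfold energy
    refine Finset.sum_congr rfl fun i _ => ?_
    by_cases h1 : r ≤ (i : ℕ) + 1 ∧ (i : ℕ) + 1 ≤ r'
    · rw [hv ((i : ℕ) + 1) h1.1 h1.2]
    · have e1 := hη ((i : ℕ) + 1, pos v' ((i : ℕ) + 1)) (by simp only; omega)
      have e2 := hη ((i : ℕ) + 1, pos v ((i : ℕ) + 1)) (by simp only; omega)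
      simp only [e1, e2, sub_self]
  simp only [this]

lemma wgt_ratio (β : ℝ) (h : Vec d) (η η' : Env d) (v : Fin n → Step d) :
    wgt β h η' v = wgt β h η v * Real.exp (β * energy (fun p => η' p - η p) v) := by
  have : energy η' v = energy η v + energy (fun p => η' p - η p) v := by
    unfold energy
    rw [← Finset.sum_add_distrib]
    exact Finset.sum_congr rfl fun i _ => by ring
  unfold wgt
  rw [← Real.exp_add, this]
  congr 1
  ring

/-- The conditional mean of a function of a segment does not see the environment outside of it. -/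
theorem seg89 {r r' : ℕ} {C : Finset (Fin n → Step d)} (hC : Cls r r' C) (hne : C.Nonempty)
    (β : ℝ) (h : Vec d) {η η' : Env d}
    (hη : ∀ p : ℕ × Site d, r < p.1 → p.1 ≤ r' → η' p = η p) {f : (Fin n → Step d) → ℝ}
    (hf : InS r r' f) :
    (∑ v ∈ C, wgt β h η' v * f v) / ∑ v ∈ C, wgt β h η' v =
      (∑ v ∈ C, wgt β h η v * f v) / ∑ v ∈ C, wgt β h η v := by
  have h1 := (sum_wgt_pos hne β h η).ne'
  have h2 := (sum_wgt_pos hne β h η').ne'
  rw [div_eq_div_iff h2 h1]
  have key := indep89 hC β h η (outS_ratio (n := n) β hη) hf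
  have e1 : ∑ v ∈ C, wgt β h η' v * f v =
      ∑ v ∈ C, wgt β h η v * (Real.exp (β * energy (fun p => η' p - η p) v) * f v) :=
    Finset.sum_congr rfl fun v _ => by rw [wgt_ratio β h η η' v]; ring
  have e2 : ∑ v ∈ C, wgt β h η' v =
      ∑ v ∈ C, wgt β h η v * Real.exp (β * energy (fun p => η' p - η p) v) :=
    Finset.sum_congr rfl fun v _ => by rw [wgt_ratio β h η η' v]
  rw [e1, e2, key]
  ring

/-- The law of the path. -/
noncomputable def pw (β : ℝ) (h : Vec d) (η : Env d) (v : Fin n → Step d) : ℝ :=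
  wgt β h η v / ∑ w : Fin n → Step d, wgt β h η w

/-- **The kernel from the inner pins to a function of the outer positions does not see the rows
between the inner pins** (the hypothesis of `Kl38.kl_kernel`). -/
theorem kern89 {γ : Type*} [DecidableEq γ] [DecidableEq (Site d)] {r r' : ℕ} (hr : r ≤ r')
    (β : ℝ) (h : Vec d) {η η' : Env d}
    (hη : ∀ p : ℕ × Site d, p.1 ≤ r ∨ r' < p.1 → η' p = η p)
    {g : (Fin n → Step d) → γ}
    (hg : ∀ v v' : Fin n → Step d, (∀ t, t ≤ r ∨ r' ≤ t → pos v' t = pos v t) → g v' = g v)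
    (w : Fin n → Step d) :
    Kl38.mass (fun v => ((pos v r, pos v r'), g v)) (pw β h η) w *
        Kl38.mass (fun v => (pos v r, pos v r')) (pw β h η') w =
      Kl38.mass (fun v => ((pos v r, pos v r'), g v)) (pw β h η') w *
        Kl38.mass (fun v => (pos v r, pos v r')) (pw β h η) w := by
  classical
  set C : Finset (Fin n → Step d) :=
    Finset.univ.filter fun v => (pos v r, pos v r') = (pos w r, pos w r') with hCdef
  have hC : Cls r r' C := by
    refine cls_filter hr (T := {t | t = r ∨ t = r'}) (Or.inl rfl) (Or.inr rfl)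
      (w0 := w) ?_ ?_
    · rintro t (rfl | rfl)
      · exact Or.inl le_rfl
      · exact Or.inr le_rfl
    · intro v
      rw [hCdef, Finset.mem_filter]
      constructor
      · rintro ⟨_, h1⟩ t (rfl | rfl)
        · exact (Prod.ext_iff.1 h1).1
        · exact (Prod.ext_iff.1 h1).2
      · intro h1
        exact ⟨Finset.mem_univ _, Prod.ext (h1 r (Or.inl rfl)) (h1 r' (Or.inr rfl))⟩
  set F : (Fin n → Step d) → ℝ := fun v => if g v = g w then 1 else 0 with hF
  have hFo : OutS (n := n) r r' F := fun v v' hv => by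
    simp only [hF]
    rw [hg v v' hv]
  have key := indep89 hC β h η hFo (inS_ratio (n := n) β hη)
  -- the masses
  have m1 : ∀ e : Env d, Kl38.mass (fun v => ((pos v r, pos v r'), g v)) (pw β h e) w =
      (∑ v ∈ C, wgt β h e v * F v) / ∑ u : Fin n → Step d, wgt β h e u := by
    intro e
    unfold Kl38.mass pw
    rw [Finset.sum_div]
    have e1 : (Finset.univ.filter fun v : Fin n → Step d =>
        ((pos v r, pos v r'), g v) = ((pos w r, pos w r'), g w)) = C.filter fun v => g v = g w := by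
      ext v
      simp only [hCdef, Finset.mem_filter, Finset.mem_univ, true_and, Prod.mk.injEq]
    rw [e1, Finset.sum_filter]
    refine Finset.sum_congr rfl fun v _ => ?_
    simp only [hF]
    split_ifs <;> ring
  have m2 : ∀ e : Env d, Kl38.mass (fun v => (pos v r, pos v r')) (pw β h e) w =
      (∑ v ∈ C, wgt β h e v) / ∑ u : Fin n → Step d, wgt β h e u := by
    intro e
    unfold Kl38.mass pw
    rw [Finset.sum_div]
  rw [m1, m1, m2, m2]
  have e1 : ∑ v ∈ C, wgt β h η' v * F v =
      ∑ v ∈ C, wgt β h η v * (F v * Real.exp (β * energy (fun p => η' p - η p) v)) :=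
    Finset.sum_congr rfl fun v _ => by rw [wgt_ratio β h η η' v]; ring
  have e2 : ∑ v ∈ C, wgt β h η' v =
      ∑ v ∈ C, wgt β h η v * Real.exp (β * energy (fun p => η' p - η p) v) :=
    Finset.sum_congr rfl fun v _ => by rw [wgt_ratio β h η η' v]
  rw [e1, e2, div_mul_div_comm, div_mul_div_comm, mul_comm (∑ u : Fin n → Step d, wgt β h η' u)]
  congr 1
  exact key.symm

end Pool.Agent.W_7d29a1_NV.F89
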