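import Pool.Agent.W_7d29a1_NV.DefsNV

/-!
Theorem NV: the assembly.
-/

namespace Pool.Agent.W_7d29a1_NV

open MeasureTheory ProbabilityTheory Filter Topology Pool.Agent.W_MP_7d29a1_pr
  Pool.Agent.W_7d29a1_h46 Pool.Agent.W_7d29a1_h46u Pool.Agent.W_7d29a1_D2.B35
  Pool.Agent.W_7d29a1_Q29

namespace F50

/-- The blocks of a sum. -/
theorem sum_blocks (f : ℕ → ℝ) (q m : ℕ) :
    ∑ i ∈ Finset.range (q * m), f i = ∑ l ∈ Finset.range m, ∑ i ∈ Finset.range q, f (q * l + i) := by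
  induction m with
  | zero => simp
  | succ m ih => rw [Nat.mul_succ, Finset.sum_range_add, ih, Finset.sum_range_succ]

/-- One block is not larger than the average. -/
theorem exists_block (f : ℕ → ℝ) {q m : ℕ} (hm : 0 < m) {a : ℝ}
    (h : ∑ i ∈ Finset.range (q * m), f i ≤ a * m) :
    ∃ l < m, ∑ i ∈ Finset.range q, f (q * l + i) ≤ a := by
  rw [sum_blocks] at h
  have h1 : ∑ l ∈ Finset.range m, ∑ i ∈ Finset.range q, f (q * l + i) ≤
      ∑ _l ∈ Finset.range m, a := by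
    rw [Finset.sum_const, Finset.card_range, nsmul_eq_mul]
    linarith [mul_comm a (m : ℝ)]
  obtain ⟨l, hl, h2⟩ := Finset.exists_le_of_sum_le (Finset.nonempty_range_iff.2 hm.ne') h1
  exact ⟨l, Finset.mem_range.1 hl, h2⟩

/-- The plateau: one scale and one position where all the defects are small. -/
theorem plateau (κ : ℕ → ℕ → ℝ) (L : ℕ → ℕ) {k J n P : ℕ} {M : ℝ} (hk : 1 ≤ k) (hJ : 1 ≤ J)
    (hM : 0 ≤ M) (hL : ∀ j, j < J → 2 * k * L j ≤ P) (hP : 6 * P ≤ n) (hP1 : 1 ≤ P)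
    (hanti : ∀ j, j < J → ∀ t, P ≤ t → t < n - P → κ (j + 1) t ≤ κ j t)
    (h0 : ∀ t, P ≤ t → t < n - P → κ 0 t ≤ M)
    (h1 : ∀ t, P ≤ t → t < n - P → 0 ≤ κ J t) :
    ∃ j < J, ∃ u, P ≤ u ∧ u < n - 2 * P ∧
      ∑ i ∈ Finset.range k, (κ j (u + (2 * i + 1) * L j) - κ (j + 1) (u + (2 * i + 1) * L j)) ≤
        2 * k * M / J := by
  classical
  set I := Finset.Ico P (n - P) with hI
  set U := Finset.Ico P (n - 2 * P) with hU
  have hUc : (n : ℝ) / 2 ≤ (U.card : ℝ) := by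
    rw [hU, Nat.card_Ico]
    have : n ≤ 2 * (n - 2 * P - P) := by omega
    have h2 : (n : ℝ) ≤ 2 * ((n - 2 * P - P : ℕ) : ℝ) := by exact_mod_cast this
    linarith
  have hIc : (I.card : ℝ) ≤ n := by
    rw [hI, Nat.card_Ico]
    exact_mod_cast (by omega : n - P - P ≤ n)
  have hne : (Finset.range J ×ˢ U).Nonempty := by
    refine Finset.Nonempty.product (Finset.nonempty_range_iff.2 (by omega)) ?_
    rw [hU, Finset.nonempty_Ico]
    omega
  have hstep : ∀ j ∈ Finset.range J, ∀ i ∈ Finset.range k,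
      ∑ u ∈ U, (κ j (u + (2 * i + 1) * L j) - κ (j + 1) (u + (2 * i + 1) * L j)) ≤
        ∑ t ∈ I, (κ j t - κ (j + 1) t) := by
    intro j hj i hi
    rw [Finset.mem_range] at hj hi
    have h2 := hL j hj
    have h3 : (2 * i + 1) * L j ≤ P := by
      refine le_trans ?_ h2
      exact Nat.mul_le_mul_right _ (by omega)
    rw [← Finset.sum_image (s := U) (g := fun u => u + (2 * i + 1) * L j)
      (f := fun t => κ j t - κ (j + 1) t) (fun a _ b _ hab => by simpa using hab)]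
    refine Finset.sum_le_sum_of_subset_of_nonneg ?_ ?_
    · intro t ht
      rw [Finset.mem_image] at ht
      obtain ⟨u, hu, rfl⟩ := ht
      rw [hU, Finset.mem_Ico] at hu
      rw [hI, Finset.mem_Ico]
      omega
    · intro t ht _
      rw [hI, Finset.mem_Ico] at ht
      linarith [hanti j hj t ht.1 ht.2]
  have htot : ∑ p ∈ Finset.range J ×ˢ U, ∑ i ∈ Finset.range k,
      (κ p.1 (p.2 + (2 * i + 1) * L p.1) - κ (p.1 + 1) (p.2 + (2 * i + 1) * L p.1)) ≤
        ∑ _p ∈ Finset.range J ×ˢ U, 2 * k * M / J := by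
    rw [Finset.sum_product]
    have h2 : ∀ j ∈ Finset.range J, ∑ u ∈ U, ∑ i ∈ Finset.range k,
        (κ j (u + (2 * i + 1) * L j) - κ (j + 1) (u + (2 * i + 1) * L j)) ≤
          k * ∑ t ∈ I, (κ j t - κ (j + 1) t) := by
      intro j hj
      rw [Finset.sum_comm]
      calc _ ≤ ∑ _i ∈ Finset.range k, ∑ t ∈ I, (κ j t - κ (j + 1) t) :=
            Finset.sum_le_sum fun i hi => hstep j hj i hi
        _ = _ := by rw [Finset.sum_const, Finset.card_range, nsmul_eq_mul]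
    have h3 : ∑ j ∈ Finset.range J, ∑ t ∈ I, (κ j t - κ (j + 1) t) ≤ n * M := by
      rw [Finset.sum_comm]
      calc ∑ t ∈ I, ∑ j ∈ Finset.range J, (κ j t - κ (j + 1) t)
          = ∑ t ∈ I, (κ 0 t - κ J t) :=
            Finset.sum_congr rfl fun t _ => Finset.sum_range_sub' (fun j => κ j t) J
        _ ≤ ∑ _t ∈ I, M := by
            refine Finset.sum_le_sum fun t ht => ?_
            rw [hI, Finset.mem_Ico] at ht
            linarith [h0 t ht.1 ht.2, h1 t ht.1 ht.2]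
        _ ≤ n * M := by
            rw [Finset.sum_const, nsmul_eq_mul]
            exact mul_le_mul_of_nonneg_right hIc hM
    have hJ0 : (0 : ℝ) < J := by exact_mod_cast hJ
    calc _ ≤ ∑ j ∈ Finset.range J, k * ∑ t ∈ I, (κ j t - κ (j + 1) t) := Finset.sum_le_sum h2
      _ = k * ∑ j ∈ Finset.range J, ∑ t ∈ I, (κ j t - κ (j + 1) t) := by rw [Finset.mul_sum]
      _ ≤ k * (n * M) := mul_le_mul_of_nonneg_left h3 (by positivity)
      _ ≤ 2 * k * M * U.card := by
          have : 0 ≤ (k : ℝ) * M := by positivity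
          nlinarith [mul_le_mul_of_nonneg_left hUc this]
      _ = _ := by
          rw [Finset.sum_const, Finset.card_product, Finset.card_range, nsmul_eq_mul]
          push_cast
          field_simp
  obtain ⟨p, hp, h2⟩ := Finset.exists_le_of_sum_le hne htot
  rw [Finset.mem_product, Finset.mem_range, hU, Finset.mem_Ico] at hp
  exact ⟨p.1, hp.1, p.2, hp.2.1, hp.2.2, h2⟩

/-- The number of rows of the last step. -/
theorem exists_q {c B R : ℝ} (hc : 0 < c) (hB : 1 ≤ B) (hR : 0 ≤ R) :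
    ∃ q : ℕ, 1 ≤ q ∧ R < q * c / (2 * B * Real.sqrt (q + 1)) := by
  obtain ⟨q, hq⟩ := exists_nat_gt (2 * (2 * B * R / c) ^ 2)
  refine ⟨q + 1, by omega, ?_⟩
  have hq0 : (0 : ℝ) ≤ q := by positivity
  push_cast
  have hs : 0 < Real.sqrt ((q : ℝ) + 1 + 1) := Real.sqrt_pos.2 (by linarith)
  rw [lt_div_iff₀ (by positivity)]
  have h1 : Real.sqrt ((q : ℝ) + 1 + 1) ^ 2 = q + 1 + 1 := Real.sq_sqrt (by linarith)
  have h2 : (2 * B * R) ^ 2 * 2 < c ^ 2 * (q + 1) := by
    have h3 : 2 * (2 * B * R / c) ^ 2 < q + 1 := by linarith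
    rw [div_pow] at h3
    have h4 : 0 < c ^ 2 := by positivity
    have h5 : 2 * ((2 * B * R) ^ 2 / c ^ 2) * c ^ 2 < (q + 1) * c ^ 2 :=
      mul_lt_mul_of_pos_right h3 h4
    have h6 : 2 * ((2 * B * R) ^ 2 / c ^ 2) * c ^ 2 = (2 * B * R) ^ 2 * 2 := by
      field_simp
    linarith
  refine lt_of_pow_lt_pow_left₀ 2 (by positivity) ?_
  calc (R * (2 * B * Real.sqrt ((q : ℝ) + 1 + 1))) ^ 2
      = (2 * B * R) ^ 2 * Real.sqrt ((q : ℝ) + 1 + 1) ^ 2 := by ring
    _ = (2 * B * R) ^ 2 * (q + 1 + 1) := by rw [h1]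
    _ ≤ (2 * B * R) ^ 2 * (2 * (q + 1)) :=
        mul_le_mul_of_nonneg_left (by linarith) (sq_nonneg _)
    _ = (2 * B * R) ^ 2 * 2 * (q + 1) := by ring
    _ < c ^ 2 * (q + 1) * (q + 1) := mul_lt_mul_of_pos_right h2 (by linarith)
    _ = (((q : ℝ) + 1) * c) ^ 2 := by ring

/-- The constants of the last step. -/
theorem eta_bound {w q η : ℝ} (hq : 1 ≤ q) (hw : 1 ≤ w) (hη : η = 1 / (8 * q * w ^ 2)) {x : ℝ}
    (hx0 : 0 ≤ x) (hx : x ≤ η * q) : x + w * Real.sqrt (2 * x) ≤ 1 := by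
  have hq0 : 0 < q := by linarith
  have hw0 : 0 < w := by linarith
  have h1 : η * q = 1 / (8 * w ^ 2) := by
    rw [hη]
    field_simp
  have h2 : Real.sqrt (2 * x) ≤ 1 / (2 * w) := by
    rw [Real.sqrt_le_left (by positivity)]
    calc 2 * x ≤ 2 * (1 / (8 * w ^ 2)) := by linarith
      _ = (1 / (2 * w)) ^ 2 := by
        field_simp
        norm_num
  have h3 : w * Real.sqrt (2 * x) ≤ 1 / 2 := by
    calc w * Real.sqrt (2 * x) ≤ w * (1 / (2 * w)) := mul_le_mul_of_nonneg_left h2 hw0.le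
      _ = 1 / 2 := by field_simp
  have h4 : 1 / (8 * w ^ 2) ≤ 1 / 2 := by
    rw [div_le_div_iff₀ (by positivity) (by norm_num)]
    nlinarith
  linarith

/-- The constants of the first step. -/
theorem rhs_bound {B θ η δ ε κ J : ℝ} {k : ℝ} (hB : 1 ≤ B) (hθ : 0 < θ) (hη : 0 < η)
    (hk : 0 < k) (hκ : 0 ≤ κ) (hJ : 0 < J) (h1 : δ ≤ η / (20 * B))
    (h2 : θ ≤ η / (20 * B ^ 2)) (h3 : ε = η * θ / (640 * B)) (h4 : 5 / η ≤ k)
    (h5 : 10 / (θ * η) ≤ k) (h6 : 4 * k * κ * (10 * B * k * Real.exp (5 * B * k) / η) ^ 2 ≤ J) :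
    4 * B * k * δ + Real.log (1 + Real.exp (2 * ε * (32 * B * k))) / θ + 4 * B ^ 2 * θ * k +
      4 * B * k * Real.exp (4 * B * k - 32 * B * k / 4) +
      2 * B * k * Real.exp (5 * B * k) * (k * Real.sqrt (2 * (2 * k * κ / J))) ≤ η * k := by
  have hB0 : 0 < B := by linarith
  have a1 : 4 * B * k * δ ≤ η * k / 5 := by
    calc 4 * B * k * δ ≤ 4 * B * k * (η / (20 * B)) := mul_le_mul_of_nonneg_left h1 (by positivity)
      _ = η * k / 5 := by
        field_simp
        norm_num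
  have a2 : Real.log (1 + Real.exp (2 * ε * (32 * B * k))) / θ ≤ η * k / 5 := by
    have hε : 0 < ε := by rw [h3]; positivity
    have b1 : 1 + Real.exp (2 * ε * (32 * B * k)) ≤ Real.exp (1 + 2 * ε * (32 * B * k)) := by
      have b2 : 1 ≤ Real.exp (2 * ε * (32 * B * k)) := Real.one_le_exp (by positivity)
      rw [Real.exp_add]
      have b3 : 2 ≤ Real.exp 1 := by linarith [Real.add_one_le_exp (1 : ℝ)]
      nlinarith
    have b4 : Real.log (1 + Real.exp (2 * ε * (32 * B * k))) ≤ 1 + 2 * ε * (32 * B * k) := by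
      rw [Real.log_le_iff_le_exp (by positivity)]
      exact b1
    calc Real.log (1 + Real.exp (2 * ε * (32 * B * k))) / θ
        ≤ (1 + 2 * ε * (32 * B * k)) / θ := div_le_div_of_nonneg_right b4 hθ.le
      _ = 1 / θ + η * k / 10 := by
        rw [h3]
        field_simp
        ring
      _ ≤ η * k / 10 + η * k / 10 := by
        have b5 : 1 / θ ≤ η * k / 10 := by
          rw [div_le_iff₀ (by positivity)] at h5
          rw [div_le_div_iff₀ hθ (by norm_num)]
          nlinarith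
        linarith
      _ = η * k / 5 := by ring
  have a3 : 4 * B ^ 2 * θ * k ≤ η * k / 5 := by
    calc 4 * B ^ 2 * θ * k ≤ 4 * B ^ 2 * (η / (20 * B ^ 2)) * k := by gcongr
      _ = η * k / 5 := by
        field_simp
        norm_num
  have a4 : 4 * B * k * Real.exp (4 * B * k - 32 * B * k / 4) ≤ η * k / 5 := by
    have b1 : 4 * B * k * Real.exp (4 * B * k - 32 * B * k / 4) ≤ 1 := by
      have b2 : 4 * B * k - 32 * B * k / 4 = -(4 * B * k) := by ring
      rw [b2, Real.exp_neg]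
      have b3 : 4 * B * k ≤ Real.exp (4 * B * k) := by
        linarith [Real.add_one_le_exp (4 * B * k)]
      rw [mul_inv_le_iff₀ (Real.exp_pos _), one_mul]
      exact b3
    have b4 : 1 ≤ η * k / 5 := by
      rw [div_le_iff₀ hη] at h4
      linarith
    linarith
  have a5 : 2 * B * k * Real.exp (5 * B * k) * (k * Real.sqrt (2 * (2 * k * κ / J))) ≤
      η * k / 5 := by
    have b0 : 0 < 10 * B * k * Real.exp (5 * B * k) / η := by positivity
    have b1 : Real.sqrt (2 * (2 * k * κ / J)) ≤ (10 * B * k * Real.exp (5 * B * k) / η)⁻¹ := by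
      rw [Real.sqrt_le_left (by positivity), inv_pow]
      have b2 : 2 * (2 * k * κ / J) = 4 * k * κ / J := by ring
      rw [b2, div_le_iff₀ hJ, inv_mul_eq_div, le_div_iff₀ (by positivity)]
      exact h6
    calc 2 * B * k * Real.exp (5 * B * k) * (k * Real.sqrt (2 * (2 * k * κ / J)))
        ≤ 2 * B * k * Real.exp (5 * B * k) *
          (k * (10 * B * k * Real.exp (5 * B * k) / η)⁻¹) := by gcongr
      _ = η * k / 5 := by
        field_simp
        norm_num
  linarith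

/-- The rows. -/
def Tf (u a L k : ℕ) : Fin k → ℕ := fun i => u + (2 * (a + i) + 1) * L

/-- The separators. -/
def rf (u a L k : ℕ) : Fin (k + 1) → ℕ := fun i => u + 2 * (a + i) * L

theorem rf_castSucc (u a L k : ℕ) (i : Fin k) : rf u a L k i.castSucc = Tf u a L k i - L := by
  simp only [rf, Tf, Fin.val_castSucc]
  rw [add_mul (2 * (a + (i : ℕ))) 1 L, one_mul]
  omega

theorem rf_succ (u a L k : ℕ) (i : Fin k) : rf u a L k i.succ = Tf u a L k i + L := by
  simp only [rf, Tf, Fin.val_succ]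
  ring

theorem ord_f {u a L k n : ℕ} (hL : 1 ≤ L) (hn : u + 2 * (a + k) * L ≤ n) :
    Ord n (Tf u a L k) (rf u a L k) := by
  refine ⟨fun i => ?_, ?_⟩
  · rw [rf_castSucc, rf_succ]
    have : L ≤ Tf u a L k i := by
      simp only [Tf]
      nlinarith [Nat.zero_le (2 * (a + (i : ℕ)) * L), Nat.zero_le u]
    omega
  · simpa [rf] using hn

end F50

open Classical in
/-- **Theorem NV from the leaves.** -/
theorem finNV50 {d : ℕ} {ρ : Measure ℝ} {β b : ℝ} (hb : HB ρ b)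
    (hO : OneP d ρ β b) (hT : TwoP d ρ β b) (hM : MonT d ρ β b) (hV : VarL d ρ β b)
    (hP : MulT d ρ β) (hI : IncT d ρ β) : MainNV d ρ β := by
  rintro h hh ⟨K, hK⟩
  have hb0 := hb.b0
  obtain ⟨B, hBdef⟩ : ∃ B, B = Bc β b := ⟨_, rfl⟩
  have hM0 : 0 ≤ 4 * |β| * b := by positivity
  have hB : 1 ≤ B := by
    rw [hBdef, Bc]
    have : 0 ≤ 2 * |β| * b := by positivity
    linarith
  have hB0 : 0 < B := by linarith
  obtain ⟨g, hg⟩ : ∃ g, g = Real.log (Phi h) + Real.log (∫ t, Real.exp (β * t) ∂ρ) - lam ρ β h :=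
    ⟨_, rfl⟩
  have hg0 : 0 < g := by
    have h1 : lam ρ β h < Real.log (Phi h) + Real.log (∫ t, Real.exp (β * t) ∂ρ) := hh
    linarith
  obtain ⟨c, hc, hV1⟩ := hV g hg0
  obtain ⟨c1, hc1, N1, hI1⟩ := hI h (g / 2) (by linarith)
  obtain ⟨q, hq1, hq⟩ := F50.exists_q (R := 2 * Real.sqrt K + 1) hc hB (by positivity)
  have hq1' : (1 : ℝ) ≤ q := by exact_mod_cast hq1
  have hw : 1 ≤ 2 * B * q + 1 := by
    have : 0 ≤ 2 * B * q := by positivity
    linarith
  obtain ⟨η, hη⟩ : ∃ η : ℝ, η = 1 / (8 * q * (2 * B * q + 1) ^ 2) := ⟨_, rfl⟩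
  have hη0 : 0 < η := by
    rw [hη]
    positivity
  obtain ⟨θ, hθ⟩ : ∃ θ : ℝ, θ = min (1 / (2 * B)) (η / (20 * B ^ 2)) := ⟨_, rfl⟩
  have hθ0 : 0 < θ := by
    rw [hθ]
    positivity
  obtain ⟨δ, hδ⟩ : ∃ δ : ℝ, δ = min (η / (20 * B)) (c1 / 2) := ⟨_, rfl⟩
  have hδ0 : 0 < δ := by
    rw [hδ]
    positivity
  obtain ⟨ε, hε⟩ : ∃ ε : ℝ, ε = η * θ / (640 * B) := ⟨_, rfl⟩
  have hε0 : 0 < ε := by
    rw [hε]
    positivity
  obtain ⟨b1, hP1⟩ := hP h hh K hK ε δ hε0 hδ0
  obtain ⟨m, hm⟩ := exists_nat_gt (max (max (5 / η) (10 / (θ * η))) b1)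
  have hm1 : 5 / η ≤ m := ((le_max_left _ _).trans (le_max_left _ _)).trans hm.le
  have hm2 : 10 / (θ * η) ≤ m := ((le_max_right _ _).trans (le_max_left _ _)).trans hm.le
  have hm3 : b1 ≤ m := (le_max_right _ _).trans hm.le
  have hm0 : 0 < m := by
    have : (0 : ℝ) < m := lt_of_lt_of_le (by positivity) hm1
    exact_mod_cast this
  obtain ⟨k, hk⟩ : ∃ k, k = q * m := ⟨_, rfl⟩
  have hmk : (m : ℝ) ≤ k := by
    have : m ≤ k := by
      rw [hk]
      exact Nat.le_mul_of_pos_left m (by omega)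
    exact_mod_cast this
  have hk1 : 1 ≤ k := by
    rw [hk]
    exact Nat.mul_pos (by omega) hm0
  have hk0 : (0 : ℝ) < k := by exact_mod_cast hk1
  obtain ⟨N2, hP2⟩ := hP1 (32 * B * k) (by nlinarith)
  obtain ⟨J, hJ⟩ := exists_nat_gt (4 * k * (4 * |β| * b) *
    (10 * B * k * Real.exp (5 * B * k) / η) ^ 2)
  have hJ1 : 1 ≤ J := by
    have : (0 : ℝ) < J := lt_of_le_of_lt (by positivity) hJ
    exact_mod_cast this
  obtain ⟨L, hL⟩ : ∃ L : ℕ → ℕ, L = fun j => (2 * k) ^ j := ⟨_, rfl⟩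
  obtain ⟨P, hPd⟩ : ∃ P : ℕ, P = (2 * k) ^ J := ⟨_, rfl⟩
  have hL1 : ∀ j, 1 ≤ L j := fun j => by
    rw [hL]
    exact Nat.one_le_pow _ _ (by omega)
  have hPp : 1 ≤ P := by
    rw [hPd]
    exact Nat.one_le_pow _ _ (by omega)
  have hLs : ∀ j, 2 * k * L j = L (j + 1) := fun j => by
    rw [hL]
    simp only
    rw [pow_succ]
    ring
  have hLP : ∀ j, j ≤ J → L j ≤ P := fun j hj => by
    rw [hL, hPd]
    exact Nat.pow_le_pow_right (by omega) hj
  have hLJ : ∀ j, j < J → 2 * k * L j ≤ P := fun j hj => by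
    rw [hLs]
    exact hLP _ hj
  have hLm : ∀ j, L j ≤ L (j + 1) := fun j => by
    rw [← hLs]
    nlinarith [hL1 j]
  -- the length
  obtain ⟨N, hN⟩ : ∃ N, N = max (max N1 N2) (6 * P) := ⟨_, rfl⟩
  have hN1 : N1 ≤ N := by rw [hN]; exact (le_max_left _ _).trans (le_max_left _ _)
  have hN2 : N2 ≤ N := by rw [hN]; exact (le_max_right _ _).trans (le_max_left _ _)
  have hN3 : 6 * P ≤ N := by rw [hN]; exact le_max_right _ _
  have hN0 : (0 : ℝ) < N := by
    have : 0 < N := by omega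
    exact_mod_cast this
  have hI2 := hI1 N hN1
  have hP3 := hP2 N hN2
  obtain ⟨n, hn1, hn2⟩ : ∃ n ∈ (Finset.Ico N (2 * N)).filter (fun n =>
      A ρ β h n - A ρ β h (n - 1) ≤ lam ρ β h + g / 2),
      n ∉ (Finset.Ico N (2 * N)).filter (fun n => ∃ τ : ℕ, 1 ≤ τ ∧ τ ≤ n ∧
        ¬ (law d ρ).real {η | ¬ GoodN β h n τ (32 * B * k) ε η} ≤ δ) := by
    refine Finset.exists_mem_notMem_of_card_lt_card ?_
    have h1 : δ * N < c1 * N := by
      refine mul_lt_mul_of_pos_right ?_ hN0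
      have : δ ≤ c1 / 2 := by rw [hδ]; exact min_le_right _ _
      linarith
    exact_mod_cast lt_of_le_of_lt hP3 (lt_of_lt_of_le h1 hI2)
  rw [Finset.mem_filter, Finset.mem_Ico] at hn1
  obtain ⟨⟨hn3, hn4⟩, hn5⟩ := hn1
  have hgood : ∀ τ : ℕ, 1 ≤ τ → τ ≤ n →
      (law d ρ).real {η | ¬ GoodN β h n τ (32 * B * k) ε η} ≤ δ := by
    intro τ h1 h2
    by_contra h3
    exact hn2 (Finset.mem_filter.2 ⟨Finset.mem_Ico.2 ⟨hn3, hn4⟩, τ, h1, h2, h3⟩)
  have hnP : 6 * P ≤ n := hN3.trans hn3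
  -- the plateau
  obtain ⟨κ, hκ⟩ : ∃ κ : ℕ → ℕ → ℝ, κ = fun j t => kap ρ β b h n t (t - L j) (t + L j) := ⟨_, rfl⟩
  have hmon : ∀ j, j ≤ J → ∀ t, P ≤ t → t < n - P → 0 ≤ κ j t ∧ κ j t ≤ 4 * |β| * b := by
    intro j hj t h1 h2
    have h3 := hLP j hj
    have h4 := hL1 j
    have h5 := hM h n t (t - L j) (t - L j) (t + L j) (t + L j) le_rfl (by omega) (by omega)
      le_rfl (by omega)
    rw [hκ]
    exact ⟨h5.1, h5.2.1⟩
  obtain ⟨j, hj, u, hu1, hu2, hdef⟩ := F50.plateau κ L hk1 hJ1 hM0 hLJ hnP hPp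
    (fun j hj t h1 h2 => by
      have h3 := hLP (j + 1) hj
      have h4 := hL1 j
      have h5 := hLm j
      rw [hκ]
      exact (hM h n t (t - L j) (t - L (j + 1)) (t + L j) (t + L (j + 1)) (by omega) (by omega)
        (by omega) (by omega) (by omega)).2.2)
    (fun t h1 h2 => (hmon 0 (Nat.zero_le _) t h1 h2).2)
    (fun t h1 h2 => (hmon J le_rfl t h1 h2).1)
  have hl1 := hL1 j
  have hl2 : 2 * k * L j ≤ P := hLJ j hj
  -- the `k` rows
  have hTi : ∀ i, i < k → P ≤ u + (2 * i + 1) * L j ∧ u + (2 * i + 1) * L j < n - P := by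
    intro i hi
    have h1 : (2 * i + 1) * L j ≤ 2 * k * L j := Nat.mul_le_mul_right _ (by omega)
    omega
  have hord : Ord n (F50.Tf u 0 (L j) k) (F50.rf u 0 (L j) k) := by
    refine F50.ord_f hl1 ?_
    rw [Nat.zero_add]
    omega
  have hone := (hO h n k (F50.Tf u 0 (L j) k) (F50.rf u 0 (L j) k) hord θ ε (32 * B * k) δ hθ0
    (by rw [hθ, ← hBdef]; exact min_le_left _ _) hε0.le (by positivity)
    (hgood _ (by simp only [F50.rf]; simp; omega) (by simp only [F50.rf]; simp; omega))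
    (hgood _ (by simp only [F50.rf]; simp; omega)
      (by simp only [F50.rf, Fin.val_last]; rw [Nat.zero_add]; omega))).2
  have hkapT : ∀ (a k' : ℕ) (i : Fin k'), kap ρ β b h n (F50.Tf u a (L j) k' i)
      (F50.rf u a (L j) k' i.castSucc) (F50.rf u a (L j) k' i.succ) =
        κ j (u + (2 * (a + i) + 1) * L j) := by
    intro a k' i
    rw [F50.rf_castSucc, F50.rf_succ, hκ]
    rfl
  have hdefi : ∀ i : Fin k, Real.sqrt (2 * (kap ρ β b h n (F50.Tf u 0 (L j) k i)
      (F50.rf u 0 (L j) k i.castSucc) (F50.rf u 0 (L j) k i.succ) -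
        kap ρ β b h n (F50.Tf u 0 (L j) k i) (F50.rf u 0 (L j) k 0)
          (F50.rf u 0 (L j) k (Fin.last k)))) ≤ Real.sqrt (2 * (2 * k * (4 * |β| * b) / J)) := by
    intro i
    refine Real.sqrt_le_sqrt (mul_le_mul_of_nonneg_left (le_trans ?_ hdef) (by norm_num))
    have h1 := hTi i i.2
    have h2 := hLs j
    have h3 : L (j + 1) ≤ P := hLP (j + 1) hj
    have h4 : (2 * (i : ℕ) + 1) * L j ≤ 2 * k * L j := Nat.mul_le_mul_right _ (by omega)
    have h5 : L j ≤ (2 * (i : ℕ) + 1) * L j := Nat.le_mul_of_pos_left _ (by omega)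
    have h6 : κ (j + 1) (u + (2 * (i : ℕ) + 1) * L j) ≤ kap ρ β b h n (F50.Tf u 0 (L j) k i)
        (F50.rf u 0 (L j) k 0) (F50.rf u 0 (L j) k (Fin.last k)) := by
      rw [hκ]
      have e1 : F50.Tf u 0 (L j) k i = u + (2 * (i : ℕ) + 1) * L j := by simp [F50.Tf]
      have e2 : F50.rf u 0 (L j) k 0 = u := by simp [F50.rf]
      have e3 : F50.rf u 0 (L j) k (Fin.last k) = u + 2 * k * L j := by simp [F50.rf]
      rw [e1, e2, e3]
      exact (hM h n (u + (2 * (i : ℕ) + 1) * L j) u (u + (2 * (i : ℕ) + 1) * L j - L (j + 1))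
        (u + 2 * k * L j) (u + (2 * (i : ℕ) + 1) * L j + L (j + 1)) (by omega) (by omega)
        (by omega) (by omega) (by omega)).2.2
    rw [hkapT 0 k i, Nat.zero_add]
    calc κ j (u + (2 * (i : ℕ) + 1) * L j) - kap ρ β b h n (F50.Tf u 0 (L j) k i)
          (F50.rf u 0 (L j) k 0) (F50.rf u 0 (L j) k (Fin.last k))
        ≤ κ j (u + (2 * (i : ℕ) + 1) * L j) - κ (j + 1) (u + (2 * (i : ℕ) + 1) * L j) := by
          linarith
      _ ≤ ∑ i ∈ Finset.range k,
          (κ j (u + (2 * i + 1) * L j) - κ (j + 1) (u + (2 * i + 1) * L j)) := by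
          refine Finset.single_le_sum (f := fun i : ℕ =>
            κ j (u + (2 * i + 1) * L j) - κ (j + 1) (u + (2 * i + 1) * L j)) ?_
            (Finset.mem_range.2 i.2)
          intro i' hi'
          rw [Finset.mem_range] at hi'
          have h7 := hTi i' hi'
          have h8 := hLm j
          rw [hκ]
          have := (hM h n (u + (2 * i' + 1) * L j) (u + (2 * i' + 1) * L j - L j)
            (u + (2 * i' + 1) * L j - L (j + 1)) (u + (2 * i' + 1) * L j + L j)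
            (u + (2 * i' + 1) * L j + L (j + 1)) (by omega) (by omega)
            (by omega) (by omega) (by omega)).2.2
          simp only
          linarith
  have hsum : ∑ i ∈ Finset.range k, κ j (u + (2 * i + 1) * L j) ≤ η * k := by
    have h1 : ∑ i ∈ Finset.range k, κ j (u + (2 * i + 1) * L j) =
        ∑ i : Fin k, kap ρ β b h n (F50.Tf u 0 (L j) k i)
          (F50.rf u 0 (L j) k i.castSucc) (F50.rf u 0 (L j) k i.succ) := by
      rw [← Fin.sum_univ_eq_sum_range (fun i => κ j (u + (2 * i + 1) * L j)) k]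
      refine Finset.sum_congr rfl fun i _ => ?_
      rw [hkapT 0 k i, Nat.zero_add]
    rw [h1]
    refine hone.trans ?_
    rw [← hBdef]
    have h2 : ∑ i : Fin k, Real.sqrt (2 * (kap ρ β b h n (F50.Tf u 0 (L j) k i)
        (F50.rf u 0 (L j) k i.castSucc) (F50.rf u 0 (L j) k i.succ) -
          kap ρ β b h n (F50.Tf u 0 (L j) k i) (F50.rf u 0 (L j) k 0)
            (F50.rf u 0 (L j) k (Fin.last k)))) ≤
        k * Real.sqrt (2 * (2 * k * (4 * |β| * b) / J)) := by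
      calc _ ≤ ∑ _i : Fin k, Real.sqrt (2 * (2 * k * (4 * |β| * b) / J)) :=
            Finset.sum_le_sum fun i _ => hdefi i
        _ = _ := by simp
    have h3 := F50.rhs_bound (B := B) (θ := θ) (η := η) (δ := δ) (ε := ε) (κ := 4 * |β| * b)
      (J := J) (k := k) hB hθ0 hη0 hk0 hM0 (by exact_mod_cast hJ1)
      (by rw [hδ]; exact min_le_left _ _) (by rw [hθ]; exact min_le_right _ _) hε
      (hm1.trans hmk) (hm2.trans hmk) hJ.le
    have h4 : 0 ≤ 2 * B * k * Real.exp (5 * B * k) := by positivity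
    have h5 := mul_le_mul_of_nonneg_left h2 h4
    linarith
  -- the block of `q` rows
  obtain ⟨l, hl, hblock⟩ := F50.exists_block (q := q) (m := m) (a := η * q)
    (fun i => κ j (u + (2 * i + 1) * L j)) hm0 (by
      rw [← hk]
      refine hsum.trans (le_of_eq ?_)
      rw [hk]
      push_cast
      ring)
  have hlk : q * l + q ≤ k := by
    rw [hk]
    calc q * l + q = q * (l + 1) := by ring
      _ ≤ q * m := Nat.mul_le_mul_left _ hl
  have hlL : 2 * (q * l + q) * L j ≤ 2 * k * L j := Nat.mul_le_mul_right _ (by omega)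
  have hord2 : Ord n (F50.Tf u (q * l) (L j) q) (F50.rf u (q * l) (L j) q) :=
    F50.ord_f hl1 (by omega)
  have htwo := hT h n q (F50.Tf u (q * l) (L j) q) (F50.rf u (q * l) (L j) q) hord2
  have hkapsum : ∑ i : Fin q, kap ρ β b h n (F50.Tf u (q * l) (L j) q i)
      (F50.rf u (q * l) (L j) q i.castSucc) (F50.rf u (q * l) (L j) q i.succ) =
        ∑ i ∈ Finset.range q, κ j (u + (2 * (q * l + i) + 1) * L j) := by
    rw [← Fin.sum_univ_eq_sum_range (fun i => κ j (u + (2 * (q * l + i) + 1) * L j)) q]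
    exact Finset.sum_congr rfl fun i _ => hkapT (q * l) q i
  have hx0 : 0 ≤ ∑ i ∈ Finset.range q, κ j (u + (2 * (q * l + i) + 1) * L j) := by
    refine Finset.sum_nonneg fun i hi => ?_
    rw [Finset.mem_range] at hi
    have h1 := hTi (q * l + i) (by omega)
    exact (hmon j hj.le _ h1.1 h1.2).1
  have hvap : (q : ℝ) * c ≤ ∑ i : Fin q, vap ρ β b h n (F50.Tf u (q * l) (L j) q i)
      (F50.rf u (q * l) (L j) q i.castSucc) (F50.rf u (q * l) (L j) q i.succ) := by
    calc (q : ℝ) * c = ∑ _i : Fin q, c := by simp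
      _ ≤ _ := by
        refine Finset.sum_le_sum fun i _ => ?_
        refine hV1 h (by linarith) n hn5 _ _ _ (hord2.1 i).1 (hord2.1 i).2 ?_
        have h1 : 2 * (q * l + (i.succ : ℕ)) * L j ≤ 2 * k * L j :=
          Nat.mul_le_mul_right _ (by have := i.2; simp only [Fin.val_succ]; omega)
        simp only [F50.rf]
        omega
  rw [hkapsum, ← hBdef] at htwo
  have h1 := F50.eta_bound (w := 2 * B * q + 1) (q := q) (η := η) hq1' hw hη hx0 hblock
  have h2 : Real.sqrt (Va ρ β h n) ≤ Real.sqrt K := Real.sqrt_le_sqrt (hK n)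
  have h3 : (q : ℝ) * c / (2 * B * Real.sqrt (q + 1)) ≤
      (∑ i : Fin q, vap ρ β b h n (F50.Tf u (q * l) (L j) q i)
        (F50.rf u (q * l) (L j) q i.castSucc) (F50.rf u (q * l) (L j) q i.succ)) /
        (2 * B * Real.sqrt (q + 1)) :=
    div_le_div_of_nonneg_right hvap (by positivity)
  linarith

end Pool.Agent.W_7d29a1_NV
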