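import Mathlib

/-!
Theorem NV, the final step: averages over the times and the pigeonhole over the scales (pure).
-/

namespace Pool.Agent.W_7d29a1_NV.Fin76

open Finset

/-- Pigeonhole over the scales. -/
lemma scale {F : ℕ → ℝ} {M : ℝ} {J : ℕ} (hJ : 0 < J) (h0 : 0 ≤ F J) (h1 : F 0 ≤ M) :
    ∃ j < J, F j - F (j + 1) ≤ M / J := by
  by_contra hcon
  push Not at hcon
  have h2 : ∑ j ∈ range J, (M / J) < ∑ j ∈ range J, (F j - F (j + 1)) := by
    refine sum_lt_sum_of_nonempty (nonempty_range_iff.2 hJ.ne') fun j hj => ?_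
    exact hcon j (mem_range.1 hj)
  rw [sum_range_sub', sum_const, card_range, nsmul_eq_mul, mul_div_cancel₀] at h2
  · linarith
  · exact_mod_cast hJ.ne'

/-- Sum of square roots. -/
lemma sqrt_sum {ι : Type*} (s : Finset ι) {f : ι → ℝ} {m D : ℝ} (hf : ∀ i ∈ s, 0 ≤ f i)
    (hm : (s.card : ℝ) ≤ m) (hD : ∑ i ∈ s, f i ≤ m * D) (hD0 : 0 ≤ D) (hm0 : 0 ≤ m) :
    ∑ i ∈ s, Real.sqrt (f i) ≤ m * Real.sqrt D := by
  have h1 : (∑ i ∈ s, Real.sqrt (f i)) ^ 2 ≤ (s.card : ℝ) * ∑ i ∈ s, (Real.sqrt (f i)) ^ 2 :=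
    sq_sum_le_card_mul_sum_sq
  have h2 : ∑ i ∈ s, (Real.sqrt (f i)) ^ 2 = ∑ i ∈ s, f i :=
    sum_congr rfl fun i hi => Real.sq_sqrt (hf i hi)
  rw [h2] at h1
  have h3 : 0 ≤ ∑ i ∈ s, f i := sum_nonneg hf
  have h4 : (∑ i ∈ s, Real.sqrt (f i)) ^ 2 ≤ (m * Real.sqrt D) ^ 2 := by
    rw [mul_pow, Real.sq_sqrt hD0]
    calc (∑ i ∈ s, Real.sqrt (f i)) ^ 2 ≤ (s.card : ℝ) * ∑ i ∈ s, f i := h1
      _ ≤ m * (m * D) := mul_le_mul hm hD h3 hm0
      _ = m ^ 2 * D := by ring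
  exact (sq_le_sq₀ (sum_nonneg fun i _ => Real.sqrt_nonneg _)
    (mul_nonneg hm0 (Real.sqrt_nonneg _))).1 h4

/-- A shifted window. -/
lemma shift_le {m a : ℕ} {f : ℕ → ℝ} {N : ℕ} (hf : ∀ t, m ≤ t → t < 2 * m → 0 ≤ f t)
    (hN : N + a ≤ m) : ∑ s ∈ Ico m (m + N), f (s + a) ≤ ∑ t ∈ Ico m (2 * m), f t := by
  have h1 : ∑ s ∈ Ico m (m + N), f (s + a) = ∑ t ∈ Ico (m + a) (m + N + a), f t := by
    rw [← sum_Ico_add' f m (m + N) a]
  rw [h1]
  refine sum_le_sum_of_subset_of_nonneg ?_ ?_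
  · intro t ht
    simp only [mem_Ico] at ht ⊢
    omega
  · intro t ht _
    simp only [mem_Ico] at ht
    exact hf t ht.1 ht.2

/-- A shifted window, lower bound. -/
lemma shift_ge {m a : ℕ} {f : ℕ → ℝ} {N : ℕ} {M : ℝ} (hM0 : 0 ≤ M)
    (hf : ∀ t, m ≤ t → t < 2 * m → f t ≤ M)
    (hN : N + a ≤ m) :
    ∑ t ∈ Ico m (2 * m), f t ≤ ∑ s ∈ Ico m (m + N), f (s + a) + (m - N : ℕ) * M := by
  have h1 : ∑ s ∈ Ico m (m + N), f (s + a) = ∑ t ∈ Ico (m + a) (m + N + a), f t := by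
    rw [← sum_Ico_add' f m (m + N) a]
  rw [h1]
  have hsub : Ico (m + a) (m + N + a) ⊆ Ico m (2 * m) := by
    intro t ht
    simp only [mem_Ico] at ht ⊢
    omega
  rw [← sum_sdiff hsub, add_comm]
  refine add_le_add le_rfl ?_
  have h2 : ∑ t ∈ Ico m (2 * m) \ Ico (m + a) (m + N + a), f t ≤
      ∑ _t ∈ Ico m (2 * m) \ Ico (m + a) (m + N + a), M := by
    refine sum_le_sum fun t ht => ?_
    have h3 := (mem_sdiff.1 ht).1
    simp only [mem_Ico] at h3
    exact hf t h3.1 h3.2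
  refine h2.trans ?_
  rw [sum_const, nsmul_eq_mul, card_sdiff_of_subset hsub, Nat.card_Ico, Nat.card_Ico]
  refine mul_le_mul_of_nonneg_right ?_ hM0
  exact_mod_cast (by omega : 2 * m - m - (m + N + a - (m + a)) ≤ m - N)

/-- The average of the selection over the times. -/
lemma avg {m k L : ℕ} (hk : 1 ≤ k) (hL : 2 * k * L ≤ m) {κ : ℕ → ℕ → ℝ} {M E C ε : ℝ}
    (hM0 : 0 ≤ M) (hE : 0 ≤ E) (hC : 0 ≤ C) (hε : 0 ≤ ε)
    (h0 : ∀ t, m ≤ t → t < 2 * m → 0 ≤ κ t L) (h1 : ∀ t, m ≤ t → t < 2 * m → κ t L ≤ M)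
    (h2 : ∀ t, m ≤ t → t < 2 * m → κ t (2 * k * L) ≤ κ t L)
    (hd : ∑ t ∈ Ico m (2 * m), κ t L - ∑ t ∈ Ico m (2 * m), κ t (2 * k * L) ≤ m * ε)
    (hone : ∀ s, m ≤ s → s + 2 * k * L < 2 * m →
      ∑ i : Fin k, κ (s + (2 * i + 1) * L) L ≤ E + C * ∑ i : Fin k,
        Real.sqrt (2 * (κ (s + (2 * i + 1) * L) L - κ (s + (2 * i + 1) * L) (2 * k * L)))) :
    ∑ t ∈ Ico m (2 * m), κ t L ≤ m * (E / k + C * Real.sqrt (2 * ε)) + 2 * k * L * M := by
  set N : ℕ := m - 2 * k * L with hN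
  have hNm : N + 2 * k * L = m := by omega
  have hai : ∀ i : Fin k, N + (2 * (i : ℕ) + 1) * L ≤ m := by
    intro i
    have h3 : (2 * (i : ℕ) + 1) * L ≤ 2 * k * L :=
      Nat.mul_le_mul_right L (by have := i.2; omega)
    omega
  -- the sum over the starting times
  have hS : ∑ s ∈ Ico m (m + N), ∑ i : Fin k, κ (s + (2 * i + 1) * L) L ≤
      ∑ s ∈ Ico m (m + N), (E + C * ∑ i : Fin k,
        Real.sqrt (2 * (κ (s + (2 * i + 1) * L) L - κ (s + (2 * i + 1) * L) (2 * k * L)))) := by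
    refine sum_le_sum fun s hs => ?_
    simp only [mem_Ico] at hs
    exact hone s hs.1 (by omega)
  have hL' : (k : ℝ) * ∑ t ∈ Ico m (2 * m), κ t L ≤
      ∑ s ∈ Ico m (m + N), ∑ i : Fin k, κ (s + (2 * i + 1) * L) L +
        k * (2 * k * L * M) := by
    rw [sum_comm]
    have h3 : ∀ i : Fin k, ∑ t ∈ Ico m (2 * m), κ t L ≤
        ∑ s ∈ Ico m (m + N), κ (s + (2 * (i : ℕ) + 1) * L) L + 2 * k * L * M := by
      intro i
      have h4 := shift_ge (m := m) (a := (2 * (i : ℕ) + 1) * L) (f := fun t => κ t L) (N := N)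
        hM0 h1 (hai i)
      have h5 : ((m - N : ℕ) : ℝ) = 2 * k * L := by
        have : m - N = 2 * k * L := by omega
        rw [this]
        push_cast
        ring
      rw [h5] at h4
      exact h4
    have h6 := sum_le_sum fun (i : Fin k) (_ : i ∈ (univ : Finset (Fin k))) => h3 i
    rw [sum_add_distrib, sum_const, sum_const, card_univ, Fintype.card_fin, nsmul_eq_mul,
      nsmul_eq_mul] at h6
    exact h6
  have hR : ∑ s ∈ Ico m (m + N), (E + C * ∑ i : Fin k,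
        Real.sqrt (2 * (κ (s + (2 * i + 1) * L) L - κ (s + (2 * i + 1) * L) (2 * k * L)))) ≤
      m * E + C * (k * (m * Real.sqrt (2 * ε))) := by
    rw [sum_add_distrib, sum_const, Nat.card_Ico, nsmul_eq_mul, ← mul_sum, sum_comm]
    refine add_le_add ?_ (mul_le_mul_of_nonneg_left ?_ hC)
    · refine mul_le_mul_of_nonneg_right ?_ hE
      exact_mod_cast (by omega : m + N - m ≤ m)
    · have h3 : ∀ i : Fin k, ∑ s ∈ Ico m (m + N), Real.sqrt (2 * (κ (s + (2 * (i : ℕ) + 1) * L) L -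
          κ (s + (2 * (i : ℕ) + 1) * L) (2 * k * L))) ≤ m * Real.sqrt (2 * ε) := by
        intro i
        refine (shift_le (m := m) (a := (2 * (i : ℕ) + 1) * L)
          (f := fun t => Real.sqrt (2 * (κ t L - κ t (2 * k * L)))) (N := N)
          (fun t _ _ => Real.sqrt_nonneg _) (hai i)).trans ?_
        refine sqrt_sum (Ico m (2 * m)) ?_ ?_ ?_ (by positivity) (by positivity)
        · intro t ht
          simp only [mem_Ico] at ht
          have := h2 t ht.1 ht.2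
          linarith
        · rw [Nat.card_Ico]
          exact_mod_cast (by omega : 2 * m - m ≤ m)
        · rw [← mul_sum, sum_sub_distrib]
          linarith
      have h6 := sum_le_sum fun (i : Fin k) (_ : i ∈ (univ : Finset (Fin k))) => h3 i
      rw [sum_const, card_univ, Fintype.card_fin, nsmul_eq_mul] at h6
      exact h6
  have hk0 : (0 : ℝ) < k := by exact_mod_cast hk
  have hfin : (k : ℝ) * ∑ t ∈ Ico m (2 * m), κ t L ≤
      k * (m * (E / k + C * Real.sqrt (2 * ε)) + 2 * k * L * M) := by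
    have h7 : (k : ℝ) * (m * (E / k + C * Real.sqrt (2 * ε)) + 2 * k * L * M) =
        m * E + C * (k * (m * Real.sqrt (2 * ε))) + k * (2 * k * L * M) := by
      field_simp
    rw [h7]
    linarith
  exact le_of_mul_le_mul_left hfin hk0

/-- A good starting time. -/
lemma pick {m q L : ℕ} (hL : 4 * q * L ≤ m) (hm : 0 < m) {κ : ℕ → ℝ} {η : ℝ}
    (h0 : ∀ t, m ≤ t → t < 2 * m → 0 ≤ κ t)
    (hf : ∑ t ∈ Ico m (2 * m), κ t ≤ η * m) (hη : 0 ≤ η) :
    ∃ s, m ≤ s ∧ s + 2 * q * L < 2 * m ∧ ∑ i : Fin q, κ (s + (2 * i + 1) * L) ≤ 2 * q * η := by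
  by_contra hcon
  push Not at hcon
  set N : ℕ := m - 2 * q * L with hN
  have h4 : 4 * q * L = 2 * (2 * q * L) := by ring
  have hNm : N + 2 * q * L = m := by omega
  have hN0 : 0 < N := by omega
  have hai : ∀ i : Fin q, N + (2 * (i : ℕ) + 1) * L ≤ m := by
    intro i
    have h3 : (2 * (i : ℕ) + 1) * L ≤ 2 * q * L :=
      Nat.mul_le_mul_right L (by have := i.2; omega)
    omega
  have h1 : ∑ _s ∈ Ico m (m + N), (2 * q * η) <
      ∑ s ∈ Ico m (m + N), ∑ i : Fin q, κ (s + (2 * i + 1) * L) := by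
    refine sum_lt_sum_of_nonempty ?_ ?_
    · rw [nonempty_Ico]
      omega
    · intro s hs
      simp only [mem_Ico] at hs
      exact hcon s hs.1 (by omega)
  rw [sum_const, Nat.card_Ico, nsmul_eq_mul, sum_comm] at h1
  have h3 : ∀ i : Fin q, ∑ s ∈ Ico m (m + N), κ (s + (2 * (i : ℕ) + 1) * L) ≤ η * m := fun i =>
    (shift_le (m := m) (a := (2 * (i : ℕ) + 1) * L) (f := κ) (N := N) h0 (hai i)).trans hf
  have h6 := sum_le_sum fun (i : Fin q) (_ : i ∈ (univ : Finset (Fin q))) => h3 i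
  rw [sum_const, card_univ, Fintype.card_fin, nsmul_eq_mul] at h6
  have h7 : ((m + N - m : ℕ) : ℝ) = N := by
    have : m + N - m = N := by omega
    rw [this]
  rw [h7] at h1
  have h8 : (m : ℝ) ≤ 2 * N := by
    exact_mod_cast (by omega : m ≤ 2 * N)
  have h9 : (q : ℝ) * (η * m) ≤ N * (2 * q * η) := by
    have h10 : (q : ℝ) * (η * m) ≤ q * (η * (2 * N)) :=
      mul_le_mul_of_nonneg_left (mul_le_mul_of_nonneg_left h8 hη) (Nat.cast_nonneg q)
    linarith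
  linarith

end Pool.Agent.W_7d29a1_NV.Fin76
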