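import Pool.Agent.W_7d29a1_NV.DefsNV
import Pool.Agent.W_7d29a1_NV.FinA76

/-!
Theorem NV, the final step: the theorem from the leaves.
-/

namespace Pool.Agent.W_7d29a1_NV

open MeasureTheory ProbabilityTheory Filter Topology Pool.Agent.W_MP_7d29a1_pr
  Pool.Agent.W_7d29a1_h46 Pool.Agent.W_7d29a1_h46u Pool.Agent.W_7d29a1_D2.B35
  Pool.Agent.W_7d29a1_Q29 Finset

variable {d : ℕ} {ρ : Measure ℝ} {β b : ℝ}

/-- The symmetric selection. -/
noncomputable def kk (ρ : Measure ℝ) (β b : ℝ) (h : Vec d) (n t L : ℕ) : ℝ :=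
  kap ρ β b h n t (t - L) (t + L)

/-- The rows. -/
def TT (s L : ℕ) (k : ℕ) : Fin k → ℕ := fun i => s + (2 * i + 1) * L

/-- The separators. -/
def rr (s L : ℕ) (k : ℕ) : Fin (k + 1) → ℕ := fun j => s + 2 * j * L

lemma ord76 {n s L k : ℕ} (hL : 0 < L) (hn : s + 2 * k * L ≤ n) : Ord n (TT s L k) (rr s L k) := by
  refine ⟨fun i => ⟨?_, ?_⟩, ?_⟩
  · simp only [rr, TT, Fin.val_castSucc]
    nlinarith
  · simp only [rr, TT, Fin.val_succ]
    nlinarith
  · simpa [rr] using hn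

lemma kk_eq (h : Vec d) (n s L k : ℕ) (i : Fin k) :
    kap ρ β b h n (TT s L k i) (rr s L k i.castSucc) (rr s L k i.succ) =
      kk ρ β b h n (s + (2 * i + 1) * L) L := by
  unfold kk
  have h1 : s + (2 * (i : ℕ) + 1) * L - L = rr s L k i.castSucc := by
    simp only [rr, Fin.val_castSucc]
    have : s + (2 * (i : ℕ) + 1) * L = s + 2 * i * L + L := by ring
    omega
  have h2 : s + (2 * (i : ℕ) + 1) * L + L = rr s L k i.succ := by
    simp only [rr, Fin.val_succ]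
    ring
  rw [h1, h2]
  rfl

/-- The window inequality from `OneP`. -/
lemma win76 (h1 : OneP d ρ β b) (hM : MonT d ρ β b) (h : Vec d) {n k L s : ℕ} (hk : 1 ≤ k)
    (hL : 0 < L) (hs : 2 * k * L ≤ s) (hn : s + 2 * k * L + 2 * k * L ≤ n)
    {θ ε b₀ δ : ℝ} (hθ : 0 < θ)
    (hθ' : θ ≤ 1 / (2 * Bc β b)) (hε : 0 ≤ ε) (hb₀ : 0 ≤ b₀) (hB : 1 ≤ Bc β b)
    (hg : ∀ τ : ℕ, 1 ≤ τ → τ ≤ n → (law d ρ).real {η | ¬ GoodN β h n τ b₀ ε η} ≤ δ) :
    ∑ i : Fin k, kk ρ β b h n (s + (2 * i + 1) * L) L ≤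
      (4 * Bc β b * k * δ + Real.log (1 + Real.exp (2 * ε * b₀)) / θ + 4 * Bc β b ^ 2 * θ * k +
        4 * Bc β b * k * Real.exp (4 * Bc β b * k - b₀ / 4)) +
      (2 * Bc β b * k * Real.exp (5 * Bc β b * k)) * ∑ i : Fin k,
        Real.sqrt (2 * (kk ρ β b h n (s + (2 * i + 1) * L) L -
          kk ρ β b h n (s + (2 * i + 1) * L) (2 * k * L))) := by
  have hO : Ord n (TT s L k) (rr s L k) := ord76 hL (by omega)
  have h2kL : 1 ≤ 2 * k * L := by
    have : 0 < 2 * k * L := by positivity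
    omega
  have hr0 : rr s L k 0 = s := by simp [rr]
  have hrk : rr s L k (Fin.last k) = s + 2 * k * L := by simp [rr]
  have h3 := (h1 h n k (TT s L k) (rr s L k) hO θ ε b₀ δ hθ hθ' hε hb₀
    (hg _ (by omega) (by omega)) (hg _ (by omega) (by omega))).2
  simp only [kk_eq] at h3
  refine h3.trans ?_
  refine add_le_add le_rfl ?_
  refine mul_le_mul_of_nonneg_left ?_ (by positivity)
  refine sum_le_sum fun i _ => Real.sqrt_le_sqrt ?_
  have h4 : kk ρ β b h n (s + (2 * i + 1) * L) (2 * k * L) ≤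
      kap ρ β b h n (TT s L k i) (rr s L k 0) (rr s L k (Fin.last k)) := by
    unfold kk
    have hi : (2 * (i : ℕ) + 1) * L ≤ 2 * k * L :=
      Nat.mul_le_mul_right L (by have := i.2; omega)
    have hi0 : 0 < (2 * (i : ℕ) + 1) * L := by positivity
    refine (hM h n (TT s L k i) (rr s L k 0) (s + (2 * i + 1) * L - 2 * k * L)
      (rr s L k (Fin.last k)) (s + (2 * i + 1) * L + 2 * k * L) ?_ ?_ ?_ ?_ ?_).2.2
    · rw [hr0]; omega
    · rw [hr0]; simp only [TT]; omega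
    · rw [hrk]; simp only [TT]; omega
    · rw [hrk]; omega
    · omega
  linarith

/-- `log (1 + e^x) ≤ 1 + x`. -/
lemma log_one_add {x : ℝ} (hx : 0 ≤ x) : Real.log (1 + Real.exp x) ≤ 1 + x := by
  have h1 : 1 + Real.exp x ≤ Real.exp (1 + x) := by
    rw [Real.exp_add]
    have h2 : (2 : ℝ) ≤ Real.exp 1 := by
      have := Real.add_one_le_exp (1 : ℝ)
      linarith
    have h3 : 1 ≤ Real.exp x := Real.one_le_exp hx
    nlinarith
  calc Real.log (1 + Real.exp x) ≤ Real.log (Real.exp (1 + x)) :=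
        Real.log_le_log (by positivity) h1
    _ = 1 + x := Real.log_exp _

/-- The choice of the number of the rows. -/
lemma q76 {R : ℝ} (hR : 0 ≤ R) : ∃ q : ℕ, 1 ≤ q ∧ R * Real.sqrt (q + 1) ≤ q := by
  refine ⟨⌈2 * R ^ 2⌉₊ + 1, by omega, ?_⟩
  set q : ℕ := ⌈2 * R ^ 2⌉₊ + 1 with hq
  have h1 : 2 * R ^ 2 + 1 ≤ (q : ℝ) := by
    rw [hq]
    push_cast
    have := Nat.le_ceil (2 * R ^ 2)
    linarith
  have h0 : (0 : ℝ) ≤ q := Nat.cast_nonneg q
  have hq1 : (1 : ℝ) ≤ q := by nlinarith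
  have h2 : (R * Real.sqrt (q + 1)) ^ 2 ≤ (q : ℝ) ^ 2 := by
    rw [mul_pow, Real.sq_sqrt (by linarith)]
    nlinarith [sq_nonneg R]
  exact (sq_le_sq₀ (by positivity) h0).1 h2

/-- The average over the rows at one scale. -/
lemma plat76 (h1 : OneP d ρ β b) (hM : MonT d ρ β b) (h : Vec d) {n m k J Λ : ℕ} (hk : 1 ≤ k)
    (hJ : 0 < J) (hΛ : Λ = 2 * k) (hβb : 4 * |β| * b ≤ 2 * Bc β b)
    (hm : Λ ^ (J + 1) ≤ m) (hmn : 4 * m ≤ n)
    {θ ε b₀ δ : ℝ} (hθ : 0 < θ)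
    (hθ' : θ ≤ 1 / (2 * Bc β b)) (hε : 0 ≤ ε) (hb₀ : 0 ≤ b₀) (hδ : 0 ≤ δ) (hB : 1 ≤ Bc β b)
    (hg : ∀ τ : ℕ, 1 ≤ τ → τ ≤ n → (law d ρ).real {η | ¬ GoodN β h n τ b₀ ε η} ≤ δ) :
    ∃ j < J, ∑ t ∈ Ico m (2 * m), kk ρ β b h n t (Λ ^ j) ≤
      m * ((4 * Bc β b * k * δ + Real.log (1 + Real.exp (2 * ε * b₀)) / θ +
        4 * Bc β b ^ 2 * θ * k + 4 * Bc β b * k * Real.exp (4 * Bc β b * k - b₀ / 4)) / k +
        (2 * Bc β b * k * Real.exp (5 * Bc β b * k)) * Real.sqrt (2 * (2 * Bc β b / J))) +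
        2 * k * (Λ ^ j : ℕ) * (2 * Bc β b) := by
  have hΛ1 : 1 ≤ Λ := by omega
  have hpow : ∀ j ≤ J + 1, Λ ^ j ≤ m := fun j hj =>
    (Nat.pow_le_pow_right hΛ1 hj).trans hm
  have hpos : ∀ j, 0 < Λ ^ j := fun j => Nat.pow_pos hΛ1
  have hsucc : ∀ j, 2 * k * Λ ^ j = Λ ^ (j + 1) := fun j => by
    rw [pow_succ, hΛ]; ring
  -- bounds of the selections
  have hb : ∀ (t : ℕ) (j : ℕ), m ≤ t → t < 2 * m → j ≤ J + 1 →
      0 ≤ kk ρ β b h n t (Λ ^ j) ∧ kk ρ β b h n t (Λ ^ j) ≤ 2 * Bc β b := by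
    intro t j ht ht' hj
    have h2 := hpow j hj
    have h3 := hpos j
    have h4 := hM h n t (t - Λ ^ j) (t - Λ ^ j) (t + Λ ^ j) (t + Λ ^ j) le_rfl (by omega)
      (by omega) le_rfl (by omega)
    exact ⟨h4.1, h4.2.1.trans hβb⟩
  have hmono : ∀ (t : ℕ) (j : ℕ), m ≤ t → t < 2 * m → j ≤ J →
      kk ρ β b h n t (Λ ^ (j + 1)) ≤ kk ρ β b h n t (Λ ^ j) := by
    intro t j ht ht' hj
    have h2 := hpow (j + 1) (by omega)
    have h2' := hpow j (by omega)
    have h3 := hpos j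
    have h5 : Λ ^ j ≤ Λ ^ (j + 1) := Nat.pow_le_pow_right hΛ1 (by omega)
    exact (hM h n t (t - Λ ^ j) (t - Λ ^ (j + 1)) (t + Λ ^ j) (t + Λ ^ (j + 1)) (by omega)
      (by omega) (by omega) (by omega) (by omega)).2.2
  obtain ⟨j, hj, hF⟩ := Fin76.scale
    (F := fun j => ∑ t ∈ Ico m (2 * m), kk ρ β b h n t (Λ ^ j)) (M := m * (2 * Bc β b)) hJ
    (sum_nonneg fun t ht => (hb t J (mem_Ico.1 ht).1 (mem_Ico.1 ht).2 (by omega)).1)
    (by
      refine (sum_le_sum fun t ht =>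
        (hb t 0 (mem_Ico.1 ht).1 (mem_Ico.1 ht).2 (by omega)).2).trans ?_
      rw [sum_const, Nat.card_Ico, nsmul_eq_mul]
      have : 2 * m - m = m := by omega
      rw [this])
  refine ⟨j, hj, ?_⟩
  have hE : 0 ≤ 4 * Bc β b * k * δ + Real.log (1 + Real.exp (2 * ε * b₀)) / θ +
        4 * Bc β b ^ 2 * θ * k + 4 * Bc β b * k * Real.exp (4 * Bc β b * k - b₀ / 4) := by
    have : 0 ≤ Real.log (1 + Real.exp (2 * ε * b₀)) :=
      Real.log_nonneg (by have := Real.exp_pos (2 * ε * b₀); linarith)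
    positivity
  have hres := Fin76.avg (m := m) (k := k) (L := Λ ^ j) hk
    (by rw [hsucc]; exact hpow (j + 1) (by omega))
    (κ := fun t L => kk ρ β b h n t L) (M := 2 * Bc β b)
    (E := 4 * Bc β b * k * δ + Real.log (1 + Real.exp (2 * ε * b₀)) / θ +
        4 * Bc β b ^ 2 * θ * k + 4 * Bc β b * k * Real.exp (4 * Bc β b * k - b₀ / 4))
    (C := 2 * Bc β b * k * Real.exp (5 * Bc β b * k)) (ε := 2 * Bc β b / J)
    (by linarith) hE (by positivity) (by positivity)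
    (fun t ht ht' => (hb t j ht ht' (by omega)).1)
    (fun t ht ht' => (hb t j ht ht' (by omega)).2)
    (fun t ht ht' => by
      simp only [hsucc]
      exact hmono t j ht ht' (by omega))
    (by
      simp only [hsucc]
      refine hF.trans (le_of_eq ?_)
      ring)
    (fun s hs hs' => by
      have h2 : 2 * k * Λ ^ j ≤ m := by rw [hsucc]; exact hpow (j + 1) (by omega)
      exact win76 h1 hM h hk (hpos j) (by omega) (by omega) hθ hθ' hε hb₀ hB hg)
  exact hres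

/-- The constants of the window inequality. -/
lemma const76 {B η θ δ ε C₁ : ℝ} {k : ℕ} (hB : 1 ≤ B) (hη : 0 < η) (hθ : 0 < θ)
    (hθ1 : θ ≤ η / (32 * B ^ 2)) (hδ : δ ≤ η / (32 * B)) (hC₁ : C₁ = 32 * B + 8)
    (hε : ε = η * θ / (32 * C₁)) (hk1 : 16 / (θ * η) ≤ k) (hk2 : 32 * B / η ≤ k) :
    (4 * B * k * δ + Real.log (1 + Real.exp (2 * ε * (C₁ * k))) / θ +
        4 * B ^ 2 * θ * k + 4 * B * k * Real.exp (4 * B * k - (C₁ * k) / 4)) / k ≤ η / 2 := by
  have hB0 : 0 < B := by linarith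
  have hk0 : (0 : ℝ) < k := lt_of_lt_of_le (by positivity) hk2
  have hC0 : 0 < C₁ := by rw [hC₁]; positivity
  have hε0 : 0 < ε := by rw [hε]; positivity
  have e1 : 4 * B * k * δ ≤ k * (η / 8) := by
    have h1 : 4 * B * k * δ ≤ 4 * B * k * (η / (32 * B)) :=
      mul_le_mul_of_nonneg_left hδ (by positivity)
    have h2 : 4 * B * k * (η / (32 * B)) = k * (η / 8) := by
      field_simp
      ring
    linarith
  have e2 : Real.log (1 + Real.exp (2 * ε * (C₁ * k))) / θ ≤ k * (η / 8) := by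
    have h1 := log_one_add (x := 2 * ε * (C₁ * k)) (by positivity)
    have h2 : 2 * ε * (C₁ * k) = θ * (k * (η / 16)) := by
      rw [hε]
      field_simp
      ring
    rw [div_le_iff₀ hθ]
    have h3 : 1 ≤ θ * (k * (η / 16)) := by
      rw [div_le_iff₀ (by positivity)] at hk1
      nlinarith
    have h4 : k * (η / 8) * θ = θ * (k * (η / 16)) + θ * (k * (η / 16)) := by ring
    rw [h2] at h1
    rw [h2, h4]
    linarith
  have e3 : 4 * B ^ 2 * θ * k ≤ k * (η / 8) := by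
    have h1 : 4 * B ^ 2 * θ * k ≤ 4 * B ^ 2 * (η / (32 * B ^ 2)) * k :=
      mul_le_mul_of_nonneg_right (mul_le_mul_of_nonneg_left hθ1 (by positivity)) hk0.le
    have h2 : 4 * B ^ 2 * (η / (32 * B ^ 2)) * k = k * (η / 8) := by
      field_simp
      ring
    linarith
  have e4 : 4 * B * k * Real.exp (4 * B * k - (C₁ * k) / 4) ≤ k * (η / 8) := by
    have h1 : 4 * B * k - (C₁ * k) / 4 ≤ -(k : ℝ) := by
      rw [hC₁]
      nlinarith
    have h2 : Real.exp (4 * B * k - (C₁ * k) / 4) ≤ 1 / k := by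
      refine (Real.exp_le_exp.2 h1).trans ?_
      rw [Real.exp_neg, ← one_div]
      refine one_div_le_one_div_of_le hk0 ?_
      have := Real.add_one_le_exp (k : ℝ)
      linarith
    have h3 : 4 * B * k * Real.exp (4 * B * k - (C₁ * k) / 4) ≤ 4 * B * k * (1 / k) :=
      mul_le_mul_of_nonneg_left h2 (by positivity)
    have h4 : 4 * B * k * (1 / k) = 4 * B := by field_simp
    have h5 : 4 * B ≤ k * (η / 8) := by
      rw [div_le_iff₀ hη] at hk2
      nlinarith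
    linarith
  rw [div_le_iff₀ hk0]
  linarith

/-- **Leaf F.** The theorem from the leaves. -/
theorem finNV76 (hb : HB ρ b) (h1 : OneP d ρ β b) (h2 : TwoP d ρ β b)
    (hM : MonT d ρ β b) (hV : VarL d ρ β b) (hP : MulT d ρ β) (hI : IncT d ρ β) :
    MainNV d ρ β := by
  classical
  rintro h hvsd ⟨K, hK⟩
  set g : ℝ := Real.log (Phi h) + Real.log (∫ t, Real.exp (β * t) ∂ρ) - lam ρ β h with hg
  have hg0 : 0 < g := by
    have : lam ρ β h < Real.log (Phi h) + Real.log (∫ t, Real.exp (β * t) ∂ρ) := hvsd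
    linarith
  obtain ⟨c₂, hc₂, hVL⟩ := hV g hg0
  obtain ⟨cI, hcI, NI, hNI⟩ := hI h (g / 2) (by linarith)
  set B : ℝ := Bc β b with hBdef
  have hβb : 0 ≤ |β| * b := mul_nonneg (abs_nonneg β) hb.b0.le
  have hB1 : 1 ≤ B := by rw [hBdef]; unfold Bc; nlinarith
  have hB0 : 0 < B := by linarith
  have hβB : 4 * |β| * b ≤ 2 * B := by rw [hBdef]; unfold Bc; nlinarith
  -- the number of the rows at the end
  obtain ⟨q, hq1, hq⟩ := q76 (R := 2 * B * (2 * Real.sqrt K + 3) / c₂) (by positivity)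
  have hq0 : (0 : ℝ) < q := by exact_mod_cast hq1
  set σ : ℝ := 1 / (2 * (2 * B * q + 1) ^ 2) with hσ
  have hσ0 : 0 < σ := by positivity
  have hσ1 : σ ≤ 1 := by
    rw [hσ, div_le_one (by positivity)]
    have h3 : 1 ≤ 2 * B * q + 1 := by
      have := mul_pos hB0 hq0
      linarith
    have h4 : 1 ≤ (2 * B * q + 1) ^ 2 := one_le_pow₀ h3
    linarith
  have hσ2 : (2 * B * q + 1) * Real.sqrt (2 * σ) ≤ 1 := by
    have h3 : 2 * σ = (1 / (2 * B * q + 1)) ^ 2 := by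
      rw [hσ]
      field_simp
    rw [h3, Real.sqrt_sq (by positivity)]
    rw [mul_one_div, div_self (by positivity)]
  set η : ℝ := σ / (2 * q) with hη
  have hη0 : 0 < η := by positivity
  -- the constants
  set θ : ℝ := min (1 / (2 * B)) (η / (32 * B ^ 2)) with hθdef
  have hθ0 : 0 < θ := lt_min (by positivity) (by positivity)
  set δ : ℝ := min (η / (32 * B)) (cI / 4) with hδdef
  have hδ0 : 0 < δ := lt_min (by positivity) (by positivity)
  set C₁ : ℝ := 32 * B + 8 with hC₁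
  have hC₁0 : 1 ≤ C₁ := by rw [hC₁]; linarith
  set ε : ℝ := η * θ / (32 * C₁) with hεdef
  have hε0 : 0 < ε := by positivity
  obtain ⟨b₁, hb₁⟩ := hP h hvsd K hK ε δ hε0 hδ0
  obtain ⟨k, hk⟩ := exists_nat_ge (max (max (16 / (θ * η)) (32 * B / η)) (max b₁ 1))
  have hk1 : 16 / (θ * η) ≤ k := (le_max_left _ _).trans ((le_max_left _ _).trans hk)
  have hk2 : 32 * B / η ≤ k := (le_max_right _ _).trans ((le_max_left _ _).trans hk)
  have hk3 : b₁ ≤ k := (le_max_left _ _).trans ((le_max_right _ _).trans hk)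
  have hk4 : (1 : ℝ) ≤ k := (le_max_right _ _).trans ((le_max_right _ _).trans hk)
  have hk5 : 1 ≤ k := by exact_mod_cast hk4
  have hE := const76 (δ := δ) (k := k) hB1 hη0 hθ0 (min_le_right _ _) (min_le_left _ _) hC₁ hεdef
    hk1 hk2
  obtain ⟨NP, hNP⟩ := hb₁ (C₁ * k)
    (hk3.trans (le_mul_of_one_le_left (Nat.cast_nonneg k) hC₁0))
  -- the number of the scales
  set C : ℝ := 2 * B * k * Real.exp (5 * B * k) with hC
  have hC0 : 0 < C := by positivity
  obtain ⟨J₀, hJ₀⟩ := exists_nat_ge (64 * B * C ^ 2 / η ^ 2)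
  set J : ℕ := J₀ + 1 with hJ
  have hJ0 : 0 < J := by omega
  have hJ1 : (0 : ℝ) < J := by exact_mod_cast hJ0
  have hJ2 : C * Real.sqrt (2 * (2 * B / J)) ≤ η / 4 := by
    have h3 : 2 * (2 * B / J) ≤ (η / (4 * C)) ^ 2 := by
      have h4 : 64 * B * C ^ 2 / η ^ 2 ≤ (J : ℝ) := hJ₀.trans (by rw [hJ]; push_cast; linarith)
      rw [div_le_iff₀ (by positivity)] at h4
      rw [div_pow, mul_div_assoc', div_le_div_iff₀ hJ1 (by positivity)]
      linarith
    have h5 : Real.sqrt (2 * (2 * B / J)) ≤ η / (4 * C) := by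
      rw [← Real.sqrt_sq (show 0 ≤ η / (4 * C) by positivity)]
      exact Real.sqrt_le_sqrt h3
    calc C * Real.sqrt (2 * (2 * B / J)) ≤ C * (η / (4 * C)) :=
          mul_le_mul_of_nonneg_left h5 hC0.le
      _ = η / 4 := by field_simp
  set Λ : ℕ := 2 * k with hΛ
  -- the lower bound of `m`
  obtain ⟨m₀, hm₀⟩ := exists_nat_ge (8 * B * (Λ ^ (J + 1) : ℕ) / η)
  set m₁ : ℕ := max m₀ (max (Λ ^ (J + 1)) (max (4 * q * Λ ^ J) 1)) with hm₁
  set N : ℕ := max (max NI NP) (4 * m₁) with hN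
  have hNI' := hNI N ((le_max_left _ _).trans (le_max_left _ _))
  have hNP' := hNP N ((le_max_right _ _).trans (le_max_left _ _))
  have hN4 : 4 * m₁ ≤ N := le_max_right _ _
  have hm₁1 : 1 ≤ m₁ := (le_max_right _ _).trans ((le_max_right _ _).trans
    ((le_max_right _ _).trans le_rfl))
  have hN0 : (0 : ℝ) < N := by
    have : 0 < N := by omega
    exact_mod_cast this
  -- the length
  have hcard : ((Finset.Ico N (2 * N)).filter fun n => ∃ τ : ℕ, 1 ≤ τ ∧ τ ≤ n ∧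
      ¬ (law d ρ).real {η | ¬ GoodN β h n τ (C₁ * k) ε η} ≤ δ).card <
      ((Finset.Ico N (2 * N)).filter fun n =>
        A ρ β h n - A ρ β h (n - 1) ≤ lam ρ β h + g / 2).card := by
    have h3 : δ * N < cI * N := by
      refine mul_lt_mul_of_pos_right ?_ hN0
      have : δ ≤ cI / 4 := min_le_right _ _
      linarith
    have h4 := hNP'.trans_lt (h3.trans_le hNI')
    exact_mod_cast h4
  obtain ⟨n, hn1, hn2⟩ := Finset.exists_mem_notMem_of_card_lt_card hcard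
  simp only [Finset.mem_filter, Finset.mem_Ico, not_and, not_exists, not_not] at hn1 hn2
  have hgood := hn2 hn1.1
  have hinc := hn1.2
  set m : ℕ := n / 4 with hm
  have hmn : 4 * m ≤ n := by omega
  have hm1 : m₁ ≤ m := by have := hn1.1.1; omega
  have hmm₀ : m₀ ≤ m := (le_max_left _ _).trans hm1
  have hmΛ : Λ ^ (J + 1) ≤ m := (le_max_left _ _).trans ((le_max_right _ _).trans hm1)
  have hmq : 4 * q * Λ ^ J ≤ m := (le_max_left _ _).trans ((le_max_right _ _).trans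
    ((le_max_right _ _).trans hm1))
  have hmpos : 0 < m := by omega
  obtain ⟨j, hj, hplat⟩ := plat76 h1 hM h hk5 hJ0 hΛ hβB hmΛ hmn hθ0 (min_le_left _ _) hε0.le
    (show 0 ≤ C₁ * (k : ℝ) by positivity) hδ0.le hB1 hgood
  set L : ℕ := Λ ^ j with hL
  have hΛ1 : 1 ≤ Λ := by omega
  have hL0 : 0 < L := Nat.pow_pos hΛ1
  have hLJ : L ≤ Λ ^ J := Nat.pow_le_pow_right hΛ1 hj.le
  have hkL : 2 * k * L ≤ Λ ^ (J + 1) := by
    rw [← hΛ, pow_succ, mul_comm]
    exact Nat.mul_le_mul_right _ hLJ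
  have h3 : 2 * (k : ℝ) * (L : ℕ) * (2 * B) ≤ η / 4 * m := by
    have h4 : 8 * B * (Λ ^ (J + 1) : ℕ) / η ≤ (m : ℝ) := hm₀.trans (by exact_mod_cast hmm₀)
    rw [div_le_iff₀ hη0] at h4
    have h5 : 2 * (k : ℝ) * (L : ℕ) ≤ (Λ ^ (J + 1) : ℕ) := by exact_mod_cast hkL
    have h6 : 2 * (k : ℝ) * (L : ℕ) * (2 * B) ≤ (Λ ^ (J + 1) : ℕ) * (2 * B) :=
      mul_le_mul_of_nonneg_right h5 (by linarith)
    linarith
  have hplat2 : ∑ t ∈ Ico m (2 * m), kk ρ β b h n t L ≤ η * m := by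
    refine hplat.trans ?_
    have h4 : (m : ℝ) * ((4 * B * k * δ + Real.log (1 + Real.exp (2 * ε * (C₁ * k))) / θ +
        4 * B ^ 2 * θ * k + 4 * B * k * Real.exp (4 * B * k - (C₁ * k) / 4)) / k +
        C * Real.sqrt (2 * (2 * B / J))) ≤ m * (η / 2 + η / 4) :=
      mul_le_mul_of_nonneg_left (add_le_add hE hJ2) (Nat.cast_nonneg m)
    have h6 := add_le_add h4 h3
    refine h6.trans (le_of_eq ?_)
    ring
  -- the block of `q` rows
  have h4qL : 4 * q * L ≤ m := (Nat.mul_le_mul_left _ hLJ).trans hmq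
  have hLm : L ≤ m := (hLJ.trans (Nat.pow_le_pow_right hΛ1 (Nat.le_succ J))).trans hmΛ
  obtain ⟨s, hs1, hs2, hs3⟩ := Fin76.pick (κ := fun t => kk ρ β b h n t L) h4qL hmpos
    (fun t ht ht' => (hM h n t (t - L) (t - L) (t + L) (t + L) le_rfl (by omega)
      (by omega) le_rfl (by omega)).1) hplat2 hη0.le
  have hO : Ord n (TT s L q) (rr s L q) := ord76 hL0 (by omega)
  have h5 := h2 h n q (TT s L q) (rr s L q) hO
  simp only [kk_eq] at h5
  set τ : ℝ := ∑ i : Fin q, kk ρ β b h n (s + (2 * i + 1) * L) L with hτ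
  have hτσ : τ ≤ σ := by
    refine hs3.trans (le_of_eq ?_)
    rw [hη]
    field_simp
  have hvap : (q : ℝ) * c₂ ≤
      ∑ i : Fin q, vap ρ β b h n (TT s L q i) (rr s L q i.castSucc) (rr s L q i.succ) := by
    have h6 : ∑ _i : Fin q, c₂ ≤
        ∑ i : Fin q, vap ρ β b h n (TT s L q i) (rr s L q i.castSucc) (rr s L q i.succ) := by
      refine sum_le_sum fun i _ => ?_
      have h7 := hO.1 i
      refine hVL h (by rw [hg]; linarith) n hinc _ _ _ h7.1 h7.2 ?_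
      simp only [rr, Fin.val_succ]
      have h8 : 2 * ((i : ℕ) + 1) * L ≤ 2 * q * L :=
        Nat.mul_le_mul_right L (by have := i.2; omega)
      omega
    rwa [sum_const, card_univ, Fintype.card_fin, nsmul_eq_mul] at h6
  have hsq : 0 < Real.sqrt ((q : ℝ) + 1) := Real.sqrt_pos.2 (by linarith)
  have h6 : (q : ℝ) * c₂ / (2 * B * Real.sqrt (q + 1)) ≤ 2 * Real.sqrt K + 2 := by
    refine (div_le_div_of_nonneg_right hvap (by positivity)).trans (h5.trans ?_)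
    have h7 : Real.sqrt (Va ρ β h n) ≤ Real.sqrt K := Real.sqrt_le_sqrt (hK n)
    have h8 : (2 * B * q + 1) * Real.sqrt (2 * τ) ≤ 1 :=
      (mul_le_mul_of_nonneg_left (Real.sqrt_le_sqrt (by linarith)) (by positivity)).trans hσ2
    have h9 : τ ≤ 1 := hτσ.trans hσ1
    have h10 : 2 * Real.sqrt (Va ρ β h n) ≤ 2 * Real.sqrt K := by linarith
    refine (add_le_add (add_le_add h10 h9) h8).trans (le_of_eq ?_)
    ring
  have h7 : 2 * Real.sqrt K + 3 ≤ (q : ℝ) * c₂ / (2 * B * Real.sqrt (q + 1)) := by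
    rw [le_div_iff₀ (by positivity)]
    have h8 : 2 * B * (2 * Real.sqrt K + 3) / c₂ * Real.sqrt (q + 1) * c₂ ≤ q * c₂ :=
      mul_le_mul_of_nonneg_right hq hc₂.le
    refine le_trans (le_of_eq ?_) h8
    field_simp
  linarith

end Pool.Agent.W_7d29a1_NV
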