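import Pool.Agent.W_7d29a1_NV.IncP92
import Pool.Agent.W_7d29a1_h46u.FreeV

/-!
The increment of the mean free energy, from a bound of the spatial increments at one length
(sites of even parity only).
-/

namespace Pool.Agent.W_7d29a1_NV.IncS10

open MeasureTheory ProbabilityTheory Filter Topology Pool.Agent.W_MP_7d29a1_pr
  Pool.Agent.W_7d29a1_h46 Pool.Agent.W_7d29a1_h46u Pool.Agent.W_7d29a1_D2.B35
  Pool.Agent.W_7d29a1_Q29 Pool.Agent.W_7d29a1_NV

/-! ### Parity -/

lemma even_vec {d : ℕ} (e : Step d) : Even ((∑ j, vec e j) - 1) := by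
  classical
  unfold vec
  rw [Finset.sum_pi_single']
  simp only [Finset.mem_univ, if_true]
  split_ifs
  · exact ⟨0, by norm_num⟩
  · exact ⟨-1, by norm_num⟩

lemma even_pos {d n : ℕ} (q : Fin n → Step d) : Even ((∑ j, pos q n j) - n) := by
  have h1 : ∑ j, pos q n j = ∑ i : Fin n, ∑ j, vec (q i) j := by
    unfold pos
    rw [Finset.sum_comm]
    refine Finset.sum_congr rfl fun j _ => ?_
    rw [Finset.sum_apply]
    exact Finset.sum_congr rfl fun i _ => by rw [if_pos i.2]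
  have h2 : ∑ j, pos q n j - n = ∑ i : Fin n, (∑ j, vec (q i) j - 1) := by
    rw [Finset.sum_sub_distrib, h1]
    simp
  rw [h2]
  exact Finset.even_sum _ fun i _ => even_vec (q i)

lemma even_vA {d : ℕ} (s : ℕ) (a : Fin d → Fin (s + 1)) :
    Even ((∑ j, vA s a j) - (d * s : ℕ)) := by
  have h1 : ∑ j, vA s a j - (d * s : ℕ) = ∑ j : Fin d, (2 * ((a j : ℕ) : ℤ) - s - s) := by
    rw [Finset.sum_sub_distrib]
    simp [vA]
  rw [h1]
  exact Finset.even_sum _ fun j _ => ⟨((a j : ℕ) : ℤ) - s, by ring⟩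

variable {d : ℕ} {ρ : Measure ℝ} [IsProbabilityMeasure ρ]

/-- Upper bound by the maximum over the end points of the walks. -/
lemma maxX10 (hd : 0 < d) (β : ℝ) (h : Vec d) (η : Env d) (m l : ℕ) {z : ℝ}
    (hz : ∀ q : Fin m → Step d, X β h (sh m (pos q m) η) l ≤ z) :
    X β h η (m + l) ≤ X β h η m + z := by
  have h1 : Z β h η (m + l) ≤ Z β h η m * Real.exp z := by
    rw [Z_add, Z_eq β h η m, Finset.sum_mul]
    refine Finset.sum_le_sum fun q _ => mul_le_mul_of_nonneg_left ?_ (wgt_pos _ _ _ _).le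
    rw [← Real.log_le_iff_le_exp (Z_pos hd _ _ _ _)]
    exact hz q
  have h2 := Real.log_le_log (Z_pos hd β h η (m + l)) h1
  rwa [Real.log_mul (Z_pos hd β h η m).ne' (Real.exp_pos z).ne', Real.log_exp] at h2

open Classical in
/-- The sites of the box with the parity of `y₀`. -/
noncomputable def bxE (d R : ℕ) (y₀ : Site d) : Finset (Site d) :=
  (boxF d R).filter fun x => Even (∑ j, (x - y₀) j)

/-- The pointwise bound. -/
lemma up10 (hd : 0 < d) (β : ℝ) (h : Vec d) (η : Env d) {m s n : ℕ} (hn : d * s ≤ n)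
    {y₀ : Site d} (hy : Even ((∑ j, y₀ j) - m)) {c : ℝ}
    (hc : ∀ x ∈ boxF d (m + d * s + s), ∀ a : Fin d → Fin (s + 1),
      -Real.log (wgt β h (sh m x η) (qA s a)) ≤ c) :
    X β h η (n + m) ≤ X β h η (m + d * s) + (X β h (sh m y₀ η) n +
      (1 / ((s : ℝ) + 1) ^ d) * ∑ x ∈ bxE d (m + d * s + s) y₀,
        |X β h (sh m x η) n - X β h (sh m y₀ η) n| + c) := by
  classical
  have e0 : n + m = (m + d * s) + (n - d * s) := by omega
  have hS : (0 : ℝ) < ((s : ℝ) + 1) ^ d := by positivity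
  rw [e0]
  refine maxX10 hd β h η (m + d * s) (n - d * s) fun q => ?_
  obtain ⟨x, hx⟩ : ∃ x, x = pos q (m + d * s) := ⟨_, rfl⟩
  rw [← hx]
  have hxb : x ∈ boxF d (m + d * s) := by rw [hx]; exact pos_mem_box q _
  obtain ⟨W, hW⟩ : ∃ W, W = X β h (sh m y₀ η) n := ⟨_, rfl⟩
  rw [← hW]
  have e1 : m + d * s - d * s = m := by omega
  have e2 : d * s + (n - d * s) = n := by omega
  have h1 : ∀ a : Fin d → Fin (s + 1), X β h (sh (m + d * s) x η) (n - d * s) ≤
      W + |X β h (sh m (x - vA s a) η) n - W| + c := by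
    intro a
    have h2 := super92 hd β h η (m := m + d * s) (s := s) (l := n - d * s) (by omega) x a
    rw [e1, e2] at h2
    have h3 := hc (x - vA s a) (vA_box s _ hxb a) a
    have h4 := le_abs_self (X β h (sh m (x - vA s a) η) n - W)
    linarith
  have hmem : ∀ a : Fin d → Fin (s + 1), x - vA s a ∈ bxE d (m + d * s + s) y₀ := by
    intro a
    unfold bxE
    rw [Finset.mem_filter]
    refine ⟨vA_box s _ hxb a, ?_⟩
    have h2 := even_pos q
    rw [← hx] at h2
    have h3 := even_vA s a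
    have h4 : ∑ j, (x - vA s a - y₀) j = (∑ j, x j - ((m + d * s : ℕ) : ℤ)) -
        (∑ j, vA s a j - ((d * s : ℕ) : ℤ)) - (∑ j, y₀ j - (m : ℤ)) := by
      have h5 : ∑ j, (x - vA s a - y₀) j = ∑ j, x j - ∑ j, vA s a j - ∑ j, y₀ j := by
        simp only [Pi.sub_apply, Finset.sum_sub_distrib]
      rw [h5]
      push_cast
      ring
    rw [h4]
    exact (h2.sub h3).sub hy
  have h5 : ((s : ℝ) + 1) ^ d * X β h (sh (m + d * s) x η) (n - d * s) ≤
      ((s : ℝ) + 1) ^ d * (W + c) + ∑ x ∈ bxE d (m + d * s + s) y₀,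
        |X β h (sh m x η) n - W| := by
    have hcard : ((Finset.univ : Finset (Fin d → Fin (s + 1))).card : ℝ) = ((s : ℝ) + 1) ^ d := by
      rw [Finset.card_univ, Fintype.card_fun, Fintype.card_fin, Fintype.card_fin]
      push_cast
      ring
    have h6 := Finset.sum_le_sum fun (a : Fin d → Fin (s + 1)) (_ : a ∈ Finset.univ) => h1 a
    rw [Finset.sum_const, nsmul_eq_mul, hcard] at h6
    have h7 : ∑ a : Fin d → Fin (s + 1), (W + |X β h (sh m (x - vA s a) η) n - W| + c) =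
        ((s : ℝ) + 1) ^ d * (W + c) +
          ∑ a : Fin d → Fin (s + 1), |X β h (sh m (x - vA s a) η) n - W| := by
      rw [Finset.sum_add_distrib, Finset.sum_add_distrib, Finset.sum_const, Finset.sum_const,
        nsmul_eq_mul, nsmul_eq_mul, hcard]
      ring
    rw [h7] at h6
    have h8 : ∑ a : Fin d → Fin (s + 1), |X β h (sh m (x - vA s a) η) n - W| ≤
        ∑ x ∈ bxE d (m + d * s + s) y₀, |X β h (sh m x η) n - W| := by
      rw [← Finset.sum_image (s := (Finset.univ : Finset (Fin d → Fin (s + 1))))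
        (g := fun a => x - vA s a) (f := fun y => |X β h (sh m y η) n - W|)
        fun a _ a' _ haa => vA_inj s x haa]
      refine Finset.sum_le_sum_of_subset_of_nonneg ?_ fun _ _ _ => abs_nonneg _
      intro y hy'
      rw [Finset.mem_image] at hy'
      obtain ⟨a, _, rfl⟩ := hy'
      exact hmem a
    linarith
  have h9 : X β h (sh (m + d * s) x η) (n - d * s) ≤
      (((s : ℝ) + 1) ^ d * (W + c) + ∑ x ∈ bxE d (m + d * s + s) y₀,
        |X β h (sh m x η) n - W|) / ((s : ℝ) + 1) ^ d := by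
    rw [le_div_iff₀ hS]
    linarith
  refine h9.trans (le_of_eq ?_)
  field_simp
  ring

/-! ### The cost of the fixed paths -/

/-- The bound of the costs of all fixed paths. -/
noncomputable def cst (β : ℝ) (h : Vec d) (m s R : ℕ) (c' : ℝ) (η : Env d) : ℝ :=
  ‖h‖ * (d * s : ℕ) + c' + ∑ x ∈ boxF d R, ∑ a : Fin d → Fin (s + 1),
    Real.exp (-β * energy (sh m x η) (qA s a) - c')

lemma cst_ge (β : ℝ) (h : Vec d) (m s R : ℕ) (c' : ℝ) (η : Env d) {x : Site d}
    (hx : x ∈ boxF d R) (a : Fin d → Fin (s + 1)) :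
    -Real.log (wgt β h (sh m x η) (qA s a)) ≤ cst β h m s R c' η := by
  unfold cst wgt
  rw [Real.log_exp]
  have h1 : -(inner ℝ h (emb (pos (qA s a) (d * s)))) ≤ ‖h‖ * (d * s : ℕ) := by
    have h2 := abs_real_inner_le_norm h (emb (pos (qA s a) (d * s)))
    rw [norm_emb] at h2
    have h3 := mul_le_mul_of_nonneg_left (nrm_pos_le (qA s a) (d * s)) (norm_nonneg h)
    have h4 := neg_abs_le (inner ℝ h (emb (pos (qA s a) (d * s))))
    linarith
  have h2 : -β * energy (sh m x η) (qA s a) - c' ≤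
      Real.exp (-β * energy (sh m x η) (qA s a) - c') := by
    have := Real.add_one_le_exp (-β * energy (sh m x η) (qA s a) - c')
    linarith
  have h3 : Real.exp (-β * energy (sh m x η) (qA s a) - c') ≤
      ∑ a : Fin d → Fin (s + 1), Real.exp (-β * energy (sh m x η) (qA s a) - c') :=
    Finset.single_le_sum (f := fun a : Fin d → Fin (s + 1) =>
      Real.exp (-β * energy (sh m x η) (qA s a) - c')) (fun _ _ => (Real.exp_pos _).le)
      (Finset.mem_univ a)
  have h4 : ∑ a : Fin d → Fin (s + 1), Real.exp (-β * energy (sh m x η) (qA s a) - c') ≤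
      ∑ x ∈ boxF d R, ∑ a : Fin d → Fin (s + 1),
        Real.exp (-β * energy (sh m x η) (qA s a) - c') :=
    Finset.single_le_sum (f := fun x => ∑ a : Fin d → Fin (s + 1),
      Real.exp (-β * energy (sh m x η) (qA s a) - c'))
      (fun _ _ => Finset.sum_nonneg fun _ _ => (Real.exp_pos _).le) hx
  linarith

lemma cst_int (hρ : EM ρ) (β : ℝ) (h : Vec d) (m s R : ℕ) (c' : ℝ) :
    Integrable (cst β h m s R c') (law d ρ) ∧
      ∫ η, cst β h m s R c' η ∂(law d ρ) = ‖h‖ * (d * s : ℕ) + c' +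
        (boxF d R).card * ((s : ℝ) + 1) ^ d *
          ((∫ t, Real.exp (-β * t) ∂ρ) ^ (d * s) * Real.exp (-c')) := by
  have h1 : ∀ (x : Site d) (a : Fin d → Fin (s + 1)),
      Integrable (fun η : Env d => Real.exp (-β * energy (sh m x η) (qA s a) - c')) (law d ρ) ∧
      ∫ η : Env d, Real.exp (-β * energy (sh m x η) (qA s a) - c') ∂(law d ρ) =
        (∫ t, Real.exp (-β * t) ∂ρ) ^ (d * s) * Real.exp (-c') := by
    intro x a
    obtain ⟨i1, e1⟩ := (FreeV_iid (d := d) (ρ := ρ)).integral_exp_energy (hρ (-β)) (qA s a)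
    have i2 : Integrable (fun η : Env d => Real.exp (-β * energy η (qA s a) - c'))
        (law d ρ) := by
      have h2 : (fun η : Env d => Real.exp (-β * energy η (qA s a) - c')) =
          fun η => Real.exp (-β * energy η (qA s a)) * Real.exp (-c') := by
        funext η
        rw [← Real.exp_add]
        rfl
      rw [h2]
      exact i1.mul_const _
    refine ⟨(mp_sh m x).integrable_comp_of_integrable i2, ?_⟩
    rw [LawU_integral (mp_sh (ρ := ρ) m x)
      (F := fun η : Env d => Real.exp (-β * energy η (qA s a) - c')) i2.aestronglyMeasurable]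
    have h2 : (fun η : Env d => Real.exp (-β * energy η (qA s a) - c')) =
        fun η => Real.exp (-β * energy η (qA s a)) * Real.exp (-c') := by
      funext η
      rw [← Real.exp_add]
      rfl
    rw [h2, integral_mul_const, e1]
  have hI : ∀ x : Site d, Integrable (fun η : Env d => ∑ a : Fin d → Fin (s + 1),
      Real.exp (-β * energy (sh m x η) (qA s a) - c')) (law d ρ) := fun x =>
    integrable_finsetSum _ fun a _ => (h1 x a).1
  have hcard : ((Finset.univ : Finset (Fin d → Fin (s + 1))).card : ℝ) = ((s : ℝ) + 1) ^ d := by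
    rw [Finset.card_univ, Fintype.card_fun, Fintype.card_fin, Fintype.card_fin]
    push_cast
    ring
  unfold cst
  refine ⟨(integrable_const _).add (integrable_finsetSum _ fun x _ => hI x), ?_⟩
  rw [integral_add (integrable_const _) (integrable_finsetSum _ fun x _ => hI x),
    integral_finsetSum _ fun x _ => hI x, integral_const]
  simp only [probReal_univ, smul_eq_mul, one_mul]
  congr 1
  rw [Finset.sum_congr rfl fun x _ => (integral_finsetSum _ fun a _ => (h1 x a).1)]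
  rw [Finset.sum_congr rfl fun x _ => Finset.sum_congr rfl fun a _ => (h1 x a).2]
  rw [Finset.sum_const, Finset.sum_const, nsmul_eq_mul, nsmul_eq_mul, hcard]
  ring

lemma int_X10 (hd : 0 < d) (hρ : EM ρ) (β : ℝ) (h : Vec d) (m : ℕ) (x : Site d) (n : ℕ) :
    Integrable (fun η => X β h (sh m x η) n) (law d ρ) ∧
      ∫ η, X β h (sh m x η) n ∂(law d ρ) = A ρ β h n := by
  have h1 := (concU (ρ := ρ) hd hρ β h n).1
  refine ⟨(mp_sh m x).integrable_comp_of_integrable h1, ?_⟩
  rw [LawU_integral (mp_sh (ρ := ρ) m x) (F := fun η => X β h η n) h1.aestronglyMeasurable]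
  rfl

lemma int_D10 (hd : 0 < d) (hρ : EM ρ) (β : ℝ) (h : Vec d) (m : ℕ) (x y₀ : Site d) (n : ℕ) :
    Integrable (fun η => |X β h (sh m x η) n - X β h (sh m y₀ η) n|) (law d ρ) ∧
      ∫ η, |X β h (sh m x η) n - X β h (sh m y₀ η) n| ∂(law d ρ) =
        ∫ η, |X β h (sh 0 (x - y₀) η) n - X β h η n| ∂(law d ρ) := by
  have h1 : Integrable (fun η => |X β h (sh 0 (x - y₀) η) n - X β h η n|) (law d ρ) :=
    ((int_X10 hd hρ β h 0 (x - y₀) n).1.sub (concU (ρ := ρ) hd hρ β h n).1).abs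
  refine ⟨((int_X10 hd hρ β h m x n).1.sub (int_X10 hd hρ β h m y₀ n).1).abs, ?_⟩
  have h2 := LawU_integral (mp_sh (ρ := ρ) m y₀)
    (F := fun η => |X β h (sh 0 (x - y₀) η) n - X β h η n|) h1.aestronglyMeasurable
  rw [← h2]
  refine integral_congr_ae (Filter.Eventually.of_forall fun η => ?_)
  show |X β h (sh m x η) n - X β h (sh m y₀ η) n| =
    |X β h (sh 0 (x - y₀) (sh m y₀ η)) n - X β h (sh m y₀ η) n|
  have h3 : sh 0 (x - y₀) (sh m y₀ η) = sh m x η := by
    funext p
    unfold sh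
    simp only
    congr 2
    rw [add_assoc, sub_add_cancel]
  rw [h3]

/-- The increment of the mean free energy. -/
lemma inc10 (hd : 0 < d) (hρ : EM ρ) (β : ℝ) (h : Vec d) {m s n : ℕ} (hn : d * s ≤ n)
    {K c' : ℝ} (hK : ∀ y ∈ boxF d (m + d * s + s + 1), Even (∑ j, y j) →
      ∫ η, |X β h (sh 0 y η) n - X β h η n| ∂(law d ρ) ≤ K) :
    A ρ β h (n + m) ≤ A ρ β h (m + d * s) + A ρ β h n +
      (boxF d (m + d * s + s)).card / ((s : ℝ) + 1) ^ d * K + (‖h‖ * (d * s : ℕ) + c' +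
        (boxF d (m + d * s + s)).card * ((s : ℝ) + 1) ^ d *
          ((∫ t, Real.exp (-β * t) ∂ρ) ^ (d * s) * Real.exp (-c'))) := by
  classical
  have hK0 : 0 ≤ K := by
    refine le_trans ?_ (hK 0 (zero_mem_boxF _) (by simp))
    exact integral_nonneg fun _ => abs_nonneg _
  obtain ⟨y₀, hy₀, hyb⟩ : ∃ y₀ : Site d, Even ((∑ j, y₀ j) - m) ∧ ∀ j, |y₀ j| ≤ 1 := by
    rcases Nat.even_or_odd m with h1 | h1
    · refine ⟨0, ?_, fun j => by simp⟩
      simpa using (Int.even_coe_nat m).2 h1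
    · refine ⟨Pi.single ⟨0, hd⟩ 1, ?_, fun j => ?_⟩
      · rw [Finset.sum_pi_single']
        simp only [Finset.mem_univ, if_true]
        have h2 : Odd (m : ℤ) := by exact_mod_cast h1
        exact odd_one.sub_odd h2
      · by_cases hj : j = ⟨0, hd⟩
        · subst hj
          simp
        · rw [Pi.single_eq_of_ne hj]
          simp
  have hpt : ∀ η, X β h η (n + m) ≤ X β h η (m + d * s) + (X β h (sh m y₀ η) n +
      (1 / ((s : ℝ) + 1) ^ d) * ∑ x ∈ bxE d (m + d * s + s) y₀,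
        |X β h (sh m x η) n - X β h (sh m y₀ η) n| +
      cst β h m s (m + d * s + s) c' η) := fun η =>
    up10 hd β h η hn hy₀ fun x hx a => cst_ge β h m s _ c' η hx a
  have i1 := (concU (ρ := ρ) hd hρ β h (n + m)).1
  have i2 := (concU (ρ := ρ) hd hρ β h (m + d * s)).1
  obtain ⟨i3, e3⟩ := int_X10 (ρ := ρ) hd hρ β h m y₀ n
  have i4 : Integrable (fun η => (1 / ((s : ℝ) + 1) ^ d) * ∑ x ∈ bxE d (m + d * s + s) y₀,
      |X β h (sh m x η) n - X β h (sh m y₀ η) n|) (law d ρ) :=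
    (integrable_finsetSum _ fun x _ => (int_D10 hd hρ β h m x y₀ n).1).const_mul _
  obtain ⟨i5, e5⟩ := cst_int (d := d) hρ β h m s (m + d * s + s) c'
  have h1 := integral_mono i1 (i2.add ((i3.add i4).add i5)) hpt
  have e4 : ∫ η, (1 / ((s : ℝ) + 1) ^ d) * ∑ x ∈ bxE d (m + d * s + s) y₀,
      |X β h (sh m x η) n - X β h (sh m y₀ η) n| ∂(law d ρ) ≤
      (boxF d (m + d * s + s)).card / ((s : ℝ) + 1) ^ d * K := by
    rw [integral_const_mul, integral_finsetSum _ fun x _ => (int_D10 hd hρ β h m x y₀ n).1]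
    have h2 : ∑ x ∈ bxE d (m + d * s + s) y₀,
        ∫ η, |X β h (sh m x η) n - X β h (sh m y₀ η) n| ∂(law d ρ) ≤
        ∑ _x ∈ bxE d (m + d * s + s) y₀, K := by
      refine Finset.sum_le_sum fun x hx => ?_
      rw [(int_D10 hd hρ β h m x y₀ n).2]
      unfold bxE at hx
      rw [Finset.mem_filter, mem_boxF] at hx
      refine hK _ ?_ hx.2
      rw [mem_boxF]
      intro j
      have h3 := hx.1 j
      have h4 := hyb j
      have h5 := abs_sub (x j) (y₀ j)
      rw [Pi.sub_apply]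
      push_cast at h3 ⊢
      linarith
    rw [Finset.sum_const, nsmul_eq_mul] at h2
    have h3 : ((bxE d (m + d * s + s) y₀).card : ℝ) ≤ (boxF d (m + d * s + s)).card := by
      exact_mod_cast Finset.card_filter_le _ _
    have h4 := h2.trans (mul_le_mul_of_nonneg_right h3 hK0)
    have h5 : (0 : ℝ) < ((s : ℝ) + 1) ^ d := by positivity
    calc _ ≤ (1 / ((s : ℝ) + 1) ^ d) * ((boxF d (m + d * s + s)).card * K) :=
          mul_le_mul_of_nonneg_left h4 (by positivity)
      _ = _ := by ring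
  have e6 : ∫ η, (X β h η (m + d * s) + (X β h (sh m y₀ η) n +
      (1 / ((s : ℝ) + 1) ^ d) * ∑ x ∈ bxE d (m + d * s + s) y₀,
        |X β h (sh m x η) n - X β h (sh m y₀ η) n| +
      cst β h m s (m + d * s + s) c' η)) ∂(law d ρ) =
      A ρ β h (m + d * s) + (A ρ β h n + (∫ η, (1 / ((s : ℝ) + 1) ^ d) *
        ∑ x ∈ bxE d (m + d * s + s) y₀,
          |X β h (sh m x η) n - X β h (sh m y₀ η) n| ∂(law d ρ)) +
        ∫ η, cst β h m s (m + d * s + s) c' η ∂(law d ρ)) := by
    have j1 : Integrable (fun η => X β h (sh m y₀ η) n + (1 / ((s : ℝ) + 1) ^ d) *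
        ∑ x ∈ bxE d (m + d * s + s) y₀,
          |X β h (sh m x η) n - X β h (sh m y₀ η) n|) (law d ρ) := i3.add i4
    have j2 : Integrable (fun η => X β h (sh m y₀ η) n + (1 / ((s : ℝ) + 1) ^ d) *
        ∑ x ∈ bxE d (m + d * s + s) y₀,
          |X β h (sh m x η) n - X β h (sh m y₀ η) n| +
        cst β h m s (m + d * s + s) c' η) (law d ρ) := j1.add i5
    rw [integral_add i2 j2, integral_add j1 i5, integral_add i3 i4, e3]
    rfl
  have h7 : A ρ β h (n + m) = ∫ η, X β h η (n + m) ∂(law d ρ) := rfl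
  rw [h7]
  refine h1.trans ?_
  refine (le_of_eq e6).trans ?_
  rw [e5]
  linarith

lemma card_box10 (d m : ℕ) : ((boxF d m).card : ℝ) = (2 * (m : ℝ) + 1) ^ d := by
  unfold boxF
  rw [Fintype.card_piFinset]
  simp only [Int.card_Icc, Finset.prod_const, Finset.card_univ, Fintype.card_fin]
  have h1 : (((m : ℤ) + 1 - (-(m : ℤ))).toNat : ℝ) = 2 * (m : ℝ) + 1 := by
    have h2 : ((m : ℤ) + 1 - (-(m : ℤ))).toNat = 2 * m + 1 := by omega
    rw [h2]
    push_cast
    ring
  push_cast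
  rw [h1]

/-- **The increment of the mean free energy in spatial form**: if the spatial increments between
the sites of the same parity are bounded at the length `n`, then the mean free energy grows from
`n` to `n + m` by at most `(lam + ε) m`, for all large `m`. -/
theorem incS10 (hd : 0 < d) (hρ : EM ρ) (β : ℝ) (h : Vec d) {ε : ℝ} (hε : 0 < ε) (K : ℝ) :
    ∃ m₁ : ℕ, ∀ m : ℕ, m₁ ≤ m → ∀ n : ℕ, m ≤ n →
      (∀ y ∈ boxF d (3 * m), Even (∑ j, y j) →
        ∫ η, |X β h (sh 0 y η) n - X β h η n| ∂(law d ρ) ≤ K) →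
      A ρ β h (n + m) - A ρ β h n ≤ (lam ρ β h + ε) * m := by
  have hdR : (1 : ℝ) ≤ d := by exact_mod_cast hd
  obtain ⟨Λ, hΛ⟩ : ∃ Λ : ℝ, Λ = lam ρ β h := ⟨_, rfl⟩
  obtain ⟨M, hM⟩ : ∃ M : ℝ, M = ∫ t, Real.exp (-β * t) ∂ρ := ⟨_, rfl⟩
  have hM0 : 0 < M := by
    rw [hM]
    exact integral_exp_pos (hρ (-β))
  obtain ⟨Q, hQ⟩ : ∃ Q : ℝ, Q = |Λ| + ‖h‖ + |Real.log M| := ⟨_, rfl⟩
  have hQ0 : 0 ≤ Q := by
    rw [hQ]
    positivity
  obtain ⟨κ, hκ⟩ : ∃ κ : ℝ, κ = min (1 / (2 * (d : ℝ))) (ε / (4 * d * (Q + 1))) := ⟨_, rfl⟩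
  have hκ0 : 0 < κ := by
    rw [hκ]
    exact lt_min (by positivity) (by positivity)
  have hκ1 : d * κ ≤ 1 / 2 := by
    have h1 : κ ≤ 1 / (2 * (d : ℝ)) := by
      rw [hκ]
      exact min_le_left _ _
    rw [le_div_iff₀ (by linarith)] at h1
    linarith
  have hκ2 : d * κ * Q ≤ ε / 4 := by
    have h1 : κ ≤ ε / (4 * d * (Q + 1)) := by
      rw [hκ]
      exact min_le_right _ _
    rw [le_div_iff₀ (by positivity)] at h1
    have h2 : 0 ≤ κ * d := by positivity
    nlinarith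
  -- the logarithm
  obtain ⟨m₂, hm₂⟩ : ∃ m₂ : ℕ, ∀ m : ℕ, m₂ ≤ m → 2 * d * Real.log m ≤ ε / 4 * m := by
    have h1 : (0 : ℝ) < ε / (8 * d) := by positivity
    have h2 := (Real.isLittleO_log_id_atTop.comp_tendsto
      (tendsto_natCast_atTop_atTop (R := ℝ))).bound h1
    obtain ⟨m₂, hm₂⟩ := eventually_atTop.1 h2
    refine ⟨m₂, fun m hm => ?_⟩
    have h3 := hm₂ m hm
    simp only [Function.comp_apply, id_eq, Real.norm_eq_abs, Nat.abs_cast] at h3
    have h4 := (le_abs_self (Real.log m)).trans h3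
    calc 2 * d * Real.log m ≤ 2 * d * (ε / (8 * d) * m) :=
          mul_le_mul_of_nonneg_left h4 (by positivity)
      _ = ε / 4 * m := by
          field_simp
          ring
  obtain ⟨m₃, hm₃⟩ := exists_nat_gt ((|K| * (7 / κ) ^ d + d * Real.log 14 + 1) / (ε / 4))
  refine ⟨m₂ + m₃ + 1, fun m hm n hmn hK => ?_⟩
  have hm1 : 1 ≤ m := by omega
  have hm0 : (1 : ℝ) ≤ m := by exact_mod_cast hm1
  obtain ⟨s, hs⟩ : ∃ s : ℕ, s = ⌊κ * m⌋₊ := ⟨_, rfl⟩
  have hs1 : (s : ℝ) ≤ κ * m := by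
    rw [hs]
    exact Nat.floor_le (by positivity)
  have hs2 : κ * m ≤ s + 1 := by
    rw [hs]
    exact (Nat.lt_floor_add_one _).le
  have hdsR : (d : ℝ) * s ≤ d * κ * m := by
    have h1 : (d : ℝ) * s ≤ d * (κ * m) := mul_le_mul_of_nonneg_left hs1 (by linarith)
    linarith
  have hds2R : 2 * ((d : ℝ) * s) ≤ m := by
    have h3 : d * κ * m ≤ 1 / 2 * m := mul_le_mul_of_nonneg_right hκ1 (by linarith)
    linarith
  have hds2 : 2 * (d * s) ≤ m := by exact_mod_cast hds2R
  have hsds : s ≤ d * s := Nat.le_mul_of_pos_left s hd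
  have hR : m + d * s + s + 1 ≤ 3 * m := by omega
  obtain ⟨c', hc'⟩ : ∃ c' : ℝ, c' = Real.log ((boxF d (m + d * s + s)).card *
      ((s : ℝ) + 1) ^ d) + (d * s : ℕ) * Real.log M := ⟨_, rfl⟩
  have hKy : ∀ y ∈ boxF d (m + d * s + s + 1), Even (∑ j, y j) →
      ∫ η, |X β h (sh 0 y η) n - X β h η n| ∂(law d ρ) ≤ |K| := by
    intro y hy hev
    refine (hK y ?_ hev).trans (le_abs_self K)
    rw [mem_boxF] at hy ⊢
    intro j
    exact (hy j).trans (by exact_mod_cast hR)
  have h0 := inc10 (ρ := ρ) hd hρ β h (m := m) (s := s) (n := n) (by omega) (c' := c') hKy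
  rw [← hM] at h0
  have hcard0 : (0 : ℝ) < (boxF d (m + d * s + s)).card := by
    rw [card_box10]
    positivity
  have hN0 : (0 : ℝ) < (boxF d (m + d * s + s)).card * ((s : ℝ) + 1) ^ d := by positivity
  have e1 : (boxF d (m + d * s + s)).card * ((s : ℝ) + 1) ^ d *
      (M ^ (d * s) * Real.exp (-c')) = 1 := by
    have h1 : Real.exp c' = (boxF d (m + d * s + s)).card * ((s : ℝ) + 1) ^ d * M ^ (d * s) := by
      rw [hc', Real.exp_add, Real.exp_log hN0, mul_comm ((d * s : ℕ) : ℝ), Real.exp_mul,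
        Real.exp_log hM0, Real.rpow_natCast]
    rw [← mul_assoc, ← h1, ← Real.exp_add, add_neg_cancel, Real.exp_zero]
  rw [e1] at h0
  have h1 : A ρ β h (m + d * s) ≤ (m + d * s) * Λ := by
    have := A_le_lam (ρ := ρ) hd hρ β h (m + d * s)
    rw [← hΛ] at this
    push_cast at this
    linarith
  have hbox : ((boxF d (m + d * s + s)).card : ℝ) ≤ (7 * m) ^ d := by
    rw [card_box10]
    refine pow_le_pow_left₀ (by positivity) ?_ d
    have h2 : ((m + d * s + s : ℕ) : ℝ) + 1 ≤ 3 * m := by exact_mod_cast hR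
    linarith
  have hs3 : (s : ℝ) + 1 ≤ 2 * m := by
    have h2 : s + 1 ≤ 2 * m := by omega
    exact_mod_cast h2
  have h2 : (boxF d (m + d * s + s)).card / ((s : ℝ) + 1) ^ d * |K| ≤ |K| * (7 / κ) ^ d := by
    rw [mul_comm]
    refine mul_le_mul_of_nonneg_left ?_ (abs_nonneg K)
    rw [div_le_iff₀ (by positivity), ← mul_pow]
    refine hbox.trans (pow_le_pow_left₀ (by positivity) ?_ d)
    have h3 : 7 / κ * (κ * m) ≤ 7 / κ * ((s : ℝ) + 1) :=
      mul_le_mul_of_nonneg_left hs2 (by positivity)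
    refine le_trans (le_of_eq ?_) h3
    field_simp
  have h3 : c' ≤ d * Real.log 14 + 2 * d * Real.log m + d * κ * |Real.log M| * m := by
    rw [hc']
    have h4 : (boxF d (m + d * s + s)).card * ((s : ℝ) + 1) ^ d ≤ (14 * (m * m)) ^ d := by
      have h5 : ((s : ℝ) + 1) ^ d ≤ (2 * m) ^ d := pow_le_pow_left₀ (by positivity) hs3 d
      calc _ ≤ (7 * (m : ℝ)) ^ d * (2 * m) ^ d :=
            mul_le_mul hbox h5 (by positivity) (by positivity)
        _ = _ := by
            rw [← mul_pow]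
            congr 1
            ring
    have h5 := Real.log_le_log hN0 h4
    have hm00 : (0 : ℝ) < m := by linarith
    have h51 : Real.log (14 * ((m : ℝ) * m)) = Real.log 14 + 2 * Real.log m := by
      rw [Real.log_mul (by norm_num) (mul_pos hm00 hm00).ne', Real.log_mul hm00.ne' hm00.ne']
      ring
    rw [Real.log_pow, h51] at h5
    have h6 : ((d * s : ℕ) : ℝ) * Real.log M ≤ d * κ * |Real.log M| * m := by
      calc ((d * s : ℕ) : ℝ) * Real.log M ≤ ((d * s : ℕ) : ℝ) * |Real.log M| :=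
            mul_le_mul_of_nonneg_left (le_abs_self _) (by positivity)
        _ ≤ (d * κ * m) * |Real.log M| := by
            refine mul_le_mul_of_nonneg_right ?_ (abs_nonneg _)
            push_cast
            exact hdsR
        _ = _ := by ring
    linarith
  have h4 : ‖h‖ * ((d * s : ℕ) : ℝ) ≤ d * κ * ‖h‖ * m := by
    calc ‖h‖ * ((d * s : ℕ) : ℝ) ≤ ‖h‖ * (d * κ * m) := by
          refine mul_le_mul_of_nonneg_left ?_ (norm_nonneg h)
          push_cast
          exact hdsR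
      _ = _ := by ring
  have h5 : (d : ℝ) * s * Λ ≤ d * κ * |Λ| * m := by
    calc (d : ℝ) * s * Λ ≤ (d : ℝ) * s * |Λ| :=
          mul_le_mul_of_nonneg_left (le_abs_self _) (by positivity)
      _ ≤ (d * κ * m) * |Λ| := mul_le_mul_of_nonneg_right hdsR (abs_nonneg _)
      _ = _ := by ring
  have h6 : d * κ * Q * m ≤ ε / 4 * m := mul_le_mul_of_nonneg_right hκ2 (by linarith)
  have h7 : d * κ * Q * m = d * κ * |Λ| * m + d * κ * ‖h‖ * m + d * κ * |Real.log M| * m := by
    rw [hQ]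
    ring
  have h8 : |K| * (7 / κ) ^ d + d * Real.log 14 + 1 ≤ ε / 4 * m := by
    have h9 : (|K| * (7 / κ) ^ d + d * Real.log 14 + 1) / (ε / 4) < m :=
      hm₃.trans_le (by exact_mod_cast (by omega : m₃ ≤ m))
    rw [div_lt_iff₀ (by positivity)] at h9
    linarith
  have h9 := hm₂ m (by omega)
  rw [← hΛ]
  nlinarith

end Pool.Agent.W_7d29a1_NV.IncS10
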