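import Mathlib

/-!
Relative entropy of finite positive weights: the elementary inequalities used in the proof that the
variances are not bounded.
-/

namespace Pool.Agent.W_7d29a1_NV.Kl52

open Finset MeasureTheory

variable {ι κ : Type*}

/-- The relative entropy `∑ p log (p / q)` of finite weights. -/
noncomputable def KL (s : Finset ι) (p q : ι → ℝ) : ℝ := ∑ a ∈ s, p a * Real.log (p a / q a)

lemma pt_ge {x y : ℝ} (hx : 0 < x) (hy : 0 < y) : x - y ≤ x * Real.log (x / y) := by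
  have h := Real.log_le_sub_one_of_pos (div_pos hy hx)
  have h2 : Real.log (x / y) = - Real.log (y / x) := by
    rw [Real.log_div hx.ne' hy.ne', Real.log_div hy.ne' hx.ne']; ring
  rw [h2]
  have h3 : x * Real.log (y / x) ≤ x * (y / x - 1) := mul_le_mul_of_nonneg_left h hx.le
  have h4 : x * (y / x - 1) = y - x := by field_simp
  linarith

lemma KL_ge {s : Finset ι} {p q : ι → ℝ} (hp : ∀ a ∈ s, 0 < p a) (hq : ∀ a ∈ s, 0 < q a) :
    ∑ a ∈ s, p a - ∑ a ∈ s, q a ≤ KL s p q := by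
  rw [← Finset.sum_sub_distrib]
  exact Finset.sum_le_sum fun a ha => pt_ge (hp a ha) (hq a ha)

/-- (K1) -/
lemma KL_nonneg {s : Finset ι} {p q : ι → ℝ} (hp : ∀ a ∈ s, 0 < p a) (hq : ∀ a ∈ s, 0 < q a)
    (hpq : ∑ a ∈ s, q a ≤ ∑ a ∈ s, p a) : 0 ≤ KL s p q := by
  have := KL_ge hp hq
  linarith

lemma pt_sqrt {x y : ℝ} (hx : 0 < x) (hy : 0 < y) :
    2 * x - 2 * (Real.sqrt x * Real.sqrt y) ≤ x * Real.log (x / y) := by
  have hsx := Real.sqrt_pos.2 hx
  have hsy := Real.sqrt_pos.2 hy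
  have h := Real.log_le_sub_one_of_pos (div_pos hsy hsx)
  have h2 : Real.log (x / y) = - (2 * Real.log (Real.sqrt y / Real.sqrt x)) := by
    rw [Real.log_div hx.ne' hy.ne', Real.log_div hsy.ne' hsx.ne', Real.log_sqrt hx.le,
      Real.log_sqrt hy.le]
    ring
  rw [h2]
  have h3 : x * Real.log (Real.sqrt y / Real.sqrt x) ≤ x * (Real.sqrt y / Real.sqrt x - 1) :=
    mul_le_mul_of_nonneg_left h hx.le
  have h4 : x * (Real.sqrt y / Real.sqrt x - 1) = Real.sqrt x * Real.sqrt y - x := by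
    have hxx : Real.sqrt x * Real.sqrt x = x := Real.mul_self_sqrt hx.le
    have : x * (Real.sqrt y / Real.sqrt x) = Real.sqrt x * Real.sqrt y := by
      rw [← mul_div_assoc, div_eq_iff hsx.ne']
      calc x * Real.sqrt y = (Real.sqrt x * Real.sqrt x) * Real.sqrt y := by rw [hxx]
        _ = _ := by ring
    rw [mul_sub, this, mul_one]
  linarith

/-- The squared Hellinger distance is at most the relative entropy. -/
lemma hell {s : Finset ι} {p q : ι → ℝ} (hp : ∀ a ∈ s, 0 < p a) (hq : ∀ a ∈ s, 0 < q a)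
    (hpq : ∑ a ∈ s, q a ≤ ∑ a ∈ s, p a) :
    ∑ a ∈ s, (Real.sqrt (p a) - Real.sqrt (q a)) ^ 2 ≤ KL s p q := by
  have h1 : ∑ a ∈ s, (Real.sqrt (p a) - Real.sqrt (q a)) ^ 2 =
      ∑ a ∈ s, (2 * p a - 2 * (Real.sqrt (p a) * Real.sqrt (q a))) +
        (∑ a ∈ s, q a - ∑ a ∈ s, p a) := by
    rw [← Finset.sum_sub_distrib, ← Finset.sum_add_distrib]
    refine Finset.sum_congr rfl fun a ha => ?_
    have e1 := Real.sq_sqrt (hp a ha).le
    have e2 := Real.sq_sqrt (hq a ha).le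
    nlinarith [e1, e2]
  have h2 : ∑ a ∈ s, (2 * p a - 2 * (Real.sqrt (p a) * Real.sqrt (q a))) ≤ KL s p q :=
    Finset.sum_le_sum fun a ha => pt_sqrt (hp a ha) (hq a ha)
  linarith

/-- (K3) -/
lemma KL_tv {s : Finset ι} {p q : ι → ℝ} (hp : ∀ a ∈ s, 0 < p a) (hq : ∀ a ∈ s, 0 < q a)
    (hp1 : ∑ a ∈ s, p a = 1) (hq1 : ∑ a ∈ s, q a = 1) :
    ∑ a ∈ s, |p a - q a| ≤ 2 * Real.sqrt (KL s p q) := by
  have hH := hell hp hq (by rw [hp1, hq1])
  have hcs := Finset.sum_mul_sq_le_sq_mul_sq s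
    (fun a => |Real.sqrt (p a) - Real.sqrt (q a)|) (fun a => Real.sqrt (p a) + Real.sqrt (q a))
  have h1 : ∑ a ∈ s, |p a - q a| =
      ∑ a ∈ s, |Real.sqrt (p a) - Real.sqrt (q a)| * (Real.sqrt (p a) + Real.sqrt (q a)) := by
    refine Finset.sum_congr rfl fun a ha => ?_
    have e1 := Real.mul_self_sqrt (hp a ha).le
    have e2 := Real.mul_self_sqrt (hq a ha).le
    have e3 : p a - q a =
        (Real.sqrt (p a) - Real.sqrt (q a)) * (Real.sqrt (p a) + Real.sqrt (q a)) := by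
      nlinarith [e1, e2]
    rw [e3, abs_mul, abs_of_nonneg (add_nonneg (Real.sqrt_nonneg (p a)) (Real.sqrt_nonneg (q a)))]
  have h2 : ∑ a ∈ s, |Real.sqrt (p a) - Real.sqrt (q a)| ^ 2 =
      ∑ a ∈ s, (Real.sqrt (p a) - Real.sqrt (q a)) ^ 2 :=
    Finset.sum_congr rfl fun a _ => sq_abs _
  have h3 : ∑ a ∈ s, (Real.sqrt (p a) + Real.sqrt (q a)) ^ 2 ≤ 4 := by
    have : ∑ a ∈ s, (Real.sqrt (p a) + Real.sqrt (q a)) ^ 2 ≤ ∑ a ∈ s, (2 * p a + 2 * q a) := by
      refine Finset.sum_le_sum fun a ha => ?_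
      have e1 := Real.sq_sqrt (hp a ha).le
      have e2 := Real.sq_sqrt (hq a ha).le
      nlinarith [sq_nonneg (Real.sqrt (p a) - Real.sqrt (q a)), e1, e2]
    have e : ∑ a ∈ s, (2 * p a + 2 * q a) = 4 := by
      rw [Finset.sum_add_distrib, ← Finset.mul_sum, ← Finset.mul_sum, hp1, hq1]; norm_num
    linarith
  have h4 : (∑ a ∈ s, |p a - q a|) ^ 2 ≤ (2 * Real.sqrt (KL s p q)) ^ 2 := by
    rw [h1]
    refine hcs.trans ?_
    rw [h2, mul_pow, Real.sq_sqrt (KL_nonneg hp hq (by rw [hp1, hq1]))]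
    have hn : 0 ≤ ∑ a ∈ s, (Real.sqrt (p a) - Real.sqrt (q a)) ^ 2 :=
      Finset.sum_nonneg fun a _ => sq_nonneg _
    nlinarith
  exact le_of_sq_le_sq h4 (by positivity)

lemma pt_abs {x y : ℝ} (hx : 0 < x) (hy : 0 < y) :
    x * |Real.log (x / y)| ≤ x * Real.log (x / y) + (|x - y| + (y - x)) := by
  rcases le_total y x with h | h
  · have h1 : 0 ≤ Real.log (x / y) := Real.log_nonneg (by rwa [one_le_div hy])
    rw [abs_of_nonneg h1, abs_of_nonneg (by linarith : (0 : ℝ) ≤ x - y)]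
    linarith
  · have h1 : Real.log (x / y) ≤ 0 :=
      Real.log_nonpos (div_nonneg hx.le hy.le) (by rwa [div_le_one hy])
    rw [abs_of_nonpos h1, abs_of_nonpos (by linarith : x - y ≤ 0)]
    have := pt_ge hx hy
    nlinarith

/-- (K2) -/
lemma KL_abs {s : Finset ι} {p q : ι → ℝ} (hp : ∀ a ∈ s, 0 < p a) (hq : ∀ a ∈ s, 0 < q a)
    (hp1 : ∑ a ∈ s, p a = 1) (hq1 : ∑ a ∈ s, q a = 1) :
    ∑ a ∈ s, p a * |Real.log (p a / q a)| ≤ KL s p q + 2 * Real.sqrt (KL s p q) := by
  have h1 : ∑ a ∈ s, p a * |Real.log (p a / q a)| ≤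
      ∑ a ∈ s, (p a * Real.log (p a / q a) + (|p a - q a| + (q a - p a))) :=
    Finset.sum_le_sum fun a ha => pt_abs (hp a ha) (hq a ha)
  rw [Finset.sum_add_distrib, Finset.sum_add_distrib, Finset.sum_sub_distrib, hp1, hq1] at h1
  have h2 := KL_tv hp hq hp1 hq1
  unfold KL at *
  linarith

open Classical in
/-- The image of the weights under the map `f`. -/
noncomputable def push (s : Finset ι) (f : ι → κ) (p : ι → ℝ) (b : κ) : ℝ :=
  ∑ a ∈ s with f a = b, p a

lemma push_pos {s : Finset ι} {f : ι → κ} {p : ι → ℝ} (hp : ∀ a ∈ s, 0 < p a) {a : ι}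
    (ha : a ∈ s) : 0 < push s f p (f a) := by
  classical
  unfold push
  refine Finset.sum_pos (fun b hb => hp b (Finset.mem_filter.1 hb).1) ⟨a, ?_⟩
  exact Finset.mem_filter.2 ⟨ha, rfl⟩

open Classical in
lemma push_pos' {s : Finset ι} {f : ι → κ} {p : ι → ℝ} (hp : ∀ a ∈ s, 0 < p a) {b : κ}
    (hb : b ∈ s.image f) : 0 < push s f p b := by
  obtain ⟨a, ha, rfl⟩ := Finset.mem_image.1 hb
  exact push_pos hp ha

open Classical in
lemma sum_push {s : Finset ι} {f : ι → κ} (p : ι → ℝ) (g : κ → ℝ) :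
    ∑ b ∈ s.image f, push s f p b * g b = ∑ a ∈ s, p a * g (f a) := by
  unfold push
  rw [← Finset.sum_fiberwise_of_maps_to (g := f) (t := s.image f)
    (fun a ha => Finset.mem_image_of_mem f ha)]
  refine Finset.sum_congr rfl fun b _ => ?_
  rw [Finset.sum_mul]
  refine Finset.sum_congr rfl fun a ha => ?_
  rw [(Finset.mem_filter.1 ha).2]

open Classical in
lemma sum_push_one {s : Finset ι} {f : ι → κ} (p : ι → ℝ) :
    ∑ b ∈ s.image f, push s f p b = ∑ a ∈ s, p a := by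
  have := sum_push (s := s) (f := f) p (fun _ => 1)
  simpa using this

/-- The weights `q` with the image under `f` changed into that of `p`: the conditional laws given
`f` are those of `q`. -/
noncomputable def rel (s : Finset ι) (f : ι → κ) (p q : ι → ℝ) (a : ι) : ℝ :=
  q a * (push s f p (f a) / push s f q (f a))

lemma rel_pos {s : Finset ι} {f : ι → κ} {p q : ι → ℝ} (hp : ∀ a ∈ s, 0 < p a)
    (hq : ∀ a ∈ s, 0 < q a) : ∀ a ∈ s, 0 < rel s f p q a := fun a ha =>
  mul_pos (hq a ha) (div_pos (push_pos hp ha) (push_pos hq ha))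

lemma sum_rel {s : Finset ι} {f : ι → κ} {p q : ι → ℝ}
    (hq : ∀ a ∈ s, 0 < q a) : ∑ a ∈ s, rel s f p q a = ∑ a ∈ s, p a := by
  classical
  unfold rel
  rw [← sum_push (s := s) (f := f) q (fun b => push s f p b / push s f q b),
    ← sum_push_one (s := s) (f := f) p]
  refine Finset.sum_congr rfl fun b hb => ?_
  have := (push_pos' hq hb).ne'
  field_simp

lemma log_rel {s : Finset ι} {f : ι → κ} {p q : ι → ℝ} (hp : ∀ a ∈ s, 0 < p a)
    (hq : ∀ a ∈ s, 0 < q a) {a : ι} (ha : a ∈ s) :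
    Real.log (p a / rel s f p q a) =
      Real.log (p a / q a) - Real.log (push s f p (f a) / push s f q (f a)) := by
  have h1 := hp a ha
  have h2 := hq a ha
  have h3 := div_pos (push_pos (f := f) hp ha) (push_pos (f := f) hq ha)
  unfold rel
  rw [Real.log_div h1.ne' (mul_pos h2 h3).ne', Real.log_mul h2.ne' h3.ne',
    Real.log_div h1.ne' h2.ne']
  ring

open Classical in
/-- (K4) The chain rule. -/
lemma KL_chain {s : Finset ι} {f : ι → κ} {p q : ι → ℝ} (hp : ∀ a ∈ s, 0 < p a)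
    (hq : ∀ a ∈ s, 0 < q a) :
    KL s p q = KL (s.image f) (push s f p) (push s f q) + KL s p (rel s f p q) := by
  have h1 : KL (s.image f) (push s f p) (push s f q) =
      ∑ a ∈ s, p a * Real.log (push s f p (f a) / push s f q (f a)) := by
    unfold KL
    exact sum_push p (fun b => Real.log (push s f p b / push s f q b))
  rw [h1]
  unfold KL
  rw [← Finset.sum_add_distrib]
  refine Finset.sum_congr rfl fun a ha => ?_
  rw [log_rel hp hq ha]
  ring

open Classical in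
/-- (K5) Data processing for a map. -/
lemma KL_map {s : Finset ι} {f : ι → κ} {p q : ι → ℝ} (hp : ∀ a ∈ s, 0 < p a)
    (hq : ∀ a ∈ s, 0 < q a) :
    KL (s.image f) (push s f p) (push s f q) ≤ KL s p q := by
  rw [KL_chain (f := f) hp hq]
  have := KL_nonneg hp (rel_pos (f := f) hp hq) (by rw [sum_rel hq])
  linarith

open Classical in
/-- (K4') The conditional laws: `D` is the difference of the entropies. -/
lemma KL_cond_abs {s : Finset ι} {f : ι → κ} {p q : ι → ℝ} (hp : ∀ a ∈ s, 0 < p a)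
    (hq : ∀ a ∈ s, 0 < q a) (hp1 : ∑ a ∈ s, p a = 1) :
    ∑ a ∈ s, p a * |Real.log (p a / q a) -
        Real.log (push s f p (f a) / push s f q (f a))| ≤
      (KL s p q - KL (s.image f) (push s f p) (push s f q)) +
        2 * Real.sqrt (KL s p q - KL (s.image f) (push s f p) (push s f q)) := by
  have h := KL_abs hp (rel_pos (f := f) hp hq) hp1 (by rw [sum_rel hq, hp1])
  have h1 : KL s p q - KL (s.image f) (push s f p) (push s f q) = KL s p (rel s f p q) := by
    rw [KL_chain (f := f) hp hq]; ring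
  rw [h1]
  refine le_trans (le_of_eq ?_) h
  refine Finset.sum_congr rfl fun a ha => ?_
  rw [log_rel hp hq ha]

/-- The log sum inequality. -/
lemma log_sum {s : Finset ι} {p q k : ι → ℝ} (hp : ∀ a ∈ s, 0 < p a) (hq : ∀ a ∈ s, 0 < q a)
    (hk : ∀ a ∈ s, 0 ≤ k a) (hpk : 0 < ∑ a ∈ s, p a * k a) (hqk : 0 < ∑ a ∈ s, q a * k a) :
    (∑ a ∈ s, p a * k a) * Real.log ((∑ a ∈ s, p a * k a) / ∑ a ∈ s, q a * k a) ≤
      ∑ a ∈ s, p a * k a * Real.log (p a / q a) := by
  set P := ∑ a ∈ s, p a * k a with hP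
  set Q := ∑ a ∈ s, q a * k a with hQ
  have h1 : ∀ a ∈ s, p a * k a * Real.log (P / Q) + (p a * k a - (P / Q) * (q a * k a)) ≤
      p a * k a * Real.log (p a / q a) := by
    intro a ha
    have hpa := hp a ha
    have hqa := hq a ha
    have hPQ : 0 < P / Q := div_pos hpk hqk
    have h2 := pt_ge hpa (mul_pos hqa hPQ)
    have h3 : Real.log (p a / (q a * (P / Q))) = Real.log (p a / q a) - Real.log (P / Q) := by
      rw [Real.log_div hpa.ne' (mul_pos hqa hPQ).ne', Real.log_mul hqa.ne' hPQ.ne',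
        Real.log_div hpa.ne' hqa.ne']
      ring
    rw [h3] at h2
    have h4 := mul_le_mul_of_nonneg_left h2 (hk a ha)
    nlinarith [h4]
  have h2 := Finset.sum_le_sum h1
  rw [Finset.sum_add_distrib, ← Finset.sum_mul, Finset.sum_sub_distrib, ← Finset.mul_sum] at h2
  rw [← hP, ← hQ] at h2
  have h3 : P / Q * Q = P := div_mul_cancel₀ P hqk.ne'
  rw [h3] at h2
  linarith

/-- (K5) Data processing for a stochastic kernel `k`. -/
lemma KL_ker {s : Finset ι} {t : Finset κ} {p q : ι → ℝ} {k : ι → κ → ℝ}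
    (hp : ∀ a ∈ s, 0 < p a) (hq : ∀ a ∈ s, 0 < q a) (hk : ∀ a ∈ s, ∀ b ∈ t, 0 ≤ k a b)
    (hk1 : ∀ a ∈ s, ∑ b ∈ t, k a b = 1) (hkt : ∀ b ∈ t, ∃ a ∈ s, 0 < k a b) :
    KL t (fun b => ∑ a ∈ s, p a * k a b) (fun b => ∑ a ∈ s, q a * k a b) ≤ KL s p q := by
  have hpos : ∀ r : ι → ℝ, (∀ a ∈ s, 0 < r a) → ∀ b ∈ t, 0 < ∑ a ∈ s, r a * k a b := by
    intro r hr b hb
    obtain ⟨a, ha, hab⟩ := hkt b hb
    exact Finset.sum_pos' (fun c hc => mul_nonneg (hr c hc).le (hk c hc b hb))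
      ⟨a, ha, mul_pos (hr a ha) hab⟩
  have h1 : KL t (fun b => ∑ a ∈ s, p a * k a b) (fun b => ∑ a ∈ s, q a * k a b) ≤
      ∑ b ∈ t, ∑ a ∈ s, p a * k a b * Real.log (p a / q a) := by
    unfold KL
    refine Finset.sum_le_sum fun b hb => ?_
    exact log_sum hp hq (fun a ha => hk a ha b hb) (hpos p hp b hb) (hpos q hq b hb)
  refine h1.trans (le_of_eq ?_)
  rw [Finset.sum_comm]
  unfold KL
  refine Finset.sum_congr rfl fun a ha => ?_
  have : ∑ b ∈ t, p a * k a b * Real.log (p a / q a) =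
      p a * Real.log (p a / q a) * ∑ b ∈ t, k a b := by
    rw [Finset.mul_sum]
    exact Finset.sum_congr rfl fun b _ => by ring
  rw [this, hk1 a ha, mul_one]

/-- (K7) The soft maximum. -/
lemma softmax {s : Finset ι} {p x : ι → ℝ} {th : ℝ} (hth : 0 < th) (hp : ∀ a ∈ s, 0 ≤ p a)
    (hp1 : ∑ a ∈ s, p a ≤ 1) :
    ∑ a ∈ s, p a * x a ≤ 1 / th * Real.log (1 + ∑ a ∈ s, Real.exp (th * x a)) := by
  set y := ∑ a ∈ s, p a * (th * x a) with hy
  have h1 : ∀ a ∈ s, p a * (Real.exp y * (1 + (th * x a - y))) ≤ p a * Real.exp (th * x a) := by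
    intro a ha
    refine mul_le_mul_of_nonneg_left ?_ (hp a ha)
    have h2 := Real.add_one_le_exp (th * x a - y)
    have h3 : Real.exp (th * x a) = Real.exp y * Real.exp (th * x a - y) := by
      rw [← Real.exp_add]; congr 1; ring
    rw [h3]
    exact mul_le_mul_of_nonneg_left (by linarith) (Real.exp_pos y).le
  have h2 := Finset.sum_le_sum h1
  have h3 : ∑ a ∈ s, p a * (Real.exp y * (1 + (th * x a - y))) =
      Real.exp y * ((∑ a ∈ s, p a) * (1 - y) + y) := by
    have : ∀ a ∈ s, p a * (Real.exp y * (1 + (th * x a - y))) =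
        Real.exp y * (p a * (1 - y)) + Real.exp y * (p a * (th * x a)) := fun a _ => by ring
    rw [Finset.sum_congr rfl this, Finset.sum_add_distrib, ← Finset.mul_sum, ← Finset.mul_sum,
      ← Finset.sum_mul, ← hy]
    ring
  have h4 : 1 - y ≤ Real.exp (-y) := by have := Real.add_one_le_exp (-y); linarith
  have h5 : Real.exp y * (1 - y) ≤ 1 := by
    have := mul_le_mul_of_nonneg_left h4 (Real.exp_pos y).le
    rwa [← Real.exp_add, add_neg_cancel, Real.exp_zero] at this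
  have h6 : ∑ a ∈ s, p a * Real.exp (th * x a) ≤ ∑ a ∈ s, Real.exp (th * x a) := by
    refine Finset.sum_le_sum fun a ha => ?_
    have hle : p a ≤ 1 := (Finset.single_le_sum hp ha).trans hp1
    have := mul_le_mul_of_nonneg_right hle (Real.exp_pos (th * x a)).le
    linarith
  have h7 : Real.exp y ≤ 1 + ∑ a ∈ s, Real.exp (th * x a) := by
    rw [h3] at h2
    have h8 : 0 ≤ (1 - ∑ a ∈ s, p a) * (1 - Real.exp y * (1 - y)) :=
      mul_nonneg (by linarith) (by linarith)
    have h9 : 0 ≤ ∑ a ∈ s, p a := Finset.sum_nonneg hp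
    nlinarith
  have h8 : y ≤ Real.log (1 + ∑ a ∈ s, Real.exp (th * x a)) := by
    rw [← Real.log_exp y]
    exact Real.log_le_log (Real.exp_pos y) h7
  have h9 : y = th * ∑ a ∈ s, p a * x a := by
    rw [hy, Finset.mul_sum]
    exact Finset.sum_congr rfl fun a _ => by ring
  rw [h9] at h8
  rw [one_div, inv_mul_eq_div, le_div_iff₀ hth]
  linarith

/-- (K6) Mixtures of the second weights. -/
lemma KL_mix {Ω : Type*} [MeasurableSpace Ω] {μ : Measure Ω} [IsProbabilityMeasure μ]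
    {s : Finset ι} {p : ι → ℝ} {q : ι → Ω → ℝ} (hp : ∀ a ∈ s, 0 < p a)
    (hq : ∀ a ∈ s, ∀ w, 0 < q a w) (hqi : ∀ a ∈ s, Integrable (q a) μ)
    (hql : ∀ a ∈ s, Integrable (fun w => Real.log (q a w)) μ) :
    KL s p (fun a => ∫ w, q a w ∂μ) ≤ ∫ w, KL s p (fun a => q a w) ∂μ := by
  have hint : ∀ a ∈ s, Integrable (fun w => p a * Real.log (p a / q a w)) μ := by
    intro a ha
    have h : (fun w => p a * Real.log (p a / q a w)) =
        fun w => p a * (Real.log (p a) - Real.log (q a w)) := by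
      funext w
      rw [Real.log_div (hp a ha).ne' (hq a ha w).ne']
    rw [h]
    exact (((integrable_const _).sub (hql a ha)).const_mul _)
  unfold KL
  rw [integral_finset_sum s hint]
  refine Finset.sum_le_sum fun a ha => ?_
  have hpa := hp a ha
  have hm : 0 < ∫ w, q a w ∂μ := by
    rw [integral_pos_iff_support_of_nonneg (fun w => (hq a ha w).le) (hqi a ha)]
    have : Function.support (q a) = Set.univ := by
      ext w; simp [(hq a ha w).ne']
    rw [this]; simp
  rw [integral_const_mul]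
  refine mul_le_mul_of_nonneg_left ?_ hpa.le
  have h1 : (fun w => Real.log (p a / q a w)) = fun w => Real.log (p a) - Real.log (q a w) := by
    funext w
    rw [Real.log_div hpa.ne' (hq a ha w).ne']
  rw [h1, integral_sub (integrable_const _) (hql a ha), integral_const,
    Real.log_div hpa.ne' hm.ne']
  simp only [probReal_univ, one_smul]
  have h2 : ∫ w, Real.log (q a w) ∂μ ≤
      ∫ w, (q a w / (∫ v, q a v ∂μ) + (Real.log (∫ v, q a v ∂μ) - 1)) ∂μ := by
    refine integral_mono (hql a ha) (((hqi a ha).div_const _).add (integrable_const _)) fun w => ?_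
    have h3 := Real.log_le_sub_one_of_pos (div_pos (hq a ha w) hm)
    rw [Real.log_div (hq a ha w).ne' hm.ne'] at h3
    simp only
    linarith
  rw [integral_add ((hqi a ha).div_const _) (integrable_const _), integral_div,
    div_self hm.ne'] at h2
  simp only [integral_const, probReal_univ, one_smul] at h2
  linarith

/-- (K8) Resampling is selection. -/
lemma selection {Ω : Type*} [MeasurableSpace Ω] {μ : Measure Ω} [IsProbabilityMeasure μ]
    {s : Finset ι} {p G : ι → Ω → ℝ} {Q : ι → ℝ} {F : Ω → ℝ}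
    (hQ : ∀ a ∈ s, 0 < Q a) (hp : ∀ a ∈ s, ∀ w, p a w = Q a * Real.exp (G a w - F w))
    (hp1 : ∀ w, ∑ a ∈ s, p a w = 1) (hG : ∀ a ∈ s, Integrable (G a) μ) (hF : Integrable F μ)
    (hm : ∀ a ∈ s, AEStronglyMeasurable (p a) μ) :
    (∀ w, Integrable (fun v => KL s (fun a => p a w) (fun a => p a v)) μ) ∧
    (∀ w, ∫ v, KL s (fun a => p a w) (fun a => p a v) ∂μ =
      ∑ a ∈ s, p a w * (G a w - ∫ v, G a v ∂μ) - (F w - ∫ v, F v ∂μ)) ∧
    Integrable (fun w => ∑ a ∈ s, p a w * (G a w - ∫ v, G a v ∂μ)) μ ∧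
    ∫ w, ∫ v, KL s (fun a => p a w) (fun a => p a v) ∂μ ∂μ =
      ∫ w, ∑ a ∈ s, p a w * (G a w - ∫ v, G a v ∂μ) ∂μ := by
  have hpos : ∀ a ∈ s, ∀ w, 0 < p a w := fun a ha w => by
    rw [hp a ha w]; exact mul_pos (hQ a ha) (Real.exp_pos _)
  have hle : ∀ a ∈ s, ∀ w, p a w ≤ 1 := fun a ha w => by
    rw [← hp1 w]; exact Finset.single_le_sum (fun b hb => (hpos b hb w).le) ha
  have hlog : ∀ a ∈ s, ∀ w v, Real.log (p a w / p a v) = (G a w - F w) - (G a v - F v) := by
    intro a ha w v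
    rw [Real.log_div (hpos a ha w).ne' (hpos a ha v).ne', hp a ha w, hp a ha v,
      Real.log_mul (hQ a ha).ne' (Real.exp_pos _).ne', Real.log_mul (hQ a ha).ne'
      (Real.exp_pos _).ne', Real.log_exp, Real.log_exp]
    ring
  have hi : ∀ w, ∀ a ∈ s, Integrable (fun v => p a w * Real.log (p a w / p a v)) μ := by
    intro w a ha
    have : (fun v => p a w * Real.log (p a w / p a v)) =
        fun v => p a w * ((G a w - F w) - (G a v - F v)) := by
      funext v; rw [hlog a ha w v]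
    rw [this]
    exact (((integrable_const _).sub ((hG a ha).sub hF)).const_mul _)
  have h2 : ∀ w, ∫ v, KL s (fun a => p a w) (fun a => p a v) ∂μ =
      ∑ a ∈ s, p a w * (G a w - ∫ v, G a v ∂μ) - (F w - ∫ v, F v ∂μ) := by
    intro w
    unfold KL
    rw [integral_finset_sum s (hi w)]
    have h3 : ∀ a ∈ s, ∫ v, p a w * Real.log (p a w / p a v) ∂μ =
        p a w * (G a w - ∫ v, G a v ∂μ) - p a w * (F w - ∫ v, F v ∂μ) := by
      intro a ha
      have : (fun v => p a w * Real.log (p a w / p a v)) =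
          fun v => p a w * ((G a w - F w) - (G a v - F v)) := by
        funext v; rw [hlog a ha w v]
      have e1 : ∫ v, (G a v - F v) ∂μ = ∫ v, G a v ∂μ - ∫ v, F v ∂μ := integral_sub (hG a ha) hF
      have e2 : ∫ v, ((G a w - F w) - (G a v - F v)) ∂μ =
          ∫ _v, (G a w - F w) ∂μ - ∫ v, (G a v - F v) ∂μ :=
        integral_sub (integrable_const _) ((hG a ha).sub hF)
      rw [this, integral_const_mul, e2, e1, integral_const]
      simp only [probReal_univ, one_smul]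
      ring
    rw [Finset.sum_congr rfl h3, Finset.sum_sub_distrib, ← Finset.sum_mul, hp1 w, one_mul]
  have h4 : Integrable (fun w => ∑ a ∈ s, p a w * (G a w - ∫ v, G a v ∂μ)) μ := by
    refine integrable_finset_sum s fun a ha => ?_
    refine ((hG a ha).sub (integrable_const _)).bdd_mul (c := 1) (hm a ha) ?_
    refine Filter.Eventually.of_forall fun w => ?_
    rw [Real.norm_eq_abs, abs_of_pos (hpos a ha w)]
    exact hle a ha w
  refine ⟨fun w => ?_, h2, h4, ?_⟩
  · unfold KL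
    exact integrable_finset_sum s (hi w)
  · simp_rw [h2]
    have e3 : ∫ w, (F w - ∫ v, F v ∂μ) ∂μ = 0 := by
      have : ∫ w, (F w - ∫ v, F v ∂μ) ∂μ = ∫ w, F w ∂μ - ∫ _w, (∫ v, F v ∂μ) ∂μ :=
        integral_sub hF (integrable_const _)
      rw [this, integral_const]; simp
    have e4 : ∫ w, (∑ a ∈ s, p a w * (G a w - ∫ v, G a v ∂μ) - (F w - ∫ v, F v ∂μ)) ∂μ =
        ∫ w, ∑ a ∈ s, p a w * (G a w - ∫ v, G a v ∂μ) ∂μ - ∫ w, (F w - ∫ v, F v ∂μ) ∂μ :=
      integral_sub h4 (hF.sub (integrable_const _))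
    rw [e4, e3, sub_zero]

end Pool.Agent.W_7d29a1_NV.Kl52
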