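import Mathlib

/-!
Two independent copies of the rows, and their mixtures.
-/

namespace Pool.Agent.W_7d29a1_NV.LO66

open MeasureTheory Filter

variable {Ω : Type*} [MeasurableSpace Ω] {P : Measure Ω} [IsProbabilityMeasure P] {k : ℕ}

lemma ib66 {W : Type*} [MeasurableSpace W] {μ : Measure W} [IsProbabilityMeasure μ] {f : W → ℝ}
    (hf : Measurable f) {C : ℝ} (hb : ∀ x, |f x| ≤ C) : Integrable f μ :=
  (integrable_const C).mono' hf.aestronglyMeasurable (Eventually.of_forall fun x => by
    rw [Real.norm_eq_abs]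
    exact hb x)

/-- The mixture: the second copy on `J`, the first copy elsewhere. -/
def mixF (J : Finset (Fin k)) (z : Fin k → Ω × Ω) : Fin k → Ω :=
  fun i => if i ∈ J then (z i).2 else (z i).1

/-- The copies of the row `j` are exchanged. -/
def sw (j : Fin k) (z : Fin k → Ω × Ω) : Fin k → Ω × Ω :=
  fun i => if i = j then (z i).swap else z i

lemma mp_mixF (J : Finset (Fin k)) :
    MeasurePreserving (mixF J) (Measure.pi fun _ : Fin k => P.prod P)
      (Measure.pi fun _ : Fin k => P) := by
  have h := measurePreserving_pi (ι := Fin k) (fun _ => P.prod P) (fun _ => P)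
    (f := fun i (a : Ω × Ω) => if i ∈ J then a.2 else a.1) (fun i => by
      by_cases hi : i ∈ J
      · simp only [hi, if_true]
        exact measurePreserving_snd
      · simp only [hi, if_false]
        exact measurePreserving_fst)
  exact h

lemma mp_sw (j : Fin k) :
    MeasurePreserving (sw j) (Measure.pi fun _ : Fin k => P.prod P)
      (Measure.pi fun _ : Fin k => P.prod P) := by
  have h := measurePreserving_pi (ι := Fin k) (fun _ => P.prod P) (fun _ => P.prod P)
    (f := fun i (a : Ω × Ω) => if i = j then a.swap else a) (fun i => by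
      by_cases hi : i = j
      · simp only [hi, if_true]
        exact Measure.measurePreserving_swap
      · simp only [hi, if_false]
        exact MeasurePreserving.id _)
  exact h

lemma mix_insert {J : Finset (Fin k)} {j : Fin k} (hj : j ∉ J) (z : Fin k → Ω × Ω) :
    mixF (insert j J) z = mixF J (sw j z) := by
  funext i
  unfold mixF sw
  by_cases hi : i = j
  · subst hi
    simp [hj]
  · simp [hi]

lemma mix_empty_sw (j : Fin k) (z : Fin k → Ω × Ω) :
    mixF ∅ (sw j z) = Function.update (mixF ∅ z) j (z j).2 := by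
  funext i
  unfold mixF sw
  by_cases hi : i = j
  · subst hi
    simp
  · simp [hi]

lemma mp_pair (j : Fin k) :
    MeasurePreserving (fun z : Fin k → Ω × Ω => (mixF ∅ z, (z j).2))
      (Measure.pi fun _ : Fin k => P.prod P) ((Measure.pi fun _ : Fin k => P).prod P) := by
  have h1 := measurePreserving_arrowProdEquivProdArrow Ω Ω (Fin k) (fun _ => P) (fun _ => P)
  have h2 := (MeasurePreserving.id (Measure.pi fun _ : Fin k => P)).prod
    (measurePreserving_eval (fun _ : Fin k => P) j)
  have h3 := h2.comp h1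
  have e : (fun z : Fin k → Ω × Ω => (mixF ∅ z, (z j).2)) =
      Prod.map id (Function.eval j) ∘ ⇑(MeasurableEquiv.arrowProdEquivProdArrow Ω Ω (Fin k)) := by
    funext z
    have h4 : mixF ∅ z = fun c => (z c).1 := by
      funext c
      simp [mixF]
    simp [h4, MeasurableEquiv.arrowProdEquivProdArrow, Equiv.arrowProdEquivProdArrow]
  rw [e]
  exact h3

lemma meas_update (j : Fin k) :
    Measurable fun w : (Fin k → Ω) × Ω => Function.update w.1 j w.2 := by
  classical
  refine measurable_pi_iff.2 fun i => ?_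
  by_cases hi : i = j
  · subst hi
    simpa using measurable_snd
  · have h : (fun w : (Fin k → Ω) × Ω => Function.update w.1 j w.2 i) = fun w => w.1 i := by
      funext w
      simp [hi]
    rw [h]
    exact (measurable_pi_apply i).comp measurable_fst

/-- The mixture is reached by changing one row after the other. -/
lemma hyb66 {S : Type*} [Fintype S] {F : (Fin k → Ω) → S → ℝ}
    (hF : ∀ s, Measurable fun ω => F ω s) {C : ℝ} (hC : ∀ ω s, |F ω s| ≤ C)
    (J : Finset (Fin k)) :
    ∫ z, ∑ s, |F (mixF ∅ z) s - F (mixF J z) s| ∂(Measure.pi fun _ : Fin k => P.prod P) ≤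
      ∑ j ∈ J, ∫ ω, ∫ x, ∑ s, |F ω s - F (Function.update ω j x) s| ∂P
        ∂(Measure.pi fun _ : Fin k => P) := by
  classical
  set ν : Measure (Fin k → Ω × Ω) := Measure.pi fun _ : Fin k => P.prod P with hν
  set μ : Measure (Fin k → Ω) := Measure.pi fun _ : Fin k => P with hμ
  have hm : ∀ J' : Finset (Fin k), Measurable fun z : Fin k → Ω × Ω =>
      ∑ s, |F (mixF ∅ z) s - F (mixF J' z) s| := fun J' =>
    Finset.measurable_sum _ fun s _ => (((hF s).comp (mp_mixF (P := P) ∅).measurable).sub
      ((hF s).comp (mp_mixF (P := P) J').measurable)).abs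
  have hb : ∀ f g : S → ℝ, (∀ s, |f s| ≤ C) → (∀ s, |g s| ≤ C) →
      |(∑ s, |f s - g s|)| ≤ Fintype.card S * (C + C) := by
    intro f g hf hg
    rw [abs_of_nonneg (Finset.sum_nonneg fun s _ => abs_nonneg _)]
    calc ∑ s, |f s - g s| ≤ ∑ _s : S, (C + C) := Finset.sum_le_sum fun s _ =>
          (abs_sub _ _).trans (add_le_add (hf s) (hg s))
      _ = Fintype.card S * (C + C) := by
          rw [Finset.sum_const, Finset.card_univ, nsmul_eq_mul]
  have hi : ∀ J' : Finset (Fin k), Integrable (fun z : Fin k → Ω × Ω =>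
      ∑ s, |F (mixF ∅ z) s - F (mixF J' z) s|) ν := fun J' =>
    ib66 (hm J') fun z => hb _ _ (hC _) (hC _)
  induction J using Finset.induction_on with
  | empty => simp
  | insert j J hj ih =>
    rw [Finset.sum_insert hj]
    have hm1 : Measurable fun w : (Fin k → Ω) × Ω =>
        ∑ s, |F w.1 s - F (Function.update w.1 j w.2) s| :=
      Finset.measurable_sum _ fun s _ => (((hF s).comp measurable_fst).sub
        ((hF s).comp (meas_update j))).abs
    have hi1 : Integrable (fun w : (Fin k → Ω) × Ω =>
        ∑ s, |F w.1 s - F (Function.update w.1 j w.2) s|) (μ.prod P) :=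
      ib66 hm1 fun w => hb _ _ (hC _) (hC _)
    have e1 : ∫ z, ∑ s, |F (mixF ∅ z) s - F (Function.update (mixF ∅ z) j (z j).2) s| ∂ν =
        ∫ ω, ∫ x, ∑ s, |F ω s - F (Function.update ω j x) s| ∂P ∂μ := by
      have h1 := mp_pair (P := P) j
      have h2 := integral_map (μ := ν) (φ := fun z : Fin k → Ω × Ω => (mixF ∅ z, (z j).2))
        h1.measurable.aemeasurable (f := fun w : (Fin k → Ω) × Ω =>
        ∑ s, |F w.1 s - F (Function.update w.1 j w.2) s|) hm1.aestronglyMeasurable
      rw [h1.map_eq, integral_prod _ hi1] at h2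
      exact h2.symm
    have e2 : ∫ z, ∑ s, |F (mixF ∅ (sw j z)) s - F (mixF J (sw j z)) s| ∂ν =
        ∫ z, ∑ s, |F (mixF ∅ z) s - F (mixF J z) s| ∂ν := by
      have h1 := mp_sw (P := P) j
      have h2 := integral_map (μ := ν) (φ := sw j)
        h1.measurable.aemeasurable (f := fun z : Fin k → Ω × Ω =>
          ∑ s, |F (mixF ∅ z) s - F (mixF J z) s|) (hm J).aestronglyMeasurable
      rw [h1.map_eq] at h2
      exact h2.symm
    have hi2 : Integrable (fun z : Fin k → Ω × Ω =>
        ∑ s, |F (mixF ∅ z) s - F (Function.update (mixF ∅ z) j (z j).2) s|) ν := by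
      have h1 := mp_pair (P := P) j
      exact h1.integrable_comp_of_integrable hi1
    have hi3 : Integrable (fun z : Fin k → Ω × Ω =>
        ∑ s, |F (mixF ∅ (sw j z)) s - F (mixF J (sw j z)) s|) ν :=
      (mp_sw (P := P) j).integrable_comp_of_integrable (hi J)
    have hpt : ∀ z : Fin k → Ω × Ω, ∑ s, |F (mixF ∅ z) s - F (mixF (insert j J) z) s| ≤
        ∑ s, |F (mixF ∅ z) s - F (Function.update (mixF ∅ z) j (z j).2) s| +
          ∑ s, |F (mixF ∅ (sw j z)) s - F (mixF J (sw j z)) s| := by
      intro z
      rw [← Finset.sum_add_distrib]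
      refine Finset.sum_le_sum fun s _ => ?_
      rw [mix_insert hj, mix_empty_sw]
      exact abs_sub_le _ _ _
    calc _ ≤ ∫ z, (∑ s, |F (mixF ∅ z) s - F (Function.update (mixF ∅ z) j (z j).2) s| +
          ∑ s, |F (mixF ∅ (sw j z)) s - F (mixF J (sw j z)) s|) ∂ν :=
          integral_mono (hi _) (hi2.add hi3) hpt
      _ = _ := by rw [integral_add hi2 hi3, e1, e2]
      _ ≤ _ := add_le_add le_rfl ih

end Pool.Agent.W_7d29a1_NV.LO66
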