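import Pool.Agent.W_7d29a1_NV.Two6
import Pool.Agent.W_7d29a1_NV.LOm66
import Pool.Agent.W_7d29a1_AC.LO42

/-!
Anti-concentration of the total weight of a selection model: the signs.
-/

namespace Pool.Agent.W_7d29a1_NV.LO66

open MeasureTheory Filter Pool.Agent.W_7d29a1_NV

section Signs

variable {Ω S : Type} [MeasurableSpace Ω] [Fintype S] {k : ℕ} {P : Measure Ω}
  {Q : S → ℝ} {u : Fin k → S → Ω → ℝ} {B : ℝ}

/-- The gain of the exchange of the row `i`. -/
noncomputable def gz (u : Fin k → S → Ω → ℝ) (s : S) (z : Fin k → Ω × Ω) (i : Fin k) : ℝ :=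
  Real.log (u i s (z i).2) - Real.log (u i s (z i).1)

/-- The number of the rows with a large exchange. -/
noncomputable def nz (u : Fin k → S → Ω → ℝ) (G : ℝ) (s : S) (z : Fin k → Ω × Ω) : ℝ :=
  ((Finset.univ.filter fun i => G ≤ |gz u s z i|).card : ℝ)

lemma gs_mix (u : Fin k → S → Ω → ℝ) (J : Finset (Fin k)) (s : S) (z : Fin k → Ω × Ω) :
    gs6 u (mixF J z) s - gs6 u (mixF ∅ z) s = ∑ i ∈ J, gz u s z i := by
  classical
  unfold gs6
  rw [← Finset.sum_sub_distrib, ← Finset.sum_filter_add_sum_filter_not Finset.univ (· ∈ J)]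
  have h1 : ∑ i ∈ Finset.univ.filter (fun i => ¬ i ∈ J), (Real.log (u i s (mixF J z i)) -
      Real.log (u i s (mixF ∅ z i))) = 0 := by
    refine Finset.sum_eq_zero fun i hi => ?_
    rw [Finset.mem_filter] at hi
    simp [mixF, hi.2]
  have h2 : Finset.univ.filter (fun i => i ∈ J) = J := by
    ext i
    simp
  rw [h1, add_zero, h2]
  refine Finset.sum_congr rfl fun i hi => ?_
  simp [mixF, gz, hi]

lemma signs_count {g : Fin k → ℝ} {G ρ : ℝ} (hG : 2 * ρ < G) (c : ℝ) :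
    (∑ J : Finset (Fin k), if |∑ i ∈ J, g i - c| ≤ ρ then (1 : ℝ) else 0) ≤
      2 ^ k * (1 / Real.sqrt (((Finset.univ.filter fun i => G ≤ |g i|).card : ℝ) + 1)) := by
  classical
  have h1 := Pool.Agent.W_7d29a1_AC.lo42 g G (c - ρ)
  rw [Fintype.card_fin] at h1
  have h2 : (∑ J : Finset (Fin k), if |∑ i ∈ J, g i - c| ≤ ρ then (1 : ℝ) else 0) ≤
      ((Finset.univ.filter fun ε : Finset (Fin k) => c - ρ ≤ ∑ i ∈ ε, g i ∧
        ∑ i ∈ ε, g i < c - ρ + G).card : ℝ) := by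
    rw [Finset.card_filter]
    push_cast
    refine Finset.sum_le_sum fun J _ => ?_
    by_cases h3 : |∑ i ∈ J, g i - c| ≤ ρ
    · have h4 := abs_le.1 h3
      rw [if_pos h3, if_pos ⟨by linarith [h4.1], by linarith [h4.2]⟩]
    · rw [if_neg h3]
      split_ifs <;> norm_num
  refine h2.trans ?_
  have hs : 0 < Real.sqrt (((Finset.univ.filter fun i => G ≤ |g i|).card : ℝ) + 1) :=
    Real.sqrt_pos.2 (by positivity)
  rw [mul_one_div, le_div_iff₀ hs]
  exact h1

lemma ratio_step (h : HT P Q u B) (z : Fin k → Ω × Ω) (J : Finset (Fin k)) {a r : ℝ}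
    (hA : |Real.log (dT Q u (mixF J z)) - a| ≤ r) (s : S) :
    prT Q u (mixF ∅ z) s ≤ 2 * |prT Q u (mixF ∅ z) s - prT Q u (mixF J z) s| +
      prT Q u (mixF ∅ z) s * (if |∑ i ∈ J, gz u s z i -
        (a - Real.log (dT Q u (mixF ∅ z)))| ≤ r + Real.log 2 then (1 : ℝ) else 0) := by
  have hp0 := prT_nn6 h (mixF ∅ z) s
  have hpJ := prT_nn6 h (mixF J z) s
  by_cases hs : Q s = 0
  · rw [prT_z6 h _ hs, prT_z6 h _ hs]
    simp
  have hp0' : 0 < prT Q u (mixF ∅ z) s := lt_of_le_of_ne hp0 fun h1 => hs (prT_z6' h _ h1.symm)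
  have hpJ' : 0 < prT Q u (mixF J z) s := lt_of_le_of_ne hpJ fun h1 => hs (prT_z6' h _ h1.symm)
  by_cases h1 : prT Q u (mixF J z) s < prT Q u (mixF ∅ z) s / 2
  · have h2 := le_abs_self (prT Q u (mixF ∅ z) s - prT Q u (mixF J z) s)
    have h3 : 0 ≤ prT Q u (mixF ∅ z) s * (if |∑ i ∈ J, gz u s z i -
        (a - Real.log (dT Q u (mixF ∅ z)))| ≤ r + Real.log 2 then (1 : ℝ) else 0) := by
      split_ifs
      · linarith
      · simp
    linarith
  by_cases h4 : 2 * prT Q u (mixF ∅ z) s < prT Q u (mixF J z) s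
  · have h2 := neg_abs_le (prT Q u (mixF ∅ z) s - prT Q u (mixF J z) s)
    have h3 : 0 ≤ prT Q u (mixF ∅ z) s * (if |∑ i ∈ J, gz u s z i -
        (a - Real.log (dT Q u (mixF ∅ z)))| ≤ r + Real.log 2 then (1 : ℝ) else 0) := by
      split_ifs
      · linarith
      · simp
    linarith
  push Not at h1 h4
  have h5 := prT_log6 h (mixF J z) (mixF ∅ z) hs
  rw [gs_mix] at h5
  have h6 : |Real.log (prT Q u (mixF J z) s / prT Q u (mixF ∅ z) s)| ≤ Real.log 2 := by
    rw [abs_le]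
    constructor
    · rw [← Real.log_inv]
      refine Real.log_le_log (by norm_num) ?_
      rw [le_div_iff₀ hp0']
      linarith
    · refine Real.log_le_log (by positivity) ?_
      rw [div_le_iff₀ hp0']
      exact h4
  have h7 : |∑ i ∈ J, gz u s z i - (a - Real.log (dT Q u (mixF ∅ z)))| ≤ r + Real.log 2 := by
    have h8 : ∑ i ∈ J, gz u s z i - (a - Real.log (dT Q u (mixF ∅ z))) =
        (Real.log (dT Q u (mixF J z)) - a) +
          Real.log (prT Q u (mixF J z) s / prT Q u (mixF ∅ z) s) := by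
      rw [h5]
      ring
    rw [h8]
    exact (abs_add_le _ _).trans (add_le_add hA h6)
  rw [if_pos h7]
  have := abs_nonneg (prT Q u (mixF ∅ z) s - prT Q u (mixF J z) s)
  linarith

lemma step1 (h : HT P Q u B) (z : Fin k → Ω × Ω) (J : Finset (Fin k)) {a r : ℝ} :
    (if |Real.log (dT Q u (mixF J z)) - a| ≤ r then (1 : ℝ) else 0) ≤
      2 * (∑ s, |prT Q u (mixF ∅ z) s - prT Q u (mixF J z) s|) +
      ∑ s, prT Q u (mixF ∅ z) s * (if |∑ i ∈ J, gz u s z i -
        (a - Real.log (dT Q u (mixF ∅ z)))| ≤ r + Real.log 2 then (1 : ℝ) else 0) := by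
  have h0 : 0 ≤ 2 * (∑ s, |prT Q u (mixF ∅ z) s - prT Q u (mixF J z) s|) +
      ∑ s, prT Q u (mixF ∅ z) s * (if |∑ i ∈ J, gz u s z i -
        (a - Real.log (dT Q u (mixF ∅ z)))| ≤ r + Real.log 2 then (1 : ℝ) else 0) := by
    refine add_nonneg (mul_nonneg (by norm_num) (Finset.sum_nonneg fun s _ => abs_nonneg _))
      (Finset.sum_nonneg fun s _ => mul_nonneg (prT_nn6 h _ s) ?_)
    split_ifs <;> norm_num
  by_cases hA : |Real.log (dT Q u (mixF J z)) - a| ≤ r
  · rw [if_pos hA]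
    calc (1 : ℝ) = ∑ s, prT Q u (mixF ∅ z) s := (prT_sum6 h _).symm
      _ ≤ ∑ s, (2 * |prT Q u (mixF ∅ z) s - prT Q u (mixF J z) s| +
          prT Q u (mixF ∅ z) s * (if |∑ i ∈ J, gz u s z i -
          (a - Real.log (dT Q u (mixF ∅ z)))| ≤ r + Real.log 2 then (1 : ℝ) else 0)) :=
          Finset.sum_le_sum fun s _ => ratio_step h z J hA s
      _ = _ := by rw [Finset.sum_add_distrib, Finset.mul_sum]
  · rw [if_neg hA]
    exact h0

/-- The mean over the signs. -/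
lemma step2 (h : HT P Q u B) (z : Fin k → Ω × Ω) {a r G : ℝ}
    (hG : 2 * (r + Real.log 2) < G) :
    (∑ J : Finset (Fin k), if |Real.log (dT Q u (mixF J z)) - a| ≤ r then (1 : ℝ) else 0) ≤
      2 * (∑ J : Finset (Fin k), ∑ s, |prT Q u (mixF ∅ z) s - prT Q u (mixF J z) s|) +
      2 ^ k * ∑ s, prT Q u (mixF ∅ z) s * (1 / Real.sqrt (nz u G s z + 1)) := by
  refine (Finset.sum_le_sum fun J _ => step1 h z J).trans ?_
  rw [Finset.sum_add_distrib, ← Finset.mul_sum]
  refine add_le_add le_rfl ?_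
  rw [Finset.sum_comm, Finset.mul_sum]
  refine Finset.sum_le_sum fun s _ => ?_
  rw [← Finset.mul_sum]
  calc prT Q u (mixF ∅ z) s * ∑ J : Finset (Fin k), (if |∑ i ∈ J, gz u s z i -
        (a - Real.log (dT Q u (mixF ∅ z)))| ≤ r + Real.log 2 then (1 : ℝ) else 0)
      ≤ prT Q u (mixF ∅ z) s * (2 ^ k * (1 / Real.sqrt (nz u G s z + 1))) :=
        mul_le_mul_of_nonneg_left (signs_count hG _) (prT_nn6 h _ s)
    _ = _ := by ring

end Signs

end Pool.Agent.W_7d29a1_NV.LO66
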