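import Mathlib

/-!
The inequality of Littlewood, Offord and Erdos.
-/

namespace Pool.Agent.W_7d29a1_NV.LO66

open Finset

/-- The central binomial coefficients. -/
lemma cb66 (n : ℕ) : n.centralBinom ^ 2 * (2 * n + 1) ≤ 16 ^ n := by
  induction n with
  | zero => simp
  | succ n ih =>
    have h1 := Nat.succ_mul_centralBinom_succ n
    have h2 : (n + 1) ^ 2 * ((n + 1).centralBinom ^ 2 * (2 * (n + 1) + 1)) ≤
        (n + 1) ^ 2 * 16 ^ (n + 1) := by
      calc (n + 1) ^ 2 * ((n + 1).centralBinom ^ 2 * (2 * (n + 1) + 1))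
          = ((n + 1) * (n + 1).centralBinom) ^ 2 * (2 * n + 3) := by ring
        _ = (2 * (2 * n + 1) * n.centralBinom) ^ 2 * (2 * n + 3) := by rw [h1]
        _ = (n.centralBinom ^ 2 * (2 * n + 1)) * (4 * (2 * n + 1) * (2 * n + 3)) := by ring
        _ ≤ 16 ^ n * (4 * (2 * n + 1) * (2 * n + 3)) := Nat.mul_le_mul_right _ ih
        _ ≤ 16 ^ n * (16 * (n + 1) ^ 2) := Nat.mul_le_mul_left _ (by nlinarith)
        _ = (n + 1) ^ 2 * 16 ^ (n + 1) := by ring
    exact Nat.le_of_mul_le_mul_left h2 (by positivity)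

/-- The largest binomial coefficient. -/
lemma half66 (N : ℕ) : (N.choose (N / 2) : ℝ) ≤ 2 ^ N / Real.sqrt (N + 1) := by
  have key : (N.choose (N / 2)) ^ 2 * (N + 1) ≤ 4 ^ N := by
    rcases Nat.even_or_odd' N with ⟨n, hn | hn⟩
    · have h1 := cb66 n
      rw [Nat.centralBinom_eq_two_mul_choose] at h1
      rw [hn, Nat.mul_div_cancel_left n (by norm_num)]
      calc (2 * n).choose n ^ 2 * (2 * n + 1) ≤ 16 ^ n := h1
        _ = 4 ^ (2 * n) := by rw [pow_mul]; norm_num
    · have h1 := cb66 (n + 1)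
      have h2 : (n + 1).centralBinom = 2 * (2 * n + 1).choose n := by
        rw [Nat.centralBinom_eq_two_mul_choose]
        have h3 : 2 * (n + 1) = (2 * n + 1) + 1 := by ring
        rw [h3, Nat.choose_succ_succ]
        have h4 : (2 * n + 1).choose (n + 1) = (2 * n + 1).choose n := by
          apply Nat.choose_symm_of_eq_add
          ring
        rw [h4]
        ring
      have h5 : (2 * n + 1) / 2 = n := by omega
      rw [hn, h5]
      rw [h2] at h1
      have h6 : 4 * ((2 * n + 1).choose n ^ 2 * (2 * n + 1 + 1)) ≤ 4 * 4 ^ (2 * n + 1) := by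
        calc 4 * ((2 * n + 1).choose n ^ 2 * (2 * n + 1 + 1))
            ≤ (2 * (2 * n + 1).choose n) ^ 2 * (2 * (n + 1) + 1) := by
              nlinarith [Nat.zero_le ((2 * n + 1).choose n ^ 2)]
          _ ≤ 16 ^ (n + 1) := h1
          _ = 4 * 4 ^ (2 * n + 1) := by
              rw [show (16 : ℕ) = 4 ^ 2 by norm_num, ← pow_mul]
              ring
      omega
  have hs : 0 < Real.sqrt ((N : ℝ) + 1) := Real.sqrt_pos.2 (by positivity)
  rw [le_div_iff₀ hs]
  refine le_of_pow_le_pow_left₀ (n := 2) two_ne_zero (by positivity) ?_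
  rw [mul_pow, Real.sq_sqrt (by positivity), ← pow_mul, mul_comm N 2, pow_mul]
  norm_num
  exact_mod_cast key

/-- Littlewood and Offord, when all the numbers are large. -/
lemma loA66 {α : Type*} [Fintype α] [DecidableEq α] (g : α → ℝ) {G ρ : ℝ} (hG : 2 * ρ < G)
    (hg : ∀ i, G ≤ |g i|) (c : ℝ) :
    ((univ.filter fun ε : α → Bool => |(∑ i, if ε i = true then g i else 0) - c| ≤ ρ).card : ℝ) ≤
      2 ^ Fintype.card α / Real.sqrt (Fintype.card α + 1) := by
  classical
  refine le_trans ?_ (half66 _)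
  have hA : ∀ ε : α → Bool, (∑ i, if ε i = true then g i else 0) =
      (∑ i, min (g i) 0) + ∑ i ∈ univ.filter (fun i => (ε i = true) ↔ 0 ≤ g i), |g i| := by
    intro ε
    rw [Finset.sum_filter, ← Finset.sum_add_distrib]
    refine Finset.sum_congr rfl fun i _ => ?_
    rcases le_or_gt 0 (g i) with h | h
    · rw [min_eq_right h, abs_of_nonneg h]
      by_cases h2 : ε i = true
      · simp [h2, h]
      · simp [h2, h]
    · rw [min_eq_left h.le, abs_of_neg h]
      by_cases h2 : ε i = true
      · simp [h2, not_le.2 h]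
      · simp [h2, not_le.2 h]
  obtain ⟨F, hF⟩ : ∃ F : (α → Bool) → Finset α,
      F = fun ε => univ.filter (fun i => (ε i = true) ↔ 0 ≤ g i) := ⟨_, rfl⟩
  have hinj : Function.Injective F := by
    intro ε ε' h
    funext i
    have h1 : i ∈ F ε ↔ i ∈ F ε' := by rw [h]
    rw [hF] at h1
    simp only [mem_filter, mem_univ, true_and] at h1
    by_cases h4 : 0 ≤ g i
    · cases h2 : ε i <;> cases h3 : ε' i <;> simp_all
    · cases h2 : ε i <;> cases h3 : ε' i <;> simp_all
  obtain ⟨T, hT⟩ : ∃ T : Finset (α → Bool),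
      T = univ.filter fun ε : α → Bool => |(∑ i, if ε i = true then g i else 0) - c| ≤ ρ :=
    ⟨_, rfl⟩
  rw [← hT, ← Finset.card_image_of_injective T hinj]
  have hanti : IsAntichain (· ⊆ ·) (SetLike.coe (T.image F)) := by
    intro A hA' B hB' hne hsub
    simp only [SetLike.mem_coe, mem_image] at hA' hB'
    obtain ⟨ε, hε, rfl⟩ := hA'
    obtain ⟨ε', hε', rfl⟩ := hB'
    rw [hT, mem_filter] at hε hε'
    have e1 := hA ε
    have e2 := hA ε'
    have h1 : ∃ i, i ∈ F ε' ∧ i ∉ F ε := by
      by_contra hcon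
      push Not at hcon
      exact hne (Finset.Subset.antisymm hsub hcon)
    obtain ⟨i, hi1, hi2⟩ := h1
    have h2 : ∑ i ∈ F ε, |g i| + |g i| ≤ ∑ i ∈ F ε', |g i| := by
      have h3 : insert i (F ε) ⊆ F ε' := by
        intro j hj
        rcases mem_insert.1 hj with h | h
        · rw [h]
          exact hi1
        · exact hsub h
      have h4 := Finset.sum_le_sum_of_subset_of_nonneg h3
        (f := fun i => |g i|) (fun j _ _ => abs_nonneg _)
      rw [Finset.sum_insert hi2] at h4
      linarith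
    have h5 := abs_le.1 hε.2
    have h6 := abs_le.1 hε'.2
    have h7 := hg i
    have h8 : F ε = univ.filter (fun i => (ε i = true) ↔ 0 ≤ g i) := by rw [hF]
    have h9 : F ε' = univ.filter (fun i => (ε' i = true) ↔ 0 ≤ g i) := by rw [hF]
    rw [← h8] at e1
    rw [← h9] at e2
    linarith [h5.1, h5.2, h6.1, h6.2]
  exact_mod_cast hanti.sperner

/-- **Littlewood, Offord, Erdos.** -/
theorem lo66 {k : ℕ} (g : Fin k → ℝ) {G ρ : ℝ} (hG : 2 * ρ < G) (c : ℝ) :
    ((univ.filter fun ε : Fin k → Bool => |(∑ i, if ε i = true then g i else 0) - c| ≤ ρ).card : ℝ)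
      ≤ 2 ^ k / Real.sqrt ((univ.filter fun i => G ≤ |g i|).card + 1) := by
  classical
  obtain ⟨p, hp⟩ : ∃ p : Fin k → Prop, p = fun i => G ≤ |g i| := ⟨_, rfl⟩
  have hp' : ∀ i, p i ↔ G ≤ |g i| := fun i => by rw [hp]
  have hcp : (univ.filter fun i => G ≤ |g i|).card = Fintype.card {i // p i} := by
    rw [Fintype.card_subtype, hp]
  have hck : Fintype.card {i // p i} + Fintype.card {i // ¬ p i} = k := by
    rw [Fintype.card_subtype_compl, Fintype.card_fin]
    have : Fintype.card {i // p i} ≤ Fintype.card (Fin k) := Fintype.card_subtype_le _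
    rw [Fintype.card_fin] at this
    omega
  obtain ⟨e, he⟩ : ∃ e : (Fin k → Bool) ≃ ({i // p i} → Bool) × ({i // ¬ p i} → Bool),
      e = Equiv.piEquivPiSubtypeProd p (fun _ => Bool) := ⟨_, rfl⟩
  have hsum : ∀ ε : Fin k → Bool, (∑ i, if ε i = true then g i else 0) =
      (∑ i : {i // p i}, if (e ε).1 i = true then g i else 0) +
        ∑ i : {i // ¬ p i}, if (e ε).2 i = true then g i else 0 := by
    intro ε
    rw [← Fintype.sum_subtype_add_sum_subtype p (fun i => if ε i = true then g i else 0), he]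
    rfl
  have hcard : (univ.filter fun ε : Fin k → Bool =>
      |(∑ i, if ε i = true then g i else 0) - c| ≤ ρ).card =
      ∑ δ : {i // ¬ p i} → Bool, (univ.filter fun ε : {i // p i} → Bool =>
        |(∑ i : {i // p i}, if ε i = true then g i else 0) -
          (c - ∑ i : {i // ¬ p i}, if δ i = true then g i else 0)| ≤ ρ).card := by
    rw [Finset.card_filter]
    simp only [Finset.card_filter]
    rw [← Equiv.sum_comp e.symm, Fintype.sum_prod_type_right]
    refine Finset.sum_congr rfl fun δ _ => Finset.sum_congr rfl fun ε _ => ?_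
    rw [hsum]
    simp only [Equiv.apply_symm_apply]
    congr 2
    ring_nf
  rw [hcard, hcp]
  push_cast
  refine (Finset.sum_le_sum fun δ _ => loA66 (fun i : {i // p i} => g i) hG
    (fun i => (hp' i).1 i.2) _).trans ?_
  rw [Finset.sum_const, Finset.card_univ, Fintype.card_fun, Fintype.card_bool, nsmul_eq_mul]
  push_cast
  rw [← mul_div_assoc, ← pow_add]
  have h1 : Fintype.card {i // ¬ p i} + Fintype.card {i // p i} = k := by omega
  rw [h1]

end Pool.Agent.W_7d29a1_NV.LO66
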