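import Pool.Agent.W_7d29a1_NV.LOi66

/-!
Anti-concentration of the total weight of a selection model: the integrals.
-/

namespace Pool.Agent.W_7d29a1_NV.LO66

open MeasureTheory Filter Pool.Agent.W_7d29a1_NV

section Int

variable {Ω S : Type} [MeasurableSpace Ω] [Fintype S] {k : ℕ} {P : Measure Ω}
  [IsProbabilityMeasure P] {Q : S → ℝ} {u : Fin k → S → Ω → ℝ} {B : ℝ}

/-- The dependence of the class on the row `i`. -/
noncomputable def tT (P : Measure Ω) (Q : S → ℝ) (u : Fin k → S → Ω → ℝ) (i : Fin k) : ℝ :=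
  ∫ ω, ∫ x, ∑ s, |prT Q u ω s - prT Q u (Function.update ω i x) s| ∂P
    ∂(Measure.pi fun _ : Fin k => P)

/-- The mean law of the class. -/
noncomputable def gb (P : Measure Ω) (Q : S → ℝ) (u : Fin k → S → Ω → ℝ) (s : S) : ℝ :=
  ∫ ω, prT Q u ω s ∂(Measure.pi fun _ : Fin k => P)

/-- The probability of a large gain. -/
noncomputable def qb (P : Measure Ω) (u : Fin k → S → Ω → ℝ) (G : ℝ) (i : Fin k) (s : S) : ℝ :=
  P.real {x | 2 * Real.exp (-G) < u i s x}

lemma cW_meas (h : HT P Q u B) (i : Fin k) (s : S) : Measurable fun ω => cW Q u i ω s := by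
  unfold cW
  exact (Finset.measurable_prod _ fun j _ => (h.um j s).comp (measurable_pi_apply j)).const_mul _

lemma dW_meas (h : HT P Q u B) (i : Fin k) : Measurable fun ω => dW Q u i ω := by
  unfold dW
  exact Finset.measurable_sum _ fun s _ => cW_meas h i s

lemma pd_meas (h : HT P Q u B) (i : Fin k) : Measurable fun w : (Fin k → Ω) × Ω =>
    ∑ s, |prT Q u w.1 s - prT Q u (Function.update w.1 i w.2) s| :=
  Finset.measurable_sum _ fun s _ => (((prT_meas6 h s).comp measurable_fst).sub
    ((prT_meas6 h s).comp (meas_update i))).abs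

lemma d1 (h : HT P Q u B) (ω ω' : Fin k → Ω) (s : S) : |prT Q u ω s - prT Q u ω' s| ≤ 1 := by
  have h1 := prT_le6 h ω s
  have h2 := prT_nn6 h ω s
  have h3 := prT_le6 h ω' s
  have h4 := prT_nn6 h ω' s
  exact abs_le.2 ⟨by linarith, by linarith⟩

lemma sum_abs_bd {f : S → ℝ} (hf : ∀ s, |f s| ≤ 1) : |(∑ s, |f s|)| ≤ Fintype.card S := by
  rw [abs_of_nonneg (Finset.sum_nonneg fun s _ => abs_nonneg _)]
  calc ∑ s, |f s| ≤ ∑ _s : S, (1 : ℝ) := Finset.sum_le_sum fun s _ => hf s
    _ = Fintype.card S := by simp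

lemma pd_int (h : HT P Q u B) (i : Fin k) : Integrable (fun w : (Fin k → Ω) × Ω =>
    ∑ s, |prT Q u w.1 s - prT Q u (Function.update w.1 i w.2) s|)
    ((Measure.pi fun _ : Fin k => P).prod P) :=
  ib66 (pd_meas h i) fun w => sum_abs_bd fun s => d1 h _ _ s

lemma tT_prod (h : HT P Q u B) (i : Fin k) : tT P Q u i = ∫ w : (Fin k → Ω) × Ω,
    (∑ s, |prT Q u w.1 s - prT Q u (Function.update w.1 i w.2) s|)
      ∂((Measure.pi fun _ : Fin k => P).prod P) := by
  rw [integral_prod _ (pd_int h i)]
  rfl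

lemma tT_nn (P : Measure Ω) (Q : S → ℝ) (u : Fin k → S → Ω → ℝ) (i : Fin k) : 0 ≤ tT P Q u i :=
  integral_nonneg fun _ => integral_nonneg fun _ => Finset.sum_nonneg fun _ _ => abs_nonneg _

/-- The set of the environments where the total weight is not small. -/
def aS (P : Measure Ω) (Q : S → ℝ) (u : Fin k → S → Ω → ℝ) (G : ℝ) (i : Fin k) :
    Set (Fin k → Ω) := {ω | -G < Real.log (dT Q u ω) -
      Real.log (∫ x, dT Q u (Function.update ω i x) ∂P)}

lemma aS_meas (h : HT P Q u B) (G : ℝ) (i : Fin k) : MeasurableSet (aS P Q u G i) := by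
  unfold aS
  simp only [dW_eq h i]
  exact measurableSet_lt measurable_const ((Real.measurable_log.comp (dT_meas6 h)).sub
    (Real.measurable_log.comp (dW_meas h i)))

/-- The mean law of the classes with a large gain. -/
lemma bigI (h : HT P Q u B) (i : Fin k) (G : ℝ) :
    ∫ ω, (∑ s, prT Q u ω s * (if 2 * Real.exp (-G) < u i s (ω i) then (1 : ℝ) else 0))
      ∂(Measure.pi fun _ : Fin k => P) ≤
      (Measure.pi fun _ : Fin k => P).real (aS P Q u G i) + 2 * Real.exp B * tT P Q u i := by
  classical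
  set μ : Measure (Fin k → Ω) := Measure.pi fun _ : Fin k => P with hμ
  have hsm : ∀ s, MeasurableSet {ω : Fin k → Ω | 2 * Real.exp (-G) < u i s (ω i)} := fun s =>
    measurableSet_lt measurable_const ((h.um i s).comp (measurable_pi_apply i))
  have hL : Measurable fun ω : Fin k → Ω =>
      ∑ s, prT Q u ω s * (if 2 * Real.exp (-G) < u i s (ω i) then (1 : ℝ) else 0) :=
    Finset.measurable_sum _ fun s _ => (prT_meas6 h s).mul
      (Measurable.ite (hsm s) measurable_const measurable_const)
  have hLi : Integrable (fun ω : Fin k → Ω =>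
      ∑ s, prT Q u ω s * (if 2 * Real.exp (-G) < u i s (ω i) then (1 : ℝ) else 0)) μ :=
    ib66 hL (C := 1) fun ω => prm6 h ω fun s => by split_ifs <;> norm_num
  have hom : Measurable fun ω : Fin k → Ω =>
      ∑ s, |prT Q u ω s - cW Q u i ω s / dW Q u i ω| :=
    Finset.measurable_sum _ fun s _ =>
      ((prT_meas6 h s).sub ((cW_meas h i s).div (dW_meas h i))).abs
  have hob : ∀ ω s, |prT Q u ω s - cW Q u i ω s / dW Q u i ω| ≤ 1 := by
    intro ω s
    have h1 := prT_le6 h ω s
    have h2 := prT_nn6 h ω s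
    have h3 : cW Q u i ω s / dW Q u i ω ≤ 1 := by
      rw [div_le_one (dW_pos h i ω)]
      exact Finset.single_le_sum (fun t _ => cW_nn h i ω t) (Finset.mem_univ s)
    have h4 : 0 ≤ cW Q u i ω s / dW Q u i ω := div_nonneg (cW_nn h i ω s) (dW_pos h i ω).le
    exact abs_le.2 ⟨by linarith, by linarith⟩
  have hoi : Integrable (fun ω : Fin k → Ω =>
      ∑ s, |prT Q u ω s - cW Q u i ω s / dW Q u i ω|) μ :=
    ib66 hom fun ω => sum_abs_bd fun s => hob ω s
  have hid : Integrable (fun ω : Fin k → Ω => (if -G < Real.log (dT Q u ω) -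
      Real.log (∫ x, dT Q u (Function.update ω i x) ∂P) then (1 : ℝ) else 0)) μ :=
    ib66 (Measurable.ite (aS_meas h G i) measurable_const measurable_const) (C := 1) fun ω => by
      split_ifs <;> norm_num
  have h1 := integral_mono hLi (hid.add (hoi.const_mul 2)) fun ω => big_le h i ω G
  refine h1.trans ?_
  have e1 : ∫ ω, ((fun ω : Fin k → Ω => (if -G < Real.log (dT Q u ω) -
      Real.log (∫ x, dT Q u (Function.update ω i x) ∂P) then (1 : ℝ) else 0)) +
      fun ω => 2 * ∑ s, |prT Q u ω s - cW Q u i ω s / dW Q u i ω|) ω ∂μ =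
      μ.real (aS P Q u G i) + 2 * ∫ ω, ∑ s, |prT Q u ω s - cW Q u i ω s / dW Q u i ω| ∂μ := by
    rw [integral_add' hid (hoi.const_mul 2), integral_const_mul]
    congr 1
    have e2 : (fun ω : Fin k → Ω => (if -G < Real.log (dT Q u ω) -
        Real.log (∫ x, dT Q u (Function.update ω i x) ∂P) then (1 : ℝ) else 0)) =
        (aS P Q u G i).indicator fun _ => (1 : ℝ) := by
      funext ω
      by_cases hω : -G < Real.log (dT Q u ω) -
          Real.log (∫ x, dT Q u (Function.update ω i x) ∂P)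
      · rw [Set.indicator_of_mem (show ω ∈ aS P Q u G i from hω), if_pos hω]
      · rw [Set.indicator_of_notMem (show ω ∉ aS P Q u G i from hω), if_neg hω]
    rw [e2, integral_indicator_const _ (aS_meas h G i)]
    simp
  rw [e1]
  have h2 : ∫ ω, ∑ s, |prT Q u ω s - cW Q u i ω s / dW Q u i ω| ∂μ ≤
      Real.exp B * tT P Q u i := by
    have hin : ∀ ω : Fin k → Ω, ∀ s, Integrable (fun x =>
        |prT Q u ω s - prT Q u (Function.update ω i x) s|) P := fun ω s =>
      ib66 (measurable_const.sub ((prT_meas6 h s).comp (upd_meas i ω))).abs (C := 1) fun x => by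
        rw [abs_abs]
        exact d1 h _ _ s
    have h3 : ∀ ω : Fin k → Ω, ∑ s, |prT Q u ω s - cW Q u i ω s / dW Q u i ω| ≤
        Real.exp B * ∫ x, ∑ s, |prT Q u ω s - prT Q u (Function.update ω i x) s| ∂P := by
      intro ω
      rw [integral_finsetSum _ fun s _ => hin ω s, Finset.mul_sum]
      exact Finset.sum_le_sum fun s _ => off_le h i ω s
    have h4 := integral_mono hoi ((pd_int h i).integral_prod_left.const_mul (Real.exp B)) h3
    refine h4.trans (le_of_eq ?_)
    rw [integral_const_mul]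
    rfl
  linarith

/-- The mean law of the classes where the row `i` has often a large gain. -/
lemma qbar (h : HT P Q u B) (hB : 0 ≤ B) (i : Fin k) (G : ℝ) :
    ∑ s, gb P Q u s * qb P u G i s ≤
      (Measure.pi fun _ : Fin k => P).real (aS P Q u G i) + 3 * Real.exp B * tT P Q u i := by
  classical
  set μ : Measure (Fin k → Ω) := Measure.pi fun _ : Fin k => P with hμ
  have hsm : ∀ s, MeasurableSet {x : Ω | 2 * Real.exp (-G) < u i s x} := fun s =>
    measurableSet_lt measurable_const (h.um i s)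
  have him : ∀ s, Measurable fun x : Ω =>
      (if 2 * Real.exp (-G) < u i s x then (1 : ℝ) else 0) := fun s =>
    Measurable.ite (hsm s) measurable_const measurable_const
  have hi1 : ∀ s x, |(if 2 * Real.exp (-G) < u i s x then (1 : ℝ) else 0)| ≤ 1 := fun s x => by
    split_ifs <;> norm_num
  have hpi : ∀ s, Integrable (fun ω => prT Q u ω s) μ := fun s =>
    ib66 (prT_meas6 h s) (C := 1) fun ω => by
      rw [abs_of_nonneg (prT_nn6 h ω s)]
      exact prT_le6 h ω s
  have hii : ∀ s, Integrable (fun x : Ω =>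
      (if 2 * Real.exp (-G) < u i s x then (1 : ℝ) else 0)) P := fun s =>
    ib66 (him s) (hi1 s)
  have hq : ∀ s, qb P u G i s =
      ∫ x, (if 2 * Real.exp (-G) < u i s x then (1 : ℝ) else 0) ∂P := by
    intro s
    have e2 : (fun x : Ω => (if 2 * Real.exp (-G) < u i s x then (1 : ℝ) else 0)) =
        {x : Ω | 2 * Real.exp (-G) < u i s x}.indicator fun _ => (1 : ℝ) := by
      funext x
      by_cases hx : 2 * Real.exp (-G) < u i s x
      · rw [Set.indicator_of_mem (show x ∈ {x : Ω | 2 * Real.exp (-G) < u i s x} from hx),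
          if_pos hx]
      · rw [Set.indicator_of_notMem (show x ∉ {x : Ω | 2 * Real.exp (-G) < u i s x} from hx),
          if_neg hx]
    rw [e2, integral_indicator_const _ (hsm s)]
    simp [qb]
  have hprod : ∀ s, gb P Q u s * qb P u G i s = ∫ w : (Fin k → Ω) × Ω, prT Q u w.1 s *
      (if 2 * Real.exp (-G) < u i s w.2 then (1 : ℝ) else 0) ∂(μ.prod P) := by
    intro s
    rw [hq s, integral_prod_mul (fun ω => prT Q u ω s)
      (fun x => (if 2 * Real.exp (-G) < u i s x then (1 : ℝ) else 0))]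
    rfl
  have hm1 : ∀ s, Measurable fun w : (Fin k → Ω) × Ω => prT Q u w.1 s *
      (if 2 * Real.exp (-G) < u i s w.2 then (1 : ℝ) else 0) := fun s =>
    ((prT_meas6 h s).comp measurable_fst).mul ((him s).comp measurable_snd)
  have hI1 : ∀ s, Integrable (fun w : (Fin k → Ω) × Ω => prT Q u w.1 s *
      (if 2 * Real.exp (-G) < u i s w.2 then (1 : ℝ) else 0)) (μ.prod P) := fun s =>
    ib66 (hm1 s) (C := 1 * 1) fun w => by
      rw [abs_mul]
      exact mul_le_mul (by
        rw [abs_of_nonneg (prT_nn6 h _ s)]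
        exact prT_le6 h _ s) (hi1 s _) (abs_nonneg _) (by norm_num)
  obtain ⟨H, hH⟩ : ∃ H : (Fin k → Ω) → ℝ, H = fun ω =>
      ∑ s, prT Q u ω s * (if 2 * Real.exp (-G) < u i s (ω i) then (1 : ℝ) else 0) := ⟨_, rfl⟩
  have hHm : Measurable H := by
    rw [hH]
    exact Finset.measurable_sum _ fun s _ => (prT_meas6 h s).mul
      ((him s).comp (measurable_pi_apply i))
  have hHb : ∀ ω, |H ω| ≤ 1 := fun ω => by
    rw [hH]
    exact prm6 h ω fun s => hi1 s _
  have hHi : Integrable H μ := ib66 hHm hHb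
  have hmp := mp_upd66 (P := P) i
  have hHi2 : Integrable (fun w : (Fin k → Ω) × Ω => H (Function.update w.1 i w.2))
      (μ.prod P) := hmp.integrable_comp_of_integrable hHi
  have eH : ∫ w : (Fin k → Ω) × Ω, H (Function.update w.1 i w.2) ∂(μ.prod P) =
      ∫ ω, H ω ∂μ := by
    have h2 := integral_map (μ := μ.prod P) (φ := fun w : (Fin k → Ω) × Ω =>
      Function.update w.1 i w.2) hmp.measurable.aemeasurable (f := H) hHm.aestronglyMeasurable
    rw [hmp.map_eq] at h2
    exact h2.symm
  have hpt : ∀ w : (Fin k → Ω) × Ω, (∑ s, prT Q u w.1 s *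
      (if 2 * Real.exp (-G) < u i s w.2 then (1 : ℝ) else 0)) ≤
      (∑ s, |prT Q u w.1 s - prT Q u (Function.update w.1 i w.2) s|) +
        H (Function.update w.1 i w.2) := by
    intro w
    rw [hH]
    simp only
    rw [← Finset.sum_add_distrib]
    refine Finset.sum_le_sum fun s _ => ?_
    rw [Function.update_self]
    have h1 := le_abs_self (prT Q u w.1 s - prT Q u (Function.update w.1 i w.2) s)
    have h2 := abs_nonneg (prT Q u w.1 s - prT Q u (Function.update w.1 i w.2) s)
    split_ifs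
    · linarith
    · linarith
  simp only [hprod]
  rw [← integral_finsetSum _ fun s _ => hI1 s]
  have h5 := integral_mono (integrable_finsetSum _ fun s _ => hI1 s) ((pd_int h i).add hHi2) hpt
  refine h5.trans ?_
  have e5 : ∫ w : (Fin k → Ω) × Ω, ((fun w : (Fin k → Ω) × Ω =>
      ∑ s, |prT Q u w.1 s - prT Q u (Function.update w.1 i w.2) s|) +
      fun w : (Fin k → Ω) × Ω => H (Function.update w.1 i w.2)) w ∂(μ.prod P) =
        tT P Q u i + ∫ ω, H ω ∂μ := by
    rw [integral_add' (pd_int h i) hHi2, eH, tT_prod h i]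
  rw [e5]
  have h6 := bigI h i G
  have h7 : ∫ ω, H ω ∂μ ≤ μ.real (aS P Q u G i) + 2 * Real.exp B * tT P Q u i := by
    rw [hH]
    exact h6
  have h8 : tT P Q u i ≤ Real.exp B * tT P Q u i := by
    have := Real.one_le_exp hB
    have := tT_nn P Q u i
    nlinarith
  linarith

end Int

end Pool.Agent.W_7d29a1_NV.LO66
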