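import Pool.Agent.W_7d29a1_NV.LOe66
import Pool.Agent.W_7d29a1_NV.Cheb42
import Pool.Agent.W_7d29a1_AC.DefsAC8

/-!
Anti-concentration of the total weight of a selection model: the theorem.
-/

namespace Pool.Agent.W_7d29a1_NV.LO66

open MeasureTheory Filter Pool.Agent.W_7d29a1_NV

section Fin

variable {Ω S : Type} [MeasurableSpace Ω] [Fintype S] {k : ℕ} {P : Measure Ω}
  [IsProbabilityMeasure P] {Q : S → ℝ} {u : Fin k → S → Ω → ℝ} {B : ℝ}

/-- The exchange of the row `i` is large. -/
def aG (u : Fin k → S → Ω → ℝ) (G : ℝ) (s : S) (i : Fin k) : Set (Ω × Ω) :=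
  {w | G ≤ |Real.log (u i s w.2) - Real.log (u i s w.1)|}

lemma aG_meas (h : HT P Q u B) (G : ℝ) (s : S) (i : Fin k) : MeasurableSet (aG u G s i) :=
  measurableSet_le measurable_const (((Real.measurable_log.comp (h.um i s)).comp
    measurable_snd).sub ((Real.measurable_log.comp (h.um i s)).comp measurable_fst)).abs

/-- A gain of mean one is often not small. -/
lemma half_le (h : HT P Q u B) (i : Fin k) (s : S) :
    Real.exp (-B) / 2 ≤ P.real {x | 1 / 2 ≤ u i s x} := by
  classical
  have hS : MeasurableSet {x | 1 / 2 ≤ u i s x} := measurableSet_le measurable_const (h.um i s)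
  have h1 : ∀ x, u i s x ≤ 1 / 2 + Real.exp B *
      ({x | 1 / 2 ≤ u i s x}.indicator (fun _ => (1 : ℝ)) x) := by
    intro x
    by_cases hx : 1 / 2 ≤ u i s x
    · rw [Set.indicator_of_mem (show x ∈ {x | 1 / 2 ≤ u i s x} from hx)]
      have := h.hi i s x
      linarith
    · rw [Set.indicator_of_notMem (show x ∉ {x | 1 / 2 ≤ u i s x} from hx)]
      push Not at hx
      linarith
  have hi : Integrable ({x | 1 / 2 ≤ u i s x}.indicator fun _ => (1 : ℝ)) P :=
    (integrable_const (1 : ℝ)).indicator hS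
  have h2 := integral_mono (u_int66 h i s) ((integrable_const (1 / 2 : ℝ)).add
    (hi.const_mul (Real.exp B))) h1
  have e1 : ∫ x, ((fun _ : Ω => (1 / 2 : ℝ)) + fun x => Real.exp B *
      ({x | 1 / 2 ≤ u i s x}.indicator (fun _ => (1 : ℝ)) x)) x ∂P =
      1 / 2 + Real.exp B * P.real {x | 1 / 2 ≤ u i s x} := by
    rw [integral_add' (integrable_const _) (hi.const_mul _), integral_const_mul,
      integral_indicator_const _ hS]
    simp
  rw [e1, h.u1 i s] at h2
  rw [Real.exp_neg, div_eq_mul_inv, inv_mul_le_iff₀ (Real.exp_pos _)]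
  linarith

/-- The exchange is large with a probability bounded below, in a localised class. -/
lemma loc_le (h : HT P Q u B) (i : Fin k) (s : S) {G : ℝ} (hq : qb P u G i s ≤ 1 / 2) :
    Real.exp (-B) / 4 ≤ (P.prod P).real (aG u (G - 2 * Real.log 2) s i) := by
  have h1 : {x | u i s x ≤ 2 * Real.exp (-G)} ×ˢ {x | 1 / 2 ≤ u i s x} ⊆
      aG u (G - 2 * Real.log 2) s i := by
    rintro ⟨x, y⟩ ⟨hx, hy⟩
    simp only [Set.mem_setOf_eq] at hx hy
    have h2 : Real.log (u i s x) ≤ Real.log 2 - G := by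
      have h3 := Real.log_le_log (ht_pos6 h i s x) hx
      rw [Real.log_mul (by norm_num) (Real.exp_ne_zero _), Real.log_exp] at h3
      linarith
    have h4 : -Real.log 2 ≤ Real.log (u i s y) := by
      rw [← Real.log_inv]
      exact Real.log_le_log (by norm_num) (by linarith)
    show G - 2 * Real.log 2 ≤ |Real.log (u i s y) - Real.log (u i s x)|
    have := le_abs_self (Real.log (u i s y) - Real.log (u i s x))
    linarith
  refine le_trans ?_ (measureReal_mono h1)
  rw [measureReal_prod_prod]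
  have h5 : 1 / 2 ≤ P.real {x | u i s x ≤ 2 * Real.exp (-G)} := by
    have hS : MeasurableSet {x | 2 * Real.exp (-G) < u i s x} :=
      measurableSet_lt measurable_const (h.um i s)
    have h6 := probReal_compl_eq_one_sub (μ := P) hS
    have h7 : {x | 2 * Real.exp (-G) < u i s x}ᶜ = {x | u i s x ≤ 2 * Real.exp (-G)} := by
      ext x
      simp
    rw [h7] at h6
    rw [h6]
    unfold qb at hq
    linarith
  have h8 := half_le h i s
  have h9 : 0 < Real.exp (-B) := Real.exp_pos _
  calc Real.exp (-B) / 4 = 1 / 2 * (Real.exp (-B) / 2) := by ring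
    _ ≤ _ := mul_le_mul h5 h8 (by positivity) measureReal_nonneg

/-- The inverse square root of the number of the large exchanges. -/
noncomputable def hz (u : Fin k → S → Ω → ℝ) (G : ℝ) (s : S) (z : Fin k → Ω × Ω) : ℝ :=
  1 / Real.sqrt (nz u G s z + 1)

lemma nz_nn (u : Fin k → S → Ω → ℝ) (G : ℝ) (s : S) (z : Fin k → Ω × Ω) : 0 ≤ nz u G s z :=
  Nat.cast_nonneg _

lemma hz_nn (u : Fin k → S → Ω → ℝ) (G : ℝ) (s : S) (z : Fin k → Ω × Ω) : 0 ≤ hz u G s z := by
  unfold hz
  positivity

lemma hz_le (u : Fin k → S → Ω → ℝ) (G : ℝ) (s : S) (z : Fin k → Ω × Ω) : hz u G s z ≤ 1 := by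
  unfold hz
  have h1 := nz_nn u G s z
  have h2 : 1 ≤ Real.sqrt (nz u G s z + 1) := by
    rw [Real.one_le_sqrt]
    linarith
  rw [div_le_one (by linarith)]
  exact h2

lemma nz_eq (u : Fin k → S → Ω → ℝ) (G : ℝ) (s : S) (z : Fin k → Ω × Ω) :
    nz u G s z = ∑ i, (aG u G s i).indicator (fun _ => (1 : ℝ)) (z i) := by
  classical
  unfold nz
  rw [Finset.card_filter]
  push_cast
  refine Finset.sum_congr rfl fun i _ => ?_
  by_cases hi : G ≤ |gz u s z i|
  · rw [if_pos hi, Set.indicator_of_mem (show z i ∈ aG u G s i from hi)]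
  · rw [if_neg hi, Set.indicator_of_notMem (show z i ∉ aG u G s i from hi)]

lemma hz_meas (h : HT P Q u B) (G : ℝ) (s : S) : Measurable (hz u G s) := by
  unfold hz
  simp only [nz_eq]
  refine measurable_const.div (Measurable.sqrt (Measurable.add_const ?_ _))
  refine Finset.measurable_sum _ fun i _ => ?_
  exact (measurable_const.indicator (aG_meas h G s i)).comp (measurable_pi_apply i)

/-- The mean of the inverse square root. -/
lemma hz_int (h : HT P Q u B) (hk : 0 < k) (s : S) (G : ℝ) :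
    ∫ z, hz u (G - 2 * Real.log 2) s z ∂(Measure.pi fun _ : Fin k => P.prod P) ≤
      8 / (Real.exp (-B) / 4 * k) + 2 / Real.sqrt (Real.exp (-B) / 4 * k) +
        4 / k * ∑ i, qb P u G i s := by
  classical
  have hk0 : (0 : ℝ) < k := by exact_mod_cast hk
  have hq0 : ∀ i, 0 ≤ qb P u G i s := fun i => measureReal_nonneg
  obtain ⟨J, hJ⟩ : ∃ J : Finset (Fin k), J = Finset.univ.filter fun i => qb P u G i s ≤ 1 / 2 :=
    ⟨_, rfl⟩
  have hsum0 : 0 ≤ 4 / (k : ℝ) * ∑ i, qb P u G i s :=
    mul_nonneg (by positivity) (Finset.sum_nonneg fun i _ => hq0 i)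
  by_cases hc : k ≤ 2 * J.card
  · have h1 := cheb42 (ν := P.prod P) hk (fun i => aG u (G - 2 * Real.log 2) s i)
      (fun i => aG_meas h _ s i) J hc (p := Real.exp (-B) / 4) (by positivity) (fun i hi => by
        rw [hJ, Finset.mem_filter] at hi
        exact loc_le h i s hi.2)
    have h2 : ∀ z : Fin k → Ω × Ω, hz u (G - 2 * Real.log 2) s z =
        1 / Real.sqrt (((Finset.univ.filter fun i => z i ∈
          aG u (G - 2 * Real.log 2) s i).card : ℝ) + 1) := by
      intro z
      unfold hz nz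
      congr 3
    simp only [h2]
    have h3 : ∫ z : Fin k → Ω × Ω, 1 / Real.sqrt (((Finset.univ.filter fun i => z i ∈
          aG u (G - 2 * Real.log 2) s i).card : ℝ) + 1)
          ∂(Measure.pi fun _ : Fin k => P.prod P) ≤
        8 / (Real.exp (-B) / 4 * k) + 2 / Real.sqrt (Real.exp (-B) / 4 * k) := by
      convert h1 using 3
    linarith
  · push Not at hc
    have h1 : ∫ z, hz u (G - 2 * Real.log 2) s z ∂(Measure.pi fun _ : Fin k => P.prod P) ≤ 1 := by
      have h2 := norm_integral_le_of_norm_le_const (μ := Measure.pi fun _ : Fin k => P.prod P)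
        (f := fun z => hz u (G - 2 * Real.log 2) s z) (C := 1)
        (Eventually.of_forall fun z => by
          rw [Real.norm_eq_abs, abs_of_nonneg (hz_nn _ _ _ _)]
          exact hz_le _ _ _ _)
      have h3 := (le_abs_self _).trans h2
      simpa using h3
    have h4 : (k : ℝ) / 4 ≤ ∑ i, qb P u G i s := by
      have h5 : ∑ i, qb P u G i s ≥ ∑ i ∈ Jᶜ, qb P u G i s :=
        Finset.sum_le_sum_of_subset_of_nonneg (Finset.subset_univ _) fun i _ _ => hq0 i
      have h6 : ∑ i ∈ Jᶜ, (1 / 2 : ℝ) ≤ ∑ i ∈ Jᶜ, qb P u G i s := by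
        refine Finset.sum_le_sum fun i hi => ?_
        rw [hJ, Finset.mem_compl, Finset.mem_filter] at hi
        by_contra h7
        push Not at h7
        exact hi ⟨Finset.mem_univ _, h7.le⟩
      rw [Finset.sum_const, nsmul_eq_mul, Finset.card_compl, Fintype.card_fin] at h6
      have h8 : k ≤ 2 * (k - J.card) := by omega
      have h9 : (k : ℝ) ≤ 2 * ((k - J.card : ℕ) : ℝ) := by exact_mod_cast h8
      linarith
    have h10 : 1 ≤ 4 / (k : ℝ) * ∑ i, qb P u G i s := by
      rw [div_mul_eq_mul_div, le_div_iff₀ hk0]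
      linarith
    have h11 : 0 ≤ 8 / (Real.exp (-B) / 4 * k) + 2 / Real.sqrt (Real.exp (-B) / 4 * k) := by
      positivity
    linarith

/-- The law of the class against its mean. -/
lemma mean_law (h : HT P Q u B) :
    ∫ ω, ∑ s, |prT Q u ω s - gb P Q u s| ∂(Measure.pi fun _ : Fin k => P) ≤
      ∑ i, tT P Q u i := by
  classical
  set μ : Measure (Fin k → Ω) := Measure.pi fun _ : Fin k => P with hμ
  set ν : Measure (Fin k → Ω × Ω) := Measure.pi fun _ : Fin k => P.prod P with hν
  have hpi : ∀ s, Integrable (fun ω => prT Q u ω s) μ := fun s =>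
    ib66 (prT_meas6 h s) (C := 1) fun ω => by
      rw [abs_of_nonneg (prT_nn6 h ω s)]
      exact prT_le6 h ω s
  have h1 := hyb66 (P := P) (F := fun ω s => prT Q u ω s) (fun s => prT_meas6 h s) (C := 1)
    (fun ω s => by
      rw [abs_of_nonneg (prT_nn6 h ω s)]
      exact prT_le6 h ω s) Finset.univ
  refine le_trans ?_ h1
  -- the two copies
  have hmm : Measurable fun w : (Fin k → Ω) × (Fin k → Ω) =>
      ∑ s, |prT Q u w.1 s - prT Q u w.2 s| :=
    Finset.measurable_sum _ fun s _ => (((prT_meas6 h s).comp measurable_fst).sub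
      ((prT_meas6 h s).comp measurable_snd)).abs
  have hmi : Integrable (fun w : (Fin k → Ω) × (Fin k → Ω) =>
      ∑ s, |prT Q u w.1 s - prT Q u w.2 s|) (μ.prod μ) :=
    ib66 hmm fun w => sum_abs_bd fun s => d1 h _ _ s
  have hmp := measurePreserving_arrowProdEquivProdArrow Ω Ω (Fin k) (fun _ => P) (fun _ => P)
  have e1 : ∫ z, ∑ s, |prT Q u (mixF ∅ z) s - prT Q u (mixF Finset.univ z) s| ∂ν =
      ∫ w : (Fin k → Ω) × (Fin k → Ω), ∑ s, |prT Q u w.1 s - prT Q u w.2 s| ∂(μ.prod μ) := by
    have h2 := integral_map (μ := ν)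
      (φ := ⇑(MeasurableEquiv.arrowProdEquivProdArrow Ω Ω (Fin k)))
      hmp.measurable.aemeasurable (f := fun w : (Fin k → Ω) × (Fin k → Ω) =>
        ∑ s, |prT Q u w.1 s - prT Q u w.2 s|) hmm.aestronglyMeasurable
    rw [hmp.map_eq] at h2
    rw [h2]
    refine integral_congr_ae (Eventually.of_forall fun z => ?_)
    have h4 : mixF ∅ z = fun c => (z c).1 := by
      funext c
      simp [mixF]
    have h5 : mixF Finset.univ z = fun c => (z c).2 := by
      funext c
      simp [mixF]
    simp [h4, h5, MeasurableEquiv.arrowProdEquivProdArrow, Equiv.arrowProdEquivProdArrow]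
  rw [e1, integral_prod _ hmi]
  have hin : ∀ ω : Fin k → Ω, ∀ s, Integrable (fun ω' => |prT Q u ω s - prT Q u ω' s|) μ :=
    fun ω s => ib66 (measurable_const.sub (prT_meas6 h s)).abs (C := 1) fun ω' => by
      rw [abs_abs]
      exact d1 h _ _ s
  have hpt : ∀ ω : Fin k → Ω, ∑ s, |prT Q u ω s - gb P Q u s| ≤
      ∫ ω', ∑ s, |prT Q u ω s - prT Q u ω' s| ∂μ := by
    intro ω
    rw [integral_finsetSum _ fun s _ => hin ω s]
    refine Finset.sum_le_sum fun s _ => ?_
    have e2 : prT Q u ω s - gb P Q u s = ∫ ω', (prT Q u ω s - prT Q u ω' s) ∂μ := by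
      rw [integral_sub (integrable_const _) (hpi s)]
      simp [gb, hμ]
    rw [e2]
    exact abs_integral_le_integral_abs
  exact integral_mono_of_nonneg (Eventually.of_forall fun ω =>
    Finset.sum_nonneg fun s _ => abs_nonneg _) hmi.integral_prod_left (Eventually.of_forall hpt)

end Fin

end Pool.Agent.W_7d29a1_NV.LO66
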