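import Pool.Agent.W_7d29a1_NV.LO66

/-!
Anti-concentration of the total weight of a selection model: the law of the class without one row.
-/

namespace Pool.Agent.W_7d29a1_NV.LO66

open MeasureTheory Filter Pool.Agent.W_7d29a1_NV

section Off

variable {Ω S : Type} [MeasurableSpace Ω] [Fintype S] {k : ℕ} {P : Measure Ω}
  [IsProbabilityMeasure P] {Q : S → ℝ} {u : Fin k → S → Ω → ℝ} {B : ℝ}

/-- The update of one row preserves the law. -/
lemma mp_upd66 (i : Fin k) :
    MeasurePreserving (fun w : (Fin k → Ω) × Ω => Function.update w.1 i w.2)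
      ((Measure.pi fun _ : Fin k => P).prod P) (Measure.pi fun _ : Fin k => P) := by
  refine ⟨meas_update i, ?_⟩
  have h1 := mp_pair (P := P) i
  have h2 := (mp_mixF (P := P) ∅).comp (mp_sw (P := P) i)
  have h3 : (fun w : (Fin k → Ω) × Ω => Function.update w.1 i w.2) ∘
      (fun z : Fin k → Ω × Ω => (mixF ∅ z, (z i).2)) = mixF ∅ ∘ sw i := by
    funext z
    exact (mix_empty_sw i z).symm
  rw [← h1.map_eq, Measure.map_map (meas_update i) h1.measurable, h3]
  exact h2.map_eq

/-- The weight of the class without the row `i`. -/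
noncomputable def cW (Q : S → ℝ) (u : Fin k → S → Ω → ℝ) (i : Fin k) (ω : Fin k → Ω) (s : S) : ℝ :=
  Q s * ∏ j ∈ Finset.univ.erase i, u j s (ω j)

lemma wT_upd (Q : S → ℝ) (u : Fin k → S → Ω → ℝ) (i : Fin k) (ω : Fin k → Ω) (x : Ω) (s : S) :
    wT Q u (Function.update ω i x) s = cW Q u i ω s * u i s x := by
  classical
  unfold wT cW
  rw [← Finset.mul_prod_erase Finset.univ _ (Finset.mem_univ i), Function.update_self]
  have h1 : ∏ j ∈ Finset.univ.erase i, u j s (Function.update ω i x j) =
      ∏ j ∈ Finset.univ.erase i, u j s (ω j) := by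
    refine Finset.prod_congr rfl fun j hj => ?_
    rw [Function.update_of_ne (Finset.ne_of_mem_erase hj)]
  rw [h1]
  ring

lemma wT_self (Q : S → ℝ) (u : Fin k → S → Ω → ℝ) (i : Fin k) (ω : Fin k → Ω) (s : S) :
    wT Q u ω s = cW Q u i ω s * u i s (ω i) := by
  have h := wT_upd Q u i ω (ω i) s
  rwa [Function.update_eq_self] at h

lemma cW_nn (h : HT P Q u B) (i : Fin k) (ω : Fin k → Ω) (s : S) : 0 ≤ cW Q u i ω s :=
  mul_nonneg (h.q0 s) (Finset.prod_nonneg fun j _ => (ht_pos6 h j s _).le)

/-- The total weight without the row `i`. -/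
noncomputable def dW (Q : S → ℝ) (u : Fin k → S → Ω → ℝ) (i : Fin k) (ω : Fin k → Ω) : ℝ :=
  ∑ s, cW Q u i ω s

lemma u_int66 (h : HT P Q u B) (i : Fin k) (s : S) : Integrable (u i s) P :=
  ib66 (h.um i s) (C := Real.exp B) fun x => by
    rw [abs_of_pos (ht_pos6 h i s x)]
    exact h.hi i s x

lemma dW_eq (h : HT P Q u B) (i : Fin k) (ω : Fin k → Ω) :
    ∫ x, dT Q u (Function.update ω i x) ∂P = dW Q u i ω := by
  unfold dT dW
  simp only [wT_upd]
  rw [integral_finsetSum _ fun s _ => (u_int66 h i s).const_mul _]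
  refine Finset.sum_congr rfl fun s _ => ?_
  rw [integral_const_mul, h.u1 i s, mul_one]

lemma dT_dW (h : HT P Q u B) (i : Fin k) (ω : Fin k → Ω) :
    Real.exp (-B) * dW Q u i ω ≤ dT Q u ω ∧ dT Q u ω ≤ Real.exp B * dW Q u i ω := by
  unfold dT dW
  rw [Finset.mul_sum, Finset.mul_sum]
  constructor
  · refine Finset.sum_le_sum fun s _ => ?_
    rw [wT_self Q u i, mul_comm]
    exact mul_le_mul_of_nonneg_left (h.lo i s _) (cW_nn h i ω s)
  · refine Finset.sum_le_sum fun s _ => ?_
    rw [wT_self Q u i, mul_comm (Real.exp B)]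
    exact mul_le_mul_of_nonneg_left (h.hi i s _) (cW_nn h i ω s)

lemma dW_pos (h : HT P Q u B) (i : Fin k) (ω : Fin k → Ω) : 0 < dW Q u i ω := by
  have h1 := (dT_dW h i ω).2
  have h2 := dT_pos6 h ω
  by_contra h3
  push Not at h3
  have h4 : Real.exp B * dW Q u i ω ≤ 0 := mul_nonpos_of_nonneg_of_nonpos (Real.exp_pos _).le h3
  linarith

lemma cW_upd (Q : S → ℝ) (u : Fin k → S → Ω → ℝ) (i : Fin k) (ω : Fin k → Ω) (x : Ω) (s : S) :
    cW Q u i (Function.update ω i x) s = cW Q u i ω s := by
  classical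
  unfold cW
  congr 1
  refine Finset.prod_congr rfl fun j hj => ?_
  rw [Function.update_of_ne (Finset.ne_of_mem_erase hj)]

lemma dW_upd (Q : S → ℝ) (u : Fin k → S → Ω → ℝ) (i : Fin k) (ω : Fin k → Ω) (x : Ω) :
    dW Q u i (Function.update ω i x) = dW Q u i ω :=
  Finset.sum_congr rfl fun s _ => cW_upd Q u i ω x s

lemma upd_meas (i : Fin k) (ω : Fin k → Ω) : Measurable fun x => Function.update ω i x :=
  (meas_update i).comp (measurable_const.prodMk measurable_id)

/-- The law of the class without the row `i` against the law of the class. -/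
lemma off_le (h : HT P Q u B) (i : Fin k) (ω : Fin k → Ω) (s : S) :
    |prT Q u ω s - cW Q u i ω s / dW Q u i ω| ≤
      Real.exp B * ∫ x, |prT Q u ω s - prT Q u (Function.update ω i x) s| ∂P := by
  have hW := dW_pos h i ω
  obtain ⟨y, hy⟩ : ∃ y : Ω → ℝ, y = fun x => dT Q u (Function.update ω i x) / dW Q u i ω :=
    ⟨_, rfl⟩
  have hym : Measurable y := by
    rw [hy]
    exact ((dT_meas6 h).comp (upd_meas i ω)).div_const _
  have hy0 : ∀ x, 0 ≤ y x := fun x => by
    rw [hy]
    exact div_nonneg (dT_pos6 h _).le hW.le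
  have hyB : ∀ x, y x ≤ Real.exp B := fun x => by
    rw [hy]
    simp only
    rw [div_le_iff₀ hW]
    have h1 := (dT_dW h i (Function.update ω i x)).2
    rwa [dW_upd] at h1
  have hyi : Integrable y P := ib66 hym fun x => by
    rw [abs_of_nonneg (hy0 x)]
    exact hyB x
  have hy1 : ∫ x, y x ∂P = 1 := by
    rw [hy]
    simp only
    rw [integral_div, dW_eq h i ω, div_self hW.ne']
  have hpm : Measurable fun x => prT Q u (Function.update ω i x) s :=
    (prT_meas6 h s).comp (upd_meas i ω)
  have hpi : Integrable (fun x => y x * prT Q u (Function.update ω i x) s) P :=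
    ib66 (hym.mul hpm) (C := Real.exp B) fun x => by
      rw [abs_of_nonneg (mul_nonneg (hy0 x) (prT_nn6 h _ s))]
      calc y x * prT Q u (Function.update ω i x) s ≤ Real.exp B * 1 :=
            mul_le_mul (hyB x) (prT_le6 h _ s) (prT_nn6 h _ s) (Real.exp_pos _).le
        _ = Real.exp B := mul_one _
  have hoff : cW Q u i ω s / dW Q u i ω = ∫ x, y x * prT Q u (Function.update ω i x) s ∂P := by
    have h1 : ∀ x, y x * prT Q u (Function.update ω i x) s =
        cW Q u i ω s / dW Q u i ω * u i s x := by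
      intro x
      rw [hy]
      unfold prT
      rw [wT_upd]
      have := (dT_pos6 h (Function.update ω i x)).ne'
      have := hW.ne'
      field_simp
    simp only [h1]
    rw [integral_const_mul, h.u1 i s, mul_one]
  have hdm : Measurable fun x => |prT Q u ω s - prT Q u (Function.update ω i x) s| :=
    (measurable_const.sub hpm).abs
  have hd1 : ∀ x, |prT Q u ω s - prT Q u (Function.update ω i x) s| ≤ 1 := by
    intro x
    have h1 := prT_le6 h ω s
    have h2 := prT_nn6 h ω s
    have h3 := prT_le6 h (Function.update ω i x) s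
    have h4 := prT_nn6 h (Function.update ω i x) s
    exact abs_le.2 ⟨by linarith, by linarith⟩
  have hdi : Integrable (fun x => |prT Q u ω s - prT Q u (Function.update ω i x) s|) P :=
    ib66 hdm (C := 1) fun x => by
      rw [abs_abs]
      exact hd1 x
  have e1 : prT Q u ω s - cW Q u i ω s / dW Q u i ω =
      ∫ x, y x * (prT Q u ω s - prT Q u (Function.update ω i x) s) ∂P := by
    have h1 : ∀ x, y x * (prT Q u ω s - prT Q u (Function.update ω i x) s) =
        y x * prT Q u ω s - y x * prT Q u (Function.update ω i x) s := fun x => by ring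
    simp only [h1]
    rw [integral_sub (hyi.mul_const _) hpi, integral_mul_const, hy1, one_mul, hoff]
  rw [e1, ← integral_const_mul]
  refine (abs_integral_le_integral_abs).trans ?_
  refine integral_mono_of_nonneg (Eventually.of_forall fun x => abs_nonneg _)
    (hdi.const_mul _) (Eventually.of_forall fun x => ?_)
  simp only
  rw [abs_mul, abs_of_nonneg (hy0 x)]
  exact mul_le_mul_of_nonneg_right (hyB x) (abs_nonneg _)

/-- The classes with a large gain, when the total weight is small. -/
lemma big_le (h : HT P Q u B) (i : Fin k) (ω : Fin k → Ω) (G : ℝ) :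
    (∑ s, prT Q u ω s * (if 2 * Real.exp (-G) < u i s (ω i) then (1 : ℝ) else 0)) ≤
      (if -G < Real.log (dT Q u ω) - Real.log (∫ x, dT Q u (Function.update ω i x) ∂P)
        then (1 : ℝ) else 0) +
      2 * ∑ s, |prT Q u ω s - cW Q u i ω s / dW Q u i ω| := by
  rw [dW_eq h i ω]
  have hW := dW_pos h i ω
  have hD := dT_pos6 h ω
  have hS : 0 ≤ ∑ s, |prT Q u ω s - cW Q u i ω s / dW Q u i ω| :=
    Finset.sum_nonneg fun s _ => abs_nonneg _
  by_cases hG : -G < Real.log (dT Q u ω) - Real.log (dW Q u i ω)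
  · rw [if_pos hG]
    have h1 : (∑ s, prT Q u ω s * (if 2 * Real.exp (-G) < u i s (ω i) then (1 : ℝ) else 0)) ≤
        ∑ s, prT Q u ω s := by
      refine Finset.sum_le_sum fun s _ => ?_
      have h2 := prT_nn6 h ω s
      split_ifs
      · linarith
      · linarith
    rw [prT_sum6 h] at h1
    linarith
  · rw [if_neg hG, zero_add, Finset.mul_sum]
    push Not at hG
    have hq : dT Q u ω / dW Q u i ω ≤ Real.exp (-G) := by
      rw [← Real.log_div hD.ne' hW.ne'] at hG
      exact (Real.log_le_iff_le_exp (div_pos hD hW)).1 hG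
    refine Finset.sum_le_sum fun s _ => ?_
    by_cases hu : 2 * Real.exp (-G) < u i s (ω i)
    · rw [if_pos hu, mul_one]
      have hc := cW_nn h i ω s
      have h2 : 2 * (dT Q u ω / dW Q u i ω) ≤ u i s (ω i) := by linarith
      have h3 : 2 * (cW Q u i ω s / dW Q u i ω) ≤ prT Q u ω s := by
        unfold prT
        rw [wT_self Q u i, le_div_iff₀ hD]
        calc 2 * (cW Q u i ω s / dW Q u i ω) * dT Q u ω =
            cW Q u i ω s * (2 * (dT Q u ω / dW Q u i ω)) := by ring
          _ ≤ cW Q u i ω s * u i s (ω i) := mul_le_mul_of_nonneg_left h2 hc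
      have h4 := le_abs_self (prT Q u ω s - cW Q u i ω s / dW Q u i ω)
      linarith
    · rw [if_neg hu, mul_zero]
      have := abs_nonneg (prT Q u ω s - cW Q u i ω s / dW Q u i ω)
      linarith

end Off

end Pool.Agent.W_7d29a1_NV.LO66
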