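import Pool.Agent.W_7d29a1_NV.Lim34
import Pool.Agent.W_7d29a1_NV.Eq41c
import Pool.Agent.W_7d29a1_NV.MarT53
import Pool.Agent.W_7d29a1_NV.KapT77
import Pool.Agent.W_7d29a1_NV.Mix96
import Pool.Agent.W_7d29a1_NV.OneP72
import Pool.Agent.W_7d29a1_NV.TwoP66
import Pool.Agent.W_7d29a1_NV.Mon31
import Pool.Agent.W_7d29a1_NV.VarL42
import Pool.Agent.W_7d29a1_NV.OneEnd52
import Pool.Agent.W_7d29a1_NV.Two6
import Pool.Agent.W_7d29a1_NV.BigB21

/-!
Theorem NV, full limit, no hypothesis left: in every dimension, at every tilt of very strong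
disorder, the variance of the free energy tends to infinity.
-/

namespace Pool.Agent.W_7d29a1_NV

open MeasureTheory ProbabilityTheory Filter Topology Pool.Agent.W_MP_7d29a1_pr
  Pool.Agent.W_7d29a1_h46 Pool.Agent.W_7d29a1_h46u Pool.Agent.W_7d29a1_D2.B35
  Pool.Agent.W_7d29a1_Q29

variable {d : ℕ} {ρ : Measure ℝ} [IsProbabilityMeasure ρ]

/-- The core, no hypothesis left. -/
theorem corN34 (hd : 0 < d) (hρ : EM ρ) (hnc : ∀ c : ℝ, ρ {c} ≠ 1) {β : ℝ} (hβ : 0 < β) :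
    CorN d ρ β := by
  obtain ⟨b, hb⟩ := (eventually_HB21 hnc).exists
  have hE := Eq41.eqT41 (ρ := ρ) hd hβ hb
  have hK := kapTm77 (ρ := ρ) hd hb hE
  exact corN50 hb (O72.onep72 hb oneT hE (M53.marT53 d) hK)
    (M66.twoP66 hd hρ hb oneT twoT6 hE hK (mix96 hb)) (monT31 hd ρ hb) (varL42 hd hρ hβ.ne' hb)

/-- **Theorem NV.** In every dimension, for every law, at every tilt of very strong disorder the
variance of the free energy tends to infinity. -/
theorem limNV34 (hd : 0 < d) (hρ : EM ρ) (hnc : ∀ c : ℝ, ρ {c} ≠ 1) {β : ℝ} (hβ : 0 < β)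
    (h : Vec d) (hV : VSD ρ β h) : Tendsto (fun n : ℕ => Va ρ β h n) atTop atTop :=
  lim34 hd hρ (corN34 hd hρ hnc hβ) (mulO79 hd hρ β) h hV

end Pool.Agent.W_7d29a1_NV
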