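import Pool.Agent.W_7d29a1_NV.Off42
import Pool.Agent.W_7d29a1_NV.DefsNV
import Pool.Agent.W_7d29a1_Q29.Qt98

/-!
The polymer is localised in every row, at the lengths where the mean free energy grows slowly.
-/

namespace Pool.Agent.W_7d29a1_NV

open MeasureTheory ProbabilityTheory Filter Topology Pool.Agent.W_MP_7d29a1_pr
  Pool.Agent.W_7d29a1_h46 Pool.Agent.W_7d29a1_h46u Pool.Agent.W_7d29a1_D2
  Pool.Agent.W_7d29a1_D2.B35 Pool.Agent.W_7d29a1_V.Law2 Pool.Agent.W_7d29a1_Q29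
  Pool.Agent.W_7d29a1_Q29.Csy42

variable {d : ℕ} {ρ : Measure ℝ} [IsProbabilityMeasure ρ]

/-- The point to point weight, when the last row changes. -/
lemma PP_row {t : ℕ} (ht : 1 ≤ t) {η η' : Env d} (hη : ∀ p : ℕ × Site d, p.1 < t → η p = η' p)
    (β : ℝ) (h : Vec d) (z : Site d) :
    PP β h η' t z = PP β h η t z * Real.exp (β * (η' (t, z) - η (t, z))) := by
  classical
  obtain ⟨s, rfl⟩ : ∃ s, t = s + 1 := ⟨t - 1, by omega⟩
  unfold PP ZT
  rw [Finset.sum_mul]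
  refine Finset.sum_congr rfl fun q _ => ?_
  by_cases hq : q ∈ {r : Fin (s + 1) → Step d | pos r (s + 1) = z}
  · rw [if_pos hq, if_pos hq]
    have hz : pos q (s + 1) = z := hq
    have h1 : energy η' q = energy η q + (η' (s + 1, z) - η (s + 1, z)) := by
      unfold energy
      rw [Fin.sum_univ_castSucc, Fin.sum_univ_castSucc (f := fun i : Fin (s + 1) =>
        η ((i : ℕ) + 1, pos q ((i : ℕ) + 1)))]
      have h2 : ∑ i : Fin s, η' ((i.castSucc : ℕ) + 1, pos q ((i.castSucc : ℕ) + 1)) =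
          ∑ i : Fin s, η ((i.castSucc : ℕ) + 1, pos q ((i.castSucc : ℕ) + 1)) := by
        refine Finset.sum_congr rfl fun i _ => (hη _ ?_).symm
        have := i.2
        simp only [Fin.val_castSucc]
        omega
      rw [h2]
      simp only [Fin.val_last]
      rw [hz]
      ring
    unfold wgt
    rw [h1, ← Real.exp_add]
    congr 1
    ring
  · rw [if_neg hq, if_neg hq, zero_mul]

/-- The mass of the site `z` in the row `t`. -/
noncomputable def Pm (β : ℝ) (h : Vec d) (n t : ℕ) (z : Site d) (η : Env d) : ℝ :=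
  PP β h η t z * Z β h (sh t z η) (n - t)

lemma Pm_row {t : ℕ} (ht : 1 ≤ t) {η η' : Env d} (hη : ∀ p : ℕ × Site d, p.1 ≠ t → η p = η' p)
    (β : ℝ) (h : Vec d) (n : ℕ) (z : Site d) :
    Pm β h n t z η' = Pm β h n t z η * Real.exp (β * (η' (t, z) - η (t, z))) := by
  unfold Pm
  rw [PP_row ht (fun p hp => hη p hp.ne) β h z]
  have h1 : Z β h (sh t z η') (n - t) = Z β h (sh t z η) (n - t) := by
    refine Z_congr (fun p hp _ => ?_) β h
    unfold sh
    refine (hη _ ?_).symm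
    simp only
    omega
  rw [h1]
  ring

lemma Pm_nonneg (hd : 0 < d) (β : ℝ) (h : Vec d) (n t : ℕ) (z : Site d) (η : Env d) :
    0 ≤ Pm β h n t z η := mul_nonneg (PP_nonneg _ _ _ _ _) (Z_pos hd β h _ _).le

lemma Pm_sum {β : ℝ} {h : Vec d} {n t : ℕ} (htn : t ≤ n) (η : Env d) :
    ∑ z ∈ boxF d t, Pm β h n t z η = Z β h η n := by
  have h1 := S98.Z_split β h η t (n - t)
  rw [Nat.add_sub_cancel' htn] at h1
  rw [h1]
  rfl

lemma Qt_Pm (β : ℝ) (h : Vec d) (n t : ℕ) (z : Site d) (η : Env d) :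
    Qt β h n t z η = Pm β h n t z η / Z β h η n := rfl

/-- Weights with sum one. -/
lemma sum_cube {ι : Type*} (S : Finset ι) (m : ι → ℝ) (h0 : ∀ z ∈ S, 0 ≤ m z)
    (h1 : ∑ z ∈ S, m z = 1) : (∑ z ∈ S, m z ^ 2) ^ 2 ≤ ∑ z ∈ S, m z ^ 3 := by
  obtain ⟨q, hq⟩ : ∃ q : ℝ, q = ∑ z ∈ S, m z ^ 2 := ⟨_, rfl⟩
  rw [← hq]
  have h2 : 0 ≤ ∑ z ∈ S, m z * (m z - q) ^ 2 :=
    Finset.sum_nonneg fun z hz => mul_nonneg (h0 z hz) (sq_nonneg _)
  have h3 : ∑ z ∈ S, m z * (m z - q) ^ 2 = ∑ z ∈ S, m z ^ 3 - 2 * q * ∑ z ∈ S, m z ^ 2 +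
      q ^ 2 * ∑ z ∈ S, m z := by
    rw [Finset.mul_sum, Finset.mul_sum, ← Finset.sum_sub_distrib, ← Finset.sum_add_distrib]
    refine Finset.sum_congr rfl fun z _ => ?_
    ring
  rw [h3, ← hq, h1] at h2
  nlinarith

/-- The overlap in the row `t`, when it is switched off. -/
noncomputable def Io (ρ : Measure ℝ) (β : ℝ) (h : Vec d) (n t : ℕ) (η : Env d) : ℝ :=
  ∑ z ∈ boxF d t, Qt β h n t z (offR ρ β {t} η) ^ 2

omit [IsProbabilityMeasure ρ] in
lemma Io_le_one (hd : 0 < d) (β : ℝ) (h : Vec d) {n t : ℕ} (htn : t ≤ n) (η : Env d) :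
    Io ρ β h n t η ≤ 1 := by
  unfold Io
  rw [← S98.Qt_sum hd β h htn (offR ρ β {t} η)]
  refine Finset.sum_le_sum fun z _ => ?_
  have h1 := S98.Qt_nonneg hd β h n t z (offR ρ β {t} η)
  have h2 := S98.Qt_le_one hd β h htn z (offR ρ β {t} η)
  nlinarith

omit [IsProbabilityMeasure ρ] in
lemma Io_nonneg (β : ℝ) (h : Vec d) (n t : ℕ) (η : Env d) : 0 ≤ Io ρ β h n t η :=
  Finset.sum_nonneg fun _ _ => sq_nonneg _

omit [IsProbabilityMeasure ρ] in
lemma Io_meas (β : ℝ) (h : Vec d) (n t : ℕ) : Measurable (Io ρ β h n t : Env d → ℝ) := by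
  unfold Io
  exact Finset.measurable_sum _ fun z _ =>
    ((S98.measurable_Qt β h n t z).comp (measurable_offR β _)).pow_const 2

lemma sqrt_Io_int (hd : 0 < d) (β : ℝ) (h : Vec d) {n t : ℕ} (htn : t ≤ n) :
    Integrable (fun η : Env d => Real.sqrt (Io ρ β h n t η)) (law d ρ) := by
  refine (integrable_const (1 : ℝ)).mono'
    (Real.continuous_sqrt.measurable.comp (Io_meas β h n t)).aestronglyMeasurable
    (Filter.Eventually.of_forall fun η => ?_)
  rw [Real.norm_eq_abs, abs_of_nonneg (Real.sqrt_nonneg _)]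
  exact Real.sqrt_le_one.2 (Io_le_one hd β h htn η)

omit [IsProbabilityMeasure ρ] in
lemma off_agree (β : ℝ) (t : ℕ) (η ξ : Env d) (p : ℕ × Site d) (hp : p.1 ≠ t) :
    offR ρ β {t} η p = sp {p : ℕ × Site d | p.1 ≠ t} η ξ p := by
  rw [sp_mem (show p ∈ {p : ℕ × Site d | p.1 ≠ t} from hp)]
  unfold offR
  rw [if_neg (by rw [Finset.mem_singleton]; exact hp)]

omit [IsProbabilityMeasure ρ] in
lemma off_diff (β : ℝ) (hβ : β ≠ 0) (t : ℕ) (η ξ : Env d) (z : Site d) :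
    β * (sp {p : ℕ × Site d | p.1 ≠ t} η ξ (t, z) - offR ρ β {t} η (t, z)) =
      β * ξ (t, z) - cb ρ β := by
  rw [sp_not (show ((t, z) : ℕ × Site d) ∉ {p : ℕ × Site d | p.1 ≠ t} from
    fun hc => hc rfl)]
  unfold offR
  rw [if_pos (Finset.mem_singleton.2 rfl)]
  field_simp

omit [IsProbabilityMeasure ρ] in
lemma Pm_sp {β : ℝ} (hβ : β ≠ 0) (h : Vec d) (n : ℕ) {t : ℕ} (ht : 1 ≤ t) (η ξ : Env d)
    (z : Site d) : Pm β h n t z (sp {p : ℕ × Site d | p.1 ≠ t} η ξ) =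
      Pm β h n t z (offR ρ β {t} η) * yy ρ β (ξ (t, z)) := by
  rw [Pm_row ht (off_agree (ρ := ρ) β t η ξ) β h n z, off_diff β hβ]
  rfl

omit [IsProbabilityMeasure ρ] in
lemma Z_row {β : ℝ} (hβ : β ≠ 0) (h : Vec d) {n t : ℕ} (ht : 1 ≤ t) (htn : t ≤ n)
    (η ξ : Env d) : Z β h (sp {p : ℕ × Site d | p.1 ≠ t} η ξ) n =
      ∑ z ∈ boxF d t, Pm β h n t z (offR ρ β {t} η) * yy ρ β (ξ (t, z)) := by
  rw [← Pm_sum htn]
  exact Finset.sum_congr rfl fun z _ => Pm_sp hβ h n ht η ξ z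

/-- One row off. -/
lemma row_off (hd : 0 < d) (hρ : EM ρ) {β : ℝ} (hβ : β ≠ 0) (h : Vec d) {n t : ℕ} (ht : 1 ≤ t)
    (htn : t ≤ n) (η : Env d) :
    X β h (offR ρ β {t} η) n - Cr ρ β * Real.sqrt (Io ρ β h n t η) ≤
      ∫ ξ : Env d, X β h (sp {p : ℕ × Site d | p.1 ≠ t} η ξ) n ∂(law d ρ) := by
  obtain ⟨R, hR⟩ : ∃ R : Site d → ℝ,
      R = fun z => Pm β h n t z (offR ρ β {t} η) * Real.exp (-cb ρ β) := ⟨_, rfl⟩
  have hRs : ∑ z ∈ boxF d t, R z = Z β h (offR ρ β {t} η) n * Real.exp (-cb ρ β) := by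
    rw [hR, ← Finset.sum_mul, Pm_sum htn]
  have hZ := Z_pos hd β h (offR ρ β {t} η) n
  have hE := Real.exp_pos (-cb ρ β)
  have h1 := (row_log (d := d) hρ β t (boxF d t) R
    (fun z _ => by rw [hR]; exact mul_nonneg (Pm_nonneg hd _ _ _ _ _ _) hE.le)
    (by rw [hRs]; exact mul_pos hZ hE)).2
  have h2 : ∀ z, R z / ∑ z ∈ boxF d t, R z = Qt β h n t z (offR ρ β {t} η) := by
    intro z
    rw [hRs, hR, Qt_Pm]
    exact mul_div_mul_right _ _ hE.ne'
  simp only [h2] at h1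
  rw [hRs, Real.log_mul hZ.ne' hE.ne', Real.log_exp] at h1
  have h3 : ∀ ξ : Env d, X β h (sp {p : ℕ × Site d | p.1 ≠ t} η ξ) n =
      Real.log (∑ z ∈ boxF d t, R z * Real.exp (β * ξ (t, z))) := by
    intro ξ
    unfold X
    rw [Z_row (ρ := ρ) hβ h ht htn, hR]
    congr 1
    refine Finset.sum_congr rfl fun z _ => ?_
    unfold yy
    rw [sub_eq_add_neg, Real.exp_add]
    ring
  simp only [h3]
  refine le_trans (le_of_eq ?_) h1
  unfold X Io
  ring

/-- The overlap is large at the slow lengths. -/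
lemma Io_large (hd : 0 < d) (hρ : EM ρ) {β : ℝ} (hβ : β ≠ 0) (h : Vec d) {n t : ℕ} (ht : 1 ≤ t)
    (htn : t ≤ n) :
    A ρ β h (n - 1) - A ρ β h n + Real.log (Phi h) + cb ρ β ≤
      Cr ρ β * ∫ η, Real.sqrt (Io ρ β h n t η) ∂(law d ρ) := by
  obtain ⟨s, rfl⟩ : ∃ s, t = s + 1 := ⟨t - 1, by omega⟩
  obtain ⟨m, rfl⟩ : ∃ m, n = s + (1 + m) := ⟨n - s - 1, by omega⟩
  have hn : s + (1 + m) - 1 = s + m := by omega
  rw [hn]
  obtain ⟨hI, hA⟩ := off_shift (ρ := ρ) hd hρ β hβ h s m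
  have hmp := mp_sp (J := ℕ × Site d) (ρ := ρ) {p : ℕ × Site d | p.1 ≠ s + 1}
  have hXi : Integrable (fun η : Env d => X β h η (s + (1 + m))) (law d ρ) :=
    (concU hd hρ β h _).1
  have h1 : A ρ β h (s + (1 + m)) = ∫ w : Env d × Env d,
      X β h (sp {p : ℕ × Site d | p.1 ≠ s + 1} w.1 w.2) (s + (1 + m))
        ∂((law d ρ).prod (law d ρ)) :=
    (LawU_integral hmp (F := fun η : Env d => X β h η (s + (1 + m)))
      (measurable_X β h _).aestronglyMeasurable).symm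
  have h2 : Integrable (fun w : Env d × Env d =>
      X β h (sp {p : ℕ × Site d | p.1 ≠ s + 1} w.1 w.2) (s + (1 + m)))
      ((law d ρ).prod (law d ρ)) := hmp.integrable_comp_of_integrable hXi
  rw [integral_prod _ h2] at h1
  have h3 : Integrable (fun η : Env d => ∫ ξ : Env d,
      X β h (sp {p : ℕ × Site d | p.1 ≠ s + 1} η ξ) (s + (1 + m)) ∂(law d ρ)) (law d ρ) :=
    h2.integral_prod_left
  have hs := sqrt_Io_int (ρ := ρ) hd β h htn
  have h4 := integral_mono (hI.sub (hs.const_mul (Cr ρ β))) h3 fun η =>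
    row_off (ρ := ρ) hd hρ hβ h ht htn η
  simp only [Pi.sub_apply] at h4
  rw [integral_sub hI (hs.const_mul _), integral_const_mul] at h4
  linarith

/-- The row on: the mass of the bounded sites. -/
lemma row_on (hd : 0 < d) (hρ : EM ρ) {β b : ℝ} (hβ : β ≠ 0) (hb : 1 / 2 ≤ ρ.real (Set.Icc (-b) b))
    (h : Vec d) {n t : ℕ} (ht : 1 ≤ t) (htn : t ≤ n) (η : Env d) (z : Site d) :
    Real.exp (-(3 * |β| * b + 3 * cb ρ β)) / 27 * Qt β h n t z (offR ρ β {t} η) ^ 3 ≤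
      ∫ ξ : Env d, (if |ξ (t, z)| ≤ b then
        Qt β h n t z (sp {p : ℕ × Site d | p.1 ≠ t} η ξ) ^ 3 else 0) ∂(law d ρ) := by
  classical
  obtain ⟨m, hm⟩ : ∃ m : Site d → ℝ, m = fun z => Qt β h n t z (offR ρ β {t} η) := ⟨_, rfl⟩
  have hm0 : ∀ z, 0 ≤ m z := fun z => by
    rw [hm]
    exact S98.Qt_nonneg hd β h n t z _
  have hm1 : ∑ z ∈ boxF d t, m z = 1 := by
    rw [hm]
    exact S98.Qt_sum hd β h htn _
  obtain ⟨W, hW⟩ : ∃ W : Env d → ℝ, W = fun ξ => ∑ z ∈ boxF d t, m z * yy ρ β (ξ (t, z)) :=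
    ⟨_, rfl⟩
  have hZ0 := Z_pos hd β h (offR ρ β {t} η) n
  have hZW : ∀ ξ : Env d, Z β h (sp {p : ℕ × Site d | p.1 ≠ t} η ξ) n =
      Z β h (offR ρ β {t} η) n * W ξ := by
    intro ξ
    rw [Z_row (ρ := ρ) hβ h ht htn, hW, Finset.mul_sum]
    refine Finset.sum_congr rfl fun z _ => ?_
    rw [hm]
    simp only [Qt_Pm]
    field_simp
  have hW0 : ∀ ξ : Env d, 0 < W ξ := by
    intro ξ
    have h1 := Z_pos hd β h (sp {p : ℕ × Site d | p.1 ≠ t} η ξ) n
    rw [hZW] at h1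
    exact pos_of_mul_pos_right h1 hZ0.le
  have hQ : ∀ ξ : Env d, Qt β h n t z (sp {p : ℕ × Site d | p.1 ≠ t} η ξ) =
      m z * yy ρ β (ξ (t, z)) / W ξ := by
    intro ξ
    rw [Qt_Pm, hZW, Pm_sp (ρ := ρ) hβ h n ht, hm]
    simp only [Qt_Pm]
    have := (hW0 ξ).ne'
    field_simp
  have hWi : Integrable W (law d ρ) ∧ ∫ ξ, W ξ ∂(law d ρ) = 1 := by
    have h1 : ∀ z ∈ boxF d t, Integrable (fun η : Env d => m z * yy ρ β (η (t, z))) (law d ρ) :=
      fun z _ => (ev_int (yy_int hρ β).1 _).1.const_mul _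
    rw [hW]
    refine ⟨integrable_finsetSum _ h1, ?_⟩
    rw [integral_finsetSum _ h1, ← hm1]
    refine Finset.sum_congr rfl fun z _ => ?_
    rw [integral_const_mul, (ev_int (yy_int hρ β).1 _).2, (yy_int hρ β).2, mul_one]
  have hGm : MeasurableSet {ξ : Env d | |ξ (t, z)| ≤ b} :=
    measurableSet_le (continuous_abs.measurable.comp (measurable_pi_apply _)) measurable_const
  have hG : 1 / 2 ≤ (law d ρ).real {ξ : Env d | |ξ (t, z)| ≤ b} := by
    have h1 : {ξ : Env d | |ξ (t, z)| ≤ b} = Function.eval (t, z) ⁻¹' Set.Icc (-b) b := by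
      ext ξ
      simp only [Set.mem_ofPred_eq, Set.mem_preimage, Function.eval, Set.mem_Icc, abs_le]
    rw [h1, measureReal_def, (mp_ev (ρ := ρ) (t, z)).measure_preimage
      measurableSet_Icc.nullMeasurableSet, ← measureReal_def]
    exact hb
  obtain ⟨E, hE⟩ : ∃ E : ℝ, E = Real.exp (-(3 * |β| * b + 3 * cb ρ β)) := ⟨_, rfl⟩
  have hE0 : 0 < E := by
    rw [hE]
    exact Real.exp_pos _
  have hmz : Qt β h n t z (offR ρ β {t} η) = m z := by rw [hm]
  rw [← hE, hmz]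
  -- the lower bound
  have hlow : ∀ ξ : Env d, E / 27 * m z ^ 3 *
      ({ξ : Env d | |ξ (t, z)| ≤ b}.indicator (fun _ => (4 : ℝ)) ξ - W ξ) ≤
      (if |ξ (t, z)| ≤ b then
        Qt β h n t z (sp {p : ℕ × Site d | p.1 ≠ t} η ξ) ^ 3 else 0) := by
    intro ξ
    have hE3 : 0 ≤ E / 27 * m z ^ 3 := mul_nonneg (by positivity) (pow_nonneg (hm0 z) 3)
    by_cases hx : |ξ (t, z)| ≤ b
    · rw [if_pos hx, Set.indicator_of_mem (show ξ ∈ {ξ : Env d | |ξ (t, z)| ≤ b} from hx), hQ]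
      have h1 : E ≤ yy ρ β (ξ (t, z)) ^ 3 := by
        rw [hE]
        unfold yy
        rw [← Real.exp_nat_mul]
        refine Real.exp_le_exp.2 ?_
        have h2 : -(|β| * b) ≤ β * ξ (t, z) := by
          have h3 : |β * ξ (t, z)| ≤ |β| * b := by
            rw [abs_mul]
            exact mul_le_mul_of_nonneg_left hx (abs_nonneg β)
          linarith [neg_abs_le (β * ξ (t, z))]
        push_cast
        linarith
      have h2 : (4 - W ξ) / 27 ≤ (W ξ ^ 3)⁻¹ := by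
        rw [div_le_iff₀ (by norm_num), ← div_eq_inv_mul, le_div_iff₀ (pow_pos (hW0 ξ) 3)]
        nlinarith [mul_nonneg (sq_nonneg (W ξ - 3))
          (show 0 ≤ W ξ ^ 2 + 2 * W ξ + 3 by have := hW0 ξ; positivity)]
      have h3 : (m z * yy ρ β (ξ (t, z)) / W ξ) ^ 3 =
          yy ρ β (ξ (t, z)) ^ 3 * m z ^ 3 * (W ξ ^ 3)⁻¹ := by
        rw [div_pow, mul_pow, div_eq_mul_inv]
        ring
      rw [h3]
      have h4 : E * m z ^ 3 ≤ yy ρ β (ξ (t, z)) ^ 3 * m z ^ 3 :=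
        mul_le_mul_of_nonneg_right h1 (pow_nonneg (hm0 z) 3)
      calc E / 27 * m z ^ 3 * (4 - W ξ) = E * m z ^ 3 * ((4 - W ξ) / 27) := by ring
        _ ≤ E * m z ^ 3 * (W ξ ^ 3)⁻¹ :=
          mul_le_mul_of_nonneg_left h2 (mul_nonneg hE0.le (pow_nonneg (hm0 z) 3))
        _ ≤ _ := mul_le_mul_of_nonneg_right h4 (inv_nonneg.2 (pow_pos (hW0 ξ) 3).le)
    · rw [if_neg hx, Set.indicator_of_notMem
        (show ξ ∉ {ξ : Env d | |ξ (t, z)| ≤ b} from hx), zero_sub]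
      have := hW0 ξ
      nlinarith
  have hi1 : Integrable (fun ξ : Env d => {ξ : Env d | |ξ (t, z)| ≤ b}.indicator
      (fun _ => (4 : ℝ)) ξ) (law d ρ) := (integrable_const (4 : ℝ)).indicator hGm
  have hi2 : Integrable (fun ξ : Env d => if |ξ (t, z)| ≤ b then
        Qt β h n t z (sp {p : ℕ × Site d | p.1 ≠ t} η ξ) ^ 3 else 0) (law d ρ) := by
    have hms : Measurable fun ξ : Env d => sp {p : ℕ × Site d | p.1 ≠ t} η ξ := by
      refine measurable_pi_iff.2 fun p => ?_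
      by_cases hp : p ∈ {p : ℕ × Site d | p.1 ≠ t}
      · simp only [sp_mem hp]
        exact measurable_const
      · simp only [sp_not hp]
        exact measurable_pi_apply p
    refine (integrable_const (1 : ℝ)).mono' (Measurable.ite hGm
      (((S98.measurable_Qt β h n t z).comp hms).pow_const 3)
      measurable_const).aestronglyMeasurable (Filter.Eventually.of_forall fun ξ => ?_)
    rw [Real.norm_eq_abs]
    split_ifs
    · rw [abs_pow]
      exact pow_le_one₀ (abs_nonneg _) (S98.Qt_abs hd β h htn z _)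
    · simp
  have h5 := integral_mono ((hi1.sub hWi.1).const_mul (E / 27 * m z ^ 3)) hi2 hlow
  rw [integral_const_mul] at h5
  have h6 : ∫ ξ : Env d, ({ξ : Env d | |ξ (t, z)| ≤ b}.indicator (fun _ => (4 : ℝ)) ξ - W ξ)
      ∂(law d ρ) = (law d ρ).real {ξ : Env d | |ξ (t, z)| ≤ b} * 4 - 1 := by
    rw [integral_sub hi1 hWi.1, hWi.2, integral_indicator_const _ hGm, smul_eq_mul]
  have h7 : ∫ ξ : Env d, ((fun ξ : Env d => {ξ : Env d | |ξ (t, z)| ≤ b}.indicator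
      (fun _ => (4 : ℝ)) ξ) - W) ξ ∂(law d ρ) =
      (law d ρ).real {ξ : Env d | |ξ (t, z)| ≤ b} * 4 - 1 := h6
  rw [h7] at h5
  refine le_trans ?_ h5
  have h8 : 0 ≤ E / 27 * m z ^ 3 := mul_nonneg (by positivity) (pow_nonneg (hm0 z) 3)
  nlinarith

/-- The localisation at the bounded sites of every row. -/
theorem locQ (hd : 0 < d) (hρ : EM ρ) {β b : ℝ} (hβ : β ≠ 0)
    (hb : 1 / 2 ≤ ρ.real (Set.Icc (-b) b)) : ∀ g : ℝ, 0 < g → ∃ c : ℝ, 0 < c ∧ ∀ h : Vec d,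
    lam ρ β h + g ≤ Real.log (Phi h) + Real.log (∫ t, Real.exp (β * t) ∂ρ) →
    ∀ n : ℕ, A ρ β h n - A ρ β h (n - 1) ≤ lam ρ β h + g / 2 → ∀ t : ℕ, 1 ≤ t → t ≤ n →
      c ≤ ∫ η : Env d, ∑ z ∈ boxF d t, (if |η (t, z)| ≤ b then Qt β h n t z η ^ 3 else 0)
        ∂(law d ρ) := by
  classical
  intro g hg
  have hCr := Cr_nonneg (ρ := ρ) β
  obtain ⟨C, hC⟩ : ∃ C : ℝ, C = Cr ρ β + 1 := ⟨_, rfl⟩
  have hC0 : 0 < C := by
    rw [hC]
    linarith
  obtain ⟨a, ha⟩ : ∃ a : ℝ, a = g / (2 * C) := ⟨_, rfl⟩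
  have ha0 : 0 < a := by
    rw [ha]
    positivity
  obtain ⟨E, hE⟩ : ∃ E : ℝ, E = Real.exp (-(3 * |β| * b + 3 * cb ρ β)) := ⟨_, rfl⟩
  have hE0 : 0 < E := by
    rw [hE]
    exact Real.exp_pos _
  refine ⟨E / 27 * a ^ 4, by positivity, fun h hh n hn t ht htn => ?_⟩
  have h1 := Io_large (ρ := ρ) hd hρ hβ h ht htn
  obtain ⟨J, hJ⟩ : ∃ J : ℝ, J = ∫ η, Real.sqrt (Io ρ β h n t η) ∂(law d ρ) := ⟨_, rfl⟩
  rw [← hJ] at h1
  have hJ0 : 0 ≤ J := by
    rw [hJ]
    exact integral_nonneg fun η => Real.sqrt_nonneg _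
  have hJa : a ≤ J := by
    have h2 : g / 2 ≤ C * J := by
      have h3 : Cr ρ β * J ≤ C * J := mul_le_mul_of_nonneg_right (by rw [hC]; linarith) hJ0
      have h4 : cb ρ β = Real.log (∫ t, Real.exp (β * t) ∂ρ) := rfl
      linarith
    rw [ha, div_le_iff₀ (by positivity)]
    linarith
  -- the cubes in the environment with the row off
  have hmo : ∀ z, Measurable fun η : Env d => Qt β h n t z (offR ρ β {t} η) := fun z =>
    (S98.measurable_Qt β h n t z).comp (measurable_offR β _)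
  have hq0 : ∀ (z : Site d) (η : Env d), 0 ≤ Qt β h n t z η := fun z η =>
    S98.Qt_nonneg hd β h n t z η
  have hq1 : ∀ (z : Site d) (η : Env d), Qt β h n t z η ≤ 1 := fun z η =>
    S98.Qt_le_one hd β h htn z η
  have hoi : ∀ z, Integrable (fun η : Env d => Qt β h n t z (offR ρ β {t} η) ^ 3)
      (law d ρ) := by
    intro z
    refine (integrable_const (1 : ℝ)).mono' ((hmo z).pow_const 3).aestronglyMeasurable
      (Filter.Eventually.of_forall fun η => ?_)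
    rw [Real.norm_eq_abs, abs_of_nonneg (pow_nonneg (hq0 _ _) 3)]
    exact pow_le_one₀ (hq0 _ _) (hq1 _ _)
  have hcube : a ^ 4 ≤ ∫ η : Env d, ∑ z ∈ boxF d t, Qt β h n t z (offR ρ β {t} η) ^ 3
      ∂(law d ρ) := by
    have h5 : ∀ η : Env d, 4 * a ^ 3 * Real.sqrt (Io ρ β h n t η) - 3 * a ^ 4 ≤
        ∑ z ∈ boxF d t, Qt β h n t z (offR ρ β {t} η) ^ 3 := by
      intro η
      have h6 := sum_cube (boxF d t) (fun z => Qt β h n t z (offR ρ β {t} η))
        (fun z _ => hq0 z _) (S98.Qt_sum hd β h htn _)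
      refine le_trans ?_ h6
      obtain ⟨r, hr⟩ : ∃ r : ℝ, r = Real.sqrt (Io ρ β h n t η) := ⟨_, rfl⟩
      have hr0 : 0 ≤ r := by
        rw [hr]
        exact Real.sqrt_nonneg _
      have hr2 : r ^ 2 = Io ρ β h n t η := by
        rw [hr]
        exact Real.sq_sqrt (Io_nonneg β h n t η)
      have h7 : ∑ z ∈ boxF d t, Qt β h n t z (offR ρ β {t} η) ^ 2 = r ^ 2 := by
        rw [hr2]
        rfl
      rw [← hr, h7]
      nlinarith [mul_nonneg (sq_nonneg (r - a))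
        (show 0 ≤ r ^ 2 + 2 * a * r + 3 * a ^ 2 by positivity)]
    have h8 : Integrable (fun η : Env d => 4 * a ^ 3 * Real.sqrt (Io ρ β h n t η) - 3 * a ^ 4)
        (law d ρ) := ((sqrt_Io_int hd β h htn).const_mul _).sub (integrable_const _)
    have h9 := integral_mono h8 (integrable_finsetSum _ fun z _ => hoi z) h5
    refine le_trans ?_ h9
    have h10 : ∫ η : Env d, (4 * a ^ 3 * Real.sqrt (Io ρ β h n t η) - 3 * a ^ 4) ∂(law d ρ) =
        4 * a ^ 3 * J - 3 * a ^ 4 := by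
      rw [integral_sub ((sqrt_Io_int hd β h htn).const_mul _) (integrable_const _),
        integral_const_mul, integral_const, hJ]
      simp
    rw [h10]
    nlinarith [mul_le_mul_of_nonneg_left hJa (show 0 ≤ 4 * a ^ 3 by positivity)]
  -- the row on
  have hGm : ∀ z, MeasurableSet {ξ : Env d | |ξ (t, z)| ≤ b} := fun z =>
    measurableSet_le (continuous_abs.measurable.comp (measurable_pi_apply _)) measurable_const
  have hFm : ∀ z, Measurable fun η : Env d =>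
      (if |η (t, z)| ≤ b then Qt β h n t z η ^ 3 else 0) := fun z =>
    Measurable.ite (hGm z) ((S98.measurable_Qt β h n t z).pow_const 3) measurable_const
  have hFb : ∀ (z : Site d) (η : Env d),
      |(if |η (t, z)| ≤ b then Qt β h n t z η ^ 3 else 0)| ≤ 1 := by
    intro z η
    split_ifs
    · rw [abs_of_nonneg (pow_nonneg (hq0 _ _) 3)]
      exact pow_le_one₀ (hq0 _ _) (hq1 _ _)
    · simp
  have hFi : ∀ z, Integrable (fun η : Env d =>
      (if |η (t, z)| ≤ b then Qt β h n t z η ^ 3 else 0)) (law d ρ) := fun z =>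
    (integrable_const (1 : ℝ)).mono' (hFm z).aestronglyMeasurable
      (Filter.Eventually.of_forall fun η => hFb z η)
  have hmp := mp_sp (J := ℕ × Site d) (ρ := ρ) {p : ℕ × Site d | p.1 ≠ t}
  have hsite : ∀ z ∈ boxF d t, E / 27 * ∫ η : Env d, Qt β h n t z (offR ρ β {t} η) ^ 3
      ∂(law d ρ) ≤ ∫ η : Env d, (if |η (t, z)| ≤ b then Qt β h n t z η ^ 3 else 0)
        ∂(law d ρ) := by
    intro z _
    have h11 : ∫ η : Env d, (if |η (t, z)| ≤ b then Qt β h n t z η ^ 3 else 0) ∂(law d ρ) =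
        ∫ w : Env d × Env d, (if |w.2 (t, z)| ≤ b then
          Qt β h n t z (sp {p : ℕ × Site d | p.1 ≠ t} w.1 w.2) ^ 3 else 0)
          ∂((law d ρ).prod (law d ρ)) := by
      refine (LawU_integral hmp (F := fun η : Env d =>
        (if |η (t, z)| ≤ b then Qt β h n t z η ^ 3 else 0))
        (hFm z).aestronglyMeasurable).symm.trans ?_
      refine integral_congr_ae (Filter.Eventually.of_forall fun w => ?_)
      simp only
      rw [sp_not (show ((t, z) : ℕ × Site d) ∉ {p : ℕ × Site d | p.1 ≠ t} from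
        fun hc => hc rfl)]
    have h12 : Integrable (fun w : Env d × Env d => (if |w.2 (t, z)| ≤ b then
          Qt β h n t z (sp {p : ℕ × Site d | p.1 ≠ t} w.1 w.2) ^ 3 else 0))
          ((law d ρ).prod (law d ρ)) := by
      refine (hmp.integrable_comp_of_integrable (hFi z)).congr
        (Filter.Eventually.of_forall fun w => ?_)
      simp only [Function.comp]
      rw [sp_not (show ((t, z) : ℕ × Site d) ∉ {p : ℕ × Site d | p.1 ≠ t} from
        fun hc => hc rfl)]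
    rw [h11, integral_prod _ h12, ← integral_const_mul]
    refine integral_mono ((hoi z).const_mul _) h12.integral_prod_left fun η => ?_
    rw [hE]
    exact row_on hd hρ hβ hb h ht htn η z
  rw [integral_finsetSum _ fun z _ => hFi z]
  refine le_trans ?_ (Finset.sum_le_sum hsite)
  rw [← Finset.mul_sum, ← integral_finsetSum _ fun z _ => hoi z]
  exact mul_le_mul_of_nonneg_left hcube (by positivity)

end Pool.Agent.W_7d29a1_NV
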