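import Pool.Agent.W_7d29a1_NV.Ins79
import Pool.Agent.W_7d29a1_P79.End79
import Pool.Agent.W_7d29a1_h46u.ConcV

/-!
The number of classes (leaf `MulT`): the law of `S_τ` is concentrated on few sites.
-/

set_option autoImplicit false

namespace Pool.Agent.W_7d29a1_NV

open MeasureTheory ProbabilityTheory Filter Topology Pool.Agent.W_MP_7d29a1_pr
  Pool.Agent.W_7d29a1_h46 Pool.Agent.W_7d29a1_h46u Pool.Agent.W_7d29a1_D2.B35
  Pool.Agent.W_7d29a1_Q29 Pool.Agent.W_7d29a1_P89 Pool.Agent.W_7d29a1_P78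

variable {d : ℕ} {ρ : Measure ℝ}

open Classical in
/-- The literal of the lucky mass lemma (helper78). -/
def LMassP (d : ℕ) (ρ : Measure ℝ) : Prop := ∀ (P : Prm d) (τ m : ℕ) (z0 : Site d) (U : ℝ)
  (A : Finset (Site d)) (q : Site d → ℝ) (M : ℝ), (∀ x ∈ A, 0 ≤ q x) → (∀ x ∈ A, q x ≤ M) →
  0 < ∑ x ∈ A, q x → 0 < (law d ρ).real {ξ | Lk P m z0 U ξ} →
  (law d ρ).real {ξ | (∑ x ∈ A, if Lk P m z0 U (sh τ x ξ) then q x else 0) ≤
    (law d ρ).real {ξ | Lk P m z0 U ξ} * (∑ x ∈ A, q x) / 2} ≤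
    4 * M * (4 * (m : ℝ) + 1) ^ d / ((law d ρ).real {ξ | Lk P m z0 U ξ} * ∑ x ∈ A, q x)

open Classical in
/-- The literal of the density of the good lengths (helper89). -/
def DensP (d : ℕ) (ρ : Measure ℝ) : Prop := ∀ (β : ℝ) (h : Vec d) (C' δ : ℝ), 0 < C' → 0 < δ →
  ∃ b₁ : ℝ, ∀ b : ℝ, b₁ ≤ b → ∀ m : ℕ, (m : ℝ) ≤ C' * b → ∃ N₀ : ℕ, ∀ N : ℕ, N₀ ≤ N →
    (((Finset.Ico N (2 * N)).filter fun n =>
      ¬ (A ρ β h (n + m) - A ρ β h n ≤ lam ρ β h * m + b / 2)).card : ℝ) ≤ δ * N

lemma boxF_mono79 {r s : ℕ} (h : r ≤ s) : boxF d r ⊆ boxF d s := by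
  intro y hy
  rw [mem_boxF] at hy ⊢
  intro i
  exact (hy i).trans (by exact_mod_cast h)

lemma abs_half79 {x c : ℝ} (hc : 0 < c) : |x| ≤ (x ^ 2 / c + c) / 2 := by
  have h1 : 0 ≤ (|x| - c) ^ 2 / c := div_nonneg (sq_nonneg _) hc.le
  have h2 : (|x| - c) ^ 2 / c = x ^ 2 / c - 2 * |x| + c := by
    rw [sub_sq, sq_abs]
    field_simp
  linarith

lemma absVa79 [IsProbabilityMeasure ρ] (hd : 0 < d) (hρ : EM ρ) (β : ℝ) (h : Vec d) {n : ℕ}
    (hn : 1 ≤ n) {K : ℝ} (hK : 0 < K) (hV : Va ρ β h n ≤ K) :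
    Integrable (fun η => |X β h η n - A ρ β h n|) (law d ρ) ∧
      ∫ η, |X β h η n - A ρ β h n| ∂(law d ρ) ≤ Real.sqrt K := by
  obtain ⟨C, _, hC⟩ := momU (ρ := ρ) hd hρ β 2
  have h2 : Integrable (fun η => (X β h η n - A ρ β h n) ^ 2) (law d ρ) := by
    refine (hC h n hn).1.congr (Eventually.of_forall fun η => ?_)
    simp only
    rw [sq_abs]
  have h3 : Integrable (fun η => X β h η n - A ρ β h n) (law d ρ) :=
    (concU hd hρ β h n).1.sub (integrable_const _)
  set c : ℝ := Real.sqrt K with hc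
  have hc0 : 0 < c := Real.sqrt_pos.2 hK
  have hcc : c * c = K := Real.mul_self_sqrt hK.le
  have hdom : Integrable (fun η => ((X β h η n - A ρ β h n) ^ 2 / c + c) / 2) (law d ρ) :=
    ((h2.div_const c).add (integrable_const c)).div_const 2
  refine ⟨h3.abs, ?_⟩
  have hI := integral_mono h3.abs hdom fun η => abs_half79 hc0
  have e1 : ∫ η, ((X β h η n - A ρ β h n) ^ 2 / c + c) / 2 ∂(law d ρ) =
      (Va ρ β h n / c + c) / 2 := by
    rw [integral_div, integral_add (h2.div_const c) (integrable_const c), integral_div,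
      integral_const]
    simp [Va]
  rw [e1] at hI
  have h5 : Va ρ β h n / c ≤ K / c := div_le_div_of_nonneg_right hV hc0.le
  have h6 : K / c = c := by
    rw [div_eq_iff hc0.ne']
    linarith
  refine hI.trans ?_
  linarith

open Classical in
/-- One insertion: a set of environments on which the insertion gains `b` with probability at least
one half is small. -/
theorem insert79 [IsProbabilityMeasure ρ] (hd : 0 < d) (hρ : EM ρ) (β : ℝ) (h : Vec d)
    {K b : ℝ} (hK : 0 < K) (hV : ∀ n, Va ρ β h n ≤ K) (hb : 0 < b) {n τ m : ℕ} (hn : 1 ≤ n)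
    (hτ : τ ≤ n) (z0 : Site d) {U : ℝ}
    (hA : A ρ β h (n + m) - A ρ β h n ≤ lam ρ β h * m + b / 2) (Bad : Set (Env d))
    (hBad : ∀ η ∈ Bad, 1 / 2 ≤ (law d ρ).real {ξ | Real.exp (b - U) ≤ ∑ x ∈ boxF d n,
      if Lk (⟨lam ρ β h, β, h, 1⟩ : Prm d) m z0 U (sh τ x ξ) then Qt β h n τ x η else 0}) :
    (law d ρ).real Bad ≤ 8 * Real.sqrt K / b := by
  set P : Prm d := ⟨lam ρ β h, β, h, 1⟩ with hP
  set Y : Env d × Env d → ℝ := fun w =>
    X β h (insE τ m z0 w.1 w.2) (n + m) - A ρ β h (n + m) - (X β h w.1 n - A ρ β h n) with hY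
  have hmp := mp_ins (d := d) (ρ := ρ) τ m z0
  obtain ⟨i1, j1⟩ := absVa79 hd hρ β h (n := n + m) (by omega) hK (hV _)
  obtain ⟨i2, j2⟩ := absVa79 hd hρ β h (n := n) hn hK (hV _)
  have k1 : Integrable (fun w : Env d × Env d =>
      |X β h (insE τ m z0 w.1 w.2) (n + m) - A ρ β h (n + m)|) ((law d ρ).prod (law d ρ)) :=
    hmp.integrable_comp_of_integrable i1
  have k2 : Integrable (fun w : Env d × Env d => |X β h w.1 n - A ρ β h n|)
      ((law d ρ).prod (law d ρ)) := i2.comp_fst (law d ρ)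
  have l1 : ∫ w, |X β h (insE τ m z0 w.1 w.2) (n + m) - A ρ β h (n + m)|
      ∂((law d ρ).prod (law d ρ)) ≤ Real.sqrt K := by
    rw [← LawU_integral hmp (F := fun g => |X β h g (n + m) - A ρ β h (n + m)|)
      i1.aestronglyMeasurable] at j1
    exact j1
  have l2 : ∫ w : Env d × Env d, |X β h w.1 n - A ρ β h n| ∂((law d ρ).prod (law d ρ)) ≤
      Real.sqrt K := by
    rw [← LawU_integral (measurePreserving_fst (μ := law d ρ) (ν := law d ρ))
      (F := fun g => |X β h g n - A ρ β h n|) i2.aestronglyMeasurable] at j2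
    exact j2
  have hYm : AEStronglyMeasurable Y ((law d ρ).prod (law d ρ)) := by
    have m1 : Measurable fun w : Env d × Env d => X β h (insE τ m z0 w.1 w.2) (n + m) :=
      (measurable_X β h (n + m)).comp hmp.measurable
    have m2 : Measurable fun w : Env d × Env d => X β h w.1 n :=
      (measurable_X β h n).comp measurable_fst
    exact ((m1.sub_const _).sub (m2.sub_const _)).aestronglyMeasurable
  have hYle : ∀ w, |Y w| ≤ |X β h (insE τ m z0 w.1 w.2) (n + m) - A ρ β h (n + m)| +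
      |X β h w.1 n - A ρ β h n| := fun w => abs_sub _ _
  have hYi : Integrable (fun w => |Y w|) ((law d ρ).prod (law d ρ)) := by
    refine (k1.add k2).mono' hYm.norm (Eventually.of_forall fun w => ?_)
    rw [Real.norm_eq_abs, abs_abs]
    exact hYle w
  have hYI : ∫ w, |Y w| ∂((law d ρ).prod (law d ρ)) ≤ 2 * Real.sqrt K := by
    have h1 := integral_mono hYi (k1.add k2) hYle
    simp only [Pi.add_apply] at h1
    rw [integral_add k1 k2] at h1
    linarith
  set Φ : Env d → ℝ := fun η => ∫ ξ, |Y (η, ξ)| ∂(law d ρ) with hΦ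
  have hΦ0 : ∀ η, 0 ≤ Φ η := fun η => integral_nonneg fun _ => abs_nonneg _
  have hΦi : Integrable Φ (law d ρ) := hYi.integral_prod_left
  have hΦI : ∫ η, Φ η ∂(law d ρ) ≤ 2 * Real.sqrt K := by
    rw [hΦ, ← integral_prod _ hYi]
    exact hYI
  have hsec : ∀ᵐ η ∂(law d ρ), Integrable (fun ξ => |Y (η, ξ)|) (law d ρ) :=
    hYi.prod_right_ae
  have hsub : ∀ᵐ η ∂(law d ρ), η ∈ Bad → η ∈ {η | b / 4 ≤ Φ η} := by
    filter_upwards [hsec] with η hη hbad
    have h1 := hBad η hbad
    have h2 : {ξ : Env d | Real.exp (b - U) ≤ ∑ x ∈ boxF d n,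
        if Lk P m z0 U (sh τ x ξ) then Qt β h n τ x η else 0} ⊆ {ξ | b / 2 ≤ |Y (η, ξ)|} := by
      intro ξ hξ
      have h3 : Real.exp (b - U) ≤ ∑ x ∈ boxF d n,
        if Lk P m z0 U (sh τ x ξ) then Qt β h n τ x η else 0 := hξ
      have h4 : Real.exp (lam ρ β h * m + b) ≤
          ∑ x ∈ boxF d τ, Qt β h n τ x η * PP β h (sh τ x ξ) m z0 := by
        have e1 : ∑ x ∈ boxF d τ, Qt β h n τ x η * PP β h (sh τ x ξ) m z0 =
            ∑ x ∈ boxF d n, Qt β h n τ x η * PP β h (sh τ x ξ) m z0 := by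
          refine Finset.sum_subset (boxF_mono79 hτ) fun x _ hx => ?_
          rw [S98.Qt_off hx, zero_mul]
        rw [e1]
        have e2 : Real.exp (lam ρ β h * m + b) =
            Real.exp (lam ρ β h * m + U) * Real.exp (b - U) := by
          rw [← Real.exp_add]
          congr 1
          ring
        rw [e2]
        refine (mul_le_mul_of_nonneg_left h3 (Real.exp_pos _).le).trans ?_
        rw [Finset.mul_sum]
        refine Finset.sum_le_sum fun x _ => ?_
        have hq := S98.Qt_nonneg hd β h n τ x η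
        by_cases hl : Lk P m z0 U (sh τ x ξ)
        · rw [if_pos hl]
          have h5 : Real.exp U ≤ Real.exp (-((m : ℝ) * lam ρ β h)) * PP β h (sh τ x ξ) m z0 := hl
          have h6 : Real.exp (lam ρ β h * m + U) ≤ PP β h (sh τ x ξ) m z0 := by
            have h7 := mul_le_mul_of_nonneg_left h5 (Real.exp_pos ((m : ℝ) * lam ρ β h)).le
            rw [← mul_assoc, ← Real.exp_add, ← Real.exp_add, add_neg_cancel, Real.exp_zero,
              one_mul, mul_comm (m : ℝ)] at h7
            exact h7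
          rw [mul_comm (Qt β h n τ x η)]
          exact mul_le_mul_of_nonneg_right h6 hq
        · rw [if_neg hl, mul_zero]
          exact mul_nonneg hq (PP_nonneg _ _ _ _ _)
      have h8 := X_ins hd β h m hτ z0 η ξ (Real.exp_pos _) h4
      rw [Real.log_exp] at h8
      change b / 2 ≤ |X β h (insE τ m z0 η ξ) (n + m) - A ρ β h (n + m) -
        (X β h η n - A ρ β h n)|
      refine le_trans ?_ (le_abs_self _)
      linarith
    have h9 := measureReal_mono (μ := law d ρ) h2
    have h10 := mul_meas_ge_le_integral_of_nonneg (μ := law d ρ)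
      (Eventually.of_forall fun ξ => abs_nonneg (Y (η, ξ))) hη (b / 2)
    change b / 4 ≤ Φ η
    have h11 : 1 / 2 ≤ (law d ρ).real {ξ | b / 2 ≤ |Y (η, ξ)|} := h1.trans h9
    have h12 : b / 2 * (law d ρ).real {ξ | b / 2 ≤ |Y (η, ξ)|} ≤ Φ η := h10
    have h13 : b / 2 * (1 / 2) ≤ b / 2 * (law d ρ).real {ξ | b / 2 ≤ |Y (η, ξ)|} :=
      mul_le_mul_of_nonneg_left h11 (by positivity)
    linarith
  have hmk := mul_meas_ge_le_integral_of_nonneg (μ := law d ρ) (Eventually.of_forall hΦ0) hΦi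
    (b / 4)
  have hle : (law d ρ).real Bad ≤ (law d ρ).real {η | b / 4 ≤ Φ η} := by
    unfold Measure.real
    exact ENNReal.toReal_mono (measure_ne_top _ _) (measure_mono_ae hsub)
  have h14 : b / 4 * (law d ρ).real {η | b / 4 ≤ Φ η} ≤ 2 * Real.sqrt K := hmk.trans hΦI
  rw [le_div_iff₀ hb]
  have h15 : (law d ρ).real Bad * b ≤ (law d ρ).real {η | b / 4 ≤ Φ η} * b :=
    mul_le_mul_of_nonneg_right hle hb.le
  linarith

/-- The numbers. -/
lemma num79 {c B : ℝ} (hc : 0 < c) (d : ℕ) (hB : 0 ≤ B) (C' : ℝ) (hC : 0 ≤ C') :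
    ∃ b₁ : ℝ, 1 ≤ b₁ ∧ ∀ b : ℝ, b₁ ≤ b → ∀ m : ℕ, (m : ℝ) ≤ C' * b →
      8 * (4 * (m : ℝ) + 1) ^ d * Real.exp B ≤ Real.exp (c * b) := by
  have h1 : Tendsto (fun x : ℝ => x ^ d * Real.exp (-x)) atTop (𝓝 0) :=
    Real.tendsto_pow_mul_exp_neg_atTop_nhds_zero d
  have hK : 0 < c ^ d / (8 * (4 * C' + 1) ^ d * Real.exp B) := by positivity
  have h2 := (h1.eventually_le_const hK)
  obtain ⟨x₀, hx₀⟩ := eventually_atTop.1 h2
  refine ⟨max 1 (x₀ / c), le_max_left _ _, fun b hb m hm => ?_⟩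
  have hb1 : 1 ≤ b := (le_max_left _ _).trans hb
  have hb2 : x₀ ≤ c * b := by
    have := (le_max_right _ _).trans hb
    rw [div_le_iff₀ hc] at this
    linarith
  have h3 := hx₀ (c * b) hb2
  rw [le_div_iff₀ (by positivity), mul_pow, Real.exp_neg] at h3
  have hE := Real.exp_pos (c * b)
  have hcd : 0 < c ^ d := by positivity
  have h4 : b ^ d * (8 * (4 * C' + 1) ^ d * Real.exp B) ≤ Real.exp (c * b) := by
    have h5 : c ^ d * (b ^ d * (8 * (4 * C' + 1) ^ d * Real.exp B)) ≤
        c ^ d * Real.exp (c * b) := by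
      have h6 := mul_le_mul_of_nonneg_right h3 hE.le
      have e : c ^ d * b ^ d * (Real.exp (c * b))⁻¹ * (8 * (4 * C' + 1) ^ d * Real.exp B) *
          Real.exp (c * b) = c ^ d * (b ^ d * (8 * (4 * C' + 1) ^ d * Real.exp B)) := by
        field_simp
      rw [e] at h6
      exact h6
    exact le_of_mul_le_mul_left h5 hcd
  refine le_trans ?_ h4
  have h7 : (4 * (m : ℝ) + 1) ^ d ≤ (b * (4 * C' + 1)) ^ d := by
    refine pow_le_pow_left₀ (by positivity) ?_ d
    nlinarith
  rw [mul_pow] at h7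
  have h8 : 0 ≤ Real.exp B := (Real.exp_pos _).le
  nlinarith [mul_le_mul_of_nonneg_right h7 h8]

/-- The number of classes. -/
theorem mulT79 [IsProbabilityMeasure ρ] (hd : 0 < d) (hρ : EM ρ) (β : ℝ) (hLM : LMassP d ρ)
    (hD : DensP d ρ) : MulT d ρ β := by
  classical
  intro h hV K0 hK0 ε δ hε hδ
  set K : ℝ := max K0 1 with hKd
  have hK : 0 < K := lt_of_lt_of_le one_pos (le_max_right _ _)
  have hVK : ∀ n, Va ρ β h n ≤ K := fun n => (hK0 n).trans (le_max_left _ _)
  set P : Prm d := ⟨lam ρ β h, β, h, 1⟩ with hP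
  have hPP := Pool.Agent.W_7d29a1_P79.hP79 hd hρ hV
  set θ : ℝ := min (min (ε / 8) (1 / 32)) 1 with hθ
  have hθ0 : 0 < θ := lt_min (lt_min (by positivity) (by norm_num)) one_pos
  have hθ1 : θ ≤ ε / 8 := (min_le_left _ _).trans (min_le_left _ _)
  have hθ2 : θ ≤ 1 / 32 := (min_le_left _ _).trans (min_le_right _ _)
  have hθ3 : θ ≤ 1 := min_le_right _ _
  obtain ⟨k, y, u, hk1, hu1, hp⟩ := Pool.Agent.W_7d29a1_P79.pair79 hd hρ P hPP hθ0 hθ3
  have hu0 : 0 < u := lt_of_lt_of_le one_pos hu1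
  have hk0 : (1 : ℝ) ≤ k := by exact_mod_cast hk1
  set C' : ℝ := k * (2 / u + 1) with hC'
  have hC0 : 0 < C' := by positivity
  set c : ℝ := min (ε / 2) (1 / 4) with hc
  have hc0 : 0 < c := lt_min (by positivity) (by norm_num)
  have hc1 : c ≤ ε / 2 := min_le_left _ _
  have hc2 : c ≤ 1 / 4 := min_le_right _ _
  obtain ⟨b₁, hb11, hb₁⟩ := num79 hc0 d (B := θ * u) (by positivity) C' hC0.le
  obtain ⟨b₂, hb₂⟩ := hD β h C' δ hC0 hδ
  refine ⟨max (max b₁ b₂) (8 * Real.sqrt K / δ), fun b hb => ?_⟩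
  have hbb1 : b₁ ≤ b := ((le_max_left _ _).trans (le_max_left _ _)).trans hb
  have hbb2 : b₂ ≤ b := ((le_max_right _ _).trans (le_max_left _ _)).trans hb
  have hbb3 : 8 * Real.sqrt K / δ ≤ b := (le_max_right _ _).trans hb
  have hb1 : 1 ≤ b := hb11.trans hbb1
  have hb0 : 0 < b := by linarith
  -- the segments
  set r : ℕ := ⌈2 * b / u⌉₊ with hr
  have hr1 : 2 * b / u ≤ r := Nat.le_ceil _
  have hr2 : (r : ℝ) < 2 * b / u + 1 := Nat.ceil_lt_add_one (by positivity)
  have hU1 : 2 * b ≤ r * u := by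
    rw [div_le_iff₀ hu0] at hr1
    exact hr1
  have hU2 : (r : ℝ) * u ≤ 2 * b + u := by
    have := mul_le_mul_of_nonneg_right hr2.le hu0.le
    rw [add_mul, div_mul_cancel₀ _ hu0.ne', one_mul] at this
    exact this
  set m : ℕ := r * k with hm
  have hmC : (m : ℝ) ≤ C' * b := by
    rw [hm, hC']
    push_cast
    have h1 : (r : ℝ) ≤ (2 / u + 1) * b := by
      have h2 : 2 * b / u + 1 ≤ (2 / u + 1) * b := by
        have : 2 * b / u = 2 / u * b := by ring
        rw [this]
        nlinarith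
      linarith
    nlinarith
  obtain ⟨N₀, hN₀⟩ := hb₂ b hbb2 m hmC
  refine ⟨max N₀ 1, fun N hN => ?_⟩
  refine le_trans ?_ (hN₀ N ((le_max_left _ _).trans hN))
  have hN1 : 1 ≤ N := (le_max_right _ _).trans hN
  have hsub : ((Finset.Ico N (2 * N)).filter fun n => ∃ τ : ℕ, 1 ≤ τ ∧ τ ≤ n ∧
      ¬ (law d ρ).real {η | ¬ GoodN β h n τ b ε η} ≤ δ) ⊆
      ((Finset.Ico N (2 * N)).filter fun n =>
        ¬ (A ρ β h (n + m) - A ρ β h n ≤ lam ρ β h * m + b / 2)) := by
    intro n hn
    rw [Finset.mem_filter] at hn ⊢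
    refine ⟨hn.1, fun hA => ?_⟩
    obtain ⟨τ, hτ1, hτn, hbad⟩ := hn.2
    apply hbad
    have hn1 : 1 ≤ n := hN1.trans (Finset.mem_Ico.1 hn.1).1
    -- the probability of luck
    set z0 : Site d := r • y with hz0
    set U : ℝ := r * u with hU
    set p : ℝ := (law d ρ).real {ξ : Env d | Lk P m z0 U ξ} with hpd
    have hplow : Real.exp (-(θ * (2 * b + u))) ≤ p := by
      refine le_trans ?_ (concat78 P k y u r)
      refine le_trans ?_ (pow_le_pow_left₀ (Real.exp_pos _).le hp r)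
      rw [← Real.exp_nat_mul, Real.exp_le_exp]
      have : θ * (r * u) ≤ θ * (2 * b + u) := mul_le_mul_of_nonneg_left hU2 hθ0.le
      linarith
    have hp0 : 0 < p := (Real.exp_pos _).trans_le hplow
    have hnum := hb₁ b hbb1 m hmC
    have hpow1 : (1 : ℝ) ≤ (4 * (m : ℝ) + 1) ^ d := one_le_pow₀ (by
      have : (0 : ℝ) ≤ m := Nat.cast_nonneg m
      linarith)
    have hfin : 8 * Real.sqrt K / b ≤ δ := by
      rw [div_le_iff₀ hb0]
      rw [div_le_iff₀ hδ] at hbb3
      linarith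
    refine le_trans (insert79 hd hρ β h hK hVK hb0 hn1 hτn z0 (U := U) hA _ ?_) hfin
    intro η hη
    have hQ0 : ∀ x, 0 ≤ Qt β h n τ x η := fun x => S98.Qt_nonneg hd β h n τ x η
    -- the conclusion from the lucky mass lemma
    have key : ∀ (A : Finset (Site d)) (q : Site d → ℝ) (M : ℝ), A ⊆ boxF d n →
        (∀ x ∈ A, 0 ≤ q x) → (∀ x ∈ A, q x ≤ M) → 0 < ∑ x ∈ A, q x →
        8 * M * (4 * (m : ℝ) + 1) ^ d ≤ p * ∑ x ∈ A, q x →
        (∀ ξ : Env d, p * (∑ x ∈ A, q x) / 2 <
          (∑ x ∈ A, if Lk P m z0 U (sh τ x ξ) then q x else 0) →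
          Real.exp (b - U) ≤ ∑ x ∈ A, if Lk P m z0 U (sh τ x ξ) then Qt β h n τ x η else 0) →
        1 / 2 ≤ (law d ρ).real {ξ | Real.exp (b - U) ≤ ∑ x ∈ boxF d n,
          if Lk P m z0 U (sh τ x ξ) then Qt β h n τ x η else 0} := by
      intro A q M hAs hq0 hqM hT hnum' hgain
      have h1 := hLM P τ m z0 U A q M hq0 hqM hT hp0
      have hpT : 0 < p * ∑ x ∈ A, q x := mul_pos hp0 hT
      have h2 : 4 * M * (4 * (m : ℝ) + 1) ^ d / (p * ∑ x ∈ A, q x) ≤ 1 / 2 := by
        rw [div_le_iff₀ hpT]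
        linarith
      have hmeas : MeasurableSet {ξ : Env d | (∑ x ∈ A,
          if Lk P m z0 U (sh τ x ξ) then q x else 0) ≤ p * (∑ x ∈ A, q x) / 2} := by
        refine measurableSet_le (Finset.measurable_fun_sum _ fun x _ => ?_) measurable_const
        exact Measurable.ite ((measurable_sh τ x) (measurableSet_Lk78 P m z0 U))
          measurable_const measurable_const
      have h3 := probReal_compl_eq_one_sub (μ := law d ρ) hmeas
      have h4 : {ξ : Env d | (∑ x ∈ A, if Lk P m z0 U (sh τ x ξ) then q x else 0) ≤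
          p * (∑ x ∈ A, q x) / 2}ᶜ ⊆ {ξ | Real.exp (b - U) ≤ ∑ x ∈ boxF d n,
          if Lk P m z0 U (sh τ x ξ) then Qt β h n τ x η else 0} := by
        intro ξ hξ
        have h5 : p * (∑ x ∈ A, q x) / 2 <
          (∑ x ∈ A, if Lk P m z0 U (sh τ x ξ) then q x else 0) := not_le.1 hξ
        refine (hgain ξ h5).trans ?_
        refine Finset.sum_le_sum_of_subset_of_nonneg hAs fun x _ _ => ?_
        split_ifs
        · exact hQ0 x
        · exact le_rfl
      have h5 := measureReal_mono (μ := law d ρ) h4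
      rw [h3] at h5
      linarith
    by_cases hi : (((boxF d n).filter fun x => Real.exp (-b) ≤ Qt β h n τ x η).card : ℝ) ≤
        Real.exp (ε * b)
    · -- the mass of the small atoms is large
      have hii : Real.exp (-(b / 4)) <
          ∑ x ∈ (boxF d n).filter fun x => Qt β h n τ x η < Real.exp (-b), Qt β h n τ x η := by
        by_contra hcon
        exact hη ⟨hi, not_lt.1 hcon⟩
      set A : Finset (Site d) := (boxF d n).filter fun x => Qt β h n τ x η < Real.exp (-b) with hAd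
      have hT : 0 < ∑ x ∈ A, Qt β h n τ x η := (Real.exp_pos _).trans hii
      have hpT : Real.exp (-(θ * (2 * b + u))) * Real.exp (-(b / 4)) ≤
          p * ∑ x ∈ A, Qt β h n τ x η :=
        mul_le_mul hplow hii.le (Real.exp_pos _).le hp0.le
      rw [← Real.exp_add] at hpT
      refine key A (fun x => Qt β h n τ x η) (Real.exp (-b)) (Finset.filter_subset _ _)
        (fun x _ => hQ0 x) (fun x hx => (Finset.mem_filter.1 hx).2.le) hT ?_ ?_
      · refine le_trans ?_ hpT
        have h6 : 8 * (4 * (m : ℝ) + 1) ^ d ≤ Real.exp (c * b - θ * u) := by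
          rw [Real.exp_sub, le_div_iff₀ (Real.exp_pos _)]
          exact hnum
        have h7 : 8 * Real.exp (-b) * (4 * (m : ℝ) + 1) ^ d ≤
            Real.exp (c * b - θ * u) * Real.exp (-b) := by
          have := mul_le_mul_of_nonneg_right h6 (Real.exp_pos (-b)).le
          linarith
        refine h7.trans ?_
        rw [← Real.exp_add, Real.exp_le_exp]
        nlinarith
      · intro ξ hξ
        refine le_trans ?_ hξ.le
        refine le_trans ?_ (div_le_div_of_nonneg_right hpT two_pos.le)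
        rw [le_div_iff₀ two_pos]
        have h6 : 8 * Real.exp (θ * u) ≤ Real.exp (c * b) := by
          refine le_trans ?_ hnum
          have := mul_le_mul_of_nonneg_right hpow1 (Real.exp_pos (θ * u)).le
          linarith
        have h7 : (2 : ℝ) ≤ Real.exp (c * b - θ * u) := by
          rw [Real.exp_sub, le_div_iff₀ (Real.exp_pos _)]
          have := Real.exp_pos (θ * u)
          linarith
        calc Real.exp (b - U) * 2 ≤ Real.exp (b - U) * Real.exp (c * b - θ * u) :=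
              mul_le_mul_of_nonneg_left h7 (Real.exp_pos _).le
          _ = Real.exp (b - U + (c * b - θ * u)) := (Real.exp_add _ _).symm
          _ ≤ _ := by
            rw [Real.exp_le_exp]
            nlinarith
    · -- there are many atoms
      rw [not_le] at hi
      set A : Finset (Site d) := (boxF d n).filter fun x => Real.exp (-b) ≤ Qt β h n τ x η with hAd
      have hsum : ∑ _x ∈ A, (1 : ℝ) = A.card := by simp
      have hcard : 0 < (A.card : ℝ) := (Real.exp_pos _).trans hi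
      refine key A (fun _ => 1) 1 (Finset.filter_subset _ _) (fun _ _ => zero_le_one)
        (fun _ _ => le_rfl) (by rw [hsum]; exact hcard) ?_ ?_
      · rw [hsum]
        have hpT : Real.exp (-(θ * (2 * b + u))) * Real.exp (ε * b) ≤ p * A.card :=
          mul_le_mul hplow hi.le (Real.exp_pos _).le hp0.le
        rw [← Real.exp_add] at hpT
        refine le_trans ?_ hpT
        have h6 : 8 * (4 * (m : ℝ) + 1) ^ d ≤ Real.exp (c * b - θ * u) := by
          rw [Real.exp_sub, le_div_iff₀ (Real.exp_pos _)]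
          exact hnum
        rw [mul_one]
        refine h6.trans ?_
        rw [Real.exp_le_exp]
        nlinarith
      · intro ξ hξ
        have h6 : 0 < ∑ x ∈ A, (if Lk P m z0 U (sh τ x ξ) then (1 : ℝ) else 0) := by
          refine lt_of_le_of_lt ?_ hξ
          rw [hsum]
          positivity
        obtain ⟨x, hxA, hx⟩ := Finset.exists_ne_zero_of_sum_ne_zero h6.ne'
        have hl : Lk P m z0 U (sh τ x ξ) := by
          by_contra hcon
          exact hx (if_neg hcon)
        have h7 : Real.exp (b - U) ≤ Qt β h n τ x η := by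
          refine le_trans ?_ (Finset.mem_filter.1 hxA).2
          rw [Real.exp_le_exp]
          linarith
        refine h7.trans ?_
        have h8 := Finset.single_le_sum (s := A) (a := x)
          (f := fun x => if Lk P m z0 U (sh τ x ξ) then Qt β h n τ x η else 0)
          (fun x _ => by
            beta_reduce
            split_ifs
            · exact hQ0 x
            · exact le_rfl) hxA
        beta_reduce at h8
        rw [if_pos hl] at h8
        exact h8
  exact_mod_cast Finset.card_le_card hsub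

end Pool.Agent.W_7d29a1_NV
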