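import Pool.Agent.W_7d29a1_NV.Mul79
import Pool.Agent.W_7d29a1_NV.LMass78
import Pool.Agent.W_7d29a1_NV.Dens89

/-!
Leaf `MulT`: the number of classes.
-/

set_option autoImplicit false

namespace Pool.Agent.W_7d29a1_NV

open MeasureTheory ProbabilityTheory Filter Topology Pool.Agent.W_MP_7d29a1_pr
  Pool.Agent.W_7d29a1_h46 Pool.Agent.W_7d29a1_h46u Pool.Agent.W_7d29a1_D2.B35
  Pool.Agent.W_7d29a1_Q29 Pool.Agent.W_7d29a1_P89 Pool.Agent.W_7d29a1_P78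

variable {d : ℕ} {ρ : Measure ℝ} [IsProbabilityMeasure ρ]

theorem lMassP79 : LMassP d ρ := by
  classical
  intro P τ m z0 U A q M h0 hM hT hp
  convert lmass78 P τ m z0 U A q h0 hM hT hp

theorem densP79 (hd : 0 < d) (hρ : EM ρ) : DensP d ρ := by
  classical
  intro β h C' δ hC hδ
  obtain ⟨b₁, hb⟩ := dens89 hd hρ β h hC hδ
  refine ⟨b₁, fun b h1 m h2 => ?_⟩
  obtain ⟨N₀, h3⟩ := hb b h1 m h2
  refine ⟨N₀, fun N hN => ?_⟩
  convert h3 N hN

/-- Leaf P: the law of `S_τ` is concentrated on few sites. -/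
theorem mulEnd79 (hd : 0 < d) (hρ : EM ρ) (β : ℝ) : MulT d ρ β :=
  mulT79 hd hρ β lMassP79 (densP79 hd hρ)

end Pool.Agent.W_7d29a1_NV
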