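import Pool.Agent.W_7d29a1_NV.LMass78
import Pool.Agent.W_7d29a1_NV.Mul79
import Pool.Agent.W_7d29a1_NV.Dens89

/-!
# Theorem NV, leaf P: the number of classes (glue of the pieces of helpers 78, 79, 89)
-/

set_option autoImplicit false

namespace Pool.Agent.W_7d29a1_NV

open MeasureTheory ProbabilityTheory Filter Topology Pool.Agent.W_MP_7d29a1_pr
  Pool.Agent.W_7d29a1_h46 Pool.Agent.W_7d29a1_h46u Pool.Agent.W_7d29a1_D2.B35
  Pool.Agent.W_7d29a1_P89 Pool.Agent.W_7d29a1_P78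

variable {d : ℕ} {ρ : Measure ℝ}

theorem lmassP78 [IsProbabilityMeasure ρ] : LMassP d ρ :=
  fun P τ m z0 U A q _ h0 hM hT hp => lmass78 P τ m z0 U A q h0 hM hT hp

theorem densP89 [IsProbabilityMeasure ρ] (hd : 0 < d) (hρ : EM ρ) : DensP d ρ :=
  fun β h _ _ hC hδ => dens89 hd hρ β h hC hδ

/-- **Leaf P.** -/
theorem mulT [IsProbabilityMeasure ρ] (hd : 0 < d) (hρ : EM ρ) (β : ℝ) : MulT d ρ β :=
  mulT79 hd hρ β lmassP78 (densP89 hd hρ)

end Pool.Agent.W_7d29a1_NV
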