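import Pool.Agent.W_7d29a1_NV.Mul79

/-!
The number of classes at one length: only the variances at the lengths `n` and `n + r k` and one
increment of the mean are used (after helper79, local form by helper27).
-/

namespace Pool.Agent.W_7d29a1_NV.L27

open MeasureTheory ProbabilityTheory Filter Topology Pool.Agent.W_MP_7d29a1_pr
  Pool.Agent.W_7d29a1_h46 Pool.Agent.W_7d29a1_h46u Pool.Agent.W_7d29a1_D2.B35
  Pool.Agent.W_7d29a1_Q29 Pool.Agent.W_7d29a1_P89 Pool.Agent.W_7d29a1_P78

variable {d : ℕ} {ρ : Measure ℝ}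

open Classical in
/-- One insertion: a set of environments on which the insertion gains `b` with probability at least
one half is small. -/
theorem insert27 [IsProbabilityMeasure ρ] (hd : 0 < d) (hρ : EM ρ) (β : ℝ) (h : Vec d)
    {K b : ℝ} (hK : 0 < K) (hb : 0 < b) {n τ m : ℕ} (hV1 : Va ρ β h n ≤ K)
    (hV2 : Va ρ β h (n + m) ≤ K) (hn : 1 ≤ n) (hτ : τ ≤ n) (z0 : Site d) {U : ℝ}
    (hA : A ρ β h (n + m) - A ρ β h n ≤ lam ρ β h * m + b / 2) (Bad : Set (Env d))
    (hBad : ∀ η ∈ Bad, 1 / 2 ≤ (law d ρ).real {ξ | Real.exp (b - U) ≤ ∑ x ∈ boxF d n,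
      if Lk (⟨lam ρ β h, β, h, 1⟩ : Prm d) m z0 U (sh τ x ξ) then Qt β h n τ x η else 0}) :
    (law d ρ).real Bad ≤ 8 * Real.sqrt K / b := by
  set P : Prm d := ⟨lam ρ β h, β, h, 1⟩ with hP
  set Y : Env d × Env d → ℝ := fun w =>
    X β h (insE τ m z0 w.1 w.2) (n + m) - A ρ β h (n + m) - (X β h w.1 n - A ρ β h n) with hY
  have hmp := mp_ins (d := d) (ρ := ρ) τ m z0
  obtain ⟨i1, j1⟩ := absVa79 hd hρ β h (n := n + m) (by omega) hK hV2
  obtain ⟨i2, j2⟩ := absVa79 hd hρ β h (n := n) hn hK hV1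
  have k1 : Integrable (fun w : Env d × Env d =>
      |X β h (insE τ m z0 w.1 w.2) (n + m) - A ρ β h (n + m)|) ((law d ρ).prod (law d ρ)) :=
    hmp.integrable_comp_of_integrable i1
  have k2 : Integrable (fun w : Env d × Env d => |X β h w.1 n - A ρ β h n|)
      ((law d ρ).prod (law d ρ)) := i2.comp_fst (law d ρ)
  have l1 : ∫ w, |X β h (insE τ m z0 w.1 w.2) (n + m) - A ρ β h (n + m)|
      ∂((law d ρ).prod (law d ρ)) ≤ Real.sqrt K := by
    rw [← LawU_integral hmp (F := fun g => |X β h g (n + m) - A ρ β h (n + m)|)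
      i1.aestronglyMeasurable] at j1
    exact j1
  have l2 : ∫ w : Env d × Env d, |X β h w.1 n - A ρ β h n| ∂((law d ρ).prod (law d ρ)) ≤
      Real.sqrt K := by
    rw [← LawU_integral (measurePreserving_fst (μ := law d ρ) (ν := law d ρ))
      (F := fun g => |X β h g n - A ρ β h n|) i2.aestronglyMeasurable] at j2
    exact j2
  have hYm : AEStronglyMeasurable Y ((law d ρ).prod (law d ρ)) := by
    have m1 : Measurable fun w : Env d × Env d => X β h (insE τ m z0 w.1 w.2) (n + m) :=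
      (measurable_X β h (n + m)).comp hmp.measurable
    have m2 : Measurable fun w : Env d × Env d => X β h w.1 n :=
      (measurable_X β h n).comp measurable_fst
    exact ((m1.sub_const _).sub (m2.sub_const _)).aestronglyMeasurable
  have hYle : ∀ w, |Y w| ≤ |X β h (insE τ m z0 w.1 w.2) (n + m) - A ρ β h (n + m)| +
      |X β h w.1 n - A ρ β h n| := fun w => abs_sub _ _
  have hYi : Integrable (fun w => |Y w|) ((law d ρ).prod (law d ρ)) := by
    refine (k1.add k2).mono' hYm.norm (Eventually.of_forall fun w => ?_)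
    rw [Real.norm_eq_abs, abs_abs]
    exact hYle w
  have hYI : ∫ w, |Y w| ∂((law d ρ).prod (law d ρ)) ≤ 2 * Real.sqrt K := by
    have h1 := integral_mono hYi (k1.add k2) hYle
    simp only [Pi.add_apply] at h1
    rw [integral_add k1 k2] at h1
    linarith
  set Φ : Env d → ℝ := fun η => ∫ ξ, |Y (η, ξ)| ∂(law d ρ) with hΦ
  have hΦ0 : ∀ η, 0 ≤ Φ η := fun η => integral_nonneg fun _ => abs_nonneg _
  have hΦi : Integrable Φ (law d ρ) := hYi.integral_prod_left
  have hΦI : ∫ η, Φ η ∂(law d ρ) ≤ 2 * Real.sqrt K := by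
    rw [hΦ, ← integral_prod _ hYi]
    exact hYI
  have hsec : ∀ᵐ η ∂(law d ρ), Integrable (fun ξ => |Y (η, ξ)|) (law d ρ) :=
    hYi.prod_right_ae
  have hsub : ∀ᵐ η ∂(law d ρ), η ∈ Bad → η ∈ {η | b / 4 ≤ Φ η} := by
    filter_upwards [hsec] with η hη hbad
    have h1 := hBad η hbad
    have h2 : {ξ : Env d | Real.exp (b - U) ≤ ∑ x ∈ boxF d n,
        if Lk P m z0 U (sh τ x ξ) then Qt β h n τ x η else 0} ⊆ {ξ | b / 2 ≤ |Y (η, ξ)|} := by
      intro ξ hξ
      have h3 : Real.exp (b - U) ≤ ∑ x ∈ boxF d n,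
        if Lk P m z0 U (sh τ x ξ) then Qt β h n τ x η else 0 := hξ
      have h4 : Real.exp (lam ρ β h * m + b) ≤
          ∑ x ∈ boxF d τ, Qt β h n τ x η * PP β h (sh τ x ξ) m z0 := by
        have e1 : ∑ x ∈ boxF d τ, Qt β h n τ x η * PP β h (sh τ x ξ) m z0 =
            ∑ x ∈ boxF d n, Qt β h n τ x η * PP β h (sh τ x ξ) m z0 := by
          refine Finset.sum_subset (boxF_mono79 hτ) fun x _ hx => ?_
          rw [S98.Qt_off hx, zero_mul]
        rw [e1]
        have e2 : Real.exp (lam ρ β h * m + b) =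
            Real.exp (lam ρ β h * m + U) * Real.exp (b - U) := by
          rw [← Real.exp_add]
          congr 1
          ring
        rw [e2]
        refine (mul_le_mul_of_nonneg_left h3 (Real.exp_pos _).le).trans ?_
        rw [Finset.mul_sum]
        refine Finset.sum_le_sum fun x _ => ?_
        have hq := S98.Qt_nonneg hd β h n τ x η
        by_cases hl : Lk P m z0 U (sh τ x ξ)
        · rw [if_pos hl]
          have h5 : Real.exp U ≤ Real.exp (-((m : ℝ) * lam ρ β h)) * PP β h (sh τ x ξ) m z0 := hl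
          have h6 : Real.exp (lam ρ β h * m + U) ≤ PP β h (sh τ x ξ) m z0 := by
            have h7 := mul_le_mul_of_nonneg_left h5 (Real.exp_pos ((m : ℝ) * lam ρ β h)).le
            rw [← mul_assoc, ← Real.exp_add, ← Real.exp_add, add_neg_cancel, Real.exp_zero,
              one_mul, mul_comm (m : ℝ)] at h7
            exact h7
          rw [mul_comm (Qt β h n τ x η)]
          exact mul_le_mul_of_nonneg_right h6 hq
        · rw [if_neg hl, mul_zero]
          exact mul_nonneg hq (PP_nonneg _ _ _ _ _)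
      have h8 := X_ins hd β h m hτ z0 η ξ (Real.exp_pos _) h4
      rw [Real.log_exp] at h8
      change b / 2 ≤ |X β h (insE τ m z0 η ξ) (n + m) - A ρ β h (n + m) -
        (X β h η n - A ρ β h n)|
      refine le_trans ?_ (le_abs_self _)
      linarith
    have h9 := measureReal_mono (μ := law d ρ) h2
    have h10 := mul_meas_ge_le_integral_of_nonneg (μ := law d ρ)
      (Eventually.of_forall fun ξ => abs_nonneg (Y (η, ξ))) hη (b / 2)
    change b / 4 ≤ Φ η
    have h11 : 1 / 2 ≤ (law d ρ).real {ξ | b / 2 ≤ |Y (η, ξ)|} := h1.trans h9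
    have h12 : b / 2 * (law d ρ).real {ξ | b / 2 ≤ |Y (η, ξ)|} ≤ Φ η := h10
    have h13 : b / 2 * (1 / 2) ≤ b / 2 * (law d ρ).real {ξ | b / 2 ≤ |Y (η, ξ)|} :=
      mul_le_mul_of_nonneg_left h11 (by positivity)
    linarith
  have hmk := mul_meas_ge_le_integral_of_nonneg (μ := law d ρ) (Eventually.of_forall hΦ0) hΦi
    (b / 4)
  have hle : (law d ρ).real Bad ≤ (law d ρ).real {η | b / 4 ≤ Φ η} := by
    unfold Measure.real
    exact ENNReal.toReal_mono (measure_ne_top _ _) (measure_mono_ae hsub)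
  have h14 : b / 4 * (law d ρ).real {η | b / 4 ≤ Φ η} ≤ 2 * Real.sqrt K := hmk.trans hΦI
  rw [le_div_iff₀ hb]
  have h15 : (law d ρ).real Bad * b ≤ (law d ρ).real {η | b / 4 ≤ Φ η} * b :=
    mul_le_mul_of_nonneg_right hle hb.le
  linarith

/-- The number of classes at one length. -/
theorem mulL27 [IsProbabilityMeasure ρ] (hd : 0 < d) (hρ : EM ρ) (β : ℝ) (hLM : LMassP d ρ)
    {h : Vec d} (hV : VSD ρ β h) {ε δ K : ℝ} (hε : 0 < ε) (hδ : 0 < δ) (hK : 0 < K) :
    ∃ (k : ℕ) (u : ℝ) (r₀ : ℕ), 1 ≤ k ∧ 0 < u ∧ ∀ r : ℕ, r₀ ≤ r → ∀ n τ : ℕ, 1 ≤ n → τ ≤ n →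
      Va ρ β h n ≤ K → Va ρ β h (n + r * k) ≤ K →
      A ρ β h (n + r * k) - A ρ β h n ≤
        lam ρ β h * ((r * k : ℕ) : ℝ) + (r * u / 2) / 2 →
        (law d ρ).real {η | ¬ GoodN β h n τ (r * u / 2) ε η} ≤ δ := by
  classical
  set P : Prm d := ⟨lam ρ β h, β, h, 1⟩ with hP
  have hPP := Pool.Agent.W_7d29a1_P79.hP79 hd hρ hV
  set θ : ℝ := min (min (ε / 8) (1 / 32)) 1 with hθ
  have hθ0 : 0 < θ := lt_min (lt_min (by positivity) (by norm_num)) one_pos
  have hθ1 : θ ≤ ε / 8 := (min_le_left _ _).trans (min_le_left _ _)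
  have hθ2 : θ ≤ 1 / 32 := (min_le_left _ _).trans (min_le_right _ _)
  have hθ3 : θ ≤ 1 := min_le_right _ _
  obtain ⟨k, y, u, hk1, hu1, hp⟩ := Pool.Agent.W_7d29a1_P79.pair79 hd hρ P hPP hθ0 hθ3
  have hu0 : 0 < u := lt_of_lt_of_le one_pos hu1
  have hk0 : (1 : ℝ) ≤ k := by exact_mod_cast hk1
  set C' : ℝ := k * (2 / u + 1) with hC'
  have hC0 : 0 < C' := by positivity
  set c : ℝ := min (ε / 2) (1 / 4) with hc
  have hc0 : 0 < c := lt_min (by positivity) (by norm_num)
  have hc1 : c ≤ ε / 2 := min_le_left _ _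
  have hc2 : c ≤ 1 / 4 := min_le_right _ _
  obtain ⟨b₁, hb11, hb₁⟩ := num79 hc0 d (B := θ * u) (by positivity) C' hC0.le
  refine ⟨k, u, ⌈2 * max b₁ (8 * Real.sqrt K / δ) / u⌉₊, hk1, hu0, fun r hr n τ hn1 hτn hVn hVm
    hA => ?_⟩
  set b : ℝ := r * u / 2 with hbd
  have hbb : max b₁ (8 * Real.sqrt K / δ) ≤ b := by
    have h1 : 2 * max b₁ (8 * Real.sqrt K / δ) / u ≤ r :=
      (Nat.le_ceil _).trans (by exact_mod_cast hr)
    rw [div_le_iff₀ hu0] at h1
    rw [hbd]
    linarith
  have hbb1 : b₁ ≤ b := (le_max_left _ _).trans hbb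
  have hbb3 : 8 * Real.sqrt K / δ ≤ b := (le_max_right _ _).trans hbb
  have hb1 : 1 ≤ b := hb11.trans hbb1
  have hb0 : 0 < b := by linarith
  have hU1 : 2 * b ≤ r * u := by
    rw [hbd]
    linarith
  have hU2 : (r : ℝ) * u ≤ 2 * b + u := by
    rw [hbd]
    linarith
  set m : ℕ := r * k with hm
  have hmC : (m : ℝ) ≤ C' * b := by
    rw [hm, hC']
    push_cast
    have h1 : (r : ℝ) ≤ (2 / u + 1) * b := by
      have h2 : (2 / u) * b = r := by
        rw [hbd]
        field_simp
      rw [add_mul, h2, one_mul]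
      linarith
    nlinarith
  -- the probability of luck
  set z0 : Site d := r • y with hz0
  set U : ℝ := r * u with hU
  set p : ℝ := (law d ρ).real {ξ : Env d | Lk P m z0 U ξ} with hpd
  have hplow : Real.exp (-(θ * (2 * b + u))) ≤ p := by
    refine le_trans ?_ (concat78 P k y u r)
    refine le_trans ?_ (pow_le_pow_left₀ (Real.exp_pos _).le hp r)
    rw [← Real.exp_nat_mul, Real.exp_le_exp]
    have : θ * (r * u) ≤ θ * (2 * b + u) := mul_le_mul_of_nonneg_left hU2 hθ0.le
    linarith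
  have hp0 : 0 < p := (Real.exp_pos _).trans_le hplow
  have hnum := hb₁ b hbb1 m hmC
  have hpow1 : (1 : ℝ) ≤ (4 * (m : ℝ) + 1) ^ d := one_le_pow₀ (by
    have : (0 : ℝ) ≤ m := Nat.cast_nonneg m
    linarith)
  have hfin : 8 * Real.sqrt K / b ≤ δ := by
    rw [div_le_iff₀ hb0]
    rw [div_le_iff₀ hδ] at hbb3
    linarith
  refine le_trans (insert27 hd hρ β h hK hb0 hVn hVm hn1 hτn z0 (U := U) hA _ ?_) hfin
  intro η hη
  have hQ0 : ∀ x, 0 ≤ Qt β h n τ x η := fun x => S98.Qt_nonneg hd β h n τ x η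
  -- the conclusion from the lucky mass lemma
  have key : ∀ (A : Finset (Site d)) (q : Site d → ℝ) (M : ℝ), A ⊆ boxF d n →
      (∀ x ∈ A, 0 ≤ q x) → (∀ x ∈ A, q x ≤ M) → 0 < ∑ x ∈ A, q x →
      8 * M * (4 * (m : ℝ) + 1) ^ d ≤ p * ∑ x ∈ A, q x →
      (∀ ξ : Env d, p * (∑ x ∈ A, q x) / 2 <
        (∑ x ∈ A, if Lk P m z0 U (sh τ x ξ) then q x else 0) →
        Real.exp (b - U) ≤ ∑ x ∈ A, if Lk P m z0 U (sh τ x ξ) then Qt β h n τ x η else 0) →
      1 / 2 ≤ (law d ρ).real {ξ | Real.exp (b - U) ≤ ∑ x ∈ boxF d n,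
        if Lk P m z0 U (sh τ x ξ) then Qt β h n τ x η else 0} := by
    intro A q M hAs hq0 hqM hT hnum' hgain
    have h1 := hLM P τ m z0 U A q M hq0 hqM hT hp0
    have hpT : 0 < p * ∑ x ∈ A, q x := mul_pos hp0 hT
    have h2 : 4 * M * (4 * (m : ℝ) + 1) ^ d / (p * ∑ x ∈ A, q x) ≤ 1 / 2 := by
      rw [div_le_iff₀ hpT]
      linarith
    have hmeas : MeasurableSet {ξ : Env d | (∑ x ∈ A,
        if Lk P m z0 U (sh τ x ξ) then q x else 0) ≤ p * (∑ x ∈ A, q x) / 2} := by
      refine measurableSet_le (Finset.measurable_fun_sum _ fun x _ => ?_) measurable_const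
      exact Measurable.ite ((measurable_sh τ x) (measurableSet_Lk78 P m z0 U))
        measurable_const measurable_const
    have h3 := probReal_compl_eq_one_sub (μ := law d ρ) hmeas
    have h4 : {ξ : Env d | (∑ x ∈ A, if Lk P m z0 U (sh τ x ξ) then q x else 0) ≤
        p * (∑ x ∈ A, q x) / 2}ᶜ ⊆ {ξ | Real.exp (b - U) ≤ ∑ x ∈ boxF d n,
        if Lk P m z0 U (sh τ x ξ) then Qt β h n τ x η else 0} := by
      intro ξ hξ
      have h5 : p * (∑ x ∈ A, q x) / 2 <
        (∑ x ∈ A, if Lk P m z0 U (sh τ x ξ) then q x else 0) := not_le.1 hξ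
      refine (hgain ξ h5).trans ?_
      refine Finset.sum_le_sum_of_subset_of_nonneg hAs fun x _ _ => ?_
      split_ifs
      · exact hQ0 x
      · exact le_rfl
    have h5 := measureReal_mono (μ := law d ρ) h4
    rw [h3] at h5
    linarith
  by_cases hi : (((boxF d n).filter fun x => Real.exp (-b) ≤ Qt β h n τ x η).card : ℝ) ≤
      Real.exp (ε * b)
  · -- the mass of the small atoms is large
    have hii : Real.exp (-(b / 4)) <
        ∑ x ∈ (boxF d n).filter fun x => Qt β h n τ x η < Real.exp (-b), Qt β h n τ x η := by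
      by_contra hcon
      exact hη ⟨hi, not_lt.1 hcon⟩
    set A : Finset (Site d) := (boxF d n).filter fun x => Qt β h n τ x η < Real.exp (-b) with hAd
    have hT : 0 < ∑ x ∈ A, Qt β h n τ x η := (Real.exp_pos _).trans hii
    have hpT : Real.exp (-(θ * (2 * b + u))) * Real.exp (-(b / 4)) ≤
        p * ∑ x ∈ A, Qt β h n τ x η :=
      mul_le_mul hplow hii.le (Real.exp_pos _).le hp0.le
    rw [← Real.exp_add] at hpT
    refine key A (fun x => Qt β h n τ x η) (Real.exp (-b)) (Finset.filter_subset _ _)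
      (fun x _ => hQ0 x) (fun x hx => (Finset.mem_filter.1 hx).2.le) hT ?_ ?_
    · refine le_trans ?_ hpT
      have h6 : 8 * (4 * (m : ℝ) + 1) ^ d ≤ Real.exp (c * b - θ * u) := by
        rw [Real.exp_sub, le_div_iff₀ (Real.exp_pos _)]
        exact hnum
      have h7 : 8 * Real.exp (-b) * (4 * (m : ℝ) + 1) ^ d ≤
          Real.exp (c * b - θ * u) * Real.exp (-b) := by
        have := mul_le_mul_of_nonneg_right h6 (Real.exp_pos (-b)).le
        linarith
      refine h7.trans ?_
      rw [← Real.exp_add, Real.exp_le_exp]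
      nlinarith
    · intro ξ hξ
      refine le_trans ?_ hξ.le
      refine le_trans ?_ (div_le_div_of_nonneg_right hpT two_pos.le)
      rw [le_div_iff₀ two_pos]
      have h6 : 8 * Real.exp (θ * u) ≤ Real.exp (c * b) := by
        refine le_trans ?_ hnum
        have := mul_le_mul_of_nonneg_right hpow1 (Real.exp_pos (θ * u)).le
        linarith
      have h7 : (2 : ℝ) ≤ Real.exp (c * b - θ * u) := by
        rw [Real.exp_sub, le_div_iff₀ (Real.exp_pos _)]
        have := Real.exp_pos (θ * u)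
        linarith
      calc Real.exp (b - U) * 2 ≤ Real.exp (b - U) * Real.exp (c * b - θ * u) :=
            mul_le_mul_of_nonneg_left h7 (Real.exp_pos _).le
        _ = Real.exp (b - U + (c * b - θ * u)) := (Real.exp_add _ _).symm
        _ ≤ _ := by
          rw [Real.exp_le_exp]
          nlinarith
  · -- there are many atoms
    rw [not_le] at hi
    set A : Finset (Site d) := (boxF d n).filter fun x => Real.exp (-b) ≤ Qt β h n τ x η with hAd
    have hsum : ∑ _x ∈ A, (1 : ℝ) = A.card := by simp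
    have hcard : 0 < (A.card : ℝ) := (Real.exp_pos _).trans hi
    refine key A (fun _ => 1) 1 (Finset.filter_subset _ _) (fun _ _ => zero_le_one)
      (fun _ _ => le_rfl) (by rw [hsum]; exact hcard) ?_ ?_
    · rw [hsum]
      have hpT : Real.exp (-(θ * (2 * b + u))) * Real.exp (ε * b) ≤ p * A.card :=
        mul_le_mul hplow hi.le (Real.exp_pos _).le hp0.le
      rw [← Real.exp_add] at hpT
      refine le_trans ?_ hpT
      have h6 : 8 * (4 * (m : ℝ) + 1) ^ d ≤ Real.exp (c * b - θ * u) := by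
        rw [Real.exp_sub, le_div_iff₀ (Real.exp_pos _)]
        exact hnum
      rw [mul_one]
      refine h6.trans ?_
      rw [Real.exp_le_exp]
      nlinarith
    · intro ξ hξ
      have h6 : 0 < ∑ x ∈ A, (if Lk P m z0 U (sh τ x ξ) then (1 : ℝ) else 0) := by
        refine lt_of_le_of_lt ?_ hξ
        rw [hsum]
        positivity
      obtain ⟨x, hxA, hx⟩ := Finset.exists_ne_zero_of_sum_ne_zero h6.ne'
      have hl : Lk P m z0 U (sh τ x ξ) := by
        by_contra hcon
        exact hx (if_neg hcon)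
      have h7 : Real.exp (b - U) ≤ Qt β h n τ x η := by
        refine le_trans ?_ (Finset.mem_filter.1 hxA).2
        rw [Real.exp_le_exp]
        linarith
      refine h7.trans ?_
      have h8 := Finset.single_le_sum (s := A) (a := x)
        (f := fun x => if Lk P m z0 U (sh τ x ξ) then Qt β h n τ x η else 0)
        (fun x _ => by
          beta_reduce
          split_ifs
          · exact hQ0 x
          · exact le_rfl) hxA
      beta_reduce at h8
      rw [if_pos hl] at h8
      exact h8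

end Pool.Agent.W_7d29a1_NV.L27
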