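import Pool.Agent.W_7d29a1_NV.Marg77
import Pool.Agent.W_7d29a1_NV.MeasN66

/-!
One row against the other rows: resampling of all the rows is resampling of the row `i` in the
environment with the other rows resampled.
-/

namespace Pool.Agent.W_7d29a1_NV

open MeasureTheory ProbabilityTheory Filter Topology Pool.Agent.W_MP_7d29a1_pr
  Pool.Agent.W_7d29a1_h46 Pool.Agent.W_7d29a1_h46u Pool.Agent.W_7d29a1_D2.B35
  Pool.Agent.W_7d29a1_Q29

variable {d : ℕ}

/-! ### Combinatorics of `mxJ` -/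

lemma mxJ_row77 {b : ℝ} {k : ℕ} {T : Fin k → ℕ} (hT : Function.Injective T) (η : Env d)
    (ξ : Fin k → Env d) {p : ℕ × Site d} {i : Fin k} (hi : T i = p.1) (hp : |η p| ≤ b) :
    mxJ b T η ξ p = cl b (ξ i p) := by
  classical
  unfold mxJ
  have h1 : (∃ i, T i = p.1) ∧ |η p| ≤ b := ⟨⟨i, hi⟩, hp⟩
  rw [dif_pos h1]
  have h2 : h1.1.choose = i := hT (h1.1.choose_spec.trans hi.symm)
  rw [h2]

lemma mxJ_off77 {b : ℝ} {k : ℕ} {T : Fin k → ℕ} (η : Env d) (ξ : Fin k → Env d)
    {p : ℕ × Site d} (h : ∀ i, T i ≠ p.1) : mxJ b T η ξ p = η p := by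
  classical
  unfold mxJ
  rw [dif_neg]
  rintro ⟨⟨i, hi⟩, -⟩
  exact h i hi

lemma mxJ_big77 {b : ℝ} {k : ℕ} {T : Fin k → ℕ} (η : Env d) (ξ : Fin k → Env d)
    {p : ℕ × Site d} (h : ¬ |η p| ≤ b) : mxJ b T η ξ p = η p := by
  classical
  unfold mxJ
  rw [dif_neg fun h1 => h h1.2]

/-- The rows one by one. -/
lemma mxJ_insert77 (b : ℝ) {m : ℕ} {T : Fin (m + 1) → ℕ} (hT : Function.Injective T)
    (i : Fin (m + 1)) (η : Env d) (ξ : Fin (m + 1) → Env d) :
    mxJ b T η ξ = mx b (T i) (mxJ b (fun j => T (i.succAbove j)) η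
      (fun j => ξ (i.succAbove j))) (ξ i) := by
  classical
  have hT' : Function.Injective fun j => T (i.succAbove j) :=
    hT.comp Fin.succAbove_right_injective
  funext p
  unfold mx
  by_cases hi : p.1 = T i
  · have h1 : ∀ j, (fun j => T (i.succAbove j)) j ≠ p.1 := fun j h2 =>
      Fin.succAbove_ne i j (hT (h2.trans hi))
    rw [mxJ_off77 η _ h1]
    by_cases hp : |η p| ≤ b
    · rw [if_pos ⟨hi, hp⟩, mxJ_row77 hT η ξ hi.symm hp]
    · rw [if_neg (fun h2 => hp h2.2), mxJ_big77 η ξ hp]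
  · rw [if_neg (fun h2 => hi h2.1)]
    by_cases hp : |η p| ≤ b
    · by_cases hj : ∃ j, T (i.succAbove j) = p.1
      · obtain ⟨j, hj⟩ := hj
        rw [mxJ_row77 hT η ξ hj hp, mxJ_row77 hT' η _ hj hp]
      · have h3 : ∀ j, T j ≠ p.1 := by
          intro j h4
          by_cases hji : j = i
          · exact hi (by rw [← h4, hji])
          · obtain ⟨j', hj'⟩ := Fin.exists_succAbove_eq hji
            exact hj ⟨j', by rw [hj', h4]⟩
        rw [mxJ_off77 η ξ h3, mxJ_off77 η _ fun j h4 => hj ⟨j, h4⟩]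
    · rw [mxJ_big77 η ξ hp, mxJ_big77 η _ hp]

/-! ### Locality -/

/-- The weights see the rows `1, ..., m` only. -/
lemma ZT_congr77 (β : ℝ) (h : Vec d) {m : ℕ} {η η' : Env d}
    (he : ∀ p : ℕ × Site d, 1 ≤ p.1 → p.1 ≤ m → η p = η' p) (E : Set (Fin m → Step d)) :
    ZT β h η E = ZT β h η' E := by
  unfold ZT
  refine Finset.sum_congr rfl fun s _ => ?_
  have h1 : energy η s = energy η' s := by
    unfold energy
    exact Finset.sum_congr rfl fun i _ => he _ (Nat.le_add_left 1 i) i.2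
  unfold wgt
  rw [h1]

/-- A segment sees its rows only. -/
lemma sg_congr77 (β : ℝ) (h : Vec d) {a b' : ℕ} {η η' : Env d}
    (he : ∀ p : ℕ × Site d, a < p.1 → p.1 ≤ b' → η p = η' p) (x y : Site d) :
    sg β h a b' x y η = sg β h a b' x y η' := by
  unfold sg PP
  refine ZT_congr77 β h (fun p h1 h2 => ?_) _
  unfold sh
  exact he _ (by simp only; omega) (by simp only; omega)

lemma mx_congr77 (b : ℝ) (t : ℕ) {η η' : Env d} (ξ : Env d) {p : ℕ × Site d} (h : η p = η' p) :
    mx b t η ξ p = mx b t η' ξ p := by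
  unfold mx
  rw [h]

lemma uab_congr77 (ρ : Measure ℝ) (β b : ℝ) (h : Vec d) (t : ℕ) {a b' : ℕ} {η η' : Env d}
    (he : ∀ p : ℕ × Site d, a < p.1 → p.1 ≤ b' → η p = η' p) (x y : Site d) (ξ : Env d) :
    uab ρ β b h t a b' x y η ξ = uab ρ β b h t a b' x y η' ξ := by
  unfold uab
  rw [sg_congr77 β h (fun p h1 h2 => mx_congr77 b t (fun _ => c0 ρ β b) (he p h1 h2)) x y,
    sg_congr77 β h (fun p h1 h2 => mx_congr77 b t ξ (he p h1 h2)) x y]

lemma psab_congr77 (ρ : Measure ℝ) (β b : ℝ) (h : Vec d) (t : ℕ) {a b' : ℕ} {η η' : Env d}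
    (he : ∀ p : ℕ × Site d, a < p.1 → p.1 ≤ b' → η p = η' p) (x y : Site d) :
    psab ρ β b h t a b' x y η = psab ρ β b h t a b' x y η' := by
  unfold psab
  congr 1
  funext ξ
  rw [uab_congr77 ρ β b h t he x y ξ]

/-! ### Order -/

lemma Ord.mono77 {n k : ℕ} {T : Fin k → ℕ} {r : Fin (k + 1) → ℕ} (h : Ord n T r) :
    Monotone r := Fin.monotone_iff_le_succ.2 fun i => (h.1 i).1.le.trans (h.1 i).2

lemma Ord.strict77 {n k : ℕ} {T : Fin k → ℕ} {r : Fin (k + 1) → ℕ} (h : Ord n T r) :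
    StrictMono T := by
  intro i j hij
  have h1 : i.succ ≤ j.castSucc := by
    rw [Fin.le_def, Fin.val_succ, Fin.val_castSucc]
    exact hij
  exact ((h.1 i).2.trans (h.mono77 h1)).trans_lt (h.1 j).1

/-- The other rows are outside of the segment. -/
lemma Ord.out77 {n k : ℕ} {T : Fin k → ℕ} {r : Fin (k + 1) → ℕ} (h : Ord n T r) {i j : Fin k}
    (hij : j ≠ i) : ¬ (r i.castSucc < T j ∧ T j ≤ r i.succ) := by
  rintro ⟨h1, h2⟩
  rcases lt_or_gt_of_ne hij with h3 | h3
  · have h4 : j.succ ≤ i.castSucc := by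
      rw [Fin.le_def, Fin.val_succ, Fin.val_castSucc]
      exact h3
    exact absurd (h1.trans_le ((h.1 j).2.trans (h.mono77 h4))) (lt_irrefl _)
  · have h4 : i.succ ≤ j.castSucc := by
      rw [Fin.le_def, Fin.val_succ, Fin.val_castSucc]
      exact h3
    exact absurd ((h.mono77 h4).trans_lt (h.1 j).1) (not_lt.2 h2)

/-! ### Measures -/

/-- **The environment with the other rows resampled has the law of the environment and is
independent of the values in the row `i`.** -/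
lemma rest77 {ρ : Measure ℝ} {b : ℝ} [IsProbabilityMeasure ρ] (hb : HB ρ b) (hW : MixT d ρ b)
    {m : ℕ} {T : Fin (m + 1) → ℕ} (hT : Function.Injective T) (i : Fin (m + 1)) :
    MeasurePreserving (fun w : Env d × (Fin (m + 1) → Env d) =>
      (mxJ b (fun j => T (i.succAbove j)) w.1 (fun j => w.2 (i.succAbove j)), w.2 i))
      ((law d ρ).prod (Measure.pi fun _ => law d (rb ρ b)))
      ((law d ρ).prod (law d (rb ρ b))) := by
  have := M66.prob_rb hb
  have h1 := (MeasurePreserving.id (law d ρ)).prod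
    (measurePreserving_piFinSuccAbove (fun _ : Fin (m + 1) => law d (rb ρ b)) i)
  have h2 := (MeasurePreserving.id (law d ρ)).prod
    (Measure.measurePreserving_swap (μ := law d (rb ρ b))
      (ν := Measure.pi fun _ : Fin m => law d (rb ρ b)))
  have h3 := (measurePreserving_prodAssoc (law d ρ) (Measure.pi fun _ : Fin m => law d (rb ρ b))
    (law d (rb ρ b))).symm
  have h4 := (hW m (fun j => T (i.succAbove j)) (hT.comp Fin.succAbove_right_injective)).prod
    (MeasurePreserving.id (law d (rb ρ b)))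
  exact h4.comp (h3.comp (h2.comp h1))

end Pool.Agent.W_7d29a1_NV
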