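import Mathlib

/-!
# MP_7d29a1_pr, THEOREM NV: the abstract row block, part (0) and (2) (helper6)
-/

set_option autoImplicit false

noncomputable section

open MeasureTheory Set Filter Topology

namespace Pool.Agent.W_7d29a1_NV

section zero

variable {Ω : Type} [MeasurableSpace Ω] {S : Type} [Fintype S]

/-- The partition function of the classes. -/
def zz6 (Q : S → ℝ) (G : S → Ω → ℝ) (x : Ω) : ℝ := ∑ s, Q s * Real.exp (G s x)

/-- The Gibbs law of the classes. -/
def gi6 (Q : S → ℝ) (G : S → Ω → ℝ) (x : Ω) (s : S) : ℝ := Q s * Real.exp (G s x) / zz6 Q G x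

theorem zz6_pos [Nonempty S] {Q : S → ℝ} (hQ : ∀ s, 0 < Q s) (G : S → Ω → ℝ) (x : Ω) :
    0 < zz6 Q G x := Finset.sum_pos (fun s _ => mul_pos (hQ s) (Real.exp_pos _))
      Finset.univ_nonempty

theorem gi6_pos [Nonempty S] {Q : S → ℝ} (hQ : ∀ s, 0 < Q s) (G : S → Ω → ℝ) (x : Ω) (s : S) :
    0 < gi6 Q G x s := div_pos (mul_pos (hQ s) (Real.exp_pos _)) (zz6_pos hQ G x)

theorem gi6_sum [Nonempty S] {Q : S → ℝ} (hQ : ∀ s, 0 < Q s) (G : S → Ω → ℝ) (x : Ω) :
    ∑ s, gi6 Q G x s = 1 := by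
  unfold gi6
  rw [← Finset.sum_div]
  exact div_self (zz6_pos hQ G x).ne'

theorem gi6_le [Nonempty S] {Q : S → ℝ} (hQ : ∀ s, 0 < Q s) (G : S → Ω → ℝ) (x : Ω) (s : S) :
    gi6 Q G x s ≤ 1 := by
  rw [← gi6_sum hQ G x]
  exact Finset.single_le_sum (fun t _ => (gi6_pos hQ G x t).le) (Finset.mem_univ s)

/-- The logarithm of the ratio of two Gibbs laws. -/
theorem gi6_log [Nonempty S] {Q : S → ℝ} (hQ : ∀ s, 0 < Q s) (G : S → Ω → ℝ) (x y : Ω) (s : S) :
    Real.log (gi6 Q G x s / gi6 Q G y s) =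
      G s x - G s y - (Real.log (zz6 Q G x) - Real.log (zz6 Q G y)) := by
  have h1 := (zz6_pos hQ G x).ne'
  have h2 := (zz6_pos hQ G y).ne'
  have h3 := (hQ s).ne'
  unfold gi6
  rw [Real.log_div (div_ne_zero (mul_ne_zero h3 (Real.exp_ne_zero _)) h1)
      (div_ne_zero (mul_ne_zero h3 (Real.exp_ne_zero _)) h2),
    Real.log_div (mul_ne_zero h3 (Real.exp_ne_zero _)) h1,
    Real.log_div (mul_ne_zero h3 (Real.exp_ne_zero _)) h2,
    Real.log_mul h3 (Real.exp_ne_zero _), Real.log_mul h3 (Real.exp_ne_zero _),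
    Real.log_exp, Real.log_exp]
  ring

theorem gi6_kl [Nonempty S] {Q : S → ℝ} (hQ : ∀ s, 0 < Q s) (G : S → Ω → ℝ) (x y : Ω) :
    ∑ s, gi6 Q G x s * Real.log (gi6 Q G x s / gi6 Q G y s) =
      (∑ s, gi6 Q G x s * (G s x - G s y)) -
        (Real.log (zz6 Q G x) - Real.log (zz6 Q G y)) := by
  have h1 : ∀ s, gi6 Q G x s * Real.log (gi6 Q G x s / gi6 Q G y s) =
      gi6 Q G x s * (G s x - G s y) -
        gi6 Q G x s * (Real.log (zz6 Q G x) - Real.log (zz6 Q G y)) := by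
    intro s
    rw [gi6_log hQ]
    ring
  rw [Finset.sum_congr rfl fun s _ => h1 s, Finset.sum_sub_distrib, ← Finset.sum_mul,
    gi6_sum hQ, one_mul]

theorem zz6_meas (Q : S → ℝ) {G : S → Ω → ℝ} (hG : ∀ s, Measurable (G s)) :
    Measurable (zz6 Q G) :=
  Finset.measurable_sum _ fun s _ => (Real.measurable_exp.comp (hG s)).const_mul _

theorem gi6_meas (Q : S → ℝ) {G : S → Ω → ℝ} (hG : ∀ s, Measurable (G s)) (s : S) :
    Measurable fun x => gi6 Q G x s :=
  ((Real.measurable_exp.comp (hG s)).const_mul _).div (zz6_meas Q hG)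

/-- The logarithm of the partition function is between the classes. -/
theorem zz6_abs [Nonempty S] {Q : S → ℝ} (hQ : ∀ s, 0 < Q s) (G : S → Ω → ℝ) (x : Ω) :
    |Real.log (zz6 Q G x)| ≤ (∑ s, |Real.log (Q s)|) + |Real.log (∑ s, Q s)| + ∑ s, |G s x| := by
  obtain ⟨s0⟩ := (inferInstance : Nonempty S)
  have hz := zz6_pos hQ G x
  have hS : 0 < ∑ s, Q s := Finset.sum_pos (fun s _ => hQ s) Finset.univ_nonempty
  have hG : ∀ s, |G s x| ≤ ∑ t, |G t x| := fun s =>
    Finset.single_le_sum (f := fun t => |G t x|) (fun t _ => abs_nonneg _) (Finset.mem_univ s)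
  have hL : ∀ s, |Real.log (Q s)| ≤ ∑ t, |Real.log (Q t)| := fun s =>
    Finset.single_le_sum (f := fun t => |Real.log (Q t)|) (fun t _ => abs_nonneg _)
      (Finset.mem_univ s)
  have hG0 : (0 : ℝ) ≤ ∑ t, |G t x| := Finset.sum_nonneg fun t _ => abs_nonneg _
  have hL0 : (0 : ℝ) ≤ ∑ t, |Real.log (Q t)| := Finset.sum_nonneg fun t _ => abs_nonneg _
  rw [abs_le]
  constructor
  · have h1 : Q s0 * Real.exp (G s0 x) ≤ zz6 Q G x :=
      Finset.single_le_sum (f := fun s => Q s * Real.exp (G s x))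
        (fun s _ => (mul_pos (hQ s) (Real.exp_pos _)).le) (Finset.mem_univ s0)
    have h2 := Real.log_le_log (mul_pos (hQ s0) (Real.exp_pos _)) h1
    rw [Real.log_mul (hQ s0).ne' (Real.exp_ne_zero _), Real.log_exp] at h2
    have h3 := neg_abs_le (Real.log (Q s0))
    have h4 := neg_abs_le (G s0 x)
    have h5 := hG s0
    have h6 := hL s0
    have h7 := abs_nonneg (Real.log (∑ s, Q s))
    linarith
  · have h1 : zz6 Q G x ≤ (∑ s, Q s) * Real.exp (∑ t, |G t x|) := by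
      unfold zz6
      rw [Finset.sum_mul]
      refine Finset.sum_le_sum fun s _ => ?_
      refine mul_le_mul_of_nonneg_left (Real.exp_le_exp.2 ?_) (hQ s).le
      exact (le_abs_self _).trans (hG s)
    have h2 := Real.log_le_log hz h1
    rw [Real.log_mul hS.ne' (Real.exp_ne_zero _), Real.log_exp] at h2
    have h3 := le_abs_self (Real.log (∑ s, Q s))
    linarith

theorem zz6_int [Nonempty S] {P : Measure Ω} [IsProbabilityMeasure P] {Q : S → ℝ}
    (hQ : ∀ s, 0 < Q s) {G : S → Ω → ℝ} (hG : ∀ s, Measurable (G s))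
    (hi : ∀ s, Integrable (G s) P) : Integrable (fun x => Real.log (zz6 Q G x)) P := by
  have h1 : Integrable (fun x => (∑ s, |Real.log (Q s)|) + |Real.log (∑ s, Q s)| +
      ∑ s, |G s x|) P :=
    (integrable_const _).add (integrable_finsetSum _ fun s _ => (hi s).abs)
  refine h1.mono' (Real.measurable_log.comp (zz6_meas Q hG)).aestronglyMeasurable ?_
  filter_upwards with x
  rw [Real.norm_eq_abs]
  exact zz6_abs hQ G x

theorem gi6_mul_int [Nonempty S] {P : Measure Ω} [IsProbabilityMeasure P] {Q : S → ℝ}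
    (hQ : ∀ s, 0 < Q s) {G : S → Ω → ℝ} (hG : ∀ s, Measurable (G s)) (s : S)
    {f : Ω → ℝ} (hf : Integrable f P) : Integrable (fun x => gi6 Q G x s * f x) P := by
  refine hf.bdd_mul (c := 1) (gi6_meas Q hG s).aestronglyMeasurable ?_
  filter_upwards with x
  rw [Real.norm_eq_abs, abs_of_pos (gi6_pos hQ G x s)]
  exact gi6_le hQ G x s

/-- **Resampling is selection**, general form: `x` and `y` independent, `y = x'` resampled in an
arbitrary measure preserving way. -/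
theorem sel6 [Nonempty S] {Θ : Type} [MeasurableSpace Θ] {P : Measure Ω} [IsProbabilityMeasure P]
    {ν : Measure Θ} [IsProbabilityMeasure ν] {Q : S → ℝ} (hQ : ∀ s, 0 < Q s)
    {G : S → Ω → ℝ} (hG : ∀ s, Measurable (G s)) (hi : ∀ s, Integrable (G s) P)
    {r : Ω × Θ → Ω} (hr : MeasurePreserving r (P.prod ν) P)
    {g : S → Ω → ℝ} {h : S → Θ → ℝ} (hg : ∀ s, Integrable (g s) P)
    (hh : ∀ s, Integrable (h s) ν)
    (hd : ∀ s x y, G s x - G s (r (x, y)) = g s x - h s y) :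
    ∫ p, ∑ s, gi6 Q G p.1 s * Real.log (gi6 Q G p.1 s / gi6 Q G (r p) s) ∂(P.prod ν) =
      ∫ x, ∑ s, gi6 Q G x s * (g s x - ∫ y, h s y ∂ν) ∂P := by
  have hz := zz6_int hQ hG hi
  have i1 : ∀ s, Integrable (fun p : Ω × Θ => gi6 Q G p.1 s * g s p.1) (P.prod ν) := by
    intro s
    exact (gi6_mul_int hQ hG s (hg s)).comp_fst ν
  have i2 : ∀ s, Integrable (fun p : Ω × Θ => gi6 Q G p.1 s * h s p.2) (P.prod ν) := by
    intro s
    have h1 : Integrable (fun x => gi6 Q G x s) P := by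
      have h2 := gi6_mul_int hQ hG s (integrable_const (μ := P) (1 : ℝ))
      simpa using h2
    exact h1.mul_prod (hh s)
  have i3 : Integrable (fun p : Ω × Θ => Real.log (zz6 Q G p.1)) (P.prod ν) := hz.comp_fst ν
  have i4 : Integrable (fun p : Ω × Θ => Real.log (zz6 Q G (r p))) (P.prod ν) :=
    hr.integrable_comp_of_integrable hz
  have e1 : ∀ p : Ω × Θ, ∑ s, gi6 Q G p.1 s * Real.log (gi6 Q G p.1 s / gi6 Q G (r p) s) =
      (∑ s, (gi6 Q G p.1 s * g s p.1 - gi6 Q G p.1 s * h s p.2)) -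
        (Real.log (zz6 Q G p.1) - Real.log (zz6 Q G (r p))) := by
    intro p
    rw [gi6_kl hQ]
    congr 1
    refine Finset.sum_congr rfl fun s _ => ?_
    have h1 := hd s p.1 p.2
    rw [Prod.mk.eta] at h1
    rw [h1]
    ring
  have i5 : ∀ s, Integrable (fun p : Ω × Θ => gi6 Q G p.1 s * g s p.1 -
      gi6 Q G p.1 s * h s p.2) (P.prod ν) := fun s => (i1 s).sub (i2 s)
  have i6 : Integrable (fun p : Ω × Θ => Real.log (zz6 Q G p.1) - Real.log (zz6 Q G (r p)))
      (P.prod ν) := i3.sub i4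
  have i7 : Integrable (fun p : Ω × Θ => ∑ s, (gi6 Q G p.1 s * g s p.1 -
      gi6 Q G p.1 s * h s p.2)) (P.prod ν) := integrable_finsetSum _ fun s _ => i5 s
  rw [integral_congr_ae (Filter.Eventually.of_forall e1), integral_sub i7 i6,
    integral_sub i3 i4, integral_finsetSum _ fun s _ => i5 s]
  have e2 : ∫ p : Ω × Θ, Real.log (zz6 Q G p.1) ∂(P.prod ν) = ∫ x, Real.log (zz6 Q G x) ∂P := by
    rw [integral_prod _ i3]
    simp
  have e3 : ∫ p : Ω × Θ, Real.log (zz6 Q G (r p)) ∂(P.prod ν) =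
      ∫ x, Real.log (zz6 Q G x) ∂P := by
    have h1 := hr.map_eq
    have h2 : ∫ x, Real.log (zz6 Q G x) ∂(Measure.map r (P.prod ν)) =
        ∫ p, Real.log (zz6 Q G (r p)) ∂(P.prod ν) :=
      integral_map hr.measurable.aemeasurable
        (Real.measurable_log.comp (zz6_meas Q hG)).aestronglyMeasurable
    rw [← h2, h1]
  rw [e2, e3, sub_self, sub_zero]
  have e4 : ∀ s, ∫ p : Ω × Θ, (gi6 Q G p.1 s * g s p.1 - gi6 Q G p.1 s * h s p.2) ∂(P.prod ν) =
      ∫ x, gi6 Q G x s * (g s x - ∫ y, h s y ∂ν) ∂P := by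
    intro s
    rw [integral_sub (i1 s) (i2 s)]
    have h1 : ∫ p : Ω × Θ, gi6 Q G p.1 s * g s p.1 ∂(P.prod ν) =
        ∫ x, gi6 Q G x s * g s x ∂P := by
      rw [integral_prod _ (i1 s)]
      simp
    have h2 : ∫ p : Ω × Θ, gi6 Q G p.1 s * h s p.2 ∂(P.prod ν) =
        (∫ x, gi6 Q G x s ∂P) * ∫ y, h s y ∂ν :=
      integral_prod_mul (μ := P) (ν := ν) (fun x => gi6 Q G x s) (fun y => h s y)
    rw [h1, h2, ← integral_mul_const, ← integral_sub (gi6_mul_int hQ hG s (hg s))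
      ((gi6_mul_int hQ hG s (integrable_const _)))]
    refine integral_congr_ae (Filter.Eventually.of_forall fun x => ?_)
    ring
  rw [Finset.sum_congr rfl fun s _ => e4 s, ← integral_finsetSum]
  intro s _
  exact gi6_mul_int hQ hG s ((hg s).sub (integrable_const _))

end zero

end Pool.Agent.W_7d29a1_NV
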