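import Pool.Agent.W_7d29a1_NV.CoreF92

/-!
Theorem NV: rows with a small total selection in a window of constant size behind any time.
-/

namespace Pool.Agent.W_7d29a1_NV

open MeasureTheory ProbabilityTheory Filter Topology Pool.Agent.W_MP_7d29a1_pr
  Pool.Agent.W_7d29a1_h46 Pool.Agent.W_7d29a1_h46u Pool.Agent.W_7d29a1_D2.B35
  Pool.Agent.W_7d29a1_Q29

/-- Behind any time `p` there are `q` separated rows, in a window of constant size, with a total
selection at most `s`, if the laws of the positions in this window are concentrated. -/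
def RowsW (d : ℕ) (ρ : Measure ℝ) (β b : ℝ) : Prop := ∀ (q : ℕ) (s : ℝ), 1 ≤ q → 0 < s → s ≤ 1 →
  ∃ ε δ b₂ : ℝ, 0 < ε ∧ 0 < δ ∧ ∀ b₀ : ℝ, b₂ ≤ b₀ → ∃ n₀ : ℕ, ∀ (h : Vec d) (n p : ℕ),
    p + n₀ ≤ n →
    (∀ τ : ℕ, p < τ → τ ≤ p + n₀ → (law d ρ).real {η | ¬ GoodN β h n τ b₀ ε η} ≤ δ) →
      ∃ (T : Fin q → ℕ) (r : Fin (q + 1) → ℕ), Ord n T r ∧ (∀ i, p < T i) ∧ p < r 0 ∧
        (∀ i : Fin q, r i.succ < n) ∧ (∀ i : Fin q, T i ≤ p + n₀) ∧
        0 ≤ ∑ i : Fin q, kap ρ β b h n (T i) (r i.castSucc) (r i.succ) ∧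
        ∑ i : Fin q, kap ρ β b h n (T i) (r i.castSucc) (r i.succ) ≤ s

theorem rowsW92 {d : ℕ} {ρ : Measure ℝ} {β b : ℝ} (hb : 0 ≤ b)
    (h1 : OneP d ρ β b) (h3 : MonT d ρ β b) : RowsW d ρ β b := by
  intro q s hq1 hs0 hs1
  set B := Bc β b with hBd
  have hB : 1 ≤ B := by
    rw [hBd]
    unfold Bc
    have := mul_nonneg (abs_nonneg β) hb
    linarith
  have hq0 : (1 : ℝ) ≤ q := by exact_mod_cast hq1
  obtain ⟨η, hη⟩ : ∃ η : ℝ, η = s / q := ⟨_, rfl⟩
  have hη0 : 0 < η := by rw [hη]; positivity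
  have hη1 : η ≤ 1 := by
    rw [hη, div_le_one (by linarith)]
    linarith
  obtain ⟨θ, hθ⟩ : ∃ θ : ℝ, θ = η / (40 * B ^ 2) := ⟨_, rfl⟩
  have hθ0 : 0 < θ := by rw [hθ]; positivity
  have hθ1 : θ ≤ 1 / (2 * B) := by
    rw [hθ, div_le_div_iff₀ (by positivity) (by positivity)]
    nlinarith
  obtain ⟨δ, hδ⟩ : ∃ δ : ℝ, δ = η / (40 * B) := ⟨_, rfl⟩
  have hδ0 : 0 < δ := by rw [hδ]; positivity
  obtain ⟨C₁, hC⟩ : ∃ C₁ : ℝ, C₁ = 16 * B + 160 * B / η := ⟨_, rfl⟩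
  have hC0 : 0 < C₁ := by rw [hC]; positivity
  obtain ⟨ε, hε⟩ : ∃ ε : ℝ, ε = η * θ / (40 * C₁) := ⟨_, rfl⟩
  have hε0 : 0 < ε := by rw [hε]; positivity
  refine ⟨ε, δ, C₁ * q * (10 / (η * θ) + 1), hε0, hδ0, fun b₀ hb₀ => ?_⟩
  have hCq : 0 < C₁ * q := by positivity
  have hb₀0 : 0 ≤ b₀ := le_trans (by positivity) hb₀
  obtain ⟨p, hp⟩ : ∃ p : ℕ, p = ⌊b₀ / (C₁ * q)⌋₊ := ⟨_, rfl⟩
  have hp1 : (p : ℝ) ≤ b₀ / (C₁ * q) := by
    rw [hp]
    exact Nat.floor_le (by positivity)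
  have hp2 : b₀ / (C₁ * q) < p + 1 := by
    rw [hp]
    exact Nat.lt_floor_add_one _
  have hp3 : 10 / (η * θ) + 1 ≤ b₀ / (C₁ * q) := by
    rw [le_div_iff₀ hCq]
    linarith
  have hp4 : 10 / (η * θ) ≤ p := by linarith
  have hp5 : 0 < p := by
    have : (0 : ℝ) < p := lt_of_lt_of_le (by positivity) hp4
    exact_mod_cast this
  have hp6 : (1 : ℝ) ≤ p := by exact_mod_cast hp5
  obtain ⟨k, hk⟩ : ∃ k : ℕ, k = q * p := ⟨_, rfl⟩
  have hkR : (k : ℝ) = q * p := by rw [hk]; push_cast; ring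
  have hk1 : 1 ≤ k := by
    rw [hk]
    exact Nat.mul_pos hq1 hp5
  have hk1R : (1 : ℝ) ≤ k := by exact_mod_cast hk1
  have hpk : (p : ℝ) ≤ k := by
    rw [hkR]
    nlinarith
  have hbk1 : C₁ * k ≤ b₀ := by
    rw [le_div_iff₀ hCq] at hp1
    rw [hkR]
    linarith
  have hbk2 : b₀ ≤ 2 * C₁ * k := by
    have h5 : b₀ / (C₁ * q) ≤ 2 * p := by linarith
    rw [div_le_iff₀ hCq] at h5
    rw [hkR]
    linarith
  obtain ⟨ς, hς⟩ : ∃ ς : ℝ, ς = η / (20 * B * k * Real.exp (5 * B * k)) := ⟨_, rfl⟩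
  have hς0 : 0 < ς := by rw [hς]; positivity
  set M : ℝ := 4 * |β| * b with hM
  have hM0 : 0 ≤ M := by positivity
  obtain ⟨J, hJ⟩ := exists_nat_gt (4 * k * M / ς ^ 2 + 1)
  have hJ1 : (1 : ℝ) < J := by
    have : 0 ≤ 4 * k * M / ς ^ 2 := by positivity
    linarith
  have hJ2 : 1 ≤ J := by exact_mod_cast hJ1.le
  have hJ3 : 2 * (2 * k * M / J) ≤ ς ^ 2 := by
    have h5 : 4 * k * M / ς ^ 2 < J := by linarith
    rw [div_lt_iff₀ (by positivity)] at h5
    have h6 : 2 * (2 * k * M / J) = 4 * k * M / J := by ring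
    rw [h6, div_le_iff₀ (by linarith)]
    linarith
  -- the scales
  obtain ⟨hh, hhd⟩ : ∃ hh : ℕ, hh = 2 * k + 1 := ⟨_, rfl⟩
  have hh1 : 1 ≤ hh := by omega
  obtain ⟨H, hH⟩ : ∃ H : ℕ, H = hh ^ J := ⟨_, rfl⟩
  have hLe : ∀ j ≤ J, hh ^ j ≤ H := fun j hj => by
    rw [hH]
    exact Nat.pow_le_pow_right hh1 hj
  have hL1 : ∀ j, 1 ≤ hh ^ j := fun j => Nat.one_le_pow _ _ hh1
  have hH1 : 1 ≤ H := by
    rw [hH]
    exact hL1 J
  obtain ⟨N, hN⟩ : ∃ N : ℕ, N = 2 * (H * k) := ⟨_, rfl⟩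
  have hHk : 1 ≤ H * k := Nat.mul_pos hH1 hk1
  refine ⟨H + 1 + 2 * N + H + 1, fun h n t₁ hn hgood => ?_⟩
  obtain ⟨a, ha⟩ : ∃ a : ℕ, a = t₁ + H + 1 := ⟨_, rfl⟩
  -- the plateau
  obtain ⟨j, hj, t0, ht0, hsum⟩ := plat92 (k := k) (J := J) (N := N) (a := a) (M := M)
    (f := fun j t => kap ρ β b h n t (t - hh ^ j) (t + hh ^ j)) (s := fun j => 2 * hh ^ j)
    (by omega) hJ2 (fun j hj => by
      have h5 := hLe j hj.le
      have h6 : hh ^ j * k ≤ H * k := Nat.mul_le_mul_right k h5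
      calc 2 * hh ^ j * k = 2 * (hh ^ j * k) := by ring
        _ ≤ N := by omega)
    (fun t ht => by
      have h5 := hL1 J
      have h6 := hLe J le_rfl
      exact (h3 h n (a + t) (a + t - hh ^ J) (a + t - hh ^ J) (a + t + hh ^ J) (a + t + hh ^ J)
        le_rfl (by omega) (by omega) le_rfl (by omega)).1)
    (fun t ht => by
      have h5 := hL1 0
      have h6 := hLe 0 (Nat.zero_le _)
      exact (h3 h n (a + t) (a + t - hh ^ 0) (a + t - hh ^ 0) (a + t + hh ^ 0) (a + t + hh ^ 0)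
        le_rfl (by omega) (by omega) le_rfl (by omega)).2.1)
    (fun j hj t ht => by
      have h5 := hL1 j
      have h6 := hLe (j + 1) hj
      have h7 : hh ^ j ≤ hh ^ (j + 1) := Nat.pow_le_pow_right hh1 (Nat.le_succ j)
      exact (h3 h n (a + t) (a + t - hh ^ j) (a + t - hh ^ (j + 1)) (a + t + hh ^ j)
        (a + t + hh ^ (j + 1)) (by omega) (by omega) (by omega) (by omega) (by omega)).2.2)
  obtain ⟨L, hL⟩ : ∃ L : ℕ, L = hh ^ j := ⟨_, rfl⟩
  have hL' : hh ^ (j + 1) = 2 * (k * L) + L := by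
    rw [pow_succ, ← hL, hhd]
    ring
  have hLH : 2 * (k * L) + L ≤ H := by
    rw [← hL']
    exact hLe (j + 1) hj
  have hL0 : 1 ≤ L := by
    rw [hL]
    exact hL1 j
  simp only [hL'] at hsum
  simp only [← hL] at hsum
  obtain ⟨T0, hT0⟩ : ∃ T0 : ℕ, T0 = a + t0 := ⟨_, rfl⟩
  rw [← hT0] at hsum
  have hkL : k * L ≤ H * k := by
    rw [mul_comm H k]
    exact Nat.mul_le_mul_left k (by omega)
  -- the rows and the separators, at any starting index
  have hord : ∀ i0 m : ℕ, i0 + m ≤ k → Ord n (fun i : Fin m => T0 + 2 * (L * (i0 + i)))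
      (fun i : Fin (m + 1) => T0 - L + 2 * (L * (i0 + i))) := by
    intro i0 m him
    have h9 : L * (i0 + m) ≤ k * L := by
      rw [mul_comm k L]
      exact Nat.mul_le_mul_left L him
    refine ⟨fun i => ?_, ?_⟩
    · simp only [Fin.val_castSucc, Fin.val_succ]
      have h8 : L * (i0 + (i + 1)) = L * (i0 + i) + L := by ring
      rw [h8]
      omega
    · simp only [Fin.val_last]
      omega
  have hseg : ∀ i0 : ℕ, i0 < k → T0 - L + 2 * (L * i0) = T0 + 2 * (L * i0) - L ∧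
      T0 - L + 2 * (L * (i0 + 1)) = T0 + 2 * (L * i0) + L := by
    intro i0 _
    have h8 : L * (i0 + 1) = L * i0 + L := by ring
    rw [h8]
    omega
  -- the selections
  set κ : ℕ → ℝ := fun i => kap ρ β b h n (T0 + 2 * (L * i)) (T0 + 2 * (L * i) - L)
    (T0 + 2 * (L * i) + L) with hκ
  set κo : ℕ → ℝ := fun i => kap ρ β b h n (T0 + 2 * (L * i)) (T0 - L + 2 * (L * (0 + 0)))
    (T0 - L + 2 * (L * (0 + k))) with hκo
  have hLi : ∀ i < k, L * i ≤ k * L := fun i hi => by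
    rw [mul_comm k L]
    exact Nat.mul_le_mul_left L hi.le
  have hκ0 : ∀ i < k, 0 ≤ κ i := fun i hi => by
    have h9 := hLi i hi
    exact (h3 h n _ _ _ _ _ le_rfl (by omega) (by omega) le_rfl (by omega)).1
  have hd1 : ∀ i < k, kap ρ β b h n (T0 + 2 * (L * i)) (T0 + 2 * (L * i) - (2 * (k * L) + L))
      (T0 + 2 * (L * i) + (2 * (k * L) + L)) ≤ κo i := fun i hi => by
    have h9 := hLi i hi
    have h10 : L * (i + 1) ≤ k * L := by
      rw [mul_comm k L]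
      exact Nat.mul_le_mul_left L hi
    have h11 : L * (i + 1) = L * i + L := by ring
    have h12 : L * (0 + 0) = 0 := by ring
    have h13 : L * (0 + k) = k * L := by ring
    simp only [hκo]
    rw [h12, h13]
    exact (h3 h n _ _ _ _ _ (by omega) (by omega) (by omega) (by omega) (by omega)).2.2
  -- the outer pins
  have hG1 := hgood (T0 - L + 2 * (L * (0 + 0))) (by omega) (by
    have h12 : L * (0 + 0) = 0 := by ring
    rw [h12]
    omega)
  have hG2 := hgood (T0 - L + 2 * (L * (0 + k))) (by omega) (by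
    have h13 : L * (0 + k) = k * L := by ring
    rw [h13]
    omega)
  obtain ⟨hO1, hO2⟩ := h1 h n k _ _ (hord 0 k (by omega)) θ ε b₀ δ hθ0 hθ1 hε0.le hb₀0 hG1
    (by simpa only [Fin.val_last] using hG2)
  have hkapi : ∀ i : Fin k, kap ρ β b h n (T0 + 2 * (L * (0 + i)))
      (T0 - L + 2 * (L * (0 + ((i.castSucc : Fin (k + 1)) : ℕ))))
      (T0 - L + 2 * (L * (0 + ((i.succ : Fin (k + 1)) : ℕ)))) = κ i := by
    intro i
    obtain ⟨h8, h9⟩ := hseg i i.2
    simp only [Fin.val_castSucc, Fin.val_succ, zero_add, hκ]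
    rw [h8, h9]
  have hkapo : ∀ i : Fin k, kap ρ β b h n (T0 + 2 * (L * (0 + i)))
      (T0 - L + 2 * (L * (0 + (((0 : Fin (k + 1))) : ℕ))))
      (T0 - L + 2 * (L * (0 + ((Fin.last k : Fin (k + 1)) : ℕ)))) = κo i := by
    intro i
    simp only [Fin.val_zero, Fin.val_last, zero_add, hκo]
  simp only [hkapi, hkapo] at hO1 hO2
  have hsum2 : ∑ i ∈ Finset.range k, (κ i - κo i) ≤ 2 * k * M / J := by
    refine le_trans (Finset.sum_le_sum fun i hi => ?_) hsum
    rw [Finset.mem_range] at hi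
    have h8 := hd1 i hi
    have h9 : 2 * L * i = 2 * (L * i) := by ring
    rw [h9]
    simp only [hκ]
    linarith
  have hSg : ∑ i : Fin k, Real.sqrt (2 * (κ i - κo i)) ≤ k * ς := by
    have h8 : ∀ i : Fin k, Real.sqrt (2 * (κ i - κo i)) ≤ ς := by
      intro i
      refine Real.sqrt_le_iff.2 ⟨hς0.le, ?_⟩
      have h9 : κ i - κo i ≤ ∑ i ∈ Finset.range k, (κ i - κo i) := by
        refine Finset.single_le_sum (f := fun i => κ i - κo i) (fun l hl => ?_)
          (Finset.mem_range.2 i.2)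
        rw [Finset.mem_range] at hl
        have := hO1 ⟨l, hl⟩
        simp only at this
        linarith
      linarith
    refine (Finset.sum_le_sum fun i _ => h8 i).trans (le_of_eq ?_)
    rw [Finset.sum_const, Finset.card_univ, Fintype.card_fin, nsmul_eq_mul]
  have hR := sum92 hB hη0 hθ hδ hC hε hk1R (hp4.trans hpk) hbk1 hbk2 hς hSg hO2
  -- the block
  have hblk : ∑ i ∈ Finset.range (q * p), κ i ≤ s * p := by
    rw [← hk, Finset.sum_range]
    refine hR.trans (le_of_eq ?_)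
    rw [hη, hkR]
    field_simp
  obtain ⟨l, hl, hl2⟩ := block92 hp5 hblk
  have hlk : q * l + q ≤ k := by
    rw [hk, ← Nat.mul_succ]
    exact Nat.mul_le_mul_left q hl
  have hkapl : ∀ i : Fin q, kap ρ β b h n (T0 + 2 * (L * (q * l + i)))
      (T0 - L + 2 * (L * (q * l + ((i.castSucc : Fin (q + 1)) : ℕ))))
      (T0 - L + 2 * (L * (q * l + ((i.succ : Fin (q + 1)) : ℕ)))) = κ (q * l + i) := by
    intro i
    have hi := i.2
    obtain ⟨h8, h9⟩ := hseg (q * l + i) (by omega)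
    simp only [Fin.val_castSucc, Fin.val_succ, hκ]
    rw [h8, ← add_assoc, h9]
  refine ⟨fun i : Fin q => T0 + 2 * (L * (q * l + i)),
    fun i : Fin (q + 1) => T0 - L + 2 * (L * (q * l + i)), hord (q * l) q hlk, fun i => ?_, ?_,
    fun i => ?_, fun i => ?_, ?_, ?_⟩
  · simp only
    omega
  · simp only
    omega
  · have h9 : L * (q * l + ((i.succ : Fin (q + 1)) : ℕ)) ≤ k * L := by
      rw [mul_comm k L]
      refine Nat.mul_le_mul_left L ?_
      have := i.2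
      simp only [Fin.val_succ]
      omega
    simp only
    omega
  · have h9 : L * (q * l + (i : ℕ)) ≤ k * L := by
      rw [mul_comm k L]
      refine Nat.mul_le_mul_left L ?_
      have := i.2
      omega
    simp only
    omega
  · simp only [hkapl]
    refine Finset.sum_nonneg fun i _ => hκ0 _ ?_
    have := i.2
    omega
  · simp only [hkapl]
    rw [← Finset.sum_range (fun i => κ (q * l + i))]
    exact hl2

end Pool.Agent.W_7d29a1_NV
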