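import Pool.Agent.W_7d29a1_NV.One52

/-!
Leaf T1 (`OneT`) of Theorem NV: the telescope over the rows (S3) and the base law of the classes
(S4), from the estimate of one row (S2).
-/

namespace Pool.Agent.W_7d29a1_NV

open MeasureTheory ProbabilityTheory Filter Topology Kl52

section Hyb

variable {Ω : Type} [MeasurableSpace Ω] {k : ℕ}

/-- The rows `i < j` of `ω'`, the other rows of `ω`. -/
def hyb52 (j : ℕ) (ω ω' : Fin k → Ω) (i : Fin k) : Ω := if (i : ℕ) < j then ω' i else ω i

omit [MeasurableSpace Ω] in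
lemma hyb_zero (ω ω' : Fin k → Ω) : hyb52 0 ω ω' = ω := by
  funext i; simp [hyb52]

omit [MeasurableSpace Ω] in
lemma hyb_last (ω ω' : Fin k → Ω) : hyb52 k ω ω' = ω' := by
  funext i; simp [hyb52, i.2]

omit [MeasurableSpace Ω] in
lemma hyb_succ (ω ω' : Fin k → Ω) (j : Fin k) :
    hyb52 ((j : ℕ) + 1) ω ω' = Function.update (hyb52 j ω ω') j (ω' j) := by
  funext i
  by_cases h : i = j
  · subst h; simp [hyb52]
  · have hne : (i : ℕ) ≠ j := fun e => h (Fin.ext e)
    rw [Function.update_of_ne h]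
    unfold hyb52
    by_cases h1 : (i : ℕ) < j
    · rw [if_pos h1, if_pos (by omega)]
    · rw [if_neg h1, if_neg (by omega)]

lemma mp_hyb (P : Measure Ω) [IsProbabilityMeasure P] (j : Fin k) :
    MeasurePreserving (fun w : (Fin k → Ω) × (Fin k → Ω) => (hyb52 (j : ℕ) w.1 w.2, w.2 j))
      ((Measure.pi fun _ => P).prod (Measure.pi fun _ => P)) ((Measure.pi fun _ => P).prod P) := by
  have he := measurePreserving_arrowProdEquivProdArrow Ω Ω (Fin k) (fun _ => P) (fun _ => P)
  have hS : MeasurePreserving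
      (fun (g : Fin k → Ω × Ω) (i : Fin k) => (if (i : ℕ) < j then Prod.swap else id) (g i))
      (Measure.pi fun _ => P.prod P) (Measure.pi fun _ => P.prod P) := by
    refine measurePreserving_pi _ _ fun i => ?_
    split_ifs
    · exact Measure.measurePreserving_swap
    · exact MeasurePreserving.id _
  have hE : MeasurePreserving (Prod.map id (Function.eval j))
      ((Measure.pi fun _ : Fin k => P).prod (Measure.pi fun _ : Fin k => P))
      ((Measure.pi fun _ => P).prod P) :=
    (MeasurePreserving.id _).prod (measurePreserving_eval (fun _ => P) j)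
  have h := hE.comp (he.comp (hS.comp he.symm))
  convert h using 1
  funext w
  refine Prod.ext ?_ ?_
  · funext i
    change hyb52 (j : ℕ) w.1 w.2 i = ((if (i : ℕ) < j then Prod.swap else id) (w.1 i, w.2 i)).1
    unfold hyb52
    split_ifs <;> rfl
  · change w.2 j = ((if (j : ℕ) < j then Prod.swap else id) (w.1 j, w.2 j)).2
    simp

/-- A bounded measurable function is integrable. -/
lemma ibg52 {X : Type*} [MeasurableSpace X] {μ : Measure X} [IsProbabilityMeasure μ]
    {g : X → ℝ} {C : ℝ} (hg : Measurable g) (hC : ∀ x, |g x| ≤ C) : Integrable g μ :=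
  (integrable_const C).mono' hg.aestronglyMeasurable
    (Filter.Eventually.of_forall fun x => by rw [Real.norm_eq_abs]; exact hC x)

/-- Jensen for the square root. -/
lemma int_sqrt52 {X : Type*} [MeasurableSpace X] {μ : Measure X} [IsProbabilityMeasure μ]
    {g : X → ℝ} (hg : Integrable g μ) (h0 : ∀ x, 0 ≤ g x)
    (hs : Integrable (fun x => Real.sqrt (g x)) μ) :
    ∫ x, Real.sqrt (g x) ∂μ ≤ Real.sqrt (∫ x, g x ∂μ) := by
  have hH : 0 ≤ ∫ x, g x ∂μ := integral_nonneg h0
  have key : ∀ c : ℝ, 0 < c → ∫ x, Real.sqrt (g x) ∂μ ≤ ((∫ x, g x ∂μ) / c + c) / 2 := by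
    intro c hc
    have h1 : ∫ x, Real.sqrt (g x) ∂μ ≤ ∫ x, (g x / c + c) / 2 ∂μ := by
      refine integral_mono hs (((hg.div_const c).add (integrable_const c)).div_const 2) fun x => ?_
      have h2 := Real.sq_sqrt (h0 x)
      have h3 : (g x / c + c) / 2 - Real.sqrt (g x) = (Real.sqrt (g x) - c) ^ 2 / (2 * c) := by
        field_simp
        nlinarith
      have h4 : 0 ≤ (Real.sqrt (g x) - c) ^ 2 / (2 * c) := by positivity
      simp only
      linarith
    have h5 : ∫ x, (g x / c + c) / 2 ∂μ = ((∫ x, g x ∂μ) / c + c) / 2 := by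
      have e1 : ∫ x, (g x / c + c) ∂μ = ∫ x, g x / c ∂μ + ∫ _x, c ∂μ :=
        integral_add (hg.div_const c) (integrable_const c)
      rw [integral_div, e1, integral_div, integral_const, probReal_univ, one_smul]
    linarith
  rcases hH.lt_or_eq with h | h
  · have h1 := key (Real.sqrt (∫ x, g x ∂μ)) (Real.sqrt_pos.2 h)
    have h2 : (∫ x, g x ∂μ) / Real.sqrt (∫ x, g x ∂μ) = Real.sqrt (∫ x, g x ∂μ) := by
      rw [div_eq_iff (Real.sqrt_pos.2 h).ne', Real.mul_self_sqrt hH]
    rw [h2] at h1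
    linarith
  · rw [← h, Real.sqrt_zero]
    refine le_of_forall_pos_le_add fun e he => ?_
    have h1 := key (2 * e) (by linarith)
    rw [← h] at h1
    simp at h1
    linarith

end Hyb

section S34

variable {Ω S A : Type} [MeasurableSpace Ω] [Fintype S] [Fintype A] {k : ℕ}
  {P : Measure Ω} {Q : S → ℝ} {u : Fin k → S → Ω → ℝ} {B : ℝ}

/-- The conditional law of `s` given its class. -/
noncomputable def cd52 (f : S → A) (Q : S → ℝ) (u : Fin k → S → Ω → ℝ) (ω : Fin k → Ω) (s : S) :
    ℝ := prT Q u ω s / clT f Q u ω (f s)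

lemma HT.p_le_c (h : HT P Q u B) (f : S → A) (ω : Fin k → Ω) (s : S) :
    prT Q u ω s ≤ clT f Q u ω (f s) := by
  classical
  unfold clT
  have h1 := Finset.single_le_sum (f := fun t => if f t = f s then prT Q u ω t else 0)
    (fun t _ => by
      by_cases ht : f t = f s
      · simp only [ht, if_true]; exact h.p0 ω t
      · simp [ht]) (Finset.mem_univ s)
  simpa using h1

lemma HT.cd0 (h : HT P Q u B) (f : S → A) (ω : Fin k → Ω) (s : S) : 0 ≤ cd52 f Q u ω s :=
  div_nonneg (h.p0 ω s) (h.c0 f ω _)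

lemma HT.cd1 (h : HT P Q u B) (f : S → A) (ω : Fin k → Ω) (s : S) : cd52 f Q u ω s ≤ 1 :=
  div_le_one_of_le₀ (h.p_le_c f ω s) (h.c0 f ω _)

lemma HT.cd_mul (h : HT P Q u B) (f : S → A) (ω : Fin k → Ω) (s : S) :
    clT f Q u ω (f s) * cd52 f Q u ω s = prT Q u ω s := by
  unfold cd52
  rcases (h.c0 f ω (f s)).lt_or_eq with h1 | h1
  · field_simp
  · have := h.p_le_c f ω s
    have h2 := h.p0 ω s
    rw [← h1] at this ⊢
    linarith

lemma HT.cdm (h : HT P Q u B) (f : S → A) (s : S) : Measurable fun ω => cd52 f Q u ω s :=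
  (h.pm s).div (h.cm f (f s))

lemma HT.cd_abs (h : HT P Q u B) (f : S → A) (ω ω' : Fin k → Ω) (s : S) :
    |cd52 f Q u ω s - cd52 f Q u ω' s| ≤ 1 := by
  rw [abs_le]
  constructor <;> linarith [h.cd0 f ω s, h.cd1 f ω s, h.cd0 f ω' s, h.cd1 f ω' s]

lemma HT.p_lo (h : HT P Q u B) (ω : Fin k → Ω) (s : S) :
    Real.exp (-(2 * B * k)) * Q s ≤ prT Q u ω s := by
  unfold prT
  rw [le_div_iff₀ (h.d0 ω)]
  have h1 : Q s * Real.exp (-(B * k)) ≤ wT Q u ω s :=
    mul_le_mul_of_nonneg_left (h.prod_lo ω s) (h.q0 s)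
  have h2 : Real.exp (-(2 * B * k)) * Real.exp (B * k) = Real.exp (-(B * k)) := by
    rw [← Real.exp_add]; congr 1; ring
  calc Real.exp (-(2 * B * k)) * Q s * dT Q u ω ≤
        Real.exp (-(2 * B * k)) * Q s * Real.exp (B * k) :=
        mul_le_mul_of_nonneg_left (h.d_hi ω) (mul_nonneg (Real.exp_pos _).le (h.q0 s))
    _ = Q s * Real.exp (-(B * k)) := by rw [← h2]; ring
    _ ≤ _ := h1

lemma HT.c_cmp (h : HT P Q u B) (f : S → A) (ω ω' : Fin k → Ω) (a : A) :
    clT f Q u ω a ≤ Real.exp (4 * B * k) * clT f Q u ω' a := by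
  unfold clT
  rw [Finset.mul_sum]
  refine Finset.sum_le_sum fun s _ => ?_
  split_ifs
  · have h1 := h.p_hi ω s
    have h2 := h.p_lo ω' s
    have h3 : Real.exp (4 * B * k) * (Real.exp (-(2 * B * k)) * Q s) =
        Real.exp (2 * B * k) * Q s := by
      rw [← mul_assoc, ← Real.exp_add]; congr 2; ring
    have h4 := mul_le_mul_of_nonneg_left h2 (Real.exp_pos (4 * B * k)).le
    linarith
  · simp

/-- The distance of the conditional laws. -/
noncomputable def L52 (f : S → A) (Q : S → ℝ) (u : Fin k → S → Ω → ℝ) (ω ω' : Fin k → Ω) : ℝ :=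
  ∑ s, clT f Q u ω (f s) * |cd52 f Q u ω s - cd52 f Q u ω' s|

open Classical in
/-- The number of the classes of positive mass bounds nothing here: the conditional laws have total
mass at most one in every class. -/
lemma HT.sum_cd (h : HT P Q u B) (f : S → A) (ω : Fin k → Ω) (a : A) :
    ∑ s, (if f s = a then cd52 f Q u ω s else 0) ≤ 1 := by
  have h1 : ∑ s, (if f s = a then cd52 f Q u ω s else 0) =
      clT f Q u ω a / clT f Q u ω a := by
    conv_rhs => rw [clT, Finset.sum_div]
    refine Finset.sum_congr rfl fun s _ => ?_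
    split_ifs with hs
    · rw [cd52, hs, clT]
    · simp
  rw [h1]
  exact div_self_le_one _

lemma sum_fib52 (f : S → A) (c : A → ℝ) (g : S → ℝ) :
    ∑ s, c (f s) * g s = ∑ a, c a * ∑ s, (open Classical in if f s = a then g s else 0) := by
  classical
  simp_rw [Finset.mul_sum]
  rw [Finset.sum_comm]
  refine Finset.sum_congr rfl fun s _ => ?_
  rw [Finset.sum_eq_single (f s)]
  · simp
  · intro a _ ha
    simp [Ne.symm ha]
  · intro hs
    exact absurd (Finset.mem_univ _) hs

lemma HT.L0 (h : HT P Q u B) (f : S → A) (ω ω' : Fin k → Ω) : 0 ≤ L52 f Q u ω ω' :=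
  Finset.sum_nonneg fun s _ => mul_nonneg (h.c0 f ω _) (abs_nonneg _)

lemma HT.L_le (h : HT P Q u B) (f : S → A) (ω ω' : Fin k → Ω) :
    L52 f Q u ω ω' ≤ Fintype.card S := by
  unfold L52
  calc ∑ s, clT f Q u ω (f s) * |cd52 f Q u ω s - cd52 f Q u ω' s| ≤ ∑ _s : S, (1 : ℝ) := by
        refine Finset.sum_le_sum fun s _ => ?_
        have h1 : clT f Q u ω (f s) ≤ 1 := by
          rw [← h.c1 f ω]
          exact Finset.single_le_sum (fun b _ => h.c0 f ω b) (Finset.mem_univ _)
        exact mul_le_one₀ h1 (abs_nonneg _) (h.cd_abs f ω ω' s)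
    _ = _ := by simp

lemma HT.Lm (h : HT P Q u B) (f : S → A) {X : Type*} [MeasurableSpace X] {g g' : X → Fin k → Ω}
    (hg : Measurable g) (hg' : Measurable g') : Measurable fun x => L52 f Q u (g x) (g' x) := by
  unfold L52
  exact Finset.measurable_sum _ fun s _ => ((h.cm f (f s)).comp hg).mul
    ((((h.cdm f s).comp hg).sub ((h.cdm f s).comp hg')).abs)

open Classical in
/-- The estimate of one row (S2, `pinT85`). -/
def Pin52 : Prop := ∀ (Ω S A : Type) [MeasurableSpace Ω] [Fintype S] [Fintype A] (k : ℕ)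
  (P : Measure Ω) [IsProbabilityMeasure P] (Q : S → ℝ) (u : Fin k → S → Ω → ℝ) (B : ℝ)
  (f : S → A), 1 ≤ B → HT P Q u B → ∀ i : Fin k,
    ouT P f Q u i ≤ kaT P Q u i ∧
    ∫ ω, ∫ x, ∑ a, clT f Q u ω a * (∑ s, if f s = a then
      |prT Q u ω s / clT f Q u ω a - prT Q u (Function.update ω i x) s /
        clT f Q u (Function.update ω i x) a| else 0) ^ 2 ∂P ∂(Measure.pi fun _ => P) ≤
      2 * (kaT P Q u i - ouT P f Q u i)

open Classical in
/-- The mean square distance of the conditional laws in the classes. -/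
lemma HT.L_sq (h : HT P Q u B) (f : S → A) (ω ω' : Fin k → Ω) :
    L52 f Q u ω ω' ≤ Real.sqrt (∑ a, clT f Q u ω a * (∑ s, if f s = a then
      |prT Q u ω s / clT f Q u ω a - prT Q u ω' s / clT f Q u ω' a| else 0) ^ 2) := by
  have e : ∀ a, (∑ s, if f s = a then
      |prT Q u ω s / clT f Q u ω a - prT Q u ω' s / clT f Q u ω' a| else 0) =
      ∑ s, if f s = a then |cd52 f Q u ω s - cd52 f Q u ω' s| else 0 := by
    intro a
    refine Finset.sum_congr rfl fun s _ => ?_
    by_cases hs : f s = a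
    · subst hs; simp [cd52]
    · simp [hs]
  simp_rw [e]
  set l : A → ℝ := fun a => ∑ s, if f s = a then |cd52 f Q u ω s - cd52 f Q u ω' s| else 0 with hl
  have h1 : L52 f Q u ω ω' = ∑ a, clT f Q u ω a * l a := by
    unfold L52
    rw [sum_fib52 f (fun a => clT f Q u ω a) (fun s => |cd52 f Q u ω s - cd52 f Q u ω' s|)]
  rw [h1]
  refine Real.le_sqrt_of_sq_le ?_
  have h2 := Finset.sum_mul_sq_le_sq_mul_sq Finset.univ
    (fun a => Real.sqrt (clT f Q u ω a)) (fun a => Real.sqrt (clT f Q u ω a) * l a)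
  have h3 : ∀ a, Real.sqrt (clT f Q u ω a) * (Real.sqrt (clT f Q u ω a) * l a) =
      clT f Q u ω a * l a := fun a => by
    rw [← mul_assoc, Real.mul_self_sqrt (h.c0 f ω a)]
  have h4 : ∀ a, Real.sqrt (clT f Q u ω a) ^ 2 = clT f Q u ω a := fun a =>
    Real.sq_sqrt (h.c0 f ω a)
  simp_rw [h3, mul_pow, h4, h.c1 f ω, one_mul] at h2
  exact h2

/-- The pointwise telescope. -/
lemma HT.tel (h : HT P Q u B) (f : S → A) (ω ω' : Fin k → Ω) : L52 f Q u ω ω' ≤
    ∑ j : Fin k, Real.exp (4 * B * k) * L52 f Q u (hyb52 (j : ℕ) ω ω')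
      (Function.update (hyb52 (j : ℕ) ω ω') j (ω' j)) := by
  have ht : ∀ s, |cd52 f Q u ω s - cd52 f Q u ω' s| ≤
      ∑ j : Fin k, |cd52 f Q u (hyb52 (j : ℕ) ω ω') s -
        cd52 f Q u (Function.update (hyb52 (j : ℕ) ω ω') j (ω' j)) s| := by
    intro s
    have h2 : cd52 f Q u ω s - cd52 f Q u ω' s =
        ∑ j : Fin k, (cd52 f Q u (hyb52 (j : ℕ) ω ω') s -
          cd52 f Q u (hyb52 ((j : ℕ) + 1) ω ω') s) := by
      rw [Fin.sum_univ_eq_sum_range (fun j => cd52 f Q u (hyb52 j ω ω') s -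
          cd52 f Q u (hyb52 (j + 1) ω ω') s) k, Finset.sum_range_sub',
        hyb_zero, hyb_last]
    rw [h2]
    refine (Finset.abs_sum_le_sum_abs _ _).trans (le_of_eq ?_)
    refine Finset.sum_congr rfl fun j _ => ?_
    rw [hyb_succ]
  unfold L52
  calc ∑ s, clT f Q u ω (f s) * |cd52 f Q u ω s - cd52 f Q u ω' s| ≤
        ∑ s, ∑ j : Fin k, clT f Q u ω (f s) * |cd52 f Q u (hyb52 (j : ℕ) ω ω') s -
        cd52 f Q u (Function.update (hyb52 (j : ℕ) ω ω') j (ω' j)) s| := by
        refine Finset.sum_le_sum fun s _ => ?_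
        rw [← Finset.mul_sum]
        exact mul_le_mul_of_nonneg_left (ht s) (h.c0 f _ _)
    _ ≤ ∑ s, ∑ j : Fin k, Real.exp (4 * B * k) * (clT f Q u (hyb52 (j : ℕ) ω ω') (f s) *
        |cd52 f Q u (hyb52 (j : ℕ) ω ω') s -
        cd52 f Q u (Function.update (hyb52 (j : ℕ) ω ω') j (ω' j)) s|) := by
        refine Finset.sum_le_sum fun s _ => Finset.sum_le_sum fun j _ => ?_
        rw [← mul_assoc]
        exact mul_le_mul_of_nonneg_right (h.c_cmp f _ _ _) (abs_nonneg _)
    _ = _ := by
        rw [Finset.sum_comm]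
        refine Finset.sum_congr rfl fun j _ => ?_
        rw [Finset.mul_sum]

omit [Fintype S] in
lemma upd_m52 (j : Fin k) : Measurable fun w : (Fin k → Ω) × Ω => Function.update w.1 j w.2 :=
  measurable_update'

/-- The distance after the change of one row. -/
noncomputable def G52 (f : S → A) (Q : S → ℝ) (u : Fin k → S → Ω → ℝ) (j : Fin k)
    (w : (Fin k → Ω) × Ω) : ℝ := L52 f Q u w.1 (Function.update w.1 j w.2)

lemma HT.Gm (h : HT P Q u B) (f : S → A) (j : Fin k) : Measurable (G52 f Q u j) :=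
  h.Lm f measurable_fst (upd_m52 j)

lemma HT.Gi (h : HT P Q u B) (f : S → A) (j : Fin k) {μ : Measure ((Fin k → Ω) × Ω)}
    [IsProbabilityMeasure μ] : Integrable (G52 f Q u j) μ :=
  ibg52 (C := Fintype.card S) (h.Gm f j) fun w => by
    unfold G52
    rw [abs_of_nonneg (h.L0 f _ _)]; exact h.L_le f _ _

open Classical in
/-- The square of the distance after the change of one row. -/
noncomputable def g52 (f : S → A) (Q : S → ℝ) (u : Fin k → S → Ω → ℝ) (j : Fin k)
    (w : (Fin k → Ω) × Ω) : ℝ := ∑ a, clT f Q u w.1 a * (∑ s, if f s = a then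
      |prT Q u w.1 s / clT f Q u w.1 a - prT Q u (Function.update w.1 j w.2) s /
        clT f Q u (Function.update w.1 j w.2) a| else 0) ^ 2

lemma HT.gm (h : HT P Q u B) (f : S → A) (j : Fin k) : Measurable (g52 f Q u j) := by
  classical
  unfold g52
  refine Finset.measurable_sum _ fun a _ => ((h.cm f a).comp measurable_fst).mul ?_
  refine Measurable.pow_const (Finset.measurable_sum _ fun s _ => ?_) 2
  by_cases hs : f s = a
  · simp only [hs, if_true]
    exact ((((h.pm s).comp measurable_fst).div ((h.cm f a).comp measurable_fst)).sub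
      (((h.pm s).comp (upd_m52 j)).div ((h.cm f a).comp (upd_m52 j)))).abs
  · simp only [hs, if_false]; exact measurable_const

lemma HT.g0 (h : HT P Q u B) (f : S → A) (j : Fin k) (w : (Fin k → Ω) × Ω) :
    0 ≤ g52 f Q u j w := Finset.sum_nonneg fun a _ =>
    mul_nonneg (h.c0 f _ _) (sq_nonneg _)

lemma HT.g_le (h : HT P Q u B) (f : S → A) (j : Fin k) (w : (Fin k → Ω) × Ω) :
    g52 f Q u j w ≤ ∑ _a : A, 1 * (∑ _s : S, (1 : ℝ)) ^ 2 := by
  classical
  refine Finset.sum_le_sum fun a _ => ?_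
  refine mul_le_mul ?_ ?_ (sq_nonneg _) zero_le_one
  · rw [← h.c1 f w.1]
    exact Finset.single_le_sum (fun b _ => h.c0 f w.1 b) (Finset.mem_univ _)
  · refine pow_le_pow_left₀ (Finset.sum_nonneg fun s _ => ?_) (Finset.sum_le_sum fun s _ => ?_) 2
    · split_ifs
      · exact abs_nonneg _
      · exact le_rfl
    · split_ifs with hs
      · have := h.cd_abs f w.1 (Function.update w.1 j w.2) s
        unfold cd52 at this
        rwa [hs] at this
      · exact zero_le_one

/-- One row of the telescope. -/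
lemma HT.row [IsProbabilityMeasure P] (hpin : Pin52) (hB : 1 ≤ B) (h : HT P Q u B) (f : S → A)
    (j : Fin k) : ∫ w, G52 f Q u j w ∂((Measure.pi fun _ : Fin k => P).prod P) ≤
      Real.sqrt (2 * (kaT P Q u j - ouT P f Q u j)) := by
  have hp := (hpin Ω S A k P Q u B f hB h j).2
  have hgi : Integrable (g52 f Q u j) ((Measure.pi fun _ : Fin k => P).prod P) :=
    ibg52 (h.gm f j) fun w => by rw [abs_of_nonneg (h.g0 f j w)]; exact h.g_le f j w
  have hsi : Integrable (fun w => Real.sqrt (g52 f Q u j w))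
      ((Measure.pi fun _ : Fin k => P).prod P) :=
    ibg52 (Real.continuous_sqrt.measurable.comp (h.gm f j)) fun w => by
      rw [abs_of_nonneg (Real.sqrt_nonneg _)]; exact Real.sqrt_le_sqrt (h.g_le f j w)
  have h4 : ∫ w, G52 f Q u j w ∂((Measure.pi fun _ : Fin k => P).prod P) ≤
      ∫ w, Real.sqrt (g52 f Q u j w) ∂((Measure.pi fun _ : Fin k => P).prod P) :=
    integral_mono (h.Gi f j) hsi fun w => h.L_sq f w.1 (Function.update w.1 j w.2)
  refine h4.trans ((int_sqrt52 hgi (h.g0 f j) hsi).trans (Real.sqrt_le_sqrt ?_))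
  rw [integral_prod (g52 f Q u j) hgi]
  exact hp

/-- The change of variables. -/
lemma HT.cov [IsProbabilityMeasure P] (h : HT P Q u B) (f : S → A) (j : Fin k) :
    ∫ w, G52 f Q u j (hyb52 (j : ℕ) w.1 w.2, w.2 j)
      ∂((Measure.pi fun _ : Fin k => P).prod (Measure.pi fun _ => P)) =
    ∫ w, G52 f Q u j w ∂((Measure.pi fun _ : Fin k => P).prod P) := by
  have hmp := mp_hyb (k := k) P j
  rw [← hmp.map_eq]
  exact (integral_map hmp.measurable.aemeasurable (h.Gm f j).aestronglyMeasurable).symm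

/-- S3: the telescope. -/
theorem s3T52 [IsProbabilityMeasure P] (hpin : Pin52) (hB : 1 ≤ B) (h : HT P Q u B) (f : S → A) :
    ∫ w, L52 f Q u w.1 w.2 ∂((Measure.pi fun _ : Fin k => P).prod (Measure.pi fun _ => P)) ≤
      Real.exp (4 * B * k) * ∑ i, Real.sqrt (2 * (kaT P Q u i - ouT P f Q u i)) := by
  have hLi : Integrable (fun w : (Fin k → Ω) × (Fin k → Ω) => L52 f Q u w.1 w.2)
      ((Measure.pi fun _ : Fin k => P).prod (Measure.pi fun _ => P)) :=
    ibg52 (C := Fintype.card S) (h.Lm f measurable_fst measurable_snd) fun w => by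
      rw [abs_of_nonneg (h.L0 f _ _)]; exact h.L_le f _ _
  have hi1 : ∀ j : Fin k, Integrable (fun w : (Fin k → Ω) × (Fin k → Ω) =>
      Real.exp (4 * B * k) * G52 f Q u j (hyb52 (j : ℕ) w.1 w.2, w.2 j))
      ((Measure.pi fun _ : Fin k => P).prod (Measure.pi fun _ => P)) := fun j =>
    (ibg52 (C := Fintype.card S) ((h.Gm f j).comp (mp_hyb P j).measurable) fun w => by
      simp only [Function.comp_apply, G52]
      rw [abs_of_nonneg (h.L0 f _ _)]; exact h.L_le f _ _).const_mul _
  have h1 : ∫ w, L52 f Q u w.1 w.2 ∂((Measure.pi fun _ : Fin k => P).prod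
      (Measure.pi fun _ => P)) ≤
      ∫ w, ∑ j : Fin k, Real.exp (4 * B * k) * G52 f Q u j (hyb52 (j : ℕ) w.1 w.2, w.2 j)
        ∂((Measure.pi fun _ : Fin k => P).prod (Measure.pi fun _ => P)) :=
    integral_mono hLi (integrable_finsetSum Finset.univ fun j _ => hi1 j)
      fun w => h.tel f w.1 w.2
  refine h1.trans ?_
  rw [integral_finsetSum Finset.univ fun j _ => hi1 j, Finset.mul_sum]
  refine Finset.sum_le_sum fun j _ => ?_
  rw [integral_const_mul, h.cov f j]
  exact mul_le_mul_of_nonneg_left (h.row hpin hB f j) (Real.exp_pos _).le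

lemma HT.int_w [IsProbabilityMeasure P] (h : HT P Q u B) (s : S) :
    ∫ ω, wT Q u ω s ∂(Measure.pi fun _ : Fin k => P) = Q s := by
  unfold wT
  rw [integral_const_mul, integral_fintype_prod_eq_prod (fun i x => u i s x)]
  simp [h.u1]

open Classical in
/-- S4, one class and one environment. -/
lemma HT.s4 [IsProbabilityMeasure P] (h : HT P Q u B) (f : S → A) (ω : Fin k → Ω) (s : S) :
    |prT Q u ω s - clT f Q u ω (f s) * (Q s / Qa52 f Q (f s))| ≤
      Real.exp (B * k) * ∫ ω', clT f Q u ω (f s) * |cd52 f Q u ω s - cd52 f Q u ω' s|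
        ∂(Measure.pi fun _ => P) := by
  have hI : 0 ≤ ∫ ω', clT f Q u ω (f s) * |cd52 f Q u ω s - cd52 f Q u ω' s|
        ∂(Measure.pi fun _ => P) :=
    integral_nonneg fun ω' => mul_nonneg (h.c0 f ω _) (abs_nonneg _)
  have hQle : Q s ≤ Qa52 f Q (f s) := by
    unfold Qa52
    have h1 := Finset.single_le_sum (f := fun t => if f t = f s then Q t else 0)
      (fun t _ => by
        by_cases ht : f t = f s
        · simp only [ht, if_true]; exact h.q0 t
        · simp [ht]) (Finset.mem_univ s)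
    simpa using h1
  rcases (h.Qa0 f (f s)).lt_or_eq with hQ | hQ
  · set Wa : (Fin k → Ω) → ℝ := fun ω' => ∑ t, if f t = f s then wT Q u ω' t else 0 with hWa
    have hW_lo : ∀ ω', Real.exp (-(B * k)) * Qa52 f Q (f s) ≤ Wa ω' := by
      intro ω'
      rw [hWa, Qa52, Finset.mul_sum]
      refine Finset.sum_le_sum fun t _ => ?_
      split_ifs
      · unfold wT
        rw [mul_comm]
        exact mul_le_mul_of_nonneg_left (h.prod_lo ω' t) (h.q0 t)
      · simp
    have hW_hi : ∀ ω', Wa ω' ≤ Real.exp (B * k) * Qa52 f Q (f s) := by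
      intro ω'
      rw [hWa, Qa52, Finset.mul_sum]
      refine Finset.sum_le_sum fun t _ => ?_
      split_ifs
      · unfold wT
        rw [mul_comm (Real.exp (B * k))]
        exact mul_le_mul_of_nonneg_left (h.prod_hi ω' t) (h.q0 t)
      · simp
    have hW0 : ∀ ω', 0 < Wa ω' := fun ω' =>
      (mul_pos (Real.exp_pos _) hQ).trans_le (hW_lo ω')
    have hWm : Measurable Wa := by
      rw [hWa]
      refine Finset.measurable_sum _ fun t _ => ?_
      by_cases ht : f t = f s
      · simp only [ht, if_true]; exact h.wm t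
      · simp only [ht, if_false]; exact measurable_const
    have hwi : ∀ t, Integrable (fun ω' => wT Q u ω' t) (Measure.pi fun _ : Fin k => P) :=
      fun t => ib52 (C := Q t * Real.exp (B * k)) (h.wm t) fun ω' => by
        rw [abs_of_nonneg (h.w0 ω' t)]
        exact mul_le_mul_of_nonneg_left (h.prod_hi ω' t) (h.q0 t)
    have hcl : ∀ ω', clT f Q u ω' (f s) = Wa ω' / dT Q u ω' := by
      intro ω'
      rw [hWa, clT, Finset.sum_div]
      refine Finset.sum_congr rfl fun t _ => ?_
      split_ifs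
      · rfl
      · simp
    have hcd : ∀ ω', cd52 f Q u ω' s * Wa ω' = wT Q u ω' s := by
      intro ω'
      unfold cd52
      rw [hcl ω']
      unfold prT
      have h1 := (h.d0 ω').ne'
      have h2 := (hW0 ω').ne'
      field_simp
    have hE : Integrable (fun ω' => (cd52 f Q u ω s - cd52 f Q u ω' s) *
        (Wa ω' / Qa52 f Q (f s))) (Measure.pi fun _ : Fin k => P) := by
      refine ib52 (C := 1 * Real.exp (B * k)) ((measurable_const.sub (h.cdm f s)).mul
        (hWm.div_const _)) fun ω' => ?_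
      rw [abs_mul]
      refine mul_le_mul (h.cd_abs f ω ω' s) ?_ (abs_nonneg _) zero_le_one
      rw [abs_of_nonneg (div_nonneg (hW0 ω').le hQ.le), div_le_iff₀ hQ]
      exact hW_hi ω'
    have hWi : Integrable Wa (Measure.pi fun _ : Fin k => P) :=
      ib52 (C := Real.exp (B * k) * Qa52 f Q (f s)) hWm fun ω' => by
        rw [abs_of_pos (hW0 ω')]; exact hW_hi ω'
    have hWint : ∫ ω', Wa ω' ∂(Measure.pi fun _ : Fin k => P) = Qa52 f Q (f s) := by
      rw [hWa, integral_finsetSum]
      · unfold Qa52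
        refine Finset.sum_congr rfl fun t _ => ?_
        split_ifs
        · exact h.int_w t
        · simp
      · intro t _
        split_ifs
        · exact hwi t
        · exact integrable_zero _ _ _
    have hval : ∫ ω', (cd52 f Q u ω s - cd52 f Q u ω' s) * (Wa ω' / Qa52 f Q (f s))
        ∂(Measure.pi fun _ : Fin k => P) = cd52 f Q u ω s - Q s / Qa52 f Q (f s) := by
      have e1 : (fun ω' => (cd52 f Q u ω s - cd52 f Q u ω' s) * (Wa ω' / Qa52 f Q (f s))) =
          fun ω' => cd52 f Q u ω s / Qa52 f Q (f s) * Wa ω' -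
            wT Q u ω' s / Qa52 f Q (f s) := by
        funext ω'
        rw [← hcd ω']
        field_simp
      rw [e1]
      have e2 : ∫ ω', (cd52 f Q u ω s / Qa52 f Q (f s) * Wa ω' -
            wT Q u ω' s / Qa52 f Q (f s)) ∂(Measure.pi fun _ : Fin k => P) =
          ∫ ω', cd52 f Q u ω s / Qa52 f Q (f s) * Wa ω' ∂(Measure.pi fun _ : Fin k => P) -
          ∫ ω', wT Q u ω' s / Qa52 f Q (f s) ∂(Measure.pi fun _ : Fin k => P) :=
        integral_sub (hWi.const_mul _) ((hwi s).div_const _)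
      rw [e2, integral_const_mul, integral_div, hWint, h.int_w s]
      field_simp
    have h5 : |cd52 f Q u ω s - Q s / Qa52 f Q (f s)| ≤
        Real.exp (B * k) * ∫ ω', |cd52 f Q u ω s - cd52 f Q u ω' s|
          ∂(Measure.pi fun _ : Fin k => P) := by
      rw [← hval, ← integral_const_mul]
      refine abs_integral_le_integral_abs.trans (integral_mono hE.abs ?_ fun ω' => ?_)
      · exact (ib52 (C := 1) ((measurable_const.sub (h.cdm f s)).abs) fun ω' => by
          rw [abs_abs]; exact h.cd_abs f ω ω' s).const_mul _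
      · simp only
        rw [abs_mul, mul_comm]
        refine mul_le_mul_of_nonneg_right ?_ (abs_nonneg _)
        rw [abs_of_nonneg (div_nonneg (hW0 ω').le hQ.le), div_le_iff₀ hQ]
        exact hW_hi ω'
    have h6 : prT Q u ω s - clT f Q u ω (f s) * (Q s / Qa52 f Q (f s)) =
        clT f Q u ω (f s) * (cd52 f Q u ω s - Q s / Qa52 f Q (f s)) := by
      rw [mul_sub, h.cd_mul]
    rw [h6, abs_mul, abs_of_nonneg (h.c0 f ω _), integral_const_mul]
    calc clT f Q u ω (f s) * |cd52 f Q u ω s - Q s / Qa52 f Q (f s)| ≤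
          clT f Q u ω (f s) * (Real.exp (B * k) * ∫ ω', |cd52 f Q u ω s - cd52 f Q u ω' s|
          ∂(Measure.pi fun _ : Fin k => P)) := mul_le_mul_of_nonneg_left h5 (h.c0 f ω _)
      _ = _ := by ring
  · have hs : Q s = 0 := le_antisymm (hQle.trans hQ.symm.le) (h.q0 s)
    have h1 : prT Q u ω s = 0 := by unfold prT wT; rw [hs]; simp
    rw [h1, hs]
    simp only [zero_div, mul_zero, sub_zero, abs_zero]
    exact mul_nonneg (Real.exp_pos _).le hI

end S34

/-- S4 from the estimate of one row. -/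
theorem s4T52 (hpin : Pin52) : S4T := by
  classical
  intro Ω S A _ _ _ k P _ Q u B f hB h
  refine ⟨fun i => (hpin Ω S A k P Q u B f hB h i).1, ?_⟩
  set PP : Measure (Fin k → Ω) := Measure.pi fun _ => P with hPP
  have hLi : Integrable (fun w : (Fin k → Ω) × (Fin k → Ω) => L52 f Q u w.1 w.2) (PP.prod PP) := by
    refine (integrable_const (Fintype.card S : ℝ)).mono'
      (h.Lm f measurable_fst measurable_snd).aestronglyMeasurable
      (Filter.Eventually.of_forall fun w => ?_)
    rw [Real.norm_eq_abs, abs_of_nonneg (h.L0 f _ _)]; exact h.L_le f _ _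
  have hpt : ∀ ω, ∑ s, |prT Q u ω s - clT f Q u ω (f s) * (Q s / Qa52 f Q (f s))| ≤
      Real.exp (B * k) * ∫ ω', L52 f Q u ω ω' ∂PP := by
    intro ω
    have h1 : ∫ ω', L52 f Q u ω ω' ∂PP =
        ∑ s, ∫ ω', clT f Q u ω (f s) * |cd52 f Q u ω s - cd52 f Q u ω' s| ∂PP := by
      unfold L52
      rw [integral_finsetSum]
      intro s _
      exact ib52 (C := 1) (measurable_const.mul ((measurable_const.sub (h.cdm f s)).abs))
        fun ω' => by
          rw [abs_mul, abs_abs, abs_of_nonneg (h.c0 f ω _)]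
          refine mul_le_one₀ ?_ (abs_nonneg _) (h.cd_abs f ω ω' s)
          rw [← h.c1 f ω]
          exact Finset.single_le_sum (fun b _ => h.c0 f ω b) (Finset.mem_univ _)
    rw [h1, Finset.mul_sum]
    exact Finset.sum_le_sum fun s _ => h.s4 f ω s
  have hDi : Integrable (fun ω => ∑ s, |prT Q u ω s - clT f Q u ω (f s) *
      (Q s / Qa52 f Q (f s))|) PP := by
    refine ib52 (C := ∑ s, (1 + 1 * |Q s / Qa52 f Q (f s)|)) ?_ fun ω => ?_
    · exact Finset.measurable_sum _ fun s _ =>
        ((h.pm s).sub ((h.cm f (f s)).mul measurable_const)).abs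
    · rw [abs_of_nonneg (Finset.sum_nonneg fun s _ => abs_nonneg _)]
      refine Finset.sum_le_sum fun s _ => ?_
      refine (abs_sub _ _).trans (add_le_add ?_ ?_)
      · rw [abs_of_nonneg (h.p0 ω s), ← h.p1 ω]
        exact Finset.single_le_sum (fun b _ => h.p0 ω b) (Finset.mem_univ s)
      · rw [abs_mul, abs_of_nonneg (h.c0 f ω _)]
        refine mul_le_mul_of_nonneg_right ?_ (abs_nonneg _)
        rw [← h.c1 f ω]
        exact Finset.single_le_sum (fun b _ => h.c0 f ω b) (Finset.mem_univ _)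
  have h2 := integral_mono hDi ((hLi.integral_prod_left).const_mul (Real.exp (B * k))) hpt
  refine h2.trans ?_
  rw [integral_const_mul, ← integral_prod (fun w : (Fin k → Ω) × (Fin k → Ω) =>
    L52 f Q u w.1 w.2) hLi]
  have h3 := s3T52 hpin hB h f
  have h4 := mul_le_mul_of_nonneg_left h3 (Real.exp_pos (B * k)).le
  refine h4.trans (le_of_eq ?_)
  rw [← mul_assoc, ← Real.exp_add]
  congr 2
  ring

/-- Leaf T1 from the estimate of one row. -/
theorem oneT52 (hpin : Pin52) : OneT := one52 (s4T52 hpin)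

end Pool.Agent.W_7d29a1_NV
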