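import Pool.Agent.W_7d29a1_NV.DefsNV

/-!
Leaf T2, first half: the gains of the rows fluctuate like a random walk.
-/

namespace Pool.Agent.W_7d29a1_NV.T34

open MeasureTheory ProbabilityTheory Filter Topology Pool.Agent.W_7d29a1_NV

lemma ib {Ω : Type*} [MeasurableSpace Ω] {μ : Measure Ω} [IsFiniteMeasure μ] {F : Ω → ℝ}
    (hm : Measurable F) {C : ℝ} (hC : ∀ x, |F x| ≤ C) : Integrable F μ :=
  (integrable_const C).mono' hm.aestronglyMeasurable (Filter.Eventually.of_forall fun x => by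
    rw [Real.norm_eq_abs]
    exact hC x)

/-- The moments of a sum of bounded centred independent variables. -/
theorem mom34 {Ω ι : Type*} [MeasurableSpace Ω] {μ : Measure Ω} [IsProbabilityMeasure μ]
    (f : ι → Ω → ℝ) (hm : ∀ i, Measurable (f i)) (hind : iIndepFun f μ)
    (h0 : ∀ i, ∫ x, f i x ∂μ = 0) {B : ℝ} (hB : ∀ i x, |f i x| ≤ B) (s : Finset ι) :
    ∫ x, (∑ i ∈ s, f i x) ∂μ = 0 ∧
    ∫ x, (∑ i ∈ s, f i x) ^ 2 ∂μ = ∑ i ∈ s, ∫ x, f i x ^ 2 ∂μ ∧
    ∫ x, (∑ i ∈ s, f i x) ^ 4 ∂μ ≤ 3 * (∑ i ∈ s, ∫ x, f i x ^ 2 ∂μ) ^ 2 +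
      B ^ 2 * ∑ i ∈ s, ∫ x, f i x ^ 2 ∂μ := by
  classical
  induction s using Finset.induction_on with
  | empty => simp
  | insert j s hj ih =>
    obtain ⟨h1, h2, h4⟩ := ih
    set H : Ω → ℝ := fun x => ∑ i ∈ s, f i x with hH
    have hHm : Measurable H := Finset.measurable_sum s fun i _ => hm i
    have hHB : ∀ x, |H x| ≤ s.card * B := by
      intro x
      refine (Finset.abs_sum_le_sum_abs _ _).trans ?_
      rw [← nsmul_eq_mul]
      exact Finset.sum_le_card_nsmul _ _ _ fun i _ => hB i x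
    have hHi : IndepFun H (f j) μ := by
      have := hind.indepFun_finsetSum_of_notMem hm hj
      have e : (∑ i ∈ s, f i) = H := by
        funext x
        rw [Finset.sum_apply]
      rwa [e] at this
    have hpow : ∀ p q : ℕ, ∫ x, H x ^ p * f j x ^ q ∂μ =
        (∫ x, H x ^ p ∂μ) * ∫ x, f j x ^ q ∂μ := by
      intro p q
      have h5 := hHi.comp (φ := fun y : ℝ => y ^ p) (ψ := fun y : ℝ => y ^ q)
        (measurable_id.pow_const p) (measurable_id.pow_const q)
      exact h5.integral_fun_mul_eq_mul_integral (hHm.pow_const p).aestronglyMeasurable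
        ((hm j).pow_const q).aestronglyMeasurable
    have hB0 : ∀ x : Ω, 0 ≤ B := fun x => (abs_nonneg _).trans (hB j x)
    have hi : ∀ p q : ℕ, Integrable (fun x => H x ^ p * f j x ^ q) μ := by
      intro p q
      refine ib ((hHm.pow_const p).mul ((hm j).pow_const q))
        (C := (s.card * B) ^ p * B ^ q) fun x => ?_
      rw [abs_mul, abs_pow, abs_pow]
      exact mul_le_mul (pow_le_pow_left₀ (abs_nonneg _) (hHB x) _)
        (pow_le_pow_left₀ (abs_nonneg _) (hB j x) _) (pow_nonneg (abs_nonneg _) _)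
        (pow_nonneg (mul_nonneg (Nat.cast_nonneg _) (hB0 x)) _)
    have hsum : ∀ x, ∑ i ∈ insert j s, f i x = f j x + H x := fun x => Finset.sum_insert hj
    have hfi : Integrable (fun x => f j x) μ := ib (hm j) (hB j)
    have hHint : Integrable (fun x => H x) μ := ib hHm hHB
    have hf2 : ∀ q : ℕ, Integrable (fun x => f j x ^ q) μ := fun q => by
      have := hi 0 q
      simpa using this
    have hH2 : ∀ q : ℕ, Integrable (fun x => H x ^ q) μ := fun q => by
      have := hi q 0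
      simpa using this
    refine ⟨?_, ?_, ?_⟩
    · simp only [hsum]
      rw [integral_add hfi hHint, h0 j, h1, add_zero]
    · simp only [hsum]
      have e : ∀ x, (f j x + H x) ^ 2 = f j x ^ 2 + (2 * (H x ^ 1 * f j x ^ 1) + H x ^ 2) :=
        fun x => by ring
      simp only [e]
      have i1 : Integrable (fun x => 2 * (H x ^ 1 * f j x ^ 1)) μ := (hi 1 1).const_mul 2
      have i2 : Integrable (fun x => 2 * (H x ^ 1 * f j x ^ 1) + H x ^ 2) μ := i1.add (hH2 2)
      rw [integral_add (hf2 2) i2, integral_add i1 (hH2 2), integral_const_mul, hpow 1 1,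
        Finset.sum_insert hj, h2]
      simp only [pow_one]
      rw [h0 j]
      ring
    · simp only [hsum]
      have e : ∀ x, (f j x + H x) ^ 4 = f j x ^ 4 + (4 * (H x ^ 1 * f j x ^ 3) +
          (6 * (H x ^ 2 * f j x ^ 2) + (4 * (H x ^ 3 * f j x ^ 1) + H x ^ 4))) :=
        fun x => by ring
      simp only [e]
      have i1 : Integrable (fun x => 4 * (H x ^ 1 * f j x ^ 3)) μ := (hi 1 3).const_mul 4
      have i2 : Integrable (fun x => 6 * (H x ^ 2 * f j x ^ 2)) μ := (hi 2 2).const_mul 6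
      have i3 : Integrable (fun x => 4 * (H x ^ 3 * f j x ^ 1)) μ := (hi 3 1).const_mul 4
      have i4 : Integrable (fun x => 4 * (H x ^ 3 * f j x ^ 1) + H x ^ 4) μ := i3.add (hH2 4)
      have i5 : Integrable (fun x => 6 * (H x ^ 2 * f j x ^ 2) +
          (4 * (H x ^ 3 * f j x ^ 1) + H x ^ 4)) μ := i2.add i4
      have i6 : Integrable (fun x => 4 * (H x ^ 1 * f j x ^ 3) + (6 * (H x ^ 2 * f j x ^ 2) +
          (4 * (H x ^ 3 * f j x ^ 1) + H x ^ 4))) μ := i1.add i5
      rw [integral_add (hf2 4) i6, integral_add i1 i5, integral_add i2 i4,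
        integral_add i3 (hH2 4),
        integral_const_mul, integral_const_mul, integral_const_mul, hpow 1 3, hpow 2 2, hpow 3 1]
      simp only [pow_one]
      rw [h0 j, h1, h2, Finset.sum_insert hj]
      have h5 : ∫ x, f j x ^ 4 ∂μ ≤ B ^ 2 * ∫ x, f j x ^ 2 ∂μ := by
        rw [← integral_const_mul]
        refine integral_mono (hf2 4) ((hf2 2).const_mul _) fun x => ?_
        have h6 : f j x ^ 2 ≤ B ^ 2 := by
          rw [← sq_abs]
          exact pow_le_pow_left₀ (abs_nonneg _) (hB j x) 2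
        have h7 : f j x ^ 4 = f j x ^ 2 * f j x ^ 2 := by ring
        simp only [h7]
        exact mul_le_mul_of_nonneg_right h6 (sq_nonneg _)
      have h8 : 0 ≤ (∫ x, f j x ^ 2 ∂μ) ^ 2 := sq_nonneg _
      nlinarith

/-- The elementary inequality. -/
lemma scal34 {a : ℝ} (ha : 0 < a) (t : ℝ) : a * t ^ 2 - 4 * a ^ 3 / 27 * t ^ 4 ≤ |t| := by
  have h1 : t ^ 2 = |t| ^ 2 := (sq_abs t).symm
  have h2 : t ^ 4 = |t| ^ 4 := by
    rw [show t ^ 4 = (t ^ 2) ^ 2 by ring, h1]
    ring
  rw [h1, h2]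
  have hx : 0 ≤ |t| := abs_nonneg t
  obtain ⟨x, hx'⟩ : ∃ x, x = |t| := ⟨_, rfl⟩
  rw [← hx'] at hx ⊢
  -- x - a x^2 + (4 a^3/27) x^4 = x (1 - a x + (4/27) (a x)^3) and
  -- 27 (1 - y + 4 y^3 / 27) = (2 y - 3)^2 (y + 3)
  have h3 : 0 ≤ x * ((2 * (a * x) - 3) ^ 2 * (a * x + 3)) :=
    mul_nonneg hx (mul_nonneg (sq_nonneg _) (by positivity))
  nlinarith

/-- **First half of leaf T2.** -/
theorem rowsum34 {Ω S : Type} [MeasurableSpace Ω] [Fintype S] {k : ℕ} {P : Measure Ω}
    [IsProbabilityMeasure P] {Q : S → ℝ} {u : Fin k → S → Ω → ℝ} {B : ℝ} (hB : 1 ≤ B)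
    (hu : HT P Q u B) (s : S) :
    (∑ i, vaT P u i s) / (2 * B * Real.sqrt (k + 1)) ≤
      ∫ ω, ∫ ω', |∑ i, (Real.log (u i s (ω i)) - Real.log (u i s (ω' i)))|
        ∂(Measure.pi fun _ : Fin k => P) ∂(Measure.pi fun _ : Fin k => P) := by
  have hB0 : 0 < B := by linarith
  set μ : Measure (Fin k → Ω) := Measure.pi fun _ : Fin k => P with hμ
  have hlm : ∀ i, Measurable fun x => Real.log (u i s x) := fun i =>
    Real.measurable_log.comp (hu.um i s)
  have hlB : ∀ i x, |Real.log (u i s x)| ≤ B := by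
    intro i x
    have hp : 0 < u i s x := (Real.exp_pos _).trans_le (hu.lo i s x)
    rw [abs_le]
    constructor
    · rw [Real.le_log_iff_exp_le hp]
      exact hu.lo i s x
    · rw [Real.log_le_iff_le_exp hp]
      exact hu.hi i s x
  have hli : ∀ i, Integrable (fun x => Real.log (u i s x)) P := fun i => ib (hlm i) (hlB i)
  have hps : ∀ i, |psT P u i s| ≤ B := by
    intro i
    unfold psT
    refine (abs_integral_le_integral_abs).trans ?_
    have := integral_mono (μ := P) (hli i).abs (integrable_const B) fun x => hlB i x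
    simpa using this
  -- the centred gains
  set g : Fin k → Ω → ℝ := fun i x => Real.log (u i s x) - psT P u i s with hg
  have hgm : ∀ i, Measurable (g i) := fun i => (hlm i).sub_const _
  have hgB : ∀ i x, |g i x| ≤ 2 * B := fun i x =>
    (abs_sub _ _).trans (by linarith [hlB i x, hps i])
  have hgi : ∀ i, Integrable (g i) P := fun i => ib (hgm i) (hgB i)
  have hg0 : ∀ i, ∫ x, g i x ∂P = 0 := by
    intro i
    simp only [hg]
    rw [integral_sub (hli i) (integrable_const _), integral_const]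
    simp [psT]
  set f : Fin k → (Fin k → Ω) → ℝ := fun i ω => g i (ω i) with hf
  have hfm : ∀ i, Measurable (f i) := fun i => (hgm i).comp (measurable_pi_apply i)
  have hfB : ∀ i ω, |f i ω| ≤ 2 * B := fun i ω => hgB i _
  have hind : iIndepFun f μ := iIndepFun_pi fun i => (hgm i).aemeasurable
  have hev : ∀ i (G : Ω → ℝ), Measurable G → ∫ ω, G (ω i) ∂μ = ∫ x, G x ∂P := by
    intro i G hG
    have h1 := measurePreserving_eval (fun _ : Fin k => P) i
    rw [← h1.map_eq, integral_map h1.measurable.aemeasurable hG.aestronglyMeasurable]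
  have hf0 : ∀ i, ∫ ω, f i ω ∂μ = 0 := fun i => (hev i (g i) (hgm i)).trans (hg0 i)
  have hf2 : ∀ i, ∫ ω, f i ω ^ 2 ∂μ = vaT P u i s := fun i =>
    hev i (fun x => g i x ^ 2) ((hgm i).pow_const 2)
  have hva : ∀ i, vaT P u i s ≤ B ^ 2 := by
    intro i
    have h1 : vaT P u i s = (∫ x, Real.log (u i s x) ^ 2 ∂P) - psT P u i s ^ 2 := by
      unfold vaT
      have e : ∀ x, (Real.log (u i s x) - psT P u i s) ^ 2 =
          (Real.log (u i s x) ^ 2 - 2 * psT P u i s * Real.log (u i s x)) +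
            psT P u i s ^ 2 := fun x => by ring
      simp only [e]
      have h2 : Integrable (fun x => Real.log (u i s x) ^ 2) P :=
        ib ((hlm i).pow_const 2) (C := B ^ 2) fun x => by
          rw [abs_pow]
          exact pow_le_pow_left₀ (abs_nonneg _) (hlB i x) 2
      have h4 : Integrable (fun x => 2 * psT P u i s * Real.log (u i s x)) P :=
        (hli i).const_mul _
      have h5 : Integrable (fun x => Real.log (u i s x) ^ 2 -
          2 * psT P u i s * Real.log (u i s x)) P := h2.sub h4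
      rw [integral_add h5 (integrable_const _),
        integral_sub h2 h4, integral_const_mul, integral_const]
      simp only [probReal_univ, one_smul]
      have h3 : ∫ x, Real.log (u i s x) ∂P = psT P u i s := rfl
      rw [h3]
      ring
    have h2 : ∫ x, Real.log (u i s x) ^ 2 ∂P ≤ B ^ 2 := by
      have h3 := integral_mono (μ := P) (ib ((hlm i).pow_const 2) (C := B ^ 2) fun x => by
          rw [abs_pow]
          exact pow_le_pow_left₀ (abs_nonneg _) (hlB i x) 2) (integrable_const (B ^ 2))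
          fun x => (show Real.log (u i s x) ^ 2 ≤ B ^ 2 by
            rw [← sq_abs]
            exact pow_le_pow_left₀ (abs_nonneg _) (hlB i x) 2)
      simpa using h3
    rw [h1]
    linarith [sq_nonneg (psT P u i s)]
  have hva0 : ∀ i, 0 ≤ vaT P u i s := fun i => integral_nonneg fun x => sq_nonneg _
  obtain ⟨m1, m2, m4⟩ := mom34 f hfm hind hf0 hfB Finset.univ
  simp only [hf2] at m2 m4
  set v : ℝ := ∑ i, vaT P u i s with hv
  have hv0 : 0 ≤ v := Finset.sum_nonneg fun i _ => hva0 i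
  have hvk : v ≤ B ^ 2 * k := by
    have h1 : v ≤ ∑ _i : Fin k, B ^ 2 := Finset.sum_le_sum fun i _ => hva i
    rw [Finset.sum_const, Finset.card_univ, Fintype.card_fin, nsmul_eq_mul] at h1
    linarith
  set H : (Fin k → Ω) → ℝ := fun ω => ∑ i, f i ω with hH
  have hHm : Measurable H := Finset.measurable_sum _ fun i _ => hfm i
  have hHB : ∀ ω, |H ω| ≤ k * (2 * B) := by
    intro ω
    refine (Finset.abs_sum_le_sum_abs _ _).trans ?_
    have := Finset.sum_le_card_nsmul Finset.univ (fun i => |f i ω|) (2 * B) fun i _ => hfB i ω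
    rwa [Finset.card_univ, Fintype.card_fin, nsmul_eq_mul] at this
  have hHi : Integrable H μ := ib hHm hHB
  -- the mean of the absolute value
  obtain ⟨r, hr⟩ : ∃ r, r = Real.sqrt ((k : ℝ) + 1) := ⟨_, rfl⟩
  have hr0 : 0 < r := by
    rw [hr]
    exact Real.sqrt_pos.2 (by positivity)
  have hr2 : r ^ 2 = k + 1 := by
    rw [hr]
    exact Real.sq_sqrt (by positivity)
  have habs : v / (2 * B * r) ≤ ∫ ω, |H ω| ∂μ := by
    set a : ℝ := 3 / (4 * B * r) with ha
    have ha0 : 0 < a := by positivity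
    have hH2 : Integrable (fun ω => H ω ^ 2) μ := ib (hHm.pow_const 2) (C := (k * (2 * B)) ^ 2)
      fun ω => by
        rw [abs_pow]
        exact pow_le_pow_left₀ (abs_nonneg _) (hHB ω) 2
    have hH4 : Integrable (fun ω => H ω ^ 4) μ := ib (hHm.pow_const 4) (C := (k * (2 * B)) ^ 4)
      fun ω => by
        rw [abs_pow]
        exact pow_le_pow_left₀ (abs_nonneg _) (hHB ω) 4
    have h1 : ∫ ω, (a * H ω ^ 2 - 4 * a ^ 3 / 27 * H ω ^ 4) ∂μ ≤ ∫ ω, |H ω| ∂μ :=
      integral_mono ((hH2.const_mul a).sub (hH4.const_mul _)) hHi.abs fun ω => scal34 ha0 _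
    rw [integral_sub (hH2.const_mul a) (hH4.const_mul _), integral_const_mul,
      integral_const_mul] at h1
    have h2 : ∫ ω, H ω ^ 2 ∂μ = v := m2
    have h4 : ∫ ω, H ω ^ 4 ∂μ ≤ 3 * v ^ 2 + (2 * B) ^ 2 * v := m4
    rw [h2] at h1
    have h5 : 3 * v ^ 2 + (2 * B) ^ 2 * v ≤ 4 * B ^ 2 * r ^ 2 * v := by
      rw [hr2]
      nlinarith
    have h6 : a * v - 4 * a ^ 3 / 27 * (4 * B ^ 2 * r ^ 2 * v) ≤ ∫ ω, |H ω| ∂μ := by
      have h7 : 0 ≤ 4 * a ^ 3 / 27 := by positivity
      have h8 := mul_le_mul_of_nonneg_left (h4.trans h5) h7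
      linarith
    have h9 : a * v - 4 * a ^ 3 / 27 * (4 * B ^ 2 * r ^ 2 * v) = v / (2 * B * r) := by
      rw [ha]
      field_simp
      ring
    linarith
  -- Jensen in the second copy
  rw [← hr]
  refine habs.trans ?_
  have hT : ∀ ω ω' : Fin k → Ω, ∑ i, (Real.log (u i s (ω i)) - Real.log (u i s (ω' i))) =
      H ω - H ω' := by
    intro ω ω'
    simp only [hH, hf, hg]
    rw [← Finset.sum_sub_distrib]
    exact Finset.sum_congr rfl fun i _ => by ring
  simp only [hT]
  have hm2 : Measurable fun z : (Fin k → Ω) × (Fin k → Ω) => |H z.1 - H z.2| :=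
    ((hHm.comp measurable_fst).sub (hHm.comp measurable_snd)).abs
  have hi2 : Integrable (fun z : (Fin k → Ω) × (Fin k → Ω) => |H z.1 - H z.2|) (μ.prod μ) :=
    ib hm2 (C := k * (2 * B) + k * (2 * B)) fun z => by
      rw [abs_abs]
      exact (abs_sub _ _).trans (add_le_add (hHB _) (hHB _))
  refine integral_mono hHi.abs hi2.integral_prod_left fun ω => ?_
  have h1 : |∫ ω', (H ω - H ω') ∂μ| ≤ ∫ ω', |H ω - H ω'| ∂μ := abs_integral_le_integral_abs
  have h2 : ∫ ω', (H ω - H ω') ∂μ = H ω := by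
    rw [integral_sub (integrable_const _) hHi, integral_const, m1]
    simp
  rw [h2] at h1
  exact h1

end Pool.Agent.W_7d29a1_NV.T34
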