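import Pool.Agent.W_7d29a1_NV.TwoPr66
import Pool.Agent.W_7d29a1_Q29.SumA98

/-!
Leaf Q, truncated, with the resampling of the future instead of a centring.
-/

namespace Pool.Agent.W_7d29a1_NV.M66

open MeasureTheory ProbabilityTheory Filter Topology Pool.Agent.W_MP_7d29a1_pr
  Pool.Agent.W_7d29a1_h46 Pool.Agent.W_7d29a1_h46u Pool.Agent.W_7d29a1_D2.B35
  Pool.Agent.W_7d29a1_Q29 Pool.Agent.W_7d29a1_NV

section Pol

variable {d : ℕ} {ρ : Measure ℝ} [IsProbabilityMeasure ρ] {β b : ℝ}

/-- `TwoTr` for the polymer, with any bound of the truncated distance. -/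
theorem twoG66 (hb : HB ρ b) (h1 : OneT) (h2 : TwoTr)
    (hE : EqT d ρ β b) (hK : KapT d ρ β b) (h : Vec d) {n k : ℕ} {T : Fin k → ℕ}
    {r : Fin (k + 1) → ℕ} (hO : Ord n T r) (D : ℝ)
    (hD : ∫ η, (∫ ω, ∫ ω', min |Real.log (dT (Qsp ρ β b h n T r η) (usp ρ β b h n T r η) ω) -
      Real.log (dT (Qsp ρ β b h n T r η) (usp ρ β b h n T r η) ω')|
        (2 * Bc β b * Real.sqrt (k + 1))
      ∂(Measure.pi fun _ => law d (rb ρ b)) ∂(Measure.pi fun _ => law d (rb ρ b))) ∂(law d ρ) ≤
      D) :
    (∑ i : Fin k, vap ρ β b h n (T i) (r i.castSucc) (r i.succ)) /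
        (4 * Bc β b * Real.sqrt (k + 1)) ≤
      D + ∑ i : Fin k, kap ρ β b h n (T i) (r i.castSucc) (r i.succ) +
        (2 * Bc β b * k + 1) *
          Real.sqrt (2 * ∑ i : Fin k, kap ρ β b h n (T i) (r i.castSucc) (r i.succ)) := by
  haveI := prob_rb hb
  have hB := one_le_Bc hb β
  set B : ℝ := Bc β b with hBdef
  set P : Measure (Env d) := law d (rb ρ b) with hP
  set Pk : Measure (Fin k → Env d) := Measure.pi fun _ => P with hPk
  set V : Env d → ℝ := fun η => ∑ i, ∫ ω, ∑ s, prT (Qsp ρ β b h n T r η) (usp ρ β b h n T r η) ω s *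
      vaT P (usp ρ β b h n T r η) i s ∂Pk with hV
  obtain ⟨Rk, hRk⟩ : ∃ Rk : ℝ, Rk = 2 * B * Real.sqrt (k + 1) := ⟨_, rfl⟩
  have hRk0 : 0 ≤ Rk := by
    rw [hRk]
    positivity
  set I : Env d → ℝ := fun η => ∫ ω, ∫ ω', min |Real.log (dT (Qsp ρ β b h n T r η)
      (usp ρ β b h n T r η) ω) - Real.log (dT (Qsp ρ β b h n T r η) (usp ρ β b h n T r η) ω')| Rk
      ∂Pk ∂Pk with hI
  set κ : Env d → ℝ := fun η => ∑ i, kaT P (Qsp ρ β b h n T r η) (usp ρ β b h n T r η) i with hκ
  have hpt : ∀ η, V η / (4 * B * Real.sqrt (k + 1)) ≤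
      I η + κ η + (2 * B * k + 1) * Real.sqrt (2 * κ η) := fun η => by
    have h0 := h2 (Env d) (Sp d n k) k P _ _ B hB (hE h n k T r hO η).1
    rw [← hRk] at h0
    exact h0
  -- measurability and bounds
  have mv : ∀ i, Measurable fun η => ∫ ω, ∑ s, prT (Qsp ρ β b h n T r η)
      (usp ρ β b h n T r η) ω s * vaT P (usp ρ β b h n T r η) i s ∂Pk := by
    intro i
    have h3 : Measurable fun w : Env d × (Fin k → Env d) => ∑ s, prT (Qsp ρ β b h n T r w.1)
        (usp ρ β b h n T r w.1) w.2 s * vaT P (usp ρ β b h n T r w.1) i s :=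
      Finset.measurable_sum _ fun s _ =>
        (prT_meas ρ β b h n T r s measurable_fst measurable_snd).mul
          ((vaT_meas hb β h n T r i s).comp measurable_fst)
    exact (h3.stronglyMeasurable.integral_prod_right (ν := Pk)).measurable
  have bv : ∀ i η, |∫ ω, ∑ s, prT (Qsp ρ β b h n T r η)
      (usp ρ β b h n T r η) ω s * vaT P (usp ρ β b h n T r η) i s ∂Pk| ≤ 4 * B ^ 2 := by
    intro i η
    have H := (hE h n k T r hO η).1
    have h3 := norm_integral_le_of_norm_le_const (μ := Pk)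
      (f := fun ω => ∑ s, prT (Qsp ρ β b h n T r η) (usp ρ β b h n T r η) ω s *
        vaT P (usp ρ β b h n T r η) i s) (C := 4 * B ^ 2)
      (Eventually.of_forall fun ω => sum_pr_le H ω fun s => by
        rw [abs_of_nonneg (vaT_bd H i s).1]
        exact (vaT_bd H i s).2)
    simpa using h3
  have iv : ∀ i, Integrable (fun η => ∫ ω, ∑ s, prT (Qsp ρ β b h n T r η)
      (usp ρ β b h n T r η) ω s * vaT P (usp ρ β b h n T r η) i s ∂Pk) (law d ρ) := fun i =>
    Integrable.mono' (integrable_const _) (mv i).aestronglyMeasurable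
      (Eventually.of_forall fun η => bv i η)
  have iV : Integrable V (law d ρ) := integrable_finsetSum _ fun i _ => iv i
  have ik : ∀ i, Integrable (fun η => kaT P (Qsp ρ β b h n T r η) (usp ρ β b h n T r η) i)
      (law d ρ) := fun i =>
    Integrable.mono' (integrable_const (2 * B)) (kaT_meas hb β h n T r i).aestronglyMeasurable
      (Eventually.of_forall fun η => kaT_bd (hE h n k T r hO η).1 i)
  have iκ : Integrable κ (law d ρ) := integrable_finsetSum _ fun i _ => ik i
  have κ0 : ∀ η, 0 ≤ κ η := fun η => Finset.sum_nonneg fun i _ =>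
    kaT_nonneg h1 hB (hE h n k T r hO η).1 i
  have κm : Measurable κ := Finset.measurable_sum _ fun i _ => kaT_meas hb β h n T r i
  have κb : ∀ η, κ η ≤ 2 * B * k := by
    intro η
    calc κ η ≤ ∑ _i : Fin k, 2 * B := Finset.sum_le_sum fun i _ =>
          (le_abs_self _).trans (kaT_bd (hE h n k T r hO η).1 i)
      _ = 2 * B * k := by
          rw [Finset.sum_const, Finset.card_univ, Fintype.card_fin, nsmul_eq_mul]
          ring
  have is : Integrable (fun η => Real.sqrt (2 * κ η)) (law d ρ) := by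
    refine Integrable.mono' (integrable_const (Real.sqrt (2 * (2 * B * k))))
      (κm.const_mul 2).sqrt.aestronglyMeasurable (Eventually.of_forall fun η => ?_)
    rw [Real.norm_eq_abs, abs_of_nonneg (Real.sqrt_nonneg _)]
    exact Real.sqrt_le_sqrt (by linarith [κb η])
  have mI : Measurable I := by
    have h3 : Measurable fun w : (Env d × (Fin k → Env d)) × (Fin k → Env d) =>
        min |Real.log (dT (Qsp ρ β b h n T r w.1.1) (usp ρ β b h n T r w.1.1) w.1.2) -
        Real.log (dT (Qsp ρ β b h n T r w.1.1) (usp ρ β b h n T r w.1.1) w.2)| Rk :=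
      (measurable_norm.comp ((Real.measurable_log.comp (dT_meas ρ β b h n T r
        (measurable_fst.comp measurable_fst) (measurable_snd.comp measurable_fst))).sub
        (Real.measurable_log.comp (dT_meas ρ β b h n T r
        (measurable_fst.comp measurable_fst) measurable_snd)))).min measurable_const
    have h4 := (h3.stronglyMeasurable.integral_prod_right' (ν := Pk))
    exact (h4.integral_prod_right' (ν := Pk)).measurable
  have bI : ∀ η, |I η| ≤ Rk := by
    intro η
    have h3 : ∀ x : ℝ, |min |x| Rk| ≤ Rk := by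
      intro x
      rw [abs_of_nonneg (le_min (abs_nonneg _) hRk0)]
      exact min_le_right _ _
    have h4 : ∀ ω, |∫ ω', min |Real.log (dT (Qsp ρ β b h n T r η)
        (usp ρ β b h n T r η) ω) - Real.log (dT (Qsp ρ β b h n T r η) (usp ρ β b h n T r η) ω')| Rk
        ∂Pk| ≤ Rk := by
      intro ω
      have h5 := norm_integral_le_of_norm_le_const (μ := Pk) (f := fun ω' =>
        min |Real.log (dT (Qsp ρ β b h n T r η) (usp ρ β b h n T r η) ω) -
          Real.log (dT (Qsp ρ β b h n T r η) (usp ρ β b h n T r η) ω')| Rk) (C := Rk)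
        (Eventually.of_forall fun ω' => by
          rw [Real.norm_eq_abs]
          exact h3 _)
      simpa using h5
    have h6 := norm_integral_le_of_norm_le_const (μ := Pk) (f := fun ω => ∫ ω',
        min |Real.log (dT (Qsp ρ β b h n T r η) (usp ρ β b h n T r η) ω) -
          Real.log (dT (Qsp ρ β b h n T r η) (usp ρ β b h n T r η) ω')| Rk ∂Pk) (C := Rk)
        (Eventually.of_forall fun ω => h4 ω)
    simpa [hI] using h6
  have iI : Integrable I (law d ρ) := Integrable.mono' (integrable_const _)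
    mI.aestronglyMeasurable (Eventually.of_forall bI)
  have iIκ : Integrable (fun η => I η + κ η) (law d ρ) := iI.add iκ
  -- integrate
  have h3 := integral_mono (iV.div_const _) (iIκ.add (is.const_mul (2 * B * k + 1))) hpt
  have eV : ∫ η, V η / (4 * B * Real.sqrt (k + 1)) ∂(law d ρ) =
      (∑ i : Fin k, vap ρ β b h n (T i) (r i.castSucc) (r i.succ)) /
        (4 * B * Real.sqrt (k + 1)) := by
    rw [integral_div]
    congr 1
    rw [hV, integral_finsetSum _ fun i _ => iv i]
    exact Finset.sum_congr rfl fun i _ => (hK h n k T r hO i).2.2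
  have eκ : ∫ η, κ η ∂(law d ρ) =
      ∑ i : Fin k, kap ρ β b h n (T i) (r i.castSucc) (r i.succ) := by
    rw [hκ, integral_finsetSum _ fun i _ => ik i]
    exact Finset.sum_congr rfl fun i _ => (hK h n k T r hO i).1
  have eR : ∫ η, (I η + κ η + (2 * B * k + 1) * Real.sqrt (2 * κ η)) ∂(law d ρ) =
      ∫ η, I η ∂(law d ρ) + ∫ η, κ η ∂(law d ρ) +
        (2 * B * k + 1) * ∫ η, Real.sqrt (2 * κ η) ∂(law d ρ) := by
    rw [integral_add iIκ (is.const_mul _), integral_add iI iκ, integral_const_mul]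
  have hs : ∫ η, Real.sqrt (2 * κ η) ∂(law d ρ) ≤
      Real.sqrt (2 * ∑ i : Fin k, kap ρ β b h n (T i) (r i.castSucc) (r i.succ)) := by
    refine Real.le_sqrt_of_sq_le ?_
    have e4 : ∀ η, Real.sqrt (2 * κ η) ^ 2 = 2 * κ η := fun η =>
      Real.sq_sqrt (by linarith [κ0 η])
    have i4 : Integrable (fun η => Real.sqrt (2 * κ η) ^ 2) (law d ρ) := by
      simp only [e4]
      exact iκ.const_mul 2
    refine (sq_int is i4).trans (le_of_eq ?_)
    simp only [e4]
    rw [integral_const_mul, eκ]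
  have hd' : ∫ η, I η ∂(law d ρ) ≤ D := by
    rw [← hRk] at hD
    exact hD
  have hk : 0 ≤ 2 * B * k + 1 := by positivity
  calc (∑ i : Fin k, vap ρ β b h n (T i) (r i.castSucc) (r i.succ)) /
        (4 * B * Real.sqrt (k + 1)) = ∫ η, V η / (4 * B * Real.sqrt (k + 1)) ∂(law d ρ) := eV.symm
    _ ≤ ∫ η, (I η + κ η + (2 * B * k + 1) * Real.sqrt (2 * κ η)) ∂(law d ρ) := h3
    _ = ∫ η, I η ∂(law d ρ) + ∑ i : Fin k, kap ρ β b h n (T i) (r i.castSucc) (r i.succ) +
        (2 * B * k + 1) * ∫ η, Real.sqrt (2 * κ η) ∂(law d ρ) := by rw [eR, eκ]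
    _ ≤ _ := add_le_add (add_le_add hd' le_rfl) (mul_le_mul_of_nonneg_left hs hk)


/-- The truncated distance of two resampled free energies, from a bound at each environment. -/
lemma distG66 (hb : HB ρ b) (hE : EqT d ρ β b) (hW : MixT d ρ b)
    (h : Vec d) {n k : ℕ} {T : Fin k → ℕ} {r : Fin (k + 1) → ℕ} (hO : Ord n T r)
    {R : ℝ} (hR : 0 ≤ R) {g : Env d → ℝ} (hgm : Measurable g) (hg0 : ∀ η, 0 ≤ g η)
    (hgR : ∀ η, g η ≤ R)
    (hg : ∀ (η : Env d) (ω ω' : Fin k → Env d),
      min |X β h (mxJ b T η ω) n - X β h (mxJ b T η ω') n| R ≤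
        g (mxJ b T η ω) + g (mxJ b T η ω')) :
    ∫ η, (∫ ω, ∫ ω', min |Real.log (dT (Qsp ρ β b h n T r η) (usp ρ β b h n T r η) ω) -
      Real.log (dT (Qsp ρ β b h n T r η) (usp ρ β b h n T r η) ω')| R
      ∂(Measure.pi fun _ => law d (rb ρ b)) ∂(Measure.pi fun _ => law d (rb ρ b))) ∂(law d ρ) ≤
      2 * ∫ η, g η ∂(law d ρ) := by
  haveI := prob_rb hb
  set Pk : Measure (Fin k → Env d) := Measure.pi fun _ => law d (rb ρ b) with hPk
  set G : Env d × (Fin k → Env d) → ℝ := fun w => g (mxJ b T w.1 w.2) with hG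
  have hmJ : Measurable fun w : Env d × (Fin k → Env d) => mxJ b T w.1 w.2 :=
    mxJ_meas b T measurable_fst measurable_snd
  have hGm : Measurable G := hgm.comp hmJ
  have hG0 : ∀ w, 0 ≤ G w := fun w => hg0 _
  have hmp := hW k T (ord_inj hO)
  have hGb : ∀ w, ‖G w‖ ≤ R := fun w => by
    rw [Real.norm_eq_abs, abs_of_nonneg (hG0 w)]
    exact hgR _
  have hGi : Integrable G ((law d ρ).prod Pk) :=
    Integrable.mono' (integrable_const R) hGm.aestronglyMeasurable (Eventually.of_forall hGb)
  have hGi2 : ∀ η : Env d, Integrable (fun ξ => G (η, ξ)) Pk := fun η =>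
    Integrable.mono' (integrable_const R)
      (hGm.comp (measurable_const.prodMk measurable_id)).aestronglyMeasurable
      (Eventually.of_forall fun ξ => hGb (η, ξ))
  have hn0 : ∀ x : ℝ, 0 ≤ min |x| R := fun x => le_min (abs_nonneg _) hR
  have key : ∀ η : Env d, (∫ ω, ∫ ω', min |Real.log (dT (Qsp ρ β b h n T r η)
      (usp ρ β b h n T r η) ω) - Real.log (dT (Qsp ρ β b h n T r η) (usp ρ β b h n T r η) ω')| R
      ∂Pk ∂Pk) ≤ 2 * ∫ ξ, G (η, ξ) ∂Pk := by
    intro η
    obtain ⟨H, h1⟩ := hE h n k T r hO η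
    have e : ∀ ω ω' : Fin k → Env d, min |Real.log (dT (Qsp ρ β b h n T r η)
        (usp ρ β b h n T r η) ω) - Real.log (dT (Qsp ρ β b h n T r η) (usp ρ β b h n T r η) ω')| R ≤
        G (η, ω) + G (η, ω') := by
      intro ω ω'
      rw [(h1 ω).2, (h1 ω').2]
      have e2 : X β h (mxJ b T η ω) n - X β h (mxJ b T η fun _ _ => c0 ρ β b) n -
          (X β h (mxJ b T η ω') n - X β h (mxJ b T η fun _ _ => c0 ρ β b) n) =
          X β h (mxJ b T η ω) n - X β h (mxJ b T η ω') n := by
        ring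
      rw [e2]
      exact hg η ω ω'
    set J : ℝ := ∫ ξ, G (η, ξ) ∂Pk with hJ
    have h2 : ∀ ω, ∫ ω', min |Real.log (dT (Qsp ρ β b h n T r η)
        (usp ρ β b h n T r η) ω) - Real.log (dT (Qsp ρ β b h n T r η) (usp ρ β b h n T r η) ω')| R
        ∂Pk ≤ G (η, ω) + J := by
      intro ω
      have h3 : ∫ ω', (G (η, ω) + G (η, ω')) ∂Pk = G (η, ω) + J := by
        rw [integral_add (integrable_const _) (hGi2 η), integral_const]
        simp [hJ]
      rw [← h3]
      refine integral_mono_of_nonneg (Eventually.of_forall fun _ => hn0 _)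
        ((integrable_const _).add (hGi2 η)) (Eventually.of_forall fun ω' => e ω ω')
    have h4 : ∫ ω, (G (η, ω) + J) ∂Pk = 2 * J := by
      rw [integral_add (hGi2 η) (integrable_const _), integral_const, ← hJ]
      simp
      ring
    rw [← h4]
    exact integral_mono_of_nonneg (Eventually.of_forall fun _ => integral_nonneg fun _ =>
      hn0 _) ((hGi2 η).add (integrable_const _)) (Eventually.of_forall h2)
  have hJi : Integrable (fun η => ∫ ξ, G (η, ξ) ∂Pk) (law d ρ) := hGi.integral_prod_left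
  have h5 := integral_mono_of_nonneg (μ := law d ρ) (Eventually.of_forall fun η =>
    integral_nonneg fun _ => integral_nonneg fun _ => hn0 _) (hJi.const_mul 2)
    (Eventually.of_forall key)
  refine h5.trans ?_
  rw [integral_const_mul, ← integral_prod _ hGi]
  have h6 : ∫ w, G w ∂((law d ρ).prod Pk) = ∫ η, g η ∂(law d ρ) :=
    LawU_integral (F := g) hmp hgm.aestronglyMeasurable
  rw [h6]

/-- The mean truncated change of the free energy when the rows `> p` are resampled. -/
noncomputable def gW66 (ρ : Measure ℝ) (β : ℝ) (h : Vec d) (n p : ℕ) (R : ℝ) (η : Env d) : ℝ :=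
  ∫ ζ, min |X β h η n - X β h (spl (Pa d p) η ζ) n| R ∂(law d ρ)

/-- **`TwoPr`, with the resampling of the rows `> p` instead of a centring.** -/
theorem twoPw66 (hb : HB ρ b) (h1 : OneT) (h2 : TwoTr)
    (hE : EqT d ρ β b) (hK : KapT d ρ β b) (hW : MixT d ρ b)
    (h : Vec d) (n k : ℕ) (T : Fin k → ℕ) (r : Fin (k + 1) → ℕ) (hO : Ord n T r) (p : ℕ)
    (hp : ∀ i, p < T i) (M δ : ℝ) (hM : 0 ≤ M)
    (hMδ : ((law d ρ).prod (law d ρ)).real {w : Env d × Env d |
      M < |X β h w.1 n - X β h (spl (Pa d p) w.1 w.2) n|} ≤ δ) :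
    (∑ i : Fin k, vap ρ β b h n (T i) (r i.castSucc) (r i.succ)) /
        (4 * Bc β b * Real.sqrt (k + 1)) ≤
      2 * M + 4 * Bc β b * Real.sqrt (k + 1) * δ +
        ∑ i : Fin k, kap ρ β b h n (T i) (r i.castSucc) (r i.succ) +
        (2 * Bc β b * k + 1) *
          Real.sqrt (2 * ∑ i : Fin k, kap ρ β b h n (T i) (r i.castSucc) (r i.succ)) := by
  refine twoG66 hb h1 h2 hE hK h hO _ ?_
  have hB := one_le_Bc hb β
  obtain ⟨R, hRd⟩ : ∃ R : ℝ, R = 2 * Bc β b * Real.sqrt (k + 1) := ⟨_, rfl⟩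
  have hR : 0 ≤ R := by
    rw [hRd]
    positivity
  rw [← hRd]
  have hn0 : ∀ x : ℝ, 0 ≤ min |x| R := fun x => le_min (abs_nonneg _) hR
  have hnR : ∀ x : ℝ, ‖min |x| R‖ ≤ R := fun x => by
    rw [Real.norm_eq_abs, abs_of_nonneg (hn0 x)]
    exact min_le_right _ _
  have hFm : Measurable fun w : Env d × Env d =>
      X β h w.1 n - X β h (spl (Pa d p) w.1 w.2) n :=
    ((measurable_X β h n).comp measurable_fst).sub
      ((measurable_X β h n).comp (S98.measurable_spl (Pa d p)))
  have hGm : Measurable fun w : Env d × Env d =>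
      min |X β h w.1 n - X β h (spl (Pa d p) w.1 w.2) n| R :=
    (measurable_norm.comp hFm).min measurable_const
  have hGi : Integrable (fun w : Env d × Env d =>
      min |X β h w.1 n - X β h (spl (Pa d p) w.1 w.2) n| R) ((law d ρ).prod (law d ρ)) :=
    Integrable.mono' (integrable_const R) hGm.aestronglyMeasurable
      (Eventually.of_forall fun w => hnR _)
  have hgi : ∀ η : Env d, Integrable (fun ζ =>
      min |X β h η n - X β h (spl (Pa d p) η ζ) n| R) (law d ρ) := fun η =>
    Integrable.mono' (integrable_const R)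
      (hGm.comp (measurable_const.prodMk measurable_id)).aestronglyMeasurable
      (Eventually.of_forall fun w => hnR _)
  have hgm : Measurable (gW66 ρ β h n p R) :=
    (hGm.stronglyMeasurable.integral_prod_right (ν := law d ρ)).measurable
  have hg0 : ∀ η, 0 ≤ gW66 ρ β h n p R η := fun η => integral_nonneg fun _ => hn0 _
  have hgR : ∀ η, gW66 ρ β h n p R η ≤ R := by
    intro η
    have h3 := norm_integral_le_of_norm_le_const (μ := law d ρ) (f := fun ζ =>
      min |X β h η n - X β h (spl (Pa d p) η ζ) n| R) (C := R)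
      (Eventually.of_forall fun w => hnR _)
    have h4 := (le_abs_self _).trans h3
    simpa [gW66] using h4
  have hag : ∀ (η : Env d) (ω ω' : Fin k → Env d) (ζ : Env d),
      spl (Pa d p) (mxJ b T η ω) ζ = spl (Pa d p) (mxJ b T η ω') ζ := by
    intro η ω ω' ζ
    funext q
    by_cases hq : q ∈ Pa d p
    · rw [S98.spl_mem _ _ hq, S98.spl_mem _ _ hq]
      have hq2 : q.1 ≤ p := hq
      have hT : ¬ ((∃ i, T i = q.1) ∧ |η q| ≤ b) := by
        rintro ⟨⟨i, hi⟩, -⟩
        have := hp i
        omega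
      unfold mxJ
      rw [dif_neg hT, dif_neg hT]
    · rw [S98.spl_not_mem _ _ hq, S98.spl_not_mem _ _ hq]
  have hg : ∀ (η : Env d) (ω ω' : Fin k → Env d),
      min |X β h (mxJ b T η ω) n - X β h (mxJ b T η ω') n| R ≤
        gW66 ρ β h n p R (mxJ b T η ω) + gW66 ρ β h n p R (mxJ b T η ω') := by
    intro η ω ω'
    unfold gW66
    rw [← integral_add (hgi _) (hgi _)]
    have h3 : ∫ _ζ : Env d, min |X β h (mxJ b T η ω) n - X β h (mxJ b T η ω') n| R ∂(law d ρ) =
        min |X β h (mxJ b T η ω) n - X β h (mxJ b T η ω') n| R := by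
      rw [integral_const]
      simp
    rw [← h3]
    refine integral_mono (integrable_const _) ((hgi _).add (hgi _)) fun ζ => ?_
    refine min_add66 hR ?_
    rw [hag η ω ω' ζ]
    have e2 : X β h (mxJ b T η ω) n - X β h (mxJ b T η ω') n =
        (X β h (mxJ b T η ω) n - X β h (spl (Pa d p) (mxJ b T η ω') ζ) n) -
          (X β h (mxJ b T η ω') n - X β h (spl (Pa d p) (mxJ b T η ω') ζ) n) := by ring
    rw [e2]
    exact abs_sub _ _
  refine (distG66 hb hE hW h hO hR hgm hg0 hgR hg).trans ?_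
  have h8 : ∫ η, gW66 ρ β h n p R η ∂(law d ρ) ≤ M + R * δ := by
    have e1 : ∫ η, gW66 ρ β h n p R η ∂(law d ρ) = ∫ w : Env d × Env d,
        min |X β h w.1 n - X β h (spl (Pa d p) w.1 w.2) n| R ∂((law d ρ).prod (law d ρ)) :=
      (integral_prod _ hGi).symm
    rw [e1]
    have hS : MeasurableSet {w : Env d × Env d |
        M < |X β h w.1 n - X β h (spl (Pa d p) w.1 w.2) n|} :=
      measurableSet_lt measurable_const (measurable_norm.comp hFm)
    have i7 : Integrable ({w : Env d × Env d |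
        M < |X β h w.1 n - X β h (spl (Pa d p) w.1 w.2) n|}.indicator fun _ => (1 : ℝ))
        ((law d ρ).prod (law d ρ)) := (integrable_const (1 : ℝ)).indicator hS
    have h7 : ∀ w : Env d × Env d, min |X β h w.1 n - X β h (spl (Pa d p) w.1 w.2) n| R ≤
        M + R * {w : Env d × Env d |
          M < |X β h w.1 n - X β h (spl (Pa d p) w.1 w.2) n|}.indicator (fun _ => (1 : ℝ)) w := by
      intro w
      by_cases hw : M < |X β h w.1 n - X β h (spl (Pa d p) w.1 w.2) n|
      · rw [Set.indicator_of_mem (show w ∈ {w : Env d × Env d |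
          M < |X β h w.1 n - X β h (spl (Pa d p) w.1 w.2) n|} from hw)]
        exact (min_le_right _ _).trans (by linarith)
      · rw [Set.indicator_of_notMem (show w ∉ {w : Env d × Env d |
          M < |X β h w.1 n - X β h (spl (Pa d p) w.1 w.2) n|} from hw)]
        push Not at hw
        exact (min_le_left _ _).trans (by linarith)
    calc _ ≤ ∫ w : Env d × Env d, (M + R * {w : Env d × Env d |
          M < |X β h w.1 n - X β h (spl (Pa d p) w.1 w.2) n|}.indicator (fun _ => (1 : ℝ)) w)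
          ∂((law d ρ).prod (law d ρ)) :=
          integral_mono_of_nonneg (Eventually.of_forall fun _ => hn0 _)
            ((integrable_const _).add (i7.const_mul R)) (Eventually.of_forall h7)
      _ = M + R * ((law d ρ).prod (law d ρ)).real {w : Env d × Env d |
          M < |X β h w.1 n - X β h (spl (Pa d p) w.1 w.2) n|} := by
          rw [integral_add (integrable_const _) (i7.const_mul R), integral_const_mul,
            integral_indicator_const _ hS]
          simp
      _ ≤ M + R * δ := by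
          have := mul_le_mul_of_nonneg_left hMδ hR
          linarith
  have h9 : 2 * M + 4 * Bc β b * Real.sqrt (k + 1) * δ = 2 * (M + R * δ) := by
    rw [hRd]
    ring
  rw [h9]
  linarith

end Pol

end Pool.Agent.W_7d29a1_NV.M66
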