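import Pool.Agent.W_7d29a1_h46u.ConcU

/-!
Union bound over the classes of walks: exponential moments. Finite families of walks with arbitrary
weights, `k` independent rows at arbitrary positions.
-/

namespace Pool.Agent.W_7d29a1_NV.Un66

open MeasureTheory ProbabilityTheory Filter Topology Pool.Agent.W_MP_7d29a1_pr
  Pool.Agent.W_7d29a1_h46 Pool.Agent.W_7d29a1_h46u

variable {d : ℕ} {ρ : Measure ℝ} [IsProbabilityMeasure ρ] {W : Type*} {k : ℕ}

/-- The law of a row. -/
noncomputable abbrev Rl (d : ℕ) (ρ : Measure ℝ) : Measure (Site d → ℝ) :=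
  Measure.infinitePi fun _ : Site d => ρ

/-- The law of `k` rows. -/
noncomputable abbrev Rk (d k : ℕ) (ρ : Measure ℝ) [IsProbabilityMeasure ρ] :
    Measure (Fin k → Site d → ℝ) := Measure.pi fun _ : Fin k => Rl d ρ

/-- The gain of the walk `s` from the rows. -/
noncomputable def ph (β : ℝ) (z : W → Fin k → Site d) (ξ : Fin k → Site d → ℝ) (s : W) : ℝ :=
  β * ∑ i, ξ i (z s i)

/-- The weight of the class `T`. -/
noncomputable def Zw (β : ℝ) (T : Finset W) (w : W → ℝ) (z : W → Fin k → Site d)
    (ξ : Fin k → Site d → ℝ) : ℝ := ∑ s ∈ T, w s * Real.exp (ph β z ξ s)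

lemma ph_meas (β : ℝ) (z : W → Fin k → Site d) (s : W) : Measurable fun ξ => ph β z ξ s := by
  unfold ph
  refine Measurable.const_mul (Finset.measurable_sum _ fun i _ => ?_) β
  exact (measurable_pi_apply _).comp (measurable_pi_apply i)

lemma Zw_meas (β : ℝ) (T : Finset W) (w : W → ℝ) (z : W → Fin k → Site d) :
    Measurable (Zw β T w z) := by
  unfold Zw
  exact Finset.measurable_sum _ fun s _ => (Real.measurable_exp.comp (ph_meas β z s)).const_mul _

lemma Zw_pos {β : ℝ} {T : Finset W} {w : W → ℝ} (hw : ∀ s ∈ T, 0 < w s) (hT : T.Nonempty)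
    (z : W → Fin k → Site d) (ξ : Fin k → Site d → ℝ) : 0 < Zw β T w z ξ :=
  Finset.sum_pos (fun s hs => mul_pos (hw s hs) (Real.exp_pos _)) hT

lemma ph_upd (β : ℝ) (z : W → Fin k → Site d) (ξ : Fin k → Site d → ℝ) (i : Fin k)
    (u : Site d → ℝ) (s : W) : ph β z (Function.update ξ i u) s =
      β * u (z s i) + ph β z (Function.update ξ i 0) s := by
  unfold ph
  rw [← Finset.add_sum_erase _ _ (Finset.mem_univ i), ← Finset.add_sum_erase _
    (fun j => Function.update ξ i (0 : Site d → ℝ) j (z s j)) (Finset.mem_univ i),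
    Function.update_self, Function.update_self]
  have h1 : ∀ j ∈ Finset.univ.erase i, Function.update ξ i u j (z s j) =
      Function.update ξ i (0 : Site d → ℝ) j (z s j) := by
    intro j hj
    rw [Function.update_of_ne (Finset.ne_of_mem_erase hj),
      Function.update_of_ne (Finset.ne_of_mem_erase hj)]
  rw [Finset.sum_congr rfl h1]
  simp only [Pi.zero_apply, zero_add]
  ring

/-- The row bound for arbitrary weights. -/
theorem row66 (hρ : EM ρ) (β : ℝ) {T : Finset W} {w : W → ℝ} (hw : ∀ s ∈ T, 0 < w s)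
    (hT : T.Nonempty) (z : W → Fin k → Site d) (i : Fin k) :
    ∃ G : (Fin k → Site d → ℝ) → ℝ, Measurable G ∧
      (∀ ξ u, G (Function.update ξ i u) = G ξ) ∧
      ∀ ξ, Integrable (fun u => Real.exp (2 * |Real.log (Zw β T w z (Function.update ξ i u)) -
        G ξ|)) (Rl d ρ) ∧
        ∫ u, Real.exp (2 * |Real.log (Zw β T w z (Function.update ξ i u)) - G ξ|) ∂(Rl d ρ) ≤
          Kc β ρ := by
  classical
  refine ⟨fun ξ => Real.log (Zw β T w z (Function.update ξ i 0)), ?_, ?_, ?_⟩
  · refine Real.measurable_log.comp ((Zw_meas β T w z).comp ?_)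
    exact measurable_pi_iff.2 fun j => by
      by_cases hj : j = i
      · subst hj
        simp only [Function.update_self]
        exact measurable_const
      · simp only [Function.update_of_ne hj]
        exact measurable_pi_apply j
  · intro ξ u
    simp only [Function.update_idem]
  intro ξ
  obtain ⟨v, hv⟩ : ∃ v : W → ℝ, v = fun s => w s * Real.exp (ph β z (Function.update ξ i 0) s) :=
    ⟨_, rfl⟩
  obtain ⟨U, hU⟩ : ∃ U : ℝ, U = ∑ s ∈ T, v s := ⟨_, rfl⟩
  have hv0 : ∀ s ∈ T, 0 < v s := fun s hs => by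
    rw [hv]
    exact mul_pos (hw s hs) (Real.exp_pos _)
  have hU0 : 0 < U := by
    rw [hU]
    exact Finset.sum_pos hv0 hT
  have hZu : ∀ u : Site d → ℝ, Zw β T w z (Function.update ξ i u) =
      ∑ s ∈ T, Real.exp (β * u (z s i)) * v s := by
    intro u
    unfold Zw
    refine Finset.sum_congr rfl fun s _ => ?_
    rw [ph_upd, Real.exp_add, hv]
    ring
  have hZ0 : Zw β T w z (Function.update ξ i 0) = ∑ s ∈ T, v s := by
    unfold Zw
    rw [hv]
  obtain ⟨B, hB⟩ : ∃ B : (Site d → ℝ) → ℝ, B = fun u => ∑ s ∈ T, (v s / U) *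
      (Real.exp (2 * β * u (z s i)) + Real.exp (-(2 * β) * u (z s i))) := ⟨_, rfl⟩
  have hle : ∀ u : Site d → ℝ, Real.exp (2 * |Real.log (Zw β T w z (Function.update ξ i u)) -
      Real.log (Zw β T w z (Function.update ξ i 0))|) ≤ B u := by
    intro u
    rw [hZu, hZ0]
    have h1 := (ConcU_alg T v (fun s => β * u (z s i)) (fun s hs => (hv0 s hs).le)
      (by rw [← hU]; exact hU0)).2
    refine h1.trans ?_
    rw [← hU, hB, Finset.sum_div]
    refine Finset.sum_le_sum fun s hs => ?_
    rw [mul_div_right_comm]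
    refine mul_le_mul_of_nonneg_left ?_ (div_nonneg (hv0 s hs).le hU0.le)
    have h2 := ConcU_exp_abs (β * u (z s i))
    have e1 : 2 * (β * u (z s i)) = 2 * β * u (z s i) := by ring
    rw [e1] at h2
    rw [show -(2 * β * u (z s i)) = -(2 * β) * u (z s i) by ring] at h2
    exact h2
  have hI : ∀ s : W, Integrable (fun u : Site d → ℝ => (v s / U) *
      (Real.exp (2 * β * u (z s i)) + Real.exp (-(2 * β) * u (z s i)))) (Rl d ρ) := fun s =>
    ((ConcU_int hρ _ _).1.add (ConcU_int hρ _ _).1).const_mul _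
  have hBI : Integrable B (Rl d ρ) := by
    rw [hB]
    exact integrable_finsetSum _ fun s _ => hI s
  have hBv : ∫ u, B u ∂(Rl d ρ) = Kc β ρ := by
    rw [hB, integral_finsetSum _ fun s _ => hI s]
    have h3 : ∀ s : W, ∫ u : Site d → ℝ, (v s / U) *
        (Real.exp (2 * β * u (z s i)) + Real.exp (-(2 * β) * u (z s i))) ∂(Rl d ρ) =
          (v s / U) * Kc β ρ := by
      intro s
      rw [integral_const_mul, integral_add (ConcU_int hρ _ _).1 (ConcU_int hρ _ _).1,
        (ConcU_int hρ _ _).2, (ConcU_int hρ _ _).2]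
      unfold Kc
      rw [← integral_add (hρ _) (hρ _)]
      congr 1
      refine integral_congr_ae (Filter.Eventually.of_forall fun t => ?_)
      change Real.exp (2 * β * t) + Real.exp (-(2 * β) * t) =
        Real.exp (2 * β * t) + Real.exp (-(2 * β * t))
      rw [neg_mul]
    rw [Finset.sum_congr rfl fun s _ => h3 s, ← Finset.sum_mul, ← Finset.sum_div, ← hU,
      div_self hU0.ne', one_mul]
  have hmeas : Measurable fun u : Site d → ℝ =>
      Real.exp (2 * |Real.log (Zw β T w z (Function.update ξ i u)) -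
        Real.log (Zw β T w z (Function.update ξ i 0))|) := by
    have h4 : Measurable fun u : Site d → ℝ => Zw β T w z (Function.update ξ i u) := by
      simp only [hZu]
      refine Finset.measurable_sum _ fun s _ => ?_
      have h6 : Measurable fun u : Site d → ℝ => u (z s i) := measurable_pi_apply _
      exact (Real.measurable_exp.comp (h6.const_mul β)).mul_const _
    have h5 := ((Real.measurable_log.comp h4).sub_const
      (Real.log (Zw β T w z (Function.update ξ i 0))))
    exact Real.measurable_exp.comp ((measurable_norm.comp h5).const_mul 2)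
  have hint : Integrable (fun u : Site d → ℝ =>
      Real.exp (2 * |Real.log (Zw β T w z (Function.update ξ i u)) -
        Real.log (Zw β T w z (Function.update ξ i 0))|)) (Rl d ρ) := by
    refine hBI.mono' hmeas.aestronglyMeasurable (Filter.Eventually.of_forall fun u => ?_)
    rw [Real.norm_eq_abs, abs_of_pos (Real.exp_pos _)]
    exact hle u
  refine ⟨hint, ?_⟩
  rw [← hBv]
  exact integral_mono hint hBI hle

/-- (4a) Exponential moments of the free energy of a class. -/
theorem mgf66 (hρ : EM ρ) (β : ℝ) {T : Finset W} {w : W → ℝ} (hw : ∀ s ∈ T, 0 < w s)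
    (hT : T.Nonempty) (z : W → Fin k → Site d) :
    Integrable (fun ξ => Real.log (Zw β T w z ξ)) (Rk d k ρ) ∧ ∀ θ : ℝ, |θ| ≤ 1 →
      Integrable (fun ξ => Real.exp (θ * (Real.log (Zw β T w z ξ) -
        ∫ ξ', Real.log (Zw β T w z ξ') ∂(Rk d k ρ)))) (Rk d k ρ) ∧
      ∫ ξ, Real.exp (θ * (Real.log (Zw β T w z ξ) -
        ∫ ξ', Real.log (Zw β T w z ξ') ∂(Rk d k ρ))) ∂(Rk d k ρ) ≤
        Real.exp (Kc β ρ ^ 2 * θ ^ 2 * k) :=
  conc_pi k (fun ξ => Real.log (Zw β T w z ξ)) (Real.measurable_log.comp (Zw_meas β T w z))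
    (fun i => row66 hρ β hw hT z i)

end Pool.Agent.W_7d29a1_NV.Un66
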