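import Pool.Agent.W_7d29a1_NV.LocQ42
import Pool.Agent.W_7d29a1_NV.Mix96
import Pool.Agent.W_7d29a1_NV.Eq41b
import Pool.Agent.W_7d29a1_NV.Chn20
import Pool.Agent.W_7d29a1_NV.MeasN66

/-!
Theorem NV, leaf V: the mean variance of the gain of a row is bounded below.
-/

namespace Pool.Agent.W_7d29a1_NV

open MeasureTheory ProbabilityTheory Filter Topology Pool.Agent.W_MP_7d29a1_pr
  Pool.Agent.W_7d29a1_h46 Pool.Agent.W_7d29a1_h46u Pool.Agent.W_7d29a1_Q29

section D

variable {d : ℕ} {ρ : Measure ℝ} {β b : ℝ}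

lemma mx_mx42 (hb : 0 ≤ b) (t : ℕ) (η ξ ξ' : Env d) : mx b t (mx b t η ξ) ξ' = mx b t η ξ' := by
  classical
  funext p
  by_cases hp : p.1 = t
  · by_cases hη : |η p| ≤ b
    · have h1 : mx b t η ξ p = cl b (ξ p) := by
        unfold mx
        rw [if_pos ⟨hp, hη⟩]
      have h2 : |mx b t η ξ p| ≤ b := by
        rw [h1]
        exact Eq41.cl_abs hb _
      unfold mx at h2 ⊢
      rw [if_pos ⟨hp, h2⟩, if_pos ⟨hp, hη⟩]
    · have h1 : mx b t η ξ p = η p := by
        unfold mx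
        rw [if_neg fun h => hη h.2]
      have h2 : ¬ |mx b t η ξ p| ≤ b := by
        rw [h1]
        exact hη
      have h3 : mx b t (mx b t η ξ) ξ' p = mx b t η ξ p := by
        rw [mx]
        rw [if_neg fun h => h2 h.2]
      rw [h3, h1]
      unfold mx
      rw [if_neg fun h => hη h.2]
  · rw [Eq41.mx_of_ne hp, Eq41.mx_of_ne hp, Eq41.mx_of_ne hp]

/-- The variance of the gain. -/
noncomputable def vv (ρ : Measure ℝ) (β b : ℝ) (h : Vec d) (t a b' : ℕ) (x y : Site d)
    (η : Env d) : ℝ :=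
  ∫ ξ', (Real.log (uab ρ β b h t a b' x y η ξ') - psab ρ β b h t a b' x y η) ^ 2
    ∂(law d (rb ρ b))

lemma uab_mx42 (hb : 0 ≤ b) (h : Vec d) (t a b' : ℕ) (x y : Site d) (η ξ ξ' : Env d) :
    uab ρ β b h t a b' x y (mx b t η ξ) ξ' = uab ρ β b h t a b' x y η ξ' := by
  unfold uab
  rw [mx_mx42 hb, mx_mx42 hb]

lemma vv_mx42 (hb : 0 ≤ b) (h : Vec d) (t a b' : ℕ) (x y : Site d) (η ξ : Env d) :
    vv ρ β b h t a b' x y (mx b t η ξ) = vv ρ β b h t a b' x y η := by
  unfold vv psab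
  simp only [uab_mx42 hb]

/-- The integrand of `vap`. -/
noncomputable def Jv (ρ : Measure ℝ) (β b : ℝ) (h : Vec d) (n t a b' : ℕ) (η : Env d) : ℝ :=
  ∑ x ∈ boxF d n, ∑ y ∈ boxF d n, pab β h n a b' x y η * vv ρ β b h t a b' x y η

lemma vap_eq42 (hb : 0 ≤ b) (h : Vec d) (n t a b' : ℕ) :
    vap ρ β b h n t a b' =
      ∫ η, ∫ ξ, Jv ρ β b h n t a b' (mx b t η ξ) ∂(law d (rb ρ b)) ∂(law d ρ) := by
  unfold vap Jv
  simp only [vv_mx42 hb]
  rfl

variable [IsProbabilityMeasure ρ]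

lemma vv_meas42 (hb : HB ρ b) (h : Vec d) (t a b' : ℕ) (x y : Site d) :
    Measurable (vv ρ β b h t a b' x y) := by
  have := M66.prob_rb hb
  have h1 : Measurable fun w : Env d × Env d => (Real.log (uab ρ β b h t a b' x y w.1 w.2) -
      psab ρ β b h t a b' x y w.1) ^ 2 :=
    ((Real.measurable_log.comp (M66.uab_meas ρ β b h t a b' x y measurable_fst
      measurable_snd)).sub ((M66.psab_meas hb β h t a b' x y).comp measurable_fst)).pow_const 2
  exact (h1.stronglyMeasurable.integral_prod_right (ν := law d (rb ρ b))).measurable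

lemma pab_meas42 (h : Vec d) (n a b' : ℕ) (x y : Site d) :
    Measurable (pab β h n a b' x y : Env d → ℝ) := by
  unfold pab
  exact (((M66.PP_meas β h a x).mul (M66.sg_meas β h a b' x y)).mul
    ((measurable_Z β h (n - b')).comp (measurable_sh b' y))).div (measurable_Z β h n)

lemma Jv_meas42 (hb : HB ρ b) (h : Vec d) (n t a b' : ℕ) :
    Measurable (Jv ρ β b h n t a b' : Env d → ℝ) := by
  unfold Jv
  exact Finset.measurable_sum _ fun x _ => Finset.measurable_sum _ fun y _ =>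
    (pab_meas42 h n a b' x y).mul (vv_meas42 hb h t a b' x y)

omit [IsProbabilityMeasure ρ] in
lemma log_uab42 (hb : HB ρ b) (h : Vec d) {t a b' : ℕ} (ht : a < t) (ht' : t ≤ b')
    (x y : Site d) (η ξ : Env d) : |Real.log (uab ρ β b h t a b' x y η ξ)| ≤ Bc β b := by
  have h1 := Eq41.uab_lo ρ β h hb.b0.le ht ht' x y η ξ
  have h2 := Eq41.uab_hi ρ β h hb.b0.le ht ht' x y η ξ
  have h0 : 0 < uab ρ β b h t a b' x y η ξ := (Real.exp_pos _).trans_le h1
  rw [abs_le]
  constructor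
  · have := Real.log_le_log (Real.exp_pos _) h1
    rwa [Real.log_exp] at this
  · have := Real.log_le_log h0 h2
    rwa [Real.log_exp] at this

lemma psab_abs42 (hb : HB ρ b) (h : Vec d) {t a b' : ℕ} (ht : a < t) (ht' : t ≤ b')
    (x y : Site d) (η : Env d) : |psab ρ β b h t a b' x y η| ≤ Bc β b := by
  have := M66.prob_rb hb
  unfold psab
  have h1 := norm_integral_le_of_norm_le_const (μ := law d (rb ρ b))
    (f := fun ξ => Real.log (uab ρ β b h t a b' x y η ξ)) (C := Bc β b)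
    (Filter.Eventually.of_forall fun ξ => by
      rw [Real.norm_eq_abs]
      exact log_uab42 hb h ht ht' x y η ξ)
  simpa using h1

lemma vv_bd42 (hb : HB ρ b) (h : Vec d) {t a b' : ℕ} (ht : a < t) (ht' : t ≤ b')
    (x y : Site d) (η : Env d) :
    0 ≤ vv ρ β b h t a b' x y η ∧ vv ρ β b h t a b' x y η ≤ (2 * Bc β b) ^ 2 := by
  have := M66.prob_rb hb
  constructor
  · exact integral_nonneg fun ξ => sq_nonneg _
  · have h1 := norm_integral_le_of_norm_le_const (μ := law d (rb ρ b))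
      (f := fun ξ => (Real.log (uab ρ β b h t a b' x y η ξ) - psab ρ β b h t a b' x y η) ^ 2)
      (C := (2 * Bc β b) ^ 2) (Filter.Eventually.of_forall fun ξ => by
        have h2 := log_uab42 (β := β) hb h ht ht' x y η ξ
        have h3 := psab_abs42 (β := β) hb h ht ht' x y η
        rw [Real.norm_eq_abs, abs_of_nonneg (sq_nonneg _)]
        refine sq_le_sq' ?_ ?_
        · linarith [(abs_le.1 h2).1, (abs_le.1 h3).2]
        · linarith [(abs_le.1 h2).2, (abs_le.1 h3).1])
    rw [probReal_univ, mul_one] at h1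
    exact (le_abs_self _).trans h1

lemma Jv_bd42 (hd : 0 < d) (hb : HB ρ b) (h : Vec d) {n t a b' : ℕ} (ht : a < t) (ht' : t ≤ b')
    (hn : b' ≤ n) (η : Env d) : |Jv ρ β b h n t a b' η| ≤ (2 * Bc β b) ^ 2 := by
  have hab : a ≤ b' := (ht.trans_le ht').le
  have h0 : 0 ≤ Jv ρ β b h n t a b' η := Finset.sum_nonneg fun x _ => Finset.sum_nonneg fun y _ =>
    mul_nonneg (K20.pab_nonneg20 hd β h η n a b' x y) (vv_bd42 hb h ht ht' x y η).1
  rw [abs_of_nonneg h0]
  calc Jv ρ β b h n t a b' η ≤ ∑ x ∈ boxF d n, ∑ y ∈ boxF d n,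
        pab β h n a b' x y η * (2 * Bc β b) ^ 2 :=
        Finset.sum_le_sum fun x _ => Finset.sum_le_sum fun y _ =>
          mul_le_mul_of_nonneg_left (vv_bd42 hb h ht ht' x y η).2
            (K20.pab_nonneg20 hd β h η n a b' x y)
    _ = (2 * Bc β b) ^ 2 := by
        simp only [← Finset.sum_mul]
        rw [K20.sum_pab_one20 hd β h η hab hn, one_mul]

/-- Leaf V from the site inequality. -/
theorem varL_of (hd : 0 < d) (hρ : EM ρ) (hβ : β ≠ 0) (hb : HB ρ b)
    (hS : ∃ c : ℝ, 0 < c ∧ ∀ (h : Vec d) (n t a b' : ℕ), a < t → t ≤ b' → b' ≤ n → ∀ η : Env d,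
      c * (∑ z ∈ boxF d n, if |η (t, z)| ≤ b then Qt β h n t z η ^ 3 else 0) ≤
        ∑ x ∈ boxF d n, ∑ y ∈ boxF d n, pab β h n a b' x y η *
          (∫ ξ', (Real.log (uab ρ β b h t a b' x y η ξ') - psab ρ β b h t a b' x y η) ^ 2
            ∂(law d (rb ρ b)))) : VarL d ρ β b := by
  classical
  intro g hg
  obtain ⟨c₁, hc₁, hS⟩ := hS
  obtain ⟨c₂, hc₂, hL⟩ := locQ (d := d) hd hρ hβ hb.half g hg
  have := M66.prob_rb hb
  refine ⟨c₁ * c₂, mul_pos hc₁ hc₂, fun h hh n hn t a b' ht ht' hbn => ?_⟩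
  have htn : t ≤ n := ht'.trans hbn.le
  have h1 := hL h hh n hn t (by omega) htn
  have hmp := mix1_96 (d := d) hb t
  have hJm := Jv_meas42 (β := β) hb h n t a b'
  have hJi : Integrable (Jv ρ β b h n t a b') (law d ρ) :=
    (integrable_const ((2 * Bc β b) ^ 2)).mono' hJm.aestronglyMeasurable
      (Filter.Eventually.of_forall fun η => by
        rw [Real.norm_eq_abs]
        exact Jv_bd42 hd hb h ht ht' hbn.le η)
  have h2 : Integrable (fun w : Env d × Env d => Jv ρ β b h n t a b' (mx b t w.1 w.2))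
      ((law d ρ).prod (law d (rb ρ b))) := hmp.integrable_comp_of_integrable hJi
  have h3 : vap ρ β b h n t a b' = ∫ η, Jv ρ β b h n t a b' η ∂(law d ρ) := by
    rw [vap_eq42 hb.b0.le, ← integral_prod _ h2]
    exact LawU_integral hmp hJm.aestronglyMeasurable
  rw [h3]
  have hGm : ∀ z, MeasurableSet {ξ : Env d | |ξ (t, z)| ≤ b} := fun z =>
    measurableSet_le (continuous_abs.measurable.comp (measurable_pi_apply _)) measurable_const
  have hq0 : ∀ (z : Site d) (η : Env d), 0 ≤ Qt β h n t z η := fun z η =>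
    S98.Qt_nonneg hd β h n t z η
  have hq1 : ∀ (z : Site d) (η : Env d), Qt β h n t z η ≤ 1 := fun z η =>
    S98.Qt_le_one hd β h htn z η
  have hFi : ∀ z, Integrable (fun η : Env d =>
      (if |η (t, z)| ≤ b then Qt β h n t z η ^ 3 else 0)) (law d ρ) := fun z =>
    (integrable_const (1 : ℝ)).mono' (Measurable.ite (hGm z)
      ((S98.measurable_Qt β h n t z).pow_const 3) measurable_const).aestronglyMeasurable
      (Filter.Eventually.of_forall fun η => by
        rw [Real.norm_eq_abs]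
        split_ifs
        · rw [abs_of_nonneg (pow_nonneg (hq0 _ _) 3)]
          exact pow_le_one₀ (hq0 _ _) (hq1 _ _)
        · simp)
  have h4 : ∀ η : Env d, c₁ * (∑ z ∈ boxF d t, if |η (t, z)| ≤ b then Qt β h n t z η ^ 3 else 0) ≤
      Jv ρ β b h n t a b' η := by
    intro η
    refine le_trans (mul_le_mul_of_nonneg_left ?_ hc₁.le) (hS h n t a b' ht ht' hbn.le η)
    refine Finset.sum_le_sum_of_subset_of_nonneg (S98.boxF_mono htn) fun z _ _ => ?_
    split_ifs
    · exact pow_nonneg (hq0 _ _) 3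
    · exact le_rfl
  have h5 := integral_mono ((integrable_finsetSum _ fun z _ => hFi z).const_mul c₁) hJi h4
  rw [integral_const_mul] at h5
  exact (mul_le_mul_of_nonneg_left h1 hc₁.le).trans h5

end D

end Pool.Agent.W_7d29a1_NV
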