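import Pool.Agent.W_7d29a1_NV.DefsNV
import Pool.Agent.W_7d29a1_NV.ConA21

/-!
The selection model with one row: the mean variance of the gain against the square of the mean of
the logarithm of the total gain.
-/

namespace Pool.Agent.W_7d29a1_NV

open MeasureTheory ProbabilityTheory Filter Topology

section Abs

variable {Ω S : Type} [MeasurableSpace Ω] [Fintype S] {P : Measure Ω} [IsProbabilityMeasure P]
  {Q : S → ℝ} {u : Fin 1 → S → Ω → ℝ} {B : ℝ}

lemma int_eval21 {f : Ω → ℝ} (hf : Measurable f) :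
    ∫ ω : Fin 1 → Ω, f (ω 0) ∂(Measure.pi fun _ => P) = ∫ x, f x ∂P := by
  have h := measurePreserving_eval (fun _ : Fin 1 => P) 0
  have h1 : AEStronglyMeasurable f (Measure.map (Function.eval (0 : Fin 1))
      (Measure.pi fun _ : Fin 1 => P)) := hf.aestronglyMeasurable
  have h2 := integral_map h.measurable.aemeasurable h1
  rw [h.map_eq] at h2
  exact h2.symm

lemma dT_one21 (ω : Fin 1 → Ω) : dT Q u ω = ∑ s, Q s * u 0 s (ω 0) := by
  unfold dT wT
  refine Finset.sum_congr rfl fun s _ => ?_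
  rw [Fin.prod_univ_one]

lemma u_pos21 (hT : HT P Q u B) (s : S) (x : Ω) : 0 < u 0 s x :=
  lt_of_lt_of_le (Real.exp_pos _) (hT.lo 0 s x)

lemma sum_bds21 (hT : HT P Q u B) (x : Ω) :
    Real.exp (-B) ≤ ∑ s, Q s * u 0 s x ∧ ∑ s, Q s * u 0 s x ≤ Real.exp B := by
  constructor
  · calc Real.exp (-B) = ∑ s, Q s * Real.exp (-B) := by rw [← Finset.sum_mul, hT.q1, one_mul]
      _ ≤ _ := Finset.sum_le_sum fun s _ => mul_le_mul_of_nonneg_left (hT.lo 0 s x) (hT.q0 s)
  · calc _ ≤ ∑ s, Q s * Real.exp B :=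
        Finset.sum_le_sum fun s _ => mul_le_mul_of_nonneg_left (hT.hi 0 s x) (hT.q0 s)
      _ = Real.exp B := by rw [← Finset.sum_mul, hT.q1, one_mul]

lemma abs_log21 {y : ℝ} (h1 : Real.exp (-B) ≤ y) (h2 : y ≤ Real.exp B) : |Real.log y| ≤ B := by
  have hy : 0 < y := lt_of_lt_of_le (Real.exp_pos _) h1
  rw [abs_le]
  constructor
  · rw [Real.le_log_iff_exp_le hy]
    exact h1
  · rw [Real.log_le_iff_le_exp hy]
    exact h2

lemma bdd_int21 {f : Ω → ℝ} (hf : Measurable f) {C : ℝ} (hb : ∀ x, |f x| ≤ C) :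
    Integrable f P := by
  refine Integrable.of_bound hf.aestronglyMeasurable C (Eventually.of_forall fun x => ?_)
  rw [Real.norm_eq_abs]
  exact hb x

lemma psT_sq21 (hB : 0 ≤ B) (hT : HT P Q u B) (s : S) :
    psT P u 0 s ^ 2 ≤ (1 + B) ^ 2 * (2 * Real.exp (2 * B) + 2) * vaT P u 0 s := by
  have hum := hT.um 0 s
  have hlm : Measurable fun x => Real.log (u 0 s x) := Real.measurable_log.comp hum
  have hub : ∀ x, |u 0 s x| ≤ Real.exp B := fun x => by
    rw [abs_of_pos (u_pos21 hT s x)]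
    exact hT.hi 0 s x
  have hlb : ∀ x, |Real.log (u 0 s x)| ≤ B := fun x => abs_log21 (hT.lo 0 s x) (hT.hi 0 s x)
  have hu2 : ∀ x, |u 0 s x ^ 2| ≤ Real.exp B ^ 2 := fun x => by
    rw [abs_pow]
    exact pow_le_pow_left₀ (abs_nonneg _) (hub x) 2
  have hl2 : ∀ x, |Real.log (u 0 s x) ^ 2| ≤ B ^ 2 := fun x => by
    rw [abs_pow]
    exact pow_le_pow_left₀ (abs_nonneg _) (hlb x) 2
  have i1 := bdd_int21 (P := P) hum hub
  have i2 := bdd_int21 (P := P) (hum.pow_const 2) hu2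
  have i3 := bdd_int21 (P := P) hlm hlb
  have i4 := bdd_int21 (P := P) (hlm.pow_const 2) hl2
  have hM : ∫ x, u 0 s x ^ 2 ∂P ≤ Real.exp (2 * B) := by
    have h1 := integral_mono i2 (integrable_const (Real.exp (2 * B))) fun x => by
      show u 0 s x ^ 2 ≤ Real.exp (2 * B)
      have := (le_abs_self _).trans (hu2 x)
      rw [← Real.exp_nat_mul] at this
      push_cast at this
      exact this
    simpa using h1
  have hCp : -B ≤ ∫ x, Real.log (u 0 s x) ∂P := by
    have h1 := integral_mono (integrable_const (-B)) i3 fun x => (abs_le.1 (hlb x)).1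
    simpa using h1
  exact var_log21 (P := P) (u_pos21 hT s) i1 (hT.u1 0 s) i2 hM i3 i4 hCp

/-- The mean variance of the gain controls the square of the mean logarithm of the total gain. -/
theorem absV21 (hB : 0 ≤ B) (hT : HT P Q u B) :
    (∫ ω, Real.log (dT Q u ω) ∂(Measure.pi fun _ => P)) ^ 2 ≤
      Real.exp (2 * B) * ((1 + B) ^ 2 * (2 * Real.exp (2 * B) + 2)) *
        ∫ ω, ∑ s, prT Q u ω s * vaT P u 0 s ∂(Measure.pi fun _ => P) := by
  obtain ⟨C, hC⟩ : ∃ C : ℝ, C = (1 + B) ^ 2 * (2 * Real.exp (2 * B) + 2) := ⟨_, rfl⟩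
  have hC0 : 0 < C := by
    rw [hC]
    have := Real.exp_pos (2 * B)
    positivity
  rw [← hC]
  have hDm : Measurable fun x => ∑ s, Q s * u 0 s x :=
    Finset.measurable_sum _ fun s _ => (hT.um 0 s).const_mul _
  have hDpos : ∀ x, 0 < ∑ s, Q s * u 0 s x := fun x =>
    lt_of_lt_of_le (Real.exp_pos _) (sum_bds21 hT x).1
  have hLm : Measurable fun x => Real.log (∑ s, Q s * u 0 s x) := Real.measurable_log.comp hDm
  have hLb : ∀ x, |Real.log (∑ s, Q s * u 0 s x)| ≤ B := fun x =>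
    abs_log21 (sum_bds21 hT x).1 (sum_bds21 hT x).2
  have hLi := bdd_int21 (P := P) hLm hLb
  have hDi : Integrable (fun x => ∑ s, Q s * u 0 s x) P :=
    bdd_int21 hDm fun x => by
      rw [abs_of_pos (hDpos x)]
      exact (sum_bds21 hT x).2
  have hui : ∀ s, Integrable (u 0 s) P := fun s => bdd_int21 (hT.um 0 s) fun x => by
    rw [abs_of_pos (u_pos21 hT s x)]
    exact hT.hi 0 s x
  have hli : ∀ s, Integrable (fun x => Real.log (u 0 s x)) P := fun s =>
    bdd_int21 (Real.measurable_log.comp (hT.um 0 s)) fun x =>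
      abs_log21 (hT.lo 0 s x) (hT.hi 0 s x)
  have hI : ∫ ω : Fin 1 → Ω, Real.log (dT Q u ω) ∂(Measure.pi fun _ => P) =
      ∫ x, Real.log (∑ s, Q s * u 0 s x) ∂P := by
    rw [← int_eval21 hLm]
    simp only [dT_one21]
  obtain ⟨I, hI'⟩ : ∃ I : ℝ, I = ∫ x, Real.log (∑ s, Q s * u 0 s x) ∂P := ⟨_, rfl⟩
  rw [hI, ← hI']
  have hE : ∫ x, ∑ s, Q s * u 0 s x ∂P = 1 := by
    rw [integral_finsetSum _ fun s _ => (hui s).const_mul _]
    simp only [integral_const_mul, hT.u1, mul_one, hT.q1]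
  have hI0 : I ≤ 0 := by
    have h1 := integral_mono hLi (hDi.sub (integrable_const 1)) fun x =>
      Real.log_le_sub_one_of_pos (hDpos x)
    simp only [Pi.sub_apply] at h1
    rw [integral_sub hDi (integrable_const 1), hE] at h1
    rw [hI']
    simpa using h1
  have hI1 : ∑ s, Q s * psT P u 0 s ≤ I := by
    have h1 : ∑ s, Q s * psT P u 0 s = ∫ x, ∑ s, Q s * Real.log (u 0 s x) ∂P := by
      rw [integral_finsetSum _ fun s _ => (hli s).const_mul _]
      refine Finset.sum_congr rfl fun s _ => ?_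
      rw [integral_const_mul]
      rfl
    rw [h1, hI']
    refine integral_mono (integrable_finsetSum _ fun s _ => (hli s).const_mul _) hLi fun x => ?_
    have h2 := (strictConcaveOn_log_Ioi.concaveOn).le_map_sum (t := (Finset.univ : Finset S))
      (w := Q) (p := fun s => u 0 s x) (fun s _ => hT.q0 s) hT.q1 (fun s _ => u_pos21 hT s x)
    simpa only [smul_eq_mul] using h2
  have hsq : I ^ 2 ≤ ∑ s, Q s * psT P u 0 s ^ 2 := by
    obtain ⟨m, hm⟩ : ∃ m : ℝ, m = ∑ s, Q s * psT P u 0 s := ⟨_, rfl⟩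
    have h1 : I ^ 2 ≤ m ^ 2 := by
      rw [← hm] at hI1
      nlinarith
    have h2 : 0 ≤ ∑ s, Q s * (psT P u 0 s - m) ^ 2 :=
      Finset.sum_nonneg fun s _ => mul_nonneg (hT.q0 s) (sq_nonneg _)
    have h3 : ∑ s, Q s * (psT P u 0 s - m) ^ 2 =
        ∑ s, Q s * psT P u 0 s ^ 2 - 2 * m * ∑ s, Q s * psT P u 0 s + m ^ 2 * ∑ s, Q s := by
      rw [Finset.mul_sum, Finset.mul_sum, ← Finset.sum_sub_distrib, ← Finset.sum_add_distrib]
      exact Finset.sum_congr rfl fun s _ => by ring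
    rw [h3, ← hm, hT.q1] at h2
    linarith
  have hva0 : ∀ s, 0 ≤ vaT P u 0 s := fun s => integral_nonneg fun x => sq_nonneg _
  have hpt : ∀ x, Real.exp (-(2 * B)) * ∑ s, Q s * vaT P u 0 s ≤
      ∑ s, (Q s * u 0 s x / ∑ s, Q s * u 0 s x) * vaT P u 0 s := by
    intro x
    rw [Finset.mul_sum]
    refine Finset.sum_le_sum fun s _ => ?_
    rw [← mul_assoc]
    refine mul_le_mul_of_nonneg_right ?_ (hva0 s)
    rw [le_div_iff₀ (hDpos x)]
    have e1 : Real.exp (-(2 * B)) * Real.exp B = Real.exp (-B) := by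
      rw [← Real.exp_add]
      congr 1
      ring
    calc Real.exp (-(2 * B)) * Q s * ∑ s, Q s * u 0 s x
        ≤ Real.exp (-(2 * B)) * Q s * Real.exp B :=
          mul_le_mul_of_nonneg_left (sum_bds21 hT x).2 (mul_nonneg (Real.exp_pos _).le (hT.q0 s))
      _ = Q s * Real.exp (-B) := by rw [← e1]; ring
      _ ≤ Q s * u 0 s x := mul_le_mul_of_nonneg_left (hT.lo 0 s x) (hT.q0 s)
  have hRm : Measurable fun x => ∑ s, (Q s * u 0 s x / ∑ s, Q s * u 0 s x) * vaT P u 0 s :=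
    Finset.measurable_sum _ fun s _ => (((hT.um 0 s).const_mul _).div hDm).mul_const _
  have hRb : ∀ x, |∑ s, (Q s * u 0 s x / ∑ s, Q s * u 0 s x) * vaT P u 0 s| ≤
      ∑ s, vaT P u 0 s := by
    intro x
    rw [abs_of_nonneg (Finset.sum_nonneg fun s _ => mul_nonneg (div_nonneg
      (mul_nonneg (hT.q0 s) (u_pos21 hT s x).le) (hDpos x).le) (hva0 s))]
    refine Finset.sum_le_sum fun s _ => ?_
    refine mul_le_of_le_one_left (hva0 s) ?_
    rw [div_le_one (hDpos x)]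
    exact Finset.single_le_sum (f := fun s => Q s * u 0 s x)
      (fun s _ => mul_nonneg (hT.q0 s) (u_pos21 hT s x).le) (Finset.mem_univ s)
  have hR : ∫ ω : Fin 1 → Ω, ∑ s, prT Q u ω s * vaT P u 0 s ∂(Measure.pi fun _ => P) =
      ∫ x, ∑ s, (Q s * u 0 s x / ∑ s, Q s * u 0 s x) * vaT P u 0 s ∂P := by
    rw [← int_eval21 hRm]
    refine integral_congr_ae (Eventually.of_forall fun ω => ?_)
    refine Finset.sum_congr rfl fun s _ => ?_
    show prT Q u ω s * vaT P u 0 s = _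
    unfold prT
    rw [dT_one21]
    unfold wT
    rw [Fin.prod_univ_one]
  have hfin : Real.exp (-(2 * B)) * ∑ s, Q s * vaT P u 0 s ≤
      ∫ ω : Fin 1 → Ω, ∑ s, prT Q u ω s * vaT P u 0 s ∂(Measure.pi fun _ => P) := by
    rw [hR]
    have h1 := integral_mono (integrable_const _) (bdd_int21 (P := P) hRm hRb) hpt
    simpa using h1
  have h5 : ∑ s, Q s * psT P u 0 s ^ 2 ≤ C * ∑ s, Q s * vaT P u 0 s := by
    rw [Finset.mul_sum]
    refine Finset.sum_le_sum fun s _ => ?_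
    have h6 := mul_le_mul_of_nonneg_left (psT_sq21 hB hT s) (hT.q0 s)
    rw [← hC] at h6
    linarith
  have h7 : Real.exp (2 * B) * Real.exp (-(2 * B)) = 1 := by
    rw [← Real.exp_add]
    simp
  have h8 := mul_le_mul_of_nonneg_left hfin (Real.exp_pos (2 * B)).le
  rw [← mul_assoc, h7, one_mul] at h8
  calc I ^ 2 ≤ C * ∑ s, Q s * vaT P u 0 s := hsq.trans h5
    _ ≤ C * (Real.exp (2 * B) *
        ∫ ω : Fin 1 → Ω, ∑ s, prT Q u ω s * vaT P u 0 s ∂(Measure.pi fun _ => P)) :=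
      mul_le_mul_of_nonneg_left h8 hC0.le
    _ = _ := by ring

end Abs

end Pool.Agent.W_7d29a1_NV
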